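import Pool.Agent.Lib.MXP.GoodExt

set_option autoImplicit false

/-!
# Module MX.Adm: admissible norms (paper section 4): definitions and first facts
-/

namespace Pool.Agent.Lib.MXP

open Pool.Agent.Lib.MP_3029eb_ag Pool.Agent.Lib.MP_3029eb_ag.Abh Pool.Agent.Lib.TDO
open Pool.Agent.Lib.TU (Mt)

variable {E W : Type} [Field E] [NormedField W] [IsUltrametricDist W] [Algebra E W] {r : ℕ}

/-- `N` is a multiplicative ultrametric norm on the field `M`. -/
structure FN (M : IntermediateField E W) (N : W → ℝ) : Prop where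
  zero : N 0 = 0
  one : N 1 = 1
  pos : ∀ a ∈ M, a ≠ 0 → 0 < N a
  mul : ∀ a ∈ M, ∀ b ∈ M, N (a * b) = N a * N b
  add : ∀ a ∈ M, ∀ b ∈ M, N (a + b) ≤ max (N a) (N b)

/-- `N` is an admissible norm for the triple `c`. -/
structure Adm (E : Type) {W : Type} [Field E] [NormedField W] [IsUltrametricDist W] [Algebra E W]
    {r : ℕ} (c : Tri W r) (N : W → ℝ) : Prop where
  fn : FN (Fr E c) N
  le1 : ∀ z ∈ HO c, N z ≤ 1
  mon : ∀ a : Fin r → ℤ, N (mon c.x a) = ‖mon c.x a‖
  ge : ∀ z ∈ HL c, ‖z‖ ≤ N z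

theorem FN.inv {M : IntermediateField E W} {N : W → ℝ} (h : FN M N) {a : W} (ha : a ∈ M) :
    N a⁻¹ = (N a)⁻¹ := by
  by_cases h0 : a = 0
  · rw [h0, inv_zero, h.zero, inv_zero]
  · have h1 := h.mul a ha a⁻¹ (inv_mem ha)
    rw [mul_inv_cancel₀ h0, h.one] at h1
    exact (eq_inv_of_mul_eq_one_right h1.symm)

theorem FN.neg {M : IntermediateField E W} {N : W → ℝ} (h : FN M N) {a : W} (ha : a ∈ M) :
    N (-a) = N a := by
  have h1 : N (-1) * N (-1) = 1 := by
    rw [← h.mul _ (neg_mem (one_mem M)) _ (neg_mem (one_mem M)), neg_one_mul, neg_neg, h.one]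
  have h2 : 0 < N (-1) := h.pos _ (neg_mem (one_mem M)) (neg_ne_zero.2 one_ne_zero)
  have h3 : N (-1) = 1 := by nlinarith
  rw [← neg_one_mul, h.mul _ (neg_mem (one_mem M)) _ ha, h3, one_mul]

theorem FN.nonneg {M : IntermediateField E W} {N : W → ℝ} (h : FN M N) {a : W} (ha : a ∈ M) :
    0 ≤ N a := by
  by_cases h0 : a = 0
  · rw [h0, h.zero]
  · exact (h.pos a ha h0).le

theorem FN.pow {M : IntermediateField E W} {N : W → ℝ} (h : FN M N) {a : W} (ha : a ∈ M)
    (n : ℕ) : N (a ^ n) = N a ^ n := by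
  induction n with
  | zero => rw [pow_zero, pow_zero, h.one]
  | succ n ih => rw [pow_succ, h.mul _ (pow_mem ha n) _ ha, ih, pow_succ]

theorem FN.zpow {M : IntermediateField E W} {N : W → ℝ} (h : FN M N) {a : W} (ha : a ∈ M)
    (n : ℤ) : N (a ^ n) = N a ^ n := by
  rcases Int.eq_nat_or_neg n with ⟨m, rfl | rfl⟩
  · rw [zpow_natCast, zpow_natCast, h.pow ha]
  · rw [zpow_neg, zpow_neg, zpow_natCast, zpow_natCast, h.inv (pow_mem ha m), h.pow ha]

theorem FN.sum_le {M : IntermediateField E W} {N : W → ℝ} (h : FN M N) {ι : Type}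
    (s : Finset ι) (f : ι → W) (hf : ∀ i ∈ s, f i ∈ M) {C : ℝ} (hC : 0 ≤ C)
    (hN : ∀ i ∈ s, N (f i) ≤ C) : N (∑ i ∈ s, f i) ≤ C := by
  classical
  induction s using Finset.induction_on with
  | empty => rw [Finset.sum_empty, h.zero]; exact hC
  | insert a s ha ih =>
    rw [Finset.sum_insert ha]
    refine (h.add _ (hf a (Finset.mem_insert_self _ _)) _
      (sum_mem fun i hi => hf i (Finset.mem_insert_of_mem hi))).trans (max_le
        (hN a (Finset.mem_insert_self _ _)) (ih (fun i hi => hf i (Finset.mem_insert_of_mem hi))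
          fun i hi => hN i (Finset.mem_insert_of_mem hi)))

end Pool.Agent.Lib.MXP
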