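import Pool.Agent.Lib.MXP.ExpA

/-!
# Module ExpX: expansion of the elements of `HO c`

For all `N`, `J`: `z = P(x, y) + x^N h1 + y^J h2`, the coefficients of `P` are representatives of
residues, the exponents `(a, j)` of `P` satisfy `‖x^N‖ < ‖x^a‖ ≤ 1` and `j < J`.
-/

namespace Pool.Agent.Lib.MXP

open Pool.Agent.Lib.MP_3029eb_ag Pool.Agent.Lib.MP_3029eb_ag.Abh Pool.Agent.Lib.TDO
open Pool.Agent.Lib.TU (Mt exists_Mt)

variable {E W : Type} [Field E] [NormedField W] [IsUltrametricDist W] [Algebra E W] {r p : ℕ}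
  {S : IntermediateField E W} {c : Tri W r}

/-- Every element of a strictly good ring is congruent to a representative. -/
theorem Gd.decS (hok : Gd S c) {x1 : Fin r → W} (h1 : Mt c.x x1)
    (hs : Gs S (⟨Bx c.B x1, x1, c.y⟩ : Tri W r)) {F : Subfield (RW W)} (hF : kap c.B = F)
    {τ : F → W} (hτ : Sec c.B F τ) {z : W} (hz : z ∈ Bx c.B x1) :
    ∃ e : F, z - τ e ∈ JI (Bx c.B x1) x1 c.y := by
  obtain ⟨e0, he0, h2⟩ := hok.dec h1 hs hz
  have h3 : rs e0 ∈ F := by rw [← hF]; exact rs_mem_kap he0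
  refine ⟨⟨rs e0, h3⟩, ?_⟩
  have h4 : z - τ ⟨rs e0, h3⟩ = (z - e0) + (e0 - τ ⟨rs e0, h3⟩) := by ring
  rw [h4]
  refine JI_add h2 (hs.gen _ (le_Bx (sub_mem he0 (hτ.mem _))) ?_)
  rw [← rs_eq_iff (hok.norm_le he0) (hτ.norm _), hτ.rs]

private theorem expX_monN {W : Type} [Field W] {r : ℕ} (x : Fin r → W) (y : W)
    (b : Fin (r + 1) → ℕ) :
    monN (Fin.snoc (α := fun _ => W) x y) b =
      monN x (fun i => b (Fin.castSucc i)) * y ^ b (Fin.last r) := by
  unfold monN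
  rw [Fin.prod_univ_castSucc]
  simp only [Fin.snoc_castSucc, Fin.snoc_last]

private theorem expX_norm {W : Type} [NormedField W] {r : ℕ} (x : Fin r → W) (b : Fin r → ℕ)
    {ρ : ℝ} (h : ∀ i, ‖x i‖ ≤ ρ) : ‖monN x b‖ ≤ ρ ^ (∑ i, b i) := by
  unfold monN
  rw [norm_prod, ← Finset.prod_pow_eq_pow_sum]
  refine Finset.prod_le_prod (fun i _ => norm_nonneg _) fun i _ => ?_
  rw [norm_pow]
  exact pow_le_pow_left₀ (norm_nonneg _) (h i) _

/-- the errors -/
private def ExE (c : Tri W r) (N : Fin r → ℤ) (J : ℕ) (z : W) : Prop :=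
  ∃ h1 ∈ HO c, ∃ h2 ∈ HO c, z = mon c.x N * h1 + c.y ^ J * h2

private theorem exE_add {N : Fin r → ℤ} {J : ℕ} {z z' : W} (h : ExE c N J z)
    (h' : ExE c N J z') : ExE c N J (z + z') := by
  obtain ⟨h1, hh1, h2, hh2, rfl⟩ := h
  obtain ⟨h1', hh1', h2', hh2', rfl⟩ := h'
  exact ⟨h1 + h1', add_mem hh1 hh1', h2 + h2', add_mem hh2 hh2', by ring⟩

private theorem exE_zero {N : Fin r → ℤ} {J : ℕ} : ExE c N J 0 :=
  ⟨0, zero_mem _, 0, zero_mem _, by ring⟩

private theorem exE_sum {N : Fin r → ℤ} {J : ℕ} {ι : Type} (D : Finset ι) (f : ι → W)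
    (h : ∀ i ∈ D, ExE c N J (f i)) : ExE c N J (∑ i ∈ D, f i) := by
  classical
  induction D using Finset.induction_on with
  | empty => exact exE_zero
  | insert a D ha ih =>
    rw [Finset.sum_insert ha]
    exact exE_add (h a (Finset.mem_insert_self _ _))
      (ih fun i hi => h i (Finset.mem_insert_of_mem hi))

/-- Expansion in a given strictly good ring `Bx c.B x'`: the exponents of `P` are those of
monomials in `x'` with exponents `≥ 0`. -/
theorem approxB (hr : 0 < r) (hok : Gd S c) {F : Subfield (RW W)}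
    (hF : kap c.B = F) {τ : F → W} (hτ : Sec c.B F τ) {x' : Fin r → W} (hM : Mt c.x x')
    (hs : Gs S (⟨Bx c.B x', x', c.y⟩ : Tri W r)) {z : W} (hz : z ∈ Bx c.B x') (N : Fin r → ℤ)
    (J : ℕ) :
    ∃ P : LP F r, (∀ a j, P.coeff (a, j) ≠ 0 → ‖mon c.x N‖ < ‖mon c.x a‖ ∧ ‖mon c.x a‖ ≤ 1 ∧
        j < J ∧ ∃ β : Fin r → ℕ, mon c.x a = monN x' β) ∧
      ∃ h1 ∈ HO c, ∃ h2 ∈ HO c, z = evS τ c.x c.y P + mon c.x N * h1 + c.y ^ J * h2 := by
  classical
  have hx := hok.ind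
  have hx' : Indep x' := hM.ind
  have hBHO : ∀ t ∈ Bx c.B x', t ∈ HO c := fun t ht => Bx_mem_HO hok hM ht
  have hyHO : ∀ j : ℕ, c.y ^ j ∈ HO c := fun j => pow_mem (y_mem_HO hok) j
  obtain ⟨ρ, hρ0, hρ1, hρ⟩ : ∃ ρ : ℝ, 0 ≤ ρ ∧ ρ < 1 ∧ ∀ i, ‖x' i‖ ≤ ρ := by
    have : Nonempty (Fin r) := ⟨⟨0, hr⟩⟩
    obtain ⟨i₀, hi₀⟩ := Finite.exists_max (fun i => ‖x' i‖)
    exact ⟨‖x' i₀‖, norm_nonneg _, hx'.lt i₀, hi₀⟩
  obtain ⟨n₁, hn₁⟩ : ∃ n₁ : ℕ, ρ ^ n₁ ≤ ‖mon c.x N‖ := by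
    obtain ⟨n, hn⟩ := exists_pow_lt_of_lt_one (norm_pos_iff.2 (mon_ne c.x hx.ne N)) hρ1
    exact ⟨n, hn.le⟩
  have hle1 : ∀ n : ℕ, ρ ^ n ≤ 1 := fun n => pow_le_one₀ hρ0 hρ1.le
  have hmn : ∀ b : Fin r → ℕ, ∃ a : Fin r → ℤ, monN x' b = mon c.x a ∧
      ‖mon c.x a‖ ≤ ρ ^ (∑ i, b i) := by
    intro b
    obtain ⟨a, ha⟩ := TU.Mt.mon_eq' hx hM fun i => (b i : ℤ)
    rw [T1_mon_natCast] at ha
    exact ⟨a, ha, by rw [← ha]; exact expX_norm x' b hρ⟩
  choose a0 ha0 ha0n using hmn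
  set X : Fin (r + 1) → W := Fin.snoc (α := fun _ => W) x' c.y with hX
  -- small terms are errors
  have herr : ∀ b : Fin (r + 1) → ℕ, ∀ t ∈ HO c,
      (J ≤ b (Fin.last r) ∨ ‖mon c.x (a0 fun i => b (Fin.castSucc i))‖ ≤ ‖mon c.x N‖) →
      ExE c N J (t * monN X b) := by
    intro b t ht hb
    rw [hX, expX_monN, ha0]
    set a := a0 fun i => b (Fin.castSucc i) with hadef
    have ha1 : ‖mon c.x a‖ ≤ 1 := (ha0n _).trans (hle1 _)
    rcases hb with hb | hb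
    · refine ⟨0, zero_mem _, t * (mon c.x a * c.y ^ (b (Fin.last r) - J)),
        mul_mem ht (mul_mem (mon_mem_HO hok ha1) (hyHO _)), ?_⟩
      have h1 : c.y ^ b (Fin.last r) = c.y ^ J * c.y ^ (b (Fin.last r) - J) := by
        rw [← pow_add, Nat.add_sub_cancel' hb]
      rw [h1]
      ring
    · have h1 : mon c.x a = mon c.x N * mon c.x (a - N) := by
        rw [← mon_add c.x hx.ne, add_sub_cancel]
      have h2 : ‖mon c.x (a - N)‖ ≤ 1 := by
        rw [h1, norm_mul] at hb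
        have h4 : 0 < ‖mon c.x N‖ := norm_pos_iff.2 (mon_ne c.x hx.ne N)
        exact le_of_mul_le_mul_left (by rwa [mul_one]) h4
      refine ⟨t * (mon c.x (a - N) * c.y ^ b (Fin.last r)),
        mul_mem ht (mul_mem (mon_mem_HO hok h2) (hyHO _)), 0, zero_mem _, ?_⟩
      rw [h1]
      ring
  -- the expansion
  have hdec : ∀ t ∈ Bx c.B x', ∃ (e : F) (u : Fin (r + 1) → W), (∀ i, u i ∈ Bx c.B x') ∧
      t = τ e + ∑ i, u i * X i := by
    intro t ht
    obtain ⟨e, b, b0, hb, hb0, h1⟩ := hok.decS hM hs hF hτ ht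
    refine ⟨e, Fin.snoc (α := fun _ => W) b b0, ?_, ?_⟩
    · intro i
      refine Fin.lastCases ?_ (fun j => ?_) i
      · rw [Fin.snoc_last]; exact hb0
      · rw [Fin.snoc_castSucc]; exact hb j
    · rw [Fin.sum_univ_castSucc, hX]
      simp only [Fin.snoc_castSucc, Fin.snoc_last]
      rw [← h1]
      ring
  obtain ⟨f, t, ht, hzf⟩ := exp_pow τ hdec hz (n₁ + J)
  have hdisj : ∀ i ∈ Finset.range (n₁ + J), ∀ j ∈ Finset.range (n₁ + J), i ≠ j →
      Disjoint (Finset.piAntidiag (Finset.univ : Finset (Fin (r + 1))) i)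
        (Finset.piAntidiag (Finset.univ : Finset (Fin (r + 1))) j) := by
    intro i _ j _ hij
    rw [Finset.disjoint_left]
    intro b hb hb'
    rw [Finset.mem_piAntidiag] at hb hb'
    exact hij (hb.1.symm.trans hb'.1)
  set D : Finset (Fin (r + 1) → ℕ) := (Finset.range (n₁ + J)).biUnion
    (fun k => Finset.piAntidiag (Finset.univ : Finset (Fin (r + 1))) k) with hD
  rw [← Finset.sum_biUnion hdisj] at hzf
  set good : (Fin (r + 1) → ℕ) → Prop := fun b =>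
    b (Fin.last r) < J ∧ ‖mon c.x N‖ < ‖mon c.x (a0 fun i => b (Fin.castSucc i))‖ with hgood
  set φ : (Fin (r + 1) → ℕ) → (Fin r → ℤ) × ℕ := fun b =>
    (a0 fun i => b (Fin.castSucc i), b (Fin.last r)) with hφ
  have hφinj : Set.InjOn φ (D.filter good) := by
    intro b _ b' _ h
    rw [hφ, Prod.mk.injEq] at h
    have h1 : monN x' (fun i => b (Fin.castSucc i)) = monN x' (fun i => b' (Fin.castSucc i)) := by
      rw [ha0, ha0, h.1]
    have h2 := norm_mon_inj hx' (a := fun i => ((b (Fin.castSucc i) : ℕ) : ℤ))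
      (b := fun i => ((b' (Fin.castSucc i) : ℕ) : ℤ)) (by
        rw [T1_mon_natCast, T1_mon_natCast, h1])
    funext i
    refine Fin.lastCases ?_ (fun j => ?_) i
    · exact h.2
    · exact_mod_cast congrFun h2 j
  obtain ⟨P, -, hP2, hP3⟩ := exists_LP hτ.zero c.x c.y (D.filter good) φ hφinj f
  refine ⟨P, ?_, ?_⟩
  · intro a j h
    obtain ⟨b, hb, hbe, -⟩ := hP2 (a, j) h
    rw [Finset.mem_filter] at hb
    rw [hφ, Prod.mk.injEq] at hbe
    obtain ⟨h1, h2⟩ := hb.2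
    rw [hbe.1] at h2
    rw [hbe.2] at h1
    refine ⟨h2, ?_, h1, fun i => b (Fin.castSucc i), ?_⟩
    · rw [← hbe.1]
      exact (ha0n _).trans (hle1 _)
    · rw [ha0, hbe.1]
  · have hE : ExE c N J (z - evS τ c.x c.y P) := by
      rw [← Finset.sum_filter_add_sum_filter_not D good] at hzf
      have h1 : ∑ b ∈ D.filter good, τ (f b) * monN X b = evS τ c.x c.y P := by
        rw [hP3]
        refine Finset.sum_congr rfl fun b _ => ?_
        rw [hX, expX_monN, ha0]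
      have h2 : z - evS τ c.x c.y P = (∑ b ∈ D.filter (fun b => ¬ good b), τ (f b) * monN X b) +
          ∑ b ∈ Finset.piAntidiag Finset.univ (n₁ + J), t b * monN X b := by
        rw [← h1, hzf]
        ring
      rw [h2]
      refine exE_add (exE_sum _ _ fun b hb => ?_) (exE_sum _ _ fun b hb => ?_)
      · rw [Finset.mem_filter] at hb
        refine herr b _ (B_mem_HO hok (hτ.mem _)) ?_
        by_contra hcon
        push Not at hcon
        exact hb.2 hcon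
      · rw [Finset.mem_piAntidiag] at hb
        refine herr b _ (hBHO _ (ht b)) ?_
        by_cases hj : J ≤ b (Fin.last r)
        · exact Or.inl hj
        · right
          refine (ha0n _).trans ((pow_le_pow_of_le_one hρ0 hρ1.le ?_).trans hn₁)
          have h3 := hb.1
          rw [Fin.sum_univ_castSucc] at h3
          omega
    obtain ⟨h1, hh1, h2, hh2, h3⟩ := hE
    exact ⟨h1, hh1, h2, hh2, by rw [add_assoc, ← h3]; ring⟩

/-- Expansion of an element of `HO c`. -/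
theorem HO_approxS (hr : 0 < r) (hok : Gd S c) {F : Subfield (RW W)}
    (hF : kap c.B = F) {τ : F → W} (hτ : Sec c.B F τ) {z : W} (hz : z ∈ HO c) (N : Fin r → ℤ)
    (J : ℕ) :
    ∃ P : LP F r, (∀ a j, P.coeff (a, j) ≠ 0 → ‖mon c.x N‖ < ‖mon c.x a‖ ∧ ‖mon c.x a‖ ≤ 1 ∧
        j < J) ∧
      ∃ h1 ∈ HO c, ∃ h2 ∈ HO c, z = evS τ c.x c.y P + mon c.x N * h1 + c.y ^ J * h2 := by
  obtain ⟨x', hM, hs, hzB, -⟩ := exists_model hok {z} (fun w hw => by
    rw [Finset.mem_singleton.1 hw]; exact hz) ∅ (fun a ha => absurd ha (Finset.notMem_empty a))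
  obtain ⟨P, hP, h1, hh1, h2, hh2, h3⟩ := approxB hr hok hF hτ hM hs
    (hzB z (Finset.mem_singleton_self z)) N J
  exact ⟨P, fun a j h => ⟨(hP a j h).1, (hP a j h).2.1, (hP a j h).2.2.1⟩, h1, hh1, h2, hh2, h3⟩

end Pool.Agent.Lib.MXP
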