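import Pool.Agent.Lib.MXP.SepA
import Pool.Agent.Lib.TDO.Iso

/-!
# Module MX.AutX: automorphisms of the ambient field

`W` is algebraically closed and algebraic over `L`, so normal over `L`: `σ : N ≃ₐ[L] N` extends to
`σ̃ = σ.liftNormal W : W ≃ₐ[L] W`, an isometry (`isometry_of_complete`).  `S` is separable over `F0 ≤ L`, and
separably closed in `W`, so `σ̃` maps `S` to `S`.
-/

namespace Pool.Agent.Lib.MXP

open Pool.Agent.Lib.MP_3029eb_ag Pool.Agent.Lib.MP_3029eb_ag.Abh Pool.Agent.Lib.TDO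

private theorem iso_aux {k W : Type} [Field k] [NormedField W] [IsUltrametricDist W]
    [Algebra k W] (L : IntermediateField k W) (hL : IsComplete (L : Set W))
    (hnt : ∃ z ∈ L, z ≠ 0 ∧ ‖z‖ < 1) (halg : ∀ z : W, IsAlgebraic L z)
    (φ : W ≃ₐ[L] W) (z : W) : ‖φ z‖ = ‖z‖ := by
  have hW : Algebra.IsAlgebraic L W := ⟨halg⟩
  have _ : Algebra.IsAlgebraic L (⊤ : IntermediateField L W) := inferInstance
  let ψ : (⊤ : IntermediateField L W) ≃ₐ[L] (⊤ : IntermediateField L W) :=
    (IntermediateField.topEquiv.trans φ).trans IntermediateField.topEquiv.symm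
  have h := isometry_of_complete L hL hnt (⊤ : IntermediateField L W) ψ
    ⟨z, IntermediateField.mem_top⟩
  exact h

private theorem sep_aux {k W : Type} [Field k] [Field W] [Algebra k W]
    (F0 L : IntermediateField k W) (hFL : F0 ≤ L) (φ : W ≃ₐ[L] W) (z : W)
    (hz : IsSeparable F0 z) : IsSeparable F0 (φ z) := by
  let φ' : W ≃ₐ[F0] W := AlgEquiv.ofRingEquiv (f := φ.toRingEquiv) (fun a => by
    have h := φ.commutes ⟨(a : W), hFL a.2⟩
    exact h)
  have h : minpoly F0 (φ' z) = minpoly F0 z := minpoly.algEquiv_eq φ' z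
  have h2 : φ' z = φ z := rfl
  rw [IsSeparable, ← h2, h]
  exact hz

/-- See the header. -/
theorem exists_actX {k W : Type} [Field k] [NormedField W] [IsUltrametricDist W]
    [Algebra k W] [IsAlgClosed W] (S F0 L : IntermediateField k W)
    (hS : ∀ z : W, IsSeparable S z → z ∈ S) (hFS : F0 ≤ S) (hSF : ∀ z ∈ S, IsSeparable F0 z)
    (hFL : F0 ≤ L) (hL : IsComplete (L : Set W))
    (hnt : ∃ z ∈ L, z ≠ 0 ∧ ‖z‖ < 1) (halg : ∀ z : W, IsAlgebraic L z)
    (N : IntermediateField L W) [FiniteDimensional L N] [IsGalois L N] :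
    ∃ act : Act (N ≃ₐ[L] N) S L (N.restrictScalars k),
      ∀ (σ : N ≃ₐ[L] N) (z : N), act.f σ (z : W) = ((σ z : N) : W) := by
  have hW : Algebra.IsAlgebraic L W := ⟨halg⟩
  have hc : IsAlgClosure L W := ⟨inferInstance, hW⟩
  have hn : Normal L W := IsAlgClosure.normal L W
  have hcomm : ∀ (σ : N ≃ₐ[L] N) (z : N), σ.liftNormal W (z : W) = ((σ z : N) : W) :=
    fun σ z => σ.liftNormal_commutes W z
  refine ⟨{ f := fun σ => (σ.liftNormal W).toAlgHom.restrictScalars k
            iso := fun σ z => iso_aux L hL hnt halg (σ.liftNormal W) z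
            memL := fun σ z hz => ?_
            memS := fun σ z hz => ?_
            one := fun z hz => ?_
            mul := fun σ τ z hz => ?_
            fix := fun z hz => ?_ }, fun σ z => hcomm σ z⟩
  · have h := hcomm σ ⟨z, hz⟩
    change σ.liftNormal W z ∈ N
    have h' : σ.liftNormal W z = ((σ ⟨z, hz⟩ : N) : W) := h
    rw [h']
    exact (σ ⟨z, hz⟩ : N).2
  · change σ.liftNormal W z ∈ S
    exact hS _ (sep_le hFS (sep_aux F0 L hFL (σ.liftNormal W) z (hSF z hz)))
  · have h := hcomm 1 ⟨z, hz⟩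
    exact h
  · have h1 := hcomm (σ * τ) ⟨z, hz⟩
    have h2 := hcomm τ ⟨z, hz⟩
    have h3 := hcomm σ (τ ⟨z, hz⟩)
    change (σ * τ).liftNormal W z = σ.liftNormal W (τ.liftNormal W z)
    have h1' : (σ * τ).liftNormal W z = (((σ * τ) ⟨z, hz⟩ : N) : W) := h1
    have h2' : τ.liftNormal W z = ((τ ⟨z, hz⟩ : N) : W) := h2
    rw [h1', h2', h3]
    rfl
  · have hfix := IsGalois.mem_range_algebraMap_iff_fixed (F := L) (E := N) (⟨z, hz⟩ : N)
    constructor
    · intro h
      have h1 : (⟨z, hz⟩ : N) ∈ Set.range (algebraMap L N) := by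
        rw [hfix]
        intro σ
        apply Subtype.ext
        rw [← hcomm σ ⟨z, hz⟩]
        exact h σ
      obtain ⟨a, ha⟩ := h1
      have h2 := congrArg (fun u : N => (u : W)) ha
      have h3 : (a : W) = z := h2
      rw [← h3]
      exact a.2
    · intro h σ
      change σ.liftNormal W z = z
      exact (σ.liftNormal W).commutes ⟨z, h⟩

end Pool.Agent.Lib.MXP
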