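import Pool.Agent.Lib.MXP.SepA
import Pool.Agent.Lib.TU.MtB
import Pool.Agent.Lib.MP_3029eb_ag.AbhBase
import Pool.Agent.Lib.MP_3029eb_ag.Comp1

/-!
# Module BxB: basic properties of the rings `Bx B x'` and of good triples
-/

namespace Pool.Agent.Lib.MXP

open Pool.Agent.Lib.MP_3029eb_ag Pool.Agent.Lib.MP_3029eb_ag.Abh Pool.Agent.Lib.TDO
open Pool.Agent.Lib.TU (Mt exists_Mt)

section JI

variable {W : Type} [NormedField W] [IsUltrametricDist W] {r : ℕ}

/-- The ideal of the ring `A` generated by the `x i` and `y`. -/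
def JI (A : Subring W) (x : Fin r → W) (y : W) : Set W :=
  {z | ∃ (b : Fin r → W) (b0 : W), (∀ i, b i ∈ A) ∧ b0 ∈ A ∧ z = ∑ i, b i * x i + b0 * y}

variable {A : Subring W} {x : Fin r → W} {y : W}

theorem JI_zero : (0 : W) ∈ JI A x y :=
  ⟨fun _ => 0, 0, fun _ => zero_mem _, zero_mem _, by simp⟩

theorem JI_add {z w : W} (hz : z ∈ JI A x y) (hw : w ∈ JI A x y) : z + w ∈ JI A x y := by
  obtain ⟨b, b0, hb, hb0, rfl⟩ := hz
  obtain ⟨d, d0, hd, hd0, rfl⟩ := hw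
  refine ⟨fun i => b i + d i, b0 + d0, fun i => add_mem (hb i) (hd i), add_mem hb0 hd0, ?_⟩
  simp only [add_mul, Finset.sum_add_distrib]
  ring

theorem JI_mul {z w : W} (hz : z ∈ A) (hw : w ∈ JI A x y) : z * w ∈ JI A x y := by
  obtain ⟨d, d0, hd, hd0, rfl⟩ := hw
  refine ⟨fun i => z * d i, z * d0, fun i => mul_mem hz (hd i), mul_mem hz hd0, ?_⟩
  rw [mul_add, Finset.mul_sum]
  congr 1
  · exact Finset.sum_congr rfl fun i _ => by ring
  · ring

theorem JI_neg {z : W} (hz : z ∈ JI A x y) : -z ∈ JI A x y := by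
  have h1 := JI_mul (z := -1) (neg_mem (one_mem A)) hz
  rwa [neg_one_mul] at h1

theorem JI_sub {z w : W} (hz : z ∈ JI A x y) (hw : w ∈ JI A x y) : z - w ∈ JI A x y := by
  rw [sub_eq_add_neg]
  exact JI_add hz (JI_neg hw)

theorem JI_sum {ι : Type} (s : Finset ι) (f : ι → W) (h : ∀ i ∈ s, f i ∈ JI A x y) :
    ∑ i ∈ s, f i ∈ JI A x y := by
  classical
  induction s using Finset.induction_on with
  | empty => rw [Finset.sum_empty]; exact JI_zero
  | insert a s ha ih =>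
    rw [Finset.sum_insert ha]
    exact JI_add (h a (Finset.mem_insert_self a s))
      (ih fun i hi => h i (Finset.mem_insert_of_mem hi))

theorem JI_x (i : Fin r) : x i ∈ JI A x y := by
  classical
  refine ⟨fun j => if j = i then 1 else 0, 0, fun j => ?_, zero_mem _, ?_⟩
  · dsimp only
    split_ifs
    · exact one_mem _
    · exact zero_mem _
  · simp

theorem JI_y : y ∈ JI A x y :=
  ⟨fun _ => 0, 1, fun _ => zero_mem _, one_mem _, by simp⟩

theorem JI_mem (hx : ∀ i, x i ∈ A) (hy : y ∈ A) {z : W} (hz : z ∈ JI A x y) : z ∈ A := by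
  obtain ⟨b, b0, hb, hb0, rfl⟩ := hz
  exact add_mem (sum_mem fun i _ => mul_mem (hb i) (hx i)) (mul_mem hb0 hy)

theorem JI_mono {A' : Subring W} (h : A ≤ A') {z : W} (hz : z ∈ JI A x y) : z ∈ JI A' x y := by
  obtain ⟨b, b0, hb, hb0, rfl⟩ := hz
  exact ⟨b, b0, fun i => h (hb i), h hb0, rfl⟩

theorem JI_le {x' : Fin r → W} {y' : W} (hx : ∀ i, x i ∈ JI A x' y') (hy : y ∈ JI A x' y') {z : W}
    (hz : z ∈ JI A x y) : z ∈ JI A x' y' := by
  obtain ⟨b, b0, hb, hb0, rfl⟩ := hz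
  exact JI_add (JI_sum _ _ fun i _ => JI_mul (hb i) (hx i)) (JI_mul hb0 hy)

theorem JI_lt (hA : ∀ z ∈ A, ‖z‖ ≤ 1) (hx : ∀ i, ‖x i‖ < 1) (hy : ‖y‖ < 1) {z : W}
    (hz : z ∈ JI A x y) : ‖z‖ < 1 := by
  obtain ⟨b, b0, hb, hb0, rfl⟩ := hz
  refine (IsUltrametricDist.norm_add_le_max _ _).trans_lt (max_lt ?_ ?_)
  · rcases (Finset.univ : Finset (Fin r)).eq_empty_or_nonempty with h | h
    · rw [h, Finset.sum_empty, norm_zero]; exact one_pos
    · obtain ⟨i, -, hi⟩ := IsUltrametricDist.exists_norm_finsetSum_le_of_nonempty h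
        fun i : Fin r => b i * x i
      refine hi.trans_lt ?_
      rw [norm_mul]
      exact (mul_le_of_le_one_left (norm_nonneg _) (hA _ (hb i))).trans_lt (hx i)
  · rw [norm_mul]
    exact (mul_le_of_le_one_left (norm_nonneg _) (hA _ hb0)).trans_lt hy

theorem JI_monN (hx : ∀ i, x i ∈ A) {β : Fin r → ℕ} (hβ : β ≠ 0) : monN x β ∈ JI A x y := by
  obtain ⟨i, hi⟩ := Function.ne_iff.1 hβ
  rw [Pi.zero_apply] at hi
  have h1 : monN x β = (x i ^ (β i - 1) * ∏ j ∈ Finset.univ.erase i, x j ^ β j) * x i := by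
    rw [monN, ← Finset.mul_prod_erase _ _ (Finset.mem_univ i), mul_right_comm, ← pow_succ]
    congr 2
    omega
  rw [h1]
  refine JI_mul (mul_mem (pow_mem (hx i) _) ?_) (JI_x i)
  exact prod_mem fun j _ => pow_mem (hx j) _

/-- `locV (ball W) A` contains the inverses of its elements of norm one. -/
theorem inv_mem_locV {A : Subring W} {z : W} (hz : z ∈ locV (ball W) A) (h1 : ‖z‖ = 1) :
    z⁻¹ ∈ locV (ball W) A := by
  obtain ⟨a, ha, b, hb, hb1, h⟩ := hz
  have hz0 : z ≠ 0 := by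
    rintro rfl
    rw [norm_zero] at h1
    exact zero_ne_one h1
  refine ⟨b, hb, a, ha, ?_, ?_⟩
  · rw [ball_val_eq_one] at hb1 ⊢
    rw [← h, norm_mul, h1, hb1, mul_one]
  · rw [← h, inv_mul_cancel_left₀ hz0]

/-- `locV (ball W) (closure X)` is contained in every subring containing `X` and the inverses of
its elements of norm one. -/
theorem locV_closure_le {X : Set W} (B : Subring W) (hX : ∀ z ∈ X, z ∈ B)
    (hinv : ∀ z ∈ B, ‖z‖ = 1 → z⁻¹ ∈ B) {z : W}
    (hz : z ∈ locV (ball W) (Subring.closure X)) : z ∈ B := by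
  have h1 : Subring.closure X ≤ B := by
    rw [Subring.closure_le]
    exact hX
  obtain ⟨a, ha, b, hb, hb1, h⟩ := hz
  rw [ball_val_eq_one] at hb1
  have hb0 : b ≠ 0 := by
    rintro rfl
    rw [norm_zero] at hb1
    exact zero_ne_one hb1
  have h2 : z = a * b⁻¹ := by
    rw [← h, mul_inv_cancel_right₀ hb0]
  rw [h2]
  exact B.mul_mem (h1 ha) (hinv b (h1 hb) hb1)

theorem subset_locV_closure {X : Set W} {z : W} (hz : z ∈ X) :
    z ∈ locV (ball W) (Subring.closure X) :=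
  le_locV _ _ (Subring.subset_closure hz)

theorem norm_le_locV_closure {X : Set W} (hX : ∀ z ∈ X, ‖z‖ ≤ 1) {z : W}
    (hz : z ∈ locV (ball W) (Subring.closure X)) : ‖z‖ ≤ 1 := by
  have h1 : Subring.closure X ≤ (ball W).toSubring := by
    rw [Subring.closure_le]
    exact hX
  obtain ⟨a, ha, b, hb, hb1, h⟩ := hz
  rw [ball_val_eq_one] at hb1
  have h2 : ‖a‖ ≤ 1 := h1 ha
  rw [← h, norm_mul, hb1, mul_one] at h2
  exact h2

theorem JI_norm_eq_one {e z : W} (h1 : ‖z‖ = 1) (h2 : ‖z - e‖ < 1) : ‖e‖ = 1 := by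
  have h3 : e = z + -(z - e) := by ring
  have h4 : ‖-(z - e)‖ < ‖z‖ := by rw [norm_neg, h1]; exact h2
  rw [h3, IsUltrametricDist.norm_add_eq_max_of_norm_ne_norm h4.ne', max_eq_left h4.le, h1]

/-- The subring of the elements of `A` which are congruent to elements of `B` modulo `JI`. -/
def JD (B A : Subring W) (hBA : B ≤ A) (x : Fin r → W) (y : W) : Subring W where
  carrier := {z | z ∈ A ∧ ∃ e ∈ B, z - e ∈ JI A x y}
  mul_mem' := by
    rintro z w ⟨hz, e, he, hze⟩ ⟨hw, f, hf, hwf⟩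
    refine ⟨mul_mem hz hw, e * f, mul_mem he hf, ?_⟩
    have h1 : z * w - e * f = w * (z - e) + e * (w - f) := by ring
    rw [h1]
    exact JI_add (JI_mul hw hze) (JI_mul (hBA he) hwf)
  one_mem' := ⟨one_mem _, 1, one_mem _, by rw [sub_self]; exact JI_zero⟩
  add_mem' := by
    rintro z w ⟨hz, e, he, hze⟩ ⟨hw, f, hf, hwf⟩
    refine ⟨add_mem hz hw, e + f, add_mem he hf, ?_⟩
    rw [add_sub_add_comm]
    exact JI_add hze hwf
  zero_mem' := ⟨zero_mem _, 0, zero_mem _, by rw [sub_self]; exact JI_zero⟩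
  neg_mem' := by
    rintro z ⟨hz, e, he, hze⟩
    refine ⟨neg_mem hz, -e, neg_mem he, ?_⟩
    have h1 : -z - -e = -(z - e) := by ring
    rw [h1]
    exact JI_neg hze

/-- Ring extensions without new residues: if `A = locV B[X]`, every element of `X` is congruent to
an element of `B` modulo the ideal `(x, y) A`, and every element of `B` of norm less than one is in
this ideal, then every element of `A` is congruent to an element of `B` modulo `(x, y) A` and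
`(x, y) A` is the maximal ideal of `A`. -/
theorem gen_ext {B A : Subring W} {x : Fin r → W} {y : W}
    (hBinv : ∀ z ∈ B, ‖z‖ = 1 → z⁻¹ ∈ B) (X : Set W)
    (hA : A = locV (ball W) (Subring.closure ((B : Set W) ∪ X))) (hAn : ∀ z ∈ A, ‖z‖ ≤ 1)
    (hx : ∀ i, ‖x i‖ < 1) (hy : ‖y‖ < 1)
    (hX : ∀ g ∈ X, ∃ e ∈ B, g - e ∈ JI A x y) (hB : ∀ z ∈ B, ‖z‖ < 1 → z ∈ JI A x y) :
    (∀ z ∈ A, ∃ e ∈ B, z - e ∈ JI A x y) ∧ ∀ z ∈ A, ‖z‖ < 1 → z ∈ JI A x y := by
  have hBA : B ≤ A := fun z hz => by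
    rw [hA]
    exact subset_locV_closure (Or.inl hz)
  have hXA : ∀ z ∈ X, z ∈ A := fun z hz => by
    rw [hA]
    exact subset_locV_closure (Or.inr hz)
  have hinvA : ∀ z ∈ A, ‖z‖ = 1 → z⁻¹ ∈ A := by
    rw [hA]
    intro z hz h1
    exact inv_mem_locV hz h1
  have key : ∀ z ∈ A, z ∈ JD B A hBA x y := by
    intro z hz
    rw [hA] at hz
    refine locV_closure_le (JD B A hBA x y) ?_ ?_ hz
    · rintro w (hw | hw)
      · exact ⟨hBA hw, w, hw, by rw [sub_self]; exact JI_zero⟩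
      · exact ⟨hXA w hw, hX w hw⟩
    · rintro w ⟨hwA, e, he, hwe⟩ hw1
      have he1 : ‖e‖ = 1 := JI_norm_eq_one hw1 (JI_lt hAn hx hy hwe)
      have hw0 : w ≠ 0 := by
        rintro rfl
        rw [norm_zero] at hw1
        exact zero_ne_one hw1
      have he0 : e ≠ 0 := by
        rintro rfl
        rw [norm_zero] at he1
        exact zero_ne_one he1
      have hwi := hinvA w hwA hw1
      refine ⟨hwi, e⁻¹, hBinv e he he1, ?_⟩
      have h2 : w⁻¹ - e⁻¹ = (w⁻¹ * e⁻¹) * (-(w - e)) := by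
        field_simp
        ring
      rw [h2]
      exact JI_mul (mul_mem hwi (hBA (hBinv e he he1))) (JI_neg hwe)
  refine ⟨fun z hz => (key z hz).2, fun z hz h1 => ?_⟩
  obtain ⟨-, e, he, hze⟩ := key z hz
  have h2 : ‖e‖ < 1 := by
    have h3 : e = z + -(z - e) := by ring
    rw [h3]
    refine (IsUltrametricDist.norm_add_le_max _ _).trans_lt (max_lt h1 ?_)
    rw [norm_neg]
    exact JI_lt hAn hx hy hze
  have h4 : z = (z - e) + e := by ring
  rw [h4]
  exact JI_add hze (hB e he h2)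

theorem isLocalRing_of_inv (A : Subring W) (hn : ∀ z ∈ A, ‖z‖ ≤ 1)
    (hinv : ∀ z ∈ A, ‖z‖ = 1 → z⁻¹ ∈ A) : IsLocalRing A := by
  have key : ∀ z : A, IsUnit z ↔ ‖(z : W)‖ = 1 := by
    intro z
    constructor
    · rintro ⟨u, rfl⟩
      refine le_antisymm (hn _ (u : A).2) ?_
      have h1 : ‖((u : A) : W)‖ * ‖(((u⁻¹ : Aˣ) : A) : W)‖ = 1 := by
        rw [← norm_mul]
        have h2 : ((u : A) : W) * (((u⁻¹ : Aˣ) : A) : W) = 1 := by
          have h3 : (u : A) * ((u⁻¹ : Aˣ) : A) = 1 := Units.mul_inv u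
          exact_mod_cast congrArg (Subtype.val) h3
        rw [h2, norm_one]
      have h2 := hn _ ((u⁻¹ : Aˣ) : A).2
      have h3 := norm_nonneg ((u : A) : W)
      nlinarith
    · intro h1
      have h0 : (z : W) ≠ 0 := by
        intro h0
        rw [h0, norm_zero] at h1
        exact zero_ne_one h1
      exact IsUnit.of_mul_eq_one ⟨(z : W)⁻¹, hinv _ z.2 h1⟩ (Subtype.ext (mul_inv_cancel₀ h0))
  refine IsLocalRing.of_nonunits_add fun a b ha hb => ?_
  rw [mem_nonunits_iff, key] at ha hb ⊢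
  have h1 : ‖(a : W)‖ < 1 := lt_of_le_of_ne (hn _ a.2) ha
  have h2 : ‖(b : W)‖ < 1 := lt_of_le_of_ne (hn _ b.2) hb
  push_cast
  exact ((IsUltrametricDist.norm_add_le_max _ _).trans_lt (max_lt h1 h2)).ne

end JI

section Bx

variable {W : Type} [NormedField W] [IsUltrametricDist W] {r : ℕ} {B : Subring W}
  {x' : Fin r → W}

theorem le_Bx : B ≤ Bx B x' := fun _ hz => subset_locV_closure (Or.inl hz)

theorem x_mem_Bx (i : Fin r) : x' i ∈ Bx B x' := subset_locV_closure (Or.inr ⟨i, rfl⟩)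

theorem inv_mem_Bx {z : W} (hz : z ∈ Bx B x') (h1 : ‖z‖ = 1) : z⁻¹ ∈ Bx B x' :=
  inv_mem_locV hz h1

theorem Bx_le (A : Subring W) (hB : ∀ z ∈ B, z ∈ A) (hx : ∀ i, x' i ∈ A)
    (hinv : ∀ z ∈ A, ‖z‖ = 1 → z⁻¹ ∈ A) {z : W} (hz : z ∈ Bx B x') : z ∈ A := by
  refine locV_closure_le A ?_ hinv hz
  rintro w (hw | ⟨i, rfl⟩)
  · exact hB w hw
  · exact hx i

theorem norm_le_Bx (hB : ∀ z ∈ B, ‖z‖ ≤ 1) (hx' : Indep x') {z : W} (hz : z ∈ Bx B x') :
    ‖z‖ ≤ 1 := by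
  refine norm_le_locV_closure ?_ hz
  rintro w (hw | ⟨i, rfl⟩)
  · exact hB w hw
  · exact (hx'.lt i).le

theorem monN_mem_Bx (β : Fin r → ℕ) : monN x' β ∈ Bx B x' := by
  unfold monN
  exact Subring.prod_mem _ fun i _ => Subring.pow_mem _ (x_mem_Bx i) _

theorem Bx_mono {x : Fin r → W} (hx : ∀ i, ∃ β : Fin r → ℕ, x i = monN x' β) {z : W}
    (hz : z ∈ Bx B x) : z ∈ Bx B x' := by
  refine Bx_le _ (fun w hw => le_Bx hw) (fun i => ?_) (fun w hw h1 => inv_mem_Bx hw h1) hz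
  obtain ⟨β, hβ⟩ := hx i
  rw [hβ]
  exact monN_mem_Bx β

theorem Bx_Bx {x : Fin r → W} (hx : ∀ i, ∃ β : Fin r → ℕ, x i = monN x' β) :
    Bx (Bx B x) x' = Bx B x' := by
  apply le_antisymm
  · intro z hz
    refine Bx_le _ (fun w hw => Bx_mono hx hw) (fun i => x_mem_Bx i)
      (fun w hw h1 => inv_mem_Bx hw h1) hz
  · intro z hz
    refine Bx_le _ (fun w hw => le_Bx (le_Bx hw)) (fun i => x_mem_Bx i)
      (fun w hw h1 => inv_mem_Bx hw h1) hz

theorem Bx_self {x : Fin r → W} (hx : ∀ i, x i ∈ B) (hinv : ∀ z ∈ B, ‖z‖ = 1 → z⁻¹ ∈ B) :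
    Bx B x = B := by
  apply le_antisymm
  · intro z hz
    exact Bx_le B (fun w hw => hw) hx hinv hz
  · exact le_Bx

theorem Mt.x_monN {x : Fin r → W} (h : Mt x x') (i : Fin r) : ∃ β : Fin r → ℕ, x i = monN x' β := by
  obtain ⟨A, B, h1, -, -⟩ := h.mat
  exact ⟨A i, h1 i⟩

end Bx

variable {E W : Type} [Field E] [NormedField W] [IsUltrametricDist W] [Algebra E W] {r : ℕ}
  {S : IntermediateField E W} {c : Tri W r}

theorem Gs.inv (h : Gs S c) {z : W} (hz : z ∈ c.B) (h1 : ‖z‖ = 1) : z⁻¹ ∈ c.B := by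
  obtain ⟨G, hG⟩ := h.fg
  rw [hG] at hz ⊢
  exact inv_mem_locV hz h1

theorem Gd.inv (h : Gd S c) {z : W} (hz : z ∈ c.B) (h1 : ‖z‖ = 1) : z⁻¹ ∈ c.B := by
  obtain ⟨G, hG⟩ := h.fg
  rw [hG] at hz ⊢
  exact inv_mem_locV hz h1

theorem Gs.isLocal (h : Gs S c) : IsLocalRing c.B :=
  isLocalRing_of_inv c.B (fun z hz => (h.le z hz).2) fun _ hz h1 => h.inv hz h1

theorem Gd.norm_le (h : Gd S c) {z : W} (hz : z ∈ c.B) : ‖z‖ ≤ 1 := by
  obtain ⟨x1, -, h2⟩ := h.ex
  exact (h2.le z (le_Bx hz)).2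

theorem Gd.mem_S (h : Gd S c) {z : W} (hz : z ∈ c.B) : z ∈ S := by
  obtain ⟨x1, -, h2⟩ := h.ex
  exact (h2.le z (le_Bx hz)).1

theorem Gd.xS (h : Gd S c) (i : Fin r) : c.x i ∈ S := h.mem_S (h.xB i)

theorem Gd.monS (h : Gd S c) (a : Fin r → ℤ) : mon c.x a ∈ S := by
  unfold mon
  exact prod_mem fun i _ => zpow_mem (h.xS i) _

theorem Gd.lam_le (h : Gd S c) : Lam E W ≤ c.B := by
  obtain ⟨G, hG⟩ := h.fg
  rw [hG]
  intro z hz
  exact subset_locV_closure (Or.inl hz)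

theorem Gs.lam_le (h : Gs S c) : Lam E W ≤ c.B := by
  obtain ⟨G, hG⟩ := h.fg
  rw [hG]
  intro z hz
  exact subset_locV_closure (Or.inl hz)

/-- Algebraicity over a larger subring. -/
theorem isAlgebraic_mono {A A' : Subring W} (h : A ≤ A') {z : W} (hz : IsAlgebraic A z) :
    IsAlgebraic A' z := by
  obtain ⟨P, hP, h0⟩ := hz
  refine ⟨P.map (Subring.inclusion h), ?_, ?_⟩
  · rw [Ne, Polynomial.map_eq_zero_iff]
    · exact hP
    · exact Subring.inclusion_injective h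
  · rw [Polynomial.aeval_def, Polynomial.eval₂_map]
    rw [Polynomial.aeval_def] at h0
    exact h0

/-- Finite generation of `Bx`. -/
theorem fg_Bx {B : Subring W} (x' : Fin r → W)
    (h : ∃ G : Finset W, B = locV (ball W) (Subring.closure ((Lam E W : Set W) ∪ (G : Set W)))) :
    ∃ G : Finset W, Bx B x' =
      locV (ball W) (Subring.closure ((Lam E W : Set W) ∪ (G : Set W))) := by
  classical
  obtain ⟨G, hG⟩ := h
  refine ⟨G ∪ Finset.univ.image x', ?_⟩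
  apply le_antisymm
  · intro z hz
    refine Bx_le _ (fun w hw => ?_) (fun i => ?_) (fun w hw h1 => inv_mem_locV hw h1) hz
    · rw [hG] at hw
      refine locV_closure_le _ ?_ (fun w hw h1 => inv_mem_locV hw h1) hw
      rintro v (hv | hv)
      · exact subset_locV_closure (Or.inl hv)
      · refine subset_locV_closure (Or.inr ?_)
        rw [Finset.coe_union]
        exact Or.inl hv
    · refine subset_locV_closure (Or.inr ?_)
      rw [Finset.mem_coe]
      exact Finset.mem_union_right _ (Finset.mem_image_of_mem _ (Finset.mem_univ i))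
  · intro z hz
    refine locV_closure_le _ ?_ (fun w hw h1 => inv_mem_Bx hw h1) hz
    rintro w (hw | hw)
    · refine le_Bx ?_
      rw [hG]
      exact subset_locV_closure (Or.inl hw)
    · rw [Finset.mem_coe, Finset.mem_union, Finset.mem_image] at hw
      rcases hw with hw | ⟨i, -, rfl⟩
      · refine le_Bx ?_
        rw [hG]
        exact subset_locV_closure (Or.inr hw)
      · exact x_mem_Bx i

/-- A monomial basis change of a strictly good triple is strictly good; no new residues. -/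
theorem Gs.bx (h : Gs S c) {x1 : Fin r → W} (h1 : Mt c.x x1) :
    Gs S (⟨Bx c.B x1, x1, c.y⟩ : Tri W r) ∧
      ∀ z ∈ Bx c.B x1, ∃ e ∈ c.B, z - e ∈ JI (Bx c.B x1) x1 c.y := by
  have hn : ∀ z ∈ Bx c.B x1, ‖z‖ ≤ 1 := fun z hz => norm_le_Bx (fun w hw => (h.le w hw).2) h1.ind hz
  have hxJ : ∀ i, c.x i ∈ JI (Bx c.B x1) x1 c.y := by
    intro i
    obtain ⟨β, hβ0, hβ⟩ := Mt.x_eq h.ind h1 i
    rw [hβ]
    exact JI_monN (fun j => x_mem_Bx j) hβ0
  have h2 := gen_ext (B := c.B) (A := Bx c.B x1) (x := x1) (y := c.y)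
    (fun z hz h1 => h.inv hz h1) (Set.range x1) rfl hn h1.ind.lt h.y1 (by
      rintro _ ⟨i, rfl⟩
      exact ⟨0, zero_mem _, by rw [sub_zero]; exact JI_x i⟩) (fun z hz hz1 => by
      have h3 : z ∈ JI c.B c.x c.y := h.gen z hz hz1
      exact JI_le hxJ JI_y (JI_mono le_Bx h3))
  refine ⟨⟨fg_Bx x1 h.fg, fun z hz => ⟨?_, hn z hz⟩, h1.ind, h.y1, fun i => x_mem_Bx i,
    le_Bx h.yB, h2.2, fun z hz => isAlgebraic_mono le_Bx (h.alg z hz),
    fun z hz => sep_le (Fr_mono (c := c) (c' := ⟨Bx c.B x1, x1, c.y⟩) le_Bx) (h.sep z hz)⟩, h2.1⟩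
  have h3 : z ∈ S.toSubring := by
    refine Bx_le S.toSubring (fun w hw => (h.le w hw).1) (fun i => ?_) (fun w hw _ => ?_) hz
    · obtain ⟨A, B, -, hB, -⟩ := h1.mat
      rw [hB i]
      unfold mon
      exact prod_mem fun j _ => zpow_mem ((h.le _ (h.xB j)).1 : c.x j ∈ S) _
    · exact inv_mem (S := IntermediateField E W) hw
  exact h3

theorem Gs.gd (h : Gs S c) : Gd S c := by
  refine ⟨h.ind, h.y1, h.xB, h.yB, h.fg, c.x, TU.Mt.refl h.ind, ?_⟩
  have h1 : Bx c.B c.x = c.B := Bx_self h.xB (fun z hz h1 => h.inv hz h1)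
  rw [h1]
  exact h

/-- Two basis changes have a common refinement. -/
theorem Mt.union {x x1 x2 : Fin r → W} (hx : Indep x) (h1 : Mt x x1) (h2 : Mt x x2) :
    ∃ x3 : Fin r → W, Mt x1 x3 ∧ Mt x2 x3 ∧ Mt x x3 := by
  classical
  obtain ⟨A1, B1, -, hB1, -⟩ := h1.mat
  obtain ⟨A2, B2, -, hB2, -⟩ := h2.mat
  obtain ⟨x3, hx3, hY⟩ := exists_Mt hx
    (Finset.univ.image B1 ∪ Finset.univ.image B2) (by
      intro a ha
      rw [Finset.mem_union, Finset.mem_image, Finset.mem_image] at ha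
      rcases ha with ⟨i, -, rfl⟩ | ⟨i, -, rfl⟩
      · rw [← hB1]; exact (h1.ind.lt i).le
      · rw [← hB2]; exact (h2.ind.lt i).le)
  have hn1 : ∀ i, ∃ β : Fin r → ℕ, x1 i = monN x3 β := by
    intro i
    obtain ⟨β, hβ, -⟩ := hY (B1 i) (Finset.mem_union_left _
      (Finset.mem_image_of_mem _ (Finset.mem_univ i)))
    exact ⟨β, by rw [hB1, hβ]⟩
  have hn2 : ∀ i, ∃ β : Fin r → ℕ, x2 i = monN x3 β := by
    intro i
    obtain ⟨β, hβ, -⟩ := hY (B2 i) (Finset.mem_union_right _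
      (Finset.mem_image_of_mem _ (Finset.mem_univ i)))
    exact ⟨β, by rw [hB2, hβ]⟩
  obtain ⟨A3, B3, -, hB3, -⟩ := hx3.mat
  have hm1 : Mt x1 x3 := by
    refine TU.Mt.of h1.ind hx3.ind hn1 fun i => ?_
    obtain ⟨a', ha'⟩ := h1.mon_eq (B3 i)
    exact ⟨a', by rw [hB3, ha']⟩
  have hm2 : Mt x2 x3 := by
    refine TU.Mt.of h2.ind hx3.ind hn2 fun i => ?_
    obtain ⟨a', ha'⟩ := h2.mon_eq (B3 i)
    exact ⟨a', by rw [hB3, ha']⟩
  exact ⟨x3, hm1, hm2, hx3⟩

/-- For a good triple and a basis change `x1`: there is a further basis change `x2` such that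
`Bx c.B x2` is strictly good. -/
theorem Gd.strict (h : Gd S c) {x1 : Fin r → W} (h1 : Mt c.x x1) :
    ∃ x2 : Fin r → W, Mt x1 x2 ∧ Mt c.x x2 ∧ Gs S (⟨Bx c.B x2, x2, c.y⟩ : Tri W r) := by
  obtain ⟨x0, h2, h3⟩ := h.ex
  obtain ⟨x3, h4, h5, h6⟩ := Mt.union h.ind h1 h2
  refine ⟨x3, h4, h6, ?_⟩
  have h7 := (h3.bx h5).1
  simp only at h7
  rw [Bx_Bx (fun i => Mt.x_monN h5 i)] at h7
  exact h7

/-- Further basis changes stay strictly good. -/
theorem Gs.further {B : Subring W} {x1 x2 : Fin r → W} {y : W}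
    (h : Gs S (⟨Bx B x1, x1, y⟩ : Tri W r)) (h1 : Mt x1 x2) :
    Gs S (⟨Bx B x2, x2, y⟩ : Tri W r) := by
  have h7 := (h.bx h1).1
  simp only at h7
  rw [Bx_Bx (fun i => Mt.x_monN h1 i)] at h7
  exact h7

end Pool.Agent.Lib.MXP
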