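import Pool.Agent.Lib.MXP.CgPD

/-!
# Module CgP1: `p`-bases of fields
All `K ≤ Ω`, characteristic `p`, no finiteness.  Degrees: `Subfield.relfinrank`.
* adjoining `b ∉ F`, `b ^ p ∈ F` gives degree `p`: see the private `cg_root` of `Pool/Agent/Lib/TQ/CgD.lean` (copy it).
* `Kp_ring`: `Kp p K b T` is the set of the sums `∑ (c α) ^ p * ∏ b i ^ α i` over finite `s ⊆ T` (all these sums form a ring containing
  `K ^ p` and the `b i`; it is algebraic over the field `K ^ p` so a field; copy `cgc_adjoin`, `cgc_field` of `Pool/Agent/Lib/TQ/CgC.lean` for finite `s`;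
  first every `z ∈ Kp p K b T` is in `Kp p K b s` for a finite `s ⊆ T` (closure induction; `Kp` is monotone in `T`)).
* `pbf_exists`: Zorn (`zorn_subset`) for the sets `B ⊆ K` such that for all finite `s ⊆ B` the degree of `closure (K ^ p ∪ s)` over `K ^ p` is
  `p ^ s.card`; if `B` is maximal and `z ∈ K` is not in `closure (K ^ p ∪ B)` then `B ∪ {z}` is such a set.  `b := Subtype.val : B → Ω`.
  `ind`: if `b i ∈ closure (K ^ p ∪ (B \ {b i}))` then `b i ∈ closure (K ^ p ∪ s)`, `s` finite, `b i ∉ s`: the degree of `insert (b i) s` is too small.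
* `pbf_mon`: by `ind`, `closure (K ^ p ∪ b '' s)` has degree `p ^ s.card` over `K ^ p` (induction on `s`), it is spanned by the `p ^ s.card` monomials,
  so these are linearly independent (`linearIndependent_of_top_le_span_of_card_eq_finrank`).
* `pbf_inter` (exchange): let `z ∈ K ∩ ⋂ s, Kp p K b sᶜ`, suppose `z ∉ K ^ p`.  `z ∈ Kp p K b s` for a finite `s`, take `s` minimal (for the cardinal), it is
  not empty, `i ∈ s`, `M := Kp p K b (s \ {i}) ∌ z`.  `M(b i) = Kp p K b s` has degree `p` over `M`, `z ∈ M(b i)`, `z ^ p ∈ M`, so `M(z)` has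
  degree `p` over `M` and `M(z) = M(b i) ∋ b i`.  As `z ∈ Kp p K b sᶜ`, `b i ∈ M(z) ≤ Kp p K b {i}ᶜ`, contradiction to `ind`.
* `pbf_span`: `K = closure ((Kp p K b sᶜ) ∪ b '' s)`, and `(b i) ^ p ∈ Kp p K b sᶜ`.
-/

namespace Pool.Agent.Lib.MXP

variable {Ω : Type} [Field Ω] (p : ℕ) [Fact p.Prime] [CharP Ω p] {ι : Type}

/-- adjoining a `p`-th root gives degree `p` -/
private theorem CgP1_root {W : Type} [Field W] (p : ℕ) [hp : Fact p.Prime] [CharP W p]
    (F : Subfield W) {b : W} (hb : b ^ p ∈ F) (hbF : b ∉ F) :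
    F.relfinrank (Subfield.closure ((F : Set W) ∪ {b})) = p := by
  have hle : F ≤ Subfield.closure ((F : Set W) ∪ {b}) := fun x hx =>
    Subfield.subset_closure (Or.inl hx)
  rw [Subfield.relfinrank_eq_finrank_of_le hle]
  have h1 : Subfield.extendScalars hle = IntermediateField.adjoin F {b} := by
    rw [← IntermediateField.toSubfield_inj, Subfield.extendScalars_toSubfield]
    have : Set.range (algebraMap F W) = (F : Set W) := by
      ext x
      constructor
      · rintro ⟨y, rfl⟩; exact y.2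
      · intro hx; exact ⟨⟨x, hx⟩, rfl⟩
    rw [← this]
    rfl
  rw [h1]
  have hirr : Irreducible (Polynomial.X ^ p - Polynomial.C (⟨b ^ p, hb⟩ : F)) := by
    refine X_pow_sub_C_irreducible_of_prime hp.out ?_
    intro c hc
    apply hbF
    have h2 : (c : W) ^ p = b ^ p := congrArg Subtype.val hc
    have h3 : (c : W) = b := frobenius_inj W p h2
    rw [← h3]
    exact c.2
  have hmin := minpoly.eq_of_irreducible_of_monic (x := b) hirr (by
    simp only [map_sub, map_pow, Polynomial.aeval_X, Polynomial.aeval_C]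
    exact sub_self _) (Polynomial.monic_X_pow_sub_C _ hp.out.ne_zero)
  have hint : IsIntegral F b := by
    refine ⟨Polynomial.X ^ p - Polynomial.C (⟨b ^ p, hb⟩ : F),
      Polynomial.monic_X_pow_sub_C _ hp.out.ne_zero, ?_⟩
    simp only [Polynomial.eval₂_sub, Polynomial.eval₂_pow, Polynomial.eval₂_X, Polynomial.eval₂_C]
    exact sub_self _
  rw [IntermediateField.adjoin.finrank hint, ← hmin, Polynomial.natDegree_X_pow_sub_C]

/-- the exchange lemma -/
private theorem CgP1_exch {W : Type} [Field W] (p : ℕ) [hp : Fact p.Prime] [CharP W p]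
    (M : Subfield W) {x z : W} (hx : x ^ p ∈ M) (hz : z ^ p ∈ M) (hxM : x ∉ M)
    (hxz : x ∈ Subfield.closure ((M : Set W) ∪ {z})) :
    z ∈ Subfield.closure ((M : Set W) ∪ {x}) := by
  have hzM : z ∉ M := by
    intro h
    apply hxM
    have h1 : Subfield.closure ((M : Set W) ∪ {z}) ≤ M := by
      rw [Subfield.closure_le]
      rintro y (hy | hy)
      · exact hy
      · rw [Set.mem_singleton_iff] at hy
        rw [hy]
        exact h
    exact h1 hxz
  have h1 := CgP1_root p M hx hxM
  have h2 := CgP1_root p M hz hzM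
  have hle0 : M ≤ Subfield.closure ((M : Set W) ∪ {x}) := fun y hy =>
    Subfield.subset_closure (Or.inl hy)
  have hle1 : Subfield.closure ((M : Set W) ∪ {x}) ≤ Subfield.closure ((M : Set W) ∪ {z}) := by
    rw [Subfield.closure_le]
    rintro y (hy | hy)
    · exact Subfield.subset_closure (Or.inl hy)
    · rw [Set.mem_singleton_iff] at hy
      rw [hy]
      exact hxz
  have h3 := Subfield.relfinrank_mul_relfinrank hle0 hle1
  rw [h1, h2] at h3
  have h4 : (Subfield.closure ((M : Set W) ∪ {x})).relfinrank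
      (Subfield.closure ((M : Set W) ∪ {z})) = 1 := by
    have h5 : p * (Subfield.closure ((M : Set W) ∪ {x})).relfinrank
      (Subfield.closure ((M : Set W) ∪ {z})) = p * 1 := by rw [h3, mul_one]
    exact Nat.eq_of_mul_eq_mul_left hp.out.pos h5
  rw [Subfield.relfinrank_eq_one_iff] at h4
  exact h4 (Subfield.subset_closure (Or.inr rfl))

/-- reduction of the exponents of monomials -/
private theorem CgP1_adjoin {R W : Type} [CommRing R] [Field W] [Algebra R W] (p : ℕ) (hp : 0 < p)
    {ι : Type} [Fintype ι] (x : ι → W) (hx : ∀ i, ∃ r : R, algebraMap R W r = x i ^ p) {z : W}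
    (hz : z ∈ Algebra.adjoin R (Set.range x)) :
    z ∈ Submodule.span R
      (Set.range fun α : ι → Fin p => ∏ i, x i ^ ((α i : Fin p) : ℕ)) := by
  classical
  choose r hr using hx
  rw [Algebra.adjoin_range_eq_range_aeval] at hz
  obtain ⟨P, rfl⟩ := hz
  change MvPolynomial.aeval x P ∈ _
  rw [MvPolynomial.aeval_def, MvPolynomial.eval₂_eq']
  refine Submodule.sum_mem _ fun d _ => ?_
  have h1 : ∏ i, x i ^ d i = (∏ i, r i ^ (d i / p)) • ∏ i, x i ^ (d i % p) := by
    rw [Algebra.smul_def, map_prod, ← Finset.prod_mul_distrib]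
    refine Finset.prod_congr rfl fun i _ => ?_
    rw [map_pow, hr, ← pow_mul, ← pow_add, Nat.div_add_mod]
  rw [h1, ← Algebra.smul_def]
  exact Submodule.smul_mem _ _ (Submodule.smul_mem _ _ (Submodule.subset_span
    ⟨fun i => ⟨d i % p, Nat.mod_lt _ hp⟩, rfl⟩))

private theorem CgP1_field {W : Type} [Field W] (F : Subfield W) (p : ℕ) (hp : 0 < p) {ι : Type}
    [Fintype ι] [DecidableEq ι] (x : ι → W) (hx : ∀ i, x i ^ p ∈ F) {z : W}
    (hz : z ∈ Subfield.closure ((F : Set W) ∪ Set.range x)) :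
    ∃ c : (ι → Fin p) → W, (∀ α, c α ∈ F) ∧
      z = ∑ α, c α * ∏ i, x i ^ ((α i : Fin p) : ℕ) := by
  have h0 : z ∈ Submodule.span F
      (Set.range fun α : ι → Fin p => ∏ i, x i ^ ((α i : Fin p) : ℕ)) := by
    refine CgP1_adjoin p hp x (fun i => ⟨⟨x i ^ p, hx i⟩, rfl⟩) ?_
    have h1 : (IntermediateField.adjoin F (Set.range x)).toSubalgebra =
        Algebra.adjoin F (Set.range x) := by
      refine IntermediateField.adjoin_toSubalgebra_of_isAlgebraic ?_
      rintro _ ⟨i, rfl⟩
      have h2 : IsAlgebraic F (x i ^ p) := isAlgebraic_algebraMap (⟨x i ^ p, hx i⟩ : F)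
      exact IsAlgebraic.of_pow hp h2
    rw [← h1]
    have h3 : Subfield.closure ((F : Set W) ∪ Set.range x) ≤
        (IntermediateField.adjoin F (Set.range x)).toSubfield := by
      rw [Subfield.closure_le]
      rintro y (hy | hy)
      · exact (IntermediateField.adjoin F (Set.range x)).algebraMap_mem (⟨y, hy⟩ : F)
      · exact IntermediateField.subset_adjoin F _ hy
    exact h3 hz
  rw [Submodule.mem_span_range_iff_exists_fun] at h0
  obtain ⟨c, hc⟩ := h0
  refine ⟨fun α => (c α : W), fun α => (c α).2, ?_⟩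
  rw [← hc]
  rfl

private theorem CgP1_KpK (K : Subfield Ω) (b : ι → Ω) (T : Set ι) {z : Ω} (hz : z ∈ K) :
    z ^ p ∈ Kp p K b T :=
  Subfield.subset_closure (Or.inl ⟨z, hz, rfl⟩)

theorem Kp_mono (K : Subfield Ω) (b : ι → Ω) {T T' : Set ι} (h : T ⊆ T') :
    Kp p K b T ≤ Kp p K b T' :=
  Subfield.closure_mono (Set.union_subset_union_right _ (Set.image_mono h))

theorem Kp_le (K : Subfield Ω) (b : ι → Ω) (hb : ∀ i, b i ∈ K) (T : Set ι) : Kp p K b T ≤ K := by
  unfold Kp
  rw [Subfield.closure_le]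
  rintro x (⟨y, hy, rfl⟩ | ⟨i, _, rfl⟩)
  · exact pow_mem hy p
  · exact hb i

/-- an element of `Kp` only needs finitely many of the generators -/
private theorem CgP1_fin (K : Subfield Ω) (b : ι → Ω) (T : Set ι) {z : Ω}
    (hz : z ∈ Kp p K b T) : ∃ s : Finset ι, (s : Set ι) ⊆ T ∧ z ∈ Kp p K b (s : Set ι) := by
  classical
  have key : ∀ (s t : Finset ι), (s : Set ι) ⊆ T → (t : Set ι) ⊆ T →
      ∃ u : Finset ι, (u : Set ι) ⊆ T ∧ Kp p K b (s : Set ι) ≤ Kp p K b (u : Set ι) ∧
        Kp p K b (t : Set ι) ≤ Kp p K b (u : Set ι) := by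
    intro s t hs ht
    refine ⟨s ∪ t, ?_, ?_, ?_⟩
    · rw [Finset.coe_union]
      exact Set.union_subset hs ht
    · refine Kp_mono p K b ?_
      rw [Finset.coe_union]
      exact Set.subset_union_left
    · refine Kp_mono p K b ?_
      rw [Finset.coe_union]
      exact Set.subset_union_right
  unfold Kp at hz
  induction hz using Subfield.closure_induction with
  | mem x hx =>
    rcases hx with hx | ⟨i, hi, rfl⟩
    · refine ⟨∅, ?_, Subfield.subset_closure (Or.inl hx)⟩
      rw [Finset.coe_empty]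
      exact Set.empty_subset _
    · refine ⟨{i}, ?_, Subfield.subset_closure (Or.inr ⟨i, ?_, rfl⟩)⟩
      · rw [Finset.coe_singleton]
        exact Set.singleton_subset_iff.2 hi
      · rw [Finset.coe_singleton]
        exact Set.mem_singleton i
  | one =>
    refine ⟨∅, ?_, one_mem _⟩
    rw [Finset.coe_empty]
    exact Set.empty_subset _
  | add x y _ _ hx hy =>
    obtain ⟨s, hs, hxs⟩ := hx
    obtain ⟨t, ht, hyt⟩ := hy
    obtain ⟨u, hu, hsu, htu⟩ := key s t hs ht
    exact ⟨u, hu, add_mem (hsu hxs) (htu hyt)⟩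
  | neg x _ hx =>
    obtain ⟨s, hs, hxs⟩ := hx
    exact ⟨s, hs, neg_mem hxs⟩
  | inv x _ hx =>
    obtain ⟨s, hs, hxs⟩ := hx
    exact ⟨s, hs, inv_mem hxs⟩
  | mul x y _ _ hx hy =>
    obtain ⟨s, hs, hxs⟩ := hx
    obtain ⟨t, ht, hyt⟩ := hy
    obtain ⟨u, hu, hsu, htu⟩ := key s t hs ht
    exact ⟨u, hu, mul_mem (hsu hxs) (htu hyt)⟩

private theorem CgP1_empty (K : Subfield Ω) (b : ι → Ω) :
    Kp p K b ∅ = K.map (frobenius Ω p) := by
  unfold Kp
  rw [Set.image_empty, Set.union_empty, Subfield.closure_eq]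

private theorem CgP1_insert (K : Subfield Ω) (b : ι → Ω) (T : Set ι) (i : ι) :
    Kp p K b (insert i T) = Subfield.closure ((Kp p K b T : Set Ω) ∪ {b i}) := by
  unfold Kp
  rw [Set.image_insert_eq, Set.insert_eq, Set.union_comm {b i}, ← Set.union_assoc,
    Subfield.closure_union _ {b i}, Subfield.closure_union _ {b i}, Subfield.closure_eq]

open Classical in
theorem Kp_ring (K : Subfield Ω) (b : ι → Ω) (hb : ∀ i, b i ∈ K) (T : Set ι) {z : Ω}
    (hz : z ∈ Kp p K b T) :
    ∃ (s : Finset ι) (c : (s → Fin p) → Ω), (s : Set ι) ⊆ T ∧ (∀ α, c α ∈ K) ∧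
      z = ∑ α, c α ^ p * ∏ i : s, b i ^ ((α i : Fin p) : ℕ) := by
  have hp : p.Prime := Fact.out
  obtain ⟨s, hs, hzs⟩ := CgP1_fin p K b T hz
  have h1 : z ∈ Subfield.closure ((K.map (frobenius Ω p) : Set Ω) ∪
      Set.range fun i : s => b i) := by
    have h2 : b '' (s : Set ι) = Set.range fun i : s => b i := by
      ext x
      constructor
      · rintro ⟨i, hi, rfl⟩
        exact ⟨⟨i, hi⟩, rfl⟩
      · rintro ⟨i, rfl⟩
        exact ⟨i, i.2, rfl⟩
    rw [← h2]
    exact hzs
  obtain ⟨c, hc, hzc⟩ := CgP1_field (K.map (frobenius Ω p)) p hp.pos (fun i : s => b i)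
    (fun i => ⟨b i, hb i, rfl⟩) h1
  choose d hd hdc using hc
  refine ⟨s, d, hs, hd, ?_⟩
  rw [hzc]
  refine Finset.sum_congr rfl fun α _ => ?_
  rw [← hdc, frobenius_def]

theorem pbf_exists (K : Subfield Ω) : ∃ (ι : Type) (b : ι → Ω), PBf p K b := by
  classical
  have hid : ∀ (B : Set Ω) (T : Set B), Kp p K (Subtype.val : B → Ω) T =
      Kp p K (id : Ω → Ω) (Subtype.val '' T) := by
    intro B T
    unfold Kp
    rw [Set.image_id]
  let S : Set (Set Ω) := {B | B ⊆ (K : Set Ω) ∧ ∀ x ∈ B, x ∉ Kp p K (id : Ω → Ω) (B \ {x})}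
  obtain ⟨B, hB⟩ : ∃ m, Maximal (· ∈ S) m := by
    refine zorn_subset S ?_
    intro c hcS hc
    refine ⟨⋃₀ c, ⟨?_, ?_⟩, fun s hs => Set.subset_sUnion_of_mem hs⟩
    · exact Set.sUnion_subset fun s hs => (hcS hs).1
    · intro x hx hcon
      obtain ⟨s, hs, hxs⟩ := CgP1_fin p K id _ hcon
      obtain ⟨C0, hC0, hxC0⟩ := hx
      have key : ∀ t : Finset Ω, (t : Set Ω) ⊆ ⋃₀ c → ∃ C ∈ c, (t : Set Ω) ⊆ C ∧ x ∈ C := by
        intro t
        induction t using Finset.induction_on with
        | empty =>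
          intro _
          refine ⟨C0, hC0, ?_, hxC0⟩
          rw [Finset.coe_empty]
          exact Set.empty_subset _
        | insert a t _ ih =>
          intro ht
          rw [Finset.coe_insert, Set.insert_subset_iff] at ht
          obtain ⟨C, hC, htC, hxC⟩ := ih ht.2
          obtain ⟨C', hC', haC'⟩ := ht.1
          rcases hc.total hC hC' with h | h
          · refine ⟨C', hC', ?_, h hxC⟩
            rw [Finset.coe_insert, Set.insert_subset_iff]
            exact ⟨haC', htC.trans h⟩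
          · refine ⟨C, hC, ?_, hxC⟩
            rw [Finset.coe_insert, Set.insert_subset_iff]
            exact ⟨h haC', htC⟩
      obtain ⟨C, hC, hsC, hxC⟩ := key s (hs.trans Set.sdiff_subset)
      refine (hcS hC).2 x hxC (Kp_mono p K id ?_ hxs)
      intro y hy
      exact ⟨hsC hy, (hs hy).2⟩
  refine ⟨B, Subtype.val, fun i => hB.prop.1 i.2, ?_, ?_⟩
  · rw [hid, Set.image_univ, Subtype.range_coe]
    intro z hz
    by_contra hzB
    have hzB' : z ∉ B := fun h => hzB (Subfield.subset_closure (Or.inr ⟨z, h, rfl⟩))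
    have hmem : insert z B ∈ S := by
      refine ⟨Set.insert_subset_iff.2 ⟨hz, hB.prop.1⟩, ?_⟩
      intro x hx hcon
      rcases Set.mem_insert_iff.1 hx with rfl | hxB
      · apply hzB
        refine Kp_mono p K id ?_ hcon
        rintro y ⟨hy, hyx⟩
        rcases Set.mem_insert_iff.1 hy with rfl | hy
        · exact absurd rfl hyx
        · exact hy
      · have hxz : x ≠ z := by
          rintro rfl
          exact hzB' hxB
        have h1 : insert z B \ {x} = insert z (B \ {x}) := by
          ext y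
          constructor
          · rintro ⟨hy, hyx⟩
            rcases Set.mem_insert_iff.1 hy with rfl | hy
            · exact Set.mem_insert _ _
            · exact Set.mem_insert_of_mem _ ⟨hy, hyx⟩
          · intro hy
            rcases Set.mem_insert_iff.1 hy with rfl | hy
            · exact ⟨Set.mem_insert _ _, fun h => hxz (Set.mem_singleton_iff.1 h).symm⟩
            · exact ⟨Set.mem_insert_of_mem _ hy.1, hy.2⟩
        rw [h1, CgP1_insert] at hcon
        have h2 := CgP1_exch p (Kp p K id (B \ {x})) (CgP1_KpK p K id _ (hB.prop.1 hxB))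
          (CgP1_KpK p K id _ hz) (hB.prop.2 x hxB) hcon
        apply hzB
        have h3 : Subfield.closure ((Kp p K (id : Ω → Ω) (B \ {x}) : Set Ω) ∪ {x}) ≤
            Kp p K id B := by
          rw [Subfield.closure_le]
          rintro y (hy | hy)
          · exact Kp_mono p K id Set.sdiff_subset hy
          · rw [Set.mem_singleton_iff] at hy
            rw [hy]
            exact Subfield.subset_closure (Or.inr ⟨x, hxB, rfl⟩)
        exact h3 h2
    have h4 := hB.le_of_ge hmem (Set.subset_insert z B)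
    exact hzB' (h4 (Set.mem_insert z B))
  · intro i
    rw [hid]
    have h1 : (Subtype.val '' ({i}ᶜ : Set B)) = B \ {(i : Ω)} := by
      ext y
      constructor
      · rintro ⟨j, hj, rfl⟩
        refine ⟨j.2, fun h => hj ?_⟩
        exact Subtype.ext (Set.mem_singleton_iff.1 h)
      · rintro ⟨hy, hyi⟩
        refine ⟨⟨y, hy⟩, fun h => hyi ?_, rfl⟩
        have h2 := Set.mem_singleton_iff.1 h
        exact congrArg Subtype.val h2
    rw [h1]
    exact hB.prop.2 i i.2

private theorem CgP1_deg {K : Subfield Ω} {b : ι → Ω} (h : PBf p K b) (s : Finset ι) :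
    (K.map (frobenius Ω p)).relfinrank (Kp p K b (s : Set ι)) = p ^ s.card := by
  classical
  induction s using Finset.induction_on with
  | empty =>
    rw [Finset.coe_empty, CgP1_empty, Subfield.relfinrank_self, Finset.card_empty, pow_zero]
  | insert i s hi ih =>
    have hle0 : K.map (frobenius Ω p) ≤ Kp p K b (s : Set ι) := fun x hx =>
      Subfield.subset_closure (Or.inl hx)
    have hle1 : Kp p K b (s : Set ι) ≤
        Subfield.closure ((Kp p K b (s : Set ι) : Set Ω) ∪ {b i}) := fun x hx =>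
      Subfield.subset_closure (Or.inl hx)
    have hb : b i ∉ Kp p K b (s : Set ι) := by
      intro hcon
      refine h.ind i (Kp_mono p K b ?_ hcon)
      intro j hj hji
      rw [Set.mem_singleton_iff] at hji
      rw [hji] at hj
      exact hi hj
    rw [Finset.coe_insert, CgP1_insert, ← Subfield.relfinrank_mul_relfinrank hle0 hle1, ih,
      CgP1_root p _ (CgP1_KpK p K b _ (h.mem i)) hb, Finset.card_insert_of_notMem hi, pow_succ]

open Classical in
theorem pbf_mon {K : Subfield Ω} {b : ι → Ω} (h : PBf p K b) (s : Finset ι)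
    (c : (s → Fin p) → Ω) (hc : ∀ α, c α ∈ K)
    (h0 : ∑ α, c α ^ p * ∏ i : s, b i ^ ((α i : Fin p) : ℕ) = 0) : ∀ α, c α = 0 := by
  have hp : p.Prime := Fact.out
  have hle : K.map (frobenius Ω p) ≤ Kp p K b (s : Set ι) := fun x hx =>
    Subfield.subset_closure (Or.inl hx)
  have hdeg := CgP1_deg p h s
  rw [Subfield.relfinrank_eq_finrank_of_le hle] at hdeg
  have hbs : ∀ i : s, b i ∈ Kp p K b (s : Set ι) := fun i =>
    Subfield.subset_closure (Or.inr ⟨i, i.2, rfl⟩)
  let v : (s → Fin p) → Subfield.extendScalars hle := fun α =>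
    ⟨∏ i : s, b i ^ ((α i : Fin p) : ℕ), prod_mem fun i _ => pow_mem (hbs i) _⟩
  have hspan : ⊤ ≤ Submodule.span (K.map (frobenius Ω p)) (Set.range v) := by
    rintro ⟨z, hz⟩ -
    have h1 : z ∈ Subfield.closure ((K.map (frobenius Ω p) : Set Ω) ∪
        Set.range fun i : s => b i) := by
      have h2 : b '' (s : Set ι) = Set.range fun i : s => b i := by
        ext x
        constructor
        · rintro ⟨i, hi, rfl⟩
          exact ⟨⟨i, hi⟩, rfl⟩
        · rintro ⟨i, rfl⟩
          exact ⟨i, i.2, rfl⟩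
      rw [← h2]
      exact hz
    obtain ⟨d, hd, hzd⟩ := CgP1_field (K.map (frobenius Ω p)) p hp.pos (fun i : s => b i)
      (fun i => ⟨b i, h.mem i, rfl⟩) h1
    rw [Submodule.mem_span_range_iff_exists_fun]
    refine ⟨fun α => ⟨d α, hd α⟩, Subtype.ext ?_⟩
    rw [AddSubmonoidClass.coe_finsetSum]
    exact hzd.symm
  have hli : LinearIndependent (K.map (frobenius Ω p)) v := by
    refine linearIndependent_of_top_le_span_of_card_eq_finrank hspan ?_
    rw [hdeg, Fintype.card_fun, Fintype.card_fin, Fintype.card_coe]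
  rw [Fintype.linearIndependent_iff] at hli
  intro α
  have h3 := hli (fun α => ⟨c α ^ p, c α, hc α, rfl⟩) (by
    refine Subtype.ext ?_
    rw [AddSubmonoidClass.coe_finsetSum]
    exact h0) α
  have h4 : c α ^ p = 0 := congrArg Subtype.val h3
  exact pow_eq_zero_iff hp.ne_zero |>.1 h4

theorem pbf_inter {K : Subfield Ω} {b : ι → Ω} (h : PBf p K b) {z : Ω} (hz : z ∈ K)
    (hz' : ∀ s : Finset ι, z ∈ Kp p K b (s : Set ι)ᶜ) : z ∈ K.map (frobenius Ω p) := by
  classical
  obtain ⟨s, -, hzs⟩ := CgP1_fin p K b Set.univ (h.gen hz)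
  induction s using Finset.induction_on with
  | empty =>
    rwa [Finset.coe_empty, CgP1_empty] at hzs
  | insert i s hi ih =>
    by_cases hzM : z ∈ Kp p K b (s : Set ι)
    · exact ih hzM
    · exfalso
      rw [Finset.coe_insert, CgP1_insert] at hzs
      have h1 := CgP1_exch p (Kp p K b (s : Set ι)) (CgP1_KpK p K b _ hz)
        (CgP1_KpK p K b _ (h.mem i)) hzM hzs
      refine h.ind i ?_
      have h2 : Subfield.closure ((Kp p K b (s : Set ι) : Set Ω) ∪ {z}) ≤ Kp p K b {i}ᶜ := by
        rw [Subfield.closure_le]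
        rintro y (hy | hy)
        · refine Kp_mono p K b ?_ hy
          intro j hj hji
          rw [Set.mem_singleton_iff] at hji
          rw [hji] at hj
          exact hi hj
        · rw [Set.mem_singleton_iff] at hy
          rw [hy]
          have h3 := hz' {i}
          rwa [Finset.coe_singleton] at h3
      exact h2 h1

open Classical in
theorem pbf_span {K : Subfield Ω} {b : ι → Ω} (h : PBf p K b) (s : Finset ι) {z : Ω}
    (hz : z ∈ K) :
    ∃ c : (s → Fin p) → Ω, (∀ α, c α ∈ Kp p K b (s : Set ι)ᶜ) ∧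
      z = ∑ α, c α * ∏ i : s, b i ^ ((α i : Fin p) : ℕ) := by
  have hp : p.Prime := Fact.out
  refine CgP1_field (Kp p K b (s : Set ι)ᶜ) p hp.pos (fun i : s => b i)
    (fun i => CgP1_KpK p K b _ (h.mem i)) ?_
  have h1 : Kp p K b Set.univ ≤ Subfield.closure ((Kp p K b (s : Set ι)ᶜ : Set Ω) ∪
      Set.range fun i : s => b i) := by
    unfold Kp
    rw [Subfield.closure_le]
    rintro y (hy | ⟨i, -, rfl⟩)
    · exact Subfield.subset_closure (Or.inl (Subfield.subset_closure (Or.inl hy)))
    · by_cases hi : i ∈ s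
      · exact Subfield.subset_closure (Or.inr ⟨⟨i, hi⟩, rfl⟩)
      · exact Subfield.subset_closure (Or.inl (Subfield.subset_closure (Or.inr ⟨i, hi, rfl⟩)))
  exact h1 (h.gen hz)

end Pool.Agent.Lib.MXP
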