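import Pool.Agent.Lib.MXP.CgP1

/-!
# Module CgP2: coefficient fields containing a lift of a `p`-basis
Residues: `rs`, `kap D` (`Res.lean`: `rs_add`, `rs_mul`, `rs_eq_iff`, `mem_kap_iff`: for `Nl X D` every element of `kap D` is `rs z`, `z ∈ D`).
* `pb_exists`: `pbf_exists` for `kap D`, lift to `D`.  `PB.mod`: `rs (b i) = rs (b' i)`.
* `pb_coef`: `Dn 0 := D`, `Dn (n + 1) := Subring.closure (p-th powers of the elements of Dn n, and the b i)`.
  (1) `Dn (n + 1) ≤ Dn n ≤ D`, `b i ∈ Dn n` (induction).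
  (2) every element of `Dn (n + 1)` is `∑ (c α) ^ p * ∏_{i ∈ s} b i ^ α i`, `s` finite, `α i < p`, `c α ∈ Dn n` (these sums form a ring).
  (3) `z ∈ Dn n`, `‖z‖ < 1` imply `z ∈ mP D (n + 1)`: induction; for `n + 1` take residues in (2): by `pbf_mon` (field `kap D`) all `‖c α‖ < 1`, so
      `c α ∈ mP D (n + 1)`, `(c α) ^ p ∈ mP D (n + 2)`.
  (4) for `z ∈ D` there is `y ∈ Dn n` with `‖z - y‖ < 1`: induction; first `y ∈ closure (D ^ p ∪ b)` by `PBf.gen` (`Kp_ring`), then replace the `c α` by elements of `Dn n`.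
  (5) `z ∈ Dn n`, `‖z‖ = 1` imply `z⁻¹ ∈ Dn n`: `z⁻¹ = z ^ (p - 1) * (z⁻¹) ^ p`.
  `K := {z | ∀ n, ∃ y ∈ Dn n, z - y ∈ mP D (n + 1)}`: a subring of `D` containing the `b i`; if `z ∈ K`, `‖z‖ < 1` then `z ∈ mP D (n + 1)` for all `n`, so
  `z = 0` (`Nl.exists_tau`); inverses by (5); every `z ∈ D` is congruent to an element of `K`: `y n ∈ Dn n` as in (4), `y (n + 1) - y n ∈ mP D (n + 1)` by (3),
  limit by `Cp_exists_lim`.
* `PB.pbf'`: `rs` is an isomorphism of `K` onto `kap D` (elements of `K` other than zero have norm one, as `K ≤ D`).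
-/

namespace Pool.Agent.Lib.MXP

open Pool.Agent.Lib.MP_3029eb_ag Pool.Agent.Lib.MP_3029eb_ag.Abh Pool.Agent.Lib.TDO
open Pool.Agent.Lib.TQ (mI mP Cp Nl)

variable {W : Type} [NormedField W] [IsUltrametricDist W] (p : ℕ) [Fact p.Prime] [CharP W p]

/-- reduction of the exponents of monomials -/
private theorem CgP2_adjoin {R V : Type} [CommRing R] [Field V] [Algebra R V] (p : ℕ) (hp : 0 < p)
    {κ : Type} [Fintype κ] (x : κ → V) (hx : ∀ i, ∃ r : R, algebraMap R V r = x i ^ p) {z : V}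
    (hz : z ∈ Algebra.adjoin R (Set.range x)) :
    z ∈ Submodule.span R
      (Set.range fun α : κ → Fin p => ∏ i, x i ^ ((α i : Fin p) : ℕ)) := by
  classical
  choose r hr using hx
  rw [Algebra.adjoin_range_eq_range_aeval] at hz
  obtain ⟨P, rfl⟩ := hz
  change MvPolynomial.aeval x P ∈ _
  rw [MvPolynomial.aeval_def, MvPolynomial.eval₂_eq']
  refine Submodule.sum_mem _ fun d _ => ?_
  have h1 : ∏ i, x i ^ d i = (∏ i, r i ^ (d i / p)) • ∏ i, x i ^ (d i % p) := by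
    rw [Algebra.smul_def, map_prod, ← Finset.prod_mul_distrib]
    refine Finset.prod_congr rfl fun i _ => ?_
    rw [map_pow, hr, ← pow_mul, ← pow_add, Nat.div_add_mod]
  rw [h1, ← Algebra.smul_def]
  exact Submodule.smul_mem _ _ (Submodule.smul_mem _ _ (Submodule.subset_span
    ⟨fun i => ⟨d i % p, Nat.mod_lt _ hp⟩, rfl⟩))

omit [IsUltrametricDist W] in
private theorem CgP2_fin (R : Subring W) {ι : Type} (b : ι → W) {z : W}
    (hz : z ∈ Subring.closure ((R.map (frobenius W p) : Set W) ∪ Set.range b)) :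
    ∃ s : Finset ι, z ∈ Algebra.adjoin (R.map (frobenius W p)) (Set.range fun i : s => b i) := by
  classical
  have hmono : ∀ s s' : Finset ι, s ⊆ s' →
      Algebra.adjoin (R.map (frobenius W p)) (Set.range fun i : s => b i) ≤
        Algebra.adjoin (R.map (frobenius W p)) (Set.range fun i : s' => b i) := by
    intro s s' hs
    refine Algebra.adjoin_mono ?_
    rintro _ ⟨i, rfl⟩
    exact ⟨⟨i, hs i.2⟩, rfl⟩
  induction hz using Subring.closure_induction with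
  | mem x hx =>
    rcases hx with hx | ⟨i, rfl⟩
    · exact ⟨∅, (Algebra.adjoin (R.map (frobenius W p)) _).algebraMap_mem
        (⟨x, hx⟩ : R.map (frobenius W p))⟩
    · exact ⟨{i}, Algebra.subset_adjoin ⟨⟨i, Finset.mem_singleton_self i⟩, rfl⟩⟩
  | zero => exact ⟨∅, zero_mem _⟩
  | one => exact ⟨∅, one_mem _⟩
  | add x y _ _ hx hy =>
    obtain ⟨s, hs⟩ := hx
    obtain ⟨s', hs'⟩ := hy
    exact ⟨s ∪ s', add_mem (hmono _ _ Finset.subset_union_left hs)
      (hmono _ _ Finset.subset_union_right hs')⟩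
  | neg x _ hx =>
    obtain ⟨s, hs⟩ := hx
    exact ⟨s, neg_mem hs⟩
  | mul x y _ _ hx hy =>
    obtain ⟨s, hs⟩ := hx
    obtain ⟨s', hs'⟩ := hy
    exact ⟨s ∪ s', mul_mem (hmono _ _ Finset.subset_union_left hs)
      (hmono _ _ Finset.subset_union_right hs')⟩

open Classical in
omit [IsUltrametricDist W] in
private theorem CgP2_sum (R : Subring W) {ι : Type} (b : ι → W) (hb : ∀ i, b i ∈ R) {z : W}
    (hz : z ∈ Subring.closure ((R.map (frobenius W p) : Set W) ∪ Set.range b)) :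
    ∃ (s : Finset ι) (c : (s → Fin p) → W), (∀ α, c α ∈ R) ∧
      z = ∑ α, c α ^ p * ∏ i : s, b i ^ ((α i : Fin p) : ℕ) := by
  obtain ⟨s, hs⟩ := CgP2_fin p R b hz
  have hp : p.Prime := Fact.out
  have h1 := CgP2_adjoin p hp.pos (fun i : s => b i)
    (fun i => ⟨⟨b i ^ p, b i, hb i, rfl⟩, rfl⟩) hs
  rw [Submodule.mem_span_range_iff_exists_fun] at h1
  obtain ⟨c, hc⟩ := h1
  have hc' : ∀ α, ∃ d ∈ R, d ^ p = (c α : W) := fun α => (c α).2
  choose d hd hdc using hc'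
  refine ⟨s, d, hd, ?_⟩
  rw [← hc]
  refine Finset.sum_congr rfl fun α _ => ?_
  rw [hdc]
  rfl

private theorem CgP2_prod {κ : Type} (s : Finset κ) (f : κ → W) (h : ∀ i ∈ s, ‖f i‖ ≤ 1) :
    rs (∏ i ∈ s, f i) = ∏ i ∈ s, rs (f i) ∧ ‖∏ i ∈ s, f i‖ ≤ 1 := by
  classical
  induction s using Finset.induction_on with
  | empty =>
    rw [Finset.prod_empty, Finset.prod_empty, norm_one]
    exact ⟨rs_one, le_rfl⟩
  | insert a s ha ih =>
    obtain ⟨h1, h2⟩ := ih fun i hi => h i (Finset.mem_insert_of_mem hi)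
    have h3 := h a (Finset.mem_insert_self a s)
    rw [Finset.prod_insert ha, Finset.prod_insert ha, rs_mul h3 h2, h1, norm_mul]
    exact ⟨rfl, mul_le_one₀ h3 (norm_nonneg _) h2⟩

omit [Fact p.Prime] [CharP W p] in
open Classical in
private theorem CgP2_rs {ι : Type} (b : ι → W) (hb : ∀ i, ‖b i‖ ≤ 1) (s : Finset ι)
    (c : (s → Fin p) → W) (hc : ∀ α, ‖c α‖ ≤ 1) :
    rs (∑ α, c α ^ p * ∏ i : s, b i ^ ((α i : Fin p) : ℕ)) =
        ∑ α, rs (c α) ^ p * ∏ i : s, rs (b i) ^ ((α i : Fin p) : ℕ) ∧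
      ‖∑ α, c α ^ p * ∏ i : s, b i ^ ((α i : Fin p) : ℕ)‖ ≤ 1 := by
  have h1 : ∀ α : s → Fin p, rs (∏ i : s, b i ^ ((α i : Fin p) : ℕ)) =
      ∏ i : s, rs (b i) ^ ((α i : Fin p) : ℕ) ∧ ‖∏ i : s, b i ^ ((α i : Fin p) : ℕ)‖ ≤ 1 := by
    intro α
    obtain ⟨h2, h3⟩ := CgP2_prod Finset.univ (fun i : s => b i ^ ((α i : Fin p) : ℕ))
      (fun i _ => by
        rw [norm_pow]
        exact pow_le_one₀ (norm_nonneg _) (hb i))
    refine ⟨?_, h3⟩
    rw [h2]
    exact Finset.prod_congr rfl fun i _ => rs_pow (hb i) _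
  have h4 : ∀ α : s → Fin p, ‖c α ^ p‖ ≤ 1 := fun α => by
    rw [norm_pow]
    exact pow_le_one₀ (norm_nonneg _) (hc α)
  obtain ⟨h5, h6⟩ := rs_sum Finset.univ
    (fun α : s → Fin p => c α ^ p * ∏ i : s, b i ^ ((α i : Fin p) : ℕ)) (fun α _ => by
      rw [norm_mul]
      exact mul_le_one₀ (h4 α) (norm_nonneg _) (h1 α).2)
  refine ⟨?_, h6⟩
  rw [h5]
  refine Finset.sum_congr rfl fun α _ => ?_
  rw [rs_mul (h4 α) (h1 α).2, (h1 α).1, rs_pow (hc α)]

/-- The rings `Dn`. -/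
private def CgP2_Dn (D : Subring W) {ι : Type} (b : ι → W) : ℕ → Subring W
  | 0 => D
  | n + 1 => Subring.closure (((CgP2_Dn D b n).map (frobenius W p) : Set W) ∪ Set.range b)

omit [IsUltrametricDist W] in
private theorem CgP2_b (D : Subring W) {ι : Type} (b : ι → W) (hb : ∀ i, b i ∈ D) (n : ℕ) (i : ι) :
    b i ∈ CgP2_Dn p D b n := by
  cases n with
  | zero => exact hb i
  | succ n => exact Subring.subset_closure (Or.inr ⟨i, rfl⟩)

omit [IsUltrametricDist W] in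
private theorem CgP2_pow (D : Subring W) {ι : Type} (b : ι → W) (n : ℕ) {z : W}
    (hz : z ∈ CgP2_Dn p D b n) : z ^ p ∈ CgP2_Dn p D b (n + 1) :=
  Subring.subset_closure (Or.inl ⟨z, hz, rfl⟩)

omit [IsUltrametricDist W] in
private theorem CgP2_anti (D : Subring W) {ι : Type} (b : ι → W) (hb : ∀ i, b i ∈ D) (n : ℕ) :
    CgP2_Dn p D b (n + 1) ≤ CgP2_Dn p D b n := by
  induction n with
  | zero =>
    refine Subring.closure_le.2 ?_
    rintro z (⟨y, hy, rfl⟩ | ⟨i, rfl⟩)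
    · exact pow_mem hy p
    · exact hb i
  | succ n ih =>
    refine Subring.closure_mono ?_
    rintro z (⟨y, hy, rfl⟩ | ⟨i, rfl⟩)
    · exact Or.inl ⟨y, ih hy, rfl⟩
    · exact Or.inr ⟨i, rfl⟩

omit [IsUltrametricDist W] in
private theorem CgP2_le (D : Subring W) {ι : Type} (b : ι → W) (hb : ∀ i, b i ∈ D) (n : ℕ) :
    CgP2_Dn p D b n ≤ D := by
  induction n with
  | zero => exact le_rfl
  | succ n ih => exact (CgP2_anti p D b hb n).trans ih

private theorem CgP2_small {X : Subfield W} {D : Subring W} (hD : Nl X D) {ι : Type}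
    {b : ι → W} (h : PB p D b) (n : ℕ) {z : W} (hz : z ∈ CgP2_Dn p D b n) (hz1 : ‖z‖ < 1) :
    z ∈ mP D (n + 1) := by
  classical
  have hp : p.Prime := Fact.out
  induction n generalizing z with
  | zero => exact hD.mP_one_iff.2 ⟨hz, hz1⟩
  | succ n ih =>
    obtain ⟨s, c, hc, hzc⟩ := CgP2_sum p (CgP2_Dn p D b n) b (CgP2_b p D b h.mem n) hz
    have hcD : ∀ α, c α ∈ D := fun α => CgP2_le p D b h.mem n (hc α)
    obtain ⟨h1, h2⟩ := CgP2_rs p b (fun i => hD.one _ (h.mem i)) s c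
      (fun α => hD.one _ (hcD α))
    have h3 : rs z = 0 := (rs_eq_zero_iff hz1.le).2 hz1
    rw [hzc, h1] at h3
    have h4 := pbf_mon p h.pbf s (fun α => rs (c α)) (fun α => rs_mem_kap (hcD α)) h3
    rw [hzc]
    refine Pool.Agent.Lib.TQ.mP_sum _ _ fun α _ => ?_
    have h5 : ‖c α‖ < 1 := (rs_eq_zero_iff (hD.one _ (hcD α))).1 (h4 α)
    have h6 : c α ∈ mP D (n + 1) := ih (hc α) h5
    have h7 : c α ^ (p - 1) ∈ mP D 1 := by
      refine hD.mP_one_iff.2 ⟨pow_mem (hcD α) _, ?_⟩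
      rw [norm_pow]
      have := hp.two_le
      exact pow_lt_one₀ (norm_nonneg _) h5 (by omega)
    have h8 : c α ^ p ∈ mP D (n + 1 + 1) := by
      have h9 := Pool.Agent.Lib.TQ.mP_mul h6 h7
      have h10 : c α * c α ^ (p - 1) = c α ^ p := by
        rw [← pow_succ', Nat.sub_add_cancel hp.one_le]
      rwa [h10] at h9
    rw [mul_comm]
    exact Pool.Agent.Lib.TQ.mP_smul (prod_mem fun i _ => pow_mem (h.mem i) _) h8

/-- lifting of an expression of a residue -/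
private theorem CgP2_lift {X : Subfield W} {D : Subring W} (hD : Nl X D) {ι : Type}
    {b : ι → W} (h : PB p D b) (R : Subring W) (hR : R ≤ D)
    (hres : ∀ z ∈ D, ∃ y ∈ R, ‖z - y‖ < 1) {z : W} (hz : z ∈ D) :
    ∃ y ∈ Subring.closure ((R.map (frobenius W p) : Set W) ∪ Set.range b), ‖z - y‖ < 1 := by
  classical
  obtain ⟨s, c, -, hc, hzc⟩ := Kp_ring p (kap D) (fun i => rs (b i)) h.pbf.mem Set.univ
    (h.pbf.gen (rs_mem_kap hz))
  have h1 : ∀ α, ∃ y ∈ R, rs y = c α := by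
    intro α
    obtain ⟨d, hd, hdc⟩ := (mem_kap_iff hD.one hD.inv _).1 (hc α)
    obtain ⟨y, hy, hdy⟩ := hres d hd
    exact ⟨y, hy, by rw [← hdc]; exact ((rs_eq_iff (hD.one _ hd) (hD.one _ (hR hy))).2 hdy).symm⟩
  choose y hy hyc using h1
  obtain ⟨h2, h3⟩ := CgP2_rs p b (fun i => hD.one _ (h.mem i)) s y
    (fun α => hD.one _ (hR (hy α)))
  refine ⟨∑ α, y α ^ p * ∏ i : s, b i ^ ((α i : Fin p) : ℕ), ?_, ?_⟩
  · refine sum_mem fun α _ => mul_mem ?_ (prod_mem fun i _ => pow_mem ?_ _)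
    · exact Subring.subset_closure (Or.inl ⟨y α, hy α, rfl⟩)
    · exact Subring.subset_closure (Or.inr ⟨i, rfl⟩)
  · rw [← rs_eq_iff (hD.one _ hz) h3, h2, hzc]
    exact Finset.sum_congr rfl fun α _ => by rw [hyc]

private theorem CgP2_dens {X : Subfield W} {D : Subring W} (hD : Nl X D) {ι : Type}
    {b : ι → W} (h : PB p D b) (n : ℕ) {z : W} (hz : z ∈ D) :
    ∃ y ∈ CgP2_Dn p D b n, ‖z - y‖ < 1 := by
  induction n generalizing z with
  | zero => exact ⟨z, hz, by rw [sub_self, norm_zero]; exact zero_lt_one⟩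
  | succ n ih =>
    exact CgP2_lift p hD h (CgP2_Dn p D b n) (CgP2_le p D b h.mem n) (fun w hw => ih hw) hz

private theorem CgP2_inv {X : Subfield W} {D : Subring W} (hD : Nl X D) {ι : Type}
    {b : ι → W} (h : PB p D b) (n : ℕ) {z : W} (hz : z ∈ CgP2_Dn p D b n) (hz1 : ‖z‖ = 1) :
    z⁻¹ ∈ CgP2_Dn p D b n := by
  have hp : p.Prime := Fact.out
  have h0 : z ≠ 0 := by
    rintro rfl
    rw [norm_zero] at hz1
    exact zero_ne_one hz1
  induction n with
  | zero => exact hD.inv z hz hz1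
  | succ n ih =>
    have h1 := CgP2_pow p D b n (ih (CgP2_anti p D b h.mem n hz))
    have h2 : z⁻¹ = z ^ (p - 1) * z⁻¹ ^ p := by
      have h3 : z⁻¹ ^ p = z⁻¹ ^ (p - 1) * z⁻¹ := by
        rw [← pow_succ, Nat.sub_add_cancel hp.one_le]
      rw [h3, inv_pow, ← mul_assoc, mul_inv_cancel₀ (pow_ne_zero _ h0), one_mul]
    rw [h2]
    exact mul_mem (pow_mem hz _) h1

theorem pb_exists {X : Subfield W} {D : Subring W} (hD : Nl X D) :
    ∃ (ι : Type) (b : ι → W), PB p D b := by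
  obtain ⟨ι, β, hβ⟩ := pbf_exists p (kap D)
  have h1 : ∀ i, ∃ z ∈ D, rs z = β i := fun i => (mem_kap_iff hD.one hD.inv _).1 (hβ.mem i)
  choose b hb hbβ using h1
  refine ⟨ι, b, hb, ?_⟩
  have h2 : (fun i => rs (b i)) = β := funext hbβ
  rw [h2]
  exact hβ

theorem PB.mod {D : Subring W} {ι : Type} {b b' : ι → W} (h : PB p D b)
    (hD1 : ∀ z ∈ D, ‖z‖ ≤ 1) (hb' : ∀ i, b' i ∈ D ∧ ‖b i - b' i‖ < 1) : PB p D b' := by
  refine ⟨fun i => (hb' i).1, ?_⟩
  have h2 : (fun i => rs (b' i)) = fun i => rs (b i) := funext fun i =>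
    ((rs_eq_iff (hD1 _ (h.mem i)) (hD1 _ (hb' i).1)).2 (hb' i).2).symm
  rw [h2]
  exact h.pbf

theorem pb_coef {X : Subfield W} {D : Subring W} (hD : Nl X D) (hDc : Cp D = D) {ι : Type}
    {b : ι → W} (h : PB p D b) :
    ∃ K : Subfield W, (∀ e ∈ K, e ∈ D) ∧ (∀ z ∈ D, ∃ e ∈ K, ‖z - e‖ < 1) ∧ ∀ i, b i ∈ K := by
  have hle := CgP2_le p D b h.mem
  have hlt : ∀ n, ∀ z ∈ mP D (n + 1), z ∈ D ∧ ‖z‖ < 1 := fun n z hz =>
    hD.mP_one_iff.1 (Pool.Agent.Lib.TQ.mP_anti (Nat.le_add_left 1 n) hz)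
  have hKD : ∀ z, (∀ n, ∃ y ∈ CgP2_Dn p D b n, z - y ∈ mP D (n + 1)) → z ∈ D := by
    intro z hz
    obtain ⟨y, hy, hzy⟩ := hz 0
    have h1 := add_mem (hlt 0 _ hzy).1 (hle 0 hy)
    rwa [sub_add_cancel] at h1
  have hK0 : ∀ z, (∀ n, ∃ y ∈ CgP2_Dn p D b n, z - y ∈ mP D (n + 1)) → ‖z‖ < 1 → z = 0 := by
    intro z hz hz1
    obtain ⟨τ, hτ0, hτ1, hτ⟩ := hD.exists_tau
    have h1 : ∀ n, z ∈ mP D (n + 1) := by
      intro n
      obtain ⟨y, hy, hzy⟩ := hz n
      have h2 : ‖y‖ < 1 := by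
        have h3 : y = z - (z - y) := by ring
        rw [h3, sub_eq_add_neg]
        refine (IsUltrametricDist.norm_add_le_max _ _).trans_lt (max_lt hz1 ?_)
        rw [norm_neg]
        exact (hlt n _ hzy).2
      have h3 := Pool.Agent.Lib.TQ.mP_add hzy (CgP2_small p hD h n hy h2)
      rwa [sub_add_cancel] at h3
    have h2 : ∀ n, ‖z‖ ≤ τ ^ n := fun n =>
      hτ n z (Pool.Agent.Lib.TQ.mP_anti (Nat.le_succ n) (h1 n))
    have h3 : ‖z‖ ≤ 0 := ge_of_tendsto' (tendsto_pow_atTop_nhds_zero_of_lt_one hτ0 hτ1) h2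
    exact norm_le_zero_iff.1 h3
  let K : Subfield W :=
    { carrier := {z | ∀ n, ∃ y ∈ CgP2_Dn p D b n, z - y ∈ mP D (n + 1)}
      mul_mem' := by
        intro z z' hz hz' n
        obtain ⟨y, hy, hzy⟩ := hz n
        obtain ⟨y', hy', hzy'⟩ := hz' n
        refine ⟨y * y', mul_mem hy hy', ?_⟩
        have h1 : z * z' - y * y' = z * (z' - y') + y' * (z - y) := by ring
        rw [h1]
        exact Pool.Agent.Lib.TQ.mP_add (Pool.Agent.Lib.TQ.mP_smul (hKD z hz) hzy')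
          (Pool.Agent.Lib.TQ.mP_smul (hle n hy') hzy)
      one_mem' := fun n => ⟨1, one_mem _, by
        rw [sub_self]; exact Pool.Agent.Lib.TQ.mP_zero_mem _⟩
      add_mem' := by
        intro z z' hz hz' n
        obtain ⟨y, hy, hzy⟩ := hz n
        obtain ⟨y', hy', hzy'⟩ := hz' n
        refine ⟨y + y', add_mem hy hy', ?_⟩
        have h1 : z + z' - (y + y') = (z - y) + (z' - y') := by ring
        rw [h1]
        exact Pool.Agent.Lib.TQ.mP_add hzy hzy'
      zero_mem' := fun n => ⟨0, zero_mem _, by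
        rw [sub_self]; exact Pool.Agent.Lib.TQ.mP_zero_mem _⟩
      neg_mem' := by
        intro z hz n
        obtain ⟨y, hy, hzy⟩ := hz n
        refine ⟨-y, neg_mem hy, ?_⟩
        have h1 : -z - -y = -(z - y) := by ring
        rw [h1]
        exact Pool.Agent.Lib.TQ.mP_neg hzy
      inv_mem' := by
        intro z hz n
        by_cases h0 : z = 0
        · refine ⟨0, zero_mem _, ?_⟩
          rw [h0, inv_zero, sub_self]
          exact Pool.Agent.Lib.TQ.mP_zero_mem _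
        · have h1 : ‖z‖ = 1 := by
            refine le_antisymm (hD.one z (hKD z hz)) (not_lt.1 fun h1 => h0 (hK0 z hz h1))
          obtain ⟨y, hy, hzy⟩ := hz n
          have h2 : ‖y‖ = 1 := by
            refine le_antisymm (hD.one y (hle n hy)) (not_lt.1 fun h2 => ?_)
            have h3 : z = (z - y) + y := by ring
            have h4 : ‖z‖ < 1 := by
              rw [h3]
              exact (IsUltrametricDist.norm_add_le_max _ _).trans_lt
                (max_lt (hlt n _ hzy).2 h2)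
            exact h4.ne h1
          have hy0 : y ≠ 0 := by
            rintro rfl
            rw [norm_zero] at h2
            exact zero_ne_one h2
          refine ⟨y⁻¹, CgP2_inv p hD h n hy h2, ?_⟩
          have h3 : z⁻¹ - y⁻¹ = -(z⁻¹ * y⁻¹) * (z - y) := by
            field_simp
            ring
          rw [h3]
          exact Pool.Agent.Lib.TQ.mP_smul (neg_mem (mul_mem (hD.inv z (hKD z hz) h1)
            (hD.inv y (hle n hy) h2))) hzy }
  refine ⟨K, fun e he => hKD e he, ?_, fun i n => ⟨b i, CgP2_b p D b h.mem n i, by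
    rw [sub_self]; exact Pool.Agent.Lib.TQ.mP_zero_mem _⟩⟩
  intro z hz
  have h1 : ∀ n, ∃ y ∈ CgP2_Dn p D b n, ‖z - y‖ < 1 := fun n => CgP2_dens p hD h n hz
  choose y hy hzy using h1
  have h2 : ∀ n, y (n + 1) - y n ∈ mP D (n + 1) := by
    intro n
    refine CgP2_small p hD h n (sub_mem (CgP2_anti p D b h.mem n (hy (n + 1))) (hy n)) ?_
    have h3 : y (n + 1) - y n = (z - y n) + -(z - y (n + 1)) := by ring
    rw [h3]
    refine (IsUltrametricDist.norm_add_le_max _ _).trans_lt (max_lt (hzy n) ?_)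
    rw [norm_neg]
    exact hzy (n + 1)
  obtain ⟨e, he, -, hey⟩ := Pool.Agent.Lib.TQ.Cp_exists_lim hD y
    (fun n => by rw [hDc]; exact hle n (hy n))
    (fun n => by rw [hDc]; exact Pool.Agent.Lib.TQ.mP_anti (Nat.le_succ n) (h2 n))
  rw [hDc] at he hey
  have h4 : ∀ n, e - y n ∈ mP D (n + 1) := by
    intro n
    have h5 := Pool.Agent.Lib.TQ.mP_add (hey (n + 1)) (h2 n)
    have h6 : e - y (n + 1) + (y (n + 1) - y n) = e - y n := by ring
    rwa [h6] at h5
  refine ⟨e, fun n => ⟨y n, hy n, h4 n⟩, ?_⟩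
  have h5 : z - e = (z - y 0) + -(e - y 0) := by ring
  rw [h5]
  refine (IsUltrametricDist.norm_add_le_max _ _).trans_lt (max_lt (hzy 0) ?_)
  rw [norm_neg]
  exact (hlt 0 _ (h4 0)).2

theorem PB.pbf' {X : Subfield W} {D : Subring W} (hD : Nl X D) {ι : Type} {b : ι → W}
    (h : PB p D b) (K : Subfield W) (hKD : ∀ e ∈ K, e ∈ D)
    (hres : ∀ z ∈ D, ∃ e ∈ K, ‖z - e‖ < 1) (hb : ∀ i, b i ∈ K) : PBf p K b := by
  classical
  have hK0 : ∀ z ∈ K, ‖z‖ < 1 → z = 0 := by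
    intro z hz hz1
    by_contra h0
    have h1 := hD.one _ (hKD _ (K.inv_mem hz))
    rw [norm_inv] at h1
    have h2 : 0 < ‖z‖ := norm_pos_iff.2 h0
    have h3 : 1 < ‖z‖⁻¹ := (one_lt_inv₀ h2).2 hz1
    exact absurd h1 (not_le.2 h3)
  refine ⟨hb, ?_, ?_⟩
  · intro z hz
    obtain ⟨y, hy, hzy⟩ := CgP2_lift p hD h K.toSubring (fun e he => hKD e he) hres (hKD z hz)
    have h1 : Subring.closure ((K.toSubring.map (frobenius W p) : Set W) ∪ Set.range b) ≤
        (Kp p K b Set.univ).toSubring := by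
      refine Subring.closure_le.2 ?_
      rintro w (hw | ⟨i, rfl⟩)
      · obtain ⟨v, hv, rfl⟩ := hw
        exact Subfield.subset_closure (Or.inl ⟨v, hv, rfl⟩)
      · exact Subfield.subset_closure (Or.inr ⟨i, Set.mem_univ i, rfl⟩)
    have h2 : y ∈ Kp p K b Set.univ := h1 hy
    have h3 : z - y = 0 := hK0 _ (K.sub_mem hz (Kp_le p K b hb _ h2)) hzy
    rw [sub_eq_zero] at h3
    rw [h3]
    exact h2
  · intro i hi
    obtain ⟨s, c, hs, hc, hbc⟩ := Kp_ring p K b hb _ hi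
    obtain ⟨h2, h3⟩ := CgP2_rs p b (fun i => hD.one _ (h.mem i)) s c
      (fun α => hD.one _ (hKD _ (hc α)))
    apply h.pbf.ind i
    rw [hbc, h2]
    refine sum_mem fun α _ => mul_mem ?_ (prod_mem fun j _ => pow_mem ?_ _)
    · exact Subfield.subset_closure (Or.inl ⟨rs (c α), rs_mem_kap (hKD _ (hc α)), rfl⟩)
    · exact Subfield.subset_closure (Or.inr ⟨j, hs j.2, rfl⟩)

end Pool.Agent.Lib.MXP
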