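import Pool.Agent.Lib.MXP.CgPD
import Pool.Agent.Lib.TQ.CgB
import Pool.Agent.Lib.MP_3029eb_ag.RP
import Mathlib.RingTheory.MvPowerSeries.Trunc
import Mathlib.RingTheory.MvPowerSeries.Equiv
import Mathlib.RingTheory.KrullDimension.NonZeroDivisors

/-!
# Module CgP3: evaluation of power series in a complete local ring
* `ev_exists`: for `f` the sequence `b n := aeval x (truncTotal n f)` (polynomial over `K`) has `b (n + 1) - b n ∈ mP D n`; limit `z ∈ D` with
  `z - b n ∈ mP D n` for all `n` (`Cp_exists_lim`), unique (`Nl.exists_tau`).  Additive; multiplicative: `truncTotal n (f * g)` and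
  `truncTotal n f * truncTotal n g` have the same coefficients in degrees `< n`
  (`MvPowerSeries.coeff_truncTotal_mul_truncTotal_eq_coeff_mul`), and a polynomial with coefficients in `K` all of whose monomials have degree `≥ n` has value in `mP D n`.
* `ev_range`: an element of `PK K x` is in `ev.range` (a unit of `D` in the range is the value of a power series with constant coefficient nonzero: the constant
  coefficient `e ∈ K` is congruent to it; such power series are invertible).  For `z ∈ Cp (PK K x)` construct by recursion homogeneous polynomials `h n` of degree `n` over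
  `K` with `z - ∑_{j < n} h j (x) ∈ mP (Cp (PK K x)) n`: an element of `mP (Cp P) n` is congruent modulo `mP (Cp P) (n + 1)` to `∑_{|α| = n} e α * x ^ α`, `e α ∈ K`
  (`Cp_dens`, `Nl.mP_gen`, residues); the hypothesis `hP` and `hPm` are what `cg_fin` gives.  The power series `∑ h n` has value `z`.
* `ev_inj`: `D` is integral over `ev.range`, so `ρ = dim D ≤ dim ev.range` (prove it as in the private `cgb_dim` of `TQ/CgB.lean` or by
  going up / lying over in Mathlib), and `dim ev.range < dim (MvPowerSeries (Fin ρ) K)` if `ev` is not injective (`ringKrullDim_succ_le_of_surjective`); the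
  power series ring is a noetherian local domain whose maximal ideal is generated by the `ρ` elements `X i`, so its dimension is `≤ ρ`
  (`Ideal.height_le_spanRank...`, Krull).
-/

namespace Pool.Agent.Lib.MXP

open Pool.Agent.Lib.MP_3029eb_ag Pool.Agent.Lib.MP_3029eb_ag.Abh Pool.Agent.Lib.TDO
open Pool.Agent.Lib.TQ (mI mP Cp Nl)
open Pool.Agent.Lib.TQ (mP_mem mP_zero_iff mP_zero_mem mP_add mP_neg mP_sub mP_sum mP_smul mP_mul
  mP_anti mP_mono le_Cp Cp_max Cp_mono Cp_exists_lim)

variable {W : Type} [NormedField W] [IsUltrametricDist W] {X : Subfield W} {D : Subring W}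

private theorem cgp3_uniq (hD : Nl X D) {z : W} (h : ∀ n, z ∈ mP D n) : z = 0 := by
  obtain ⟨τ, h0, h1, hτ⟩ := hD.exists_tau
  have h2 : ‖z‖ ≤ 0 :=
    ge_of_tendsto' (tendsto_pow_atTop_nhds_zero_of_lt_one h0 h1) (fun n => hτ n z (h n))
  exact norm_le_zero_iff.1 h2

/-- evaluation of polynomials -/
private noncomputable def cgp3_p (K : Subfield W) (hKD : ∀ e ∈ K, e ∈ D) {ρ : ℕ}
    (x : Fin ρ → W) (hx : ∀ i, x i ∈ D ∧ ‖x i‖ < 1) : MvPolynomial (Fin ρ) K →+* D :=
  MvPolynomial.eval₂Hom (K.subtype.codRestrict D fun e => hKD e e.2) fun i => ⟨x i, (hx i).1⟩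

private theorem cgp3_pC (K : Subfield W) (hKD : ∀ e ∈ K, e ∈ D) {ρ : ℕ}
    (x : Fin ρ → W) (hx : ∀ i, x i ∈ D ∧ ‖x i‖ < 1) (e : K) :
    (cgp3_p K hKD x hx (MvPolynomial.C e) : W) = e := by
  unfold cgp3_p
  rw [MvPolynomial.eval₂Hom_C]
  rfl

private theorem cgp3_pX (K : Subfield W) (hKD : ∀ e ∈ K, e ∈ D) {ρ : ℕ}
    (x : Fin ρ → W) (hx : ∀ i, x i ∈ D ∧ ‖x i‖ < 1) (i : Fin ρ) :
    (cgp3_p K hKD x hx (MvPolynomial.X i) : W) = x i := by
  unfold cgp3_p
  rw [MvPolynomial.eval₂Hom_X']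

private theorem cgp3_pow (hD : Nl X D) (K : Subfield W) (hKD : ∀ e ∈ K, e ∈ D) {ρ : ℕ}
    (x : Fin ρ → W) (hx : ∀ i, x i ∈ D ∧ ‖x i‖ < 1) {n : ℕ} {P : MvPolynomial (Fin ρ) K}
    (hP : ∀ d : Fin ρ →₀ ℕ, d.degree < n → P.coeff d = 0) :
    (cgp3_p K hKD x hx P : W) ∈ mP D n := by
  have h1 : MvPolynomial.idealOfVars (Fin ρ) K ≤ (mI D).comap (cgp3_p K hKD x hx) := by
    rw [MvPolynomial.idealOfVars, Ideal.span_le]
    rintro _ ⟨i, rfl⟩
    rw [SetLike.mem_coe, Ideal.mem_comap, hD.mem_mI, cgp3_pX]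
    exact (hx i).2
  have h2 : P ∈ MvPolynomial.idealOfVars (Fin ρ) K ^ n :=
    (MvPolynomial.mem_pow_idealOfVars_iff' ..).2 hP
  have h3 := (Ideal.pow_right_mono h1 n).trans (Ideal.le_comap_pow _ n) h2
  exact ⟨_, h3, rfl⟩

theorem ev_exists (hD : Nl X D) (hDc : Cp D = D) (K : Subfield W) (hKD : ∀ e ∈ K, e ∈ D) {ρ : ℕ}
    (x : Fin ρ → W) (hx : ∀ i, x i ∈ D ∧ ‖x i‖ < 1) :
    ∃ ev : MvPowerSeries (Fin ρ) K →+* W, Ev K D x ev := by
  classical
  obtain ⟨p, hp⟩ : ∃ p : MvPolynomial (Fin ρ) K →+* D, p = cgp3_p K hKD x hx := ⟨_, rfl⟩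
  have hpow : ∀ {n : ℕ} {P : MvPolynomial (Fin ρ) K},
      (∀ d : Fin ρ →₀ ℕ, d.degree < n → P.coeff d = 0) → (p P : W) ∈ mP D n := by
    intro n P hP
    rw [hp]
    exact cgp3_pow hD K hKD x hx hP
  have key : ∀ f : MvPowerSeries (Fin ρ) K, ∃ z ∈ D, ∀ n, z - (p (f.truncTotal n) : W) ∈
      mP D n := by
    intro f
    obtain ⟨z, hz, _, h⟩ := Cp_exists_lim hD (fun n => (p (f.truncTotal n) : W))
      (by intro n; rw [hDc]; exact SetLike.coe_mem _)
      (by
        intro n
        have e : (p (f.truncTotal (n + 1)) : W) - (p (f.truncTotal n) : W) =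
            (p (f.truncTotal (n + 1) - f.truncTotal n) : W) := by
          rw [map_sub p]
          rfl
        rw [hDc, e]
        apply hpow
        intro d hd
        rw [MvPolynomial.coeff_sub, MvPowerSeries.coeff_truncTotal _ (by omega),
          MvPowerSeries.coeff_truncTotal _ hd, sub_self])
    rw [hDc] at hz h
    exact ⟨z, hz, h⟩
  choose z hzD hz using key
  have huniq : ∀ f w, (∀ n, w - (p (f.truncTotal n) : W) ∈ mP D n) → z f = w := by
    intro f w hw
    rw [← sub_eq_zero]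
    refine cgp3_uniq hD fun n => ?_
    have := mP_sub (hz f n) (hw n)
    rwa [sub_sub_sub_cancel_right] at this
  have hpoly : ∀ P : MvPolynomial (Fin ρ) K, z (P : MvPowerSeries (Fin ρ) K) = p P := by
    intro P
    apply huniq
    intro n
    have e : (p P : W) - (p ((P : MvPowerSeries (Fin ρ) K).truncTotal n) : W) =
        (p (P - (P : MvPowerSeries (Fin ρ) K).truncTotal n) : W) := by
      rw [map_sub p]
      rfl
    rw [e]
    apply hpow
    intro d hd
    rw [MvPolynomial.coeff_sub, MvPowerSeries.coeff_truncTotal _ hd, MvPolynomial.coeff_coe,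
      sub_self]
  refine ⟨{ toFun := z, map_one' := ?_, map_mul' := ?_, map_zero' := ?_, map_add' := ?_ },
    ?_, ?_, ?_, ?_⟩
  · have := hpoly 1
    rw [MvPolynomial.coe_one, map_one] at this
    exact this
  · intro f g
    apply huniq
    intro n
    have h1 : z f * z g - (p ((f * g).truncTotal n) : W) =
        z g * (z f - (p (f.truncTotal n) : W)) +
        (p (f.truncTotal n) : W) * (z g - (p (g.truncTotal n) : W)) -
        (p ((f * g).truncTotal n - f.truncTotal n * g.truncTotal n) : W) := by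
      have h0 : (p ((f * g).truncTotal n - f.truncTotal n * g.truncTotal n) : W) =
          (p ((f * g).truncTotal n) : W) -
            (p (f.truncTotal n) : W) * (p (g.truncTotal n) : W) := by
        rw [map_sub p, map_mul p]
        rfl
      rw [h0]
      ring
    rw [h1]
    refine mP_sub (mP_add (mP_smul (hzD g) (hz f n)) (mP_smul (SetLike.coe_mem _) (hz g n))) ?_
    apply hpow
    intro d hd
    rw [MvPolynomial.coeff_sub, MvPowerSeries.coeff_truncTotal _ hd,
      MvPowerSeries.coeff_truncTotal_mul_truncTotal_eq_coeff_mul _ _ hd, sub_self]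
  · have := hpoly 0
    rw [MvPolynomial.coe_zero, map_zero] at this
    exact this
  · intro f g
    apply huniq
    intro n
    rw [map_add, map_add, Subring.coe_add]
    have := mP_add (hz f n) (hz g n)
    have e : z f + z g - ((p (f.truncTotal n) : W) + (p (g.truncTotal n) : W)) =
        z f - (p (f.truncTotal n) : W) + (z g - (p (g.truncTotal n) : W)) := by ring
    rw [e]
    exact this
  · exact hzD
  · intro e
    have := hpoly (MvPolynomial.C e)
    rw [MvPolynomial.coe_C, hp, cgp3_pC] at this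
    exact this
  · intro i
    have := hpoly (MvPolynomial.X i)
    rw [MvPolynomial.coe_X, hp, cgp3_pX] at this
    exact this
  · intro f n hf
    have h1 := hz f n
    have h2 : f.truncTotal n = 0 := by
      ext d
      rw [MvPolynomial.coeff_zero, MvPowerSeries.coeff_truncTotal_eq_ite]
      split_ifs with h
      · exact congrArg Subtype.val (hf d h)
      · rfl
    rw [h2, map_zero, Subring.coe_zero, sub_zero] at h1
    exact h1

private theorem cgp3_coe (K : Subfield W) (hKD : ∀ e ∈ K, e ∈ D) {ρ : ℕ}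
    (x : Fin ρ → W) (hx : ∀ i, x i ∈ D ∧ ‖x i‖ < 1) {ev : MvPowerSeries (Fin ρ) K →+* W}
    (hev : Ev K D x ev) (P : MvPolynomial (Fin ρ) K) :
    ev (P : MvPowerSeries (Fin ρ) K) = (cgp3_p K hKD x hx P : W) := by
  have h1 : ev.comp MvPolynomial.coeToMvPowerSeries.ringHom =
      D.subtype.comp (cgp3_p K hKD x hx) := by
    apply MvPolynomial.ringHom_ext
    · intro e
      have h2 := hev.C e
      rw [RingHom.comp_apply, RingHom.comp_apply]
      simp only [MvPolynomial.coeToMvPowerSeries.ringHom_apply, MvPolynomial.coe_C]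
      rw [h2]
      exact (cgp3_pC K hKD x hx e).symm
    · intro i
      have h2 := hev.X i
      rw [RingHom.comp_apply, RingHom.comp_apply]
      simp only [MvPolynomial.coeToMvPowerSeries.ringHom_apply, MvPolynomial.coe_X]
      rw [h2]
      exact (cgp3_pX K hKD x hx i).symm
  exact RingHom.congr_fun h1 P

private theorem cgp3_trunc (K : Subfield W) (hKD : ∀ e ∈ K, e ∈ D) {ρ : ℕ}
    (x : Fin ρ → W) (hx : ∀ i, x i ∈ D ∧ ‖x i‖ < 1) {ev : MvPowerSeries (Fin ρ) K →+* W}
    (hev : Ev K D x ev) (f : MvPowerSeries (Fin ρ) K) (n : ℕ) :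
    ev f - (cgp3_p K hKD x hx (f.truncTotal n) : W) ∈ mP D n := by
  rw [← cgp3_coe K hKD x hx hev, ← map_sub]
  apply hev.ord
  intro d hd
  rw [map_sub, MvPolynomial.coeff_coe, MvPowerSeries.coeff_truncTotal _ hd, sub_self]

/-- homogeneous approximation -/
private theorem cgp3_step (K : Subfield W) (hKD : ∀ e ∈ K, e ∈ D) {ρ : ℕ}
    (x : Fin ρ → W) (hx : ∀ i, x i ∈ D ∧ ‖x i‖ < 1) {C : Subring W} (hC : Nl X C) (hCD : C ≤ D)
    (hKC : ∀ e ∈ K, e ∈ C) (hxC : ∀ i, x i ∈ C)
    (hres : ∀ z ∈ D, ∃ e ∈ K, ‖z - e‖ < 1)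
    (hmax : ∀ z ∈ C, ‖z‖ < 1 → z ∈ Submodule.span C (Set.range x)) (n : ℕ) {y : W}
    (hy : y ∈ mP C n) :
    ∃ h : MvPolynomial (Fin ρ) K, (∀ d : Fin ρ →₀ ℕ, d.degree ≠ n → h.coeff d = 0) ∧
      y - (cgp3_p K hKD x hx h : W) ∈ mP C (n + 1) := by
  classical
  have hx1 : ∀ i, x i ∈ mP C 1 := fun i => hC.mP_one_iff.2 ⟨hxC i, (hx i).2⟩
  have hmon : ∀ α : Fin ρ → ℕ, monN x α ∈ mP C (∑ i, α i) := by
    intro α
    have hpow : ∀ j (a : ℕ), x j ^ a ∈ mP C a := by
      intro j a
      induction a with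
      | zero => rw [pow_zero]; exact mP_zero_iff.2 (one_mem C)
      | succ a ih => rw [pow_succ]; exact mP_mul ih (hx1 j)
    unfold monN
    have : ∀ s : Finset (Fin ρ), ∏ i ∈ s, x i ^ α i ∈ mP C (∑ i ∈ s, α i) := by
      intro s
      induction s using Finset.induction_on with
      | empty => rw [Finset.prod_empty, Finset.sum_empty]; exact mP_zero_iff.2 (one_mem C)
      | insert a s ha ih =>
        rw [Finset.prod_insert ha, Finset.sum_insert ha]
        exact mP_mul (hpow a _) ih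
    exact this Finset.univ
  have key : ∀ y ∈ Submodule.span C {v : W | ∃ α : Fin ρ → ℕ, ∑ i, α i = n ∧ v = monN x α},
      ∀ c ∈ C, ∃ h : MvPolynomial (Fin ρ) K, (∀ d : Fin ρ →₀ ℕ, d.degree ≠ n → h.coeff d = 0) ∧
        c * y - (cgp3_p K hKD x hx h : W) ∈ mP C (n + 1) := by
    intro y hy
    induction hy using Submodule.span_induction with
    | mem y hy =>
      intro c hc
      obtain ⟨α, hα, rfl⟩ := hy
      obtain ⟨e, he, hce⟩ := hres c (hCD hc)
      refine ⟨MvPolynomial.monomial (Finsupp.equivFunOnFinite.symm α) ⟨e, he⟩, ?_, ?_⟩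
      · intro d hd
        rw [MvPolynomial.coeff_monomial, if_neg]
        rintro rfl
        apply hd
        rw [← hα, Finsupp.degree_eq_sum]
        rfl
      · have h1 : (cgp3_p K hKD x hx (MvPolynomial.monomial (Finsupp.equivFunOnFinite.symm α)
            (⟨e, he⟩ : K)) : W) = e * monN x α := by
          rw [MvPolynomial.monomial_eq, map_mul, Subring.coe_mul, cgp3_pC, Finsupp.prod_fintype]
          · rw [map_prod]
            unfold monN
            congr 1
            rw [SubmonoidClass.coe_finsetProd]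
            refine Finset.prod_congr rfl fun i _ => ?_
            rw [map_pow, Subring.coe_pow, cgp3_pX]
            rfl
          · intro i
            rw [pow_zero]
        rw [h1, ← sub_mul, add_comm n 1]
        refine mP_mul (hC.mP_one_iff.2 ⟨sub_mem hc (hKC e he), hce⟩) ?_
        have := hmon α
        rwa [hα] at this
    | zero =>
      intro c _
      refine ⟨0, fun d _ => MvPolynomial.coeff_zero d, ?_⟩
      rw [mul_zero, map_zero, Subring.coe_zero, sub_zero]
      exact mP_zero_mem _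
    | add y z _ _ hy hz =>
      intro c hc
      obtain ⟨h1, h2, h3⟩ := hy c hc
      obtain ⟨g1, g2, g3⟩ := hz c hc
      refine ⟨h1 + g1, fun d hd => by rw [MvPolynomial.coeff_add, h2 d hd, g2 d hd, add_zero], ?_⟩
      have e : c * (y + z) - (cgp3_p K hKD x hx (h1 + g1) : W) =
          (c * y - (cgp3_p K hKD x hx h1 : W)) + (c * z - (cgp3_p K hKD x hx g1 : W)) := by
        rw [map_add, Subring.coe_add]
        ring
      rw [e]
      exact mP_add h3 g3
    | smul a y _ hy =>
      intro c hc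
      obtain ⟨h1, h2, h3⟩ := hy (c * a) (mul_mem hc a.2)
      refine ⟨h1, h2, ?_⟩
      have e : c * (a • y) = c * a * y := by
        change c * ((a : W) * y) = c * a * y
        ring
      rw [e]
      exact h3
  obtain ⟨h, h1, h2⟩ := key y (hC.mP_gen x (fun i => ⟨hxC i, (hx i).2⟩) hmax hy) 1 (one_mem C)
  rw [one_mul] at h2
  exact ⟨h, h1, h2⟩

theorem ev_range (hD : Nl X D) (hDc : Cp D = D) (K : Subfield W) (hKD : ∀ e ∈ K, e ∈ D)
    (hres : ∀ z ∈ D, ∃ e ∈ K, ‖z - e‖ < 1) {ρ : ℕ}
    (x : Fin ρ → W) (hx : ∀ i, x i ∈ D ∧ ‖x i‖ < 1) {ev : MvPowerSeries (Fin ρ) K →+* W}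
    (hev : Ev K D x ev) (hP : Nl X (PK K x))
    (hPm : ∀ z ∈ PK K x, ‖z‖ < 1 → z ∈ Submodule.span (PK K x) (Set.range x)) {z : W}
    (hz : z ∈ Cp (PK K x)) : z ∈ ev.range := by
  classical
  have hED : Subring.closure ((K : Set W) ∪ Set.range x) ≤ D := by
    rw [Subring.closure_le]
    rintro w (hw | ⟨i, rfl⟩)
    · exact hKD w hw
    · exact (hx i).1
  have hPD : PK K x ≤ D := by
    have h1 := locV_mono (ball W) hED
    rwa [hD.locV_eq] at h1
  have hEP : Subring.closure ((K : Set W) ∪ Set.range x) ≤ PK K x := le_locV (ball W) _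
  have hCD : Cp (PK K x) ≤ D := by
    have h1 : Cp (PK K x) ≤ Cp D := Cp_mono hP hD (by rw [hDc]; exact hPD)
    rwa [hDc] at h1
  have hKC : ∀ e ∈ K, e ∈ Cp (PK K x) := fun e he =>
    le_Cp (hEP (Subring.subset_closure (Or.inl he)))
  have hxC : ∀ i, x i ∈ Cp (PK K x) := fun i =>
    le_Cp (hEP (Subring.subset_closure (Or.inr ⟨i, rfl⟩)))
  have hmax : ∀ z ∈ Cp (PK K x), ‖z‖ < 1 →
      z ∈ Submodule.span (Cp (PK K x)) (Set.range x) := by
    intro w hw h1
    refine (Submodule.span_le.2 ?_) (Cp_max hP hw h1)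
    rintro b ⟨hb, hb1⟩
    have h2 := hPm b hb hb1
    rw [Submodule.mem_span_range_iff_exists_fun] at h2
    obtain ⟨c, rfl⟩ := h2
    refine Submodule.sum_mem _ fun i _ => ?_
    have h3 : (c i) • x i = (⟨(c i : W), le_Cp (c i).2⟩ : Cp (PK K x)) • x i := rfl
    rw [h3]
    exact Submodule.smul_mem _ _ (Submodule.subset_span ⟨i, rfl⟩)
  have hstep := fun (n : ℕ) (w : {w : W // w ∈ mP (Cp (PK K x)) n}) =>
    cgp3_step K hKD x hx hP.cp hCD hKC hxC hres hmax n w.2
  choose h hh hh' using hstep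
  let s : (n : ℕ) → {w : W // w ∈ mP (Cp (PK K x)) n} := fun n =>
    Nat.rec (motive := fun n => {w : W // w ∈ mP (Cp (PK K x)) n})
      ⟨z, mP_zero_iff.2 hz⟩ (fun n w => ⟨_, hh' n w⟩) n
  have hs0 : (s 0 : W) = z := rfl
  have hs1 : ∀ n, (s (n + 1) : W) = s n - (cgp3_p K hKD x hx (h n (s n)) : W) := fun n => rfl
  let f : MvPowerSeries (Fin ρ) K := fun d => (h d.degree (s d.degree)).coeff d
  have hfc : ∀ d, MvPowerSeries.coeff d f = (h d.degree (s d.degree)).coeff d := fun d => rfl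
  have htr : ∀ n, f.truncTotal n = ∑ j ∈ Finset.range n, h j (s j) := by
    intro n
    ext d
    rw [MvPowerSeries.coeff_truncTotal_eq_ite, MvPolynomial.coeff_sum]
    split_ifs with hd
    · rw [Finset.sum_eq_single_of_mem d.degree (Finset.mem_range.2 hd)
        (fun j _ hj => hh j (s j) d hj.symm)]
      rfl
    · rw [Finset.sum_eq_zero fun j hj => hh j (s j) d (by
        rintro rfl
        exact hd (Finset.mem_range.1 hj))]
  have hsn : ∀ n, z - (cgp3_p K hKD x hx (f.truncTotal n) : W) = s n := by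
    intro n
    induction n with
    | zero =>
      rw [htr, Finset.sum_range_zero, map_zero, Subring.coe_zero, sub_zero, hs0]
    | succ n ih =>
      rw [hs1, ← ih, htr, htr, Finset.sum_range_succ, map_add, Subring.coe_add]
      ring
  refine ⟨f, ?_⟩
  rw [← sub_eq_zero]
  refine cgp3_uniq hD fun n => ?_
  have h1 := cgp3_trunc K hKD x hx hev f n
  have h2 : z - (cgp3_p K hKD x hx (f.truncTotal n) : W) ∈ mP D n := by
    rw [hsn]
    exact mP_mono hCD (s n).2
  have h3 := mP_sub h1 h2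
  rwa [sub_sub_sub_cancel_right] at h3

private theorem cgp3_dim_int (A B : Type) [CommRing A] [CommRing B] [Algebra A B]
    [Algebra.IsIntegral A B] : ringKrullDim B ≤ ringKrullDim A := by
  refine Order.krullDim_le_of_strictMono
    (fun p : PrimeSpectrum B => PrimeSpectrum.comap (algebraMap A B) p) fun p q hpq => ?_
  exact Ideal.IsIntegral.comap_lt_comap (I := p.asIdeal) (J := q.asIdeal) hpq

private theorem cgp3_dim (K : Type) [Field K] (n : ℕ) :
    ringKrullDim (MvPowerSeries (Fin n) K) = ((n : ℕ) : WithBot ℕ∞) := by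
  induction n with
  | zero =>
    rw [ringKrullDim_eq_of_ringEquiv (MvPowerSeries.isEmptyEquiv (Fin 0) K).toRingEquiv,
      ringKrullDim_eq_zero_of_field]
    rfl
  | succ n ih =>
    rw [ringKrullDim_eq_of_ringEquiv (MvPowerSeries.finSuccEquiv K n).toRingEquiv,
      powerSeries_dim, ih]
    push_cast
    rfl

theorem ev_inj (hD : Nl X D) (hDc : Cp D = D) (K : Subfield W) (hKD : ∀ e ∈ K, e ∈ D) {ρ : ℕ}
    (hdim : ringKrullDim D = (((ρ : ℕ) : ℕ∞) : WithBot ℕ∞))
    (x : Fin ρ → W) (hx : ∀ i, x i ∈ D ∧ ‖x i‖ < 1) {ev : MvPowerSeries (Fin ρ) K →+* W}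
    (hev : Ev K D x ev) {l : ℕ} (v : Fin l → W) (hv : ∀ i, v i ∈ D)
    (hgen : ∀ z ∈ D, ∃ c : Fin l → W, (∀ i, c i ∈ ev.range) ∧ z = ∑ i, c i * v i) :
    Function.Injective ev := by
  classical
  by_contra hinj
  rw [injective_iff_map_eq_zero] at hinj
  push Not at hinj
  obtain ⟨f, hf, hf0⟩ := hinj
  have hSD : ev.range ≤ D := by
    rintro _ ⟨g, rfl⟩
    exact hev.mem g
  let i : ev.range →+* D := Subring.inclusion hSD
  let : Algebra ev.range D := i.toAlgebra
  have hfin : Module.Finite ev.range D := by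
    refine ⟨⟨Finset.univ.image fun a : Fin l => (⟨v a, hv a⟩ : D), ?_⟩⟩
    rw [eq_top_iff]
    intro z _
    obtain ⟨c, hc, hz⟩ := hgen z z.2
    have h1 : z = ∑ a, (⟨c a, hc a⟩ : ev.range) • (⟨v a, hv a⟩ : D) := by
      apply Subtype.ext
      rw [AddSubmonoidClass.coe_finsetSum]
      exact hz
    rw [h1]
    refine Submodule.sum_mem _ fun a _ => Submodule.smul_mem _ _ (Submodule.subset_span ?_)
    exact Finset.mem_coe.2 (Finset.mem_image_of_mem _ (Finset.mem_univ a))
  have hint : Algebra.IsIntegral ev.range D := Algebra.IsIntegral.of_finite _ _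
  have h1 : ringKrullDim D ≤ ringKrullDim ev.range := cgp3_dim_int _ _
  have h3 := ringKrullDim_succ_le_of_surjective ev.rangeRestrict
    (RingHom.rangeRestrict_surjective _) (r := f) (mem_nonZeroDivisors_of_ne_zero hf0)
    (Subtype.ext hf)
  rw [cgp3_dim] at h3
  rw [hdim] at h1
  have h4 : ((((ρ : ℕ) : ℕ∞) : WithBot ℕ∞)) + 1 ≤ ((ρ : ℕ) : WithBot ℕ∞) :=
    (add_le_add_left h1 1).trans h3
  have h5 : ((ρ + 1 : ℕ) : WithBot ℕ∞) ≤ ((ρ : ℕ) : WithBot ℕ∞) := by
    exact_mod_cast h4
  have h6 : ρ + 1 ≤ ρ := by exact_mod_cast h5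
  omega

end Pool.Agent.Lib.MXP
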