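import Pool.Agent.Lib.MXP.CgPD
import Mathlib.RingTheory.MvPowerSeries.Expand
import Mathlib.RingTheory.MvPowerSeries.NoZeroDivisors

/-!
# Module CgP4: power series whose coefficients are in a subfield and whose exponents are divisible by `p`
`K` is a field of characteristic `p`, `K0 ≤ K` a subfield, `Sp p K0 ρ` as in `CgPD`.
* `sp_pow`: `f ^ p = map frobenius (expand p f)` (`MvPowerSeries.map_frobenius_expand`), `coeff_expand_smul`, `coeff_expand_of_not_dvd`.
* `sp_of_mul`: let `φ : K →ₗ[K0] K0` with `φ a = a` on `K0` (`LinearMap.exists_leftInverse_of_injective`), `π f := fun d => if (∀ i, p ∣ d i) then φ (coeff d f) else 0`.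
  `π (v * f) = v * π f` for `v ∈ Sp`, `π f = f` for `f ∈ Sp`, `π f ∈ Sp`.  If `v * f ∈ Sp`: `v * f = π (v * f) = v * π f`, so `f = π f`.
* `sp_inter`: coefficients: `f = ∑ f_{p d} x ^ (p d)`, `f_{p d} = (g d) ^ p`; `f = g ^ p` by the formula for `g ^ p`.
* `sp_main`: `a * v = b * u`, so `v * (a * b ^ (p - 1)) = b ^ p * u ∈ Sp (K0 s)`, so `a * b ^ (p - 1) ∈ Sp (K0 s)` for all `s`, so it is `g ^ p`, and
  `a * b ^ p = b * g ^ p`.
* `sp_dec`: `g α β := fun d => if (∀ i, p ∣ d i) then c (coeff (d + β) f) α else 0`; compare the coefficients at `d` : only `β = d mod p` contributes.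
-/

namespace Pool.Agent.Lib.MXP

variable {K : Type} [Field K] (p : ℕ) [Fact p.Prime] [CharP K p] {ρ : ℕ}

private theorem cgp4_dvd (p : ℕ) {ρ : ℕ} (d : Fin ρ →₀ ℕ) (h : ∀ i, p ∣ d i) :
    ∃ m : Fin ρ →₀ ℕ, d = p • m := by
  refine ⟨d.mapRange (fun k => k / p) (Nat.zero_div p), ?_⟩
  ext i
  rw [Finsupp.smul_apply, Finsupp.mapRange_apply, smul_eq_mul]
  exact (Nat.mul_div_cancel' (h i)).symm

private theorem cgp4_pow (f : MvPowerSeries (Fin ρ) K) (m : Fin ρ →₀ ℕ) :
    MvPowerSeries.coeff (p • m) (f ^ p) = MvPowerSeries.coeff m f ^ p := by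
  have hp : p ≠ 0 := (Fact.out : p.Prime).ne_zero
  haveI : ExpChar K p := ExpChar.prime Fact.out
  rw [← MvPowerSeries.map_frobenius_expand p hp, MvPowerSeries.coeff_map,
    MvPowerSeries.coeff_expand_smul, frobenius_def]

private theorem cgp4_pow' (f : MvPowerSeries (Fin ρ) K) (d : Fin ρ →₀ ℕ)
    (h : ∃ i, ¬ p ∣ d i) : MvPowerSeries.coeff d (f ^ p) = 0 := by
  have hp : p ≠ 0 := (Fact.out : p.Prime).ne_zero
  haveI : ExpChar K p := ExpChar.prime Fact.out
  obtain ⟨i, hi⟩ := h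
  rw [← MvPowerSeries.map_frobenius_expand p hp, MvPowerSeries.coeff_map,
    MvPowerSeries.coeff_expand_of_not_dvd p hp f hi, map_zero]


theorem sp_pow (K0 : Subfield K) (hK0 : ∀ y : K, y ^ p ∈ K0) (f : MvPowerSeries (Fin ρ) K) :
    f ^ p ∈ Sp p K0 ρ := by
  intro d
  by_cases h : ∀ i, p ∣ d i
  · obtain ⟨m, rfl⟩ := cgp4_dvd p d h
    refine ⟨?_, fun h' => ?_⟩
    · rw [cgp4_pow]
      exact hK0 _
    · obtain ⟨i, hi⟩ := h'
      exact absurd (h i) hi
  · push Not at h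
    refine ⟨?_, fun h' => cgp4_pow' p f d h'⟩
    rw [cgp4_pow' p f d h]
    exact K0.zero_mem

theorem sp_of_mul (K0 : Subfield K) {v f : MvPowerSeries (Fin ρ) K} (hv : v ∈ Sp p K0 ρ)
    (hv0 : v ≠ 0) (h : v * f ∈ Sp p K0 ρ) : f ∈ Sp p K0 ρ := by
  classical
  obtain ⟨φ, hφ⟩ := LinearMap.exists_leftInverse_of_injective (Algebra.linearMap K0 K)
    (LinearMap.ker_eq_bot.2 (algebraMap K0 K).injective)
  have hφ' : ∀ a : K0, φ (a : K) = a := fun a => LinearMap.congr_fun hφ a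
  have hφm : ∀ (a : K) (_ : a ∈ K0) (b : K), ((φ (a * b) : K0) : K) = a * (φ b : K0) := by
    intro a ha b
    have h1 : φ ((⟨a, ha⟩ : K0) • b) = (⟨a, ha⟩ : K0) • φ b := map_smul φ _ _
    exact congrArg Subtype.val h1
  let π : MvPowerSeries (Fin ρ) K → MvPowerSeries (Fin ρ) K := fun g d =>
    if (∀ i, p ∣ d i) then ((φ (MvPowerSeries.coeff d g) : K0) : K) else 0
  have hπ : ∀ g d, MvPowerSeries.coeff d (π g) =
      if (∀ i, p ∣ d i) then ((φ (MvPowerSeries.coeff d g) : K0) : K) else 0 := fun g d => rfl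
  have hπS : ∀ g, π g ∈ Sp p K0 ρ := by
    intro g d
    rw [hπ]
    refine ⟨?_, fun h' => ?_⟩
    · split_ifs
      · exact Subtype.property _
      · exact K0.zero_mem
    · obtain ⟨i, hi⟩ := h'
      exact if_neg fun h'' => hi (h'' i)
  have hπe : ∀ g ∈ Sp p K0 ρ, π g = g := by
    intro g hg
    ext d
    rw [hπ]
    split_ifs with h1
    · exact congrArg Subtype.val (hφ' ⟨_, (hg d).1⟩)
    · push Not at h1
      exact ((hg d).2 h1).symm
  have hπv : π (v * f) = v * π f := by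
    ext d
    rw [hπ, MvPowerSeries.coeff_mul, MvPowerSeries.coeff_mul]
    split_ifs with h1
    · rw [map_sum, AddSubmonoidClass.coe_finset_sum]
      refine Finset.sum_congr rfl fun q hq => ?_
      rw [Finset.HasAntidiagonal.mem_antidiagonal] at hq
      rw [hφm _ (hv q.1).1, hπ]
      split_ifs with h2
      · rfl
      · push Not at h2
        obtain ⟨i, hi⟩ := h2
        have h3 : MvPowerSeries.coeff q.1 v = 0 := by
          refine (hv q.1).2 ⟨i, fun h4 => hi ?_⟩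
          have h5 := h1 i
          rw [← hq, Finsupp.add_apply] at h5
          exact (Nat.dvd_add_right h4).1 h5
        rw [h3, zero_mul, zero_mul]
    · symm
      refine Finset.sum_eq_zero fun q hq => ?_
      rw [Finset.HasAntidiagonal.mem_antidiagonal] at hq
      push Not at h1
      obtain ⟨i, hi⟩ := h1
      rw [hπ]
      split_ifs with h2
      · have h3 : MvPowerSeries.coeff q.1 v = 0 := by
          refine (hv q.1).2 ⟨i, fun h4 => hi ?_⟩
          rw [← hq, Finsupp.add_apply]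
          exact dvd_add h4 (h2 i)
        rw [h3, zero_mul]
      · rw [mul_zero]
  have h1 : v * f = v * π f := by rw [← hπv, hπe _ h]
  have h2 : f = π f := mul_left_cancel₀ hv0 h1
  rw [h2]
  exact hπS f

theorem sp_inter {σ : Type} [Nonempty σ] (K0 : σ → Subfield K)
    (hK : ∀ z : K, (∀ s, z ∈ K0 s) → ∃ y, z = y ^ p) {f : MvPowerSeries (Fin ρ) K}
    (hf : ∀ s, f ∈ Sp p (K0 s) ρ) : ∃ g, f = g ^ p := by
  have h1 : ∀ d : Fin ρ →₀ ℕ, ∃ y : K, MvPowerSeries.coeff (p • d) f = y ^ p := fun d =>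
    hK _ fun s => (hf s (p • d)).1
  choose g hg using h1
  refine ⟨g, ?_⟩
  ext d
  by_cases h : ∀ i, p ∣ d i
  · obtain ⟨m, rfl⟩ := cgp4_dvd p d h
    rw [cgp4_pow, hg]
    rfl
  · push Not at h
    rw [cgp4_pow' p _ d h]
    obtain ⟨s⟩ := (inferInstance : Nonempty σ)
    exact (hf s d).2 h

theorem sp_main {σ : Type} [Nonempty σ] (K0 : σ → Subfield K) (hK0 : ∀ s, ∀ y : K, y ^ p ∈ K0 s)
    (hK : ∀ z : K, (∀ s, z ∈ K0 s) → ∃ y, z = y ^ p) {a b : MvPowerSeries (Fin ρ) K} (hb : b ≠ 0)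
    (h : ∀ s, ∃ u ∈ Sp p (K0 s) ρ, ∃ v ∈ Sp p (K0 s) ρ, v ≠ 0 ∧ a * v = b * u) :
    ∃ g : MvPowerSeries (Fin ρ) K, a * b ^ p = b * g ^ p := by
  have hp : b ^ p = b * b ^ (p - 1) := by
    rw [← pow_succ', Nat.sub_add_cancel (Fact.out : p.Prime).one_le]
  have h1 : ∀ s, a * b ^ (p - 1) ∈ Sp p (K0 s) ρ := by
    intro s
    obtain ⟨u, hu, v, hv, hv0, hab⟩ := h s
    refine sp_of_mul p (K0 s) hv hv0 ?_
    have h2 : v * (a * b ^ (p - 1)) = b ^ p * u := by
      rw [hp]
      calc v * (a * b ^ (p - 1)) = (a * v) * b ^ (p - 1) := by ring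
        _ = (b * u) * b ^ (p - 1) := by rw [hab]
        _ = b * b ^ (p - 1) * u := by ring
    rw [h2]
    exact (Sp p (K0 s) ρ).mul_mem (sp_pow p (K0 s) (hK0 s) b) hu
  obtain ⟨g, hg⟩ := sp_inter p K0 hK h1
  refine ⟨g, ?_⟩
  rw [← hg, hp]
  ring

theorem sp_dec (K0 : Subfield K) {κ : Type} [Fintype κ] (m : κ → K)
    (hm : ∀ z : K, ∃ c : κ → K, (∀ α, c α ∈ K0) ∧ z = ∑ α, c α * m α)
    (f : MvPowerSeries (Fin ρ) K) :
    ∃ g : κ → (Fin ρ → Fin p) → MvPowerSeries (Fin ρ) K, (∀ α β, g α β ∈ Sp p K0 ρ) ∧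
      f = ∑ α, ∑ β, g α β *
        (MvPowerSeries.C (m α) * ∏ j, MvPowerSeries.X j ^ ((β j : Fin p) : ℕ)) := by
  classical
  have hpos : 0 < p := (Fact.out : p.Prime).pos
  choose c hc hc' using hm
  let e : (Fin ρ → Fin p) → (Fin ρ →₀ ℕ) := fun β =>
    Finsupp.equivFunOnFinite.symm fun j => ((β j : Fin p) : ℕ)
  have he : ∀ β j, e β j = ((β j : Fin p) : ℕ) := fun β j => rfl
  have hmon : ∀ α β, (MvPowerSeries.C (m α) *
      ∏ j, (MvPowerSeries.X j : MvPowerSeries (Fin ρ) K) ^ ((β j : Fin p) : ℕ)) =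
      MvPowerSeries.monomial (e β) (m α) := by
    intro α β
    have h1 : ∏ j, (MvPowerSeries.X j : MvPowerSeries (Fin ρ) K) ^ ((β j : Fin p) : ℕ) =
        MvPowerSeries.monomial (e β) 1 := by
      rw [MvPowerSeries.monomial_one_eq, Finsupp.prod_fintype]
      · rfl
      · intro i
        exact pow_zero _
    rw [h1, ← MvPowerSeries.monomial_zero_eq_C_apply, MvPowerSeries.monomial_mul_monomial,
      zero_add, mul_one]
  let g : κ → (Fin ρ → Fin p) → MvPowerSeries (Fin ρ) K := fun α β d =>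
    if (∀ i, p ∣ d i) then c (MvPowerSeries.coeff (d + e β) f) α else 0
  have hg : ∀ α β d, MvPowerSeries.coeff d (g α β) =
      if (∀ i, p ∣ d i) then c (MvPowerSeries.coeff (d + e β) f) α else 0 := fun α β d => rfl
  refine ⟨g, fun α β d => ?_, ?_⟩
  · rw [hg]
    refine ⟨?_, fun h' => ?_⟩
    · split_ifs
      · exact hc _ _
      · exact K0.zero_mem
    · obtain ⟨i, hi⟩ := h'
      exact if_neg fun h'' => hi (h'' i)
  · ext d
    rw [map_sum]
    let β0 : Fin ρ → Fin p := fun j => ⟨d j % p, Nat.mod_lt _ hpos⟩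
    have hβ0 : e β0 ≤ d := fun j => Nat.mod_le _ _
    have hβd : ∀ i, p ∣ (d - e β0) i := fun i => by
      rw [Finsupp.tsub_apply]
      exact Nat.dvd_sub_mod (d i)
    have hsum : ∀ α, MvPowerSeries.coeff d (∑ β, g α β *
        (MvPowerSeries.C (m α) * ∏ j, MvPowerSeries.X j ^ ((β j : Fin p) : ℕ))) =
        c (MvPowerSeries.coeff d f) α * m α := by
      intro α
      rw [map_sum, Finset.sum_eq_single β0]
      · rw [hmon, MvPowerSeries.coeff_mul_monomial, if_pos hβ0, hg, if_pos hβd,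
          tsub_add_cancel_of_le hβ0]
      · intro β _ hβ
        rw [hmon, MvPowerSeries.coeff_mul_monomial]
        split_ifs with h1
        · rw [hg, if_neg, zero_mul]
          intro h2
          apply hβ
          funext j
          apply Fin.ext
          have h3 := h2 j
          rw [Finsupp.tsub_apply, he] at h3
          have h4 : ((β j : Fin p) : ℕ) ≤ d j := h1 j
          have h5 := (β j).2
          have h6 : d j % p = ((β j : Fin p) : ℕ) % p := ((Nat.modEq_iff_dvd' h4).2 h3).symm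
          rw [Nat.mod_eq_of_lt h5] at h6
          exact h6.symm
        · rfl
      · intro h
        exact absurd (Finset.mem_univ _) h
    rw [Finset.sum_congr rfl fun α _ => hsum α]
    exact hc' _

end Pool.Agent.Lib.MXP
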