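import Mathlib.FieldTheory.Relrank
import Mathlib.Algebra.CharP.Frobenius
import Mathlib.LinearAlgebra.Dimension.Finrank
import Mathlib.RingTheory.MvPowerSeries.Basic

/-!
# Module CgP5: linear disjointness
`L ≤ F` fields, `[F : L] < ∞`, `La s` (`s : Finset ι`) a decreasing family of fields between `L ^ p` and `L` with intersection `L ^ p`.
* `dis_ind`: `e` independent over `L`, so `e ^ p` is independent over `L ^ p` (Frobenius).  By induction on the finset `t` of indices: there is `s` such that
  `(e i ^ p)_{i ∈ t}` is independent over `La s` (`LinearIndepOn`).  Step for `insert j t` (`linearIndepOn_insert`): given `s` for `t`,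
  suppose that `(e i ^ p)_{i ∈ insert j t}` is dependent over `La s'` for all `s' ⊇ s`.  As `La s' ≤ La s` the family
  `(e i ^ p)_{i ∈ t}` is independent over `La s'`, so `e j ^ p = ∑_{i ∈ t} a i (s') * e i ^ p`, `a i (s') ∈ La s' ≤ La s`, by uniqueness over `La s` these coefficients do
  not depend on `s'`; for every `s''` take `s' = s ∪ s''`: `a i ∈ La s''`.  So `a i ∈ L ^ p`, contradiction to the independence over `L ^ p`.
* `dis_main`: `e` a basis of `F` over `L` (`n = L.relfinrank F` elements), `s` as in `dis_ind`, `F' := closure (F ^ p ∪ La s)`, `La s ≤ F' ≤ F`.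
  `[F : La s] = [F : L] [L : La s] = n [L : La s]` is finite and `[F : La s] = [F : F'] [F' : La s]`, `[F' : La s] ≥ n` since `F'` contains the `n` independent
  elements `e i ^ p`; so `[F : F'] * n ≤ n * M s`.  (`Subfield.relfinrank_mul_relfinrank`, `Subfield.relfinrank_eq_finrank_of_le`, `Subfield.extendScalars`.)
-/

namespace Pool.Agent.Lib.MXP

variable {W : Type} [Field W] (p : ℕ) [Fact p.Prime] [CharP W p] {ι : Type}

/-- explicit independence over a subfield -/
private def CgP5_Ind {n : ℕ} (f : Fin n → W) (A : Subfield W) (t : Finset (Fin n)) : Prop :=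
  ∀ a : Fin n → W, (∀ i ∈ t, a i ∈ A) → ∑ i ∈ t, a i * f i = 0 → ∀ i ∈ t, a i = 0

private theorem CgP5_frob (L : Subfield W) {n : ℕ} (e : Fin n → W) (he : LinearIndependent L e)
    (a : Fin n → W) (ha : ∀ i, a i ∈ L.map (frobenius W p)) (h : ∑ i, a i * e i ^ p = 0) :
    ∀ i, a i = 0 := by
  choose b hb hb' using ha
  have h1 : (∑ i, b i * e i) ^ p = 0 := by
    have h2 := map_sum (frobenius W p) (fun i => b i * e i) Finset.univ
    rw [frobenius_def] at h2
    rw [h2, ← h]
    refine Finset.sum_congr rfl fun i _ => ?_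
    rw [map_mul, hb', frobenius_def]
  have h2 : ∑ i, b i * e i = 0 := (pow_eq_zero_iff (Fact.out : p.Prime).ne_zero).1 h1
  have h3 := Fintype.linearIndependent_iff.1 he (fun i => ⟨b i, hb i⟩) (by
    rw [← h2]
    rfl)
  intro i
  have h4 : b i = 0 := congrArg Subtype.val (h3 i)
  rw [← hb' i, h4, map_zero]

private theorem CgP5_step (La : Finset ι → Subfield W) (hanti : ∀ s s', s ⊆ s' → La s' ≤ La s)
    (L : Subfield W) (hinter : ∀ z, (∀ s, z ∈ La s) → z ∈ L.map (frobenius W p)) {n : ℕ}
    (e : Fin n → W) (he : LinearIndependent L e) (t : Finset (Fin n)) :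
    ∃ s, CgP5_Ind (fun i => e i ^ p) (La s) t := by
  classical
  induction t using Finset.induction_on with
  | empty => exact ⟨∅, fun a _ _ i hi => absurd hi (Finset.notMem_empty i)⟩
  | insert j t hj ih =>
    obtain ⟨s, hs⟩ := ih
    by_contra hcon
    push Not at hcon
    have key : ∀ s', ∃ b : Fin n → W, (∀ i ∈ t, b i ∈ La s') ∧ (∀ i ∈ t, b i ∈ La s) ∧
        e j ^ p = ∑ i ∈ t, b i * e i ^ p := by
      intro s'
      have h1 := hcon (s ∪ s')
      unfold CgP5_Ind at h1
      push Not at h1
      obtain ⟨a, ha, hsum, i0, hi0, hne⟩ := h1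
      rw [Finset.sum_insert hj] at hsum
      have hle : La (s ∪ s') ≤ La s := hanti _ _ Finset.subset_union_left
      have hle' : La (s ∪ s') ≤ La s' := hanti _ _ Finset.subset_union_right
      have haj : a j ≠ 0 := by
        intro h0
        rw [h0, zero_mul, zero_add] at hsum
        have h2 := hs a (fun i hi => hle (ha i (Finset.mem_insert_of_mem hi))) hsum
        rcases Finset.mem_insert.1 hi0 with h3 | h3
        · exact hne (h3 ▸ h0)
        · exact hne (h2 i0 h3)
      have hmem : ∀ i ∈ t, -(a j)⁻¹ * a i ∈ La (s ∪ s') := fun i hi =>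
        (La (s ∪ s')).mul_mem ((La (s ∪ s')).neg_mem ((La (s ∪ s')).inv_mem
          (ha j (Finset.mem_insert_self _ _)))) (ha i (Finset.mem_insert_of_mem hi))
      refine ⟨fun i => -(a j)⁻¹ * a i, fun i hi => hle' (hmem i hi), fun i hi => hle (hmem i hi),
        ?_⟩
      have h4 : ∑ i ∈ t, -(a j)⁻¹ * a i * e i ^ p = -(a j)⁻¹ * ∑ i ∈ t, a i * e i ^ p := by
        rw [Finset.mul_sum]
        exact Finset.sum_congr rfl fun i _ => by ring
      rw [h4, eq_neg_of_add_eq_zero_right hsum]
      field_simp
    obtain ⟨b, -, hb, hbe⟩ := key ∅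
    have hall : ∀ i ∈ t, b i ∈ L.map (frobenius W p) := by
      intro i hi
      refine hinter _ fun s' => ?_
      obtain ⟨c, hc, hc', hce⟩ := key s'
      have h1 := hs (fun i => b i - c i) (fun i hi => (La s).sub_mem (hb i hi) (hc' i hi)) (by
        have h2 : ∑ i ∈ t, (b i - c i) * e i ^ p =
            ∑ i ∈ t, b i * e i ^ p - ∑ i ∈ t, c i * e i ^ p := by
          rw [← Finset.sum_sub_distrib]
          exact Finset.sum_congr rfl fun i _ => by ring
        rw [h2, ← hbe, ← hce, sub_self]) i hi
      rw [sub_eq_zero.1 h1]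
      exact hc i hi
    have h5 := CgP5_frob p L e he (fun i => if i = j then -1 else if i ∈ t then b i else 0)
      (fun i => by
        split_ifs with h1 h2
        · exact neg_mem (one_mem _)
        · exact hall i h2
        · exact zero_mem _) (by
        rw [← Finset.sum_subset (Finset.subset_univ (insert j t))
          (fun i _ hi => by
            rw [Finset.mem_insert, not_or] at hi
            rw [if_neg hi.1, if_neg hi.2, zero_mul]), Finset.sum_insert hj, if_pos rfl]
        have h6 : ∑ i ∈ t, (if i = j then (-1 : W) else if i ∈ t then b i else 0) * e i ^ p =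
            ∑ i ∈ t, b i * e i ^ p := by
          refine Finset.sum_congr rfl fun i hi => ?_
          have hij : i ≠ j := fun h => hj (h ▸ hi)
          rw [if_neg hij, if_pos hi]
        rw [h6, ← hbe]
        ring) j
    rw [if_pos rfl] at h5
    exact one_ne_zero (neg_eq_zero.1 h5)

theorem dis_ind (La : Finset ι → Subfield W) (hanti : ∀ s s', s ⊆ s' → La s' ≤ La s)
    (L : Subfield W) (hinter : ∀ z, (∀ s, z ∈ La s) → z ∈ L.map (frobenius W p)) {n : ℕ}
    (e : Fin n → W) (he : LinearIndependent L e) :
    ∃ s, LinearIndependent (La s) (fun i => e i ^ p) := by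
  obtain ⟨s, hs⟩ := CgP5_step p La hanti L hinter e he Finset.univ
  refine ⟨s, Fintype.linearIndependent_iff.2 fun g hg i => ?_⟩
  have h1 := hs (fun i => (g i : W)) (fun i _ => (g i).2) (by
    rw [← hg]
    rfl) i (Finset.mem_univ i)
  exact Subtype.ext h1

theorem dis_main (La : Finset ι → Subfield W) (hanti : ∀ s s', s ⊆ s' → La s' ≤ La s)
    (L F : Subfield W) (hLF : L ≤ F) (hfin : 0 < L.relfinrank F) (hLaL : ∀ s, La s ≤ L)
    (M : Finset ι → ℕ) (hM : ∀ s, 0 < (La s).relfinrank L ∧ (La s).relfinrank L ≤ M s)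
    (hinter : ∀ z, (∀ s, z ∈ La s) → z ∈ L.map (frobenius W p)) :
    ∃ s, 0 < (Subfield.closure ((F.map (frobenius W p) : Set W) ∪ (La s : Set W))).relfinrank F ∧
      (Subfield.closure ((F.map (frobenius W p) : Set W) ∪ (La s : Set W))).relfinrank F ≤
        M s := by
  classical
  have hL := Subfield.relfinrank_eq_finrank_of_le hLF
  have hfd : FiniteDimensional L (Subfield.extendScalars hLF) :=
    Module.finite_of_finrank_pos (by rw [← hL]; exact hfin)
  let b := Module.finBasis L (Subfield.extendScalars hLF)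
  have hbW : LinearIndependent L (fun i => ((b i : Subfield.extendScalars hLF) : W)) :=
    b.linearIndependent.map' (Subfield.extendScalars hLF).val.toLinearMap
      (LinearMap.ker_eq_bot.2 Subtype.val_injective)
  obtain ⟨s, hs⟩ := dis_ind p La hanti L hinter _ hbW
  set F' := Subfield.closure ((F.map (frobenius W p) : Set W) ∪ (La s : Set W)) with hF'
  have h1 : La s ≤ F' := fun x hx => Subfield.subset_closure (Or.inr hx)
  have h2 : F' ≤ F := by
    rw [hF', Subfield.closure_le]
    rintro x (hx | hx)
    · obtain ⟨y, hy, rfl⟩ := hx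
      rw [frobenius_def]
      exact F.pow_mem hy p
    · exact hLF (hLaL s hx)
  have h3 := Subfield.relfinrank_mul_relfinrank (hLaL s) hLF
  have h4 := Subfield.relfinrank_mul_relfinrank h1 h2
  have h5 : 0 < (La s).relfinrank F := by
    rw [← h3]
    exact Nat.mul_pos (hM s).1 hfin
  have h6 : 0 < (La s).relfinrank F' := Nat.pos_of_ne_zero fun h0 => by
    rw [← h4, h0, zero_mul] at h5
    exact lt_irrefl 0 h5
  have h7 : 0 < F'.relfinrank F := Nat.pos_of_ne_zero fun h0 => by
    rw [← h4, h0, mul_zero] at h5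
    exact lt_irrefl 0 h5
  have h8 : L.relfinrank F ≤ (La s).relfinrank F' := by
    have h9 := Subfield.relfinrank_eq_finrank_of_le h1
    have h10 : FiniteDimensional (La s) (Subfield.extendScalars h1) :=
      Module.finite_of_finrank_pos (by rw [← h9]; exact h6)
    have hmem : ∀ i, ((b i : Subfield.extendScalars hLF) : W) ^ p ∈
        Subfield.extendScalars h1 := fun i =>
      Subfield.subset_closure (Or.inl ⟨_, (b i).2, rfl⟩)
    have h11 : LinearIndependent (La s) (fun i => (⟨((b i : Subfield.extendScalars hLF) : W) ^ p,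
        hmem i⟩ : Subfield.extendScalars h1)) :=
      LinearIndependent.of_comp (Subfield.extendScalars h1).val.toLinearMap hs
    have h12 := h11.fintype_card_le_finrank
    rw [Fintype.card_fin, ← hL, ← h9] at h12
    exact h12
  refine ⟨s, h7, ?_⟩
  have h13 : F'.relfinrank F * L.relfinrank F ≤ M s * L.relfinrank F := by
    calc F'.relfinrank F * L.relfinrank F ≤ F'.relfinrank F * (La s).relfinrank F' :=
          Nat.mul_le_mul_left _ h8
      _ = (La s).relfinrank L * L.relfinrank F := by rw [mul_comm, h4, ← h3]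
      _ ≤ M s * L.relfinrank F := Nat.mul_le_mul_right _ (hM s).2
  exact Nat.le_of_mul_le_mul_right h13 hfin

end Pool.Agent.Lib.MXP
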