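import Pool.Agent.Lib.MXP.Res
import Pool.Agent.Lib.TQ.CpC
import Mathlib.FieldTheory.Relrank
import Mathlib.RingTheory.MvPowerSeries.Basic
import Mathlib.Algebra.CharP.Frobenius

/-!
# Module CgPD: the theorem of Cohen and Gabber for arbitrary residue fields: definitions
-/

namespace Pool.Agent.Lib.MXP

open Pool.Agent.Lib.MP_3029eb_ag Pool.Agent.Lib.MP_3029eb_ag.Abh Pool.Agent.Lib.TDO
open Pool.Agent.Lib.TQ (mI mP Cp Nl)

/-- The field generated by the `p`-th powers of the elements of `K` and the `b i`, `i ∈ T`. -/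
def Kp (p : ℕ) [Fact p.Prime] {Ω : Type} [Field Ω] [CharP Ω p] (K : Subfield Ω) {ι : Type}
    (b : ι → Ω) (T : Set ι) : Subfield Ω :=
  Subfield.closure ((K.map (frobenius Ω p) : Set Ω) ∪ b '' T)

/-- The family `b` is a `p`-basis of the field `K`. -/
structure PBf (p : ℕ) [Fact p.Prime] {Ω : Type} [Field Ω] [CharP Ω p] (K : Subfield Ω) {ι : Type}
    (b : ι → Ω) : Prop where
  mem : ∀ i, b i ∈ K
  gen : K ≤ Kp p K b Set.univ
  ind : ∀ i, b i ∉ Kp p K b {i}ᶜ

section Ball

variable {W : Type} [NormedField W] [IsUltrametricDist W]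

instance rw_charP (p : ℕ) [hp : Fact p.Prime] [CharP W p] : CharP (RW W) p := by
  have h1 : ((p : ℕ) : RW W) = 0 := by
    have h2 : ((p : ℕ) : W) = 0 := CharP.cast_eq_zero W p
    have h3 : ((p : ℕ) : ball W) = 0 := Subtype.ext (by
      change ((p : ℕ) : W) = 0
      exact h2)
    have h4 := congrArg (IsLocalRing.residue (ball W)) h3
    rwa [map_natCast, map_zero] at h4
  obtain ⟨q, hq⟩ := CharP.exists (RW W)
  have h2 : q ∣ p := (CharP.cast_eq_zero_iff (RW W) q p).1 h1
  rcases (Nat.dvd_prime hp.out).1 h2 with h3 | h3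
  · exact absurd h3 (CharP.char_ne_one (RW W) q)
  · rwa [h3] at hq

/-- `b` is a family of elements of `D` whose residues are a `p`-basis of the residue field of
`D`. -/
structure PB (p : ℕ) [Fact p.Prime] [CharP W p] (D : Subring W) {ι : Type} (b : ι → W) :
    Prop where
  mem : ∀ i, b i ∈ D
  pbf : PBf p (kap D) (fun i => rs (b i))

/-- The localization of `K[t]` at the centre of the norm. -/
def PK (K : Subfield W) {n : ℕ} (t : Fin n → W) : Subring W :=
  locV (ball W) (Subring.closure ((K : Set W) ∪ Set.range t))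

/-- `ev` is the evaluation at `x` of the power series over `K`, with values in `D`. -/
structure Ev (K : Subfield W) (D : Subring W) {ρ : ℕ} (x : Fin ρ → W)
    (ev : MvPowerSeries (Fin ρ) K →+* W) : Prop where
  mem : ∀ f, ev f ∈ D
  C : ∀ e : K, ev (MvPowerSeries.C e) = e
  X : ∀ i, ev (MvPowerSeries.X i) = x i
  ord : ∀ (f : MvPowerSeries (Fin ρ) K) (n : ℕ),
    (∀ d : Fin ρ →₀ ℕ, d.degree < n → MvPowerSeries.coeff d f = 0) → ev f ∈ mP D n

end Ball

/-- The power series whose coefficients are in `K0` and whose exponents are divisible by `p`. -/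
def Sp (p : ℕ) {K : Type} [Field K] (K0 : Subfield K) (ρ : ℕ) :
    Subring (MvPowerSeries (Fin ρ) K) where
  carrier := {f | ∀ d : Fin ρ →₀ ℕ, MvPowerSeries.coeff d f ∈ K0 ∧
    ((∃ i, ¬ p ∣ d i) → MvPowerSeries.coeff d f = 0)}
  mul_mem' := by
    classical
    intro f g hf hg d
    rw [MvPowerSeries.coeff_mul]
    refine ⟨sum_mem fun q _ => mul_mem (hf q.1).1 (hg q.2).1, ?_⟩
    rintro ⟨i, hi⟩
    refine Finset.sum_eq_zero fun q hq => ?_
    rw [Finset.HasAntidiagonal.mem_antidiagonal] at hq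
    by_cases h1 : p ∣ q.1 i
    · by_cases h2 : p ∣ q.2 i
      · exfalso
        apply hi
        rw [← hq, Finsupp.add_apply]
        exact dvd_add h1 h2
      · rw [(hg q.2).2 ⟨i, h2⟩, mul_zero]
    · rw [(hf q.1).2 ⟨i, h1⟩, zero_mul]
  one_mem' := by
    classical
    intro d
    rw [MvPowerSeries.coeff_one]
    split_ifs with h
    · refine ⟨one_mem _, ?_⟩
      rintro ⟨i, hi⟩
      exfalso
      apply hi
      rw [h]
      exact dvd_zero p
    · exact ⟨zero_mem _, fun _ => rfl⟩
  add_mem' := by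
    intro f g hf hg d
    rw [map_add]
    refine ⟨add_mem (hf d).1 (hg d).1, fun h => ?_⟩
    rw [(hf d).2 h, (hg d).2 h, add_zero]
  zero_mem' := by
    intro d
    rw [map_zero]
    exact ⟨zero_mem _, fun _ => rfl⟩
  neg_mem' := by
    intro f hf d
    rw [map_neg]
    refine ⟨neg_mem (hf d).1, fun h => ?_⟩
    rw [(hf d).2 h, neg_zero]

end Pool.Agent.Lib.MXP
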