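import Mathlib.FieldTheory.Relrank
import Mathlib.FieldTheory.KummerPolynomial
import Mathlib.RingTheory.Algebraic.Integral
import Pool.Agent.Lib.MXP.CgPD

/-!
# Module CgP6: the greedy choice, closedness
* `cg_greedyX`: the proof of `cg_greedy` in `Pool/Agent/Lib/TQ/CgD.lean` with `E.map (frobenius W p)` replaced by `E0` (`E ^ p ≤ E0 ≤ E`): copy and adapt
  (copy the private `cg_root`).
* `clo_fin`: `Q := Cp P` is a noetherian local ring (`hP.cp`), `D` a finite `Q`-module, `M` the `Q`-submodule of `D` generated by the `u i`.  `mP D N` is in the ideal of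
  `D` generated by `mI Q`, so `mP D (N * n)` is in `(mI Q) ^ n D`.  By Krull's intersection theorem for the finite module `D ⧸ M`
  (`Ideal.iInf_pow_smul_eq_bot_of_isLocalRing`) `⋂ (M + (mI Q) ^ n D) = M`.
-/

namespace Pool.Agent.Lib.MXP

open Pool.Agent.Lib.MP_3029eb_ag Pool.Agent.Lib.MP_3029eb_ag.Abh Pool.Agent.Lib.TDO
open Pool.Agent.Lib.TQ (mI mP Cp Nl)

/-- adjoining a `p`-th root gives degree `p` -/
private theorem cg_root {W : Type} [Field W] (p : ℕ) [hp : Fact p.Prime] [CharP W p]
    (F : Subfield W) {b : W} (hb : b ^ p ∈ F) (hbF : b ∉ F) :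
    F.relfinrank (Subfield.closure ((F : Set W) ∪ {b})) = p := by
  have hle : F ≤ Subfield.closure ((F : Set W) ∪ {b}) := fun x hx =>
    Subfield.subset_closure (Or.inl hx)
  rw [Subfield.relfinrank_eq_finrank_of_le hle]
  have h1 : Subfield.extendScalars hle = IntermediateField.adjoin F {b} := by
    rw [← IntermediateField.toSubfield_inj, Subfield.extendScalars_toSubfield]
    have : Set.range (algebraMap F W) = (F : Set W) := by
      ext x
      constructor
      · rintro ⟨y, rfl⟩; exact y.2
      · intro hx; exact ⟨⟨x, hx⟩, rfl⟩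
    rw [← this]
    rfl
  rw [h1]
  have hirr : Irreducible (Polynomial.X ^ p - Polynomial.C (⟨b ^ p, hb⟩ : F)) := by
    refine X_pow_sub_C_irreducible_of_prime hp.out ?_
    intro c hc
    apply hbF
    have h2 : (c : W) ^ p = b ^ p := congrArg Subtype.val hc
    have h3 : (c : W) = b := frobenius_inj W p h2
    rw [← h3]
    exact c.2
  have hmin := minpoly.eq_of_irreducible_of_monic (x := b) hirr (by
    simp only [map_sub, map_pow, Polynomial.aeval_X, Polynomial.aeval_C]
    exact sub_self _) (Polynomial.monic_X_pow_sub_C _ hp.out.ne_zero)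
  have hint : IsIntegral F b := by
    refine ⟨Polynomial.X ^ p - Polynomial.C (⟨b ^ p, hb⟩ : F),
      Polynomial.monic_X_pow_sub_C _ hp.out.ne_zero, ?_⟩
    simp only [Polynomial.eval₂_sub, Polynomial.eval₂_pow, Polynomial.eval₂_X, Polynomial.eval₂_C]
    exact sub_self _
  rw [IntermediateField.adjoin.finrank hint, ← hmin, Polynomial.natDegree_X_pow_sub_C]

open Classical in
theorem cg_greedyX {W : Type} [Field W] (p : ℕ) [Fact p.Prime] [CharP W p] {ι : Type} [Fintype ι]
    (E0 E : Subfield W) (hpE : E.map (frobenius W p) ≤ E0) (hE0 : E0 ≤ E)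
    (h0 : 0 < E0.relfinrank E) (hle : E0.relfinrank E ≤ p ^ Fintype.card ι) (M : Set W)
    (hM0 : (0 : W) ∈ M) (hME : ∀ z ∈ M, z ∈ E)
    (hM : ∀ F : Subfield W, E0 ≤ F → F ≤ E → F ≠ E → ∃ f ∈ M, f ∉ F)
    (a c : ι → W) (ha : ∀ i, a i ∈ E) (hc : ∀ i, c i ∈ E0 ∧ c i ≠ 0) :
    ∃ f : ι → W, (∀ i, f i ∈ M) ∧
      E = Subfield.closure ((E0 : Set W) ∪ Set.range fun i => a i + c i * f i) := by
  have key : ∀ s : Finset ι, ∃ f : ι → W, (∀ i, f i ∈ M) ∧
      (Subfield.closure ((E0 : Set W) ∪
        (fun i => a i + c i * f i) '' (s : Set ι)) = E ∨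
      E0.relfinrank (Subfield.closure ((E0 : Set W) ∪
        (fun i => a i + c i * f i) '' (s : Set ι))) = p ^ s.card) := by
    intro s
    induction s using Finset.induction_on with
    | empty =>
      refine ⟨fun _ => 0, fun _ => hM0, Or.inr ?_⟩
      have h1 : Subfield.closure ((E0 : Set W) ∪
        (fun i => a i + c i * (fun _ => (0 : W)) i) '' ((∅ : Finset ι) : Set ι))
          = E0 := by
        rw [Finset.coe_empty, Set.image_empty, Set.union_empty, Subfield.closure_eq]
      rw [h1, Subfield.relfinrank_self, Finset.card_empty, pow_zero]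
    | insert i s hi ih =>
      obtain ⟨f, hfM, hf⟩ := ih
      have hle1 : Subfield.closure ((E0 : Set W) ∪
        (fun i => a i + c i * f i) '' (s : Set ι)) ≤ E := by
        rw [Subfield.closure_le]
        rintro x (hx | ⟨j, _, rfl⟩)
        · exact hE0 hx
        · exact add_mem (ha j) (mul_mem (hE0 (hc j).1) (hME _ (hfM j)))
      have hle0 : E0 ≤ Subfield.closure ((E0 : Set W) ∪
        (fun i => a i + c i * f i) '' (s : Set ι)) := fun x hx =>
          Subfield.subset_closure (Or.inl hx)
      -- modification of `f` at `i`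
      have himg : ∀ g : W, (fun j => a j + c j * (Function.update f i g) j) ''
          ((insert i s : Finset ι) : Set ι) =
          (fun i => a i + c i * f i) '' (s : Set ι) ∪ {a i + c i * g} := by
        intro g
        rw [Finset.coe_insert, Set.image_insert_eq, Set.insert_eq, Set.union_comm]
        congr 1
        · refine Set.image_congr fun j hj => ?_
          have : j ≠ i := by rintro rfl; exact hi hj
          simp [Function.update_of_ne this]
        · simp
      have hcl : ∀ g : W, Subfield.closure ((E0 : Set W) ∪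
          (fun j => a j + c j * (Function.update f i g) j) '' ((insert i s : Finset ι) : Set ι))
          = Subfield.closure (((Subfield.closure ((E0 : Set W) ∪
            (fun i => a i + c i * f i) '' (s : Set ι)) : Subfield W) : Set W) ∪ {a i + c i * g}) := by
        intro g
        rw [himg g, ← Set.union_assoc, Subfield.closure_union _ {a i + c i * g},
          Subfield.closure_union _ {a i + c i * g}, Subfield.closure_eq]
      by_cases hFE : Subfield.closure ((E0 : Set W) ∪
        (fun i => a i + c i * f i) '' (s : Set ι)) = E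
      · refine ⟨Function.update f i 0, ?_, Or.inl ?_⟩
        · intro j
          by_cases hj : j = i
          · subst hj; simpa using hM0
          · rw [Function.update_of_ne hj]; exact hfM j
        · rw [hcl 0, hFE]
          refine le_antisymm ?_ ?_
          · rw [Subfield.closure_le]
            rintro x (hx | hx)
            · exact hx
            · rw [Set.mem_singleton_iff] at hx
              rw [hx, mul_zero, add_zero]; exact ha i
          · exact fun x hx => Subfield.subset_closure (Or.inl hx)
      · have hdeg := hf.resolve_left hFE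
        obtain ⟨g, hgM, hg⟩ : ∃ g ∈ M, a i + c i * g ∉
            Subfield.closure ((E0 : Set W) ∪
              (fun i => a i + c i * f i) '' (s : Set ι)) := by
          by_cases hai : a i ∈ Subfield.closure ((E0 : Set W) ∪
              (fun i => a i + c i * f i) '' (s : Set ι))
          · obtain ⟨g, hgM, hg⟩ := hM _ hle0 hle1 hFE
            refine ⟨g, hgM, fun hcon => hg ?_⟩
            have h2 : c i * g ∈ Subfield.closure ((E0 : Set W) ∪
              (fun i => a i + c i * f i) '' (s : Set ι)) := by
              have := sub_mem hcon hai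
              rwa [add_sub_cancel_left] at this
            have h3 := mul_mem (inv_mem (hle0 (hc i).1)) h2
            rwa [inv_mul_cancel_left₀ (hc i).2] at h3
          · exact ⟨0, hM0, by simpa using hai⟩
        refine ⟨Function.update f i g, ?_, Or.inr ?_⟩
        · intro j
          by_cases hj : j = i
          · subst hj; simpa using hgM
          · rw [Function.update_of_ne hj]; exact hfM j
        · have hle2 : Subfield.closure ((E0 : Set W) ∪
              (fun i => a i + c i * f i) '' (s : Set ι)) ≤
              Subfield.closure (((Subfield.closure ((E0 : Set W) ∪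
              (fun i => a i + c i * f i) '' (s : Set ι)) : Subfield W) : Set W) ∪ {a i + c i * g}) :=
            fun x hx => Subfield.subset_closure (Or.inl hx)
          rw [hcl g, ← Subfield.relfinrank_mul_relfinrank hle0 hle2, hdeg,
            cg_root p _ ?_ hg, Finset.card_insert_of_notMem hi, pow_succ]
          refine hle0 (hpE ?_)
          exact ⟨a i + c i * g, add_mem (ha i) (mul_mem (hE0 (hc i).1) (hME _ hgM)), rfl⟩
  obtain ⟨f, hfM, hf⟩ := key Finset.univ
  refine ⟨f, hfM, ?_⟩
  rw [Finset.coe_univ, Set.image_univ] at hf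
  rcases hf with hf | hf
  · exact hf.symm
  · have hle1 : Subfield.closure ((E0 : Set W) ∪
        Set.range (fun i => a i + c i * f i)) ≤ E := by
      rw [Subfield.closure_le]
      rintro x (hx | ⟨j, rfl⟩)
      · exact hE0 hx
      · exact add_mem (ha j) (mul_mem (hE0 (hc j).1) (hME _ (hfM j)))
    have hle0 : E0 ≤ Subfield.closure ((E0 : Set W) ∪
        Set.range (fun i => a i + c i * f i)) := fun x hx =>
          Subfield.subset_closure (Or.inl hx)
    have h4 := Subfield.relfinrank_mul_relfinrank hle0 hle1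
    rw [hf, Finset.card_univ] at h4
    refine le_antisymm ?_ hle1
    rw [← Subfield.relfinrank_eq_one_iff]
    have h5 : 0 < p ^ Fintype.card ι := pow_pos (Fact.out : p.Prime).pos _
    rw [← h4] at hle h0
    have h6 : 0 < (Subfield.closure ((E0 : Set W) ∪
        Set.range (fun i => a i + c i * f i))).relfinrank E := by
          rcases Nat.eq_zero_or_pos ((Subfield.closure ((E0 : Set W) ∪
            Set.range (fun i => a i + c i * f i))).relfinrank E) with h7 | h7
          · rw [h7, mul_zero] at h0; exact absurd h0 (lt_irrefl 0)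
          · exact h7
    have h8 : p ^ Fintype.card ι * (Subfield.closure ((E0 : Set W) ∪
        Set.range (fun i => a i + c i * f i))).relfinrank E ≤ p ^ Fintype.card ι * 1 := by
      rw [mul_one]; exact hle
    have h9 := Nat.le_of_mul_le_mul_left h8 h5
    omega

section Clo

variable {W : Type} [NormedField W]

/-- the elements of the extended ideal -/
private theorem cf_J {D Q P : Subring W} (hQD : Q ≤ D) (hPQ : P ≤ Q) {w : W}
    (hw : w ∈ Submodule.span D {b : W | b ∈ P ∧ ‖b‖ < 1}) :
    ∃ h : w ∈ D, (⟨w, h⟩ : D) ∈ Ideal.map (Subring.inclusion hQD) (mI Q) := by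
  induction hw using Submodule.span_induction with
  | mem x hx =>
    refine ⟨hQD (hPQ hx.1), ?_⟩
    exact Ideal.mem_map_of_mem (Subring.inclusion hQD) (x := (⟨x, hPQ hx.1⟩ : Q))
      (Ideal.subset_span hx.2)
  | zero => exact ⟨zero_mem D, zero_mem _⟩
  | add x y _ _ hx hy =>
    obtain ⟨h1, h1'⟩ := hx
    obtain ⟨h2, h2'⟩ := hy
    exact ⟨add_mem h1 h2, add_mem h1' h2'⟩
  | smul d x _ hx =>
    obtain ⟨h1, h1'⟩ := hx
    exact ⟨mul_mem d.2 h1, Ideal.mul_mem_left _ d h1'⟩

/-- `D` as a module over a subring -/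
private def cfD {D Q : Subring W} (hQD : Q ≤ D) : Submodule Q W where
  carrier := D
  add_mem' := add_mem
  zero_mem' := zero_mem D
  smul_mem' := fun q _ hx => D.mul_mem (hQD q.2) hx

private theorem cf_smul {D Q : Subring W} (hQD : Q ≤ D) (I : Ideal Q) {t : D}
    (ht : t ∈ Ideal.map (Subring.inclusion hQD) I) : (t : W) ∈ I • cfD hQD := by
  unfold Ideal.map at ht
  induction ht using Submodule.span_induction with
  | mem x hx =>
    obtain ⟨q, hq, rfl⟩ := hx
    have h1 : q • (1 : W) ∈ I • cfD hQD := Submodule.smul_mem_smul hq (one_mem D)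
    have h2 : q • (1 : W) = ((Subring.inclusion hQD q : D) : W) := mul_one (q : W)
    rwa [h2] at h1
  | zero => exact zero_mem _
  | add x y _ _ hx hy => exact add_mem hx hy
  | smul d x _ hx =>
    have key : ∀ y ∈ I • cfD hQD, (d : W) * y ∈ I • cfD hQD := by
      intro y hy
      refine Submodule.smul_induction_on hy ?_ ?_
      · intro q hq w hw
        have h1 : (d : W) * (q • w) = q • ((d : W) * w) := by
          change (d : W) * ((q : W) * w) = (q : W) * ((d : W) * w)
          ring
        rw [h1]
        exact Submodule.smul_mem_smul hq (show (d : W) * w ∈ cfD hQD from D.mul_mem d.2 hw)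
      · intro y y' hy hy'
        rw [mul_add]
        exact add_mem hy hy'
    exact key _ hx

private theorem cf_krull {R N : Type} [CommRing R] [IsNoetherianRing R] [IsLocalRing R]
    [AddCommGroup N] [Module R N] (I : Ideal R) (hI : I ≠ ⊤) (E M : Submodule R N) (hE : E.FG)
    {z : N} (hz : z ∈ E) (h : ∀ n, ∃ y ∈ M, z - y ∈ I ^ n • E) : z ∈ M := by
  have hf : Module.Finite R E := Module.Finite.iff_fg.2 hE
  have h1 := Ideal.iInf_pow_smul_eq_bot_of_isLocalRing (M := E ⧸ M.comap E.subtype) I hI
  have h2 : (M.comap E.subtype).mkQ ⟨z, hz⟩ ∈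
      (⨅ i : ℕ, I ^ i • ⊤ : Submodule R (E ⧸ M.comap E.subtype)) := by
    rw [Submodule.mem_iInf]
    intro n
    obtain ⟨y, hy, hzy⟩ := h n
    have h3 : I ^ n • E = (I ^ n • (⊤ : Submodule R E)).map E.subtype := by
      rw [Submodule.map_smul'', Submodule.map_top, Submodule.range_subtype]
    rw [h3] at hzy
    obtain ⟨w, hw, hwz⟩ := hzy
    have h4 : (M.comap E.subtype).mkQ ⟨z, hz⟩ = (M.comap E.subtype).mkQ w := by
      rw [Submodule.mkQ_apply, Submodule.mkQ_apply, Submodule.Quotient.eq, Submodule.mem_comap,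
        map_sub, hwz]
      change z - (z - y) ∈ M
      rwa [sub_sub_cancel]
    rw [h4]
    have h5 : (M.comap E.subtype).mkQ w ∈
        (I ^ n • (⊤ : Submodule R E)).map (M.comap E.subtype).mkQ := ⟨w, hw, rfl⟩
    rw [Submodule.map_smul''] at h5
    exact Submodule.smul_mono le_rfl le_top h5
  rw [h1, Submodule.mem_bot, Submodule.mkQ_apply, Submodule.Quotient.mk_eq_zero] at h2
  exact h2

end Clo

theorem clo_fin {W : Type} [NormedField W] [IsUltrametricDist W] {X : Subfield W}
    {D P : Subring W} (hD : Nl X D) (hP : Nl X P) (hPD : Cp P ≤ D) (N : ℕ)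
    (hN : ∀ z ∈ mP D N, z ∈ Submodule.span D {b : W | b ∈ P ∧ ‖b‖ < 1}) {l : ℕ} (v : Fin l → W)
    (hv : ∀ i, v i ∈ D)
    (hgen : ∀ z ∈ D, ∃ c : Fin l → W, (∀ i, c i ∈ Cp P) ∧ z = ∑ i, c i * v i) {m : ℕ}
    (u : Fin m → W) (hu : ∀ i, u i ∈ D) {z : W} (hz : z ∈ D)
    (h : ∀ n, ∃ y ∈ Submodule.span (Cp P) (Set.range u), z - y ∈ mP D n) :
    z ∈ Submodule.span (Cp P) (Set.range u) := by
  have hQ : Nl X (Cp P) := hP.cp
  haveI := hQ.isLocal
  haveI := hQ.noeth
  have hI : mI (Cp P) ≠ ⊤ := by
    rw [hQ.mI_eq]
    exact Ideal.IsPrime.ne_top inferInstance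
  have hJ : mI D ^ N ≤ Ideal.map (Subring.inclusion hPD) (mI (Cp P)) := by
    intro t ht
    obtain ⟨h1, h2⟩ := cf_J hPD (Pool.Agent.Lib.TQ.le_Cp) (hN (t : W) ⟨t, ht, rfl⟩)
    exact h2
  have hfg : (cfD hPD).FG := by
    have h1 : cfD hPD = Submodule.span (Cp P) (Set.range v) := by
      apply le_antisymm
      · intro x hx
        obtain ⟨c, hc, rfl⟩ := hgen x hx
        refine sum_mem fun i _ => ?_
        have h2 : (⟨c i, hc i⟩ : Cp P) • v i ∈ Submodule.span (Cp P) (Set.range v) :=
          Submodule.smul_mem _ _ (Submodule.subset_span ⟨i, rfl⟩)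
        exact h2
      · rw [Submodule.span_le]
        rintro _ ⟨i, rfl⟩
        exact hv i
    rw [h1]
    exact Submodule.fg_span (Set.finite_range v)
  refine cf_krull (mI (Cp P)) hI (cfD hPD) _ hfg hz ?_
  intro n
  obtain ⟨y, hy, t, ht, hty⟩ := h (N * n)
  refine ⟨y, hy, ?_⟩
  rw [← hty]
  apply cf_smul
  rw [Ideal.map_pow]
  rw [pow_mul] at ht
  exact Ideal.pow_right_mono hJ n ht

end Pool.Agent.Lib.MXP
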