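import Pool.Agent.Lib.MXP.CgP7b
import Pool.Agent.Lib.MXP.CgP6

/-!
# Module CgP7: the theorem of Cohen and Gabber for arbitrary residue fields
-/

namespace Pool.Agent.Lib.MXP

open Pool.Agent.Lib.MP_3029eb_ag Pool.Agent.Lib.MP_3029eb_ag.Abh Pool.Agent.Lib.TDO
open Pool.Agent.Lib.TQ (mI mP Cp Nl)

variable {W : Type} [NormedField W] [IsUltrametricDist W] (p : ℕ) [hp : Fact p.Prime] [CharP W p]
  {X : Subfield W} {D : Subring W}

/-- The field `La s` is contained in the field generated by the `p`-th powers and the new power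
series ring. -/
theorem La_new (hD : Nl X D) {K : Subfield W} (hKD : ∀ e ∈ K, e ∈ D) {ι : Type} {b : ι → W}
    (hbK : ∀ i, b i ∈ K) {ρ : ℕ} {x : Fin ρ → W} (hx : ∀ i, x i ∈ D)
    {ev : MvPowerSeries (Fin ρ) K →+* W} (hev : Ev K D x ev) (s : Finset ι)
    {P : Subring W} (hP : Nl X P) (hPD : Cp P ≤ D) (N : ℕ)
    (hN : ∀ z ∈ mP D N, z ∈ Submodule.span D {b : W | b ∈ P ∧ ‖b‖ < 1}) {l : ℕ} (v : Fin l → W)
    (hv : ∀ i, v i ∈ D)
    (hgen : ∀ z ∈ D, ∃ c : Fin l → W, (∀ i, c i ∈ Cp P) ∧ z = ∑ i, c i * v i)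
    (hbP : ∀ i, i ∉ s → b i ∈ P) :
    La p K b ev s ≤ Subfield.closure
      (((Subfield.closure (D : Set W)).map (frobenius W p) : Set W) ∪ (Cp P : Set W)) := by
  classical
  let M : Submodule (Cp P) W := Submodule.span (Cp P) (Set.range fun i => v i ^ p)
  -- `p`-th powers
  have hpow : ∀ w ∈ D, w ^ p ∈ M := by
    intro w hw
    obtain ⟨c, hc, rfl⟩ := hgen w hw
    have h1 : (∑ i, c i * v i) ^ p = ∑ i, c i ^ p * v i ^ p := by
      have h2 := map_sum (frobenius W p) (fun i => c i * v i) Finset.univ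
      rw [frobenius_def] at h2
      rw [h2]
      refine Finset.sum_congr rfl fun i _ => ?_
      rw [frobenius_def, mul_pow]
    rw [h1]
    refine sum_mem fun i _ => ?_
    exact M.smul_mem (⟨c i ^ p, pow_mem (hc i) p⟩ : Cp P) (Submodule.subset_span ⟨i, rfl⟩)
  have hmulp : ∀ w ∈ D, ∀ m ∈ M, w ^ p * m ∈ M := by
    intro w hw m hm
    induction hm using Submodule.span_induction with
    | mem y hy =>
      obtain ⟨i, rfl⟩ := hy
      change w ^ p * v i ^ p ∈ M
      rw [← mul_pow]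
      exact hpow _ (mul_mem hw (hv i))
    | zero => rw [mul_zero]; exact zero_mem _
    | add y y' _ _ h1 h2 => rw [mul_add]; exact add_mem h1 h2
    | smul a y _ h1 =>
      have h2 : w ^ p * (a • y) = a • (w ^ p * y) := by
        rw [Algebra.smul_def, Algebra.smul_def]; ring
      rw [h2]
      exact M.smul_mem a h1
  have hmulP : ∀ a ∈ Cp P, ∀ m ∈ M, a * m ∈ M := fun a ha m hm =>
    M.smul_mem (⟨a, ha⟩ : Cp P) hm
  have hK0 : ∀ e : K, e ∈ K0s p K b s → ∀ m ∈ M, (e : W) * m ∈ M := by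
    intro e he m hm
    obtain ⟨s', c, hs', hc, hz⟩ := Kp_ring p K b hbK _ he
    have hz' : (e : W) = ∑ α, c α ^ p * ∏ i : s', b i ^ ((α i : Fin p) : ℕ) := hz
    rw [hz', Finset.sum_mul]
    refine sum_mem fun α _ => ?_
    rw [mul_assoc]
    refine hmulp _ (hKD _ (hc α)) _ (hmulP _ ?_ _ hm)
    refine prod_mem fun i _ => pow_mem (TQ.le_Cp (hbP i ?_)) _
    have h1 := hs' i.2
    exact fun h2 => h1 h2
  unfold La
  rw [Subfield.closure_le]
  rintro _ ⟨f, hf, rfl⟩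
  have hM : ev f ∈ M := by
    refine clo_fin hD hP hPD N hN v hv hgen (fun i => v i ^ p) (fun i => pow_mem (hv i) p)
      (hev.mem f) fun n => ?_
    obtain ⟨S, hS⟩ := hev.approx f n
    refine ⟨_, ?_, hS⟩
    refine sum_mem fun d _ => ?_
    by_cases hd : ∃ i, ¬ p ∣ d i
    · rw [(hf d).2 hd]
      change (((0 : K) : W)) * _ ∈ _
      rw [ZeroMemClass.coe_zero, zero_mul]
      exact zero_mem _
    · push Not at hd
      refine hK0 _ (hf d).1 _ ?_
      have h1 : ∏ i, x i ^ d i = (∏ i, x i ^ (d i / p)) ^ p := by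
        rw [← Finset.prod_pow]
        refine Finset.prod_congr rfl fun i _ => ?_
        rw [← pow_mul, Nat.div_mul_cancel (hd i)]
      rw [h1]
      exact hpow _ (prod_mem fun i _ => pow_mem (hx i) _)
  -- `M` is in the field
  have hMc : ∀ m ∈ M, m ∈ Subfield.closure
      (((Subfield.closure (D : Set W)).map (frobenius W p) : Set W) ∪ (Cp P : Set W)) := by
    intro m hm
    induction hm using Submodule.span_induction with
    | mem y hy =>
      obtain ⟨i, rfl⟩ := hy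
      exact Subfield.subset_closure (Or.inl ⟨v i, Subfield.subset_closure (hv i), rfl⟩)
    | zero => exact zero_mem _
    | add y y' _ _ h1 h2 => exact add_mem h1 h2
    | smul a y _ h1 =>
      rw [Algebra.smul_def]
      exact mul_mem (Subfield.subset_closure (Or.inr a.2)) h1
  exact hMc _ hM

/-- The theorem of Cohen and Gabber. -/
theorem cg_general (p : ℕ) [hp : Fact p.Prime] [CharP W p] (hD : Nl X D) (hDc : Cp D = D)
    {ρ : ℕ} (hρ : 0 < ρ)
    (hdim : ringKrullDim D = (((ρ : ℕ) : ℕ∞) : WithBot ℕ∞)) :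
    ∃ (K : Subfield W) (t : Fin ρ → W), (∀ e ∈ K, e ∈ D) ∧ (∀ z ∈ D, ∃ e ∈ K, ‖z - e‖ < 1) ∧
      (∀ i, t i ∈ D ∧ ‖t i‖ < 1 ∧ t i ≠ 0) ∧
      (∃ N : ℕ, ∀ z ∈ mP D N, z ∈ Submodule.span D (Set.range t)) ∧
      ∀ z ∈ D, ∃ F : Polynomial W, (∀ j, F.coeff j ∈ Cp (PK K t)) ∧ F.eval z = 0 ∧
        F.derivative.eval z ≠ 0 := by
  classical
  have hp0 : p ≠ 0 := hp.out.ne_zero
  obtain ⟨ι, b, hb⟩ := pb_exists p hD
  obtain ⟨K, hKD, hres, hbK⟩ := pb_coef p hD hDc hb
  have hpf : PBf p K b := hb.pbf' p hD K hKD hres hbK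
  obtain ⟨x, hx, N, hN⟩ := TQ.cg_sop hD hdim
  obtain ⟨hP0, hP0D, hP0m, l0, v0, hv0, hgen0⟩ := pk_fin hD hDc K hKD hres x
    (fun i => ⟨(hx i).1, (hx i).2.1⟩) N hN
  obtain ⟨ev, hev⟩ := ev_exists hD hDc K hKD x (fun i => ⟨(hx i).1, (hx i).2.1⟩)
  have hgen1 : ∀ z ∈ D, ∃ c : Fin l0 → W, (∀ i, c i ∈ ev.range) ∧ z = ∑ i, c i * v0 i := by
    intro z hz
    obtain ⟨c, hc, h⟩ := hgen0 z hz
    exact ⟨c, fun i => ev_range hD hDc K hKD hres x (fun i => ⟨(hx i).1, (hx i).2.1⟩) hev hP0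
      hP0m (hc i), h⟩
  have hinj := ev_inj hD hDc K hKD hdim x (fun i => ⟨(hx i).1, (hx i).2.1⟩) hev v0 hv0 hgen1
  have hevD : ev.range ≤ D := by
    rintro _ ⟨f, rfl⟩
    exact hev.mem f
  have hDF : ∀ z ∈ D, z ∈ Subfield.closure (D : Set W) := fun z hz =>
    Subfield.subset_closure hz
  obtain ⟨s, hs0, hs1⟩ := dis_main p (La p K b ev) (fun s s' h => La_anti p h)
    (Subfield.closure (ev.range : Set W)) (Subfield.closure (D : Set W))
    (Subfield.closure_mono hevD) (TQ.rel_fin ev.range D hevD v0 hv0 hgen1) (La_le p)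
    (fun s => p ^ (s.card + ρ)) (La_rank p hpf hev) (fun z hz => La_inter p hpf hinj hz)
  have hLaF : La p K b ev s ≤ Subfield.closure (D : Set W) :=
    (La_le p s).trans (Subfield.closure_mono hevD)
  have hF0F : Subfield.closure (((Subfield.closure (D : Set W)).map (frobenius W p) : Set W) ∪
      (La p K b ev s : Set W)) ≤ Subfield.closure (D : Set W) := by
    rw [Subfield.closure_le]
    rintro z (⟨y, hy, rfl⟩ | hz)
    · exact pow_mem hy p
    · exact hLaF hz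
  have hpF0 : (Subfield.closure (D : Set W)).map (frobenius W p) ≤
      Subfield.closure (((Subfield.closure (D : Set W)).map (frobenius W p) : Set W) ∪
      (La p K b ev s : Set W)) := fun z hz => Subfield.subset_closure (Or.inl hz)
  obtain ⟨f, hfM, hfE⟩ := cg_greedyX p (ι := s ⊕ Fin ρ) _ (Subfield.closure (D : Set W)) hpF0
    hF0F hs0 (by rw [Fintype.card_sum, Fintype.card_fin, Fintype.card_coe]; exact hs1)
    {z | z ∈ D ∧ ‖z‖ < 1} ⟨zero_mem _, by rw [norm_zero]; exact zero_lt_one⟩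
    (fun z hz => hDF z hz.1)
    (by
      intro F _ hFE hne
      by_contra hcon
      push Not at hcon
      apply hne
      refine le_antisymm hFE ?_
      rw [Subfield.closure_le]
      intro z hz
      have hb := hx ⟨0, hρ⟩
      have h1 : z * x ⟨0, hρ⟩ ∈ F := by
        refine hcon _ ⟨mul_mem hz hb.1, ?_⟩
        rw [norm_mul]
        calc ‖z‖ * ‖x ⟨0, hρ⟩‖ ≤ 1 * ‖x ⟨0, hρ⟩‖ :=
              mul_le_mul_of_nonneg_right (hD.one z hz) (norm_nonneg _)
          _ < 1 := by rw [one_mul]; exact hb.2.1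
      have h2 : x ⟨0, hρ⟩ ∈ F := hcon _ ⟨hb.1, hb.2.1⟩
      have h3 := div_mem h1 h2
      rwa [mul_div_cancel_right₀ _ hb.2.2] at h3)
    (Sum.elim (fun i => b i) (fun j => x j ^ p)) (Sum.elim (fun _ => 1) (fun j => x j ^ p))
    (by
      rintro (i | j)
      · exact hDF _ (hKD _ (hbK i))
      · exact hDF _ (pow_mem (hx j).1 p))
    (by
      rintro (i | j)
      · exact ⟨one_mem _, one_ne_zero⟩
      · exact ⟨hpF0 ⟨x j, hDF _ (hx j).1, rfl⟩, pow_ne_zero _ (hx j).2.2⟩)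
  -- the new coefficient field
  let b' : ι → W := fun i => if h : i ∈ s then b i + f (Sum.inl ⟨i, h⟩) else b i
  have hb'1 : ∀ i (h : i ∈ s), b' i = b i + f (Sum.inl ⟨i, h⟩) := fun i h => dif_pos h
  have hb'2 : ∀ i, i ∉ s → b' i = b i := fun i h => dif_neg h
  have hb' : PB p D b' := by
    refine hb.mod p hD.one fun i => ?_
    by_cases h : i ∈ s
    · rw [hb'1 i h]
      refine ⟨add_mem (hKD _ (hbK i)) (hfM _).1, ?_⟩
      have h1 : b i - (b i + f (Sum.inl ⟨i, h⟩)) = -f (Sum.inl ⟨i, h⟩) := by ring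
      rw [h1, norm_neg]
      exact (hfM _).2
    · rw [hb'2 i h]
      exact ⟨hKD _ (hbK i), by rw [sub_self, norm_zero]; exact zero_lt_one⟩
  obtain ⟨K', hKD', hres', hbK'⟩ := pb_coef p hD hDc hb'
  -- the new parameters
  have hf1 : ∀ j : Fin ρ, ‖1 + f (Sum.inr j)‖ = 1 := by
    intro j
    have h1 : ‖f (Sum.inr j)‖ < ‖(1 : W)‖ := by rw [norm_one]; exact (hfM _).2
    rw [IsUltrametricDist.norm_add_eq_max_of_norm_ne_norm h1.ne', max_eq_left h1.le, norm_one]
  have htD : ∀ j, x j ^ p * (1 + f (Sum.inr j)) ∈ D := fun j =>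
    mul_mem (pow_mem (hx j).1 p) (add_mem (one_mem _) (hfM _).1)
  have htn : ∀ j, ‖x j ^ p * (1 + f (Sum.inr j))‖ < 1 := by
    intro j
    rw [norm_mul, hf1, mul_one, norm_pow]
    exact pow_lt_one₀ (norm_nonneg _) (hx j).2.1 hp0
  have ht0 : ∀ j, x j ^ p * (1 + f (Sum.inr j)) ≠ 0 := by
    intro j
    refine mul_ne_zero (pow_ne_zero _ (hx j).2.2) ?_
    intro h0
    have := hf1 j
    rw [h0, norm_zero] at this
    exact zero_ne_one this
  obtain ⟨N', hN'⟩ := g7_pow hD p x (fun i => ⟨(hx i).1, (hx i).2.1⟩) hN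
    (fun j => f (Sum.inr j)) (fun j => hfM _) hf1 htD
  obtain ⟨t, htdef⟩ : ∃ t : Fin ρ → W, t = fun j => x j ^ p * (1 + f (Sum.inr j)) := ⟨_, rfl⟩
  rw [← htdef] at hN'
  have htj : ∀ j, t j = x j ^ p * (1 + f (Sum.inr j)) := fun j => by rw [htdef]
  have ht : ∀ j, t j ∈ D ∧ ‖t j‖ < 1 ∧ t j ≠ 0 := fun j => by
    rw [htj]; exact ⟨htD j, htn j, ht0 j⟩
  obtain ⟨hP, hPD, hPm, l, v, hv, hgen⟩ := pk_fin hD hDc K' hKD' hres' t
    (fun j => ⟨(ht j).1, (ht j).2.1⟩) N' hN'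
  refine ⟨K', t, hKD', hres', ht, ⟨N', hN'⟩, ?_⟩
  have hKP : ∀ e ∈ K', e ∈ PK K' t := fun e he =>
    le_locV (ball W) _ (Subring.subset_closure (Or.inl he))
  have htP : ∀ j, t j ∈ PK K' t := fun j =>
    le_locV (ball W) _ (Subring.subset_closure (Or.inr ⟨j, rfl⟩))
  have hN2 : ∀ z ∈ mP D N', z ∈ Submodule.span D {b : W | b ∈ PK K' t ∧ ‖b‖ < 1} := by
    intro z hz
    refine Submodule.span_mono ?_ (hN' z hz)
    rintro _ ⟨j, rfl⟩
    exact ⟨htP j, (ht j).2.1⟩
  have hLa := La_new p hD hKD hbK (fun i => (hx i).1) hev s hP hPD N' hN2 v hv hgen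
    (fun i hi => by
      have h1 := hbK' i
      rw [hb'2 i hi] at h1
      exact hKP _ h1)
  intro z hz
  apply TQ.sep_poly
  refine TQ.cg_sep p _ _ (Subfield.closure_mono hPD) (TQ.rel_fin _ D hPD v hv hgen) ?_ z
    (hDF z hz)
  have hE' : ∀ y ∈ Cp (PK K' t), y ∈ Subfield.closure
      (((Subfield.closure (D : Set W)).map (frobenius W p) : Set W) ∪
        (Subfield.closure (Cp (PK K' t) : Set W) : Set W)) := fun y hy =>
    Subfield.subset_closure (Or.inr (Subfield.subset_closure hy))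
  refine hfE.le.trans ?_
  rw [Subfield.closure_le]
  rintro y (hy | ⟨i, rfl⟩)
  · refine (Subfield.closure_le.2 ?_) hy
    rintro w (hw | hw)
    · exact Subfield.subset_closure (Or.inl hw)
    · refine (Subfield.closure_le.2 ?_) (hLa hw)
      rintro u (hu | hu)
      · exact Subfield.subset_closure (Or.inl hu)
      · exact hE' u hu
  · rcases i with ⟨i, hi⟩ | j
    · refine hE' _ (TQ.le_Cp (hKP _ ?_))
      have h1 := hbK' i
      rw [hb'1 i hi] at h1
      simp only [Sum.elim_inl, one_mul]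
      exact h1
    · refine hE' _ (TQ.le_Cp ?_)
      have h1 := htP j
      rw [htj] at h1
      have h2 : x j ^ p * (1 + f (Sum.inr j)) = x j ^ p + x j ^ p * f (Sum.inr j) := by ring
      rw [h2] at h1
      exact h1

end Pool.Agent.Lib.MXP
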