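import Pool.Agent.Lib.MXP.CgP1
import Pool.Agent.Lib.MXP.CgP2
import Pool.Agent.Lib.MXP.CgP3
import Pool.Agent.Lib.MXP.CgP4
import Pool.Agent.Lib.TQ.CgF

/-!
# Module CgP7a: the field of fractions of the power series ring
-/

namespace Pool.Agent.Lib.MXP

open Pool.Agent.Lib.MP_3029eb_ag Pool.Agent.Lib.MP_3029eb_ag.Abh Pool.Agent.Lib.TDO
open Pool.Agent.Lib.TQ (mI mP Cp Nl)

/-- reduction of the exponents of monomials -/
private theorem g7_adjoin {R W : Type} [CommRing R] [Field W] [Algebra R W] (p : ℕ) (hp : 0 < p)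
    {ι : Type} [Fintype ι] (x : ι → W) (hx : ∀ i, ∃ r : R, algebraMap R W r = x i ^ p) {z : W}
    (hz : z ∈ Algebra.adjoin R (Set.range x)) :
    z ∈ Submodule.span R
      (Set.range fun α : ι → Fin p => ∏ i, x i ^ ((α i : Fin p) : ℕ)) := by
  classical
  choose r hr using hx
  rw [Algebra.adjoin_range_eq_range_aeval] at hz
  obtain ⟨P, rfl⟩ := hz
  change MvPolynomial.aeval x P ∈ _
  rw [MvPolynomial.aeval_def, MvPolynomial.eval₂_eq']
  refine Submodule.sum_mem _ fun d _ => ?_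
  have h1 : ∏ i, x i ^ d i = (∏ i, r i ^ (d i / p)) • ∏ i, x i ^ (d i % p) := by
    rw [Algebra.smul_def, map_prod, ← Finset.prod_mul_distrib]
    refine Finset.prod_congr rfl fun i _ => ?_
    rw [map_pow, hr, ← pow_mul, ← pow_add, Nat.div_add_mod]
  rw [h1, ← Algebra.smul_def]
  exact Submodule.smul_mem _ _ (Submodule.smul_mem _ _ (Submodule.subset_span
    ⟨fun i => ⟨d i % p, Nat.mod_lt _ hp⟩, rfl⟩))

theorem g7_field {W : Type} [Field W] (F : Subfield W) (p : ℕ) (hp : 0 < p) {ι : Type}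
    [Fintype ι] (x : ι → W) (hx : ∀ i, x i ^ p ∈ F) {z : W}
    (hz : z ∈ Subfield.closure ((F : Set W) ∪ Set.range x)) :
    z ∈ Submodule.span F
      (Set.range fun α : ι → Fin p => ∏ i, x i ^ ((α i : Fin p) : ℕ)) := by
  refine g7_adjoin p hp x (fun i => ⟨⟨x i ^ p, hx i⟩, rfl⟩) ?_
  have h1 : (IntermediateField.adjoin F (Set.range x)).toSubalgebra =
      Algebra.adjoin F (Set.range x) := by
    refine IntermediateField.adjoin_toSubalgebra_of_isAlgebraic ?_
    rintro _ ⟨i, rfl⟩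
    have h2 : IsAlgebraic F (x i ^ p) := isAlgebraic_algebraMap (⟨x i ^ p, hx i⟩ : F)
    exact IsAlgebraic.of_pow hp h2
  rw [← h1]
  have h3 : Subfield.closure ((F : Set W) ∪ Set.range x) ≤
      (IntermediateField.adjoin F (Set.range x)).toSubfield := by
    rw [Subfield.closure_le]
    rintro y (hy | hy)
    · exact (IntermediateField.adjoin F (Set.range x)).algebraMap_mem (⟨y, hy⟩ : F)
    · exact IntermediateField.subset_adjoin F _ hy
  exact h3 hz

theorem g7_rank {W : Type} [Field W] (F E : Subfield W) (hle : F ≤ E) {ι : Type}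
    [Fintype ι] (v : ι → W) (hv : ∀ i, v i ∈ E)
    (hE : ∀ z ∈ E, z ∈ Submodule.span F (Set.range v)) :
    0 < F.relfinrank E ∧ F.relfinrank E ≤ Fintype.card ι := by
  rw [Subfield.relfinrank_eq_finrank_of_le hle]
  let v' : ι → Subfield.extendScalars hle := fun i => ⟨v i, hv i⟩
  have h1 : Submodule.span F (Set.range v') = ⊤ := by
    rw [eq_top_iff]
    rintro ⟨z, hz⟩ -
    have h2 := hE z hz
    rw [Submodule.mem_span_range_iff_exists_fun] at h2 ⊢
    obtain ⟨c, hc⟩ := h2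
    refine ⟨c, Subtype.ext (Eq.trans ?_ hc)⟩
    simp [v']
  have h2 : Module.Finite F (Subfield.extendScalars hle) :=
    ⟨by rw [← h1]; exact Submodule.fg_span (Set.finite_range v')⟩
  exact ⟨Module.finrank_pos, finrank_le_of_span_eq_top h1⟩

section
variable {W : Type} [NormedField W] [IsUltrametricDist W] {X : Subfield W} {D : Subring W}

/-- membership in the ideal generated by a family, in `D` and in `W` -/
private theorem g7_span {n : ℕ} (t : Fin n → W) (ht : ∀ i, t i ∈ D) (z : D) :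
    (z : W) ∈ Submodule.span D (Set.range t) ↔
      z ∈ Ideal.span (Set.range fun i => (⟨t i, ht i⟩ : D)) := by
  constructor
  · intro h
    rw [Submodule.mem_span_range_iff_exists_fun] at h
    obtain ⟨c, hc⟩ := h
    have h1 : z = ∑ i, c i * (⟨t i, ht i⟩ : D) := by
      apply Subtype.ext
      rw [← hc]
      have : ((∑ i, c i * (⟨t i, ht i⟩ : D) : D) : W) = ∑ i, (c i : W) * t i := by
        rw [AddSubmonoidClass.coe_finset_sum]
        rfl
      rw [this]
      rfl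
    rw [h1]
    exact Ideal.sum_mem _ fun i _ => Ideal.mul_mem_left _ _ (Ideal.subset_span ⟨i, rfl⟩)
  · intro h
    rw [Ideal.span, Submodule.mem_span_range_iff_exists_fun] at h
    obtain ⟨c, hc⟩ := h
    rw [Submodule.mem_span_range_iff_exists_fun]
    refine ⟨c, ?_⟩
    rw [← hc, AddSubmonoidClass.coe_finset_sum]
    rfl

theorem g7_pow (hD : Nl X D) (p : ℕ) {n : ℕ} (t0 : Fin n → W)
    (ht0 : ∀ i, t0 i ∈ D ∧ ‖t0 i‖ < 1) {N : ℕ}
    (hN : ∀ z ∈ mP D N, z ∈ Submodule.span D (Set.range t0)) (f : Fin n → W)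
    (hf : ∀ i, f i ∈ D ∧ ‖f i‖ < 1) (h1 : ∀ i, ‖1 + f i‖ = 1)
    (ht : ∀ i, t0 i ^ p * (1 + f i) ∈ D) :
    ∃ N' : ℕ, ∀ z ∈ mP D N', z ∈ Submodule.span D (Set.range fun i => t0 i ^ p * (1 + f i)) := by
  haveI : IsNoetherianRing D := hD.noeth
  have hrad : mI D ≤ (Ideal.span (Set.range fun i => (⟨t0 i ^ p * (1 + f i), ht i⟩ : D))).radical := by
    intro x hx
    have hx1 : x ^ N ∈ mI D ^ N := Ideal.pow_mem_pow hx N
    have hx2 : ((x ^ N : D) : W) ∈ Submodule.span D (Set.range t0) := hN _ ⟨x ^ N, hx1, rfl⟩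
    rw [g7_span t0 (fun i => (ht0 i).1)] at hx2
    refine Ideal.mem_radical_of_pow_mem (m := N) ?_
    refine (Ideal.span_le.2 ?_) hx2
    rintro _ ⟨i, rfl⟩
    refine Ideal.mem_radical_of_pow_mem (m := p) (Ideal.le_radical ?_)
    have h2 : (⟨t0 i, (ht0 i).1⟩ : D) ^ p
        = ⟨(1 + f i)⁻¹, hD.inv _ (add_mem (one_mem _) (hf i).1) (h1 i)⟩ *
          ⟨t0 i ^ p * (1 + f i), ht i⟩ := by
      apply Subtype.ext
      have h3 : (1 + f i) ≠ 0 := by
        intro h0
        have := h1 i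
        rw [h0, norm_zero] at this
        exact zero_ne_one this
      change t0 i ^ p = (1 + f i)⁻¹ * (t0 i ^ p * (1 + f i))
      rw [mul_comm (t0 i ^ p), inv_mul_cancel_left₀ h3]
    rw [h2]
    exact Ideal.mul_mem_left _ _ (Ideal.subset_span ⟨i, rfl⟩)
  obtain ⟨N', hN'⟩ := Ideal.exists_pow_le_of_le_radical_of_fg hrad (IsNoetherian.noetherian _)
  refine ⟨N', ?_⟩
  rintro _ ⟨x, hx, rfl⟩
  exact (g7_span _ ht x).2 (hN' hx)

theorem pk_eq (K : Subfield W) {n : ℕ} (t : Fin n → W) :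
    TQ.Pt (⊥ : IntermediateField K W) t = PK K t := by
  unfold TQ.Pt PK
  have h : ((⊥ : IntermediateField K W) : Set W) = (K : Set W) := by
    ext z
    rw [SetLike.mem_coe, IntermediateField.mem_bot]
    constructor
    · rintro ⟨e, rfl⟩
      exact e.2
    · intro hz
      exact ⟨⟨z, hz⟩, rfl⟩
  rw [h]

/-- `D` is finite over the completion of `K[t]` -/
theorem pk_fin (hD : Nl X D) (hDc : Cp D = D) (K : Subfield W) (hKD : ∀ e ∈ K, e ∈ D)
    (hres : ∀ z ∈ D, ∃ e ∈ K, ‖z - e‖ < 1) {n : ℕ} (t : Fin n → W)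
    (ht : ∀ i, t i ∈ D ∧ ‖t i‖ < 1) (N : ℕ)
    (hN : ∀ z ∈ mP D N, z ∈ Submodule.span D (Set.range t)) :
    Nl X (PK K t) ∧ Cp (PK K t) ≤ D ∧
      (∀ z ∈ PK K t, ‖z‖ < 1 → z ∈ Submodule.span (PK K t) (Set.range t)) ∧
      ∃ (l : ℕ) (v : Fin l → W), (∀ i, v i ∈ D) ∧
        ∀ z ∈ D, ∃ c : Fin l → W, (∀ i, c i ∈ Cp (PK K t)) ∧ z = ∑ i, c i * v i := by
  have hmem : ∀ e ∈ (⊥ : IntermediateField K W), e ∈ K := by
    intro e he
    rw [IntermediateField.mem_bot] at he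
    obtain ⟨e, rfl⟩ := he
    exact e.2
  have h := TQ.cg_fin (k := K) hD hDc (⊥ : IntermediateField K W) (fun e he he0 => by
      have h1 := hD.one e (hKD e (hmem e he))
      have h2 := hD.one e⁻¹ (hKD _ (inv_mem (hmem e he)))
      rw [norm_inv] at h2
      refine le_antisymm h1 ?_
      exact (inv_le_one₀ (norm_pos_iff.2 he0)).1 h2)
    (fun e he => hKD e (hmem e he))
    (fun z hz => by
      obtain ⟨e, he, h1⟩ := hres z hz
      exact ⟨e, IntermediateField.mem_bot.2 ⟨⟨e, he⟩, rfl⟩, h1⟩) t ht N hN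
  rw [pk_eq] at h
  exact h

variable {K : Subfield W} {ρ : ℕ} {x : Fin ρ → W} {ev : MvPowerSeries (Fin ρ) K →+* W}

theorem Ev.mono (hev : Ev K D x ev) (d : Fin ρ →₀ ℕ) (e : K) :
    ev (MvPowerSeries.monomial d e) = e * ∏ i, x i ^ d i := by
  rw [MvPowerSeries.monomial_eq', map_mul, hev.C, Finsupp.prod_fintype _ _ (fun i => pow_zero _),
    map_prod]
  congr 1
  refine Finset.prod_congr rfl fun i _ => ?_
  rw [map_pow, hev.X]

/-- approximation by polynomials -/
theorem Ev.approx (hev : Ev K D x ev) (f : MvPowerSeries (Fin ρ) K) (n : ℕ) :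
    ∃ S : Finset (Fin ρ →₀ ℕ),
      ev f - ∑ d ∈ S, (MvPowerSeries.coeff d f : K) * ∏ i, x i ^ d i ∈ mP D n := by
  classical
  have hfin : {d : Fin ρ →₀ ℕ | d.degree < n}.Finite := Finsupp.finite_of_degree_lt n
  refine ⟨hfin.toFinset, ?_⟩
  have h1 : ev f - ∑ d ∈ hfin.toFinset, (MvPowerSeries.coeff d f : K) * ∏ i, x i ^ d i =
      ev (f - ∑ d ∈ hfin.toFinset, MvPowerSeries.monomial d (MvPowerSeries.coeff d f)) := by
    rw [map_sub, map_sum]
    congr 1
    exact Finset.sum_congr rfl fun d _ => (hev.mono d _).symm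
  rw [h1]
  refine hev.ord _ n fun d hd => ?_
  rw [map_sub, map_sum, Finset.sum_eq_single d]
  · rw [MvPowerSeries.coeff_monomial_same, sub_self]
  · intro d' _ hne
    rw [MvPowerSeries.coeff_monomial_ne hne.symm]
  · intro h
    exact absurd ((Set.Finite.mem_toFinset hfin).2 hd) h

end

end Pool.Agent.Lib.MXP
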