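import Pool.Agent.Lib.MXP.CgP7a
import Pool.Agent.Lib.MXP.CgP5
import Mathlib.Algebra.CharP.IntermediateField

/-!
# Module CgP7b: the fields `La s`
-/

namespace Pool.Agent.Lib.MXP

open Pool.Agent.Lib.MP_3029eb_ag Pool.Agent.Lib.MP_3029eb_ag.Abh Pool.Agent.Lib.TDO
open Pool.Agent.Lib.TQ (mI mP Cp Nl)

variable {W : Type} [NormedField W] [IsUltrametricDist W] (p : ℕ) [hp : Fact p.Prime] [CharP W p]

/-- The coefficients of the power series of level `s`. -/
def K0s (K : Subfield W) {ι : Type} (b : ι → W) (s : Finset ι) : Subfield K :=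
  (Kp p K b (s : Set ι)ᶜ).comap K.subtype

/-- The field of fractions of the power series of level `s`. -/
def La (K : Subfield W) {ι : Type} (b : ι → W) {ρ : ℕ} (ev : MvPowerSeries (Fin ρ) K →+* W)
    (s : Finset ι) : Subfield W :=
  Subfield.closure (ev '' (Sp p (K0s p K b s) ρ : Set (MvPowerSeries (Fin ρ) K)))

variable {K : Subfield W} {ι : Type} {b : ι → W} {D : Subring W} {ρ : ℕ} {x : Fin ρ → W}
  {ev : MvPowerSeries (Fin ρ) K →+* W}

theorem K0s_anti {s s' : Finset ι} (h : s ⊆ s') : K0s p K b s' ≤ K0s p K b s := by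
  intro z hz
  exact Kp_mono p K b (Set.compl_subset_compl.2 (Finset.coe_subset.2 h)) hz

theorem K0s_pow (s : Finset ι) (y : K) : y ^ p ∈ K0s p K b s := by
  change ((y ^ p : K) : W) ∈ Kp p K b (s : Set ι)ᶜ
  exact Subfield.subset_closure (Or.inl ⟨y, y.2, rfl⟩)

theorem La_anti {s s' : Finset ι} (h : s ⊆ s') : La p K b ev s' ≤ La p K b ev s := by
  refine Subfield.closure_mono (Set.image_mono ?_)
  intro f hf d
  exact ⟨K0s_anti p h (hf d).1, (hf d).2⟩

theorem La_le (s : Finset ι) : La p K b ev s ≤ Subfield.closure (ev.range : Set W) := by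
  refine Subfield.closure_mono ?_
  rintro _ ⟨f, -, rfl⟩
  exact ⟨f, rfl⟩

theorem C_mem_Sp (s : Finset ι) {y : K} (hy : y ∈ K0s p K b s) :
    (MvPowerSeries.C y : MvPowerSeries (Fin ρ) K) ∈ Sp p (K0s p K b s) ρ := by
  classical
  intro d
  rw [MvPowerSeries.coeff_C]
  split_ifs with h
  · refine ⟨hy, ?_⟩
    rintro ⟨i, hi⟩
    exfalso
    apply hi
    rw [h]
    exact dvd_zero p
  · exact ⟨zero_mem _, fun _ => rfl⟩

theorem La_rank (hb : PBf p K b) (hev : Ev K D x ev) (s : Finset ι) :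
    0 < (La p K b ev s).relfinrank (Subfield.closure (ev.range : Set W)) ∧
      (La p K b ev s).relfinrank (Subfield.closure (ev.range : Set W)) ≤ p ^ (s.card + ρ) := by
  classical
  let y : s ⊕ Fin ρ → W := Sum.elim (fun i => b i) x
  let yb : s → K := fun i => ⟨b i, hb.mem i⟩
  have hyb : ∀ i : s, ev (MvPowerSeries.C (yb i)) = b i := fun i => hev.C _
  have hyE : ∀ i, y i ∈ Subfield.closure (ev.range : Set W) := by
    rintro (i | i)
    · exact Subfield.subset_closure ⟨_, hyb i⟩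
    · exact Subfield.subset_closure ⟨_, hev.X i⟩
  have hpF : ∀ i, y i ^ p ∈ La p K b ev s := by
    rintro (i | i)
    · change b i ^ p ∈ _
      rw [← hyb i, ← map_pow]
      exact Subfield.subset_closure ⟨_, sp_pow p _ (K0s_pow p s) _, rfl⟩
    · change x i ^ p ∈ _
      rw [← hev.X i, ← map_pow]
      exact Subfield.subset_closure ⟨_, sp_pow p _ (K0s_pow p s) _, rfl⟩
  have hle : Subfield.closure (ev.range : Set W) ≤
      Subfield.closure ((La p K b ev s : Set W) ∪ Set.range y) := by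
    rw [Subfield.closure_le]
    rintro _ ⟨f, rfl⟩
    have hm : ∀ z : K, ∃ c : (s → Fin p) → K, (∀ α, c α ∈ K0s p K b s) ∧
        z = ∑ α, c α * ∏ i, yb i ^ ((α i : Fin p) : ℕ) := by
      intro z
      obtain ⟨c, hc, hz⟩ := pbf_span p hb s z.2
      have hcK : ∀ α, c α ∈ K := fun α => Kp_le p K b hb.mem _ (hc α)
      refine ⟨fun α => ⟨c α, hcK α⟩, fun α => hc α, Subtype.ext ?_⟩
      rw [hz]
      rw [AddSubmonoidClass.coe_finsetSum]
      refine Finset.sum_congr rfl fun α _ => ?_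
      change _ = c α * ((∏ i, yb i ^ ((α i : Fin p) : ℕ) : K) : W)
      rw [SubmonoidClass.coe_finsetProd]
      rfl
    have hyc : ∀ i, y i ∈ Subfield.closure ((La p K b ev s : Set W) ∪ Set.range y) := fun i =>
      Subfield.subset_closure (Or.inr ⟨i, rfl⟩)
    obtain ⟨g, hg, hf⟩ := sp_dec p (K0s p K b s) _ hm f
    rw [hf, map_sum]
    refine sum_mem fun α _ => ?_
    rw [map_sum]
    refine sum_mem fun β _ => ?_
    rw [map_mul, map_mul]
    refine mul_mem (Subfield.subset_closure (Or.inl (Subfield.subset_closure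
      ⟨_, hg α β, rfl⟩))) (mul_mem ?_ ?_)
    · rw [map_prod, map_prod]
      refine prod_mem fun i _ => ?_
      rw [map_pow, map_pow, hyb]
      exact pow_mem (hyc (Sum.inl i)) _
    · rw [map_prod]
      refine prod_mem fun i _ => ?_
      rw [map_pow, hev.X]
      exact pow_mem (hyc (Sum.inr i)) _
  have h1 := g7_rank (La p K b ev s) _ (La_le p s)
    (fun γ : s ⊕ Fin ρ → Fin p => ∏ i, y i ^ ((γ i : Fin p) : ℕ))
    (fun γ => prod_mem fun i _ => pow_mem (hyE i) _)
    (fun z hz => g7_field _ p hp.out.pos y hpF (hle hz))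
  refine ⟨h1.1, h1.2.trans (le_of_eq ?_)⟩
  rw [Fintype.card_fun, Fintype.card_sum, Fintype.card_fin, Fintype.card_fin,
    Fintype.card_coe]

theorem La_frac (s : Finset ι) {z : W} (hz : z ∈ La p K b ev s) :
    ∃ u ∈ Sp p (K0s p K b s) ρ, ∃ v ∈ Sp p (K0s p K b s) ρ, z = ev u / ev v := by
  obtain ⟨u, hu, v, hv, h⟩ := Subfield.mem_closure_iff.1 hz
  have hcl : Subring.closure (ev '' (Sp p (K0s p K b s) ρ : Set (MvPowerSeries (Fin ρ) K))) ≤
      (Sp p (K0s p K b s) ρ).map ev := by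
    rw [Subring.closure_le]
    rintro _ ⟨f, hf, rfl⟩
    exact ⟨f, hf, rfl⟩
  obtain ⟨u', hu', rfl⟩ := hcl hu
  obtain ⟨v', hv', rfl⟩ := hcl hv
  exact ⟨u', hu', v', hv', h.symm⟩

theorem La_inter (hb : PBf p K b) (hinj : Function.Injective ev) {z : W}
    (hz : ∀ s : Finset ι, z ∈ La p K b ev s) :
    z ∈ (Subfield.closure (ev.range : Set W)).map (frobenius W p) := by
  classical
  by_cases hz0 : z = 0
  · rw [hz0]; exact zero_mem _
  have hev0 : ∀ {f}, ev f ≠ 0 → f ≠ 0 := by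
    intro f h h0
    apply h
    rw [h0, map_zero]
  obtain ⟨a, -, b0, -, hab⟩ := La_frac p ∅ (hz ∅)
  have hb1 : ev b0 ≠ 0 := by
    intro h
    rw [h, div_zero] at hab
    exact hz0 hab
  have hK : ∀ y : K, (∀ s, y ∈ K0s p K b s) → ∃ w, y = w ^ p := by
    intro y hy
    obtain ⟨w, hw, hwy⟩ := pbf_inter p hb y.2 (fun s => hy s)
    exact ⟨⟨w, hw⟩, Subtype.ext hwy.symm⟩
  obtain ⟨g, hg⟩ := sp_main p (K0s p K b) (K0s_pow p) hK (a := a) (hev0 hb1) (fun s => by
    obtain ⟨u, hu, v, hv, h⟩ := La_frac p s (hz s)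
    have hv1 : ev v ≠ 0 := by
      intro h0
      rw [h0, div_zero] at h
      exact hz0 h
    refine ⟨u, hu, v, hv, hev0 hv1, hinj ?_⟩
    rw [map_mul, map_mul]
    rw [hab, div_eq_div_iff hb1 hv1] at h
    rw [h, mul_comm])
  have h1 := congrArg ev hg
  rw [map_mul, map_mul, map_pow, map_pow] at h1
  have hcl : ∀ f, ev f ∈ Subfield.closure (ev.range : Set W) := fun f =>
    Subfield.subset_closure ⟨f, rfl⟩
  refine ⟨ev g / ev b0, div_mem (hcl g) (hcl b0), ?_⟩
  rw [frobenius_def, div_pow, hab, div_eq_div_iff (pow_ne_zero _ hb1) hb1, h1, mul_comm]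

end Pool.Agent.Lib.MXP
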