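import Pool.Agent.Lib.MXP.GactX

set_option autoImplicit false

/-!
# Module MX.CharX: the residue fields have characteristic `p`
-/

namespace Pool.Agent.Lib.MXP

open Pool.Agent.Lib.MP_3029eb_ag Pool.Agent.Lib.MP_3029eb_ag.Abh Pool.Agent.Lib.TDO

variable {E W : Type} [Field E] [NormedField W] [IsUltrametricDist W] [Algebra E W] {r p : ℕ}
  {S : IntermediateField E W}

theorem rs_natCast (n : ℕ) : rs (n : W) = (n : RW W) ∧ ‖(n : W)‖ ≤ 1 := by
  induction n with
  | zero => exact ⟨by rw [Nat.cast_zero, Nat.cast_zero, rs_zero], by simp⟩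
  | succ n ih =>
    have h1 : ‖(1 : W)‖ ≤ 1 := by rw [norm_one]
    refine ⟨?_, ?_⟩
    · rw [Nat.cast_succ, Nat.cast_succ, rs_add ih.2 h1, ih.1, rs_one]
    · rw [Nat.cast_succ]
      exact (IsUltrametricDist.norm_add_le_max _ _).trans (max_le ih.2 h1)

theorem charP_RW [hp0 : Fact ((p : W) = 0)] (hA : AmbX p r S) : CharP (RW W) p := by
  rw [CharP.charP_iff_prime_eq_zero hA.prime, ← (rs_natCast (W := W) p).1, hp0.out, rs_zero]

theorem charP_F [Fact ((p : W) = 0)] (hA : AmbX p r S) (F : Subfield (RW W)) : CharP F p := by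
  haveI := charP_RW hA
  exact (algebraMap F (RW W)).charP (algebraMap F (RW W)).injective p

end Pool.Agent.Lib.MXP
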