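import Pool.Agent.Lib.MXP.QBase

/-!
# Module CorA: auxiliary results for valuations of arbitrary rank with transcendence defect one
-/

open IsLocalRing

namespace Pool.Agent.Lib.MXPB

open TC
open Pool.Agent.Lib.MP_3029eb_ag Pool.Agent.Lib.MP_3029eb_ag.Abh
open Pool.Agent.Lib.TE (top_one top_lt resIndep_cons)

/-- the dimension of the local ring at the centre -/
theorem cor_height {R K : Type} [CommRing R] [Field K] [Algebra R K] (V : ValuationSubring K)
    (A : Subalgebra R K) (hAV : ∀ a : A, (a : K) ∈ V) (P : Ideal A)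
    (hP : ∀ a : A, a ∈ P ↔ V.valuation (a : K) < 1) :
    ringKrullDim (locV V A.toSubring) = ((P.height : ℕ∞) : WithBot ℕ∞) := by
  have hA : A.toSubring ≤ V.toSubring := fun z hz => hAV ⟨z, hz⟩
  rw [C4_dim_locV V hA]
  let e : A.toSubring ≃+* A := RingEquiv.refl A
  have hcomap : P.comap (e : A.toSubring →+* A) = C3.cen V hA := by
    ext a
    rw [Ideal.mem_comap, C3.mem_cen]
    exact hP (e a)
  rw [← hcomap]
  exact congrArg _ (RingEquiv.height_comap e P)

/-- **The inequality of Abhyankar** for fields algebraic over the ring. -/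
theorem cor_ineq {K : Type} [Field K] (V : ValuationSubring K) (A : Subring K)
    [IsNoetherianRing A] (hA : A ≤ V.toSubring) (hloc : locV V A = A)
    (halg : ∀ z : K, AlgOver A z) {r : ℕ} (x : Fin r → K) (hx : IndV V x) :
    (r : WithBot ℕ∞) ≤ ringKrullDim A := by
  classical
  have hxx : ∀ i, ∃ t : K, t ∈ V ∧ (t = x i ∨ t = (x i)⁻¹) := by
    intro i
    rcases V.mem_or_inv_mem (x i) with h | h
    · exact ⟨_, h, Or.inl rfl⟩
    · exact ⟨_, h, Or.inr rfl⟩
  choose x' hx'V hx' using hxx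
  have hg : ∀ t ∈ Finset.univ.image x', t ∈ V ∧ AlgOver A t := by
    intro t ht
    obtain ⟨i, -, rfl⟩ := Finset.mem_image.1 ht
    exact ⟨hx'V i, halg _⟩
  refine le_trans ?_ (dim_alg V A hA hloc (Finset.univ.image x') hg)
  have hcl : Subring.closure ((A : Set K) ∪ ((Finset.univ.image x' : Finset K) : Set K)) ≤
      V.toSubring := closure_le_val V A hA _ fun t ht => (hg t ht).1
  have n1 : IsNoetherianRing
      (Subring.closure ((A : Set K) ∪ ((Finset.univ.image x' : Finset K) : Set K))) :=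
    isNoetherianRing_closure _
  have n2 := isNoetherianRing_locV V
    (A := Subring.closure ((A : Set K) ∪ ((Finset.univ.image x' : Finset K) : Set K)))
  refine ineq V _ (locV_le V hcl) (locV_locV V _) x hx fun i => ?_
  have h1 : x' i ∈ locV V (Subring.closure ((A : Set K) ∪
      ((Finset.univ.image x' : Finset K) : Set K))) :=
    le_locV V _ (Subring.subset_closure (Or.inr
      (Finset.mem_coe.2 (Finset.mem_image_of_mem _ (Finset.mem_univ i)))))
  rcases hx' i with h | h
  · exact ⟨x i, h ▸ h1, 1, one_mem _, one_ne_zero, mul_one _⟩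
  · refine ⟨1, one_mem _, (x i)⁻¹, h ▸ h1, inv_ne_zero (hx.ne i), mul_inv_cancel₀ (hx.ne i)⟩

section dep

variable {K : Type} [Field K]

private theorem cor_app {a b : ℕ} (z : Fin a → K) (w : Fin b → K) (m : Fin (a + b) → ℤ) :
    mon (Fin.append z w) m =
      mon z (fun i => m (Fin.castAdd b i)) * mon w (fun i => m (Fin.natAdd a i)) := by
  unfold mon
  rw [Fin.prod_univ_add]
  congr 1
  · exact Finset.prod_congr rfl fun i _ => by rw [Fin.append_left]
  · exact Finset.prod_congr rfl fun i _ => by rw [Fin.append_right]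

private theorem cor_comb {V : ValuationSubring K} {n a b : ℕ} (hn : a + b = n)
    (hdep : ∀ z : Fin n → K, (∀ i, z i ≠ 0) →
      ∃ m : Fin n → ℤ, m ≠ 0 ∧ V.valuation (mon z m) = 1)
    (z : Fin a → K) (hz : ∀ i, z i ≠ 0) (w : Fin b → K) (hw : ∀ i, w i ≠ 0) :
    ∃ (m1 : Fin a → ℤ) (m2 : Fin b → ℤ), (m1 ≠ 0 ∨ m2 ≠ 0) ∧
      V.valuation (mon z m1 * mon w m2) = 1 := by
  subst hn
  obtain ⟨m, hm, h1⟩ := hdep (Fin.append z w) (fun i => by
    refine Fin.addCases (fun i => ?_) (fun i => ?_) i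
    · rw [Fin.append_left]; exact hz i
    · rw [Fin.append_right]; exact hw i)
  refine ⟨_, _, ?_, by rw [← cor_app]; exact h1⟩
  by_contra hcon
  push Not at hcon
  apply hm
  funext i
  refine Fin.addCases (fun i => ?_) (fun i => ?_) i
  · exact congrFun hcon.1 i
  · exact congrFun hcon.2 i

private theorem cor_one {V V1 : ValuationSubring K} (h : V ≤ V1) {z : K}
    (hz : V.valuation z = 1) : V1.valuation z = 1 := by
  have h2 := (C1_val_one_iff V z).1 hz
  exact (C1_val_one_iff V1 z).2 ⟨h h2.1, h h2.2.1, h2.2.2⟩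

private theorem cor_mon_one {V1 : ValuationSubring K} {r : ℕ} {x : Fin r → K}
    (hx : ∀ i, V1.valuation (x i) = 1) (m : Fin r → ℤ) : V1.valuation (mon x m) = 1 := by
  unfold mon
  rw [map_prod]
  exact Finset.prod_eq_one fun i _ => by rw [map_zpow₀, hx i, one_zpow]

private theorem cor_mon_zero {r : ℕ} (x : Fin r → K) : mon x 0 = 1 := by
  unfold mon
  exact Finset.prod_eq_one fun i _ => by rw [Pi.zero_apply, zpow_zero]

/-- the rational rank of a coarser valuation -/
theorem dep_coarse {V V1 : ValuationSubring K} (h : V ≤ V1) {r r1 r2 : ℕ} (hr : r1 + r2 = r)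
    (hdep : ∀ z : Fin (r + 1) → K, (∀ i, z i ≠ 0) →
      ∃ m : Fin (r + 1) → ℤ, m ≠ 0 ∧ V.valuation (mon z m) = 1)
    (x2 : Fin r2 → K) (hx2 : IndV V x2) (hx21 : ∀ i, V1.valuation (x2 i) = 1)
    (z : Fin (r1 + 1) → K) (hz : ∀ i, z i ≠ 0) :
    ∃ m : Fin (r1 + 1) → ℤ, m ≠ 0 ∧ V1.valuation (mon z m) = 1 := by
  obtain ⟨m1, m2, hm, h1⟩ := cor_comb (a := r1 + 1) (b := r2) (by omega) hdep z hz x2 hx2.ne
  have h2 := cor_one h h1
  rw [map_mul, cor_mon_one hx21, mul_one] at h2
  refine ⟨m1, ?_, h2⟩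
  rintro rfl
  rw [cor_mon_zero, one_mul] at h1
  rcases hm with hm | hm
  · exact hm rfl
  · exact hm (hx2.indep m2 h1)

/-- the rational rank of the residual valuation -/
theorem dep_res {V V1 : ValuationSubring K} (h : V ≤ V1) {r r1 r2 : ℕ} (hr : r1 + r2 = r)
    (hdep : ∀ z : Fin (r + 1) → K, (∀ i, z i ≠ 0) →
      ∃ m : Fin (r + 1) → ℤ, m ≠ 0 ∧ V.valuation (mon z m) = 1)
    (x1 : Fin r1 → K) (hx1 : IndV V1 x1)
    (w : Fin (r2 + 1) → ResidueField V1) (hw : ∀ i, w i ≠ 0) :
    ∃ m : Fin (r2 + 1) → ℤ, m ≠ 0 ∧ (resV V V1 h).valuation (mon w m) = 1 := by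
  have hz : ∀ i, ∃ u : V1, residue V1 u = w i := fun i => residue_surjective (w i)
  choose z hz using hz
  have hz1 : ∀ i, V1.valuation (z i : K) = 1 := by
    intro i
    refine rs_val_one (z i).2 ?_
    rw [rs_coe, hz]
    exact hw i
  have hz0 : ∀ i, (z i : K) ≠ 0 := fun i => ((C1_val_one_iff V1 _).1 (hz1 i)).2.2
  obtain ⟨m1, m2, hm, h1⟩ := cor_comb (a := r1) (b := r2 + 1) (by omega) hdep x1 hx1.ne
    (fun i => (z i : K)) hz0
  have h2 := cor_one h h1
  rw [map_mul, cor_mon_one (x := fun i => (z i : K)) hz1, mul_one] at h2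
  have h3 := hx1.indep m1 h2
  subst h3
  rw [cor_mon_zero, one_mul] at h1
  refine ⟨m2, ?_, ?_⟩
  · rcases hm with hm | hm
    · exact absurd rfl hm
    · exact hm
  · have h4 : mon w m2 = rs V1 (mon (fun i => (z i : K)) m2) := by
      rw [rs_mon _ hz1]
      congr 1
      funext i
      rw [rs_coe, hz]
    rw [h4, rs_resV_val h ((C1_val_one_iff V _).1 h1).1]
    exact h1

end dep

section maxi

variable {R K : Type} [CommRing R] [Field K] [Algebra R K]

private theorem cor_zero {V1 : ValuationSubring K} (A : Subalgebra R K) (y : Fin 0 → K)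
    (p : MvPolynomial (Fin 0) A) (hp : V1.valuation (MvPolynomial.aeval y p) < 1)
    (m : Fin 0 →₀ ℕ) : V1.valuation ((MvPolynomial.coeff m p : A) : K) < 1 := by
  have hm : m = 0 := Subsingleton.elim _ _
  subst hm
  rw [MvPolynomial.eq_C_of_isEmpty p, MvPolynomial.aeval_C] at hp
  exact hp

/-- A family of elements of `V` whose residues form a transcendence basis of the residue field
of `V1`. -/
theorem exists_max {V V1 : ValuationSubring K} (h : V ≤ V1) (A : Subalgebra R K)
    (hn : IsNoetherianRing A) (hAV1 : ∀ a : A, (a : K) ∈ V1)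
    (halg : ∀ z : K, AlgOver A.toSubring z) :
    ∃ (t : ℕ) (y : Fin t → K), (∀ j, y j ∈ V) ∧
      ∀ z : K, z ∈ V1 → ∃ f : Polynomial (Algebra.adjoin A (Set.range y)),
        (∃ n, V1.valuation ((f.coeff n : Algebra.adjoin A (Set.range y)) : K) = 1) ∧
        V1.valuation (Polynomial.aeval z f) < 1 := by
  classical
  have hAV1' : A.toSubring ≤ V1.toSubring := fun z hz => hAV1 ⟨z, hz⟩
  have hn1 : IsNoetherianRing A.toSubring := hn
  have hn2 : IsNoetherianRing (locV V1 A.toSubring) := isNoetherianRing_locV V1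
  obtain ⟨d, hd⟩ := exists_nat_dim V1 (locV V1 A.toSubring) (locV_le V1 hAV1') (locV_locV V1 _)
  let Q : ℕ → Prop := fun t => ∃ y : Fin t → K, (∀ j, y j ∈ V) ∧
    ∀ p : MvPolynomial (Fin t) A, V1.valuation (MvPolynomial.aeval y p) < 1 →
      ∀ m, V1.valuation ((MvPolynomial.coeff m p : A) : K) < 1
  have hQ0 : Q 0 := ⟨fun j => j.elim0, fun j => j.elim0, cor_zero A _⟩
  have hQd : ∀ t, Q t → t ≤ d := by
    rintro t ⟨y, hyV, hy⟩
    let i2 : A.toSubring →+* A := A.toSubring.subtype.codRestrict A fun a => a.2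
    have hres : ResIndep V1 (locV V1 A.toSubring) y := by
      refine resIndep_locV V1 _ hAV1' fun q hq m => ?_
      have h1 := hy (MvPolynomial.map i2 q) (by
        rw [MvPolynomial.aeval_def, MvPolynomial.eval₂_map]
        exact hq) m
      rw [MvPolynomial.coeff_map] at h1
      exact h1
    have h1 := dim_alg_res V1 (locV V1 A.toSubring) (locV_le V1 hAV1') (locV_locV V1 _) y
      (fun j => ⟨h (hyV j), (halg _).mono (le_locV V1 _)⟩) hres
    rw [hd] at h1
    have hcl : Subring.closure ((locV V1 A.toSubring : Set K) ∪ Set.range y) ≤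
        V1.toSubring := closure_le_val V1 _ (locV_le V1 hAV1') _ (by
      rintro _ ⟨j, rfl⟩
      exact h (hyV j))
    have hloc' : IsLocalRing (locV V1
        (Subring.closure ((locV V1 A.toSubring : Set K) ∪ Set.range y))) :=
      isLocalRing_locV V1 hcl
    have h2 : (0 : WithBot ℕ∞) ≤ ringKrullDim (locV V1
        (Subring.closure ((locV V1 A.toSubring : Set K) ∪ Set.range y))) :=
      ringKrullDim_nonneg_of_nontrivial
    have h3 : ((t : ℕ) : WithBot ℕ∞) ≤ (d : ℕ) := by
      refine le_trans ?_ h1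
      have h4 := add_le_add_left h2 ((t : ℕ) : WithBot ℕ∞)
      rwa [zero_add] at h4
    exact_mod_cast h3
  obtain ⟨t, ⟨y, hyV, hy⟩, ht1⟩ : ∃ t, Q t ∧ ¬ Q (t + 1) := by
    by_contra hcon
    push Not at hcon
    have hall : ∀ t, Q t := by
      intro t
      induction t with
      | zero => exact hQ0
      | succ t ih => exact hcon t ih
    have := hQd (d + 1) (hall _)
    omega
  have key : ∀ z : K, z ∈ V → ∃ f : Polynomial (Algebra.adjoin A (Set.range y)),
        (∃ n, V1.valuation ((f.coeff n : Algebra.adjoin A (Set.range y)) : K) = 1) ∧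
        V1.valuation (Polynomial.aeval z f) < 1 := by
    intro z hz
    by_contra hcon
    refine ht1 ⟨Fin.cons z y, fun j => ?_, resIndep_cons y (fun j => h (hyV j)) hAV1 hy z hcon⟩
    refine Fin.cases ?_ (fun i => ?_) j
    · exact hz
    · exact hyV i
  refine ⟨t, y, hyV, fun z hz => ?_⟩
  by_cases hzV : z ∈ V
  · exact key z hzV
  have hz0 : z ≠ 0 := by
    rintro rfl
    exact hzV (zero_mem V)
  have hzi : z⁻¹ ∈ V := (V.mem_or_inv_mem z).resolve_left hzV
  obtain ⟨f, ⟨n, hn⟩, hf⟩ := key z⁻¹ hzi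
  refine ⟨f.reverse, ⟨Polynomial.revAt f.natDegree n, ?_⟩, ?_⟩
  · rw [Polynomial.coeff_reverse, Polynomial.revAt_invol]
    exact hn
  · let iv : Invertible z⁻¹ := invertibleOfNonzero (inv_ne_zero hz0)
    have h1 := Polynomial.eval₂_reverse_mul_pow
      (algebraMap (Algebra.adjoin A (Set.range y)) K) z⁻¹ f
    have h2 : (⅟(z⁻¹) : K) = z := by
      rw [invOf_eq_inv, inv_inv]
    rw [h2] at h1
    have h3 : Polynomial.aeval z f.reverse = Polynomial.aeval z⁻¹ f * z ^ f.natDegree := by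
      rw [Polynomial.aeval_def, Polynomial.aeval_def, ← h1, mul_assoc, ← mul_pow,
        inv_mul_cancel₀ hz0, one_pow, mul_one]
    rw [h3, map_mul, map_pow]
    exact lt_of_le_of_lt (mul_le_of_le_one_right' (pow_le_one₀ zero_le
      ((V1.valuation_le_one_iff _).2 hz))) hf

end maxi

end Pool.Agent.Lib.MXPB
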