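import Pool.Agent.Lib.MXP.CorA

/-!
# Module CorB: valuations of arbitrary rank with transcendence defect at most one

Every class of valuations which contains the trivial valuations and the valuations of rank one with
transcendence defect at most one, and which is closed under composition, contains the valuations of
arbitrary rank with transcendence defect at most one.
-/

open IsLocalRing

namespace Pool.Agent.Lib.MXPB

open TC
open Pool.Agent.Lib.MP_3029eb_ag Pool.Agent.Lib.MP_3029eb_ag.Abh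
open Pool.Agent.Lib.TE (top_one top_lt)

/-- the centre of a valuation -/
theorem exists_centre {R K : Type} [CommRing R] [Field K] [Algebra R K] (V : ValuationSubring K)
    (A : Subalgebra R K) (hAV : ∀ a : A, (a : K) ∈ V) :
    ∃ P : Ideal A, ∀ a : A, a ∈ P ↔ V.valuation (a : K) < 1 := by
  let i : A →+* V.toSubring := (A.subtype : A →+* K).codRestrict V.toSubring fun a => hAV a
  refine ⟨Ideal.comap i (maximalIdeal V), fun a => ?_⟩
  rw [Ideal.mem_comap]
  exact V.valuation_lt_one_iff _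

private theorem cb_zero {K : Type} [Field K] {V : ValuationSubring K}
    (hdep : ∀ z : Fin (0 + 1) → K, (∀ i, z i ≠ 0) →
      ∃ m : Fin (0 + 1) → ℤ, m ≠ 0 ∧ V.valuation (mon z m) = 1) (z : K) (hz : z ≠ 0) :
    V.valuation z = 1 := by
  obtain ⟨m, hm, h1⟩ := hdep (fun _ => z) (fun _ => hz)
  unfold mon at h1
  rw [Fin.prod_univ_one, map_zpow₀] at h1
  by_contra h2
  have h3 := (zpow_eq_one_iff_right₀ zero_le h2).1 h1
  apply hm
  funext i
  have hi : i = 0 := Fin.ext (by have := i.2; simp only [Fin.val_zero]; omega)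
  rw [hi, h3]
  rfl

/-- the model of a subfield of the residue field -/
private theorem cb_model {R κ L : Type} [CommRing R] [Field κ] [Field L] [Algebra R L]
    (W : ValuationSubring κ) (j : L →+* κ) (B : Subring κ) (hBW : B ≤ W.toSubring)
    (S : Finset κ) (hS : ∀ g ∈ S, g ∈ j.range)
    (hB : B = Subring.closure (((j.comp (algebraMap R L)).range : Set κ) ∪ (S : Set κ)))
    (halg : ∀ w : κ, AlgOver B w) :
    ∃ A : Subalgebra R L, A.FG ∧ (∀ a : A, (a : L) ∈ W.comap j) ∧ Algebra.IsAlgebraic A L ∧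
      ringKrullDim (locV (W.comap j) A.toSubring) = ringKrullDim (locV W B) := by
  classical
  have hinj : Function.Injective j := j.injective
  have him : (S.preimage j hinj.injOn).image j = S := by
    ext t
    rw [Finset.mem_image]
    constructor
    · rintro ⟨a, ha, rfl⟩
      exact Finset.mem_preimage.1 ha
    · intro ht
      obtain ⟨a, rfl⟩ := hS t ht
      exact ⟨a, Finset.mem_preimage.2 ht, rfl⟩
  have hmap : (Algebra.adjoin R ((S.preimage j hinj.injOn : Finset L) : Set L)).toSubring.map j =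
      B := by
    rw [hB, Algebra.adjoin_eq_ring_closure, RingHom.map_closure, Set.image_union]
    congr 2
    · ext z
      constructor
      · rintro ⟨_, ⟨c, rfl⟩, rfl⟩
        exact ⟨c, rfl⟩
      · rintro ⟨c, rfl⟩
        exact ⟨_, ⟨c, rfl⟩, rfl⟩
    · rw [← Finset.coe_image, him]
  subst hB
  generalize Subring.closure (((j.comp (algebraMap R L)).range : Set κ) ∪ (S : Set κ)) = B at *
  subst hmap
  refine ⟨Algebra.adjoin R ((S.preimage j hinj.injOn : Finset L) : Set L), ⟨_, rfl⟩,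
    fun a => hBW ⟨a, a.2, rfl⟩, ⟨fun l => ?_⟩, ?_⟩
  · generalize Algebra.adjoin R ((S.preimage j hinj.injOn : Finset L) : Set L) = A at *
    obtain ⟨f, hf0, hf⟩ := halg (j l)
    let e : A.toSubring ≃+* A.toSubring.map j := Subring.equivMapOfInjective _ j hinj
    let f' : Polynomial A := f.map (e.symm : A.toSubring.map j →+* A.toSubring)
    refine ⟨f', ?_, ?_⟩
    · exact (Polynomial.map_ne_zero_iff e.symm.injective).2 hf0
    · apply hinj
      rw [map_zero, ← hf, Polynomial.aeval_def, Polynomial.eval₂_map, Polynomial.hom_eval₂]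
      congr 1
      ext z
      show j ((e.symm z : A.toSubring) : L) = z
      have h1 : ((e (e.symm z) : A.toSubring.map j) : κ) = j ((e.symm z : A.toSubring) : L) := rfl
      rw [← h1, RingEquiv.apply_symm_apply]
  · rw [C2_locV_map]
    exact ringKrullDim_eq_of_ringEquiv (Subring.equivMapOfInjective _ j hinj)

private theorem cb_eval {K : Type} [Field K] (V1 : ValuationSubring K) (A0 : Subring K)
    (hA0 : A0 ≤ V1.toSubring) {z : K} (hz : z ∈ V1) (f : Polynomial A0) :
    Polynomial.eval₂ (im V1 A0).subtype (rs V1 z) (f.map (toIm V1 A0 hA0)) =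
      rs V1 (Polynomial.eval₂ A0.subtype z f) := by
  let incl : A0 →+* V1 := Subring.inclusion hA0
  have h1 : Polynomial.eval₂ A0.subtype z f =
      ((Polynomial.eval₂ incl (⟨z, hz⟩ : V1) f : V1) : K) :=
    (Polynomial.hom_eval₂ f incl V1.toSubring.subtype (⟨z, hz⟩ : V1)).symm
  rw [h1, rs_coe, Polynomial.hom_eval₂, Polynomial.eval₂_map, rs_eq hz]
  rfl

private theorem cb_alg {K : Type} [Field K] {V1 : ValuationSubring K} {A0 : Subring K}
    (hA0 : A0 ≤ V1.toSubring)
    (halg : ∀ z : K, z ∈ V1 → ∃ f : Polynomial A0,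
      (∃ n, V1.valuation ((f.coeff n : A0) : K) = 1) ∧
      V1.valuation (Polynomial.eval₂ A0.subtype z f) < 1) (w : ResidueField V1) :
    AlgOver (im V1 A0) w := by
  obtain ⟨u, rfl⟩ := residue_surjective w
  obtain ⟨f, ⟨n, hn⟩, hf⟩ := halg (u : K) u.2
  refine ⟨f.map (toIm V1 A0 hA0), ?_, ?_⟩
  · intro h0
    have h1 := congrArg (fun p => ((p.coeff n : im V1 A0) : ResidueField V1)) h0
    simp only [Polynomial.coeff_map, Polynomial.coeff_zero] at h1
    have h2 : ((toIm V1 A0 hA0 (f.coeff n) : im V1 A0) : ResidueField V1) =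
        rs V1 ((f.coeff n : A0) : K) := (rs_eq (hA0 (f.coeff n).2)).symm
    rw [h2] at h1
    exact rs_ne_zero hn h1
  · rw [← rs_coe, cb_eval V1 A0 hA0 u.2]
    have h3 : Polynomial.eval₂ A0.subtype (u : K) f ∈ V1 :=
      (V1.valuation_le_one_iff _).1 hf.le
    exact (rs_eq_zero h3).2 hf

private theorem cb_arith {a b c : WithBot ℕ∞} {d1 d2 r1 r2 : ℕ} (ha : a = (d1 : ℕ))
    (hb : b = (d2 : ℕ)) (h1 : ((r1 : ℕ) : WithBot ℕ∞) ≤ a) (h2 : ((r2 : ℕ) : WithBot ℕ∞) ≤ b)
    (hc : a + b ≤ c) (hd : c ≤ ((r1 + r2 + 1 : ℕ) : WithBot ℕ∞)) :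
    a ≤ ((r1 + 1 : ℕ) : WithBot ℕ∞) ∧ b ≤ ((r2 + 1 : ℕ) : WithBot ℕ∞) := by
  subst ha hb
  have h3 := hc.trans hd
  have h1' : r1 ≤ d1 := by exact_mod_cast h1
  have h2' : r2 ≤ d2 := by exact_mod_cast h2
  have h3' : d1 + d2 ≤ r1 + r2 + 1 := by exact_mod_cast h3
  constructor
  · have : d1 ≤ r1 + 1 := by omega
    exact_mod_cast this
  · have : d2 ≤ r2 + 1 := by omega
    exact_mod_cast this

/-- the statement of the induction on the rational rank -/
def CorAt {R : Type} [CommRing R]
    (C : ∀ (K : Type) [Field K] [Algebra R K], ValuationSubring K → ℕ → Prop) (r : ℕ) : Prop :=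
  ∀ (K : Type) [Field K] [Algebra R K] (V : ValuationSubring K),
    (∀ z : Fin (r + 1) → K, (∀ i, z i ≠ 0) →
      ∃ m : Fin (r + 1) → ℤ, m ≠ 0 ∧ V.valuation (mon z m) = 1) →
    ∀ A : Subalgebra R K, A.FG → (∀ a : A, (a : K) ∈ V) → Algebra.IsAlgebraic A K →
    ∀ x : Fin r → K, IndV V x →
    ringKrullDim (locV V A.toSubring) ≤ ((r + 1 : ℕ) : WithBot ℕ∞) → C K V r

theorem corAt {R : Type} [CommRing R] [IsNoetherianRing R]
    (C : ∀ (K : Type) [Field K] [Algebra R K], ValuationSubring K → ℕ → Prop)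
    (h0 : ∀ (K : Type) [Field K] [Algebra R K], C K ⊤ 0)
    (h1 : ∀ (K : Type) [Field K] [Algebra R K] (V : ValuationSubring K) (r : ℕ), 0 < r →
      (∀ a b : K, a ≠ 0 → V.valuation b < 1 → ∃ n : ℕ, V.valuation (b ^ n) ≤ V.valuation a) →
      (∀ z : Fin (r + 1) → K, (∀ i, z i ≠ 0) →
        ∃ m : Fin (r + 1) → ℤ, m ≠ 0 ∧ V.valuation (∏ i, z i ^ m i) = 1) →
      ∀ A : Subalgebra R K, A.FG → (∀ a : A, (a : K) ∈ V) → ∀ P : Ideal A,
      (∀ a : A, a ∈ P ↔ V.valuation (a : K) < 1) → Algebra.IsAlgebraic A K →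
      ∀ x : Fin r → K, (∀ i, x i ≠ 0) →
      (∀ m : Fin r → ℤ, V.valuation (∏ i, x i ^ m i) = 1 → m = 0) →
      P.height ≤ ((r + 1 : ℕ) : ℕ∞) → C K V r)
    (h2 : ∀ (K : Type) [Field K] [Algebra R K] (V1 V : ValuationSubring K)
      (W : ValuationSubring (ResidueField V1)) (G : Finset (ResidueField V1)) (r1 r2 : ℕ),
      V ≤ V1 → (∀ z : V1, residue V1 z ∈ W ↔ (z : K) ∈ V) → C K V1 r1 →
      (∀ (L : Type) [Field L] [Algebra R L] [Algebra.EssFiniteType R L]
        (j : L →+* ResidueField V1),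
        (∀ (c : R) (hc : algebraMap R K c ∈ V1),
          j (algebraMap R L c) = residue V1 ⟨algebraMap R K c, hc⟩) →
        (∀ g ∈ G, g ∈ j.range) → C L (W.comap j) r2) →
      C K V (r1 + r2)) (r : ℕ) : CorAt C r := by
  classical
  induction r using Nat.strong_induction_on with
  | _ r ih =>
  intro K _ _ V hdep A hfg hAV halg x hx hdim
  by_cases hr : r = 0
  · subst hr
    have hV : V = ⊤ := by
      rw [eq_top_iff]
      intro z _
      by_cases hz : z = 0
      · rw [hz]; exact zero_mem V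
      · exact (V.valuation_le_one_iff z).1 (cb_zero hdep z hz).le
    subst hV
    exact h0 K
  have hn : IsNoetherianRing A := isNoetherianRing_of_fg hfg
  by_cases harch : ∀ a b : K, a ≠ 0 → V.valuation b < 1 →
      ∃ n : ℕ, V.valuation (b ^ n) ≤ V.valuation a
  · obtain ⟨P, hP⟩ := exists_centre V A hAV
    refine h1 K V r (Nat.pos_of_ne_zero hr) harch hdep A hfg hAV P hP halg x hx.ne hx.indep ?_
    rw [cor_height V A hAV P hP] at hdim
    exact_mod_cast hdim
  push Not at harch
  obtain ⟨a, b, ha0, hb, hab⟩ := harch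
  have hb0 : b ≠ 0 := by
    rintro rfl
    have h3 := hab 1
    rw [pow_one, map_zero] at h3
    exact not_lt_zero h3
  obtain ⟨V1, V2, hVV2, hV21, hV1b, -, hV1m, -⟩ := exists_coarse V b hb0 hb
  have hVV1 : V ≤ V1 := hVV2.trans hV21
  have haV1 : a⁻¹ ∉ V1 := by
    intro h3
    obtain ⟨n, hn⟩ := (hV1m _).1 h3
    have h4 := (V.valuation_le_one_iff _).2 hn
    rw [map_mul, map_inv₀] at h4
    have hva : 0 < V.valuation a := by
      rw [zero_lt_iff]
      exact (Valuation.ne_zero_iff _).2 ha0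
    have h5 : V.valuation (b ^ n) ≤ V.valuation a := by
      calc V.valuation (b ^ n) = V.valuation a * ((V.valuation a)⁻¹ * V.valuation (b ^ n)) := by
            rw [← mul_assoc, mul_inv_cancel₀ hva.ne', one_mul]
        _ ≤ V.valuation a := mul_le_of_le_one_right' h4
    exact absurd h5 (not_le.2 (hab n))
  obtain ⟨r1, r2, x1, x2, hr12, hx1, hx2, hx2V, hx21⟩ := IndV_split hVV1 hx
  have hdep1 := dep_coarse hVV1 hr12 hdep x2 hx2 hx21
  have hdep2 := dep_res hVV1 hr12 hdep x1 hx1
  have hr1 : r1 ≠ 0 := by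
    rintro rfl
    exact haV1 ((V1.valuation_le_one_iff _).1 (cb_zero hdep1 _ (inv_ne_zero ha0)).le)
  have hr2 : r2 ≠ 0 := by
    rintro rfl
    have h3 := cb_zero hdep2 (rs V1 b) (rs_ne_zero hV1b)
    have hbV : b ∈ V := (V.valuation_le_one_iff b).1 hb.le
    rw [rs_resV_val hVV1 hbV] at h3
    exact hb.ne h3
  -- the new model
  have halg' : ∀ z : K, AlgOver A.toSubring z := fun z => halg.isAlgebraic z
  obtain ⟨t, y, hyV, hmax⟩ := exists_max hVV1 A hn (fun a => hVV1 (hAV a)) halg'
  obtain ⟨g0, hg0⟩ := hfg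
  set g : Finset K := g0 ∪ Finset.univ.image y with hg
  have hgr : (g : Set K) = (g0 : Set K) ∪ Set.range y := by
    rw [hg, Finset.coe_union, Finset.coe_image, Finset.coe_univ, Set.image_univ]
  have hAr : A.toSubring = Subring.closure (((algebraMap R K).range : Set K) ∪ (g0 : Set K)) := by
    rw [← hg0, Algebra.adjoin_eq_ring_closure]
    rfl
  have hA'r : (Algebra.adjoin R (g : Set K)).toSubring =
      Subring.closure (((algebraMap R K).range : Set K) ∪ (g : Set K)) := by
    rw [Algebra.adjoin_eq_ring_closure]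
    rfl
  have hA'A : (Algebra.adjoin R (g : Set K)).toSubring =
      Subring.closure ((A.toSubring : Set K) ∪ Set.range y) := by
    rw [hAr, A2_closure_closure, hA'r, hgr]
  have hfg' : (Algebra.adjoin R (g : Set K)).FG := ⟨g, rfl⟩
  have hAV' : A.toSubring ≤ V.toSubring := fun z hz => hAV ⟨z, hz⟩
  have hA'V : (Algebra.adjoin R (g : Set K)).toSubring ≤ V.toSubring := by
    rw [hA'A]
    refine closure_le_val V _ hAV' _ ?_
    rintro _ ⟨i, rfl⟩
    exact hyV i
  have hAA' : A.toSubring ≤ (Algebra.adjoin R (g : Set K)).toSubring := by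
    rw [hA'A]
    exact fun z hz => Subring.subset_closure (Or.inl hz)
  have hAA'2 : A ≤ Algebra.adjoin R (g : Set K) := hAA'
  have hadj : ∀ a : Algebra.adjoin A (Set.range y),
      (a : K) ∈ (Algebra.adjoin R (g : Set K)).toSubring := by
    intro a
    have h3 : (a : K) ∈ (Algebra.adjoin A (Set.range y)).toSubring := a.2
    rw [Algebra.adjoin_eq_ring_closure] at h3
    rw [hA'A]
    refine Subring.closure_mono (Set.union_subset_union_left _ ?_) h3
    rintro _ ⟨c, rfl⟩
    exact c.2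
  have hn1 : IsNoetherianRing A.toSubring := hn
  have hn2 : IsNoetherianRing (locV V A.toSubring) := isNoetherianRing_locV V
  -- the dimension does not increase
  have hd1 : ringKrullDim (locV V (Algebra.adjoin R (g : Set K)).toSubring) ≤
      ((r + 1 : ℕ) : WithBot ℕ∞) := by
    refine le_trans ?_ hdim
    have h3 := dim_alg V (locV V A.toSubring) (locV_le V hAV') (locV_locV V _)
      (Finset.univ.image y) (fun t ht => by
        obtain ⟨i, -, rfl⟩ := Finset.mem_image.1 ht
        exact ⟨hyV i, (halg' _).mono (le_locV V _)⟩)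
    rwa [locV_closure_locV le_rfl, Finset.coe_image, Finset.coe_univ, Set.image_univ,
      ← hA'A] at h3
  have hG1 : ∀ z ∈ g, z ∈ V := fun z hz => hA'V (by
    rw [hA'r]
    exact Subring.subset_closure (Or.inr hz))
  have hmax' : ∀ z : K, z ∈ V1 → ∃ f : Polynomial (Algebra.adjoin R (g : Set K)).toSubring,
      (∃ n, V1.valuation ((f.coeff n : (Algebra.adjoin R (g : Set K)).toSubring) : K) = 1) ∧
      V1.valuation (Polynomial.eval₂ (Algebra.adjoin R (g : Set K)).toSubring.subtype z f) <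
        1 := by
    intro z hz
    obtain ⟨f, ⟨n, hn⟩, hf⟩ := hmax z hz
    let i3 : Algebra.adjoin A (Set.range y) →+* (Algebra.adjoin R (g : Set K)).toSubring :=
      (algebraMap (Algebra.adjoin A (Set.range y)) K).codRestrict _ fun a => hadj a
    refine ⟨f.map i3, ⟨n, ?_⟩, ?_⟩
    · rw [Polynomial.coeff_map]
      exact hn
    · rw [Polynomial.eval₂_map]
      exact hf
  have halg1 : Algebra.IsAlgebraic (Algebra.adjoin R (g : Set K)) K :=
    ⟨fun z => (halg' z).mono hAA'⟩
  have hn3 : IsNoetherianRing (Algebra.adjoin R (g : Set K)).toSubring :=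
    isNoetherianRing_of_fg hfg'
  have hdep2' := hdep2
  clear hdep2 hmax hadj hdim hAA' hAA'2 hn1 hn2 hAr hgr hA'A
  have hA'gen := hA'r
  -- from now on `A'` is the new model
  generalize hAd : Algebra.adjoin R (g : Set K) = A' at *
  have hA'V1 : A'.toSubring ≤ V1.toSubring := hA'V.trans hVV1
  have halgκ := cb_alg hA'V1 hmax'
  have hn4 : IsNoetherianRing (locV V A'.toSubring) := isNoetherianRing_locV V
  have hn5 : IsNoetherianRing (locV V1 A'.toSubring) := isNoetherianRing_locV V1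
  have hDV : locV V A'.toSubring ≤ V.toSubring := locV_le V hA'V
  have hDl : locV V (locV V A'.toSubring) = locV V A'.toSubring := locV_locV V _
  have hn6 : IsNoetherianRing (im V1 (locV V A'.toSubring)) :=
    isNoetherianRing_im _ (hDV.trans hVV1)
  have hBV : im V1 (locV V A'.toSubring) ≤ (resV V V1 hVV1).toSubring := im_le_resV hVV1 _ hDV
  have hBl : locV (resV V V1 hVV1) (im V1 (locV V A'.toSubring)) = im V1 (locV V A'.toSubring) :=
    locV_im hVV1 _ hDV hDl
  have himD : im V1 (locV V A'.toSubring) = locV (resV V V1 hVV1) (im V1 A'.toSubring) :=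
    im_locV hVV1 _ hA'V
  have hsplit := dim_split hVV1 (locV V A'.toSubring) hDV
  rw [locV_locV_le hVV1] at hsplit
  obtain ⟨d1, hd1'⟩ := exists_nat_dim V1 (locV V1 A'.toSubring) (locV_le V1 hA'V1)
    (locV_locV V1 _)
  obtain ⟨d2, hd2'⟩ := exists_nat_dim (resV V V1 hVV1) (im V1 (locV V A'.toSubring)) hBV hBl
  have hi1 := cor_ineq V1 (locV V1 A'.toSubring) (locV_le V1 hA'V1) (locV_locV V1 _)
    (fun z => (show AlgOver A'.toSubring z from halg1.isAlgebraic z).mono (le_locV V1 _)) x1 hx1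
  have hx2r : IndV (resV V V1 hVV1) fun i => rs V1 (x2 i) := by
    have h3 := IndV_res hVV1 hx2 hx21 (fun i => hVV1 (hx2V i))
    have h4 : (fun i => rs V1 (x2 i)) = fun i => residue V1 ⟨x2 i, hVV1 (hx2V i)⟩ :=
      funext fun i => rs_eq _
    rw [h4]
    exact h3
  have hi2 := cor_ineq (resV V V1 hVV1) (im V1 (locV V A'.toSubring)) hBV hBl
    (fun w => (halgκ w).mono (by
      rw [himD]
      exact le_locV _ _)) _ hx2r
  rw [← hr12] at hd1
  obtain ⟨hl1, hl2⟩ := cb_arith hd1' hd2' hi1 hi2 hsplit hd1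
  rw [← hr12]
  refine h2 K V1 V (resV V V1 hVV1) (g.image (rs V1) ∪ Finset.univ.image fun i => rs V1 (x2 i))
    r1 r2 hVV1 (fun z => ?_) ?_ ?_
  · rw [← rs_coe]
    exact rs_mem_resV hVV1 z.2
  · exact ih r1 (by omega) K V1 hdep1 A' hfg' (fun a => hA'V1 a.2) halg1 x1 hx1 hl1
  intro L _ _ _ j hj hG
  have hRV1 : ∀ c : R, algebraMap R K c ∈ V1 := fun c => hA'V1 (A'.algebraMap_mem c)
  have hrange : im V1 (algebraMap R K).range = (j.comp (algebraMap R L)).range := by
    ext w
    rw [C1_mem_im]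
    constructor
    · rintro ⟨u, ⟨c, hc⟩, rfl⟩
      refine ⟨c, ?_⟩
      rw [RingHom.comp_apply, hj c (hRV1 c)]
      congr 1
      exact Subtype.ext hc
    · rintro ⟨c, rfl⟩
      exact ⟨⟨algebraMap R K c, hRV1 c⟩, ⟨c, rfl⟩, by rw [RingHom.comp_apply, hj c (hRV1 c)]⟩
  have hBgen : im V1 A'.toSubring = Subring.closure
      (((j.comp (algebraMap R L)).range : Set (ResidueField V1)) ∪
        ((g.image (rs V1) : Finset (ResidueField V1)) : Set (ResidueField V1))) := by
    rw [hA'gen, im_closure V1 (algebraMap R K).range (by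
      rintro _ ⟨c, rfl⟩
      exact hRV1 c) (g : Set K) (fun z hz => hVV1 (hG1 z hz)), hrange]
    congr 2
    ext w
    rw [Finset.coe_image]
    constructor
    · rintro ⟨z, hz, rfl⟩
      exact ⟨z, hz, rs_eq _⟩
    · rintro ⟨z, hz, rfl⟩
      exact ⟨z, hz, (rs_eq _).symm⟩
  obtain ⟨A2, hfg2, hA2V, halg2, hdim2⟩ := cb_model (R := R) (resV V V1 hVV1) j
    (im V1 A'.toSubring) (im_le_resV hVV1 _ hA'V) (g.image (rs V1))
    (fun w hw => hG w (Finset.mem_union_left _ hw)) hBgen halgκ
  have hx3 : ∀ i, ∃ l : L, j l = rs V1 (x2 i) := fun i =>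
    hG _ (Finset.mem_union_right _ (Finset.mem_image_of_mem _ (Finset.mem_univ i)))
  choose x3 hx3 using hx3
  have hjmon : ∀ {n : ℕ} (z : Fin n → L) (m : Fin n → ℤ), j (mon z m) = mon (fun i => j (z i)) m :=
    fun z m => map_monF j z m
  refine ih r2 (by omega) L ((resV V V1 hVV1).comap j) ?_ A2 hfg2 hA2V halg2 x3 ⟨?_, ?_⟩ ?_
  · intro z hz
    obtain ⟨m, hm, h3⟩ := hdep2' (fun i => j (z i)) (fun i => (map_ne_zero j).2 (hz i))
    exact ⟨m, hm, by rw [C2_comap_val_one, hjmon]; exact h3⟩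
  · intro i hi
    apply hx2r.ne i
    rw [← hx3 i, hi, map_zero]
  · intro m hm
    rw [C2_comap_val_one, hjmon] at hm
    apply hx2r.indep m
    have h3 : (fun i => j (x3 i)) = fun i => rs V1 (x2 i) := funext hx3
    rwa [h3] at hm
  · rw [hdim2, ← himD]
    exact hl2

end Pool.Agent.Lib.MXPB
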