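import Pool.Agent.Lib.MXP.CorB
import Pool.Agent.Lib.MX.QBase
import Pool.Agent.Lib.MP_3029eb_ag.ImpComplIso

/-!
# Module CorC: local uniformization in transcendence defect at most one, in all characteristics and
all ranks
-/

open IsLocalRing

namespace Pool.Agent.Lib.MXPB

open TC
open Pool.Agent.Lib.MP_3029eb_ag Pool.Agent.Lib.MP_3029eb_ag.Abh
open Pool.Agent.Lib.TE (top_one top_lt)

section

variable {R K : Type} [CommRing R] [Field K] [Algebra R K]

/-- rank one, transcendence defect at most one modulo the implicit prime, every characteristic -/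
theorem base_defX (hR : GoodBase R) (V : ValuationSubring K)
    (harch : ∀ a b : K, a ≠ 0 → V.valuation b < 1 → ∃ n : ℕ, V.valuation (b ^ n) ≤ V.valuation a)
    (A0 : Subalgebra R K) (hfg : A0.FG)
    (hAV : ∀ a : A0, (a : K) ∈ V) (P : Ideal A0) [P.IsPrime]
    (hP : ∀ a : A0, a ∈ P ↔ V.valuation (a : K) < 1) (halg : Algebra.IsAlgebraic A0 K)
    {r s : ℕ} (hr : 0 < r) (x : Fin r → K) (hx0 : ∀ i, x i ≠ 0)
    (hx : ∀ m : Fin r → ℤ, V.valuation (∏ i, x i ^ m i) = 1 → m = 0)
    (hrank : ∀ z : Fin (r + 1) → K, (∀ i, z i ≠ 0) →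
      ∃ m : Fin (r + 1) → ℤ, m ≠ 0 ∧ V.valuation (∏ i, z i ^ m i) = 1)
    (y : Fin s → K) (hyV : ∀ j, y j ∈ V)
    (hy : ∀ p : MvPolynomial (Fin s) A0, V.valuation (MvPolynomial.aeval y p) < 1 →
      ∀ m, V.valuation ((MvPolynomial.coeff m p : A0) : K) < 1)
    (hdim : ringKrullDim (AdicCompletion (maximalIdeal (Localization.AtPrime P))
      (Localization.AtPrime P) ⧸ (⨅ d : {d : A0 // d ≠ 0}, Ideal.span
    ((fun a : A0 => algebraMap (Localization.AtPrime P)
      (AdicCompletion (maximalIdeal (Localization.AtPrime P)) (Localization.AtPrime P))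
      (algebraMap A0 (Localization.AtPrime P) a)) ''
      {a : A0 | V.valuation (a : K) ≤ V.valuation ((d : A0) : K)}))) ≤
      ((r + s + 1 : ℕ) : WithBot ℕ∞)) : Unif (algebraMap R K) V r := by
  have hnat : ∀ n : ℕ, residue V (⟨(n : K), natCast_mem V n⟩ : V) =
      ((n : ℕ) : ResidueField V) := by
    intro n
    rw [← map_natCast (residue V) n]
    congr 1
  obtain ⟨q, hq⟩ := CharP.exists (ResidueField V)
  rcases CharP.char_is_prime_or_zero (ResidueField V) q with hqp | hq0
  · have hqV : V.valuation (q : K) < 1 := by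
      have h1 : residue V (⟨(q : K), natCast_mem V q⟩ : V) = 0 :=
        (hnat q).trans (CharP.cast_eq_zero _ q)
      rw [residue_eq_zero_iff] at h1
      exact (V.valuation_lt_one_iff _).1 h1
    by_cases hq1 : (q : K) = 0
    · exact base_defP q hqp hR V harch A0 hfg hAV P hP halg hr x hx0 hx hrank y hyV hy
        (Or.inl hq1) hdim
    · have hf : Fact q.Prime := ⟨hqp⟩
      exact MXB.base_defM q hR V harch A0 hfg hAV P hP halg hr x hx0 hx hrank y hyV hy
        hq1 hqV hdim
  · subst hq0
    have hc : CharZero (ResidueField V) := CharP.charP_to_charZero (ResidueField V)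
    refine base_defP 2 Nat.prime_two hR V harch A0 hfg hAV P hP halg hr x hx0 hx hrank y hyV hy
      (Or.inr fun n hn => ?_) hdim
    refine le_antisymm ((V.valuation_le_one_iff _).2 (natCast_mem V n)) (not_lt.1 fun h => ?_)
    have h1 := hnat n
    have h2 : residue V (⟨(n : K), natCast_mem V n⟩ : V) = 0 := by
      rw [residue_eq_zero_iff]
      exact (V.valuation_lt_one_iff _).2 h
    rw [h1, Nat.cast_eq_zero] at h2
    exact hn h2

/-- the dimension of a quotient of the completion -/
theorem dim_quot_le (A : Subalgebra R K) (hn : IsNoetherianRing A) (P : Ideal A) [P.IsPrime]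
    (I : Ideal (AdicCompletion (maximalIdeal (Localization.AtPrime P)) (Localization.AtPrime P)))
    {n : ℕ} (h : P.height ≤ ((n : ℕ) : ℕ∞)) :
    ringKrullDim (AdicCompletion (maximalIdeal (Localization.AtPrime P))
      (Localization.AtPrime P) ⧸ I) ≤ ((n : ℕ) : WithBot ℕ∞) := by
  have hn3 : IsNoetherianRing (Localization.AtPrime P) :=
    IsLocalization.isNoetherianRing P.primeCompl (Localization.AtPrime P) hn
  refine (ringKrullDim_quotient_le I).trans ?_
  refine (ringKrullDim_adicCompletion_le (Localization.AtPrime P)).trans ?_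
  rw [IsLocalization.AtPrime.ringKrullDim_eq_height P (Localization.AtPrime P)]
  exact_mod_cast h

/-- Valuations of arbitrary rank with transcendence defect at most one: every class which contains
the trivial valuations and the valuations of rank one with transcendence defect at most one and which
is closed under composition contains them. -/
theorem almost_mem {R : Type} [CommRing R] [IsNoetherianRing R]
    (C : ∀ (K : Type) [Field K] [Algebra R K], ValuationSubring K → ℕ → Prop)
    (hC : ∀ r, CorAt C r) {K : Type} [Field K] [Algebra R K]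
    (V : ValuationSubring K) (A : Subalgebra R K) (hfg : A.FG) (hAV : ∀ a : A, (a : K) ∈ V)
    (P : Ideal A) (hP : ∀ a : A, a ∈ P ↔ V.valuation (a : K) < 1)
    (halg : Algebra.IsAlgebraic A K) {r s : ℕ}
    (hrank : ∀ z : Fin (r + 1) → K, (∀ i, z i ≠ 0) →
      ∃ m : Fin (r + 1) → ℤ, m ≠ 0 ∧ V.valuation (∏ i, z i ^ m i) = 1)
    (x : Fin r → K) (hx0 : ∀ i, x i ≠ 0)
    (hx : ∀ m : Fin r → ℤ, V.valuation (∏ i, x i ^ m i) = 1 → m = 0)
    (y : Fin s → K) (hyV : ∀ j, y j ∈ V)
    (hy : ∀ p : MvPolynomial (Fin s) A, V.valuation (MvPolynomial.aeval y p) < 1 →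
      ∀ m, V.valuation ((MvPolynomial.coeff m p : A) : K) < 1)
    (hht : P.height ≤ ((r + s + 1 : ℕ) : ℕ∞)) : C K V r := by
  classical
  have hn : IsNoetherianRing A := isNoetherianRing_of_fg hfg
  have hn1 : IsNoetherianRing A.toSubring := hn
  have hn2 : IsNoetherianRing (locV V A.toSubring) := isNoetherianRing_locV V
  have hAV' : A.toSubring ≤ V.toSubring := fun z hz => hAV ⟨z, hz⟩
  obtain ⟨g0, hg0⟩ := hfg
  set g : Finset K := g0 ∪ Finset.univ.image y with hg
  have hgr : (g : Set K) = (g0 : Set K) ∪ Set.range y := by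
    rw [hg, Finset.coe_union, Finset.coe_image, Finset.coe_univ, Set.image_univ]
  have hAr : A.toSubring = Subring.closure (((algebraMap R K).range : Set K) ∪ (g0 : Set K)) := by
    rw [← hg0, Algebra.adjoin_eq_ring_closure]
    rfl
  have hA'A : (Algebra.adjoin R (g : Set K)).toSubring =
      Subring.closure ((A.toSubring : Set K) ∪ Set.range y) := by
    have h1 : (Algebra.adjoin R (g : Set K)).toSubring =
        Subring.closure (((algebraMap R K).range : Set K) ∪ (g : Set K)) := by
      rw [Algebra.adjoin_eq_ring_closure]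
      rfl
    rw [hAr, A2_closure_closure, h1, hgr]
  have hA'V : (Algebra.adjoin R (g : Set K)).toSubring ≤ V.toSubring := by
    rw [hA'A]
    refine closure_le_val V _ hAV' _ ?_
    rintro _ ⟨i, rfl⟩
    exact hyV i
  have hAA' : A.toSubring ≤ (Algebra.adjoin R (g : Set K)).toSubring := by
    rw [hA'A]
    exact fun z hz => Subring.subset_closure (Or.inl hz)
  have halg' : ∀ z : K, AlgOver A.toSubring z := fun z => halg.isAlgebraic z
  refine hC r K V hrank (Algebra.adjoin R (g : Set K)) ⟨g, rfl⟩ (fun a => hA'V a.2)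
    ⟨fun z => (halg' z).mono hAA'⟩ x ⟨hx0, hx⟩ ?_
  let i2 : A.toSubring →+* A := A.toSubring.subtype.codRestrict A fun a => a.2
  have hres : ResIndep V (locV V A.toSubring) y := by
    refine resIndep_locV V _ hAV' fun q hq m => ?_
    have h1 := hy (MvPolynomial.map i2 q) (by
      rw [MvPolynomial.aeval_def, MvPolynomial.eval₂_map]
      exact hq) m
    rw [MvPolynomial.coeff_map] at h1
    exact h1
  have h1 := dim_alg_res V (locV V A.toSubring) (locV_le V hAV') (locV_locV V _) y
    (fun j => ⟨hyV j, (halg' _).mono (le_locV V _)⟩) hres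
  rw [locV_closure_locV le_rfl, ← hA'A, cor_height V A hAV P hP] at h1
  have h2 : ((P.height : ℕ∞) : WithBot ℕ∞) ≤ ((r + s + 1 : ℕ) : WithBot ℕ∞) := by
    exact_mod_cast hht
  have h3 := h1.trans h2
  have h4 : ringKrullDim (locV V (Algebra.adjoin R (g : Set K)).toSubring) +
      ((s : ℕ) : WithBot ℕ∞) ≤ ((r + 1 : ℕ) : WithBot ℕ∞) + ((s : ℕ) : WithBot ℕ∞) := by
    refine h3.trans (le_of_eq ?_)
    rw [← Nat.cast_add]
    congr 1
    omega
  have hfg' : (Algebra.adjoin R (g : Set K)).FG := ⟨g, rfl⟩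
  have hn3 : IsNoetherianRing (Algebra.adjoin R (g : Set K)).toSubring :=
    isNoetherianRing_of_fg hfg'
  have hn4 : IsNoetherianRing (locV V (Algebra.adjoin R (g : Set K)).toSubring) :=
    isNoetherianRing_locV V
  obtain ⟨d, hd⟩ := exists_nat_dim V (locV V (Algebra.adjoin R (g : Set K)).toSubring)
    (locV_le V hA'V) (locV_locV V _)
  rw [hd] at h4 ⊢
  have h5 : d + s ≤ r + 1 + s := by exact_mod_cast h4
  have h6 : d ≤ r + 1 := by omega
  exact_mod_cast h6

/-- arbitrary rank, transcendence defect at most one, every characteristic -/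
theorem base_almost (hR : GoodBase R) (V : ValuationSubring K)
    (A : Subalgebra R K) (hfg : A.FG) (hAV : ∀ a : A, (a : K) ∈ V)
    (P : Ideal A) (hP : ∀ a : A, a ∈ P ↔ V.valuation (a : K) < 1)
    (halg : Algebra.IsAlgebraic A K) {r s : ℕ}
    (hrank : ∀ z : Fin (r + 1) → K, (∀ i, z i ≠ 0) →
      ∃ m : Fin (r + 1) → ℤ, m ≠ 0 ∧ V.valuation (∏ i, z i ^ m i) = 1)
    (x : Fin r → K) (hx0 : ∀ i, x i ≠ 0)
    (hx : ∀ m : Fin r → ℤ, V.valuation (∏ i, x i ^ m i) = 1 → m = 0)
    (y : Fin s → K) (hyV : ∀ j, y j ∈ V)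
    (hy : ∀ p : MvPolynomial (Fin s) A, V.valuation (MvPolynomial.aeval y p) < 1 →
      ∀ m, V.valuation ((MvPolynomial.coeff m p : A) : K) < 1)
    (hht : P.height ≤ ((r + s + 1 : ℕ) : ℕ∞)) : Unif (algebraMap R K) V r := by
  have hRn : IsNoetherianRing R := hR.1
  refine almost_mem (R := R) (fun K _ _ V r => Unif (algebraMap R K) V r) ?_ V A hfg hAV P hP
    halg hrank x hx0 hx y hyV hy hht
  refine corAt _ (fun K _ _ => Unif_top _) ?_ ?_
  · intro K _ _ V r hr harch hrank A hfg hAV P hP halg x hx0 hx hht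
    have hPp : P.IsPrime := by
      refine ⟨?_, ?_⟩
      · rw [Ne, Ideal.eq_top_iff_one, hP, OneMemClass.coe_one, map_one]
        exact lt_irrefl 1
      · intro a b hab
        by_contra hcon
        push Not at hcon
        have hval : ∀ a : A, a ∉ P → V.valuation (a : K) = 1 := by
          intro a ha
          rw [hP, not_lt] at ha
          exact le_antisymm ((V.valuation_le_one_iff _).2 (hAV a)) ha
        rw [hP, MulMemClass.coe_mul, map_mul, hval a hcon.1, hval b hcon.2, one_mul] at hab
        exact lt_irrefl 1 hab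
    refine base_defX hR V harch A hfg hAV P hP halg hr x hx0 hx hrank (fun j : Fin 0 => j.elim0)
      (fun j => j.elim0) (fun p hp m => ?_)
      (dim_quot_le A (isNoetherianRing_of_fg hfg) P _ (by simpa using hht))
    have hm : m = 0 := Subsingleton.elim _ _
    subst hm
    rw [MvPolynomial.eq_C_of_isEmpty p, MvPolynomial.aeval_C] at hp
    exact hp
  · intro K _ _ V1 V W G r1 r2 hle hW ih1 ih2
    have hW' : W = resV V V1 hle := by
      ext w
      rw [C1_mem_resV]
      constructor
      · intro hw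
        obtain ⟨z, rfl⟩ := residue_surjective w
        exact ⟨z, (hW z).1 hw, rfl⟩
      · rintro ⟨z, hz, rfl⟩
        exact (hW z).2 hz
    refine Pool.Agent.Lib.TE.unif_comp (algebraMap R K) hle G ih1 ?_
    intro L _ ψ j hψ hj hG
    let _ : Algebra R L := ψ.toAlgebra
    have h1 : Algebra.EssFiniteType R L := hψ
    have h2 := ih2 L j (fun c hc => by
      obtain ⟨hc', h3⟩ := hj c
      exact h3) hG
    rw [hW'] at h2
    exact h2

end

end Pool.Agent.Lib.MXPB
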