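import Pool.Agent.Lib.MXP.CorC

/-!
# Module CorD: local uniformization of domains essentially of finite type at valuations of arbitrary
rank with transcendence defect at most one
-/

open IsLocalRing

namespace Pool.Agent.Lib.MXPB

open TC
open Pool.Agent.Lib.MP_3029eb_ag Pool.Agent.Lib.MP_3029eb_ag.Abh

theorem exists_model {R0 R K : Type} [CommRing R0] [CommRing R] [IsDomain R]
    [Algebra R0 R] [Algebra.EssFiniteType R0 R] [Field K] [Algebra R K] [IsFractionRing R K]
    [Algebra R0 K] [IsScalarTower R0 R K]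
    (V : ValuationSubring K) (hRV : ∀ a : R, algebraMap R K a ∈ V) (P0 : Ideal R) [P0.IsPrime]
    (hP0 : ∀ a : R, a ∈ P0 ↔ V.valuation (algebraMap R K a) < 1) :
    ∃ A : Subalgebra R0 K, A.FG ∧ (∀ a : A, ∃ b : R, algebraMap R K b = a) ∧
      Algebra.IsAlgebraic A K ∧
      ringKrullDim (locV V A.toSubring) = ((P0.height : ℕ∞) : WithBot ℕ∞) := by
  classical
  have hinj : Function.Injective (algebraMap R K) := IsFractionRing.injective R K
  obtain ⟨σ, hσ⟩ := (Algebra.essFiniteType_iff R0 R).1 inferInstance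
  have hfg : (Algebra.adjoin R0 (σ : Set R)).FG := ⟨σ, rfl⟩
  have hmem : ∀ b ∈ Algebra.adjoin R0 (σ : Set R), algebraMap R K b ∈
      (Algebra.adjoin R0 (σ : Set R)).map (IsScalarTower.toAlgHom R0 R K) :=
    fun b hb => ⟨b, hb, rfl⟩
  have hle : (algebraMap R K).range ≤ V.toSubring := by
    rintro _ ⟨r, rfl⟩; exact hRV r
  have hunit : ∀ t : R, IsUnit t → V.valuation (algebraMap R K t) = 1 := by
    intro t ht
    obtain ⟨u, hu⟩ := ht.exists_right_inv
    refine (C1_val_one_iff V _).2 ⟨hRV t, ?_, ?_⟩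
    · have h1 : (algebraMap R K t)⁻¹ = algebraMap R K u :=
        inv_eq_of_mul_eq_one_right (by rw [← map_mul, hu, map_one])
      rw [h1]
      exact hRV u
    · intro h0
      rw [map_eq_zero_iff _ hinj] at h0
      rw [h0, zero_mul] at hu
      exact zero_ne_one hu
  have hAR : ∀ a ∈ (Algebra.adjoin R0 (σ : Set R)).map (IsScalarTower.toAlgHom R0 R K),
      ∃ b : R, algebraMap R K b = a := by
    rintro _ ⟨b, -, rfl⟩
    exact ⟨b, rfl⟩
  refine ⟨(Algebra.adjoin R0 (σ : Set R)).map (IsScalarTower.toAlgHom R0 R K), hfg.map _,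
    fun a => hAR a a.2, ?_, ?_⟩
  · refine ⟨fun z => ?_⟩
    obtain ⟨⟨a, b⟩, hab⟩ := IsLocalization.surj (nonZeroDivisors R) z
    obtain ⟨t1, ht1, hu1, h1⟩ := hσ a
    obtain ⟨t2, ht2, hu2, h2⟩ := hσ b
    have hb0 : (b : R) ≠ 0 := nonZeroDivisors.ne_zero b.2
    let c1 : (Algebra.adjoin R0 (σ : Set R)).map (IsScalarTower.toAlgHom R0 R K) :=
      ⟨_, hmem _ (mul_mem ht1 h2)⟩
    let c0 : (Algebra.adjoin R0 (σ : Set R)).map (IsScalarTower.toAlgHom R0 R K) :=
      ⟨_, hmem _ (mul_mem h1 ht2)⟩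
    have hc1 : c1 ≠ 0 := by
      intro h0
      have h3 : algebraMap R K (t1 * (b * t2)) = 0 := congrArg Subtype.val h0
      rw [map_eq_zero_iff _ hinj] at h3
      exact mul_ne_zero hu1.ne_zero (mul_ne_zero hb0 hu2.ne_zero) h3
    refine ⟨Polynomial.C c1 * Polynomial.X - Polynomial.C c0, ?_, ?_⟩
    · intro h0
      have h3 : (Polynomial.C c1 * Polynomial.X - Polynomial.C c0).coeff 1 = c1 := by
        simp only [Polynomial.coeff_sub, Polynomial.coeff_C_mul, Polynomial.coeff_X_one,
          Polynomial.coeff_C_succ, mul_one, sub_zero]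
      rw [h0, Polynomial.coeff_zero] at h3
      exact hc1 h3.symm
    · rw [map_sub, map_mul, Polynomial.aeval_C, Polynomial.aeval_X, Polynomial.aeval_C]
      show algebraMap R K (t1 * (b * t2)) * z - algebraMap R K (a * t1 * t2) = 0
      have hab' : z * algebraMap R K b = algebraMap R K a := hab
      rw [map_mul, map_mul, map_mul, map_mul, ← hab']
      ring
  · have hloc : locV V ((Algebra.adjoin R0 (σ : Set R)).map
        (IsScalarTower.toAlgHom R0 R K)).toSubring = locV V (algebraMap R K).range := by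
      apply le_antisymm
      · apply locV_mono
        intro a ha
        obtain ⟨b, hb⟩ := hAR a ha
        exact ⟨b, hb⟩
      · rw [← locV_locV V ((Algebra.adjoin R0 (σ : Set R)).map
          (IsScalarTower.toAlgHom R0 R K)).toSubring]
        apply locV_mono
        rintro _ ⟨b, rfl⟩
        obtain ⟨t, ht, hu, h1⟩ := hσ b
        exact ⟨_, hmem _ h1, _, hmem _ ht, hunit t hu, (map_mul _ _ _).symm⟩
    rw [hloc]
    set A1 : Subring K := locV V (algebraMap R K).range with hA1
    have hRA1 : (algebraMap R K).range ≤ A1 := le_locV V _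
    let i1 : R →+* A1 := (algebraMap R K).codRestrict _ fun a => hRA1 ⟨a, rfl⟩
    let _ : Algebra R A1 := i1.toAlgebra
    have hmap : ∀ a : R, ((algebraMap R A1 a : A1) : K) = algebraMap R K a := fun a => rfl
    have hc : ∀ b : R, b ∈ P0.primeCompl ↔ V.valuation (algebraMap R K b) = 1 := by
      intro b
      rw [Ideal.mem_primeCompl_iff, hP0, not_lt]
      exact ⟨fun h1 => le_antisymm ((V.valuation_le_one_iff _).2 (hRV b)) h1, fun h1 => h1.ge⟩
    have : IsLocalization.AtPrime A1 P0 :=
      { map_units := by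
          rintro ⟨b, hb⟩
          have hb' := (hc b).1 hb
          have hb0 : algebraMap R K b ≠ 0 := ((C1_val_one_iff V _).1 hb').2.2
          have hmem : (algebraMap R K b)⁻¹ ∈ A1 :=
            ⟨1, one_mem _, algebraMap R K b, ⟨b, rfl⟩, hb', inv_mul_cancel₀ hb0⟩
          exact IsUnit.of_mul_eq_one ⟨(algebraMap R K b)⁻¹, hmem⟩
            (Subtype.ext (mul_inv_cancel₀ hb0))
        surj := by
          rintro ⟨z, _, ⟨a, rfl⟩, _, ⟨b, rfl⟩, hb1, hab⟩
          exact ⟨(a, ⟨b, (hc b).2 hb1⟩), Subtype.ext hab⟩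
        exists_of_eq := by
          intro x y hxy
          refine ⟨1, ?_⟩
          have : x = y := hinj (by rw [← hmap x, ← hmap y, hxy])
          rw [this] }
    exact IsLocalization.AtPrime.ringKrullDim_eq_height P0 A1

/-- domains essentially of finite type over the base -/
theorem almost_E {R0 R K : Type} [CommRing R0] [CommRing R] [IsDomain R]
    [Algebra R0 R] [Algebra.EssFiniteType R0 R] [Field K] [Algebra R K] [IsFractionRing R K]
    [Algebra R0 K] [IsScalarTower R0 R K] (hR0 : GoodBase R0)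
    (V : ValuationSubring K) (hRV : ∀ a : R, algebraMap R K a ∈ V) (P0 : Ideal R) [P0.IsPrime]
    (hP0 : ∀ a : R, a ∈ P0 ↔ V.valuation (algebraMap R K a) < 1) {r s : ℕ}
    (hrank : ∀ z : Fin (r + 1) → K, (∀ i, z i ≠ 0) →
      ∃ m : Fin (r + 1) → ℤ, m ≠ 0 ∧ V.valuation (∏ i, z i ^ m i) = 1)
    (x : Fin r → K) (hx0 : ∀ i, x i ≠ 0)
    (hx : ∀ m : Fin r → ℤ, V.valuation (∏ i, x i ^ m i) = 1 → m = 0)
    (y : Fin s → K) (hyV : ∀ j, y j ∈ V)
    (hy : ∀ p : MvPolynomial (Fin s) R, V.valuation (MvPolynomial.aeval y p) < 1 →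
      ∀ m, MvPolynomial.coeff m p ∈ P0)
    (hht : P0.height ≤ ((r + s + 1 : ℕ) : ℕ∞)) : Unif (algebraMap R0 K) V r := by
  have hinj : Function.Injective (algebraMap R K) := IsFractionRing.injective R K
  obtain ⟨A, hfg, hAR, halg, hdim⟩ := exists_model (R0 := R0) V hRV P0 hP0
  have hAV : ∀ a : A, (a : K) ∈ V := by
    intro a
    obtain ⟨b, hb⟩ := hAR a
    rw [← hb]
    exact hRV b
  obtain ⟨P, hP⟩ := exists_centre V A hAV
  -- the homomorphism from `A` to `R`
  choose f hf using hAR
  let F : A →+* R :=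
    { toFun := f
      map_one' := hinj (by rw [hf, map_one]; rfl)
      map_mul' := fun a b => hinj (by rw [hf, map_mul, hf, hf]; rfl)
      map_zero' := hinj (by rw [hf, map_zero]; rfl)
      map_add' := fun a b => hinj (by rw [hf, map_add, hf, hf]; rfl) }
  have hF : (algebraMap R K).comp F = algebraMap A K := RingHom.ext fun a => hf a
  refine base_almost hR0 V A hfg hAV P hP halg hrank x hx0 hx y hyV (fun p hp m => ?_) ?_
  · have h1 := hy (MvPolynomial.map F p) (by
      rw [MvPolynomial.aeval_def, MvPolynomial.eval₂_map, hF]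
      exact hp) m
    rw [MvPolynomial.coeff_map, hP0] at h1
    rw [← hf]
    exact h1
  · rw [cor_height V A hAV P hP] at hdim
    have h1 : P.height = P0.height := by exact_mod_cast hdim
    rw [h1]
    exact hht

end Pool.Agent.Lib.MXPB
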