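import Pool.Agent.Lib.MXP.GoodExt

set_option autoImplicit false

/-!
# Module MX.DedX: independence of the automorphisms modulo the maximal ideal

Port of `Pool/Agent/Lib/TU/Dedek.lean` (`dedekU`), with `HO` replaced by the stable ring `A`.
`n = card Γ`.  `s_j := ∑_σ σ(ζ)^j u_σ = ∑_σ σ(ζ^j) u_σ`, elements of `A`.  `∏_(τ ≠ 1) (T - τ ζ) = ∑ q_j T^j`, `q_j ∈ A`: `∑ q_j s_j = u_1 ∏_(τ ≠ 1) (ζ - τ ζ)` has
norm one, so some `‖s_j‖ = 1`: take `b = ζ^j`.
-/

namespace Pool.Agent.Lib.MXP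

open Pool.Agent.Lib.MP_3029eb_ag Pool.Agent.Lib.MP_3029eb_ag.Abh Pool.Agent.Lib.TDO
open Pool.Agent.Lib.TU (Mt)

variable {E W : Type} [Field E] [NormedField W] [IsUltrametricDist W] [Algebra E W] {p r : ℕ}
  {S : IntermediateField E W}

private theorem DedX_sum_lt {W : Type} [NormedField W] [IsUltrametricDist W] {ι : Type}
    (S : Finset ι) (f : ι → W) (h : ∀ i ∈ S, ‖f i‖ < 1) : ‖∑ i ∈ S, f i‖ < 1 := by
  classical
  induction S using Finset.induction_on with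
  | empty => simp
  | insert a S ha ih =>
    rw [Finset.sum_insert ha]
    refine lt_of_le_of_lt (IsUltrametricDist.norm_add_le_max _ _)
      (max_lt (h a (Finset.mem_insert_self _ _)) (ih fun i hi => ?_))
    exact h i (Finset.mem_insert_of_mem hi)

theorem dedekX {Γ : Type} [Group Γ] [Fintype Γ] {L L' : IntermediateField E W}
    (act : Act Γ S L L') {A : Subring W} (hA1 : ∀ z ∈ A, ‖z‖ ≤ 1) (hAL : ∀ z ∈ A, z ∈ L')
    (hst : ∀ (s : Γ), ∀ z ∈ A, act.f s z ∈ A) {ζ : W} (hζ : ζ ∈ A)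
    (hζ1 : ∀ s : Γ, s ≠ 1 → ‖act.f s ζ - ζ‖ = 1) (u : Γ → W)
    (hu : ∀ s, u s ∈ A ∧ ‖u s‖ = 1) :
    ∃ b ∈ A, ‖∑ s, act.f s b * u s‖ = 1 := by
  classical
  have hζL : ζ ∈ L' := hAL ζ hζ
  by_contra hcon
  push Not at hcon
  have hs : ∀ j : ℕ, ‖∑ σ, act.f σ ζ ^ j * u σ‖ < 1 := by
    intro j
    have h1 := hcon (ζ ^ j) (pow_mem hζ j)
    simp only [map_pow] at h1
    refine lt_of_le_of_ne (hA1 _ ?_) h1
    exact sum_mem fun σ _ => mul_mem (pow_mem (hst σ ζ hζ) j) (hu σ).1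
  obtain ⟨q, hq⟩ : ∃ q : Polynomial W, q = ∏ τ ∈ Finset.univ.erase (1 : Γ),
      (Polynomial.X - Polynomial.C (act.f τ ζ)) := ⟨_, rfl⟩
  have hqc : ∀ j, q.coeff j ∈ A := by
    have h1 : q ∈ Polynomial.lifts A.subtype := by
      rw [hq]
      refine Subsemiring.prod_mem _ fun τ _ => ?_
      refine (Polynomial.mem_lifts _).2 ⟨Polynomial.X - Polynomial.C ⟨act.f τ ζ, hst τ ζ hζ⟩, ?_⟩
      rw [Polynomial.map_sub, Polynomial.map_X, Polynomial.map_C]
      rfl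
    intro j
    obtain ⟨y, hy⟩ := (Polynomial.lifts_iff_coeff_lifts _).1 h1 j
    rw [← hy]
    exact y.2
  have h1 : ∑ σ, q.eval (act.f σ ζ) * u σ =
      ∑ j ∈ Finset.range (q.natDegree + 1), q.coeff j * ∑ σ, act.f σ ζ ^ j * u σ := by
    simp only [Finset.mul_sum]
    rw [Finset.sum_comm]
    refine Finset.sum_congr rfl fun σ _ => ?_
    rw [Polynomial.eval_eq_sum_range, Finset.sum_mul]
    exact Finset.sum_congr rfl fun j _ => by ring
  have h2 : ‖∑ σ, q.eval (act.f σ ζ) * u σ‖ < 1 := by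
    rw [h1]
    refine DedX_sum_lt _ _ fun j _ => ?_
    rw [norm_mul]
    calc ‖q.coeff j‖ * ‖∑ σ, act.f σ ζ ^ j * u σ‖ ≤ 1 * ‖∑ σ, act.f σ ζ ^ j * u σ‖ :=
          mul_le_mul_of_nonneg_right (hA1 _ (hqc j)) (norm_nonneg _)
      _ < 1 := by rw [one_mul]; exact hs j
  have h3 : ∑ σ, q.eval (act.f σ ζ) * u σ = q.eval ζ * u 1 := by
    rw [Finset.sum_eq_single (1 : Γ)]
    · rw [act.one ζ hζL]
    · intro σ _ hσ
      have h4 : q.eval (act.f σ ζ) = 0 := by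
        rw [hq, Polynomial.eval_prod]
        refine Finset.prod_eq_zero (Finset.mem_erase.2 ⟨hσ, Finset.mem_univ σ⟩) ?_
        rw [Polynomial.eval_sub, Polynomial.eval_X, Polynomial.eval_C, sub_self]
      rw [h4, zero_mul]
    · intro h4
      exact absurd (Finset.mem_univ _) h4
  have h4 : ‖q.eval ζ‖ = 1 := by
    rw [hq, Polynomial.eval_prod, norm_prod]
    refine Finset.prod_eq_one fun τ hτ => ?_
    rw [Polynomial.eval_sub, Polynomial.eval_X, Polynomial.eval_C, norm_sub_rev]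
    exact hζ1 τ (Finset.ne_of_mem_erase hτ)
  rw [h3, norm_mul, h4, (hu 1).2, one_mul] at h2
  exact lt_irrefl _ h2

end Pool.Agent.Lib.MXP
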