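import Pool.Agent.Lib.MXP.GoodExt

set_option autoImplicit false

/-!
# Module MX.InvR: the ring of invariants of a stable ring

Write `s z := act.f s z`; `s` fixes `Lam` pointwise (`act.f s` is an `E`-algebra homomorphism), `Lam ≤ A`, `Lam ≤ L`.  `A = locV (closure (Lam ∪ G))`; replacing `G` by the
finite set of all `s g` (in `A`) we may assume that `G` is stable under `Γ` (`act.mul`, `act.one`; `locV (closure (Lam ∪ G))` does not change as the `s g` are in `A`).
`n := card Γ`, `P_g := ∏_σ (T - σ g)`: its coefficients are in `A` and fixed by `Γ`, so in `L` (`act.fix`).  `R0 := closure (Lam ∪ coefficients)`, `R := closure (Lam ∪ G)`.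
`R` is the `R0`-span of the monomials `∏_g g^(ν g)`, `ν g < n` (this span is closed under multiplication by every `g ∈ G` as `P_g(g) = 0`, `P_g` monic of degree `n`; so
it is a subring: closure induction).  `τ := ∑_σ σ t ∈ A ∩ L`, `‖τ‖ = 1`.
`G0 := {coefficients} ∪ {∑_σ σ (t ∏ g^(ν g)) : ν g < n} ∪ {τ}`: a finite subset of `A ∩ L`.  For `z ∈ R ∩ L`: `z = ∑ r_ν g^ν`, `τ z = ∑_σ σ (t z) = ∑ r_ν ∑_σ σ (t g^ν)`, so `τ z ∈ closure (Lam ∪ G0)`,
`z ∈ locV (closure (Lam ∪ G0))`.  For `z ∈ A ∩ L`: `z * b = a`, `a, b ∈ R`, `‖b‖ = 1`; `b' := ∏_(σ ≠ 1) σ b ∈ R` (`R` is stable), `b b' ∈ R ∩ L` of norm one, `z (b b') = a b' ∈ R ∩ L`.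
The other inclusion: `A ∩ L` is a ring containing `Lam`, `G0`, closed under inverses of elements of norm one.
`inv_alg`: `z ∈ A` is a root of `∏_σ (T - σ z)`, monic over `A ∩ L`.
`inv_dense`: `T u := (∑_σ σ (t u)) / τ`: `T z = z` for `z ∈ L`, `‖T u‖ ≤ ‖u‖` for `u ∈ L'`.  `z ∈ L`, `ε > 0`: `z' ∈ Fr E c`, `‖z - z'‖ < ε`, `z' = a / b`, `a, b ∈ c.B` (elements of `Fr E c` are
quotients of elements of `c.B`: the set of the quotients is a field containing `c.B` and the image of `E` since `Lam E W ≤ c.B`), multiply by `∏_(σ ≠ 1) σ b`: `b ∈ L`.  `T z' = (∑ σ (t a)) / (τ b)`.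
-/

namespace Pool.Agent.Lib.MXP

open Pool.Agent.Lib.MP_3029eb_ag Pool.Agent.Lib.MP_3029eb_ag.Abh Pool.Agent.Lib.TDO
open Pool.Agent.Lib.TU (Mt)

variable {E W : Type} [Field E] [NormedField W] [IsUltrametricDist W] [Algebra E W] {p r : ℕ}
  {S : IntermediateField E W}

section InvR_priv

variable {Γ : Type} [Group Γ] [Fintype Γ] {L L' : IntermediateField E W}

private theorem InvR_sum (act : Act Γ S L L') {u : W} (hu : u ∈ L') :
    ∑ s, act.f s u ∈ L := by
  have h1 : ∑ s, act.f s u ∈ L' := sum_mem fun s _ => act.memL s u hu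
  refine (act.fix _ h1).1 fun σ => ?_
  rw [map_sum]
  have h2 : ∀ s, act.f σ (act.f s u) = act.f (σ * s) u := fun s => (act.mul σ s u hu).symm
  rw [Finset.sum_congr rfl fun s _ => h2 s]
  exact Fintype.sum_equiv (Equiv.mulLeft σ) _ _ (fun s => rfl)

private theorem InvR_prod (act : Act Γ S L L') {u : W} (hu : u ∈ L') :
    ∏ s, act.f s u ∈ L := by
  have h1 : ∏ s, act.f s u ∈ L' := prod_mem fun s _ => act.memL s u hu
  refine (act.fix _ h1).1 fun σ => ?_
  rw [map_prod]
  have h2 : ∀ s, act.f σ (act.f s u) = act.f (σ * s) u := fun s => (act.mul σ s u hu).symm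
  rw [Finset.prod_congr rfl fun s _ => h2 s]
  exact Fintype.prod_equiv (Equiv.mulLeft σ) _ _ (fun s => rfl)

private noncomputable def InvR_P (act : Act Γ S L L') (z : W) : Polynomial W :=
  ∏ s, (Polynomial.X - Polynomial.C (act.f s z))

private theorem InvR_monic (act : Act Γ S L L') (z : W) : (InvR_P act z).Monic :=
  Polynomial.monic_prod_of_monic _ _ fun s _ => Polynomial.monic_X_sub_C _

private theorem InvR_eval (act : Act Γ S L L') {z : W} (hz : z ∈ L') :
    (InvR_P act z).eval z = 0 := by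
  unfold InvR_P
  rw [Polynomial.eval_prod]
  refine Finset.prod_eq_zero (Finset.mem_univ 1) ?_
  rw [act.one z hz, Polynomial.eval_sub, Polynomial.eval_X, Polynomial.eval_C, sub_self]

private theorem InvR_coefA (act : Act Γ S L L') {A : Subring W}
    (hst : ∀ (s : Γ), ∀ z ∈ A, act.f s z ∈ A) {z : W} (hz : z ∈ A) (j : ℕ) :
    (InvR_P act z).coeff j ∈ A := by
  have h1 : InvR_P act z =
      (∏ s, (Polynomial.X - Polynomial.C (⟨act.f s z, hst s z hz⟩ : A))).map A.subtype := by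
    unfold InvR_P
    rw [Polynomial.map_prod]
    refine Finset.prod_congr rfl fun s _ => ?_
    rw [Polynomial.map_sub, Polynomial.map_X, Polynomial.map_C]
    rfl
  rw [h1, Polynomial.coeff_map]
  exact (Polynomial.coeff _ j : A).2

private theorem InvR_coefL (act : Act Γ S L L') {z : W} (hz : z ∈ L') (j : ℕ) :
    (InvR_P act z).coeff j ∈ L := by
  have hL' : (InvR_P act z).coeff j ∈ L' :=
    InvR_coefA act (A := L'.toSubfield.toSubring) (fun s w hw => act.memL s w hw) hz j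
  refine (act.fix _ hL').1 fun σ => ?_
  have h1 : (InvR_P act z).map (act.f σ : W →+* W) = InvR_P act z := by
    unfold InvR_P
    rw [Polynomial.map_prod]
    have h2 : ∀ s, (Polynomial.X - Polynomial.C (act.f s z)).map (act.f σ : W →+* W) =
        Polynomial.X - Polynomial.C (act.f (σ * s) z) := by
      intro s
      rw [Polynomial.map_sub, Polynomial.map_X, Polynomial.map_C, act.mul σ s z hz]
      rfl
    rw [Finset.prod_congr rfl fun s _ => h2 s]
    exact Fintype.prod_equiv (Equiv.mulLeft σ) _ _ (fun s => rfl)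
  calc act.f σ ((InvR_P act z).coeff j)
      = ((InvR_P act z).map (act.f σ : W →+* W)).coeff j := (Polynomial.coeff_map _ _).symm
    _ = (InvR_P act z).coeff j := by rw [h1]

private theorem InvR_lam (act : Act Γ S L L') (s : Γ) {z : W} (hz : z ∈ Lam E W) :
    act.f s z = z := by
  obtain ⟨⟨e, he⟩, -⟩ := hz
  have he' : algebraMap E W e = z := he
  rw [← he', AlgHom.commutes]

private theorem InvR_norm (act : Act Γ S L L') (b : W) :
    ‖∏ s, act.f s b‖ = ‖b‖ ^ Fintype.card Γ := by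
  rw [norm_prod, Finset.prod_congr rfl fun s _ => act.iso s b, Finset.prod_const, Finset.card_univ]

private theorem InvR_cofactor (act : Act Γ S L L') {B : Subring W}
    (hst : ∀ (s : Γ), ∀ z ∈ B, act.f s z ∈ B) {b : W} (hb : b ∈ B) (hbL : b ∈ L') :
    ∃ b' ∈ B, b * b' = ∏ s, act.f s b := by
  classical
  refine ⟨∏ s ∈ Finset.univ.erase (1 : Γ), act.f s b, prod_mem fun s _ => hst s b hb, ?_⟩
  have h1 := Finset.mul_prod_erase (Finset.univ : Finset Γ) (fun s => act.f s b)
    (Finset.mem_univ (1 : Γ))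
  rw [← h1]
  simp only [act.one b hbL]

private theorem InvR_mem_Fr {c : Tri W r} (hc : Gd S c) {z : W} (hz : z ∈ Fr E c) :
    ∃ a ∈ c.B, ∃ b ∈ c.B, b ≠ 0 ∧ z * b = a := by
  unfold Fr at hz
  induction hz using IntermediateField.adjoin_induction with
  | mem w hw => exact ⟨w, hw, 1, one_mem _, one_ne_zero, mul_one _⟩
  | algebraMap e =>
    rcases le_total ‖algebraMap E W e‖ 1 with h1 | h1
    · exact ⟨algebraMap E W e, hc.lam_le ⟨⟨e, rfl⟩, h1⟩, 1, one_mem _, one_ne_zero, mul_one _⟩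
    · have h0 : algebraMap E W e ≠ 0 := by
        intro h0
        rw [h0, norm_zero] at h1
        exact absurd h1 (not_le.2 zero_lt_one)
      have h2 : (algebraMap E W e)⁻¹ ∈ Lam E W := by
        refine ⟨⟨e⁻¹, map_inv₀ _ _⟩, ?_⟩
        show ‖(algebraMap E W e)⁻¹‖ ≤ 1
        rw [norm_inv]
        exact inv_le_one_of_one_le₀ h1
      exact ⟨1, one_mem _, (algebraMap E W e)⁻¹, hc.lam_le h2, inv_ne_zero h0,
        mul_inv_cancel₀ h0⟩
  | add x y _ _ hx hy =>
    obtain ⟨a, ha, b, hb, hb0, h1⟩ := hx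
    obtain ⟨a', ha', b', hb', hb0', h1'⟩ := hy
    exact ⟨a * b' + a' * b, add_mem (mul_mem ha hb') (mul_mem ha' hb), b * b', mul_mem hb hb',
      mul_ne_zero hb0 hb0', by rw [← h1, ← h1']; ring⟩
  | inv x _ hx =>
    obtain ⟨a, ha, b, hb, hb0, h1⟩ := hx
    by_cases ha0 : a = 0
    · have hx0 : x = 0 := by
        rw [ha0] at h1
        exact (mul_eq_zero.1 h1).resolve_right hb0
      exact ⟨0, zero_mem _, 1, one_mem _, one_ne_zero, by rw [hx0, inv_zero, zero_mul]⟩
    · have hx0 : x ≠ 0 := by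
        rintro rfl
        exact ha0 (by rw [← h1, zero_mul])
      exact ⟨b, hb, a, ha, ha0, by rw [← h1, inv_mul_cancel_left₀ hx0]⟩
  | mul x y _ _ hx hy =>
    obtain ⟨a, ha, b, hb, hb0, h1⟩ := hx
    obtain ⟨a', ha', b', hb', hb0', h1'⟩ := hy
    exact ⟨a * a', mul_mem ha ha', b * b', mul_mem hb hb', mul_ne_zero hb0 hb0',
      by rw [← h1, ← h1']; ring⟩

/-- The finitely generated rings over which the sums of the images are. -/
private theorem InvR_fin (act : Act Γ S L L') {A : Subring W} (hAL : ∀ z ∈ A, z ∈ L')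
    (hlamA : ∀ z ∈ Lam E W, z ∈ A) (hst : ∀ (s : Γ), ∀ z ∈ A, act.f s z ∈ A)
    (Gf : Finset W) (hGf : ∀ g ∈ Gf, g ∈ A) {t : W} (ht : t ∈ A) :
    ∃ G0 : Finset W, (∀ g ∈ G0, g ∈ A ∧ g ∈ L) ∧ ∑ s, act.f s t ∈ G0 ∧
      ∀ u ∈ Subring.closure ((Lam E W : Set W) ∪ (Gf : Set W)),
        ∑ s, act.f s (t * u) ∈ Subring.closure ((Lam E W : Set W) ∪ (G0 : Set W)) := by
  classical
  set Cf : Finset W := Gf.biUnion (fun g => (InvR_P act g).coeffs) with hCf
  have hCfA : ∀ w ∈ Cf, w ∈ A ∧ w ∈ L := by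
    intro w hw
    rw [hCf, Finset.mem_biUnion] at hw
    obtain ⟨g, hg, hw⟩ := hw
    rw [Polynomial.mem_coeffs_iff] at hw
    obtain ⟨n, -, rfl⟩ := hw
    exact ⟨InvR_coefA act hst (hGf g hg) n, InvR_coefL act (hAL g (hGf g hg)) n⟩
  set R0 : Subring W := Subring.closure ((Lam E W : Set W) ∪ (Cf : Set W)) with hR0
  have hR0A : R0 ≤ A := by
    rw [hR0, Subring.closure_le]
    rintro z (hz | hz)
    · exact hlamA z hz
    · exact (hCfA z hz).1
  have hR0L : R0 ≤ L.toSubfield.toSubring := by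
    rw [hR0, Subring.closure_le]
    rintro z (hz | hz)
    · obtain ⟨⟨e, he⟩, -⟩ := hz
      have he' : algebraMap E W e = z := he
      rw [← he']
      exact L.algebraMap_mem e
    · exact (hCfA z hz).2
  have hR0fix : ∀ z ∈ R0, ∀ s, act.f s z = z := fun z hz s =>
    (act.fix z (hAL z (hR0A hz))).2 (hR0L hz) s
  have hint : ∀ g ∈ (Gf : Set W), IsIntegral R0 g := by
    intro g hg
    have h1 : InvR_P act g ∈ Polynomial.lifts R0.subtype := by
      rw [Polynomial.lifts_iff_coeff_lifts]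
      intro j
      by_cases h0 : (InvR_P act g).coeff j = 0
      · rw [h0]
        exact ⟨0, map_zero _⟩
      · have h2 : (InvR_P act g).coeff j ∈ Cf := by
          rw [hCf, Finset.mem_biUnion]
          exact ⟨g, hg, Polynomial.coeff_mem_coeffs h0⟩
        exact ⟨⟨(InvR_P act g).coeff j, Subring.subset_closure (Or.inr h2)⟩, rfl⟩
    obtain ⟨q, hq, -, hqm⟩ := Polynomial.lifts_and_natDegree_eq_and_monic h1 (InvR_monic act g)
    refine ⟨q, hqm, ?_⟩
    have h3 : Polynomial.eval₂ (algebraMap R0 W) g q = (q.map R0.subtype).eval g :=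
      (Polynomial.eval_map _ _).symm
    rw [h3, hq]
    exact InvR_eval act (hAL g (hGf g hg))
  obtain ⟨M, hM⟩ := fg_adjoin_of_finite (Finset.finite_toSet Gf) hint
  have hadjA : ∀ z ∈ Algebra.adjoin R0 (Gf : Set W), z ∈ A := by
    intro z hz
    induction hz using Algebra.adjoin_induction with
    | mem x hx => exact hGf x hx
    | algebraMap a => exact hR0A a.2
    | add x y _ _ hx hy => exact add_mem hx hy
    | mul x y _ _ hx hy => exact mul_mem hx hy
  have hMA : ∀ m ∈ M, m ∈ A := by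
    intro m hm
    refine hadjA m ?_
    have h1 : m ∈ Submodule.span R0 (M : Set W) := Submodule.subset_span hm
    rw [hM] at h1
    exact h1
  have hRspan : ∀ u ∈ Subring.closure ((Lam E W : Set W) ∪ (Gf : Set W)),
      u ∈ Submodule.span R0 (M : Set W) := by
    intro u hu
    rw [hM]
    have h1 : Subring.closure ((Lam E W : Set W) ∪ (Gf : Set W)) ≤
        (Algebra.adjoin R0 (Gf : Set W)).toSubring := by
      rw [Subring.closure_le]
      rintro z (hz | hz)
      · exact (Algebra.adjoin R0 (Gf : Set W)).algebraMap_mem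
          (⟨z, Subring.subset_closure (Or.inl hz)⟩ : R0)
      · exact Algebra.subset_adjoin hz
    exact h1 hu
  have hTL : ∀ w ∈ A, ∑ s, act.f s w ∈ A ∧ ∑ s, act.f s w ∈ L := fun w hw =>
    ⟨sum_mem fun s _ => hst s w hw, InvR_sum act (hAL w hw)⟩
  set G0 : Finset W := (Cf ∪ M.image (fun m => ∑ s, act.f s (t * m))) ∪ {∑ s, act.f s t} with hG0
  have hR01 : R0 ≤ Subring.closure ((Lam E W : Set W) ∪ (G0 : Set W)) := by
    rw [hR0]
    refine Subring.closure_mono (Set.union_subset_union_right _ ?_)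
    intro z hz
    have hz' : z ∈ Cf := hz
    show z ∈ G0
    rw [hG0]
    exact Finset.mem_union_left _ (Finset.mem_union_left _ hz')
  refine ⟨G0, ?_, ?_, ?_⟩
  · intro g hg
    rw [hG0, Finset.mem_union, Finset.mem_union] at hg
    rcases hg with (hg | hg) | hg
    · exact hCfA g hg
    · rw [Finset.mem_image] at hg
      obtain ⟨m, hm, rfl⟩ := hg
      exact hTL _ (mul_mem ht (hMA m hm))
    · rw [Finset.mem_singleton] at hg
      rw [hg]
      exact hTL _ ht
  · rw [hG0]
    exact Finset.mem_union_right _ (Finset.mem_singleton_self _)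
  · intro u hu
    have hus := hRspan u hu
    clear hu
    induction hus using Submodule.span_induction with
    | mem m hm =>
      refine Subring.subset_closure (Or.inr ?_)
      show _ ∈ G0
      rw [hG0]
      exact Finset.mem_union_left _ (Finset.mem_union_right _
        (Finset.mem_image_of_mem (fun m => ∑ s, act.f s (t * m)) hm))
    | zero =>
      have h1 : ∑ s, act.f s (t * 0) = 0 := by
        refine Finset.sum_eq_zero fun s _ => ?_
        rw [mul_zero, map_zero]
      rw [h1]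
      exact zero_mem _
    | add x y _ _ hx hy =>
      have h1 : ∑ s, act.f s (t * (x + y)) =
          ∑ s, act.f s (t * x) + ∑ s, act.f s (t * y) := by
        rw [← Finset.sum_add_distrib]
        refine Finset.sum_congr rfl fun s _ => ?_
        rw [mul_add, map_add]
      rw [h1]
      exact add_mem hx hy
    | smul a x _ hx =>
      have h1 : ∑ s, act.f s (t * (a • x)) = (a : W) * ∑ s, act.f s (t * x) := by
        rw [Finset.mul_sum]
        refine Finset.sum_congr rfl fun s _ => ?_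
        have h2 : t * (a • x) = (a : W) * (t * x) := by
          have h3 : a • x = (a : W) * x := rfl
          rw [h3]
          ring
        rw [h2, map_mul, hR0fix a a.2 s]
      rw [h1]
      exact mul_mem (hR01 a.2) hx

end InvR_priv

theorem inv_ring {Γ : Type} [Group Γ] [Fintype Γ] {L L' : IntermediateField E W}
    (act : Act Γ S L L') {A : Subring W}
    (hfg : ∃ G : Finset W, A = locV (ball W) (Subring.closure ((Lam E W : Set W) ∪ (G : Set W))))
    (hA1 : ∀ z ∈ A, ‖z‖ ≤ 1) (hAL : ∀ z ∈ A, z ∈ L')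
    (hst : ∀ (s : Γ), ∀ z ∈ A, act.f s z ∈ A) {t : W} (ht : t ∈ A)
    (ht1 : ‖∑ s, act.f s t‖ = 1) :
    ∃ G0 : Finset W, (∀ g ∈ G0, g ∈ A ∧ g ∈ L) ∧
      A ⊓ L.toSubfield.toSubring =
        locV (ball W) (Subring.closure ((Lam E W : Set W) ∪ (G0 : Set W))) := by
  classical
  obtain ⟨G, hG⟩ := hfg
  have hGA : ∀ g ∈ G, g ∈ A := by
    intro g hg
    rw [hG]
    exact subset_locV_closure (Or.inr hg)
  have hlamA : ∀ z ∈ Lam E W, z ∈ A := by
    intro z hz
    rw [hG]
    exact subset_locV_closure (Or.inl hz)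
  have hinvA : ∀ z ∈ A, ‖z‖ = 1 → z⁻¹ ∈ A := by
    intro z hz h1
    rw [hG] at hz ⊢
    exact inv_mem_locV hz h1
  have hinvI : ∀ z ∈ A ⊓ L.toSubfield.toSubring, ‖z‖ = 1 →
      z⁻¹ ∈ A ⊓ L.toSubfield.toSubring := by
    intro z hz h1
    exact ⟨hinvA z hz.1 h1, L.inv_mem hz.2⟩
  set Gf : Finset W := Finset.univ.biUnion (fun s : Γ => G.image (act.f s)) with hGf
  have hmemGf : ∀ z, z ∈ Gf ↔ ∃ s : Γ, ∃ g ∈ G, act.f s g = z := by
    intro z
    rw [hGf, Finset.mem_biUnion]
    constructor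
    · rintro ⟨s, -, h⟩
      rw [Finset.mem_image] at h
      exact ⟨s, h⟩
    · rintro ⟨s, h⟩
      exact ⟨s, Finset.mem_univ _, Finset.mem_image.2 h⟩
  have hGfA : ∀ g ∈ Gf, g ∈ A := by
    intro z hz
    obtain ⟨s, g, hg, rfl⟩ := (hmemGf z).1 hz
    exact hst s g (hGA g hg)
  have hGGf : ∀ g ∈ G, g ∈ Gf := fun g hg =>
    (hmemGf g).2 ⟨1, g, hg, act.one g (hAL g (hGA g hg))⟩
  obtain ⟨G0, hG0, hτ, hR1⟩ := InvR_fin act hAL hlamA hst Gf hGfA ht
  set R : Subring W := Subring.closure ((Lam E W : Set W) ∪ (Gf : Set W)) with hR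
  set R1 : Subring W := Subring.closure ((Lam E W : Set W) ∪ (G0 : Set W)) with hR1d
  have hRA : R ≤ A := by
    rw [hR, Subring.closure_le]
    rintro z (hz | hz)
    · exact hlamA z hz
    · exact hGfA z hz
  have hAR : A ≤ locV (ball W) R := by
    rw [hG]
    refine locV_mono _ ?_
    rw [hR]
    refine Subring.closure_mono (Set.union_subset_union_right _ ?_)
    intro z hz
    exact hGGf z hz
  have hRst : ∀ s : Γ, ∀ z ∈ R, act.f s z ∈ R := by
    intro s z hz
    have h1 : R ≤ R.comap (act.f s : W →+* W) := by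
      rw [hR, Subring.closure_le]
      rintro w (hw | hw)
      · show act.f s w ∈ Subring.closure ((Lam E W : Set W) ∪ (Gf : Set W))
        rw [InvR_lam act s hw]
        exact Subring.subset_closure (Or.inl hw)
      · show act.f s w ∈ Subring.closure ((Lam E W : Set W) ∪ (Gf : Set W))
        obtain ⟨σ, g, hg, rfl⟩ := (hmemGf w).1 hw
        rw [← act.mul s σ g (hAL g (hGA g hg))]
        exact Subring.subset_closure (Or.inr ((hmemGf _).2 ⟨s * σ, g, hg, rfl⟩))
    exact h1 hz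
  have hτ1 : ∑ s, act.f s t ∈ R1 := Subring.subset_closure (Or.inr hτ)
  -- elements of `R` fixed by the group
  have hRL : ∀ z ∈ R, z ∈ L → z ∈ locV (ball W) R1 := by
    intro z hz hzL
    have hzL' : z ∈ L' := hAL z (hRA hz)
    refine mem_locB.2 ⟨∑ s, act.f s (t * z), hR1 z hz, ∑ s, act.f s t, hτ1, ht1, ?_⟩
    rw [Finset.mul_sum]
    refine Finset.sum_congr rfl fun s _ => ?_
    rw [map_mul, (act.fix z hzL').2 hzL s, mul_comm]
  refine ⟨G0, hG0, le_antisymm ?_ ?_⟩
  · intro z hz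
    have hzA : z ∈ A := hz.1
    have hzL : z ∈ L := hz.2
    obtain ⟨a, ha, b, hb, hb1, hzb⟩ := mem_locB.1 (hAR hzA)
    have hbL' : b ∈ L' := hAL b (hRA hb)
    obtain ⟨b', hb', hbb'⟩ := InvR_cofactor act hRst hb hbL'
    have hN : ∏ s, act.f s b ∈ R := prod_mem fun s _ => hRst s b hb
    have hNL : ∏ s, act.f s b ∈ L := InvR_prod act hbL'
    have hN1 : ‖∏ s, act.f s b‖ = 1 := by
      rw [InvR_norm, hb1, one_pow]
    have hzN : z * ∏ s, act.f s b = a * b' := by
      rw [← hbb', ← mul_assoc, hzb]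
    rw [← locV_locV (ball W) R1]
    refine mem_locB.2 ⟨z * ∏ s, act.f s b, ?_, ∏ s, act.f s b, hRL _ hN hNL, hN1, rfl⟩
    refine hRL _ ?_ (mul_mem hzL hNL)
    rw [hzN]
    exact mul_mem ha hb'
  · intro z hz
    refine locV_closure_le (A ⊓ L.toSubfield.toSubring) ?_ hinvI hz
    rintro w (hw | hw)
    · refine ⟨hlamA w hw, ?_⟩
      obtain ⟨⟨e, he⟩, -⟩ := hw
      have he' : algebraMap E W e = w := he
      rw [← he']
      exact L.algebraMap_mem e
    · exact hG0 w hw

theorem inv_alg {Γ : Type} [Group Γ] [Fintype Γ] {L L' : IntermediateField E W}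
    (act : Act Γ S L L') {A : Subring W} (hAL : ∀ z ∈ A, z ∈ L')
    (hst : ∀ (s : Γ), ∀ z ∈ A, act.f s z ∈ A) {z : W} (hz : z ∈ A) :
    ∃ P : Polynomial W, P.Monic ∧ (∀ j, P.coeff j ∈ A ⊓ L.toSubfield.toSubring) ∧
      P.eval z = 0 := by
  exact ⟨InvR_P act z, InvR_monic act z,
    fun j => ⟨InvR_coefA act hst hz j, InvR_coefL act (hAL z hz) j⟩, InvR_eval act (hAL z hz)⟩

theorem inv_dense {Γ : Type} [Group Γ] [Fintype Γ] {L L' : IntermediateField E W}
    (act : Act Γ S L L') {c : Tri W r} (hc : Ch S L' c)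
    (hst : ∀ (s : Γ), ∀ z ∈ c.B, act.f s z ∈ c.B) {t : W} (ht : t ∈ c.B)
    (ht1 : ‖∑ s, act.f s t‖ = 1) {z : W} (hz : z ∈ L) (hLL : L ≤ L') {ε : ℝ} (hε : 0 < ε) :
    ∃ z' ∈ IntermediateField.adjoin E {u : W | u ∈ c.B ∧ u ∈ L}, ‖z - z'‖ < ε := by
  have hBL : ∀ w ∈ c.B, w ∈ L' := fun w hw => hc.le (IntermediateField.subset_adjoin _ _ hw)
  have hzL' : z ∈ L' := hLL hz
  have hcl : z ∈ closure (Fr E c : Set W) := hc.dense z hzL'
  obtain ⟨z1, hz1, hd⟩ := Metric.mem_closure_iff.1 hcl ε hε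
  rw [dist_eq_norm] at hd
  obtain ⟨a, ha, b, hb, hb0, hab⟩ := InvR_mem_Fr hc.gd hz1
  have hz1L : z1 ∈ L' := hc.le hz1
  obtain ⟨b', hb', hbb'⟩ := InvR_cofactor act hst hb (hBL b hb)
  have hNB : ∏ s, act.f s b ∈ c.B := prod_mem fun s _ => hst s b hb
  have hNL : ∏ s, act.f s b ∈ L := InvR_prod act (hBL b hb)
  have hN0 : ∏ s, act.f s b ≠ 0 := by
    intro h0
    have h1 := InvR_norm act b
    rw [h0, norm_zero] at h1
    exact (pow_ne_zero _ (norm_ne_zero_iff.2 hb0)) h1.symm
  have hτB : ∑ s, act.f s t ∈ c.B := sum_mem fun s _ => hst s t ht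
  have hτL : ∑ s, act.f s t ∈ L := InvR_sum act (hBL t ht)
  have hτ0 : ∑ s, act.f s t ≠ 0 := by
    intro h0
    rw [h0, norm_zero] at ht1
    exact zero_ne_one ht1
  have htab : t * (a * b') ∈ c.B := mul_mem ht (mul_mem ha hb')
  have hnB : ∑ s, act.f s (t * (a * b')) ∈ c.B := sum_mem fun s _ => hst s _ htab
  have hnL : ∑ s, act.f s (t * (a * b')) ∈ L := InvR_sum act (hBL _ htab)
  have hz1N : z1 * ∏ s, act.f s b = a * b' := by
    rw [← hbb', ← mul_assoc, hab]
  have hnum : ∑ s, act.f s (t * (a * b')) =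
      (∑ s, act.f s (t * z1)) * ∏ s, act.f s b := by
    rw [Finset.sum_mul]
    refine Finset.sum_congr rfl fun σ _ => ?_
    have h1 : act.f σ (∏ s, act.f s b) = ∏ s, act.f s b :=
      (act.fix _ (hBL _ hNB)).2 hNL σ
    rw [← hz1N, ← mul_assoc, map_mul, h1]
  refine ⟨(∑ s, act.f s (t * (a * b'))) / ((∑ s, act.f s t) * ∏ s, act.f s b), ?_, ?_⟩
  · refine div_mem (IntermediateField.subset_adjoin _ _ ⟨hnB, hnL⟩)
      (mul_mem (IntermediateField.subset_adjoin _ _ ⟨hτB, hτL⟩)
        (IntermediateField.subset_adjoin _ _ ⟨hNB, hNL⟩))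
  · have h1 : (∑ s, act.f s (t * (a * b'))) / ((∑ s, act.f s t) * ∏ s, act.f s b) =
        (∑ s, act.f s (t * z1)) / ∑ s, act.f s t := by
      rw [hnum, mul_div_mul_right _ _ hN0]
    have h2 : z - (∑ s, act.f s (t * z1)) / ∑ s, act.f s t =
        (∑ s, act.f s (t * (z - z1))) / ∑ s, act.f s t := by
      rw [eq_div_iff hτ0, sub_mul, div_mul_cancel₀ _ hτ0, Finset.mul_sum,
        ← Finset.sum_sub_distrib]
      refine Finset.sum_congr rfl fun s _ => ?_
      have h3 : act.f s z = z := (act.fix z hzL').2 hz s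
      rw [mul_sub, map_sub, map_mul (act.f s) t z, h3, mul_comm z]
    rw [h1, h2, norm_div, ht1, div_one]
    refine lt_of_le_of_lt ?_ hd
    refine IsUltrametricDist.norm_sum_le_of_forall_le_of_nonneg (norm_nonneg _) fun s _ => ?_
    rw [act.iso, norm_mul]
    exact mul_le_of_le_one_left (norm_nonneg _) (hc.gd.norm_le ht)

end Pool.Agent.Lib.MXP
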