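import Pool.Agent.Lib.MXP.SepA

set_option autoImplicit false

/-!
# Module InvSep: separability over the ring of invariants of a finite group
-/

namespace Pool.Agent.Lib.MXP

open Pool.Agent.Lib.MP_3029eb_ag Pool.Agent.Lib.MP_3029eb_ag.Abh Pool.Agent.Lib.TDO

variable {E W : Type} [Field E] [NormedField W] [IsUltrametricDist W] [Algebra E W] {r : ℕ}
  {S : IntermediateField E W} {Γ : Type} [Group Γ] [Fintype Γ] {L L' : IntermediateField E W}

/-- An element of a stable ring is a simple root of a polynomial with invariant coefficients. -/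
theorem inv_sep (act : Act Γ S L L') {A : Subring W} (hAL : ∀ z ∈ A, z ∈ L')
    (hst : ∀ (s : Γ), ∀ z ∈ A, act.f s z ∈ A) {z : W} (hz : z ∈ A) :
    ∃ P : Polynomial W, (∀ j, P.coeff j ∈ A ⊓ L.toSubfield.toSubring) ∧ P.eval z = 0 ∧
      P.derivative.eval z ≠ 0 := by
  classical
  set O : Finset W := Finset.univ.image (fun s : Γ => act.f s z) with hO
  have hzO : z ∈ O := by
    rw [hO, Finset.mem_image]
    exact ⟨1, Finset.mem_univ _, act.one z (hAL z hz)⟩
  have hOA : ∀ w ∈ O, w ∈ A := by
    intro w hw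
    rw [hO, Finset.mem_image] at hw
    obtain ⟨s, -, rfl⟩ := hw
    exact hst s z hz
  set P : Polynomial W := ∏ w ∈ O, (Polynomial.X - Polynomial.C w) with hP
  have hcoefA : ∀ (B : Subring W), (∀ w ∈ O, w ∈ B) → ∀ j, P.coeff j ∈ B := by
    intro B hB j
    have h1 : P = (∏ w ∈ O.attach, (Polynomial.X - Polynomial.C (⟨w.1, hB w.1 w.2⟩ : B))).map
        B.subtype := by
      rw [hP, Polynomial.map_prod, ← Finset.prod_attach]
      refine Finset.prod_congr rfl fun s _ => ?_
      rw [Polynomial.map_sub, Polynomial.map_X, Polynomial.map_C]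
      rfl
    rw [h1, Polynomial.coeff_map]
    exact (Polynomial.coeff _ j : B).2
  have hinvP : ∀ σ, P.map (act.f σ : W →+* W) = P := by
    intro σ
    rw [hP, Polynomial.map_prod]
    have hinj : Function.Injective (act.f σ) := (act.f σ : W →+* W).injective
    have himg : O.image (act.f σ) = O := by
      apply Finset.eq_of_subset_of_card_le
      · intro w hw
        rw [Finset.mem_image] at hw
        obtain ⟨u, hu, rfl⟩ := hw
        rw [hO, Finset.mem_image] at hu ⊢
        obtain ⟨s, -, rfl⟩ := hu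
        exact ⟨σ * s, Finset.mem_univ _, act.mul σ s z (hAL z hz)⟩
      · rw [Finset.card_image_of_injective _ hinj]
    conv_rhs => rw [← himg]
    rw [Finset.prod_image (fun a _ b _ h => hinj h)]
    refine Finset.prod_congr rfl fun w _ => ?_
    rw [Polynomial.map_sub, Polynomial.map_X, Polynomial.map_C]
    rfl
  refine ⟨P, fun j => ⟨hcoefA A hOA j, ?_⟩, ?_, ?_⟩
  · have h1 : P.coeff j ∈ L' := hcoefA L'.toSubfield.toSubring (fun w hw => hAL w (hOA w hw)) j
    refine (act.fix _ h1).1 fun σ => ?_
    calc act.f σ (P.coeff j) = (P.map (act.f σ : W →+* W)).coeff j :=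
          (Polynomial.coeff_map _ _).symm
      _ = P.coeff j := by rw [hinvP]
  · rw [hP, Polynomial.eval_prod]
    refine Finset.prod_eq_zero hzO ?_
    rw [Polynomial.eval_sub, Polynomial.eval_X, Polynomial.eval_C, sub_self]
  · have h1 : P = (Polynomial.X - Polynomial.C z) *
        ∏ w ∈ O.erase z, (Polynomial.X - Polynomial.C w) := by
      rw [hP, Finset.mul_prod_erase O (fun w => Polynomial.X - Polynomial.C w) hzO]
    rw [h1, Polynomial.derivative_mul, Polynomial.eval_add, Polynomial.eval_mul,
      Polynomial.eval_mul, Polynomial.derivative_sub, Polynomial.derivative_X,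
      Polynomial.derivative_C, sub_zero, Polynomial.eval_one, one_mul, Polynomial.eval_sub,
      Polynomial.eval_X, Polynomial.eval_C, sub_self, zero_mul, add_zero, Polynomial.eval_prod]
    rw [Finset.prod_ne_zero_iff]
    intro w hw
    rw [Polynomial.eval_sub, Polynomial.eval_X, Polynomial.eval_C]
    exact sub_ne_zero.2 (Finset.ne_of_mem_erase hw).symm

/-- `S` is separable over the field of fractions of a ring which contains the invariants. -/
theorem inv_sepS (act : Act Γ S L L') {c c' : Tri W r} (hBL : ∀ z ∈ c.B, z ∈ L')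
    (hst : ∀ (s : Γ), ∀ z ∈ c.B, act.f s z ∈ c.B) (hsep : ∀ z ∈ S, IsSeparable (Fr E c) z)
    (hc' : c.B ⊓ L.toSubfield.toSubring ≤ c'.B) {z : W} (hz : z ∈ S) :
    IsSeparable (Fr E c') z := by
  have h1 : ∀ w ∈ Fr E c' ⊔ Fr E c, IsSeparable (Fr E c') w := by
    intro w hw
    refine sep_sup_adjoin (X := (c.B : Set W)) (fun x hx => ?_) hw
    obtain ⟨P, hP, h0, h1⟩ := inv_sep act hBL hst hx
    exact sep_root (fun j => sub_Fr (hc' (hP j))) h0 h1
  exact sep_trans le_sup_left h1 (sep_le le_sup_right (hsep z hz))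

end Pool.Agent.Lib.MXP
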