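import Pool.Agent.Lib.MXP.KumD
import Pool.Agent.Lib.MXP.StEx

set_option autoImplicit false

/-!
# Module MX.KumStX: one stage makes `y` invariant (paper section 11)

Write `s z := act.f s z`.  `exists_st` (StEx.lean) with `F := kap c.B`, `X := ∅` and the section `τ' a := prj act l ξ s 0 (τ a)` for a section `τ` (`Gd.exists_sec`): `Sec c.B F τ'` and `τ' a ∈ L` (`prj_B`, `prj_res`, `prj_eig`, `mem_L`).
So there is a stage `c → c'` with `w = c.y ^ e / mon c.x β` and `G` monic with coefficients in `c.B ∩ L`.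
`s w = ξ^m w` for an integer `m` (`mon_eig`), `‖s w - w‖ < 1` (`hK.res`), `‖w‖ = 1`: `‖ξ^m - 1‖ < 1`, so `ξ^m = 1` (`KumD.xi_one`), `s w = w`, `w ∈ L`.
So `c'.y = G(w) ∈ L`.  `c'.x i` is a Laurent monomial in `c.x, c.y` (`hm` for `T.symm (Pi.single i 1, 0)`): an eigenvector with eigenvalue `ξ^(n' i)`
(`n' i ∈ ℕ` modulo `l`).  `c'.B = locV (closure (c.B ∪ (range c'.x ∪ {w})))` is stable: `s` (and all `σ = s^n`) maps the generators into it (`ξ ∈ c.B`).  `Gd S c'`: choose `x1` with `Mt c'.x x1`, `Gs S ⟨Bx c'.B x1, x1, c'.y⟩`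
(`Gd.ex`); `x1 i` is a Laurent monomial in `c'.x`, an eigenvector; `Bx c'.B x1` is stable.  `Fr` does not change (`fr_stage`; `x1 i` are monomials in `c'.x`), so `Ch S L'`.
-/

namespace Pool.Agent.Lib.MXP

open Pool.Agent.Lib.MP_3029eb_ag Pool.Agent.Lib.MP_3029eb_ag.Abh Pool.Agent.Lib.TDO
open Pool.Agent.Lib.TU (Mt)

variable {E W : Type} [Field E] [NormedField W] [IsUltrametricDist W] [Algebra E W] {p r : ℕ}
  {S : IntermediateField E W}

/-- Integral powers of `ξ` are natural powers. -/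
private theorem KumStX_nat {Γ : Type} [Group Γ] {L L' : IntermediateField E W}
    {act : Act Γ S L L'} {l : ℕ} {ξ : W} {s : Γ} (hK : KumD p act l ξ s) (m : ℤ) :
    ∃ k : ℕ, ξ ^ m = ξ ^ k := by
  have hl : (0 : ℤ) < l := by exact_mod_cast hK.prime.pos
  refine ⟨(m % l).toNat, ?_⟩
  have h1 : ((m % (l : ℤ)).toNat : ℤ) = m % l := Int.toNat_of_nonneg (Int.emod_nonneg _ hl.ne')
  have h2 : ξ ^ ((l : ℤ) * (m / l)) = 1 := by
    rw [zpow_mul, zpow_natCast, hK.prim.pow_eq_one, one_zpow]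
  rw [← zpow_natCast ξ (m % (l : ℤ)).toNat, h1]
  calc ξ ^ m = ξ ^ (m % l + (l : ℤ) * (m / l)) := by rw [Int.emod_add_mul_ediv]
    _ = ξ ^ (m % l) := by rw [zpow_add₀ hK.xi0, h2, mul_one]

/-- Fields of fractions of basis changes. -/
private theorem KumStX_fr {c : Tri W r} (hc : Gd S c) {x1 : Fin r → W} (h1 : Mt c.x x1) :
    Fr E (⟨Bx c.B x1, x1, c.y⟩ : Tri W r) = Fr E c := by
  apply le_antisymm
  · unfold Fr
    rw [IntermediateField.adjoin_le_iff]
    intro z hz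
    have hz' : z ∈ (Fr E c).toSubring := by
      refine Bx_le (Fr E c).toSubring (fun w hw => B_le_Fr hw) (fun i => ?_) (fun w hw _ => ?_) hz
      · obtain ⟨A, B, -, hB, -⟩ := h1.mat
        rw [hB i]
        exact mon_mem_Fr hc _
      · exact inv_mem (S := IntermediateField E W) hw
    exact hz'
  · exact IntermediateField.adjoin.mono _ _ _ (fun z hz => le_Bx hz)

theorem eig_stage (hr : 0 < r) (hA : AmbX p r S) {Γ : Type} [Group Γ]
    {L L' : IntermediateField E W} {act : Act Γ S L L'} {l : ℕ} {ξ : W} {s : Γ}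
    (hK : KumD p act l ξ s) {c : Tri W r} {n : Fin r → ℕ} {n0 : ℕ} (hc : EigX act ξ s c n)
    (hy : act.f s c.y = ξ ^ n0 * c.y) :
    ∃ (c1 : Tri W r) (n1 : Fin r → ℕ), EigX act ξ s c1 n1 ∧ c1.y ∈ L := by
  classical
  have hcd : Gd S c := hc.ch.gd
  have hBL : ∀ z ∈ c.B, z ∈ L' := fun z hz => hc.ch.le (B_le_Fr hz)
  obtain ⟨F, hF⟩ : ∃ F : Subfield (RW W), kap c.B = F := ⟨_, rfl⟩
  obtain ⟨τ, hτ⟩ := hcd.exists_sec hF
  obtain ⟨τ', hτ'⟩ : ∃ τ' : F → W, ∀ u, τ' u = prj act l ξ s 0 (τ u) := ⟨_, fun _ => rfl⟩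
  have hτL : ∀ u, τ' u ∈ L := by
    intro u
    rw [hτ']
    refine hK.mem_L (hK.prj_mem hA (hBL _ (hτ.mem u))) ?_
    rw [hK.prj_eig (hBL _ (hτ.mem u)), zpow_zero, one_mul]
  have hτs : Sec c.B F τ' := by
    have hm : ∀ u, τ' u ∈ c.B := fun u => by
      rw [hτ']
      exact hK.prj_B hA hc (hτ.mem u)
    refine ⟨hm, fun u => hcd.norm_le (hm u), fun u => ?_, ?_⟩
    · rw [← hτ.rs u, rs_eq_iff (hcd.norm_le (hm u)) (hτ.norm u), hτ']
      exact hK.prj_res hA (hBL _ (hτ.mem u)) (hτ.norm u)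
    · rw [hτ', hτ.zero]
      unfold prj
      simp
  obtain ⟨c', e, β, w, g, G, T, hst, -, hGτ, hGd, -⟩ := exists_st hr hA hcd hF hτs ∅
    (fun n hn => absurd hn (Finset.notMem_empty n))
  have hstR := hst.stR
  have hFr : Fr E c' = Fr E c := hstR.fr
  have hgd' := hst.gd'
  have hB'L : ∀ z ∈ c'.B, z ∈ L' := fun z hz => hc.ch.le (hFr ▸ B_le_Fr hz)
  have hy0 : c.y ≠ 0 := hcd.y_ne hA
  have hξ0 := hK.xi0
  -- monomials are eigenvectors
  have hmon : ∀ (a : Fin r → ℤ) (j : ℤ), ∃ m : ℤ, act.f s (mon c.x a * c.y ^ j) =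
      ξ ^ m * (mon c.x a * c.y ^ j) := by
    intro a j
    refine ⟨(∑ i, a i * (n i : ℤ)) + (n0 : ℤ) * j, ?_⟩
    rw [map_mul, mon_eig hK hc.eig a, map_zpow₀, hy, mul_zpow, zpow_add₀ hξ0, zpow_mul,
      zpow_natCast]
    ring
  -- `w` is invariant
  have hwm : ∃ m : ℤ, act.f s w = ξ ^ m * w := by
    obtain ⟨m, hm⟩ := hmon (-β) (e : ℤ)
    have h1 : w = mon c.x (-β) * c.y ^ (e : ℤ) := by
      rw [zpow_natCast, hst.hw, mon_neg]
      field_simp [mon_ne c.x hcd.ind.ne β]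
    rw [← h1] at hm
    exact ⟨m, hm⟩
  have hwL' : w ∈ L' := hB'L w hst.w_mem
  have hws : act.f s w = w := by
    obtain ⟨m, hm⟩ := hwm
    have h1 := hK.res w hwL' hst.w1.le
    rw [hm] at h1
    have h2 : ξ ^ m * w - w = (ξ ^ m - 1) * w := by ring
    rw [h2, norm_mul, hst.w1, mul_one] at h1
    rw [hm, hK.xi_one hA h1, one_mul]
  have hwL : w ∈ L := hK.mem_L hwL' hws
  -- `c'.y ∈ L`
  have hyL : c'.y ∈ L := by
    have hco : ∀ j, G.coeff j ∈ L := by
      intro j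
      rcases lt_trichotomy j g.natDegree with h | h | h
      · rw [hGτ j h]
        exact hτL _
      · have h2 : G.coeff j = 1 := by
          rw [h, ← hGd]
          exact hst.Gm.coeff_natDegree
        rw [h2]
        exact one_mem _
      · rw [Polynomial.coeff_eq_zero_of_natDegree_lt (by omega)]
        exact zero_mem _
    rw [hst.hy, Polynomial.eval_eq_sum_range]
    exact sum_mem fun j _ => mul_mem (hco j) (pow_mem hwL _)
  -- eigenvectors
  have hx'm : ∀ a : Fin r → ℤ, ∃ m : ℤ, act.f s (mon c'.x a) = ξ ^ m * mon c'.x a := by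
    intro a
    obtain ⟨m, hm⟩ := hmon (T.symm (a, 0)).1 (T.symm (a, 0)).2
    have h1 := hst.hm (T.symm (a, 0)).1 (T.symm (a, 0)).2
    rw [Prod.mk.eta, T.apply_symm_apply, zpow_zero, mul_one] at h1
    rw [h1] at hm
    exact ⟨m, hm⟩
  obtain ⟨x1, h1, hs1⟩ := hgd'.ex
  have hx1 : ∀ i, ∃ k : ℕ, act.f s (x1 i) = ξ ^ k * x1 i := by
    intro i
    obtain ⟨A, B, -, hB, -⟩ := h1.mat
    obtain ⟨m, hm⟩ := hx'm (B i)
    obtain ⟨k, hk⟩ := KumStX_nat hK m
    refine ⟨k, ?_⟩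
    rw [hB i, hm, hk]
  choose n1 hn1 using hx1
  have hξB' : ξ ∈ c'.B := hst.B_le hc.ξB
  have hξz : ∀ m : ℤ, ξ ^ m ∈ c'.B := by
    intro m
    obtain ⟨k, hk⟩ := KumStX_nat hK m
    rw [hk]
    exact pow_mem hξB' k
  -- stability
  have hst1 : ∀ z ∈ c'.B, act.f s z ∈ c'.B := by
    intro z hz
    have h2 : z ∈ c'.B.comap (act.f s : W →+* W) := by
      rw [hst.hB] at hz
      refine locV_closure_le (c'.B.comap (act.f s : W →+* W)) ?_ (fun v hv hv1 => ?_) hz
      · rintro v (hv | ⟨i, rfl⟩ | hv)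
        · exact Subring.mem_comap.2 (hst.B_le (hc.st s v hv))
        · refine Subring.mem_comap.2 ?_
          change act.f s (c'.x i) ∈ c'.B
          obtain ⟨m, hm⟩ := hx'm (Pi.single i 1)
          rw [mon_single] at hm
          rw [hm]
          exact mul_mem (hξz m) (hgd'.xB i)
        · rw [Set.mem_singleton_iff.1 hv]
          refine Subring.mem_comap.2 ?_
          change act.f s w ∈ c'.B
          rw [hws]
          exact hst.w_mem
      · refine Subring.mem_comap.2 ?_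
        change act.f s v⁻¹ ∈ c'.B
        rw [map_inv₀]
        exact hgd'.inv (Subring.mem_comap.1 hv) (by
          rw [act.iso, hv1])
    exact Subring.mem_comap.1 h2
  have hst2 : ∀ z ∈ Bx c'.B x1, act.f s z ∈ Bx c'.B x1 := by
    intro z hz
    have h2 : z ∈ (Bx c'.B x1).comap (act.f s : W →+* W) := by
      refine Bx_le ((Bx c'.B x1).comap (act.f s : W →+* W)) (fun v hv => ?_) (fun i => ?_)
        (fun v hv hv1 => ?_) hz
      · exact Subring.mem_comap.2 (le_Bx (hst1 v hv))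
      · refine Subring.mem_comap.2 ?_
        change act.f s (x1 i) ∈ Bx c'.B x1
        rw [hn1 i]
        exact mul_mem (pow_mem (le_Bx hξB') _) (x_mem_Bx i)
      · refine Subring.mem_comap.2 ?_
        change act.f s v⁻¹ ∈ Bx c'.B x1
        rw [map_inv₀]
        exact inv_mem_Bx (Subring.mem_comap.1 hv) (by
          rw [act.iso, hv1])
    exact Subring.mem_comap.1 h2
  have hFr1 : Fr E (⟨Bx c'.B x1, x1, c'.y⟩ : Tri W r) = Fr E c :=
    (KumStX_fr hgd' h1).trans hFr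
  have hBxL : ∀ z ∈ Bx c'.B x1, z ∈ L' := by
    intro z hz
    refine hc.ch.le ?_
    rw [← hFr1]
    exact B_le_Fr (c := (⟨Bx c'.B x1, x1, c'.y⟩ : Tri W r)) hz
  refine ⟨⟨Bx c'.B x1, x1, c'.y⟩, n1, ⟨hs1, ⟨hs1.gd, ?_, ?_⟩, ?_, le_Bx hξB', hn1⟩, hyL⟩
  · rw [hFr1]
    exact hc.ch.le
  · rw [hFr1]
    exact hc.ch.dense
  · intro σ z hz
    obtain ⟨k, rfl⟩ := hK.gen σ
    change act.f (s ^ k) z ∈ Bx c'.B x1
    have hz' : z ∈ Bx c'.B x1 := hz
    clear hz
    induction k with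
    | zero =>
      rw [pow_zero, act.one z (hBxL z hz')]
      exact hz'
    | succ k ih =>
      rw [pow_succ', act.mul _ _ z (hBxL z hz')]
      exact hst2 _ ih

end Pool.Agent.Lib.MXP
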