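import Pool.Agent.Lib.MXP.KumStart
import Pool.Agent.Lib.MXP.KumStX
import Pool.Agent.Lib.MXP.KumLatX

set_option autoImplicit false

/-!
# Module MX.DescKumX: Kummer descent
-/

namespace Pool.Agent.Lib.MXP

open Pool.Agent.Lib.MP_3029eb_ag Pool.Agent.Lib.MP_3029eb_ag.Abh Pool.Agent.Lib.TDO
open Pool.Agent.Lib.TU (Mt)

variable {E W : Type} [Field E] [NormedField W] [IsUltrametricDist W] [Algebra E W] {p r : ℕ}
  {S : IntermediateField E W}

theorem desc_kumX (hr : 0 < r) (hA : AmbX p r S) {Γ : Type} [Group Γ]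
    {L L' : IntermediateField E W} {act : Act Γ S L L'} {l : ℕ} {ξ : W} {s : Γ}
    (hK : KumD p act l ξ s) (h : HasCh S r L') : HasCh S r L := by
  obtain ⟨c, n, n0, hc, hy⟩ := eig_start hr hA hK h
  obtain ⟨c1, n1, hc1, hy1⟩ := eig_stage hr hA hK hc hy
  exact kum_lat hr hA hK hc1 hy1

end Pool.Agent.Lib.MXP
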