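import Pool.Agent.Lib.MXP.Fld

set_option autoImplicit false

/-!
# Module MX.FrStab: a chart with a field of fractions stable under a finite group

`c.B = locV (closure (Lam ∪ G0))`, so `Fr E c = adjoin E G0`.  `G := ∪_s s (G0 ∪ Z0)` (`s z := act.f s z`), a finite subset of `S ∩ L'` (`act.memS`, `act.memL`; `G0 ⊆ c.B ⊆ S`, `Fr E c ≤ L'`),
stable under `Γ` up to the group law on `L'` (`act.mul`), containing `G0 ∪ Z0` (`act.one`).  `fld`: `c'` with `Fr E c' = Fr E c ⊔ E(G) = E(G)`; stable because `s (E(G)) = E(s G)`.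
-/

namespace Pool.Agent.Lib.MXP

open Pool.Agent.Lib.MP_3029eb_ag Pool.Agent.Lib.MP_3029eb_ag.Abh Pool.Agent.Lib.TDO
open Pool.Agent.Lib.TU (Mt)

variable {E W : Type} [Field E] [NormedField W] [IsUltrametricDist W] [Algebra E W] {p r : ℕ}
  {S : IntermediateField E W}

/-- The field of fractions is generated by the generators of `B`. -/
private theorem FrStab_fr_le {c : Tri W r} {G0 : Finset W}
    (h : c.B = locV (ball W) (Subring.closure ((Lam E W : Set W) ∪ (G0 : Set W)))) :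
    Fr E c ≤ IntermediateField.adjoin E (G0 : Set W) := by
  unfold Fr
  rw [IntermediateField.adjoin_le_iff]
  intro z hz
  have hz1 : z ∈ c.B := hz
  rw [h] at hz1
  have hz' : z ∈ (IntermediateField.adjoin E (G0 : Set W)).toSubring := by
    refine locV_closure_le _ ?_ (fun w hw _ => ?_) hz1
    · rintro v (hv | hv)
      · obtain ⟨⟨e, rfl⟩, -⟩ := hv
        exact (IntermediateField.adjoin E (G0 : Set W)).algebraMap_mem e
      · exact IntermediateField.subset_adjoin E _ hv
    · exact inv_mem (S := IntermediateField E W) hw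
  exact hz'

theorem fr_stable (hr : 0 < r) (hA : AmbX p r S) {Γ : Type} [Group Γ] [Finite Γ]
    {L L' : IntermediateField E W} (act : Act Γ S L L') {c : Tri W r} (hc : Ch S L' c)
    (Z0 : Finset W) (hZ0 : ∀ z ∈ Z0, z ∈ S ∧ z ∈ L') :
    ∃ c' : Tri W r, Ch S L' c' ∧ (∀ (s : Γ), ∀ z ∈ Fr E c', act.f s z ∈ Fr E c') ∧
      ∀ z ∈ Z0, z ∈ Fr E c' := by
  classical
  obtain ⟨G0, hG0⟩ := hc.gd.fg
  have hsub : ∀ z ∈ G0, z ∈ c.B := by
    intro z hz
    rw [hG0]
    exact subset_locV_closure (Or.inr hz)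
  have hX : ∀ z ∈ G0 ∪ Z0, z ∈ S ∧ z ∈ L' := by
    intro z hz
    rcases Finset.mem_union.1 hz with hz | hz
    · exact ⟨hc.gd.mem_S (hsub z hz), hc.le (B_le_Fr (hsub z hz))⟩
    · exact hZ0 z hz
  let iΓ : Fintype Γ := Fintype.ofFinite Γ
  set G : Finset W := (Finset.univ : Finset Γ).biUnion
    (fun s => (G0 ∪ Z0).image (fun z => act.f s z)) with hGdef
  have hmemG : ∀ z : W, z ∈ G ↔ ∃ (s : Γ), ∃ y ∈ G0 ∪ Z0, act.f s y = z := by
    intro z
    rw [hGdef, Finset.mem_biUnion]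
    constructor
    · rintro ⟨s, -, hs⟩
      obtain ⟨y, hy, rfl⟩ := Finset.mem_image.1 hs
      exact ⟨s, y, hy, rfl⟩
    · rintro ⟨s, y, hy, rfl⟩
      exact ⟨s, Finset.mem_univ s, Finset.mem_image.2 ⟨y, hy, rfl⟩⟩
  have hG : ∀ g ∈ G, g ∈ S ∧ g ∈ L' := by
    intro g hg
    obtain ⟨s, y, hy, rfl⟩ := (hmemG g).1 hg
    exact ⟨act.memS s y (hX y hy).1, act.memL s y (hX y hy).2⟩
  have hXG : ∀ z ∈ G0 ∪ Z0, z ∈ G := fun z hz =>
    (hmemG z).2 ⟨1, z, hz, act.one z (hX z hz).2⟩
  obtain ⟨c', hc', hfr⟩ : ∃ c' : Tri W r, Ch S L' c' ∧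
      Fr E c' = Fr E c ⊔ IntermediateField.adjoin E (G : Set W) := by
    first
      | exact fld hr hA hc G hG
      | exact fld hA hc G hG
  have hfr' : Fr E c' = IntermediateField.adjoin E (G : Set W) := by
    rw [hfr]
    apply le_antisymm
    · refine sup_le ?_ le_rfl
      refine (FrStab_fr_le hG0).trans ?_
      exact IntermediateField.adjoin.mono E _ _
        fun z hz => Finset.mem_coe.2 (hXG z (Finset.mem_union_left _ (Finset.mem_coe.1 hz)))
    · exact le_sup_right
  refine ⟨c', hc', ?_, ?_⟩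
  · intro s z hz
    rw [hfr'] at hz ⊢
    have hle : IntermediateField.adjoin E (G : Set W) ≤
        (IntermediateField.adjoin E (G : Set W)).comap (act.f s) := by
      rw [IntermediateField.adjoin_le_iff]
      intro g hg
      obtain ⟨t, y, hy, rfl⟩ := (hmemG g).1 (Finset.mem_coe.1 hg)
      refine IntermediateField.subset_adjoin E _ ?_
      refine Finset.mem_coe.2 ((hmemG _).2 ⟨s * t, y, hy, ?_⟩)
      exact act.mul s t y (hX y hy).2
    exact hle hz
  · intro z hz
    rw [hfr']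
    exact IntermediateField.subset_adjoin E _
      (Finset.mem_coe.2 (hXG z (Finset.mem_union_right _ hz)))

end Pool.Agent.Lib.MXP
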