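import Pool.Agent.Lib.MXP.EDefs
import Pool.Agent.Lib.MXP.BxB
import Pool.Agent.Lib.TDO.BDefs
import Pool.Agent.Lib.TDO.DimFG
import Pool.Agent.Lib.TU.DimU
import Pool.Agent.Lib.MP_3029eb_ag.AbhC4
import Pool.Agent.Lib.MP_3029eb_ag.AbhBase

/-!
# Module Dim: lower bound for the dimension of good rings over a trivially normed field
-/

namespace Pool.Agent.Lib.MXP

open Pool.Agent.Lib.MP_3029eb_ag Pool.Agent.Lib.MP_3029eb_ag.Abh Pool.Agent.Lib.TDO

variable {E W : Type} [Field E] [NormedField W] [IsUltrametricDist W] [Algebra E W] {p r : ℕ}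
  {S : IntermediateField E W}

theorem AmbE.le_one (hA : AmbE p r E W) (c : E) : ‖algebraMap E W c‖ ≤ 1 := by
  by_cases hc : c = 0
  · rw [hc, map_zero, norm_zero]; exact zero_le_one
  · exact (hA.trv c hc).le

theorem range_Lam (hA : AmbE p r E W) : Set.range (algebraMap E W) = (Lam E W : Set W) := by
  ext z
  exact (Lam_eq hA.trv).symm

theorem lam_noeth (hA : AmbE p r E W) : IsNoetherianRing (Lam E W) := by
  let f : E →+* Lam E W := (algebraMap E W).codRestrict (Lam E W) (fun e => by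
    have : algebraMap E W e ∈ Set.range (algebraMap E W) := ⟨e, rfl⟩
    rwa [range_Lam hA] at this)
  refine isNoetherianRing_of_surjective E (Lam E W) f ?_
  rintro ⟨z, hz⟩
  obtain ⟨e, he⟩ : z ∈ Set.range (algebraMap E W) := by rw [range_Lam hA]; exact hz
  exact ⟨e, Subtype.ext he⟩

/-- Rings essentially of finite type over `Λ` are noetherian and local. -/
theorem noeth_X (hA : AmbE p r E W) (G : Finset W) (hG : ∀ g ∈ G, ‖g‖ ≤ 1) :
    IsNoetherianRing (locV (ball W) (Subring.closure ((Lam E W : Set W) ∪ (G : Set W)))) ∧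
      IsLocalRing (locV (ball W) (Subring.closure ((Lam E W : Set W) ∪ (G : Set W)))) := by
  rw [← range_Lam hA]
  exact noeth_fg hA.le_one G hG

/-- Paper 1.1: the dimension is at least `r + 1`. -/
theorem dim_X (hA : AmbX p r S) (G : Finset W) (hG : ∀ g ∈ G, g ∈ S ∧ ‖g‖ ≤ 1)
    (halg : ∀ z ∈ S,
      IsAlgebraic (locV (ball W) (Subring.closure ((Lam E W : Set W) ∪ (G : Set W)))) z) :
    ((r + 1 : ℕ) : WithBot ℕ∞) ≤
      ringKrullDim (locV (ball W) (Subring.closure ((Lam E W : Set W) ∪ (G : Set W)))) := by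
  have hE := hA.ambE
  rw [← range_Lam hE] at halg ⊢
  set F : IntermediateField E W := IntermediateField.adjoin E (G : Set W) with hF
  have hle : locV (ball W) (Subring.closure (Set.range (algebraMap E W) ∪ (G : Set W))) ≤
      F.toSubfield.toSubring := by
    rintro z ⟨a, ha, b, hb, hb1, h⟩
    have h1 : Subring.closure (Set.range (algebraMap E W) ∪ (G : Set W)) ≤
        F.toSubfield.toSubring := by
      rw [Subring.closure_le]
      rintro u (⟨e, rfl⟩ | hu)
      · exact F.algebraMap_mem e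
      · exact IntermediateField.subset_adjoin E _ hu
    have hb0 : b ≠ 0 := by
      rintro rfl
      rw [map_zero] at hb1
      exact zero_ne_one hb1
    have h2 : z = a / b := by rw [← h, mul_div_cancel_right₀ _ hb0]
    rw [h2]
    exact F.div_mem (h1 ha) (h1 hb)
  have hFS : F ≤ S := by
    rw [hF, IntermediateField.adjoin_le_iff]
    exact fun g hg => (hG g hg).1
  have hSF : ∀ z ∈ S, IsAlgebraic F z := fun z hz => isAlgebraic_mono hle (halg z hz)
  -- the transcendence degree of `F`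
  let i1 : Algebra F S := (IntermediateField.inclusion hFS).toRingHom.toAlgebra
  have i2 : IsScalarTower E F S := IsScalarTower.of_algebraMap_eq fun c => rfl
  have i3 : Algebra.IsAlgebraic F S := by
    refine ⟨fun z => ?_⟩
    obtain ⟨P, hP0, hP⟩ := hSF z z.2
    refine ⟨P, hP0, ?_⟩
    apply Subtype.ext
    refine Eq.trans ?_ hP
    rw [Polynomial.aeval_def, Polynomial.aeval_def]
    exact Polynomial.hom_eval₂ P (algebraMap F S) (algebraMap S W) z
  have htr : Algebra.trdeg E F = ((r + 1 : ℕ) : Cardinal) := by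
    have h1 := _root_.trdeg_add_eq E F (A := S)
    have h2 : Algebra.trdeg F S = 0 := _root_.trdeg_eq_zero
    rw [h2, add_zero, hA.trd] at h1
    exact h1
  obtain ⟨ι, x, hx⟩ := exists_isTranscendenceBasis' E F
  have hcard : Cardinal.mk ι = ((r + 1 : ℕ) : Cardinal) := by rw [hx.cardinalMk_eq_trdeg, htr]
  obtain ⟨f⟩ : Nonempty (ι ≃ Fin (r + 1)) := by
    rw [← Cardinal.eq, hcard]; simp
  have hz : AlgebraicIndependent E (x ∘ f.symm) := hx.1.comp _ f.symm.injective
  have hz2 : AlgebraicIndependent E (fun i => ((x (f.symm i) : F) : W)) :=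
    hz.map' (f := F.val) F.val.injective
  refine TU.dim_fgU hE.trv G (fun g hg => (hG g hg).2) ?_ (r + 1) _
    (fun i => (x (f.symm i)).2) hz2
  intro z hz
  have hz1 : ‖z‖ ≤ 1 := by
    have h1 : Subring.closure (Set.range (algebraMap E W) ∪ (G : Set W)) ≤ (ball W).toSubring := by
      rw [Subring.closure_le]
      rintro u (⟨e, rfl⟩ | hu)
      · exact (mem_ball _).2 (hE.le_one e)
      · exact (mem_ball _).2 (hG u hu).2
    exact (mem_ball _).1 (locV_le (ball W) h1 hz)
  obtain ⟨P, hPm, hPc, hP⟩ := hA.res z hz1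
  have hlift : P ∈ Polynomial.lifts (algebraMap E W) := by
    rw [Polynomial.lifts_iff_coeff_lifts]
    intro j
    have h1 : P.coeff j ∈ (Lam E W : Set W) := hPc j
    rwa [← range_Lam hE] at h1
  obtain ⟨Q, hQ, -, hQm⟩ := Polynomial.lifts_and_natDegree_eq_and_monic hlift hPm
  refine ⟨Q, hQm.ne_zero, ?_⟩
  rw [Polynomial.aeval_def, ← Polynomial.eval_map, hQ]
  exact hP

theorem gs_noeth (hA : AmbX p r S) {c : Tri W r} (hc : Gs S c) :
    IsNoetherianRing c.B ∧ IsLocalRing c.B := by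
  obtain ⟨G, hG⟩ := hc.fg
  have hG1 : ∀ g ∈ G, ‖g‖ ≤ 1 := by
    intro g hg
    refine (hc.le g ?_).2
    rw [hG]
    exact ⟨g, Subring.subset_closure (Or.inr hg), 1, one_mem _, map_one _, mul_one g⟩
  rw [hG]
  exact noeth_X hA.ambE G hG1

/-- Paper 1.2: no power of `y` is in the ideal generated by the `x i`. -/
theorem gs_y_pow (hA : AmbX p r S) {c : Tri W r} (hc : Gs S c) (n : ℕ) (b : Fin r → W)
    (hb : ∀ i, b i ∈ c.B) : c.y ^ n ≠ ∑ i, b i * c.x i := by
  intro heq
  obtain ⟨hno, hlo⟩ := gs_noeth hA hc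
  have hdim : ((r + 1 : ℕ) : WithBot ℕ∞) ≤ ringKrullDim c.B := by
    obtain ⟨G, hG⟩ := hc.fg
    have hG1 : ∀ g ∈ G, g ∈ S ∧ ‖g‖ ≤ 1 := by
      intro g hg
      refine hc.le g ?_
      rw [hG]
      exact ⟨g, Subring.subset_closure (Or.inr hg), 1, one_mem _, map_one _, mul_one g⟩
    have halg := hc.alg
    rw [hG] at halg ⊢
    exact dim_X hA G hG1 halg
  have hdom : ∀ z : c.B, z ∈ IsLocalRing.maximalIdeal c.B ↔ ‖(z : W)‖ < 1 := by
    intro z
    rw [IsLocalRing.mem_maximalIdeal, mem_nonunits_iff]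
    have hz1 := (hc.le z z.2).2
    constructor
    · intro hz
      by_contra hcon
      have h1 : ‖(z : W)‖ = 1 := le_antisymm hz1 (not_lt.1 hcon)
      apply hz
      have h0 : (z : W) ≠ 0 := by
        intro h0
        rw [h0, norm_zero] at h1
        exact zero_ne_one h1
      obtain ⟨G, hG⟩ := hc.fg
      have hinv : (z : W)⁻¹ ∈ c.B := by
        have h2 : locV (ball W) c.B = c.B := by
          rw [hG]; exact locV_locV (ball W) _
        have h3 : (z : W)⁻¹ ∈ locV (ball W) c.B :=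
          ⟨1, one_mem _, z, z.2, (ball_val_eq_one _).2 h1, inv_mul_cancel₀ h0⟩
        rwa [h2] at h3
      exact IsUnit.of_mul_eq_one ⟨(z : W)⁻¹, hinv⟩ (Subtype.ext (mul_inv_cancel₀ h0))
    · rintro hz ⟨u, hu⟩
      have h2 : (z : W) * ((↑u⁻¹ : c.B) : W) = 1 := by
        rw [← hu]
        exact congrArg Subtype.val u.mul_inv
      have h3 := (hc.le _ (↑u⁻¹ : c.B).2).2
      have h4 : ‖(z : W)‖ * ‖((↑u⁻¹ : c.B) : W)‖ = 1 := by rw [← norm_mul, h2, norm_one]
      have h5 := norm_nonneg (z : W)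
      nlinarith
  -- the maximal ideal is minimal over `(x)`
  let X : Fin r → c.B := fun i => ⟨c.x i, hc.xB i⟩
  let J : Ideal c.B := Ideal.span (Set.range X)
  have hyJ : (⟨c.y, hc.yB⟩ : c.B) ^ n ∈ J := by
    have h1 : (⟨c.y, hc.yB⟩ : c.B) ^ n = ∑ i, (⟨b i, hb i⟩ : c.B) * X i := by
      apply Subtype.ext
      push_cast
      exact heq
    rw [h1]
    exact Ideal.sum_mem _ fun i _ => Ideal.mul_mem_left _ _ (Ideal.subset_span ⟨i, rfl⟩)
  have hmin : IsLocalRing.maximalIdeal c.B ∈ J.minimalPrimes := by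
    refine ⟨⟨inferInstance, ?_⟩, ?_⟩
    · rw [Ideal.span_le]
      rintro _ ⟨i, rfl⟩
      exact (hdom _).2 (hc.ind.lt i)
    · rintro q ⟨hq, hJq⟩ _
      intro z hz
      obtain ⟨b', b0, hb', hb0, hz'⟩ := hc.gen z z.2 ((hdom z).1 hz)
      have hyq : (⟨c.y, hc.yB⟩ : c.B) ∈ q := hq.mem_of_pow_mem _ (hJq hyJ)
      have h1 : z = ∑ i, (⟨b' i, hb' i⟩ : c.B) * X i + (⟨b0, hb0⟩ : c.B) * ⟨c.y, hc.yB⟩ := by
        apply Subtype.ext
        push_cast
        exact hz'
      rw [h1]
      exact q.add_mem (Ideal.sum_mem _ fun i _ => Ideal.mul_mem_left _ _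
        (hJq (Ideal.subset_span ⟨i, rfl⟩))) (q.mul_mem_left _ hyq)
  have hh : (IsLocalRing.maximalIdeal c.B).height ≤ (r : ℕ∞) := by
    classical
    have h1 := Ideal.height_le_card_of_mem_minimalPrimes_span (Set.finite_range X) hmin
    refine h1.trans ?_
    have h3 : (Set.range X).ncard ≤ r := by
      rw [← Set.image_univ]
      refine (Set.ncard_image_le (Set.finite_univ)).trans ?_
      simp
    exact_mod_cast h3
  rw [← IsLocalRing.maximalIdeal_height_eq_ringKrullDim] at hdim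
  have h1 : ((r + 1 : ℕ) : ℕ∞) ≤ (r : ℕ∞) := (by exact_mod_cast hdim : ((r + 1 : ℕ) : ℕ∞) ≤
    (IsLocalRing.maximalIdeal c.B).height).trans hh
  have h2 : r + 1 ≤ r := by exact_mod_cast h1
  omega

theorem Gs.noeth {c : Tri W r} (hA : AmbX p r S) (h : Gs S c) : IsNoetherianRing c.B :=
  (gs_noeth hA h).1

theorem Gs.y_pow {c : Tri W r} (hA : AmbX p r S) (h : Gs S c) (n : ℕ) (b : Fin r → W)
    (hb : ∀ i, b i ∈ c.B) : c.y ^ n ≠ ∑ i, b i * c.x i :=
  gs_y_pow hA h n b hb

end Pool.Agent.Lib.MXP
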