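import Pool.Agent.Lib.MXP.GoodExt
import Pool.Agent.Lib.MXP.Dim

set_option autoImplicit false

/-!
# Module MX.ParCh: change of parameters

`par_change`: `‖x i‖ = ‖c.x i‖`, so `‖mon x a‖ = ‖mon c.x a‖`: `Indep x`.  `gen`: `z = ∑ b_i c.x_i + b_0 c.y`, `c.x i = x i * (v i)⁻¹`, `c.y = v⁻¹ (y - ∑ b_i c.x_i)`; inverses of elements of norm one are in `c.B`.
`act_y`: `f` is an isometric ring homomorphism `W → W` with `f c.B = c.B` (here: `f, f'` map `c.B` to itself and are inverse to each other on `c.B`) and `f (c.x i) = c.x i * u_i`.  `‖f y‖ = ‖y‖ < 1`: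
`f y = b_0 y + ∑ b_i x_i` (`Gs.gen`).  If `‖b_0‖ < 1` then `b_0 = e y + ∑ ..`, so `f y = e y^2 + ∑ b'_i x_i`.  Every element of norm `< 1` of `c.B` is `f` of such an element, so is in the ideal generated by
the `f (x_i) = x_i u_i` and `f y`: `y = ∑ e_i x_i + e_0 f y = ∑ e'_i x_i + e' y^2`, `y (1 - e' y) = ∑ e'_i x_i`, `1 - e' y` is a unit of `c.B`: `y = y^1 = ∑ e''_i x_i`, against
`gs_y_pow` (`Dim.lean`).
-/

namespace Pool.Agent.Lib.MXP

open Pool.Agent.Lib.MP_3029eb_ag Pool.Agent.Lib.MP_3029eb_ag.Abh Pool.Agent.Lib.TDO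
open Pool.Agent.Lib.TU (Mt)

variable {E W : Type} [Field E] [NormedField W] [IsUltrametricDist W] [Algebra E W] {p r : ℕ}
  {S : IntermediateField E W}

omit [IsUltrametricDist W] in
private theorem parCh_norm_eq {B : Subring W} {a z v : W} (_hv : v ∈ B) (h1 : ‖v‖ = 1)
    (h : z = a * v) : ‖z‖ = ‖a‖ := by
  rw [h, norm_mul, h1, mul_one]

omit [IsUltrametricDist W] in
private theorem parCh_mon {r : ℕ} {x x' : Fin r → W} (h : ∀ i, ‖x i‖ = ‖x' i‖) (δ : Fin r → ℤ) :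
    ‖mon x δ‖ = ‖mon x' δ‖ := by
  unfold mon
  rw [norm_prod, norm_prod]
  exact Finset.prod_congr rfl fun i _ => by rw [norm_zpow, norm_zpow, h i]

omit [IsUltrametricDist W] in
private theorem parCh_indep {r : ℕ} {x x' : Fin r → W} (h : ∀ i, ‖x i‖ = ‖x' i‖)
    (hI : Indep x') : Indep x := by
  refine ⟨fun i h0 => ?_, fun i => ?_, fun δ hδ => ?_⟩
  · have h1 := h i
    rw [h0, norm_zero] at h1
    exact hI.ne i (norm_eq_zero.1 h1.symm)
  · rw [h i]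
    exact hI.lt i
  · rw [parCh_mon h] at hδ
    exact hI.indep δ hδ

omit [IsUltrametricDist W] in
private theorem parCh_ne {v : W} (h1 : ‖v‖ = 1) : v ≠ 0 := by
  intro h0
  rw [h0, norm_zero] at h1
  exact zero_ne_one h1

theorem par_change {c : Tri W r} (hc : Gs S c) (x : Fin r → W) (y : W)
    (hx : ∀ i, ∃ v ∈ c.B, ‖v‖ = 1 ∧ x i = c.x i * v)
    (hy : ∃ v ∈ c.B, ‖v‖ = 1 ∧ ∃ b : Fin r → W, (∀ i, b i ∈ c.B) ∧
      y = c.y * v + ∑ i, b i * c.x i) :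
    Gs S (⟨c.B, x, y⟩ : Tri W r) := by
  obtain ⟨w, hwB, hw1, b, hb, hyb⟩ := hy
  have hxB : ∀ i, x i ∈ c.B := by
    intro i
    obtain ⟨v, hv, _, hxi⟩ := hx i
    rw [hxi]
    exact mul_mem (hc.xB i) hv
  have hyJ : y ∈ JI c.B c.x c.y := by
    rw [hyb]
    refine JI_add ?_ (JI_sum _ _ fun i _ => JI_mul (hb i) (JI_x i))
    rw [mul_comm]
    exact JI_mul hwB JI_y
  have hyB : y ∈ c.B := JI_mem hc.xB hc.yB hyJ
  have hy1 : ‖y‖ < 1 := JI_lt (fun z hz => (hc.le z hz).2) hc.ind.lt hc.y1 hyJ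
  have hcx : ∀ i, c.x i ∈ JI c.B x y := by
    intro i
    obtain ⟨v, hv, hv1, hxi⟩ := hx i
    have h0 : v ≠ 0 := parCh_ne hv1
    have h1 : c.x i = v⁻¹ * x i := by
      rw [hxi]
      field_simp
    rw [h1]
    exact JI_mul (hc.inv hv hv1) (JI_x i)
  have hcy : c.y ∈ JI c.B x y := by
    have h0 : w ≠ 0 := parCh_ne hw1
    have h1 : c.y = w⁻¹ * (y - ∑ i, b i * c.x i) := by
      rw [hyb]
      field_simp
      ring
    rw [h1]
    exact JI_mul (hc.inv hwB hw1) (JI_sub JI_y (JI_sum _ _ fun i _ => JI_mul (hb i) (hcx i)))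
  exact
    { fg := hc.fg
      le := hc.le
      ind := parCh_indep (fun i => by
        obtain ⟨v, hv, hv1, hxi⟩ := hx i
        exact parCh_norm_eq hv hv1 hxi) hc.ind
      y1 := hy1
      xB := hxB
      yB := hyB
      gen := fun z hz hz1 => JI_le hcx hcy (hc.gen z hz hz1)
      alg := hc.alg
      sep := hc.sep }

theorem act_y (hA : AmbX p r S) {c : Tri W r} (hc : Gs S c) (f f' : W →ₐ[E] W)
    (hiso : ∀ z, ‖f z‖ = ‖z‖) (hf : ∀ z ∈ c.B, f z ∈ c.B) (hf' : ∀ z ∈ c.B, f' z ∈ c.B)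
    (hff : ∀ z ∈ c.B, f (f' z) = z) (hiso' : ∀ z, ‖f' z‖ = ‖z‖)
    (hx : ∀ i, ∃ u ∈ c.B, ‖u‖ = 1 ∧ f (c.x i) = c.x i * u) :
    ∃ v ∈ c.B, ‖v‖ = 1 ∧ ∃ b : Fin r → W, (∀ i, b i ∈ c.B) ∧
      f c.y = c.y * v + ∑ i, b i * c.x i := by
  have hle : ∀ z ∈ c.B, ‖z‖ ≤ 1 := fun z hz => (hc.le z hz).2
  obtain ⟨b, b0, hb, hb0, heq⟩ := hc.gen (f c.y) (hf _ hc.yB) (by rw [hiso]; exact hc.y1)
  by_cases h1 : ‖b0‖ = 1
  · exact ⟨b0, hb0, h1, b, hb, by rw [heq]; ring⟩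
  exfalso
  have h2 : ‖b0‖ < 1 := lt_of_le_of_ne (hle _ hb0) h1
  obtain ⟨d, e, hd, he, hb0'⟩ := hc.gen b0 hb0 h2
  -- `f y` is in the ideal generated by `x` and `y ^ 2`
  have hyy : c.y * c.y ∈ JI c.B c.x (c.y * c.y) := JI_y
  have hfy : f c.y ∈ JI c.B c.x (c.y * c.y) := by
    have h3 : f c.y = ∑ i, b i * c.x i + (∑ i, c.y * d i * c.x i + e * (c.y * c.y)) := by
      rw [heq, hb0', add_mul, Finset.sum_mul]
      congr 1
      congr 1
      · exact Finset.sum_congr rfl fun i _ => by ring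
      · ring
    rw [h3]
    exact JI_add (JI_sum _ _ fun i _ => JI_mul (hb i) (JI_x i))
      (JI_add (JI_sum _ _ fun i _ => JI_mul (mul_mem hc.yB (hd i)) (JI_x i)) (JI_mul he hyy))
  -- `y = f (f' y)`
  obtain ⟨g, g0, hg, hg0, hgy⟩ := hc.gen (f' c.y) (hf' _ hc.yB) (by rw [hiso']; exact hc.y1)
  have hy : c.y ∈ JI c.B c.x (c.y * c.y) := by
    have h3 : c.y = ∑ i, f (g i) * f (c.x i) + f g0 * f c.y := by
      have h4 := hff _ hc.yB
      rw [hgy, map_add, map_sum, map_mul] at h4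
      rw [← h4]
      congr 1
      · exact Finset.sum_congr rfl fun i _ => by rw [map_mul]
      · rw [h4]
    have h4 : ∀ i, f (c.x i) ∈ JI c.B c.x (c.y * c.y) := by
      intro i
      obtain ⟨u, hu, _, hxu⟩ := hx i
      rw [hxu, mul_comm (c.x i) u]
      exact JI_mul hu (JI_x i)
    have h5 : ∑ i, f (g i) * f (c.x i) + f g0 * f c.y ∈ JI c.B c.x (c.y * c.y) :=
      JI_add (JI_sum _ _ fun i _ => JI_mul (hf _ (hg i)) (h4 i)) (JI_mul (hf _ hg0) hfy)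
    rwa [← h3] at h5
  obtain ⟨k, k0, hk, hk0, hky⟩ := hy
  have h5 : ‖1 - k0 * c.y‖ = 1 := by
    have h6 : ‖k0 * c.y‖ < 1 := by
      rw [norm_mul]
      calc ‖k0‖ * ‖c.y‖ ≤ 1 * ‖c.y‖ := mul_le_mul_of_nonneg_right (hle _ hk0) (norm_nonneg _)
        _ < 1 := by rw [one_mul]; exact hc.y1
    have h7 : ‖(1 : W)‖ = 1 := norm_one
    exact JI_norm_eq_one h7 (by rw [sub_sub_cancel]; exact h6)
  have h8 : 1 - k0 * c.y ∈ c.B := sub_mem (one_mem _) (mul_mem hk0 hc.yB)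
  have h9 := hc.inv h8 h5
  have h10 : 1 - k0 * c.y ≠ 0 := parCh_ne h5
  refine gs_y_pow hA hc 1 (fun i => (1 - k0 * c.y)⁻¹ * k i) (fun i => mul_mem h9 (hk i)) ?_
  have h11 : (1 - k0 * c.y) * c.y = ∑ i, k i * c.x i := by
    have h12 : c.y - k0 * (c.y * c.y) = ∑ i, k i * c.x i := by
      nth_rewrite 1 [hky]
      ring
    rw [← h12]
    ring
  have h13 : ∑ i, (1 - k0 * c.y)⁻¹ * k i * c.x i = (1 - k0 * c.y)⁻¹ * ∑ i, k i * c.x i := by
    rw [Finset.mul_sum]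
    exact Finset.sum_congr rfl fun i _ => by ring
  rw [pow_one, h13, ← h11, inv_mul_cancel_left₀ h10]

end Pool.Agent.Lib.MXP
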