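import Pool.Agent.Lib.MXP.StabX
import Pool.Agent.Lib.MXP.FrStab
import Pool.Agent.Lib.MXP.DedX
import Pool.Agent.Lib.MXP.InvR
import Pool.Agent.Lib.MXP.InvSep
import Pool.Agent.Lib.MXP.ParCh

set_option autoImplicit false

/-!
# Module MX.UnrD: unramified descent (paper section 10)

`unr_par`: write `s z := act.f s z`; `s (c.x i) = c.x i * u_(s,i)`, `s c.y = c.y * v_s + ∑ b_(s,i) c.x_i` (`act_y` with `f := act.f s`, `f' := act.f s⁻¹`; for `z ∈ c.B ⊆ L'`: `act.mul`, `act.one`).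
`dedekX` with `u := u_(·,i)`: `b`, `x i := ∑_s s (b c.x_i) = c.x i * ∑_s s(b) u_(s,i)`, fixed by `Γ` (reindex the sum; `act.mul`), so in `L` (`act.fix`).
`dedekX` with `u := v`: `b`, `y := ∑_s s (b c.y) = c.y * ∑_s s(b) v_s + (..) ∈` the ideal of the `c.x_i`.
`desc_unrX`: `Γ` trivial or not, choose `ζ' ∈ Fr E c`, `‖ζ - ζ'‖ < 1` (`Ch.approx`), so `‖ζ'‖ ≤ 1`, `‖s ζ' - ζ'‖ = 1` for `s ≠ 1`.  `fr_stable` with `Z0 := {ζ'}` (`ζ' ∈ S`), `stable_good` with `Z0 := {ζ'}`: `c`,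
`ζ' ∈ c.B`.  `dedekX` with `u := 1`: `t ∈ c.B`, `‖∑ s t‖ = 1`.  `unr_par`, `par_change`: `c1 := ⟨c.B, x, y⟩` is strictly good.  `A0 := c.B ⊓ L`, `c0 := ⟨A0, x, y⟩`.
`Gs S c0`: `fg`: `inv_ring`; `gen`: `z ∈ A0`, `‖z‖ < 1`: `z = ∑ a_i x_i + a_0 y` with `a ∈ c.B`; `τ := ∑ s t`, `τ z = ∑_s s (t z) = ∑_i (∑_s s (t a_i)) x_i + (∑_s s (t a_0)) y`, divide by `τ`; `alg`: `inv_alg` and
transitivity.  `Ch S L c0`: `Fr E c0 ≤ L` (`A0 ≤ L`), dense: `inv_dense` (`Fr E c0 = adjoin E {u | u ∈ c.B ∧ u ∈ L}`).  `hLL`: `L ≤ L'`.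
-/

namespace Pool.Agent.Lib.MXP

open Pool.Agent.Lib.MP_3029eb_ag Pool.Agent.Lib.MP_3029eb_ag.Abh Pool.Agent.Lib.TDO
open Pool.Agent.Lib.TU (Mt)

variable {E W : Type} [Field E] [NormedField W] [IsUltrametricDist W] [Algebra E W] {p r : ℕ}
  {S : IntermediateField E W}

private theorem unrD_tr {Γ : Type} [Group Γ] [Fintype Γ] {L L' : IntermediateField E W}
    (act : Act Γ S L L') {w : W} (hw : w ∈ L') : ∑ s, act.f s w ∈ L := by
  have h1 : ∑ s, act.f s w ∈ L' := sum_mem fun s _ => act.memL s w hw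
  rw [← act.fix _ h1]
  intro σ
  rw [map_sum]
  have h2 : ∀ s, act.f σ (act.f s w) = act.f (σ * s) w := fun s => (act.mul σ s w hw).symm
  simp_rw [h2]
  exact Fintype.sum_equiv (Equiv.mulLeft σ) _ _ (fun s => rfl)

private theorem unrD_alg {A0 A : Subring W} (hle : A0 ≤ A)
    (hint : ∀ z ∈ A, ∃ P : Polynomial W, P.Monic ∧ (∀ j, P.coeff j ∈ A0) ∧ P.eval z = 0)
    {z : W} (hz : IsAlgebraic A z) : IsAlgebraic A0 z := by
  letI : Algebra A0 A := (Subring.inclusion hle).toAlgebra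
  haveI : IsScalarTower A0 A W := IsScalarTower.of_algebraMap_eq (fun _ => rfl)
  haveI : Algebra.IsAlgebraic A0 A := by
    refine ⟨fun a => ?_⟩
    obtain ⟨P, hPm, hPc, hP0⟩ := hint a a.2
    have hP : (↑P.coeffs : Set W) ⊆ A0 := by
      intro w hw
      obtain ⟨j, -, rfl⟩ := Polynomial.mem_coeffs_iff.1 hw
      exact hPc j
    have hQm : (P.toSubring A0 hP).Monic := (Polynomial.monic_toSubring P A0 hP).2 hPm
    have hQ : Polynomial.aeval a (P.toSubring A0 hP) = 0 := by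
      apply Subtype.ext
      have h1 : ((Polynomial.aeval a (P.toSubring A0 hP) : A) : W) =
          Polynomial.aeval (a : W) (P.toSubring A0 hP) :=
        (Polynomial.aeval_algebraMap_apply W a (P.toSubring A0 hP)).symm
      rw [h1, Polynomial.aeval_def, ← Polynomial.eval_map]
      have h2 : (P.toSubring A0 hP).map (algebraMap A0 W) = P :=
        Polynomial.map_toSubring P A0 hP
      rw [h2, hP0]
      rfl
    exact IsIntegral.isAlgebraic ⟨_, hQm, hQ⟩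
  exact hz.restrictScalars A0

private theorem unrD_mem {L : IntermediateField E W} {A : Subring W} {z : W} :
    z ∈ A ⊓ L.toSubfield.toSubring ↔ z ∈ A ∧ z ∈ L := Iff.rfl

private theorem unrD_pt {Γ : Type} [Group Γ] {L L' : IntermediateField E W}
    (act : Act Γ S L L') {ζ ζ' : W} (hn : ‖ζ - ζ'‖ < 1)
    (hζ : ∀ σ : Γ, σ ≠ 1 → ‖act.f σ ζ - ζ‖ = 1) :
    ∀ σ : Γ, σ ≠ 1 → ‖act.f σ ζ' - ζ'‖ = 1 := by
  intro σ hσ
  have e : act.f σ ζ' - ζ' = (act.f σ ζ - ζ) + ((ζ - ζ') - act.f σ (ζ - ζ')) := by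
    rw [map_sub]
    ring
  have h2 : ‖(ζ - ζ') - act.f σ (ζ - ζ')‖ < 1 := by
    have h := IsUltrametricDist.norm_add_le_max (ζ - ζ') (-(act.f σ (ζ - ζ')))
    rw [norm_neg, ← sub_eq_add_neg, act.iso, max_self] at h
    exact lt_of_le_of_lt h hn
  have h3 : ‖(ζ - ζ') - act.f σ (ζ - ζ')‖ < ‖act.f σ ζ - ζ‖ := by
    rw [hζ σ hσ]
    exact h2
  rw [e, IsUltrametricDist.norm_add_eq_max_of_norm_ne_norm (ne_of_gt h3), max_eq_left h3.le,
    hζ σ hσ]

/-- The chart of the ring of invariants. -/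
private theorem unrD_chart {Γ : Type} [Group Γ] [Fintype Γ] {L L' : IntermediateField E W}
    (act : Act Γ S L L') (hLL : L ≤ L') {c : Tri W r} (hc : Gs S c) (hch : Ch S L' c)
    (hcL : ∀ z ∈ c.B, z ∈ L') (hst : ∀ s : Γ, ∀ z ∈ c.B, act.f s z ∈ c.B)
    {t : W} (ht : t ∈ c.B) (ht1 : ‖∑ s, act.f s t‖ = 1) {x : Fin r → W} {y : W}
    (hx : ∀ i, x i ∈ L) (hy : y ∈ L) (h1 : Gs S (⟨c.B, x, y⟩ : Tri W r)) :
    HasCh S r L := by
  have hfixL : ∀ (s : Γ), ∀ z ∈ L, act.f s z = z := fun s z hz =>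
    (act.fix z (hLL hz)).2 hz s
  have hτL : ∑ s, act.f s t ∈ L := unrD_tr act (hcL t ht)
  have hτB : ∑ s, act.f s t ∈ c.B := sum_mem fun s _ => hst s t ht
  have hτ0 : ∑ s, act.f s t ≠ 0 := by
    intro h0
    rw [h0, norm_zero] at ht1
    exact zero_ne_one ht1
  have hgs : Gs S (⟨c.B ⊓ L.toSubfield.toSubring, x, y⟩ : Tri W r) := by
    refine ⟨?_, fun z hz => hc.le z hz.1, h1.ind, h1.y1, fun i => ⟨h1.xB i, hx i⟩,
      ⟨h1.yB, hy⟩, ?_, ?_, fun z hz => inv_sepS act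
        (c' := ⟨c.B ⊓ L.toSubfield.toSubring, x, y⟩) hcL hst hc.sep le_rfl hz⟩
    · obtain ⟨G0, -, hG0⟩ := inv_ring act hc.fg (fun z hz => (hc.le z hz).2) hcL hst ht ht1
      exact ⟨G0, hG0⟩
    · intro z hz hz1
      obtain ⟨b, b0, hb, hb0, hzb⟩ := h1.gen z hz.1 hz1
      have hzL : z ∈ L := hz.2
      set τ : W := ∑ s, act.f s t with hτ
      have hτi : τ⁻¹ ∈ c.B := hc.inv hτB ht1
      have hτiL : τ⁻¹ ∈ L := inv_mem hτL
      have hTB : ∀ w ∈ c.B, τ⁻¹ * ∑ s, act.f s (t * w) ∈ c.B ⊓ L.toSubfield.toSubring := by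
        intro w hw
        exact ⟨mul_mem hτi (sum_mem fun s _ => hst s _ (mul_mem ht hw)),
          mul_mem hτiL (unrD_tr act (hcL _ (mul_mem ht hw)))⟩
      refine ⟨fun i => τ⁻¹ * ∑ s, act.f s (t * b i), τ⁻¹ * ∑ s, act.f s (t * b0),
        fun i => hTB _ (hb i), hTB _ hb0, ?_⟩
      have hmul : ∀ (w v : W), v ∈ L → ∑ s, act.f s (t * (w * v)) =
          (∑ s, act.f s (t * w)) * v := by
        intro w v hv
        rw [Finset.sum_mul]
        refine Finset.sum_congr rfl fun s _ => ?_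
        rw [← mul_assoc, map_mul, hfixL s v hv]
      have hτz : τ * z = ∑ i, (∑ s, act.f s (t * b i)) * x i +
          (∑ s, act.f s (t * b0)) * y := by
        have e1 : τ * z = ∑ s, act.f s (t * z) := by
          rw [hτ, Finset.sum_mul]
          refine Finset.sum_congr rfl fun s _ => ?_
          rw [map_mul, hfixL s z hzL]
        have e2 : t * z = ∑ i, t * (b i * x i) + t * (b0 * y) := by
          rw [hzb, mul_add, Finset.mul_sum]
        have e3 : ∑ s, act.f s (t * z) =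
            ∑ i, (∑ s, act.f s (t * (b i * x i))) + ∑ s, act.f s (t * (b0 * y)) := by
          rw [Finset.sum_comm, ← Finset.sum_add_distrib]
          refine Finset.sum_congr rfl fun s _ => ?_
          rw [e2, map_add, map_sum]
        rw [e1, e3, hmul b0 y hy]
        congr 1
        exact Finset.sum_congr rfl fun i _ => hmul (b i) (x i) (hx i)
      have e4 : z = τ⁻¹ * (τ * z) := by
        rw [← mul_assoc, inv_mul_cancel₀ hτ0, one_mul]
      rw [e4, hτz, mul_add, Finset.mul_sum]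
      congr 1
      · exact Finset.sum_congr rfl fun i _ => (mul_assoc _ _ _).symm
      · exact (mul_assoc _ _ _).symm
    · intro z hz
      exact unrD_alg inf_le_left (fun w hw => inv_alg act hcL hst hw) (hc.alg z hz)
  refine ⟨_, hgs.gd, ?_, ?_⟩
  · unfold Fr
    rw [IntermediateField.adjoin_le_iff]
    intro z hz
    exact hz.2
  · intro z hz
    rw [mem_cl_iff]
    intro ε hε
    exact inv_dense act hch hst ht ht1 hz hLL hε

theorem unr_par (hA : AmbX p r S) {Γ : Type} [Group Γ] [Fintype Γ]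
    {L L' : IntermediateField E W} (act : Act Γ S L L') {c : Tri W r} (hc : Gs S c)
    (hcL : ∀ z ∈ c.B, z ∈ L') (hst : ∀ (s : Γ), ∀ z ∈ c.B, act.f s z ∈ c.B)
    (hxu : ∀ (s : Γ) (i : Fin r), ∃ u ∈ c.B, ‖u‖ = 1 ∧ act.f s (c.x i) = c.x i * u) {ζ : W}
    (hζ : ζ ∈ c.B) (hζ1 : ∀ s : Γ, s ≠ 1 → ‖act.f s ζ - ζ‖ = 1) :
    ∃ (x : Fin r → W) (y : W), (∀ i, x i ∈ L) ∧ y ∈ L ∧
      (∀ i, ∃ v ∈ c.B, ‖v‖ = 1 ∧ x i = c.x i * v) ∧
      ∃ v ∈ c.B, ‖v‖ = 1 ∧ ∃ b : Fin r → W, (∀ i, b i ∈ c.B) ∧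
        y = c.y * v + ∑ i, b i * c.x i := by
  classical
  choose u huB hu1 hxu' using hxu
  have hB1 : ∀ z ∈ c.B, ‖z‖ ≤ 1 := fun z hz => (hc.le z hz).2
  have hb : ∀ i, ∃ b ∈ c.B, ‖∑ s, act.f s b * u s i‖ = 1 := fun i =>
    dedekX act hB1 hcL hst hζ hζ1 (fun s => u s i) (fun s => ⟨huB s i, hu1 s i⟩)
  choose b hbB hb1 using hb
  have hy : ∀ s : Γ, ∃ v ∈ c.B, ‖v‖ = 1 ∧ ∃ e : Fin r → W, (∀ i, e i ∈ c.B) ∧
      act.f s c.y = c.y * v + ∑ i, e i * c.x i := fun s =>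
    act_y hA hc (act.f s) (act.f s⁻¹) (act.iso s) (hst s) (hst s⁻¹)
      (fun z hz => by
        rw [← act.mul s s⁻¹ z (hcL z hz), mul_inv_cancel, act.one z (hcL z hz)])
      (act.iso s⁻¹) (fun i => ⟨u s i, huB s i, hu1 s i, hxu' s i⟩)
  choose v hvB hv1 e heB hye using hy
  obtain ⟨d, hdB, hd1⟩ := dedekX act hB1 hcL hst hζ hζ1 v (fun s => ⟨hvB s, hv1 s⟩)
  refine ⟨fun i => ∑ s, act.f s (b i * c.x i), ∑ s, act.f s (d * c.y), fun i => ?_, ?_,
    fun i => ?_, ?_⟩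
  · exact unrD_tr act (hcL _ (mul_mem (hbB i) (hc.xB i)))
  · exact unrD_tr act (hcL _ (mul_mem hdB hc.yB))
  · refine ⟨∑ s, act.f s (b i) * u s i,
      sum_mem fun s _ => mul_mem (hst s _ (hbB i)) (huB s i), hb1 i, ?_⟩
    rw [Finset.mul_sum]
    refine Finset.sum_congr rfl fun s _ => ?_
    rw [map_mul, hxu' s i]
    ring
  · refine ⟨∑ s, act.f s d * v s, sum_mem fun s _ => mul_mem (hst s _ hdB) (hvB s), hd1,
      fun i => ∑ s, act.f s d * e s i,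
      fun i => sum_mem fun s _ => mul_mem (hst s _ hdB) (heB s i), ?_⟩
    have e1 : ∑ i, (∑ s, act.f s d * e s i) * c.x i =
        ∑ s, ∑ i, act.f s d * e s i * c.x i := by
      simp_rw [Finset.sum_mul]
      exact Finset.sum_comm
    rw [e1, Finset.mul_sum, ← Finset.sum_add_distrib]
    refine Finset.sum_congr rfl fun s _ => ?_
    rw [map_mul, hye s, mul_add, Finset.mul_sum]
    congr 1
    · ring
    · exact Finset.sum_congr rfl fun i _ => by ring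

theorem desc_unrX (hr : 0 < r) (hA : AmbX p r S) {Γ : Type} [Group Γ] [Finite Γ]
    {L L' : IntermediateField E W} (act : Act Γ S L L') (hLL : L ≤ L') (h : HasCh S r L')
    {ζ : W} (hζL : ζ ∈ L') (hζn : ‖ζ‖ ≤ 1) (hζ1 : ∀ s : Γ, s ≠ 1 → ‖act.f s ζ - ζ‖ = 1) :
    HasCh S r L := by
  cases nonempty_fintype Γ
  obtain ⟨c0, hc0⟩ := h
  obtain ⟨ζ', hζ'F, hn⟩ := hc0.approx hζL one_pos
  have hζ'σ : ∀ σ : Γ, σ ≠ 1 → ‖act.f σ ζ' - ζ'‖ = 1 := unrD_pt act hn hζ1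
  have hζ'n : ‖ζ'‖ ≤ 1 := by
    have e : ζ' = ζ + -(ζ - ζ') := by ring
    rw [e]
    refine (IsUltrametricDist.norm_add_le_max _ _).trans (max_le hζn ?_)
    rw [norm_neg]
    exact hn.le
  have hFS : Fr E c0 ≤ S := by
    unfold Fr
    rw [IntermediateField.adjoin_le_iff]
    intro z hz
    exact hc0.gd.mem_S hz
  obtain ⟨c1, hc1, hM, hZ1⟩ := fr_stable hr hA act hc0 {ζ'} (by
    intro z hz
    rw [Finset.mem_singleton] at hz
    subst hz
    exact ⟨hFS hζ'F, hc0.le hζ'F⟩)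
  obtain ⟨c, hcs, hch, -, hst, hZ, hxu⟩ := stable_good hr hA act hc1 hM {ζ'} (by
    intro z hz
    have hz' := hz
    rw [Finset.mem_singleton] at hz
    subst hz
    exact ⟨hZ1 _ hz', hζ'n⟩)
  have hζB : ζ' ∈ c.B := hZ ζ' (Finset.mem_singleton_self ζ')
  have hcL : ∀ z ∈ c.B, z ∈ L' := by
    intro z hz
    refine hch.le ?_
    unfold Fr
    exact IntermediateField.subset_adjoin E _ hz
  obtain ⟨t, htB, ht1⟩ := dedekX act (fun z hz => (hcs.le z hz).2) hcL hst hζB hζ'σ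
    (fun _ => 1) (fun _ => ⟨one_mem _, norm_one⟩)
  simp only [mul_one] at ht1
  obtain ⟨x, y, hxL, hyL, hx, hy⟩ := unr_par hA act hcs hcL hst hxu hζB hζ'σ
  exact unrD_chart act hLL hcs hch hcL hst htB ht1 hxL hyL (par_change hcs x y hx hy)

end Pool.Agent.Lib.MXP
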