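import Pool.Agent.Lib.MXP.DescKumX
import Pool.Agent.Lib.MXP.UnrD
import Pool.Agent.Lib.MXP.AutX
import Pool.Agent.Lib.MXP.Inert
import Pool.Agent.Lib.MXP.InPrim
import Pool.Agent.Lib.TDO.Cl

set_option autoImplicit false

/-!
# Module MXP.DescX: descent along tame towers
-/

namespace Pool.Agent.Lib.MXP

open Pool.Agent.Lib.MP_3029eb_ag Pool.Agent.Lib.MP_3029eb_ag.Abh Pool.Agent.Lib.TDO

/-- Kummer extensions of prime degree -/
private theorem descX_kummer {k W : Type} [Field k] [Field W] [Algebra k W]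
    (L : IntermediateField k W) (l : ℕ) (hl : l.Prime) (w ζ : W) (hw : w ^ l ∈ L)
    (hζL : ζ ∈ L) (hζ : IsPrimitiveRoot ζ l) (hwL : w ∉ L) :
    FiniteDimensional L (IntermediateField.adjoin L {w}) ∧
      IsGalois L (IntermediateField.adjoin L {w}) ∧
      Module.finrank L (IntermediateField.adjoin L {w}) = l := by
  have hirr : Irreducible (Polynomial.X ^ l - Polynomial.C (⟨w ^ l, hw⟩ : L)) := by
    refine X_pow_sub_C_irreducible_of_prime hl fun b hb => ?_
    have hb' : (b : W) ^ l = w ^ l := congrArg (fun x : L => (x : W)) hb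
    have hb0 : (b : W) ≠ 0 := by
      intro h0
      rw [h0, zero_pow hl.ne_zero] at hb'
      have h1 : w = 0 := pow_eq_zero_iff hl.ne_zero |>.1 hb'.symm
      exact hwL (h1 ▸ L.zero_mem)
    have h2 : (w / (b : W)) ^ l = 1 := by
      rw [div_pow, hb', div_self]
      rw [← hb']
      exact pow_ne_zero _ hb0
    have : NeZero l := ⟨hl.ne_zero⟩
    obtain ⟨i, -, hi⟩ := hζ.eq_pow_of_pow_eq_one h2
    apply hwL
    have h3 : w = ζ ^ i * (b : W) := by rw [hi, div_mul_cancel₀ _ hb0]
    rw [h3]
    exact L.mul_mem (pow_mem hζL i) b.2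
  have hmonic : (Polynomial.X ^ l - Polynomial.C (⟨w ^ l, hw⟩ : L)).Monic :=
    Polynomial.monic_X_pow_sub_C _ hl.ne_zero
  have hroot : Polynomial.aeval w (Polynomial.X ^ l - Polynomial.C (⟨w ^ l, hw⟩ : L)) = 0 := by
    rw [map_sub, map_pow, Polynomial.aeval_X, Polynomial.aeval_C]
    exact sub_self _
  have hint : IsIntegral L w := ⟨_, hmonic, hroot⟩
  have hmin : minpoly L w = Polynomial.X ^ l - Polynomial.C (⟨w ^ l, hw⟩ : L) :=
    (minpoly.eq_of_irreducible_of_monic hirr hroot hmonic).symm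
  have hfd : FiniteDimensional L (IntermediateField.adjoin L {w}) :=
    IntermediateField.adjoin.finiteDimensional hint
  have hrank : Module.finrank L (IntermediateField.adjoin L {w}) = l := by
    rw [IntermediateField.adjoin.finrank hint, hmin, Polynomial.natDegree_X_pow_sub_C]
  refine ⟨hfd, ?_, hrank⟩
  have hprim : (primitiveRoots (Module.finrank L (IntermediateField.adjoin L {w})) L).Nonempty := by
    rw [hrank]
    refine ⟨⟨ζ, hζL⟩, (mem_primitiveRoots hl.pos).2 ?_⟩
    exact IsPrimitiveRoot.of_map_of_injective (f := algebraMap L W) hζ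
      (algebraMap L W).injective
  have htf : (∃ α : IntermediateField.adjoin L {w},
      α ^ (Module.finrank L (IntermediateField.adjoin L {w})) ∈
        Set.range (algebraMap L (IntermediateField.adjoin L {w})) ∧
      IntermediateField.adjoin L {α} = ⊤) → IsGalois L (IntermediateField.adjoin L {w}) ∧
        IsCyclic (IntermediateField.adjoin L {w} ≃ₐ[L] IntermediateField.adjoin L {w}) :=
    ((isCyclic_tfae L (IntermediateField.adjoin L {w}) hprim).out 2 0).1
  refine (htf ?_).1
  refine ⟨IntermediateField.AdjoinSimple.gen L w, ?_, ?_⟩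
  · rw [hrank]
    refine ⟨⟨w ^ l, hw⟩, ?_⟩
    apply Subtype.ext
    rfl
  · have h1 : (IntermediateField.adjoin L {IntermediateField.AdjoinSimple.gen L w}) = ⊤ := by
      rw [eq_top_iff]
      intro x _
      have h2 : (IntermediateField.adjoin L {IntermediateField.AdjoinSimple.gen L w}).map
          (IntermediateField.adjoin L {w}).val = IntermediateField.adjoin L {w} := by
        rw [IntermediateField.adjoin_map, Set.image_singleton]
        rfl
      have h3 : (x : W) ∈ (IntermediateField.adjoin L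
          {IntermediateField.AdjoinSimple.gen L w}).map (IntermediateField.adjoin L {w}).val := by
        rw [h2]
        exact x.2
      obtain ⟨y, hy, hyx⟩ := h3
      have h4 : y = x := Subtype.ext hyx
      rw [← h4]
      exact hy
    exact h1

/-- a finite separable extension of a complete field is complete -/
private theorem descX_complete {k W : Type} [Field k] [NontriviallyNormedField W]
    [IsUltrametricDist W] [Algebra k W] (L : IntermediateField k W)
    (hL : IsComplete (L : Set W)) (hnt : ∃ z ∈ L, z ≠ 0 ∧ ‖z‖ < 1) (N : IntermediateField L W)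
    [FiniteDimensional L N] [Algebra.IsSeparable L N] :
    IsComplete ((N.restrictScalars k : IntermediateField k W) : Set W) := by
  obtain ⟨α, hα⟩ := Field.exists_primitive_element L N
  have h2 : (IntermediateField.adjoin L {α}).map N.val =
      IntermediateField.adjoin L {(α : W)} := by
    rw [IntermediateField.adjoin_map, Set.image_singleton]
    rfl
  have h3 : N = IntermediateField.adjoin L {(α : W)} := by
    rw [← h2, hα]
    ext x
    constructor
    · intro hx
      exact ⟨⟨x, hx⟩, trivial, rfl⟩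
    · rintro ⟨y, -, rfl⟩
      exact y.2
  have h4 : N.restrictScalars k = L ⊔ IntermediateField.adjoin k {(α : W)} := by
    rw [← IntermediateField.restrictScalars_adjoin_eq_sup, ← h3]
  rw [h4]
  exact isComplete_sup hL hnt _
    ((Algebra.IsAlgebraic.isAlgebraic (R := L) α).algebraMap (A := W))

/-- the characteristic exponent -/
theorem exists_charExp {E W : Type} [Field E] [NormedField W] [IsUltrametricDist W]
    [Algebra E W] {p r : ℕ} {S : IntermediateField E W} (hA : AmbX p r S) :
    ∃ q : ℕ, (q = p ∧ (p : W) = 0) ∨ (q = 1 ∧ ∀ n : ℕ, n ≠ 0 → ‖(n : W)‖ = 1) := by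
  rcases hA.chr with h | h
  · exact ⟨p, Or.inl ⟨rfl, h⟩⟩
  · exact ⟨1, Or.inr ⟨rfl, fun n hn => norm_natE hA.trv (h n hn)⟩⟩

theorem desc_allX {E W : Type} [Field E] [NontriviallyNormedField W] [IsUltrametricDist W]
    [Algebra E W] [IsAlgClosed W] {p r : ℕ} (hr : 0 < r) {S F0 L : IntermediateField E W}
    (hA : AmbX p r S) (hFS : F0 ≤ S) (hSF : ∀ z ∈ S, IsSeparable F0 z)
    (hnt0 : ∃ z ∈ F0, z ≠ 0 ∧ ‖z‖ < 1) (hFL : F0 ≤ L)
    (hL : IsComplete (L : Set W)) (halg : ∀ z : W, IsAlgebraic L z) (h : TTower S r p L) :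
    HasCh S r L := by
  classical
  obtain ⟨q, hq⟩ := exists_charExp hA
  have hqN : ∀ (L1 : IntermediateField E W) (N : IntermediateField L1 W),
      (q.Prime ∧ ‖((q : ℕ) : N)‖ < 1) ∨ (q = 1 ∧ ∀ n : ℕ, n ≠ 0 → ‖(n : N)‖ = 1) := by
    intro L1 N
    have h1 : ∀ n : ℕ, ‖((n : ℕ) : N)‖ = ‖(n : W)‖ := by
      intro n
      have h1 : (((n : ℕ) : N) : W) = (n : W) := by push_cast; rfl
      have h2 : ‖((n : ℕ) : N)‖ = ‖(((n : ℕ) : N) : W)‖ := rfl
      rw [h2, h1]
    rcases hq with ⟨rfl, h⟩ | ⟨rfl, h⟩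
    · refine Or.inl ⟨hA.prime, ?_⟩
      rw [h1, h, norm_zero]
      exact one_pos
    · exact Or.inr ⟨rfl, fun n hn => by rw [h1, h n hn]⟩
  have hmono : ∀ L1 L2 : IntermediateField E W, L1 ≤ L2 → (∀ z : W, IsAlgebraic L1 z) →
      ∀ z : W, IsAlgebraic L2 z := by
    intro L1 L2 hle ha z
    obtain ⟨P, hP0, hP⟩ := ha z
    refine ⟨P.map (IntermediateField.inclusion hle).toRingHom, ?_, ?_⟩
    · exact (Polynomial.map_ne_zero_iff (IntermediateField.inclusion hle).toRingHom.injective).2 hP0
    · rw [Polynomial.aeval_def, Polynomial.eval₂_map]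
      exact hP
  induction h with
  | base L h => exact h
  | kstep L l w ζ hl hlk hw hζ hζl _ ih =>
    have hnt : ∃ z ∈ L, z ≠ 0 ∧ ‖z‖ < 1 := by
      obtain ⟨z, hz, h0, h1⟩ := hnt0
      exact ⟨z, hFL hz, h0, h1⟩
    have hle : L ≤ L ⊔ IntermediateField.adjoin E {w} := le_sup_left
    have hwalg : IsAlgebraic L w := halg w
    have hc' : IsComplete ((L ⊔ IntermediateField.adjoin E {w} :
        IntermediateField E W) : Set W) := isComplete_sup hL hnt w hwalg
    have hch := ih (hFL.trans hle) hc' (hmono _ _ hle halg)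
    by_cases hwL : w ∈ L
    · have heq : L ⊔ IntermediateField.adjoin E {w} = L := by
        refine sup_eq_left.2 ?_
        rw [IntermediateField.adjoin_le_iff]
        rintro _ rfl
        exact hwL
      rw [heq] at hch
      exact hch
    obtain ⟨hfd, hgal, hrank⟩ := descX_kummer L l hl w ζ hw hζ hζl hwL
    set N : IntermediateField L W := IntermediateField.adjoin L {w} with hN
    have hNr : N.restrictScalars E = L ⊔ IntermediateField.adjoin E {w} :=
      IntermediateField.restrictScalars_adjoin_eq_sup E L ({w} : Set W)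
    obtain ⟨act, hact⟩ := exists_actX S F0 L hA.sep hFS hSF hFL hL hnt halg N
    rw [← hNr] at hch hc' hle
    have hiso : ∀ (σ : N ≃ₐ[L] N) (z : N), ‖((σ z : N) : W)‖ = ‖(z : W)‖ := fun σ z =>
      isometry_of_complete L hL hnt N σ z
    have hcard : Nat.card (N ≃ₐ[L] N) = l := by
      rw [IsGalois.card_aut_eq_finrank, hrank]
    have : Fact l.Prime := ⟨hl⟩
    have : Fact (Nat.card (N ≃ₐ[L] N)).Prime := ⟨by rw [hcard]; exact hl⟩
    obtain ⟨P, I, -, -, -, -, -, -, hI⟩ := exists_inertia (A := L) (N := N) q (hqN L N) hiso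
    rcases Subgroup.eq_bot_or_eq_top_of_prime_card I with hI' | hI'
    · obtain ⟨z, hz1, hzI, hzn⟩ := exists_inertia_gen (A := L) (N := N) q (hqN L N) hiso I hI
      refine desc_unrX hr hA act hle hch (ζ := (z : W)) z.2 hz1 ?_
      intro σ hσ
      rw [hact]
      refine hzn σ ?_
      rw [hI', Subgroup.mem_bot]
      exact hσ
    · have hcyc : IsCyclic (N ≃ₐ[L] N) := isCyclic_of_prime_card hcard
      obtain ⟨s, hs⟩ := hcyc.exists_generator
      refine desc_kumX hr hA (act := act) (l := l) (ξ := ζ) (s := s)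
        ⟨hl, hlk, hζ, hζl, hcard, ?_, ?_, hle⟩ hch
      · intro σ
        have h1 : σ ∈ Submonoid.powers s := mem_powers_iff_mem_zpowers.2 (hs σ)
        obtain ⟨n, hn⟩ := h1
        exact ⟨n, hn.symm⟩
      · intro z hz hz1
        have h1 : s ∈ I := by rw [hI']; trivial
        have h2 := (hI s).1 h1 (⟨z, hz⟩ : N) hz1
        have h3 := hact s (⟨z, hz⟩ : N)
        have h4 : act.f s z = ((s (⟨z, hz⟩ : N) : N) : W) := h3
        rw [h4]
        exact h2
  | ustep L L1 hU _ ih =>
    obtain ⟨N, hfd, hgal, hN, ζ, hζ1, hζ⟩ := hU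
    have hnt : ∃ z ∈ L, z ≠ 0 ∧ ‖z‖ < 1 := by
      obtain ⟨z, hz, h0, h1⟩ := hnt0
      exact ⟨z, hFL hz, h0, h1⟩
    have hc' := descX_complete L hL hnt N
    have hle : L ≤ N.restrictScalars E := by
      intro z hz
      exact N.algebraMap_mem ⟨z, hz⟩
    rw [hN] at hc' hle
    have hch := ih (hFL.trans hle) hc' (hmono _ _ hle halg)
    obtain ⟨act, hact⟩ := exists_actX S F0 L hA.sep hFS hSF hFL hL hnt halg N
    rw [← hN] at hch hc' hle
    refine desc_unrX hr hA act hle hch (ζ := (ζ : W)) ζ.2 hζ1 ?_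
    intro σ hσ
    rw [hact]
    exact hζ σ hσ


end Pool.Agent.Lib.MXP
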