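import Pool.Agent.Lib.MXP.Defs

/-!
# Module EDefs: the standing assumptions without the field `S`
-/

namespace Pool.Agent.Lib.MXP

open Pool.Agent.Lib.MP_3029eb_ag Pool.Agent.Lib.MP_3029eb_ag.Abh Pool.Agent.Lib.TDO

variable {E W : Type} [Field E] [NormedField W] [IsUltrametricDist W] [Algebra E W] {r : ℕ}

/-- The standing assumptions on `E` and `W`, without the field `S`. -/
structure AmbE (p r : ℕ) (E W : Type) [Field E] [NormedField W] [IsUltrametricDist W]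
    [Algebra E W] : Prop where
  pos : 0 < r
  prime : p.Prime
  chr : (p : W) = 0 ∨ ∀ n : ℕ, n ≠ 0 → (n : W) ≠ 0
  trv : ∀ c : E, c ≠ 0 → ‖algebraMap E W c‖ = 1
  rank : ∀ z : Fin (r + 1) → W, (∀ i, z i ≠ 0) → ∃ a : Fin (r + 1) → ℤ, a ≠ 0 ∧ ‖mon z a‖ = 1
  res : ∀ z : W, ‖z‖ ≤ 1 → ∃ P : Polynomial W, P.Monic ∧ (∀ j, P.coeff j ∈ Lam E W) ∧
    ‖P.eval z‖ < 1

theorem AmbE.ambX {p : ℕ} (h : AmbE p r E W) (S : IntermediateField E W)
    (hsep : ∀ z : W, IsSeparable S z → z ∈ S)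
    (htr : Algebra.trdeg E S = ((r + 1 : ℕ) : Cardinal)) : AmbX p r S :=
  ⟨h.pos, h.prime, h.chr, h.trv, h.rank, h.res, hsep, htr⟩

theorem AmbX.ambE {p : ℕ} {S : IntermediateField E W} (h : AmbX p r S) : AmbE p r E W :=
  ⟨h.pos, h.prime, h.chr, h.trv, h.rank, h.res⟩

end Pool.Agent.Lib.MXP
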