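import Pool.Agent.Lib.MXP.LdBas

/-!
# Module ExpA: expansions with respect to a system of representatives
-/

namespace Pool.Agent.Lib.MXP

open Pool.Agent.Lib.MP_3029eb_ag Pool.Agent.Lib.MP_3029eb_ag.Abh Pool.Agent.Lib.TDO

section Gen

variable {W : Type} [Field W] {m : ℕ}

theorem monN_add_single (X : Fin m → W) (b : Fin m → ℕ) (i : Fin m) :
    monN X (b + Pi.single i 1) = monN X b * X i := by
  unfold monN
  simp only [Pi.add_apply, pow_add]
  rw [Finset.prod_mul_distrib]
  congr 1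
  rw [Finset.prod_eq_single i]
  · rw [Pi.single_eq_same, pow_one]
  · intro j _ hj
    rw [Pi.single_eq_of_ne hj, pow_zero]
  · intro h
    exact absurd (Finset.mem_univ i) h

theorem sum_add_single (b : Fin m → ℕ) (i : Fin m) :
    ∑ j, (b + Pi.single i 1 : Fin m → ℕ) j = ∑ j, b j + 1 := by
  simp only [Pi.add_apply]
  rw [Finset.sum_add_distrib]
  congr 1
  rw [Finset.sum_eq_single i]
  · rw [Pi.single_eq_same]
  · intro j _ hj
    rw [Pi.single_eq_of_ne hj]
  · intro h
    exact absurd (Finset.mem_univ i) h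

theorem exp_step {A : Subring W} {X : Fin m → W} (n : ℕ) (u : (Fin m → ℕ) → Fin m → W)
    (hu : ∀ b i, u b i ∈ A) :
    ∃ t : (Fin m → ℕ) → W, (∀ b, t b ∈ A) ∧
      ∑ b ∈ Finset.piAntidiag Finset.univ n, (∑ i, u b i * X i) * monN X b =
        ∑ b ∈ Finset.piAntidiag Finset.univ (n + 1), t b * monN X b := by
  classical
  refine ⟨fun b' => ∑ q ∈ ((Finset.piAntidiag Finset.univ n) ×ˢ (Finset.univ : Finset (Fin m))).filter
    (fun q => q.1 + Pi.single q.2 1 = b'), u q.1 q.2, fun b => sum_mem fun q _ => hu _ _, ?_⟩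
  have h1 : ∑ b ∈ Finset.piAntidiag Finset.univ n, (∑ i, u b i * X i) * monN X b =
      ∑ q ∈ (Finset.piAntidiag Finset.univ n) ×ˢ (Finset.univ : Finset (Fin m)),
        u q.1 q.2 * monN X (q.1 + Pi.single q.2 1) := by
    rw [Finset.sum_product]
    refine Finset.sum_congr rfl fun b _ => ?_
    rw [Finset.sum_mul]
    refine Finset.sum_congr rfl fun i _ => ?_
    rw [monN_add_single]
    ring
  rw [h1, ← Finset.sum_fiberwise_of_maps_to (t := Finset.piAntidiag Finset.univ (n + 1))
    (g := fun q : (Fin m → ℕ) × Fin m => q.1 + Pi.single q.2 1)]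
  · refine Finset.sum_congr rfl fun b' _ => ?_
    rw [Finset.sum_mul]
    refine Finset.sum_congr rfl fun q hq => ?_
    rw [(Finset.mem_filter.1 hq).2]
  · intro q hq
    rw [Finset.mem_product, Finset.mem_piAntidiag] at hq
    rw [Finset.mem_piAntidiag]
    refine ⟨?_, fun i _ => Finset.mem_univ i⟩
    rw [sum_add_single, hq.1.1]

/-- Expansion in a ring `A` whose elements are congruent to representatives modulo the ideal
generated by the `X i`. -/
theorem exp_pow {A : Subring W} {X : Fin m → W} {F : Type} (τ : F → W)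
    (hdec : ∀ t ∈ A, ∃ (e : F) (u : Fin m → W), (∀ i, u i ∈ A) ∧ t = τ e + ∑ i, u i * X i)
    {z : W} (hz : z ∈ A) (n : ℕ) :
    ∃ (f : (Fin m → ℕ) → F) (t : (Fin m → ℕ) → W), (∀ b, t b ∈ A) ∧
      z = (∑ k ∈ Finset.range n, ∑ b ∈ Finset.piAntidiag Finset.univ k, τ (f b) * monN X b) +
        ∑ b ∈ Finset.piAntidiag Finset.univ n, t b * monN X b := by
  classical
  induction n with
  | zero =>
    obtain ⟨e, -, -, -⟩ := hdec z hz
    refine ⟨fun _ => e, fun _ => z, fun _ => hz, ?_⟩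
    rw [Finset.range_zero, Finset.sum_empty, zero_add, Finset.piAntidiag_zero,
      Finset.sum_singleton]
    unfold monN
    simp
  | succ n ih =>
    obtain ⟨f, t, ht, hzf⟩ := ih
    have h1 : ∀ b, ∃ (e : F) (u : Fin m → W), (∀ i, u i ∈ A) ∧ t b = τ e + ∑ i, u i * X i :=
      fun b => hdec _ (ht b)
    choose e u hu htb using h1
    obtain ⟨t', ht', h2⟩ := exp_step (A := A) (X := X) n u hu
    refine ⟨fun b => if ∑ i, b i = n then e b else f b, t', ht', ?_⟩
    rw [Finset.sum_range_succ, ← h2]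
    have h3 : ∑ k ∈ Finset.range n, ∑ b ∈ Finset.piAntidiag Finset.univ k,
        τ (if ∑ i, b i = n then e b else f b) * monN X b =
        ∑ k ∈ Finset.range n, ∑ b ∈ Finset.piAntidiag Finset.univ k, τ (f b) * monN X b := by
      refine Finset.sum_congr rfl fun k hk => Finset.sum_congr rfl fun b hb => ?_
      rw [Finset.mem_piAntidiag] at hb
      rw [Finset.mem_range] at hk
      rw [if_neg]
      rw [hb.1]
      omega
    have h4 : ∑ b ∈ Finset.piAntidiag Finset.univ n,
        τ (if ∑ i, b i = n then e b else f b) * monN X b =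
        ∑ b ∈ Finset.piAntidiag Finset.univ n, τ (e b) * monN X b := by
      refine Finset.sum_congr rfl fun b hb => ?_
      rw [Finset.mem_piAntidiag] at hb
      rw [if_pos hb.1]
    rw [h3, h4, add_assoc, ← Finset.sum_add_distrib, hzf]
    congr 1
    refine Finset.sum_congr rfl fun b _ => ?_
    rw [htb b]
    ring

end Gen

variable {W : Type} [NormedField W] [IsUltrametricDist W] {r : ℕ}

theorem evS_eq_sum {F : Subfield (RW W)} {τ : F → W} (h0 : τ 0 = 0) (x : Fin r → W) (y : W)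
    (P : LP F r) (D : Finset ((Fin r → ℤ) × ℕ)) (hD : ∀ m, P.coeff m ≠ 0 → m ∈ D) :
    evS τ x y P = ∑ m ∈ D, τ (P.coeff m) * (mon x m.1 * y ^ m.2) := by
  unfold evS
  refine Finsupp.sum_of_support_subset _ (fun m hm => hD m (Finsupp.mem_support_iff.1 hm)) _
    fun m _ => ?_
  rw [h0, zero_mul]

/-- The Laurent polynomial with prescribed coefficients at different exponents. -/
theorem exists_LP {F : Subfield (RW W)} {τ : F → W} (h0 : τ 0 = 0) (x : Fin r → W) (y : W)
    {ι : Type} (D : Finset ι) (φ : ι → (Fin r → ℤ) × ℕ) (hφ : Set.InjOn φ D) (f : ι → F) :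
    ∃ P : LP F r, (∀ b ∈ D, P.coeff (φ b) = f b) ∧
      (∀ m, P.coeff m ≠ 0 → ∃ b ∈ D, φ b = m ∧ f b ≠ 0) ∧
      evS τ x y P = ∑ b ∈ D, τ (f b) * (mon x (φ b).1 * y ^ (φ b).2) := by
  classical
  set P : LP F r := ∑ b ∈ D, AddMonoidAlgebra.single (φ b) (f b) with hP
  have hc : ∀ m, P.coeff m = ∑ b ∈ D, if φ b = m then f b else 0 := by
    intro m
    rw [hP, AddMonoidAlgebra.coeff_sum, Finsupp.finsetSum_apply]
    refine Finset.sum_congr rfl fun b _ => ?_
    rw [AddMonoidAlgebra.coeff_single, Finsupp.single_apply]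
  have h1 : ∀ b ∈ D, P.coeff (φ b) = f b := by
    intro b hb
    rw [hc, Finset.sum_eq_single b]
    · rw [if_pos rfl]
    · intro b' hb' hne
      rw [if_neg]
      intro h
      exact hne (hφ (Finset.mem_coe.2 hb') (Finset.mem_coe.2 hb) h)
    · intro h
      exact absurd hb h
  have h2 : ∀ m, P.coeff m ≠ 0 → ∃ b ∈ D, φ b = m ∧ f b ≠ 0 := by
    intro m hm
    rw [hc] at hm
    obtain ⟨b, hb, hb'⟩ := Finset.exists_ne_zero_of_sum_ne_zero hm
    split_ifs at hb' with h
    · exact ⟨b, hb, h, hb'⟩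
    · exact absurd rfl hb'
  refine ⟨P, h1, h2, ?_⟩
  rw [evS_eq_sum h0 x y P (D.image φ) (fun m hm => by
    obtain ⟨b, hb, h, -⟩ := h2 m hm
    exact Finset.mem_image.2 ⟨b, hb, h⟩), Finset.sum_image hφ]
  exact Finset.sum_congr rfl fun b hb => by rw [h1 b hb]

end Pool.Agent.Lib.MXP
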