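import Pool.Agent.Lib.MXP.PDefs

set_option autoImplicit false

/-!
# Module MXP.GactX: first properties of `wp`, `gact`, `LamP` in characteristic `p`
-/

namespace Pool.Agent.Lib.MXP

open Pool.Agent.Lib.MP_3029eb_ag Pool.Agent.Lib.MP_3029eb_ag.Abh Pool.Agent.Lib.TDO

variable {E W : Type} [Field E] [NormedField W] [IsUltrametricDist W] [Algebra E W] {r p : ℕ}
  {S : IntermediateField E W} {c c' : Tri W r}

theorem LamP.mono {lam : W} (h : LamP p c lam) (_h' : RfS S c c') : LamP p c' lam :=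
  ⟨h.zero, h.p0⟩

private theorem GactX_one (hr : 0 < r) (hA : AmbX p r S) (hc : Gd S c) : Gn c 1 = 1 := by
  have h := Gn_mon hr hA hc 0
  rwa [mon_zero, norm_one] at h

theorem Gn_pow (hr : 0 < r) (hA : AmbX p r S) (hc : Gd S c) {s : W} (hs : s ∈ HL c) (n : ℕ) :
    Gn c (s ^ n) = Gn c s ^ n := by
  induction n with
  | zero => rw [pow_zero, pow_zero, GactX_one hr hA hc]
  | succ n ih => rw [pow_succ, pow_succ, Gn_mul hr hA hc (pow_mem hs n) hs, ih]

theorem Gn_sum_le (hr : 0 < r) (hA : AmbX p r S) (hc : Gd S c) {ι : Type*} (t : Finset ι)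
    (f : ι → W) (h : ∀ i ∈ t, f i ∈ HL c) {M : ℝ} (hM : 0 ≤ M) (h1 : ∀ i ∈ t, Gn c (f i) ≤ M) :
    Gn c (∑ i ∈ t, f i) ≤ M := by
  classical
  induction t using Finset.induction_on with
  | empty =>
    rw [Finset.sum_empty, Gn_zero hr hA hc]
    exact hM
  | insert a t ha ih =>
    rw [Finset.sum_insert ha]
    refine (Gn_add_le hr hA hc (h a (Finset.mem_insert_self _ _))
      (sum_mem fun i hi => h i (Finset.mem_insert_of_mem hi))).trans (max_le ?_ ?_)
    · exact h1 a (Finset.mem_insert_self _ _)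
    · exact ih (fun i hi => h i (Finset.mem_insert_of_mem hi))
        (fun i hi => h1 i (Finset.mem_insert_of_mem hi))

theorem Gn_sum_lt (hr : 0 < r) (hA : AmbX p r S) (hc : Gd S c) {ι : Type*} (t : Finset ι)
    (f : ι → W) (h : ∀ i ∈ t, f i ∈ HL c) {M : ℝ} (hM : 0 < M) (h1 : ∀ i ∈ t, Gn c (f i) < M) :
    Gn c (∑ i ∈ t, f i) < M := by
  classical
  induction t using Finset.induction_on with
  | empty =>
    rw [Finset.sum_empty, Gn_zero hr hA hc]
    exact hM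
  | insert a t ha ih =>
    rw [Finset.sum_insert ha]
    refine (Gn_add_le hr hA hc (h a (Finset.mem_insert_self _ _))
      (sum_mem fun i hi => h i (Finset.mem_insert_of_mem hi))).trans_lt (max_lt ?_ ?_)
    · exact h1 a (Finset.mem_insert_self _ _)
    · exact ih (fun i hi => h i (Finset.mem_insert_of_mem hi))
        (fun i hi => h1 i (Finset.mem_insert_of_mem hi))

theorem wp_HL {lam : W} {s : W} (hs : s ∈ HL c) : wp p lam s ∈ HL c :=
  sub_mem (pow_mem hs _) hs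

theorem gact_HL (_hA : AmbX p r S) (_hc : Gd S c) {lam : W} (_hl : LamP p c lam) {s z : W}
    (hs : s ∈ HL c) (hz : z ∈ HL c) :
    wp p lam s ∈ HL c ∧ gact p lam s z ∈ HL c :=
  ⟨wp_HL hs, add_mem hz (wp_HL hs)⟩

/-- `wp s` is close to `s ^ p` -/
theorem wp_bound (hr : 0 < r) (hA : AmbX p r S) (hc : Gd S c) {lam : W} (hl : LamP p c lam)
    {s : W} (hs : s ∈ HL c) {μ : ℝ} (h1 : 1 < μ) (_h2 : ‖lam‖ ^ p * μ < 1)
    (hGs : Gn c s ^ p ≤ μ) :
    ‖lam‖ * Gn c s < 1 ∧ Gn c s < μ ∧ Gn c (wp p lam s - s ^ p) < μ ∧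
      Gn c (wp p lam s) ≤ μ := by
  have hp := hA.prime
  have hb : Gn c s < μ := by
    by_contra hcon
    rw [not_lt] at hcon
    have h3 : μ ^ p ≤ Gn c s ^ p := pow_le_pow_left₀ (by linarith) hcon p
    have h4 : μ < μ ^ p := lt_self_pow₀ h1 hp.one_lt
    linarith
  have hcc : Gn c (wp p lam s - s ^ p) < μ := by
    have e : wp p lam s - s ^ p = -s := by
      unfold wp
      ring
    rw [e, Gn_neg hr hA hc hs]
    exact hb
  refine ⟨by rw [hl.zero, norm_zero, zero_mul]; exact one_pos, hb, hcc, ?_⟩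
  have e : wp p lam s = (wp p lam s - s ^ p) + s ^ p := by ring
  rw [e]
  have hwH := wp_HL (p := p) (lam := lam) hs
  refine (Gn_add_le hr hA hc (sub_mem hwH (pow_mem hs _)) (pow_mem hs _)).trans
    (max_le hcc.le ?_)
  rw [Gn_pow hr hA hc hs]
  exact hGs

/-- `gact z` is close to `z + s ^ p` -/
theorem gact_mod (hr : 0 < r) (hA : AmbX p r S) (hc : Gd S c) {lam : W} (hl : LamP p c lam)
    {s z : W} (hs : s ∈ HL c) (hz : z ∈ HL c) {μ : ℝ} (h1 : 1 < μ) (h2 : ‖lam‖ ^ p * μ < 1)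
    (hGs : Gn c s ^ p ≤ μ) (hGz : Gn c z ≤ μ) :
    Gn c (gact p lam s z - (z + s ^ p)) < μ ∧ Gn c (gact p lam s z) ≤ μ := by
  have hwH := wp_HL (p := p) (lam := lam) hs
  obtain ⟨-, -, h3, h4⟩ := wp_bound hr hA hc hl hs h1 h2 hGs
  have e : gact p lam s z - (z + s ^ p) = wp p lam s - s ^ p := by
    unfold gact
    ring
  refine ⟨by rw [e]; exact h3, ?_⟩
  unfold gact
  exact (Gn_add_le hr hA hc hz hwH).trans (max_le hGz h4)

theorem gact_comp (hr : 0 < r) (hA : AmbX p r S) (hc : Gd S c) {lam : W} (hl : LamP p c lam)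
    {s s' : W} (hs : s ∈ HL c) (hs' : s' ∈ HL c) {μ : ℝ} (_h1 : 1 ≤ μ) (_h2 : ‖lam‖ ^ p * μ < 1)
    (hGs : Gn c s ^ p ≤ μ) (hGs' : Gn c s' ^ p ≤ μ) :
    s + s' + lam * s * s' ∈ HL c ∧ Gn c (s + s' + lam * s * s') ^ p ≤ μ := by
  rw [hl.zero, zero_mul, zero_mul, add_zero]
  have h5 : Gn c (s + s') ≤ max (Gn c s) (Gn c s') := Gn_add_le hr hA hc hs hs'
  refine ⟨add_mem hs hs', ?_⟩
  refine (pow_le_pow_left₀ (Gn_nonneg _) h5 p).trans ?_
  rcases le_total (Gn c s) (Gn c s') with h | h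
  · rwa [max_eq_right h]
  · rwa [max_eq_left h]

end Pool.Agent.Lib.MXP
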