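import Pool.Agent.Lib.MXP.BxB

/-!
# Module Res: residues
-/

namespace Pool.Agent.Lib.MXP

open Pool.Agent.Lib.MP_3029eb_ag Pool.Agent.Lib.MP_3029eb_ag.Abh Pool.Agent.Lib.TDO

variable {W : Type} [NormedField W] [IsUltrametricDist W]

theorem rs_of_le {z : W} (h : ‖z‖ ≤ 1) :
    rs z = IsLocalRing.residue (ball W) ⟨z, (mem_ball z).2 h⟩ := by
  unfold rs
  rw [dif_pos h]

theorem rs_zero : rs (0 : W) = 0 := by
  rw [rs_of_le (by rw [norm_zero]; exact zero_le_one)]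
  exact map_zero _

theorem rs_one : rs (1 : W) = 1 := by
  rw [rs_of_le (by rw [norm_one])]
  exact map_one _

theorem rs_add {z w : W} (hz : ‖z‖ ≤ 1) (hw : ‖w‖ ≤ 1) : rs (z + w) = rs z + rs w := by
  rw [rs_of_le hz, rs_of_le hw,
    rs_of_le ((IsUltrametricDist.norm_add_le_max z w).trans (max_le hz hw)), ← map_add]
  rfl

theorem rs_mul {z w : W} (hz : ‖z‖ ≤ 1) (hw : ‖w‖ ≤ 1) : rs (z * w) = rs z * rs w := by
  rw [rs_of_le hz, rs_of_le hw,
    rs_of_le (by rw [norm_mul]; exact mul_le_one₀ hz (norm_nonneg _) hw), ← map_mul]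
  rfl

theorem rs_neg {z : W} (hz : ‖z‖ ≤ 1) : rs (-z) = -rs z := by
  rw [rs_of_le hz, rs_of_le (by rw [norm_neg]; exact hz), ← map_neg]
  rfl

theorem rs_sub {z w : W} (hz : ‖z‖ ≤ 1) (hw : ‖w‖ ≤ 1) : rs (z - w) = rs z - rs w := by
  rw [sub_eq_add_neg, rs_add hz (by rw [norm_neg]; exact hw), rs_neg hw, ← sub_eq_add_neg]

theorem rs_pow {z : W} (hz : ‖z‖ ≤ 1) (n : ℕ) : rs (z ^ n) = rs z ^ n := by
  induction n with
  | zero => rw [pow_zero, pow_zero, rs_one]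
  | succ n ih =>
    rw [pow_succ, pow_succ, rs_mul (by rw [norm_pow]; exact pow_le_one₀ (norm_nonneg _) hz) hz, ih]

theorem rs_sum {ι : Type*} (s : Finset ι) (f : ι → W) (h : ∀ i ∈ s, ‖f i‖ ≤ 1) :
    rs (∑ i ∈ s, f i) = ∑ i ∈ s, rs (f i) ∧ ‖∑ i ∈ s, f i‖ ≤ 1 := by
  classical
  induction s using Finset.induction_on with
  | empty =>
    rw [Finset.sum_empty, Finset.sum_empty, norm_zero]
    exact ⟨rs_zero, zero_le_one⟩
  | insert a s ha ih =>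
    obtain ⟨h1, h2⟩ := ih fun i hi => h i (Finset.mem_insert_of_mem hi)
    have h3 := h a (Finset.mem_insert_self a s)
    rw [Finset.sum_insert ha, Finset.sum_insert ha, rs_add h3 h2, h1]
    exact ⟨rfl, (IsUltrametricDist.norm_add_le_max _ _).trans (max_le h3 h2)⟩

theorem rs_eq_zero_iff {z : W} (hz : ‖z‖ ≤ 1) : rs z = 0 ↔ ‖z‖ < 1 := by
  rw [rs_of_le hz, IsLocalRing.residue_eq_zero_iff, ← ball_val_lt_one]
  exact ValuationSubring.valuation_lt_one_iff (ball W) ⟨z, (mem_ball z).2 hz⟩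

theorem rs_ne_zero_iff {z : W} (hz : ‖z‖ ≤ 1) : rs z ≠ 0 ↔ ‖z‖ = 1 := by
  rw [Ne, rs_eq_zero_iff hz, not_lt]
  exact ⟨fun h => le_antisymm hz h, fun h => h.ge⟩

theorem rs_eq_iff {z w : W} (hz : ‖z‖ ≤ 1) (hw : ‖w‖ ≤ 1) : rs z = rs w ↔ ‖z - w‖ < 1 := by
  rw [← sub_eq_zero, ← rs_sub hz hw, rs_eq_zero_iff]
  rw [sub_eq_add_neg]
  exact (IsUltrametricDist.norm_add_le_max _ _).trans (max_le hz (by rw [norm_neg]; exact hw))

theorem rs_inv {z : W} (hz : ‖z‖ = 1) : rs z⁻¹ = (rs z)⁻¹ := by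
  have h0 : z ≠ 0 := by
    intro h0
    rw [h0, norm_zero] at hz
    exact zero_ne_one hz
  have h1 : ‖z⁻¹‖ = 1 := by rw [norm_inv, hz, inv_one]
  refine eq_inv_of_mul_eq_one_left ?_
  rw [← rs_mul h1.le hz.le, inv_mul_cancel₀ h0, rs_one]

theorem rs_surj (a : RW W) : ∃ z : W, ‖z‖ ≤ 1 ∧ rs z = a := by
  obtain ⟨z, hz⟩ := IsLocalRing.residue_surjective (R := ball W) a
  exact ⟨z, z.2, by rw [rs_of_le z.2]; exact hz⟩

theorem rs_mem_kap {B : Subring W} {z : W} (hz : z ∈ B) : rs z ∈ kap B :=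
  Subfield.subset_closure ⟨z, hz, rfl⟩

theorem mem_kap_iff {B : Subring W} (hn : ∀ z ∈ B, ‖z‖ ≤ 1)
    (hinv : ∀ z ∈ B, ‖z‖ = 1 → z⁻¹ ∈ B) (a : RW W) : a ∈ kap B ↔ ∃ z ∈ B, rs z = a := by
  constructor
  · intro ha
    unfold kap at ha
    induction ha using Subfield.closure_induction with
    | mem w hw =>
      obtain ⟨z, hz, h⟩ := hw
      exact ⟨z, hz, h⟩
    | one => exact ⟨1, one_mem _, rs_one⟩
    | add a b _ _ ha hb =>
      obtain ⟨z, hz, rfl⟩ := ha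
      obtain ⟨w, hw, rfl⟩ := hb
      exact ⟨z + w, add_mem hz hw, rs_add (hn z hz) (hn w hw)⟩
    | neg a _ ha =>
      obtain ⟨z, hz, rfl⟩ := ha
      exact ⟨-z, neg_mem hz, rs_neg (hn z hz)⟩
    | inv a _ ha =>
      obtain ⟨z, hz, rfl⟩ := ha
      by_cases h1 : ‖z‖ = 1
      · exact ⟨z⁻¹, hinv z hz h1, rs_inv h1⟩
      · refine ⟨0, zero_mem _, ?_⟩
        rw [(rs_eq_zero_iff (hn z hz)).2 (lt_of_le_of_ne (hn z hz) h1), inv_zero, rs_zero]
    | mul a b _ _ ha hb =>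
      obtain ⟨z, hz, rfl⟩ := ha
      obtain ⟨w, hw, rfl⟩ := hb
      exact ⟨z * w, mul_mem hz hw, rs_mul (hn z hz) (hn w hw)⟩
  · rintro ⟨z, hz, rfl⟩
    exact rs_mem_kap hz

theorem kap_mono {B B' : Subring W} (h : B ≤ B') : kap B ≤ kap B' :=
  Subfield.closure_mono (Set.image_mono h)

theorem Sec.norm_one {B : Subring W} {F : Subfield (RW W)} {τ : F → W} (h : Sec B F τ) {c : F}
    (hc : c ≠ 0) : ‖τ c‖ = 1 := by
  rw [← rs_ne_zero_iff (h.norm c), h.rs]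
  exact fun h0 => hc (Subtype.ext h0)

theorem exists_Sec {B : Subring W} (hn : ∀ z ∈ B, ‖z‖ ≤ 1)
    (hinv : ∀ z ∈ B, ‖z‖ = 1 → z⁻¹ ∈ B) {F : Subfield (RW W)} (hF : F ≤ kap B) :
    ∃ τ : F → W, Sec B F τ := by
  classical
  have h1 : ∀ c : F, ∃ z ∈ B, rs z = (c : RW W) := fun c => (mem_kap_iff hn hinv _).1 (hF c.2)
  choose f hf hf' using h1
  refine ⟨fun c => if c = 0 then 0 else f c, fun c => ?_, fun c => ?_, fun c => ?_, if_pos rfl⟩
  · split_ifs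
    · exact zero_mem _
    · exact hf c
  · split_ifs
    · rw [norm_zero]; exact zero_le_one
    · exact hn _ (hf c)
  · split_ifs with h0
    · rw [h0, rs_zero]; rfl
    · exact hf' c

/-- Residues of values of polynomials. -/
theorem rs_eval {F : Subfield (RW W)} {w : W} (hw : ‖w‖ ≤ 1) (g : Polynomial F)
    (G : Polynomial W) (hG : ∀ j, ‖G.coeff j‖ ≤ 1)
    (hr : ∀ j, rs (G.coeff j) = (g.coeff j : RW W)) :
    ‖G.eval w‖ ≤ 1 ∧ rs (G.eval w) = Polynomial.aeval (rs w) g := by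
  have h0 : ∀ j ∈ Finset.range (max G.natDegree g.natDegree + 1),
      ‖G.coeff j * w ^ j‖ ≤ 1 := fun j _ => by
    rw [norm_mul, norm_pow]
    exact mul_le_one₀ (hG j) (pow_nonneg (norm_nonneg _) _) (pow_le_one₀ (norm_nonneg _) hw)
  have h1 : G.eval w = ∑ j ∈ Finset.range (max G.natDegree g.natDegree + 1),
      G.coeff j * w ^ j := by
    rw [Polynomial.eval_eq_sum_range' (n := max G.natDegree g.natDegree + 1) (by omega)]
  have h2 : Polynomial.aeval (rs w) g =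
      ∑ j ∈ Finset.range (max G.natDegree g.natDegree + 1), (g.coeff j : RW W) * rs w ^ j := by
    rw [Polynomial.aeval_eq_sum_range' (n := max G.natDegree g.natDegree + 1) (by omega)]
    rfl
  obtain ⟨h3, h4⟩ := rs_sum _ _ h0
  rw [h1, h2]
  refine ⟨h4, h3.trans (Finset.sum_congr rfl fun j _ => ?_)⟩
  rw [rs_mul (hG j) (by rw [norm_pow]; exact pow_le_one₀ (norm_nonneg _) hw), hr, rs_pow hw]

end Pool.Agent.Lib.MXP
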