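import Pool.Agent.Lib.MXP.GoodExt

set_option autoImplicit false

/-!
# Module MX.GoodU: good rings: unramified and ramified extensions

`good_unr`: `κ := kap c.B` (`mem_kap`).  The residue polynomial `P̄` over `κ` (coefficients `rs (P.coeff j)`) has the root `rs z` and `P̄'(rs z) = rs (P'(z)) ≠ 0`, so `P̄ ≠ 0`
and `rs z` is algebraic over `κ`: `g := minpoly κ (rs z)`, `G` a monic lift (coefficients in `c.B`, `0` for `0` and `1` for the leading one).  `g ∣ P̄`.  Division by the monic `G` over the ring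
`c.B`: `P = G Q + R`; `R̄ = P̄ - g Q̄` is divisible by `g` and of smaller degree, so `R̄ = 0`, the coefficients of `R` have norm `< 1`, so are in `JI c.B c.x c.y` (`Gs.gen`),
`R(z) ∈ JI B' c.x c.y`.  `P̄ = g Q̄`, `P̄'(rs z) = g'(rs z) Q̄(rs z) ≠ 0`, so `‖Q(z)‖ = 1`, `0 = P(z) = G(z) Q(z) + R(z)`: `G(z) = - Q(z)⁻¹ R(z) ∈ JI B' c.x c.y`.
`good_ext` with `Z := ∅`, `x' := c.x`, `y' := c.y`.
`good_ram`: `good_ext0` with `Z := range x'`.
`good_bx`: a special case of `good_ram` (`Mt.x_eq`).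
-/

namespace Pool.Agent.Lib.MXP

open Pool.Agent.Lib.MP_3029eb_ag Pool.Agent.Lib.MP_3029eb_ag.Abh Pool.Agent.Lib.TDO
open Pool.Agent.Lib.TU (Mt)

variable {E W : Type} [Field E] [NormedField W] [IsUltrametricDist W] [Algebra E W] {p r : ℕ}
  {S : IntermediateField E W}

theorem good_unr {c : Tri W r} (hc : Gs S c) {z : W} (hzS : z ∈ S) (hz1 : ‖z‖ ≤ 1)
    (P : Polynomial W) (hP : ∀ j, P.coeff j ∈ c.B) (hz : P.eval z = 0)
    (hd : ‖P.derivative.eval z‖ = 1) :
    Gs S (⟨locV (ball W) (Subring.closure ((c.B : Set W) ∪ {z})), c.x, c.y⟩ : Tri W r) := by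
  classical
  have hcB1 : ∀ b ∈ c.B, ‖b‖ ≤ 1 := fun b hb => (hc.le b hb).2
  have hρF : ∀ b : c.B, rsHom c.B hcB1 b ∈ kap c.B := fun b =>
    Subfield.subset_closure ⟨b, b.2, rfl⟩
  let ρ : c.B →+* kap c.B := (rsHom c.B hcB1).codRestrict (kap c.B) hρF
  have hρ : ∀ b : c.B, ((ρ b : kap c.B) : RW W) = rs (b : W) := fun b => rfl
  have hρs : Function.Surjective ρ := by
    intro a
    obtain ⟨b, hb, hba⟩ := (mem_kap_iff hcB1 (fun b hb h1 => hc.inv hb h1) (a : RW W)).1 a.2
    exact ⟨⟨b, hb⟩, Subtype.ext hba⟩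
  have hev : ∀ Q : Polynomial c.B,
      rs ((Q.map c.B.subtype).eval z) = Polynomial.aeval (rs z) (Q.map ρ) := by
    intro Q
    refine (rs_eval hz1 (Q.map ρ) (Q.map c.B.subtype) (fun j => ?_) (fun j => ?_)).2
    · rw [Polynomial.coeff_map]
      exact hcB1 _ (Q.coeff j).2
    · rw [Polynomial.coeff_map, Polynomial.coeff_map]
      rfl
  have hl : P ∈ Polynomial.lifts c.B.subtype := by
    rw [Polynomial.lifts_iff_coeff_lifts]
    intro j
    exact ⟨⟨P.coeff j, hP j⟩, rfl⟩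
  obtain ⟨P', hP'⟩ := (Polynomial.mem_lifts P).1 hl
  have hroot : Polynomial.aeval (rs z) (P'.map ρ) = 0 := by rw [← hev, hP', hz, rs_zero]
  have hder : Polynomial.aeval (rs z) (P'.map ρ).derivative ≠ 0 := by
    rw [Polynomial.derivative_map, ← hev, ← Polynomial.derivative_map, hP', rs_ne_zero_iff hd.le]
    exact hd
  have hne : P'.map ρ ≠ 0 := by
    intro h0
    rw [h0, Polynomial.derivative_zero, map_zero] at hder
    exact hder rfl
  have halg : IsAlgebraic (kap c.B) (rs z) := ⟨P'.map ρ, hne, hroot⟩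
  have hint : IsIntegral (kap c.B) (rs z) := halg.isIntegral
  have gm := minpoly.monic hint
  have gi := minpoly.irreducible hint
  have gw := minpoly.aeval (kap c.B) (rs z)
  have gd : minpoly (kap c.B) (rs z) ∣ P'.map ρ := minpoly.dvd _ _ hroot
  set g := minpoly (kap c.B) (rs z) with hg
  have hgl : g ∈ Polynomial.lifts ρ := by
    rw [Polynomial.lifts_iff_coeff_lifts]
    intro j
    exact hρs _
  obtain ⟨G', hG'ρ, -, hG'm⟩ := Polynomial.lifts_and_degree_eq_and_monic hgl gm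
  set B' : Subring W := locV (ball W) (Subring.closure ((c.B : Set W) ∪ {z})) with hB'
  have hzA : z ∈ Subring.closure ((c.B : Set W) ∪ {z}) := Subring.subset_closure (Or.inr rfl)
  have hzB : z ∈ B' := le_locV _ _ hzA
  have hcB' : c.B ≤ B' := fun b hb => subset_locV_closure (Or.inl hb)
  have hevB : ∀ Q : Polynomial c.B, (Q.map c.B.subtype).eval z ∈ B' := by
    intro Q
    rw [Polynomial.eval_map, Polynomial.eval₂_eq_sum_range]
    exact sum_mem fun j _ => mul_mem (hcB' (Q.coeff j).2) (pow_mem hzB _)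
  have hevn : ∀ Q : Polynomial c.B, ‖(Q.map c.B.subtype).eval z‖ ≤ 1 := by
    intro Q
    refine norm_le_locV_closure ?_ (hevB Q)
    rintro b (hb | hb)
    · exact hcB1 b hb
    · rw [Set.mem_singleton_iff] at hb
      rw [hb]
      exact hz1
  -- the division
  set R := P' %ₘ G' with hR
  set Q := P' /ₘ G' with hQ
  have hdiv : R + G' * Q = P' := Polynomial.modByMonic_add_div P' G'
  have hR0 : R.map ρ = 0 := by
    rw [hR, Polynomial.map_modByMonic ρ hG'm, hG'ρ]
    exact (Polynomial.modByMonic_eq_zero_iff_dvd gm).2 gd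
  have hPQ : P'.map ρ = g * Q.map ρ := by
    rw [← hdiv, Polynomial.map_add, Polynomial.map_mul, hR0, zero_add, hG'ρ]
  have hQ0 : Polynomial.aeval (rs z) (Q.map ρ) ≠ 0 := by
    intro h0
    apply hder
    rw [hPQ, Polynomial.derivative_mul, map_add, map_mul, map_mul, gw, h0]
    ring
  have hQ1 : ‖(Q.map c.B.subtype).eval z‖ = 1 := by
    rw [← rs_ne_zero_iff (hevn Q), hev]
    exact hQ0
  have hRJ : (R.map c.B.subtype).eval z ∈ JI B' c.x c.y := by
    rw [Polynomial.eval_map, Polynomial.eval₂_eq_sum_range]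
    refine JI_sum _ _ fun j _ => ?_
    rw [mul_comm]
    refine JI_mul (pow_mem hzB _) ?_
    have h1 : (ρ (R.coeff j) : RW W) = 0 := by
      rw [← Polynomial.coeff_map, hR0, Polynomial.coeff_zero]
      rfl
    rw [hρ, rs_eq_zero_iff (hcB1 _ (R.coeff j).2)] at h1
    exact JI_mono hcB' (hc.gen _ (R.coeff j).2 h1)
  have hGe : (G'.map c.B.subtype).eval z =
      (-((Q.map c.B.subtype).eval z)⁻¹) * (R.map c.B.subtype).eval z := by
    have h1 : (R.map c.B.subtype).eval z +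
        (G'.map c.B.subtype).eval z * (Q.map c.B.subtype).eval z = 0 := by
      rw [← Polynomial.eval_mul, ← Polynomial.eval_add, ← Polynomial.map_mul,
        ← Polynomial.map_add, hdiv, hP', hz]
    have h2 : (Q.map c.B.subtype).eval z ≠ 0 := by
      intro h0
      rw [h0, norm_zero] at hQ1
      exact zero_ne_one hQ1
    have h3 : (R.map c.B.subtype).eval z =
        -((G'.map c.B.subtype).eval z * (Q.map c.B.subtype).eval z) := eq_neg_of_add_eq_zero_left h1
    rw [h3]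
    field_simp
  have hGJ : (G'.map c.B.subtype).eval z ∈ JI B' c.x c.y := by
    rw [hGe]
    exact JI_mul (neg_mem (inv_mem_locV (hevB Q) hQ1)) hRJ
  refine good_ext hc hzS hz1 g gm gi gw (G'.map c.B.subtype) (hG'm.map _) (fun j => ?_)
    (fun j => ?_) ∅ Set.finite_empty (fun z hz => absurd hz (Set.notMem_empty z)) c.x c.y hc.ind
    hc.y1 B' ?_ (fun i => hcB' (hc.xB i)) (hcB' hc.yB) (fun i => JI_x i) JI_y
    (fun z hz => absurd hz (Set.notMem_empty z)) hGJ
  · rw [Polynomial.coeff_map]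
    exact (G'.coeff j).2
  · rw [← hG'ρ, Polynomial.coeff_map, Polynomial.coeff_map]
    rfl
  · rw [hB', Set.empty_union]

theorem good_ram {c : Tri W r} (hc : Gs S c) (x' : Fin r → W) (hx' : Indep x')
    (hS : ∀ i, x' i ∈ S) (hx : ∀ i, ∃ (α : Fin r → ℕ) (u : W), α ≠ 0 ∧ u ∈ c.B ∧ ‖u‖ = 1 ∧
      c.x i = monN x' α * u) :
    Gs S (⟨Bx c.B x', x', c.y⟩ : Tri W r) := by
  refine good_ext0 hc (Set.range x') (Set.finite_range x') ?_ x' c.y hx' hc.y1 (Bx c.B x') rfl
    (fun i => x_mem_Bx i) (le_Bx hc.yB) ?_ JI_y ?_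
  · rintro _ ⟨i, rfl⟩
    exact ⟨hS i, (hx'.lt i).le⟩
  · intro i
    obtain ⟨α, u, hα, hu, -, h⟩ := hx i
    rw [h, mul_comm]
    exact JI_mul (le_Bx hu) (JI_monN (fun j => x_mem_Bx j) hα)
  · rintro _ ⟨i, rfl⟩
    exact ⟨0, zero_mem _, by rw [sub_zero]; exact JI_x i⟩

theorem good_bx {c : Tri W r} (hc : Gs S c) {x' : Fin r → W} (hx : Mt c.x x') :
    Gs S (⟨Bx c.B x', x', c.y⟩ : Tri W r) :=
  (hc.bx hx).1

end Pool.Agent.Lib.MXP
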