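import Pool.Agent.Lib.MXP.BxB

/-!
# Module HOb: basic properties of the ring `HO c`
-/

namespace Pool.Agent.Lib.MXP

open Pool.Agent.Lib.MP_3029eb_ag Pool.Agent.Lib.MP_3029eb_ag.Abh Pool.Agent.Lib.TDO
open Pool.Agent.Lib.TU (Mt exists_Mt)

variable {E W : Type} [Field E] [NormedField W] [IsUltrametricDist W] [Algebra E W] {r : ℕ}
  {S : IntermediateField E W} {c : Tri W r}

private theorem hob_pair (hok : Gd S c) {z w : W} {x1 x2 : Fin r → W}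
    (h1 : Mt c.x x1) (hz : z ∈ Bx c.B x1) (h2 : Mt c.x x2) (hw : w ∈ Bx c.B x2) :
    ∃ x' : Fin r → W, Mt c.x x' ∧ z ∈ Bx c.B x' ∧ w ∈ Bx c.B x' := by
  obtain ⟨x3, h3, h4, h5⟩ := Mt.union hok.ind h1 h2
  exact ⟨x3, h5, Bx_mono (Mt.x_monN h3) hz, Bx_mono (Mt.x_monN h4) hw⟩

theorem mem_HO_iff (hok : Gd S c) (z : W) :
    z ∈ HO c ↔ ∃ x' : Fin r → W, Mt c.x x' ∧ z ∈ Bx c.B x' := by
  constructor
  · intro hz
    unfold HO at hz
    induction hz using Subring.closure_induction with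
    | mem w hw => exact hw
    | zero => exact ⟨c.x, TU.Mt.refl hok.ind, zero_mem _⟩
    | one => exact ⟨c.x, TU.Mt.refl hok.ind, one_mem _⟩
    | add a b _ _ ha hb =>
      obtain ⟨x1, h1, hz1⟩ := ha
      obtain ⟨x2, h2, hz2⟩ := hb
      obtain ⟨x', h, hz, hw⟩ := hob_pair hok h1 hz1 h2 hz2
      exact ⟨x', h, add_mem hz hw⟩
    | neg a _ ha =>
      obtain ⟨x1, h1, hz1⟩ := ha
      exact ⟨x1, h1, neg_mem hz1⟩
    | mul a b _ _ ha hb =>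
      obtain ⟨x1, h1, hz1⟩ := ha
      obtain ⟨x2, h2, hz2⟩ := hb
      obtain ⟨x', h, hz, hw⟩ := hob_pair hok h1 hz1 h2 hz2
      exact ⟨x', h, mul_mem hz hw⟩
  · intro hz
    exact Subring.subset_closure hz

private theorem hob_common (hok : Gd S c) (Z : Finset W) (hZ : ∀ z ∈ Z, z ∈ HO c) :
    ∃ x' : Fin r → W, Mt c.x x' ∧ ∀ z ∈ Z, z ∈ Bx c.B x' := by
  classical
  induction Z using Finset.induction_on with
  | empty => exact ⟨c.x, TU.Mt.refl hok.ind, fun z hz => absurd hz (Finset.notMem_empty z)⟩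
  | insert a s ha ih =>
    obtain ⟨x1, h1, h2⟩ := ih fun z hz => hZ z (Finset.mem_insert_of_mem hz)
    obtain ⟨x2, h3, h4⟩ := (mem_HO_iff hok a).1 (hZ a (Finset.mem_insert_self a s))
    obtain ⟨x3, h5, h6, h7⟩ := Mt.union hok.ind h1 h3
    refine ⟨x3, h7, fun z hz => ?_⟩
    rcases Finset.mem_insert.1 hz with rfl | hz
    · exact Bx_mono (Mt.x_monN h6) h4
    · exact Bx_mono (Mt.x_monN h5) (h2 z hz)

/-- Every finite subset of `HO c` lies in a strictly good ring `Bx c.B x'` such that finitely many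
given monomials of norm `≤ 1` (`< 1`) are monomials in `x'` with exponents `≥ 0` (`≥ 1`). -/
theorem exists_model (hok : Gd S c) (Z : Finset W) (hZ : ∀ z ∈ Z, z ∈ HO c)
    (Y : Finset (Fin r → ℤ)) (hY : ∀ a ∈ Y, ‖mon c.x a‖ ≤ 1) :
    ∃ x' : Fin r → W, Mt c.x x' ∧ Gs S (⟨Bx c.B x', x', c.y⟩ : Tri W r) ∧
      (∀ z ∈ Z, z ∈ Bx c.B x') ∧
      ∀ a ∈ Y, ∃ β : Fin r → ℕ, mon c.x a = monN x' β ∧ (‖mon c.x a‖ < 1 → ∀ i, 1 ≤ β i) := by
  classical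
  obtain ⟨x0, h1, h2⟩ := hob_common hok Z hZ
  obtain ⟨x1, h01, h11, hs1⟩ := hok.strict h1
  have h3 : ∀ a : Fin r → ℤ, ∃ a' : Fin r → ℤ, mon c.x a = mon x1 a' := fun a => h11.mon_eq a
  choose φ hφ using h3
  obtain ⟨x', h4, h5⟩ := exists_Mt h11.ind (Y.image φ) (by
    intro a' ha'
    obtain ⟨a, ha, rfl⟩ := Finset.mem_image.1 ha'
    rw [← hφ]
    exact hY a ha)
  refine ⟨x', TU.Mt.trans hok.ind h11 h4, hs1.further h4, fun z hz =>
    Bx_mono (Mt.x_monN h4) (Bx_mono (Mt.x_monN h01) (h2 z hz)), fun a ha => ?_⟩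
  obtain ⟨β, hβ, hβ1⟩ := h5 (φ a) (Finset.mem_image_of_mem φ ha)
  rw [← hφ] at hβ hβ1
  exact ⟨β, hβ, hβ1⟩

theorem HO_norm_le (hok : Gd S c) {z : W} (hz : z ∈ HO c) : ‖z‖ ≤ 1 := by
  obtain ⟨x', h1, h2⟩ := (mem_HO_iff hok z).1 hz
  exact norm_le_Bx (fun w hw => hok.norm_le hw) h1.ind h2

theorem HO_mem_S (hok : Gd S c) {z : W} (hz : z ∈ HO c) : z ∈ S := by
  obtain ⟨x', -, h1, h2, -⟩ := exists_model hok {z} (fun w hw => by
    rw [Finset.mem_singleton.1 hw]; exact hz) ∅ (fun a ha => absurd ha (Finset.notMem_empty a))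
  exact (h1.le z (h2 z (Finset.mem_singleton_self z))).1

theorem B_mem_HO (hok : Gd S c) {z : W} (hz : z ∈ c.B) : z ∈ HO c :=
  (mem_HO_iff hok z).2 ⟨c.x, TU.Mt.refl hok.ind, le_Bx hz⟩

theorem y_mem_HO (hok : Gd S c) : c.y ∈ HO c := B_mem_HO hok hok.yB

theorem x_mem_HO (hok : Gd S c) (i : Fin r) : c.x i ∈ HO c := B_mem_HO hok (hok.xB i)

theorem Bx_mem_HO (hok : Gd S c) {x' : Fin r → W} (h : Mt c.x x') {z : W} (hz : z ∈ Bx c.B x') :
    z ∈ HO c := (mem_HO_iff hok z).2 ⟨x', h, hz⟩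

/-- Every monomial of norm at most one is in `HO c` (it is a monomial with exponents `≥ 0` in
some `x'`). -/
theorem mon_mem_HO (hok : Gd S c) {a : Fin r → ℤ} (ha : ‖mon c.x a‖ ≤ 1) :
    mon c.x a ∈ HO c := by
  obtain ⟨x', h1, -, -, h2⟩ := exists_model hok ∅ (fun z hz => absurd hz (Finset.notMem_empty z))
    {a} (fun b hb => by rw [Finset.mem_singleton.1 hb]; exact ha)
  obtain ⟨β, hβ, -⟩ := h2 a (Finset.mem_singleton_self a)
  refine (mem_HO_iff hok _).2 ⟨x', h1, ?_⟩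
  rw [hβ]
  exact monN_mem_Bx β

theorem inv_mem_HO (hok : Gd S c) {z : W} (hz : z ∈ HO c) (h1 : ‖z‖ = 1) : z⁻¹ ∈ HO c := by
  obtain ⟨x', h2, h3⟩ := (mem_HO_iff hok z).1 hz
  exact (mem_HO_iff hok _).2 ⟨x', h2, inv_mem_Bx h3 h1⟩

theorem locV_HO (hok : Gd S c) : locV (ball W) (HO c) = HO c := by
  ext z
  constructor
  · rintro ⟨a, ha, b, hb, hb1, hab⟩
    have h1 : ‖b‖ = 1 := (ball_val_eq_one b).1 hb1
    have hb0 : b ≠ 0 := norm_pos_iff.1 (by rw [h1]; exact one_pos)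
    have h2 : z = a * b⁻¹ := by rw [← hab, mul_assoc, mul_inv_cancel₀ hb0, mul_one]
    rw [h2]
    exact mul_mem ha (inv_mem_HO hok hb h1)
  · intro hz
    exact ⟨z, hz, 1, one_mem _, map_one _, mul_one z⟩

theorem QH_mem_HO (hok : Gd S c) {z : W} (hz : z ∈ QH c) : z ∈ HO c := by
  obtain ⟨a, ha, h, hh, rfl⟩ := hz
  exact mul_mem (mon_mem_HO hok ha.le) hh

theorem QH_zero (hok : Gd S c) (hr : 0 < r) : (0 : W) ∈ QH c := by
  obtain ⟨N, -, hN⟩ := exists_mon_lt hr hok.ind 1 one_pos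
  exact ⟨N, hN, 0, zero_mem _, by rw [mul_zero]⟩

theorem QH_norm (hok : Gd S c) {z : W} (hz : z ∈ QH c) : ‖z‖ < 1 := by
  obtain ⟨a, ha, h, hh, rfl⟩ := hz
  rw [norm_mul]
  exact lt_of_le_of_lt (mul_le_of_le_one_right (norm_nonneg _) (HO_norm_le hok hh)) ha

private theorem hob_quot (hok : Gd S c) {a b : Fin r → ℤ} (h : ‖mon c.x b‖ ≤ ‖mon c.x a‖) :
    mon c.x (b - a) ∈ HO c ∧ mon c.x b = mon c.x a * mon c.x (b - a) := by
  have ha : mon c.x a ≠ 0 := mon_ne c.x hok.ind.ne a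
  have h1 : mon c.x b = mon c.x a * mon c.x (b - a) := by
    rw [← mon_add c.x hok.ind.ne]
    congr 1
    abel
  refine ⟨mon_mem_HO hok ?_, h1⟩
  rw [h1, norm_mul] at h
  have h2 : 0 < ‖mon c.x a‖ := norm_pos_iff.2 ha
  by_contra hcon
  push Not at hcon
  have h3 : ‖mon c.x a‖ * 1 < ‖mon c.x a‖ * ‖mon c.x (b - a)‖ := mul_lt_mul_of_pos_left hcon h2
  linarith

/-- Sums: factor out the monomial of larger norm. -/
theorem QH_add (hok : Gd S c) {z z' : W} (hz : z ∈ QH c) (hz' : z' ∈ QH c) :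
    z + z' ∈ QH c := by
  obtain ⟨a, ha, h, hh, rfl⟩ := hz
  obtain ⟨a', ha', h', hh', rfl⟩ := hz'
  rcases le_total ‖mon c.x a'‖ ‖mon c.x a‖ with hle | hle
  · obtain ⟨h1, h2⟩ := hob_quot hok hle
    refine ⟨a, ha, h + mon c.x (a' - a) * h', add_mem hh (mul_mem h1 hh'), ?_⟩
    rw [h2]; ring
  · obtain ⟨h1, h2⟩ := hob_quot hok hle
    refine ⟨a', ha', mon c.x (a - a') * h + h', add_mem (mul_mem h1 hh) hh', ?_⟩
    rw [h2]; ring

theorem QH_neg (hok : Gd S c) {z : W} (hz : z ∈ QH c) : -z ∈ QH c := by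
  obtain ⟨a, ha, h, hh, rfl⟩ := hz
  exact ⟨a, ha, -h, neg_mem hh, by ring⟩

theorem QH_mul (hok : Gd S c) {z h : W} (hz : z ∈ QH c) (hh : h ∈ HO c) :
    z * h ∈ QH c := by
  obtain ⟨a, ha, h', hh', rfl⟩ := hz
  exact ⟨a, ha, h' * h, mul_mem hh' hh, by ring⟩

theorem mon_mul_mem_QH (hok : Gd S c) {a : Fin r → ℤ} (ha : ‖mon c.x a‖ < 1) {h : W}
    (hh : h ∈ HO c) : mon c.x a * h ∈ QH c :=
  ⟨a, ha, h, hh, rfl⟩

/-- No new residues in the rings `Bx c.B x1`. -/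
theorem Gd.dec (hok : Gd S c) {x1 : Fin r → W} (h1 : Mt c.x x1)
    (hs : Gs S (⟨Bx c.B x1, x1, c.y⟩ : Tri W r)) {z : W} (hz : z ∈ Bx c.B x1) :
    ∃ e ∈ c.B, z - e ∈ JI (Bx c.B x1) x1 c.y :=
  (gen_ext (B := c.B) (A := Bx c.B x1) (x := x1) (y := c.y)
    (fun z hz h1 => hok.inv hz h1) (Set.range x1) rfl (fun z hz => (hs.le z hz).2) h1.ind.lt hok.y1
    (by
      rintro _ ⟨i, rfl⟩
      exact ⟨0, zero_mem _, by rw [sub_zero]; exact JI_x i⟩)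
    (fun z hz hz1 => hs.gen z (le_Bx hz) hz1)).1 z hz

theorem JI_QH (hr : 0 < r) (hok : Gd S c) {x' : Fin r → W} (h : Mt c.x x') {z : W}
    (hz : z ∈ JI (Bx c.B x') x' c.y) : ∃ q ∈ QH c, ∃ b ∈ HO c, z = q + b * c.y := by
  classical
  obtain ⟨b, b0, hb, hb0, rfl⟩ := hz
  refine ⟨∑ i, b i * x' i, ?_, b0, Bx_mem_HO hok h hb0, rfl⟩
  refine Finset.sum_induction _ (fun z => z ∈ QH c) (fun _ _ => QH_add hok) (QH_zero hok hr) ?_
  intro i _
  obtain ⟨a, ha⟩ := h.mon_eq' hok.ind (Pi.single i 1)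
  rw [mon_single] at ha
  refine ⟨a, ?_, b i, Bx_mem_HO hok h (hb i), by rw [← ha]; ring⟩
  rw [← ha]
  exact h.ind.lt i

/-- `HO = B + QH + y HO`. -/
theorem HO_dec (hr : 0 < r) (hok : Gd S c) {z : W} (hz : z ∈ HO c) :
    ∃ e ∈ c.B, ∃ q ∈ QH c, ∃ b ∈ HO c, z = e + q + b * c.y := by
  obtain ⟨x', h1, h2, h3, -⟩ := exists_model hok {z} (fun w hw => by
    rw [Finset.mem_singleton.1 hw]; exact hz) ∅ (fun a ha => absurd ha (Finset.notMem_empty a))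
  obtain ⟨e, he, h4⟩ := hok.dec h1 h2 (h3 z (Finset.mem_singleton_self z))
  obtain ⟨q, hq, b, hb, h5⟩ := JI_QH hr hok h1 h4
  exact ⟨e, he, q, hq, b, hb, by rw [add_assoc, ← h5]; ring⟩

theorem HO_gen (hr : 0 < r) (hok : Gd S c) {z : W} (hz : z ∈ HO c) (h1 : ‖z‖ < 1) :
    ∃ q ∈ QH c, ∃ b ∈ HO c, z = q + b * c.y := by
  obtain ⟨x', h2, h3, h4, -⟩ := exists_model hok {z} (fun w hw => by
    rw [Finset.mem_singleton.1 hw]; exact hz) ∅ (fun a ha => absurd ha (Finset.notMem_empty a))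
  exact JI_QH hr hok h2 (h3.gen z (h4 z (Finset.mem_singleton_self z)) h1)

theorem HO_le_HL {z : W} (hz : z ∈ HO c) : z ∈ HL c :=
  Subring.subset_closure (Or.inl hz)

theorem mon_mem_HL (a : Fin r → ℤ) : mon c.x a ∈ HL c :=
  Subring.subset_closure (Or.inr ⟨a, rfl⟩)

/-- `HL = HO[1/x]`: every element is a monomial times an element of `HO`. -/
theorem mem_HL_iff (hok : Gd S c) (z : W) :
    z ∈ HL c ↔ ∃ a : Fin r → ℤ, ∃ h ∈ HO c, z = mon c.x a * h := by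
  constructor
  · intro hz
    unfold HL at hz
    induction hz using Subring.closure_induction with
    | mem w hw =>
      rcases hw with hw | ⟨a, rfl⟩
      · exact ⟨0, w, hw, by rw [mon_zero, one_mul]⟩
      · exact ⟨a, 1, one_mem _, by rw [mul_one]⟩
    | zero => exact ⟨0, 0, zero_mem _, by rw [mul_zero]⟩
    | one => exact ⟨0, 1, one_mem _, by rw [mon_zero, one_mul]⟩
    | add z z' _ _ hz hz' =>
      obtain ⟨a, h, hh, rfl⟩ := hz
      obtain ⟨a', h', hh', rfl⟩ := hz'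
      rcases le_total ‖mon c.x a'‖ ‖mon c.x a‖ with hle | hle
      · obtain ⟨h1, h2⟩ := hob_quot hok hle
        refine ⟨a, h + mon c.x (a' - a) * h', add_mem hh (mul_mem h1 hh'), ?_⟩
        rw [h2]; ring
      · obtain ⟨h1, h2⟩ := hob_quot hok hle
        refine ⟨a', mon c.x (a - a') * h + h', add_mem (mul_mem h1 hh) hh', ?_⟩
        rw [h2]; ring
    | neg z _ hz =>
      obtain ⟨a, h, hh, rfl⟩ := hz
      exact ⟨a, -h, neg_mem hh, by ring⟩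
    | mul z z' _ _ hz hz' =>
      obtain ⟨a, h, hh, rfl⟩ := hz
      obtain ⟨a', h', hh', rfl⟩ := hz'
      exact ⟨a + a', h * h', mul_mem hh hh', by rw [mon_add c.x hok.ind.ne]; ring⟩
  · rintro ⟨a, h, hh, rfl⟩
    exact mul_mem (mon_mem_HL a) (HO_le_HL hh)

theorem HL_mem_S (hok : Gd S c) {z : W} (hz : z ∈ HL c) : z ∈ S := by
  obtain ⟨a, h, hh, rfl⟩ := (mem_HL_iff hok z).1 hz
  exact mul_mem (hok.monS a) (HO_mem_S hok hh)

theorem evS_mem_HL (hok : Gd S c) {F : Subfield (RW W)} {τ : F → W} (hτ : Sec c.B F τ)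
    (P : LP F r) : evS τ c.x c.y P ∈ HL c := by
  unfold evS
  refine sum_mem fun i _ => ?_
  exact mul_mem (HO_le_HL (B_mem_HO hok (hτ.mem _)))
    (mul_mem (mon_mem_HL _) (pow_mem (HO_le_HL (y_mem_HO hok)) _))

theorem MoH.mul (hok : Gd S c) {z z' : W} (h : MoH c z) (h' : MoH c z') :
    MoH c (z * z') := by
  obtain ⟨a, u, hu, hu1, rfl⟩ := h
  obtain ⟨a', u', hu', hu1', rfl⟩ := h'
  refine ⟨a + a', u * u', mul_mem hu hu', by rw [norm_mul, hu1, hu1', one_mul], ?_⟩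
  rw [mon_add c.x hok.ind.ne]; ring

theorem MoH.inv (hok : Gd S c) {z : W} (h : MoH c z) : MoH c z⁻¹ := by
  obtain ⟨a, u, hu, hu1, rfl⟩ := h
  refine ⟨-a, u⁻¹, inv_mem_HO hok hu hu1, by rw [norm_inv, hu1, inv_one], ?_⟩
  rw [mon_neg, mul_inv]

theorem MoH.ne (hok : Gd S c) {z : W} (h : MoH c z) : z ≠ 0 := by
  obtain ⟨a, u, hu, hu1, rfl⟩ := h
  exact mul_ne_zero (mon_ne c.x hok.ind.ne a) (norm_pos_iff.1 (by rw [hu1]; exact one_pos))

theorem MoH.mem_HL (hok : Gd S c) {z : W} (h : MoH c z) : z ∈ HL c := by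
  obtain ⟨a, u, hu, hu1, rfl⟩ := h
  exact mul_mem (mon_mem_HL a) (HO_le_HL hu)

theorem MoH.mem_HO (hok : Gd S c) {z : W} (h : MoH c z) (h1 : ‖z‖ ≤ 1) : z ∈ HO c := by
  obtain ⟨a, u, hu, hu1, rfl⟩ := h
  rw [norm_mul, hu1, mul_one] at h1
  exact mul_mem (mon_mem_HO hok h1) hu

theorem MoH.mem_QH (hok : Gd S c) {z : W} (h : MoH c z) (h1 : ‖z‖ < 1) : z ∈ QH c := by
  obtain ⟨a, u, hu, hu1, rfl⟩ := h
  rw [norm_mul, hu1, mul_one] at h1
  exact ⟨a, h1, u, hu, rfl⟩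

theorem MoH.of_mon (hok : Gd S c) (a : Fin r → ℤ) : MoH c (mon c.x a) :=
  ⟨a, 1, one_mem _, norm_one, by rw [mul_one]⟩

theorem MoH.of_unit {z : W} (hz : z ∈ HO c) (h1 : ‖z‖ = 1) : MoH c z :=
  ⟨0, z, hz, h1, by rw [mon_zero, one_mul]⟩

end Pool.Agent.Lib.MXP
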