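import Pool.Agent.Lib.MXP.AdmCmp
import Pool.Agent.Lib.MXP.GnF

set_option autoImplicit false

/-!
# Module MX.InvX: the norm `Gn c` is invariant on `HL c0` for all large refinements `c` (paper 4.4)

Write `s z := act.f s z`.  `hM`: the field `Fr E c0` (contained in `L'`) is stable; `Fr E c = Fr E c0` for all refinements `c` of `c0`.
`push`: `c.B = locV (closure (Lam ∪ G))`, `G` finite.  Let `Z` be the set of the nonzero elements `s g` (`g ∈ G`) and `s (c.x i)`, `s ∈ Γ`: finite subset of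
`Fr E c` without zero; every element of `Fr E c` is a quotient of two elements of `HL c` (`Fr` facts), so Theorem A, applied successively to numerators and
denominators, gives a refinement `c1` of `c` with `MoH c1 z` for all `z ∈ Z` (`MoH` persists under refinement).  Then `s g ∈ HO c1`
(`‖s g‖ ≤ 1` and monomial), `s` fixes `Lam`, `HO c1` is closed under `locV`: `s c.B ≤ HO c1`.  For a basis change `x'` of `c.x`: `s (x' i)` is a Laurent
monomial in the `s (c.x j)`, so `MoH c1`, of norm `< 1`, in `HO c1`.  So `s (HO c) ≤ HO c1`, `s (HL c) ≤ HL c1` (`s (mon c.x a)` is `MoH c1`, its inverse too).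
`inv_gn`: `n := Nat.card Γ`; `c' =: c_0, c_1, .., c_n` by `push` (each is a refinement of `c0`), but start with `HL c0 ≤ HL c_0`.  Let `c` be a refinement of `c_n =: cs`, `s ∈ Γ`.
`N1` := norm on the field `Fr E c` with `N1 = Gn c` on `HL c` (`exists_gnf`), `N2 z := N1 (s z)` (`FN` on `Fr E c`, as `s` maps `Fr E c` to itself and is
injective).  For `i < n` both are admissible for `c_i`: `N1` by `gnf_adm`; `N2`: `z ∈ HO c_i`: `s z ∈ HO c_(i+1) ≤ HO c`; `z = mon c_i.x a`: `s z` is `MoH c_(i+1)`, so `MoH c`,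
`Gn c (s z) = ‖s z‖ = ‖z‖`; `z ∈ HL c_i`: `‖z‖ = ‖s z‖ ≤ Gn c (s z)`.
Let `z ∈ HL c0`, suppose `Gn c z < Gn c (s z)`.  By `adm_comp` for `c_i` (`i < n`) and `HL c0 ≤ HL c_i`: `N1 ≤ N2` on `HL c_i`.  `s^i z ∈ HL c_i`, so
`Gn c z < Gn c (s z) ≤ .. ≤ Gn c (s^n z) = Gn c z` (`s^n = 1`, `act.one`, `act.mul`).  Contradiction; `>` in the same way.
-/

namespace Pool.Agent.Lib.MXP

open Pool.Agent.Lib.MP_3029eb_ag Pool.Agent.Lib.MP_3029eb_ag.Abh Pool.Agent.Lib.TDO
open Pool.Agent.Lib.TU (Mt)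

variable {E W : Type} [Field E] [NormedField W] [IsUltrametricDist W] [Algebra E W] {p r : ℕ}
  {S : IntermediateField E W}

private theorem InvX_zpow {c : Tri W r} (hc : Gd S c) {z : W} (hz : MoH c z) (n : ℤ) :
    MoH c (z ^ n) := by
  have hpow : ∀ n : ℕ, MoH c (z ^ n) := by
    intro n
    induction n with
    | zero =>
      rw [pow_zero]
      exact MoH.of_unit (one_mem _) norm_one
    | succ n ih =>
      rw [pow_succ]
      exact MoH.mul hc ih hz
  rcases Int.eq_nat_or_neg n with ⟨m, rfl | rfl⟩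
  · rw [zpow_natCast]
    exact hpow m
  · rw [zpow_neg, zpow_natCast]
    exact MoH.inv hc (hpow m)

private theorem InvX_prod {c : Tri W r} (hc : Gd S c) {ι : Type} (s : Finset ι) (f : ι → W)
    (hf : ∀ i ∈ s, MoH c (f i)) : MoH c (∏ i ∈ s, f i) := by
  classical
  induction s using Finset.induction_on with
  | empty =>
    rw [Finset.prod_empty]
    exact MoH.of_unit (one_mem _) norm_one
  | insert a s ha ih =>
    rw [Finset.prod_insert ha]
    exact MoH.mul hc (hf a (Finset.mem_insert_self _ _))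
      (ih fun i hi => hf i (Finset.mem_insert_of_mem hi))

theorem push (hr : 0 < r) (hA : AmbX p r S) {Γ : Type} [Group Γ] [Finite Γ] {L L' : IntermediateField E W}
    (act : Act Γ S L L') {c0 c : Tri W r} (hc0 : Gd S c0) (hL : Fr E c0 ≤ L')
    (hM : ∀ (s : Γ), ∀ z ∈ Fr E c0, act.f s z ∈ Fr E c0) (hrf : RfS S c0 c) :
    ∃ c1, RfS S c c1 ∧ ∀ s : Γ, (∀ z ∈ HO c, act.f s z ∈ HO c1) ∧
      (∀ z ∈ HL c, act.f s z ∈ HL c1) ∧ ∀ a : Fin r → ℤ, MoH c1 (act.f s (mon c.x a)) := by
  classical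
  have hfin : Fintype Γ := Fintype.ofFinite Γ
  have hc : Gd S c := hrf.gd hc0
  have hfr : Fr E c = Fr E c0 := hrf.fr
  obtain ⟨G, hG⟩ := hc.fg
  have hGB : ∀ g ∈ G, g ∈ c.B := by
    intro g hg
    rw [hG]
    exact subset_locV_closure (Or.inr (Finset.mem_coe.2 hg))
  have hMc : ∀ (s : Γ), ∀ z ∈ Fr E c, act.f s z ∈ Fr E c := by
    intro s z hz
    rw [hfr] at hz ⊢
    exact hM s z hz
  obtain ⟨c1, h1, h2⟩ := thmA_fin hr hA hc
    ((Finset.univ.biUnion fun s : Γ =>
      G.image (act.f s) ∪ Finset.univ.image fun i => act.f s (c.x i)).filter fun z => z ≠ 0) (by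
    intro z hz
    obtain ⟨hz1, hz0⟩ := Finset.mem_filter.1 hz
    refine ⟨?_, hz0⟩
    obtain ⟨s, -, hs⟩ := Finset.mem_biUnion.1 hz1
    rcases Finset.mem_union.1 hs with h | h
    · obtain ⟨g, hg, rfl⟩ := Finset.mem_image.1 h
      exact hMc s g (B_le_Fr (hGB g hg))
    · obtain ⟨i, -, rfl⟩ := Finset.mem_image.1 h
      exact hMc s _ (B_le_Fr (hc.xB i)))
  have hc1 : Gd S c1 := h1.gd hc
  refine ⟨c1, h1, fun s => ?_⟩
  have hG1 : ∀ g ∈ G, act.f s g ∈ HO c1 := by
    intro g hg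
    by_cases h0 : act.f s g = 0
    · rw [h0]
      exact zero_mem _
    · have h3 : MoH c1 (act.f s g) := h2 _ (Finset.mem_filter.2 ⟨Finset.mem_biUnion.2
        ⟨s, Finset.mem_univ s, Finset.mem_union_left _ (Finset.mem_image_of_mem _ hg)⟩, h0⟩)
      refine h3.mem_HO hc1 ?_
      rw [act.iso]
      exact hc.norm_le (hGB g hg)
  have hx1 : ∀ i, MoH c1 (act.f s (c.x i)) := by
    intro i
    refine h2 _ (Finset.mem_filter.2 ⟨Finset.mem_biUnion.2
        ⟨s, Finset.mem_univ s, Finset.mem_union_right _ (Finset.mem_image_of_mem _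
          (Finset.mem_univ i))⟩, ?_⟩)
    intro h
    have h3 : c.x i = 0 := (map_eq_zero (act.f s)).1 h
    exact (MoH.ne hc (h3 ▸ (by
      have := MoH.of_mon hc (Pi.single i 1)
      rwa [mon_single] at this) : MoH c (0 : W))) rfl
  have hmon : ∀ a : Fin r → ℤ, MoH c1 (act.f s (mon c.x a)) := by
    intro a
    have h3 : act.f s (mon c.x a) = ∏ i, act.f s (c.x i) ^ a i := by
      unfold mon
      rw [map_prod]
      exact Finset.prod_congr rfl fun i _ => map_zpow₀ _ _ _
    rw [h3]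
    exact InvX_prod hc1 _ _ fun i _ => InvX_zpow hc1 (hx1 i) _
  have hinv : ∀ z ∈ (HO c1).comap (act.f s).toRingHom, ‖z‖ = 1 →
      z⁻¹ ∈ (HO c1).comap (act.f s).toRingHom := by
    intro z hz h3
    rw [Subring.mem_comap] at hz ⊢
    rw [map_inv₀]
    refine inv_mem_HO hc1 hz ?_
    exact (act.iso s z).trans h3
  have hB : ∀ z ∈ c.B, z ∈ (HO c1).comap (act.f s).toRingHom := by
    intro z hz
    rw [hG] at hz
    refine locV_closure_le _ ?_ hinv hz
    rintro w (hw | hw)
    · rw [Subring.mem_comap]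
      have hw' := hw
      obtain ⟨⟨e, he⟩, -⟩ := hw
      have h3 : (act.f s).toRingHom w = w := by
        have h4 : (act.f s) (algebraMap E W e) = algebraMap E W e := AlgHom.commutes _ _
        have h5 : algebraMap E W e = w := he
        rw [h5] at h4
        exact h4
      rw [h3]
      exact B_mem_HO hc1 (hc1.lam_le hw')
    · rw [Subring.mem_comap]
      exact hG1 w (Finset.mem_coe.1 hw)
  have hHO : ∀ z ∈ HO c, act.f s z ∈ HO c1 := by
    intro z hz
    obtain ⟨x', hx', hz'⟩ := (mem_HO_iff hc z).1 hz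
    have h3 : z ∈ (HO c1).comap (act.f s).toRingHom := by
      refine Bx_le _ hB (fun i => ?_) hinv hz'
      rw [Subring.mem_comap]
      obtain ⟨A, B, -, h4, -⟩ := hx'.mat
      have h5 : MoH c1 (act.f s (x' i)) := by
        rw [h4 i]
        exact hmon _
      refine h5.mem_HO hc1 ?_
      rw [act.iso]
      exact (hx'.ind.lt i).le
    exact h3
  refine ⟨hHO, fun z hz => ?_, hmon⟩
  obtain ⟨a, h, hh, rfl⟩ := (mem_HL_iff hc z).1 hz
  rw [map_mul]
  exact mul_mem ((hmon a).mem_HL hc1) (HO_le_HL (hHO h hh))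

theorem inv_gn (hr : 0 < r) (hA : AmbX p r S) {Γ : Type} [Group Γ] [Finite Γ] {L L' : IntermediateField E W}
    (act : Act Γ S L L') {c0 c' : Tri W r} (hc0 : Gd S c0) (hL : Fr E c0 ≤ L')
    (hM : ∀ (s : Γ), ∀ z ∈ Fr E c0, act.f s z ∈ Fr E c0) (hrf : RfS S c0 c') :
    ∃ cs, RfS S c' cs ∧ ∀ c, RfS S cs c → ∀ s : Γ, ∀ z ∈ HL c0,
      act.f s z ∈ HL c ∧ Gn c (act.f s z) = Gn c z := by
  classical
  choose g hg using fun c : {c : Tri W r // RfS S c0 c} => push hr hA act hc0 hL hM c.2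
  obtain ⟨q, hq0, hq⟩ : ∃ q : ℕ → {c : Tri W r // RfS S c0 c}, (q 0).1 = c' ∧
      ∀ i, (q (i + 1)).1 = g (q i) :=
    ⟨fun i => Nat.rec ⟨c', hrf⟩ (fun _ c => ⟨g c, c.2.trans (hg c).1⟩) i, rfl, fun i => rfl⟩
  have hstep : ∀ i, RfS S (q i).1 (q (i + 1)).1 := fun i => by
    rw [hq i]
    exact (hg (q i)).1
  have hle : ∀ i j, i ≤ j → RfS S (q i).1 (q j).1 := by
    intro i j hij
    induction j, hij using Nat.le_induction with
    | base => exact Relation.ReflTransGen.refl
    | succ j hij ih => exact ih.trans (hstep j)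
  have hpush : ∀ i (s : Γ), (∀ z ∈ HO (q i).1, act.f s z ∈ HO (q (i + 1)).1) ∧
      (∀ z ∈ HL (q i).1, act.f s z ∈ HL (q (i + 1)).1) ∧
      ∀ a : Fin r → ℤ, MoH (q (i + 1)).1 (act.f s (mon (q i).1.x a)) := fun i s => by
    rw [hq i]
    exact (hg (q i)).2 s
  have hgd : ∀ i, Gd S (q i).1 := fun i => (q i).2.gd hc0
  set n := Nat.card Γ with hn
  have hn0 : 0 < n := Nat.card_pos
  refine ⟨(q n).1, ?_, ?_⟩
  · have h := hle 0 n (Nat.zero_le n)
    rw [hq0] at h
    exact h
  intro c hcs s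
  have hrc : ∀ i, i ≤ n → RfS S (q i).1 c := fun i hi => (hle i n hi).trans hcs
  have hc : Gd S c := hcs.gd (hgd n)
  have hrf0 : RfS S c0 c := (q n).2.trans hcs
  have hfrc : Fr E c = Fr E c0 := hrf0.fr
  have hfri : ∀ i, Fr E (q i).1 = Fr E c0 := fun i => (q i).2.fr
  obtain ⟨N1, hN1, hN1g⟩ := exists_gnf hr hA hc
  have hN2 : FN (Fr E c) fun z => N1 (act.f s z) := by
    have hm : ∀ z ∈ Fr E c, act.f s z ∈ Fr E c := by
      intro z hz
      rw [hfrc] at hz ⊢
      exact hM s z hz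
    refine ⟨?_, ?_, ?_, ?_, ?_⟩
    · show N1 (act.f s 0) = 0
      rw [map_zero, hN1.zero]
    · show N1 (act.f s 1) = 1
      rw [map_one, hN1.one]
    · intro a ha ha0
      exact hN1.pos _ (hm a ha) fun h => ha0 ((map_eq_zero (act.f s)).1 h)
    · intro a ha b hb
      show N1 (act.f s (a * b)) = _
      rw [map_mul]
      exact hN1.mul _ (hm a ha) _ (hm b hb)
    · intro a ha b hb
      show N1 (act.f s (a + b)) ≤ _
      rw [map_add]
      exact hN1.add _ (hm a ha) _ (hm b hb)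
  have hadm1 : ∀ i, i ≤ n → Adm E (q i).1 N1 := fun i hi =>
    gnf_adm hr hA (hgd i) (hrc i hi) hN1 hN1g
  have hadm2 : ∀ i, i < n → Adm E (q i).1 fun z => N1 (act.f s z) := by
    intro i hi
    obtain ⟨p1, p2, p3⟩ := hpush i s
    have hri : RfS S (q (i + 1)).1 c := hrc (i + 1) hi
    refine ⟨?_, ?_, ?_, ?_⟩
    · have h := hN2
      rw [hfrc] at h
      rw [hfri i]
      exact h
    · intro z hz
      show N1 (act.f s z) ≤ 1
      have h1 : act.f s z ∈ HO c := hri.HO_le (p1 z hz)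
      rw [hN1g _ (HO_le_HL h1)]
      exact (Gn_le_one_iff hr hA hc (HO_le_HL h1)).2 h1
    · intro a
      show N1 (act.f s (mon (q i).1.x a)) = _
      have h1 : MoH c (act.f s (mon (q i).1.x a)) := hri.moH (p3 a)
      rw [hN1g _ (h1.mem_HL hc), (moH_iff_Gn hr hA hc (h1.mem_HL hc) (h1.ne hc)).1 h1, act.iso]
    · intro z hz
      show ‖z‖ ≤ N1 (act.f s z)
      have h1 : act.f s z ∈ HL c := hri.HL_le (hgd (i + 1)) (p2 z hz)
      rw [hN1g _ h1, ← act.iso s z]
      exact norm_le_Gn hr hA hc h1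
  intro z hz
  have hzL : z ∈ L' := hL (HL_mem_Fr hc0 hz)
  have hzi : ∀ i, z ∈ HL (q i).1 := fun i => (q i).2.HL_le hc0 hz
  have hu : ∀ i, act.f (s ^ i) z ∈ HL (q i).1 ∧
      act.f (s ^ (i + 1)) z = act.f s (act.f (s ^ i) z) := by
    intro i
    induction i with
    | zero =>
      refine ⟨?_, ?_⟩
      · rw [pow_zero, act.one z hzL]
        exact hzi 0
      · rw [pow_succ', act.mul _ _ z hzL]
    | succ i ih =>
      refine ⟨?_, ?_⟩
      · rw [ih.2]
        exact (hpush i s).2.1 _ ih.1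
      · rw [pow_succ' s (i + 1), act.mul _ _ z hzL]
  have huc : ∀ i, i ≤ n → act.f (s ^ i) z ∈ HL c := fun i hi =>
    (hrc i hi).HL_le (hgd i) (hu i).1
  have hun : act.f (s ^ n) z = z := by
    rw [hn, pow_card_eq_one', act.one z hzL]
  have hu0 : act.f (s ^ 0) z = z := by
    rw [pow_zero, act.one z hzL]
  have hu1 : act.f (s ^ 1) z = act.f s z := by
    rw [pow_one]
  have hsz : act.f s z ∈ HL c := hu1 ▸ huc 1 hn0
  have hzc : z ∈ HL c := hu0 ▸ huc 0 (Nat.zero_le n)
  refine ⟨hsz, ?_⟩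
  rcases lt_trichotomy (Gn c (act.f s z)) (Gn c z) with hlt | heq | hlt
  · exfalso
    have hstep2 : ∀ i, i < n → Gn c (act.f (s ^ (i + 1)) z) ≤ Gn c (act.f (s ^ i) z) := by
      intro i hi
      have h1 := hN1g _ (huc i hi.le)
      have h2 := hN1g _ (huc (i + 1) hi)
      rcases adm_comp hr hA (hgd i) (hadm1 i hi.le) (hadm2 i hi) with h | h
      · exfalso
        have h3 : N1 z ≤ N1 (act.f s z) := h z (hzi i)
        rw [hN1g _ hzc, hN1g _ hsz] at h3
        exact absurd h3 (not_le.2 hlt)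
      · have h3 : N1 (act.f s (act.f (s ^ i) z)) ≤ N1 (act.f (s ^ i) z) := h _ (hu i).1
        rw [← (hu i).2, h1, h2] at h3
        exact h3
    have hall : ∀ i, 1 ≤ i → i ≤ n → Gn c (act.f (s ^ i) z) ≤ Gn c (act.f s z) := by
      intro i hi
      induction i, hi using Nat.le_induction with
      | base =>
        intro _
        rw [hu1]
      | succ i hi ih =>
        intro h
        exact (hstep2 i h).trans (ih (Nat.le_of_succ_le h))
    have h4 := hall n hn0 le_rfl
    rw [hun] at h4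
    exact absurd h4 (not_le.2 hlt)
  · exact heq
  · exfalso
    have hstep2 : ∀ i, i < n → Gn c (act.f (s ^ i) z) ≤ Gn c (act.f (s ^ (i + 1)) z) := by
      intro i hi
      have h1 := hN1g _ (huc i hi.le)
      have h2 := hN1g _ (huc (i + 1) hi)
      rcases adm_comp hr hA (hgd i) (hadm1 i hi.le) (hadm2 i hi) with h | h
      · have h3 : N1 (act.f (s ^ i) z) ≤ N1 (act.f s (act.f (s ^ i) z)) := h _ (hu i).1
        rw [← (hu i).2, h1, h2] at h3
        exact h3
      · exfalso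
        have h3 : N1 (act.f s z) ≤ N1 z := h z (hzi i)
        rw [hN1g _ hzc, hN1g _ hsz] at h3
        exact absurd h3 (not_le.2 hlt)
    have hall : ∀ i, 1 ≤ i → i ≤ n → Gn c (act.f s z) ≤ Gn c (act.f (s ^ i) z) := by
      intro i hi
      induction i, hi using Nat.le_induction with
      | base =>
        intro _
        rw [hu1]
      | succ i hi ih =>
        intro h
        exact (ih (Nat.le_of_succ_le h)).trans (hstep2 i h)
    have h4 := hall n hn0 le_rfl
    rw [hun] at h4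
    exact absurd h4 (not_le.2 hlt)

end Pool.Agent.Lib.MXP
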