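import Pool.Agent.Lib.TDO.StepDefs
import Pool.Agent.Lib.TDO.KGen

/-!
# Module MXP.KChain: towers of Kummer extensions

Adapted from `Pool/Agent/Lib/TU/KChainU.lean` and `Pool/Agent/Lib/TDO/AChain.lean`: chains of Kummer steps
of prime degree different from `p` (tame part) and of degree `p` (for a `p`-group).
-/

namespace Pool.Agent.Lib.MXP

/-- One Kummer step of degree `l` between intermediate fields, roots of unity in the smaller
field. -/
def KStepX {A N : Type} [Field A] [Field N] [Algebra A N] (l : ℕ) (E E' : IntermediateField A N) :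
    Prop :=
  ∃ w ζ : N, w ^ l ∈ E ∧ ζ ∈ E ∧ IsPrimitiveRoot ζ l ∧
    E' = E ⊔ IntermediateField.adjoin A {w}

/-- the Kummer step, by a Lagrange resolvent -/
private lemma kchainU_step {A N : Type} [Field A] [Field N] [Algebra A N] [FiniteDimensional A N]
    [IsGalois A N] (l : ℕ) (hl : l.Prime) (hlA : (l : A) ≠ 0) (ξ : N) (hξp : IsPrimitiveRoot ξ l)
    (H K : Subgroup (N ≃ₐ[A] N)) (g : N ≃ₐ[A] N) (hHK : H ≤ K) (hgK : g ∈ K) (hgH : g ∉ H)
    (hgl : g ^ l ∈ H) (hnorm : ∀ h ∈ H, g⁻¹ * h * g ∈ H)
    (hξK : ξ ∈ IntermediateField.fixedField K)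
    (hK : ∀ σ ∈ K, ∃ i : ℤ, ∃ h ∈ H, σ = g ^ i * h) :
    KStepX (A := A) (N := N) l (IntermediateField.fixedField K)
      (IntermediateField.fixedField H) := by
  classical
  have hlN : (l : N) ≠ 0 := by
    intro h
    apply hlA
    have : algebraMap A N (l : A) = 0 := by rw [map_natCast, h]
    exact (map_eq_zero _).1 this
  -- an element fixed by `H` and not by `K`
  obtain ⟨z, hzH, hzK⟩ : ∃ z : N, z ∈ IntermediateField.fixedField H ∧
      z ∉ IntermediateField.fixedField K := by
    by_contra hcon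
    push Not at hcon
    have hle : IntermediateField.fixedField H ≤ IntermediateField.fixedField K := hcon
    have h1 : (IntermediateField.fixedField K).fixingSubgroup ≤
        (IntermediateField.fixedField H).fixingSubgroup :=
      IntermediateField.fixingSubgroup_le hle
    rw [IntermediateField.fixingSubgroup_fixedField, IntermediateField.fixingSubgroup_fixedField]
      at h1
    exact hgH (h1 hgK)
  have hξf : ∀ σ ∈ K, σ ξ = ξ := fun σ hσ =>
    (IntermediateField.mem_fixedField_iff K ξ).1 hξK σ hσ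
  have hgpow : ∀ i : ℕ, ∀ h ∈ H, (g ^ i)⁻¹ * h * g ^ i ∈ H := by
    intro i
    induction i with
    | zero => intro h hh; simpa using hh
    | succ i ih =>
      intro h hh
      have h1 := hnorm _ (ih h hh)
      have h2 : g⁻¹ * ((g ^ i)⁻¹ * h * g ^ i) * g = (g ^ (i + 1))⁻¹ * h * g ^ (i + 1) := by
        rw [pow_succ]
        group
      rw [← h2]
      exact h1
  have hfixz : ∀ h ∈ H, h z = z := fun h hh =>
    (IntermediateField.mem_fixedField_iff H z).1 hzH h hh
  have hgi : ∀ (i : ℕ), ∀ h ∈ H, h ((g ^ i) z) = (g ^ i) z := by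
    intro i h hh
    have h1 := hfixz _ (hgpow i h hh)
    have h2 : (g ^ i) (((g ^ i)⁻¹ * h * g ^ i) z) = h ((g ^ i) z) := by
      rw [← AlgEquiv.mul_apply, ← AlgEquiv.mul_apply]
      congr 1
      group
    rw [← h2, h1]
  -- the resolvents
  set R : ℕ → N := fun j => ∑ i ∈ Finset.range l, ξ ^ (i * j) * (g ^ i) z with hR
  have hRH : ∀ j, ∀ h ∈ H, h (R j) = R j := by
    intro j h hh
    rw [hR]
    simp only
    rw [map_sum]
    refine Finset.sum_congr rfl (fun i _ => ?_)
    rw [map_mul, map_pow, hξf h (hHK hh), hgi i h hh]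
  have hRg : ∀ j, ξ ^ j * g (R j) = R j := by
    intro j
    have e1 : ξ ^ j * g (R j) = ∑ i ∈ Finset.range l, ξ ^ ((i + 1) * j) * (g ^ (i + 1)) z := by
      rw [hR]
      simp only
      rw [map_sum, Finset.mul_sum]
      refine Finset.sum_congr rfl (fun i _ => ?_)
      rw [map_mul, map_pow, hξf g hgK, ← AlgEquiv.mul_apply, ← pow_succ',
        ← mul_assoc, ← pow_add]
      congr 2
      ring
    have h2 := Finset.sum_range_succ' (fun i : ℕ => ξ ^ (i * j) * (g ^ i) z) l
    have h3 := Finset.sum_range_succ (fun i : ℕ => ξ ^ (i * j) * (g ^ i) z) l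
    rw [h3] at h2
    have h4 : ξ ^ (l * j) * (g ^ l) z = ξ ^ (0 * j) * (g ^ 0) z := by
      rw [pow_mul, hξp.pow_eq_one, one_pow, hfixz _ hgl, zero_mul, pow_zero, pow_zero,
        AlgEquiv.one_apply]
    rw [h4] at h2
    rw [e1]
    exact (add_right_cancel h2).symm
  have hsum : ∑ j ∈ Finset.range l, R j = (l : N) * z := by
    rw [hR]
    simp only
    rw [Finset.sum_comm]
    have h1 : ∀ i ∈ Finset.range l, ∑ j ∈ Finset.range l, ξ ^ (i * j) * (g ^ i) z =
        if i = 0 then (l : N) * z else 0 := by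
      intro i hi
      rw [← Finset.sum_mul]
      split_ifs with h0
      · subst h0
        simp
      · have h2 : ∑ j ∈ Finset.range l, ξ ^ (i * j) = 0 := by
          have h3 : ξ ^ i ≠ 1 := by
            intro h4
            have h5 := (hξp.pow_eq_one_iff_dvd i).1 h4
            exact h0 (Nat.eq_zero_of_dvd_of_lt h5 (Finset.mem_range.1 hi))
          have h6 : (ξ ^ i - 1) * ∑ j ∈ Finset.range l, ξ ^ (i * j) = 0 := by
            have h7 := mul_geom_sum (ξ ^ i) l
            have h8 : ∑ j ∈ Finset.range l, ξ ^ (i * j) = ∑ j ∈ Finset.range l, (ξ ^ i) ^ j :=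
              Finset.sum_congr rfl (fun j _ => pow_mul _ _ _)
            rw [h8, h7, ← pow_mul, mul_comm i l, pow_mul, hξp.pow_eq_one, one_pow, sub_self]
          exact (mul_eq_zero.1 h6).resolve_left (sub_ne_zero.2 h3)
        rw [h2, zero_mul]
    rw [Finset.sum_congr rfl h1, Finset.sum_ite_eq' (Finset.range l) 0,
      if_pos (Finset.mem_range.2 hl.pos)]
  -- elements fixed by `H` and `g` are fixed by `K`
  have hfixK : ∀ y : N, (∀ h ∈ H, h y = y) → g y = y → y ∈ IntermediateField.fixedField K := by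
    intro y hy hgy
    rw [IntermediateField.mem_fixedField_iff]
    intro σ hσ
    obtain ⟨i, h, hh, rfl⟩ := hK σ hσ
    rw [AlgEquiv.mul_apply, hy h hh]
    have hle : Subgroup.zpowers g ≤ MulAction.stabilizer (N ≃ₐ[A] N) y := by
      rw [Subgroup.zpowers_le, MulAction.mem_stabilizer_iff]
      exact hgy
    exact MulAction.mem_stabilizer_iff.1 (hle (Subgroup.zpow_mem_zpowers g i))
  obtain ⟨j, hj, hj0, hRj⟩ : ∃ j ∈ Finset.range l, j ≠ 0 ∧ R j ≠ 0 := by
    by_contra hcon
    push Not at hcon
    have h1 : (l : N) * z = R 0 := by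
      rw [← hsum, Finset.sum_eq_single_of_mem 0 (Finset.mem_range.2 hl.pos)]
      intro j hj hj0
      exact hcon j hj hj0
    have h2 : R 0 ∈ IntermediateField.fixedField K := by
      apply hfixK _ (hRH 0)
      have h3 := hRg 0
      rw [pow_zero, one_mul] at h3
      exact h3
    apply hzK
    have h4 : z = (algebraMap A N ((l : A)⁻¹)) * R 0 := by
      rw [← h1, map_inv₀, map_natCast, ← mul_assoc, inv_mul_cancel₀ hlN, one_mul]
    rw [h4]
    exact mul_mem (IntermediateField.algebraMap_mem _ _) h2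
  set w := R j with hw
  have hjl : Nat.Coprime l j := Nat.coprime_of_lt_prime hj0 (Finset.mem_range.1 hj) hl
  have hξ0 : ξ ≠ 0 := hξp.ne_zero hl.ne_zero
  have hgw : g w = (ξ ^ j)⁻¹ * w := by
    rw [eq_inv_mul_iff_mul_eq₀ (pow_ne_zero _ hξ0)]
    exact hRg j
  have hgiw : ∀ i : ℕ, (g ^ i) w = ((ξ ^ j)⁻¹) ^ i * w := by
    intro i
    induction i with
    | zero => simp
    | succ i ih =>
      rw [pow_succ', AlgEquiv.mul_apply, ih, map_mul, hgw, map_pow, map_inv₀, map_pow,
        hξf g hgK, pow_succ]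
      ring
  refine ⟨w, ξ, ?_, hξK, hξp, ?_⟩
  · apply hfixK
    · intro h hh
      rw [map_pow, hRH j h hh]
    · rw [map_pow, hgw, mul_pow, inv_pow, ← pow_mul, mul_comm j l, pow_mul, hξp.pow_eq_one,
        one_pow, inv_one, one_mul]
  · have hfs : (IntermediateField.fixedField K ⊔ IntermediateField.adjoin A {w}).fixingSubgroup =
        H := by
      apply le_antisymm
      · intro σ hσ
        have hσK : σ ∈ K := by
          have h1 : σ ∈ (IntermediateField.fixedField K).fixingSubgroup :=
            IntermediateField.fixingSubgroup_le le_sup_left hσ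
          rwa [IntermediateField.fixingSubgroup_fixedField] at h1
        have hσw : σ w = w := by
          have hw' : w ∈ IntermediateField.fixedField K ⊔ IntermediateField.adjoin A {w} :=
            (le_sup_right : IntermediateField.adjoin A {w} ≤ _)
              (IntermediateField.mem_adjoin_simple_self A w)
          exact (IntermediateField.mem_fixingSubgroup_iff _ _).1 hσ w hw'
        obtain ⟨i, h, hh, rfl⟩ := hK σ hσK
        rw [AlgEquiv.mul_apply, hRH j h hh] at hσw
        -- reduce to natural exponents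
        obtain ⟨m, hm, hmi⟩ : ∃ m : ℕ, (l : ℤ) ∣ i - m ∧ g ^ i * (g ^ m)⁻¹ ∈ H := by
          refine ⟨(i % l).toNat, ?_, ?_⟩
          · rw [Int.toNat_of_nonneg (Int.emod_nonneg _ (by exact_mod_cast hl.ne_zero))]
            exact Int.dvd_self_sub_emod
          · rw [← zpow_natCast g (i % l).toNat,
              Int.toNat_of_nonneg (Int.emod_nonneg _ (by exact_mod_cast hl.ne_zero)),
              ← zpow_sub]
            obtain ⟨c, hc⟩ : (l : ℤ) ∣ i - i % l := Int.dvd_self_sub_emod
            rw [hc, zpow_mul, zpow_natCast]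
            exact Subgroup.zpow_mem _ hgl c
        have hmw : (g ^ m) w = w := by
          have h1 : g ^ i = (g ^ i * (g ^ m)⁻¹) * g ^ m := by group
          rw [h1, AlgEquiv.mul_apply, hgiw, map_mul] at hσw
          rw [hRH j _ hmi, map_pow, map_inv₀, map_pow, hξf _ (hHK hmi),
            ← hgiw] at hσw
          exact hσw
        rw [hgiw] at hmw
        have h2 : ((ξ ^ j)⁻¹) ^ m = 1 := by
          have h3 : (((ξ ^ j)⁻¹) ^ m - 1) * w = 0 := by rw [sub_mul, hmw, one_mul, sub_self]
          exact sub_eq_zero.1 ((mul_eq_zero.1 h3).resolve_right hRj)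
        rw [inv_pow, inv_eq_one, ← pow_mul] at h2
        have h3 := (hξp.pow_eq_one_iff_dvd _).1 h2
        have h4 : l ∣ m := hjl.dvd_of_dvd_mul_left h3
        obtain ⟨c, rfl⟩ := h4
        have h5 : g ^ (l * c) ∈ H := by
          rw [pow_mul]
          exact Subgroup.pow_mem _ hgl c
        have h6 : g ^ i = (g ^ i * (g ^ (l * c))⁻¹) * g ^ (l * c) := by group
        rw [h6]
        exact mul_mem (mul_mem hmi h5) hh
      · intro σ hσ
        rw [IntermediateField.mem_fixingSubgroup_iff]
        have hle : IntermediateField.fixedField K ⊔ IntermediateField.adjoin A {w} ≤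
            IntermediateField.fixedField H := by
          apply sup_le
          · intro y hy
            rw [IntermediateField.mem_fixedField_iff] at hy ⊢
            exact fun h hh => hy h (hHK hh)
          · rw [IntermediateField.adjoin_simple_le_iff, IntermediateField.mem_fixedField_iff]
            exact hRH j
        intro y hy
        exact (IntermediateField.mem_fixedField_iff H y).1 (hle hy) σ hσ
    rw [← hfs, IsGalois.fixedField_fixingSubgroup]


/-- See the header. -/
theorem kstep_chainX {A N : Type} [Field A] [Field N] [Algebra A N]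
    [FiniteDimensional A N] [IsGalois A N] (p : ℕ) (hl0 : ∀ l : ℕ, l.Prime → l ≠ p → (l : A) ≠ 0)
    (H G' : Subgroup (N ≃ₐ[A] N)) (hle : H ≤ G')
    (hroots : ∀ l : ℕ, l.Prime → l ∣ Nat.card G' → l ≠ p →
      ∃ ζ ∈ IntermediateField.fixedField G', IsPrimitiveRoot ζ l)
    (hcomm : ∀ g ∈ G', ∀ h ∈ G', g * h * g⁻¹ * h⁻¹ ∈ H)
    (hcop : Nat.Coprime p (H.relIndex G')) :
    Relation.ReflTransGen (fun E E' : IntermediateField A N =>
      ∃ l : ℕ, l.Prime ∧ l ≠ p ∧ KStepX l E E') (IntermediateField.fixedField G')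
      (IntermediateField.fixedField H) := by
  classical
  have hfin : Finite (N ≃ₐ[A] N) := inferInstance
  obtain ⟨n, hn⟩ : ∃ n, H.relIndex G' = n := ⟨_, rfl⟩
  induction n using Nat.strong_induction_on generalizing H with
  | _ n ih =>
    by_cases hn1 : n = 1
    · have h1 : G' ≤ H := by
        rw [← Subgroup.relIndex_eq_one, hn, hn1]
      rw [le_antisymm hle h1]
    · have hnormal : (H.subgroupOf G').Normal := by
        refine ⟨fun a ha b => ?_⟩
        rw [Subgroup.mem_subgroupOf] at ha ⊢
        have h1 := hcomm b b.2 a a.2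
        have h2 : ((b * a * b⁻¹ : G') : N ≃ₐ[A] N) =
            ((b : N ≃ₐ[A] N) * a * (b : N ≃ₐ[A] N)⁻¹ * (a : N ≃ₐ[A] N)⁻¹) * a := by
          push_cast
          group
        rw [h2]
        exact mul_mem h1 ha
      obtain ⟨l, hl, hln⟩ := Nat.exists_prime_and_dvd hn1
      have : Fact l.Prime := ⟨hl⟩
      have hcard : Nat.card (G' ⧸ H.subgroupOf G') = n := hn
      have hdvd : l ∣ Nat.card (G' ⧸ H.subgroupOf G') := by rw [hcard]; exact hln
      obtain ⟨q, hq⟩ := exists_prime_orderOf_dvd_card' l hdvd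
      obtain ⟨g, rfl⟩ := QuotientGroup.mk_surjective q
      have hgH : (g : N ≃ₐ[A] N) ∉ H := by
        intro h
        have h1 : ((g : G') : G' ⧸ H.subgroupOf G') = 1 := by
          rw [QuotientGroup.eq_one_iff]
          exact h
        rw [h1, orderOf_one] at hq
        exact hl.one_lt.ne hq
      have hgl : (g : N ≃ₐ[A] N) ^ l ∈ H := by
        have h1 : ((g ^ l : G') : G' ⧸ H.subgroupOf G') = 1 := by
          rw [QuotientGroup.mk_pow, ← hq, pow_orderOf_eq_one]
        rw [QuotientGroup.eq_one_iff] at h1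
        exact h1
      have hlp : l ≠ p := by
        intro h
        have h3 : p ∣ H.relIndex G' := by rw [hn, ← h]; exact hln
        have h4 := Nat.Coprime.eq_one_of_dvd hcop h3
        rw [← h] at h4
        exact hl.one_lt.ne h4.symm
      have hlA : (l : A) ≠ 0 := hl0 l hl hlp
      have hlG : l ∣ Nat.card G' := hln.trans (by rw [← hn]; exact Subgroup.relIndex_dvd_card H G')
      obtain ⟨ζ, hζG, hζ⟩ := hroots l hl hlG hlp
      have hnorm : ∀ a ∈ G', ∀ h ∈ H, a * h * a⁻¹ ∈ H := by
        intro a ha h hh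
        have h1 := hcomm a ha h (hle hh)
        have h2 : a * h * a⁻¹ = (a * h * a⁻¹ * h⁻¹) * h := by group
        rw [h2]
        exact mul_mem h1 hh
      set K : Subgroup (N ≃ₐ[A] N) :=
        { carrier := {σ | ∃ i : ℤ, ∃ h ∈ H, σ = (g : N ≃ₐ[A] N) ^ i * h}
          mul_mem' := by
            rintro a b ⟨i, h, hh, rfl⟩ ⟨j, h', hh', rfl⟩
            refine ⟨i + j, ((g : N ≃ₐ[A] N) ^ (-j) * h * ((g : N ≃ₐ[A] N) ^ (-j))⁻¹) * h',
              mul_mem (hnorm _ (zpow_mem g.2 _) h hh) hh', ?_⟩
            group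
          one_mem' := ⟨0, 1, one_mem _, by simp⟩
          inv_mem' := by
            rintro a ⟨i, h, hh, rfl⟩
            refine ⟨-i, (g : N ≃ₐ[A] N) ^ i * h⁻¹ * ((g : N ≃ₐ[A] N) ^ i)⁻¹,
              hnorm _ (zpow_mem g.2 _) _ (inv_mem hh), ?_⟩
            group } with hKdef
      have hmemK : ∀ σ, σ ∈ K ↔ ∃ i : ℤ, ∃ h ∈ H, σ = (g : N ≃ₐ[A] N) ^ i * h := fun σ => Iff.rfl
      have hHK : H ≤ K := fun h hh => ⟨0, h, hh, by simp⟩
      have hgK : (g : N ≃ₐ[A] N) ∈ K := ⟨1, 1, one_mem _, by simp⟩
      have hKG : K ≤ G' := by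
        rintro σ ⟨i, h, hh, rfl⟩
        exact mul_mem (zpow_mem g.2 _) (hle hh)
      have hmul : H.relIndex K * K.relIndex G' = n := by
        rw [Subgroup.relIndex_mul_relIndex _ _ _ hHK hKG, hn]
      have hn0 : n ≠ 0 := by
        rw [← hcard]
        exact Nat.card_pos.ne'
      have hHK1 : H.relIndex K ≠ 1 := by
        intro h
        rw [Subgroup.relIndex_eq_one] at h
        exact hgH (h hgK)
      have hlt : K.relIndex G' < n := by
        have h1 : H.relIndex K ≠ 0 := by
          intro h; rw [h, zero_mul] at hmul; exact hn0 hmul.symm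
        have h2 : K.relIndex G' ≠ 0 := by
          intro h; rw [h, mul_zero] at hmul; exact hn0 hmul.symm
        have h3 : 2 ≤ H.relIndex K := by omega
        have h4 : 0 < K.relIndex G' := Nat.pos_of_ne_zero h2
        nlinarith
      have hcopK : Nat.Coprime p (K.relIndex G') := by
        refine Nat.Coprime.coprime_dvd_right ?_ hcop
        rw [hn]
        exact ⟨H.relIndex K, by rw [← hmul]; ring⟩
      have hchain := ih (K.relIndex G') hlt K hKG
        (fun a ha b hb => hHK (hcomm a ha b hb)) hcopK rfl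
      refine hchain.tail ⟨l, hl, hlp, ?_⟩
      refine kchainU_step l hl hlA ζ hζ H K g hHK hgK hgH hgl ?_ ?_ (fun σ hσ => (hmemK σ).1 hσ)
      · intro h hh
        have h1 := hnorm (g : N ≃ₐ[A] N)⁻¹ (inv_mem g.2) h hh
        rwa [inv_inv] at h1
      · rw [IntermediateField.mem_fixedField_iff] at hζG ⊢
        exact fun σ hσ => hζG σ (hKG hσ)

end Pool.Agent.Lib.MXP
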