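import Pool.Agent.Lib.MXP.KumD
import Pool.Agent.Lib.MXP.Dim

set_option autoImplicit false

/-!
# Module MX.KumGen: the maximal ideal of the ring of invariants (paper section 11)

Write `s z := act.f s z`, `A := c.B`, `A_m := {z ∈ A | s z = ξ^m z}` (`m ∈ ℤ`), `y := c.y ∈ A_0`, `x_i := c.x i ∈ A_(n i)`.
(1) `z ∈ A_m`, `‖z‖ < 1`: `z = ∑ a_i x_i + a_0 y` (`Gs.gen`); apply `prj m`: `z = ∑ a'_i x_i + a'_0 y`, `a'_i := prj (m - n i) a_i ∈ A_(m - n i)`, `a'_0 := prj m a_0 ∈ A_m` (`prj_mul`, `prj_self`).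
(2) `z ∈ A_m`, `l ∤ m`: `‖z‖ < 1` (`‖s z - z‖ < 1`, `‖ξ^m - 1‖ = 1`).  So (1) applies to `z`, then to `a'_0`, .. : for all `N`: `z ∈ (x) A + y^N A`.  `A` is noetherian (`gs_noeth`) with `y` in its
maximal ideal: by Krull's intersection theorem in `A / (x) A`, `z ∈ (x) A`: `z = ∑ a_i x_i`, project again: `a_i ∈ A_(m - n i)`.
(3) Let `𝓑 := {β ≠ 0 | β_j ≤ l, l ∣ wt β}`, `wt β := ∑ β_i n_i`, and `T` the set of the combinations of the `x^β`, `β ∈ 𝓑`, and `y` with coefficients in `A_0`.  By induction on `r l - |β|`: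
`a x^β ∈ T` for `β ≠ 0`, `a ∈ A_(- wt β)`: if `β_j ≥ l` for some `j` then `a x^β = (a x^(β - l e_j)) x_j^l`; if not and `l ∣ wt β` then `β ∈ 𝓑`, `a ∈ A_0`; otherwise `a = ∑ a_i x_i` by (2).
(4) `z ∈ A_0`, `‖z‖ < 1`: (1) and (3).
-/

namespace Pool.Agent.Lib.MXP

open Pool.Agent.Lib.MP_3029eb_ag Pool.Agent.Lib.MP_3029eb_ag.Abh Pool.Agent.Lib.TDO
open Pool.Agent.Lib.TU (Mt)

variable {E W : Type} [Field E] [NormedField W] [IsUltrametricDist W] [Algebra E W] {p r : ℕ}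
  {S : IntermediateField E W}

section kumgen

variable {Γ : Type} [Group Γ] {L L' : IntermediateField E W} {act : Act Γ S L L'} {l : ℕ} {ξ : W}
  {s : Γ} {c : Tri W r} {n : Fin r → ℕ}

/-- Elements of the ring `c.B` with eigenvalue `ξ ^ m`. -/
private def KgA (act : Act Γ S L L') (ξ : W) (s : Γ) (c : Tri W r) (m : ℤ) (z : W) : Prop :=
  z ∈ c.B ∧ act.f s z = ξ ^ m * z

private theorem kg_L' (hc : EigX act ξ s c n) {z : W} (hz : z ∈ c.B) : z ∈ L' :=
  hc.ch.le (IntermediateField.subset_adjoin E _ hz)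

private theorem kg_mul (hK : KumD p act l ξ s) {m m' : ℤ} {z w : W} (hz : KgA act ξ s c m z)
    (hw : KgA act ξ s c m' w) : KgA act ξ s c (m + m') (z * w) := by
  refine ⟨mul_mem hz.1 hw.1, ?_⟩
  rw [map_mul, hz.2, hw.2, zpow_add₀ hK.xi0]
  ring

private theorem kg_congr (hK : KumD p act l ξ s) {m m' : ℤ} {z : W} (h : (l : ℤ) ∣ m - m')
    (hz : KgA act ξ s c m z) : KgA act ξ s c m' z := by
  refine ⟨hz.1, ?_⟩
  rw [hz.2]
  have h1 := hK.xi_dvd.2 h
  rw [zpow_sub₀ hK.xi0, div_eq_one_iff_eq (zpow_ne_zero _ hK.xi0)] at h1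
  rw [h1]

private theorem kg_zero_mem (hK : KumD p act l ξ s) (hc : EigX act ξ s c n) {z : W}
    (hz : KgA act ξ s c 0 z) : z ∈ c.B ∧ z ∈ L := by
  refine ⟨hz.1, hK.mem_L (kg_L' hc hz.1) ?_⟩
  rw [hz.2, zpow_zero, one_mul]

private theorem kg_of_mem (hK : KumD p act l ξ s) {z : W} (hz : z ∈ c.B) (hz' : z ∈ L) :
    KgA act ξ s c 0 z := by
  refine ⟨hz, ?_⟩
  rw [zpow_zero, one_mul]
  exact (act.fix z (hK.le hz')).2 hz' s

private theorem kg_x (hc : EigX act ξ s c n) (i : Fin r) : KgA act ξ s c (n i) (c.x i) := by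
  refine ⟨hc.gs.xB i, ?_⟩
  rw [hc.eig i, zpow_natCast]

private theorem kg_prj_sum (m : ℤ) (f : Fin r → W) :
    prj act l ξ s m (∑ i, f i) = ∑ i, prj act l ξ s m (f i) :=
  map_sum (AddMonoidHom.mk' (prj act l ξ s m) (prj_add act l ξ s m)) f Finset.univ

private theorem kg_prj (hA : AmbX p r S) (hK : KumD p act l ξ s) (hc : EigX act ξ s c n) {m : ℤ}
    {z : W} (hz : z ∈ c.B) : KgA act ξ s c m (prj act l ξ s m z) :=
  ⟨hK.prj_B hA hc hz, hK.prj_eig (kg_L' hc hz)⟩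

private theorem kg_step (hA : AmbX p r S) (hK : KumD p act l ξ s) (hc : EigX act ξ s c n)
    (hy : c.y ∈ L) {m : ℤ} {z : W} (hz : KgA act ξ s c m z) (hz1 : ‖z‖ < 1) :
    ∃ (a : Fin r → W) (a0 : W), (∀ i, KgA act ξ s c (m - n i) (a i)) ∧ KgA act ξ s c m a0 ∧
      z = ∑ i, a i * c.x i + a0 * c.y := by
  obtain ⟨b, b0, hb, hb0, e⟩ := hc.gs.gen z hz.1 hz1
  refine ⟨fun i => prj act l ξ s (m - n i) (b i), prj act l ξ s m b0,
    fun i => kg_prj hA hK hc (hb i), kg_prj hA hK hc hb0, ?_⟩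
  have hy' := kg_of_mem (act := act) (c := c) hK hc.gs.yB hy
  calc z = prj act l ξ s m z := (hK.prj_self hA (kg_L' hc hz.1) hz.2).symm
    _ = prj act l ξ s m (∑ i, b i * c.x i + b0 * c.y) := by rw [← e]
    _ = ∑ i, prj act l ξ s (m - n i) (b i) * c.x i + prj act l ξ s m b0 * c.y := by
      rw [prj_add, kg_prj_sum]
      congr 1
      · refine Finset.sum_congr rfl fun i _ => ?_
        exact hK.prj_mul (kg_L' hc (hc.gs.xB i)) (kg_L' hc (hb i)) (kg_x hc i).2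
      · have h1 := hK.prj_mul (m := m) (kg_L' hc hc.gs.yB) (kg_L' hc hb0) hy'.2
        rw [sub_zero] at h1
        exact h1

private theorem kg_lt (hA : AmbX p r S) (hK : KumD p act l ξ s) (hc : EigX act ξ s c n) {m : ℤ}
    {z : W} (hz : KgA act ξ s c m z) (hm : ¬ (l : ℤ) ∣ m) : ‖z‖ < 1 := by
  have h1 := hK.res z (kg_L' hc hz.1) (hc.gs.le z hz.1).2
  rw [hz.2, ← sub_one_mul, norm_mul] at h1
  have h2 : 1 ≤ ‖ξ ^ m - 1‖ := by
    by_contra h
    rw [not_le] at h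
    exact hm (hK.xi_dvd.1 (hK.xi_one hA h))
  exact lt_of_le_of_lt (le_mul_of_one_le_left (norm_nonneg z) h2) h1

private theorem kg_all (hA : AmbX p r S) (hK : KumD p act l ξ s) (hc : EigX act ξ s c n)
    (hy : c.y ∈ L) {m : ℤ} (hm : ¬ (l : ℤ) ∣ m) {z : W} (hz : KgA act ξ s c m z) (N : ℕ) :
    ∃ (a : Fin r → W) (a0 : W), (∀ i, a i ∈ c.B) ∧ KgA act ξ s c m a0 ∧
      z = ∑ i, a i * c.x i + a0 * c.y ^ N := by
  induction N with
  | zero => exact ⟨fun _ => 0, z, fun _ => zero_mem _, hz, by simp⟩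
  | succ N ih =>
    obtain ⟨a, a0, ha, ha0, e⟩ := ih
    obtain ⟨b, b0, hb, hb0, e'⟩ := kg_step hA hK hc hy ha0 (kg_lt hA hK hc ha0 hm)
    refine ⟨fun i => a i + b i * c.y ^ N, b0,
      fun i => add_mem (ha i) (mul_mem (hb i).1 (pow_mem hc.gs.yB N)), hb0, ?_⟩
    calc z = ∑ i, a i * c.x i + a0 * c.y ^ N := e
      _ = ∑ i, a i * c.x i + (∑ i, b i * c.x i + b0 * c.y) * c.y ^ N := by rw [← e']
      _ = ∑ i, (a i + b i * c.y ^ N) * c.x i + b0 * c.y ^ (N + 1) := by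
        have h1 : ∑ i, (a i + b i * c.y ^ N) * c.x i =
            ∑ i, a i * c.x i + (∑ i, b i * c.x i) * c.y ^ N := by
          rw [Finset.sum_mul, ← Finset.sum_add_distrib]
          refine Finset.sum_congr rfl fun i _ => ?_
          ring
        rw [h1]
        ring

/-- Krull's intersection theorem modulo `X`. -/
private theorem kg_abs {R : Type} [CommRing R] [IsNoetherianRing R] {r : ℕ} (X : Fin r → R)
    (y z : R) (h : ∀ N : ℕ, ∃ (a : Fin r → R) (a0 : R), z = ∑ i, a i * X i + a0 * y ^ N) :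
    ∃ (t : R) (g : Fin r → R), ∑ i, g i * X i = (t * y - 1) * z := by
  let I : Ideal R := Ideal.span (Set.range X)
  let J : Ideal R := Ideal.span {y}
  have key : (Ideal.Quotient.mk I z) ∈ (⨅ i : ℕ, J ^ i • ⊤ : Submodule R (R ⧸ I)) := by
    rw [Submodule.mem_iInf]
    intro N
    obtain ⟨a, a0, e⟩ := h N
    have e2 : Ideal.Quotient.mk I z = (y ^ N) • Ideal.Quotient.mk I a0 := by
      rw [Algebra.smul_def, Ideal.Quotient.algebraMap_eq, ← map_mul,
        Ideal.Quotient.mk_eq_mk_iff_sub_mem, e]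
      have e3 : ∑ i, a i * X i + a0 * y ^ N - y ^ N * a0 = ∑ i, a i * X i := by ring
      rw [e3]
      exact Ideal.sum_mem _ fun i _ => Ideal.mul_mem_left _ _ (Ideal.subset_span ⟨i, rfl⟩)
    rw [e2]
    have hyJ : y ∈ J := Ideal.mem_span_singleton_self y
    exact Submodule.smul_mem_smul (Ideal.pow_mem_pow hyJ N) Submodule.mem_top
  rw [Ideal.mem_iInf_smul_pow_eq_bot_iff] at key
  obtain ⟨⟨u, hu⟩, hu'⟩ := key
  rw [Algebra.smul_def, Ideal.Quotient.algebraMap_eq, ← map_mul,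
    Ideal.Quotient.mk_eq_mk_iff_sub_mem] at hu'
  obtain ⟨t, ht⟩ := Ideal.mem_span_singleton'.1 hu
  obtain ⟨g, hg⟩ := Ideal.mem_span_range_iff_exists_fun.1 hu'
  refine ⟨t, g, ?_⟩
  rw [hg, ht, sub_one_mul]

private theorem kg_krull (hA : AmbX p r S) (hc : Gs S c) {z : W} (hz : z ∈ c.B)
    (h : ∀ N : ℕ, ∃ (a : Fin r → W) (a0 : W), (∀ i, a i ∈ c.B) ∧ a0 ∈ c.B ∧
      z = ∑ i, a i * c.x i + a0 * c.y ^ N) :
    ∃ a : Fin r → W, (∀ i, a i ∈ c.B) ∧ z = ∑ i, a i * c.x i := by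
  have hN : IsNoetherianRing c.B := hc.noeth hA
  obtain ⟨t, g, hg⟩ := kg_abs (R := c.B) (fun i => ⟨c.x i, hc.xB i⟩) ⟨c.y, hc.yB⟩ ⟨z, hz⟩
    (fun N => by
      obtain ⟨a, a0, ha, ha0, e⟩ := h N
      refine ⟨fun i => ⟨a i, ha i⟩, ⟨a0, ha0⟩, ?_⟩
      apply Subtype.ext
      rw [Subring.coe_add, Subring.coe_mul, Subring.coe_pow, AddSubmonoidClass.coe_finsetSum]
      exact e)
  have hg' : ∑ i, (g i : W) * c.x i = ((t : W) * c.y - 1) * z := by
    have h1 := congrArg (fun w : c.B => (w : W)) hg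
    simp only [AddSubmonoidClass.coe_finsetSum, Subring.coe_mul, AddSubgroupClass.coe_sub,
      Subring.coe_one] at h1
    exact h1
  have hu1 : ‖(t : W) * c.y‖ < 1 := by
    rw [norm_mul]
    exact (mul_le_of_le_one_left (norm_nonneg _) (hc.le _ t.2).2).trans_lt hc.y1
  have hu2 : ‖(t : W) * c.y - 1‖ = 1 := by
    have h1 : ‖(t : W) * c.y‖ ≠ ‖(-1 : W)‖ := by
      rw [norm_neg, norm_one]
      exact hu1.ne
    rw [sub_eq_add_neg, IsUltrametricDist.norm_add_eq_max_of_norm_ne_norm h1, norm_neg, norm_one]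
    exact max_eq_right hu1.le
  have hu3 : ((t : W) * c.y - 1)⁻¹ ∈ c.B :=
    hc.inv (sub_mem (mul_mem t.2 hc.yB) (one_mem _)) hu2
  have hu4 : (t : W) * c.y - 1 ≠ 0 := by
    intro h0
    rw [h0, norm_zero] at hu2
    exact zero_ne_one hu2
  refine ⟨fun i => ((t : W) * c.y - 1)⁻¹ * (g i : W), fun i => mul_mem hu3 (g i).2, ?_⟩
  have h1 : ∑ i, ((t : W) * c.y - 1)⁻¹ * (g i : W) * c.x i =
      ((t : W) * c.y - 1)⁻¹ * ∑ i, (g i : W) * c.x i := by
    rw [Finset.mul_sum]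
    refine Finset.sum_congr rfl fun i _ => ?_
    ring
  rw [h1, hg', inv_mul_cancel_left₀ hu4]

private theorem kg_two (hA : AmbX p r S) (hK : KumD p act l ξ s) (hc : EigX act ξ s c n)
    (hy : c.y ∈ L) {m : ℤ} (hm : ¬ (l : ℤ) ∣ m) {z : W} (hz : KgA act ξ s c m z) :
    ∃ a : Fin r → W, (∀ i, KgA act ξ s c (m - n i) (a i)) ∧ z = ∑ i, a i * c.x i := by
  obtain ⟨b, hb, e⟩ := kg_krull hA hc.gs hz.1 fun N => by
    obtain ⟨a, a0, ha, ha0, e⟩ := kg_all hA hK hc hy hm hz N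
    exact ⟨a, a0, ha, ha0.1, e⟩
  refine ⟨fun i => prj act l ξ s (m - n i) (b i), fun i => kg_prj hA hK hc (hb i), ?_⟩
  calc z = prj act l ξ s m z := (hK.prj_self hA (kg_L' hc hz.1) hz.2).symm
    _ = prj act l ξ s m (∑ i, b i * c.x i) := by rw [← e]
    _ = ∑ i, prj act l ξ s (m - n i) (b i) * c.x i := by
      rw [kg_prj_sum]
      refine Finset.sum_congr rfl fun i _ => ?_
      exact hK.prj_mul (kg_L' hc (hc.gs.xB i)) (kg_L' hc (hb i)) (kg_x hc i).2

/-- The combinations of the monomials with exponents in `Y` and of `y` with coefficients in the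
ring of invariants. -/
private def KgT (L : IntermediateField E W) (c : Tri W r) (Y : Finset (Fin r → ℕ)) (z : W) :
    Prop :=
  ∃ (b : (Fin r → ℕ) → W) (b0 : W),
    (∀ β, b β ∈ c.B ∧ b β ∈ L) ∧ b0 ∈ c.B ∧ b0 ∈ L ∧
      z = ∑ β ∈ Y, b β * monN c.x β + b0 * c.y

private theorem kgt_add {Y : Finset (Fin r → ℕ)} {z w : W} (hz : KgT L c Y z)
    (hw : KgT L c Y w) : KgT L c Y (z + w) := by
  obtain ⟨b, b0, hb, h1, h2, e⟩ := hz
  obtain ⟨b', b0', hb', h1', h2', e'⟩ := hw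
  refine ⟨fun β => b β + b' β, b0 + b0',
    fun β => ⟨add_mem (hb β).1 (hb' β).1, add_mem (hb β).2 (hb' β).2⟩, add_mem h1 h1',
    add_mem h2 h2', ?_⟩
  rw [e, e']
  simp only [add_mul, Finset.sum_add_distrib]
  ring

private theorem kgt_zero {Y : Finset (Fin r → ℕ)} : KgT L c Y 0 :=
  ⟨fun _ => 0, 0, fun _ => ⟨zero_mem _, zero_mem _⟩, zero_mem _, zero_mem _, by simp⟩

private theorem kgt_smul {Y : Finset (Fin r → ℕ)} {a z : W} (ha : a ∈ c.B) (ha' : a ∈ L)
    (hz : KgT L c Y z) : KgT L c Y (a * z) := by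
  obtain ⟨b, b0, hb, h1, h2, e⟩ := hz
  refine ⟨fun β => a * b β, a * b0,
    fun β => ⟨mul_mem ha (hb β).1, mul_mem ha' (hb β).2⟩, mul_mem ha h1, mul_mem ha' h2, ?_⟩
  rw [e, mul_add, Finset.mul_sum, mul_assoc]
  congr 1
  refine Finset.sum_congr rfl fun i _ => ?_
  ring

private theorem kgt_y {Y : Finset (Fin r → ℕ)} : KgT L c Y c.y :=
  ⟨fun _ => 0, 1, fun _ => ⟨zero_mem _, zero_mem _⟩, one_mem _, one_mem _, by simp⟩

private theorem kgt_mon {Y : Finset (Fin r → ℕ)} {β : Fin r → ℕ} (hβ : β ∈ Y) :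
    KgT L c Y (monN c.x β) := by
  classical
  refine ⟨fun β' => if β' = β then 1 else 0, 0, fun β' => ?_, zero_mem _, zero_mem _, ?_⟩
  · show (if β' = β then 1 else 0) ∈ c.B ∧ (if β' = β then 1 else 0) ∈ L
    split_ifs
    · exact ⟨one_mem _, one_mem _⟩
    · exact ⟨zero_mem _, zero_mem _⟩
  · simp [hβ]

private theorem kgt_sum {Y : Finset (Fin r → ℕ)} (f : Fin r → W) (h : ∀ i, KgT L c Y (f i)) :
    KgT L c Y (∑ i, f i) :=
  Finset.sum_induction f (KgT L c Y) (fun _ _ h1 h2 => kgt_add h1 h2) kgt_zero fun i _ => h i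

private theorem kg_mon (hK : KumD p act l ξ s) (hc : EigX act ξ s c n) (β : Fin r → ℕ) :
    KgA act ξ s c ((∑ i, β i * n i : ℕ) : ℤ) (monN c.x β) := by
  have h1 := mon_eig hK hc.eig (fun i => (β i : ℤ))
  have h2 : mon c.x (fun i => (β i : ℤ)) = monN c.x β := by
    unfold mon monN
    exact Finset.prod_congr rfl fun i _ => zpow_natCast _ _
  rw [h2] at h1
  refine ⟨?_, ?_⟩
  · unfold monN
    exact prod_mem fun i _ => pow_mem (hc.gs.xB i) _
  · rw [h1]
    congr 2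
    push_cast
    rfl

/-- The exponents. -/
private noncomputable def kgY (r l : ℕ) (n : Fin r → ℕ) : Finset (Fin r → ℕ) := by
  classical
  exact (Fintype.piFinset fun _ : Fin r => Finset.range (l + 1)).filter
    fun β => β ≠ 0 ∧ l ∣ ∑ i, β i * n i

private theorem mem_kgY {r l : ℕ} {n : Fin r → ℕ} {β : Fin r → ℕ} :
    β ∈ kgY r l n ↔ (∀ i, β i ≤ l) ∧ β ≠ 0 ∧ l ∣ ∑ i, β i * n i := by
  classical
  unfold kgY
  simp only [Finset.mem_filter, Fintype.mem_piFinset, Finset.mem_range, Nat.lt_succ_iff]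

private theorem kg_monN_single (u : Fin r → W) (β : Fin r → ℕ) (i : Fin r) :
    monN u (β + Pi.single i 1) = u i * monN u β := by
  classical
  rw [monN_add, mul_comm]
  congr 1
  unfold monN
  rw [Finset.prod_eq_single i]
  · simp
  · intro j _ hj
    simp [hj]
  · intro h
    exact absurd (Finset.mem_univ i) h

private theorem kg_wt_add (β : Fin r → ℕ) (i : Fin r) :
    ∑ j, (β + Pi.single i 1 : Fin r → ℕ) j * n j = ∑ j, β j * n j + n i := by
  classical
  simp [add_mul, Finset.sum_add_distrib, Pi.single_apply]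

private theorem kg_card_add (β : Fin r → ℕ) (i : Fin r) :
    ∑ j, (β + Pi.single i 1 : Fin r → ℕ) j = ∑ j, β j + 1 := by
  classical
  simp [Finset.sum_add_distrib]

private theorem kg_big (hK : KumD p act l ξ s)
    (hc : EigX act ξ s c n) {β : Fin r → ℕ} {j : Fin r} (hj : l ≤ β j) {a : W}
    (ha : KgA act ξ s c (-((∑ i, β i * n i : ℕ) : ℤ)) a) :
    KgT L c (kgY r l n) (a * monN c.x β) := by
  classical
  obtain ⟨γ, hγ⟩ : ∃ γ : Fin r → ℕ, β = γ + Pi.single j l := by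
    refine ⟨β - Pi.single j l, ?_⟩
    funext i
    by_cases h : i = j
    · subst h
      simp [hj]
    · simp [h]
  have hw : ∑ i, (Pi.single j l : Fin r → ℕ) i * n i = l * n j := by
    simp [Pi.single_apply]
  have hY : (Pi.single j l : Fin r → ℕ) ∈ kgY r l n := by
    rw [mem_kgY]
    refine ⟨fun i => ?_, ?_, ?_⟩
    · by_cases h : i = j
      · subst h
        simp
      · simp [h]
    · intro h
      have := congrFun h j
      simp at this
      exact hK.prime.ne_zero this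
    · rw [hw]
      exact Dvd.intro _ rfl
  have hsum : ∑ i, β i * n i = ∑ i, γ i * n i + l * n j := by
    rw [hγ, ← hw, ← Finset.sum_add_distrib]
    refine Finset.sum_congr rfl fun i _ => ?_
    rw [Pi.add_apply, add_mul]
  have h0 : KgA act ξ s c 0 (a * monN c.x γ) := by
    refine kg_congr hK ?_ (kg_mul hK ha (kg_mon hK hc γ))
    rw [hsum]
    push_cast
    refine ⟨-(n j : ℤ), ?_⟩
    ring
  rw [hγ, monN_add, ← mul_assoc]
  exact kgt_smul (kg_zero_mem hK hc h0).1 (kg_zero_mem hK hc h0).2 (kgt_mon hY)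

private theorem kg_three (hA : AmbX p r S) (hK : KumD p act l ξ s)
    (hc : EigX act ξ s c n) (hy : c.y ∈ L) (M : ℕ) : ∀ β : Fin r → ℕ, β ≠ 0 →
    r * l - ∑ i, β i ≤ M → ∀ a : W, KgA act ξ s c (-((∑ i, β i * n i : ℕ) : ℤ)) a →
      KgT L c (kgY r l n) (a * monN c.x β) := by
  classical
  induction M with
  | zero =>
    intro β hβ hM a ha
    by_cases hj : ∃ j, l ≤ β j
    · obtain ⟨j, hj⟩ := hj
      exact kg_big hK hc hj ha
    · exfalso
      push Not at hj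
      have hr : r ≠ 0 := by
        rintro rfl
        exact hβ (Subsingleton.elim _ _)
      have hne : Nonempty (Fin r) := ⟨⟨0, Nat.pos_of_ne_zero hr⟩⟩
      have h1 : ∑ i, β i < ∑ _i : Fin r, l :=
        Finset.sum_lt_sum_of_nonempty Finset.univ_nonempty fun i _ => hj i
      rw [Finset.sum_const, Finset.card_univ, Fintype.card_fin, smul_eq_mul] at h1
      omega
  | succ M ih =>
    intro β hβ hM a ha
    by_cases hj : ∃ j, l ≤ β j
    · obtain ⟨j, hj⟩ := hj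
      exact kg_big hK hc hj ha
    · push Not at hj
      have hr : r ≠ 0 := by
        rintro rfl
        exact hβ (Subsingleton.elim _ _)
      have hne : Nonempty (Fin r) := ⟨⟨0, Nat.pos_of_ne_zero hr⟩⟩
      have h1 : ∑ i, β i < ∑ _i : Fin r, l :=
        Finset.sum_lt_sum_of_nonempty Finset.univ_nonempty fun i _ => hj i
      rw [Finset.sum_const, Finset.card_univ, Fintype.card_fin, smul_eq_mul] at h1
      by_cases hd : l ∣ ∑ i, β i * n i
      · have hY : β ∈ kgY r l n := mem_kgY.2 ⟨fun i => (hj i).le, hβ, hd⟩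
        have h0 : KgA act ξ s c 0 a := by
          refine kg_congr hK ?_ ha
          rw [sub_zero, dvd_neg]
          exact_mod_cast hd
        exact kgt_smul (kg_zero_mem hK hc h0).1 (kg_zero_mem hK hc h0).2 (kgt_mon hY)
      · have hd' : ¬ (l : ℤ) ∣ -((∑ i, β i * n i : ℕ) : ℤ) := by
          rw [dvd_neg]
          exact_mod_cast hd
        obtain ⟨b, hb, e⟩ := kg_two hA hK hc hy hd' ha
        have e1 : a * monN c.x β = ∑ i, b i * monN c.x (β + Pi.single i 1) := by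
          rw [e, Finset.sum_mul]
          refine Finset.sum_congr rfl fun i _ => ?_
          rw [kg_monN_single]
          ring
        rw [e1]
        refine kgt_sum _ fun i => ?_
        refine ih (β + Pi.single i 1) ?_ ?_ (b i) ?_
        · intro h
          have := congrFun h i
          simp at this
        · rw [kg_card_add]
          omega
        · rw [kg_wt_add]
          have h2 := hb i
          have h3 : -((∑ i, β i * n i : ℕ) : ℤ) - (n i : ℤ) =
              -((∑ i, β i * n i + n i : ℕ) : ℤ) := by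
            push_cast
            ring
          rw [h3] at h2
          exact h2

end kumgen

theorem eig_gen (hr : 0 < r) (hA : AmbX p r S) {Γ : Type} [Group Γ]
    {L L' : IntermediateField E W} {act : Act Γ S L L'} {l : ℕ} {ξ : W} {s : Γ}
    (hK : KumD p act l ξ s) {c : Tri W r} {n : Fin r → ℕ} (hc : EigX act ξ s c n)
    (hy : c.y ∈ L) :
    ∃ Y : Finset (Fin r → ℕ), (∀ β ∈ Y, β ≠ 0 ∧ l ∣ ∑ i, β i * n i) ∧
      ∀ z ∈ c.B, z ∈ L → ‖z‖ < 1 → ∃ (b : (Fin r → ℕ) → W) (b0 : W),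
        (∀ β, b β ∈ c.B ∧ b β ∈ L) ∧ b0 ∈ c.B ∧ b0 ∈ L ∧
          z = ∑ β ∈ Y, b β * monN c.x β + b0 * c.y := by
  classical
  refine ⟨kgY r l n, fun β hβ => (mem_kgY.1 hβ).2, fun z hz hz' hz1 => ?_⟩
  obtain ⟨a, a0, ha, ha0, e⟩ := kg_step hA hK hc hy (kg_of_mem hK hz hz') hz1
  show KgT L c (kgY r l n) z
  rw [e]
  refine kgt_add (kgt_sum _ fun i => ?_)
    (kgt_smul (kg_zero_mem hK hc ha0).1 (kg_zero_mem hK hc ha0).2 kgt_y)
  have h1 : monN c.x (Pi.single i 1 : Fin r → ℕ) = c.x i := by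
    have h2 := kg_monN_single c.x 0 i
    rw [zero_add, monN_zero, mul_one] at h2
    exact h2
  have h3 := kg_three hA hK hc hy _ (Pi.single i 1 : Fin r → ℕ) (by simp) le_rfl (a i) (by
    have h4 := ha i
    have h5 := kg_wt_add (n := n) (0 : Fin r → ℕ) i
    rw [zero_add] at h5
    rw [h5]
    have h6 : (0 : ℤ) - (n i : ℤ) = -((∑ j, (0 : Fin r → ℕ) j * n j + n i : ℕ) : ℤ) := by
      simp
    rw [h6] at h4
    exact h4)
  rw [h1] at h3
  exact h3

end Pool.Agent.Lib.MXP
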