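import Pool.Agent.Lib.TDO.Um
import Pool.Agent.Lib.TU.MtB

set_option autoImplicit false

/-!
# Module MX.UmP: monomial parameters after adjoining a root of a monomial

`l` is minimal: if `‖t‖^e' = ‖mon x B'‖` with `1 ≤ e' < l` then Bezout (`l` prime) gives `‖t‖ = ‖mon x a‖`, so `‖mon x (l • a)‖ = ‖mon x b‖`, `b = l • a` (`norm_mon_inj`), against `hb`.
(Compare `Pool/Agent/Lib/TU/KumU.lean`.)  `TDO.exists_um` with `y := t`, `e := l`, `B := b`: `x1`, `T`, with `u := t ^ l * mon x (-b)`: `mon x a * t ^ j = mon x1 (T (a, j)).1 * u ^ (T (a, j)).2`.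
So `x i = mon x1 α_i * u ^ n_i`, `‖mon x1 α_i‖ < 1` (`‖u‖ = 1`), `t = mon x1 α_0 * u ^ n_0`, `x1 i = mon x a * t ^ j` with `(a, j) := T.symm (Pi.single i 1, 0)`.
`TU.exists_Mt` for `x1` and the `α_i`: `x'` with `mon x1 α_i = monN x' β_i`, `1 ≤ β_i j` (so `β_i ≠ 0`: `r ≠ 0` as there is an index `i`).  All `x' i` are monomials in `x1`, so Laurent monomials in `x, t`.
-/

namespace Pool.Agent.Lib.MXP

open Pool.Agent.Lib.MP_3029eb_ag Pool.Agent.Lib.MP_3029eb_ag.Abh Pool.Agent.Lib.TDO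
open Pool.Agent.Lib.TU (Mt)

private theorem UmP_min {W : Type} [NormedField W] {r : ℕ} {x : Fin r → W} (hx : Indep x)
    {l : ℕ} (hl : l.Prime) {b : Fin r → ℤ} (hb : ∀ b' : Fin r → ℤ, b ≠ l • b') {ζ : W}
    (hζ0 : ζ ≠ 0) (hζp : ‖ζ‖ ^ l = ‖mon x b‖) (e' : ℕ) (he1 : 1 ≤ e') (he2 : e' < l)
    (B' : Fin r → ℤ) : ‖ζ‖ ^ e' ≠ ‖mon x B'‖ := by
  intro hB'
  have hζpos : 0 < ‖ζ‖ := norm_pos_iff.2 hζ0
  have hcop : Nat.Coprime e' l := (Nat.coprime_of_lt_prime (by omega) he2 hl).symm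
  have hbez := Nat.gcd_eq_gcd_ab e' l
  rw [hcop.gcd_eq_one] at hbez
  set u := Nat.gcdA e' l
  set v := Nat.gcdB e' l
  have h1 : ‖ζ‖ = ‖mon x (u • B' + v • b)‖ := by
    rw [mon_add x hx.ne, mon_zsmul, mon_zsmul, norm_mul, norm_zpow, norm_zpow, ← hB', ← hζp,
      ← zpow_natCast, ← zpow_natCast, ← zpow_mul, ← zpow_mul, ← zpow_add₀ hζpos.ne']
    have : (e' : ℤ) * u + (l : ℤ) * v = 1 := by
      rw [← hbez, Nat.cast_one]
    rw [this, zpow_one]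
  have h2 : ‖mon x b‖ = ‖mon x (l • (u • B' + v • b))‖ := by
    rw [← hζp, mon_nsmul, norm_pow, ← h1]
  exact hb _ (norm_mon_inj hx h2)

theorem um_perron {W : Type} [NormedField W] [IsUltrametricDist W] {r : ℕ} {x : Fin r → W}
    (hx : Indep x) {t : W} (ht : t ≠ 0) {l : ℕ} (hl : l.Prime) {b : Fin r → ℤ}
    (hb : ∀ b' : Fin r → ℤ, b ≠ l • b') (htb : ‖t‖ ^ l = ‖mon x b‖) (Y : Finset (Fin r → ℤ))
    (hY : ∀ a ∈ Y, ‖mon x a‖ < 1) :
    ∃ x' : Fin r → W, Indep x' ∧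
      (∀ i, ∃ (α : Fin r → ℕ) (n : ℤ), α ≠ 0 ∧
        x i = monN x' α * (t ^ l * mon x (-b)) ^ n) ∧
      (∀ a ∈ Y, ∃ (α : Fin r → ℕ) (n : ℤ), (∀ i, 1 ≤ α i) ∧
        mon x a = monN x' α * (t ^ l * mon x (-b)) ^ n) ∧
      (∃ (α : Fin r → ℤ) (n : ℤ), t = mon x' α * (t ^ l * mon x (-b)) ^ n) ∧
      ∀ i, ∃ (a : Fin r → ℤ) (j : ℤ), x' i = mon x a * t ^ j := by
  classical
  obtain ⟨x1, T, hx1, -, hT⟩ := exists_um x hx t ht l hl.one_le b htb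
    (UmP_min hx hl hb ht htb)
  have hu1 : ‖t ^ l * mon x (-b)‖ = 1 := by
    rw [mon_neg, norm_mul, norm_inv, norm_pow, htb,
      mul_inv_cancel₀ (norm_ne_zero_iff.2 (mon_ne x hx.ne b))]
  have hnorm : ∀ a : Fin r → ℤ, ‖mon x1 (T (a, 0)).1‖ = ‖mon x a‖ := by
    intro a
    have h1 := congrArg norm (hT a 0)
    rw [zpow_zero, mul_one, norm_mul, norm_zpow, hu1, one_zpow, mul_one] at h1
    exact h1.symm
  have hsingle : ∀ i, mon x (Pi.single i 1) = x i := fun i => by rw [mon_single]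
  obtain ⟨x', hM, hβ⟩ := Pool.Agent.Lib.TU.exists_Mt hx1
    (Finset.univ.image (fun i : Fin r => (T (Pi.single i 1, 0)).1) ∪
      Y.image (fun a => (T (a, 0)).1)) (by
    intro a ha
    rcases Finset.mem_union.1 ha with ha | ha
    · obtain ⟨i, -, rfl⟩ := Finset.mem_image.1 ha
      rw [hnorm, hsingle]
      exact (hx.lt i).le
    · obtain ⟨c, hc, rfl⟩ := Finset.mem_image.1 ha
      rw [hnorm]
      exact (hY c hc).le)
  refine ⟨x', hM.ind, fun i => ?_, fun a ha => ?_, ?_, fun i => ?_⟩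
  · obtain ⟨β, h1, h2⟩ := hβ (T (Pi.single i 1, 0)).1
      (Finset.mem_union_left _ (Finset.mem_image_of_mem _ (Finset.mem_univ i)))
    have h3 : ‖mon x1 (T (Pi.single i 1, 0)).1‖ < 1 := by
      rw [hnorm, hsingle]
      exact hx.lt i
    refine ⟨β, (T (Pi.single i 1, 0)).2, ?_, ?_⟩
    · intro h0
      have := h2 h3 i
      rw [h0] at this
      simp at this
    · rw [← h1, ← hT, hsingle, zpow_zero, mul_one]
  · obtain ⟨β, h1, h2⟩ := hβ (T (a, 0)).1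
      (Finset.mem_union_right _ (Finset.mem_image_of_mem _ ha))
    have h3 : ‖mon x1 (T (a, 0)).1‖ < 1 := by
      rw [hnorm]
      exact hY a ha
    exact ⟨β, (T (a, 0)).2, h2 h3, by rw [← h1, ← hT, zpow_zero, mul_one]⟩
  · obtain ⟨a', ha'⟩ := hM.mon_eq (T (0, 1)).1
    refine ⟨a', (T (0, 1)).2, ?_⟩
    rw [← ha', ← hT, zpow_one, mon_zero, one_mul]
  · obtain ⟨a', ha'⟩ := hM.mon_eq' hx1 (Pi.single i 1)
    refine ⟨(T.symm (a', 0)).1, (T.symm (a', 0)).2, ?_⟩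
    rw [hT, Prod.mk.eta, AddEquiv.apply_symm_apply, zpow_zero, mul_one]
    rw [mon_single] at ha'
    exact ha'

end Pool.Agent.Lib.MXP
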