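import Pool.Agent.Lib.MXP.Fld
import Pool.Agent.Lib.MXP.StHO
import Pool.Agent.Lib.MXP.GoodU
import Pool.Agent.Lib.MXP.UmP
import Pool.Agent.Lib.TDO.Cl
import Pool.Agent.Lib.TU.HenU

set_option autoImplicit false

/-!
# Module MX.KumX: Kummer extensions (paper section 6)

Compare `Pool/Agent/Lib/TU/KumU.lean` (`kummer_stepU`).  `w = 0` is trivial.  `f := w^l ∈ L`, `f ≠ 0`.
Choose `f' ∈ Fr E c`, `‖f - f'‖ < ‖f‖` (`Ch.approx`); `f / f' = 1 + δ`, `δ ∈ L`, `‖δ‖ < 1`, `1 + δ = (1 + t)^l` with `t ∈ L`, `‖t‖ < 1` (Hensel in the complete field `L`: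
`TU.henselU`; `‖(l : W)‖ = 1` by `norm_cast_one`).  `w' := w / (1 + t)`: `w'^l = f'`, `L ⊔ E(w') = L ⊔ E(w)`; `w' ∈ S` (`hA.alg`, algebraic over `S ∋ f'`).
`m_all` (`Z := {f'}`; `f' ∈ S ⊓ L`): a chart `c` of `L` with `f' = mon c.x b * u`, `u ∈ HO c`, `‖u‖ = 1`; after a basis change (`Gd.ex`, `good_bx`, directedness) `c` is strictly good and `u, u⁻¹ ∈ c.B`
(`HO c` and `MoH` do not change under basis change).
Case `b = l • b'`: `z := w' * mon c.x (-b')`, `z^l = u`, `‖z‖ = 1`, `L ⊔ E(z) = L ⊔ E(w')`: `good_unr` with `P := X^l - C u`: `P'(z) = l z^(l-1)` has norm one.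
`B1 := locV (closure (c.B ∪ {z}))`, `Fr E ⟨B1, ..⟩ = Fr E c ⊔ E(z) ≤ L ⊔ E(z)`, dense: `cl (Fr E c ⊔ E(z))` is a field containing `L` (`L ≤ cl (Fr E c)`) and `z`.
Case `b` not in `l ℤ^r`: `‖w'‖^l = ‖mon c.x b‖`; `um_perron` (`Y := ∅`), `u = w'^l * mon c.x (-b)`: `x'`.  `x' i ∈ S`, `good_ram` (`u ^ n ∈ c.B` as `u, u⁻¹ ∈ c.B`): `B1 := Bx c.B x'`;
`Fr E ⟨B1, x', c.y⟩ = Fr E c ⊔ E(w')` (`x' i` is a Laurent monomial in `c.x, w'`; `w'` is a Laurent monomial in `x'`, `u`).
`ext_dense`: common last step of all up-steps: if `Gd S c'`, `Fr E c' = Fr E c ⊔ E(G)`, `G` finite, then `Ch S (L ⊔ E(G)) c'`.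
-/

namespace Pool.Agent.Lib.MXP

open Pool.Agent.Lib.MP_3029eb_ag Pool.Agent.Lib.MP_3029eb_ag.Abh Pool.Agent.Lib.TDO
open Pool.Agent.Lib.TU (Mt)

variable {E W : Type} [Field E] [NormedField W] [IsUltrametricDist W] [Algebra E W] {p r : ℕ}
  {S : IntermediateField E W}

private theorem kumx_fr_locV (B : Subring W) (X : Set W) :
    IntermediateField.adjoin E
        ((locV (ball W) (Subring.closure ((B : Set W) ∪ X)) : Subring W) : Set W) =
      IntermediateField.adjoin E (B : Set W) ⊔ IntermediateField.adjoin E X := by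
  set M : IntermediateField E W :=
    IntermediateField.adjoin E (B : Set W) ⊔ IntermediateField.adjoin E X with hM
  have hBM : ∀ z ∈ B, z ∈ M := fun z hz =>
    (le_sup_left : _ ≤ M) (IntermediateField.subset_adjoin E _ hz)
  have hXM : ∀ z ∈ X, z ∈ M := fun z hz =>
    (le_sup_right : _ ≤ M) (IntermediateField.subset_adjoin E _ hz)
  have hcl : Subring.closure ((B : Set W) ∪ X) ≤ M.toSubfield.toSubring := by
    rw [Subring.closure_le]
    rintro z (hz | hz)
    · exact hBM z hz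
    · exact hXM z hz
  apply le_antisymm
  · rw [IntermediateField.adjoin_le_iff]
    intro z hz
    obtain ⟨a, ha, b, hb, hb1, h⟩ := mem_locB.1 hz
    have hb0 : b ≠ 0 := by
      rintro rfl
      rw [norm_zero] at hb1
      exact zero_ne_one hb1
    have h2 : z = a / b := by rw [← h, mul_div_cancel_right₀ _ hb0]
    rw [h2]
    exact div_mem (hcl ha) (hcl hb)
  · refine sup_le (IntermediateField.adjoin.mono E _ _ fun z hz => ?_)
      (IntermediateField.adjoin.mono E _ _ fun z hz => ?_)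
    · exact le_locV _ _ (Subring.subset_closure (Or.inl hz))
    · exact le_locV _ _ (Subring.subset_closure (Or.inr hz))

omit [IsUltrametricDist W] in
private theorem kumx_sup_eq (L : IntermediateField E W) {w t : W} (ht : t ∈ L) (ht0 : t ≠ 0) :
    L ⊔ IntermediateField.adjoin E {w / t} = L ⊔ IntermediateField.adjoin E {w} := by
  apply le_antisymm
  · refine sup_le le_sup_left ?_
    rw [IntermediateField.adjoin_simple_le_iff]
    exact div_mem ((le_sup_right : _ ≤ L ⊔ IntermediateField.adjoin E {w})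
      (IntermediateField.mem_adjoin_simple_self E w))
      ((le_sup_left : L ≤ L ⊔ IntermediateField.adjoin E {w}) ht)
  · refine sup_le le_sup_left ?_
    rw [IntermediateField.adjoin_simple_le_iff]
    have h1 : w = (w / t) * t := by field_simp
    have h2 : (w / t) * t ∈ L ⊔ IntermediateField.adjoin E {w / t} :=
      mul_mem ((le_sup_right : _ ≤ L ⊔ IntermediateField.adjoin E {w / t})
        (IntermediateField.mem_adjoin_simple_self E _))
        ((le_sup_left : L ≤ L ⊔ IntermediateField.adjoin E {w / t}) ht)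
    rwa [← h1] at h2

private theorem kumx_root (L : IntermediateField E W) (hL : IsComplete (L : Set W)) {l : ℕ}
    (hln : ‖(l : W)‖ = 1) {δ : W} (hδ : δ ∈ L) (h1 : ‖δ‖ < 1) :
    ∃ t ∈ L, t ^ l = 1 + δ := by
  have h1δ : ‖1 + δ‖ ≤ 1 := (IsUltrametricDist.norm_add_le_max _ _).trans
    (max_le (by rw [norm_one]) h1.le)
  obtain ⟨t, ht, h0, -⟩ := TU.henselU L hL (Polynomial.X ^ l - Polynomial.C (1 + δ)) (by
    intro j
    rw [Polynomial.coeff_sub, Polynomial.coeff_X_pow, Polynomial.coeff_C]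
    have ha : (1 + δ) ∈ L := add_mem (one_mem L) hδ
    refine ⟨sub_mem ?_ ?_, ?_⟩
    · split_ifs
      · exact one_mem L
      · exact zero_mem L
    · split_ifs
      · exact ha
      · exact zero_mem L
    · rw [sub_eq_add_neg]
      refine (IsUltrametricDist.norm_add_le_max _ _).trans (max_le ?_ ?_)
      · split_ifs
        · rw [norm_one]
        · rw [norm_zero]; exact zero_le_one
      · rw [norm_neg]
        split_ifs
        · exact h1δ
        · rw [norm_zero]; exact zero_le_one) (one_mem L) (by rw [norm_one]) (by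
    rw [Polynomial.eval_sub, Polynomial.eval_pow, Polynomial.eval_X, Polynomial.eval_C, one_pow]
    have e : (1 : W) - (1 + δ) = -δ := by ring
    rw [e, norm_neg]; exact h1) (by
    rw [Polynomial.derivative_sub, Polynomial.derivative_X_pow, Polynomial.derivative_C, sub_zero,
      Polynomial.eval_mul, Polynomial.eval_pow, Polynomial.eval_X, one_pow, mul_one,
      Polynomial.eval_C]
    exact hln)
  refine ⟨t, ht, ?_⟩
  rw [Polynomial.eval_sub, Polynomial.eval_pow, Polynomial.eval_X, Polynomial.eval_C,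
    sub_eq_zero] at h0
  exact h0

private theorem kumx_fr_bx {c : Tri W r} (hc : Gd S c) {x' : Fin r → W} (hx : Mt c.x x') :
    Fr E (⟨Bx c.B x', x', c.y⟩ : Tri W r) = Fr E c := by
  apply le_antisymm
  · change IntermediateField.adjoin E ((Bx c.B x' : Subring W) : Set W) ≤ _
    rw [IntermediateField.adjoin_le_iff]
    intro z hz
    exact HO_mem_Fr hc (Bx_mem_HO hc hx hz)
  · change IntermediateField.adjoin E (c.B : Set W) ≤
      IntermediateField.adjoin E ((Bx c.B x' : Subring W) : Set W)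
    exact IntermediateField.adjoin.mono E _ _ fun z hz => le_Bx hz

private theorem kumx_fr_S {c : Tri W r} (hc : Gd S c) {z : W} (hz : z ∈ Fr E c) : z ∈ S := by
  obtain ⟨a, ha, b, hb, hb0, h⟩ := (mem_Fr_iff hc z).1 hz
  have h2 : z = a / b := by rw [← h, mul_div_cancel_right₀ _ hb0]
  rw [h2]
  exact div_mem (hc.mem_S ha) (hc.mem_S hb)

theorem ext_dense {L : IntermediateField E W} {c : Tri W r} (hc : Ch S L c) {c' : Tri W r}
    (hc' : Gd S c') (G : Set W) (h : Fr E c' = Fr E c ⊔ IntermediateField.adjoin E G) :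
    Ch S (L ⊔ IntermediateField.adjoin E G) c' := by
  refine ⟨hc', ?_, ?_⟩
  · rw [h]
    exact sup_le (hc.le.trans le_sup_left) le_sup_right
  · intro z hz
    have h1 : Fr E c ≤ Fr E c' := by rw [h]; exact le_sup_left
    have h2 : IntermediateField.adjoin E G ≤ Fr E c' := by rw [h]; exact le_sup_right
    have h3 : L ⊔ IntermediateField.adjoin E G ≤ cl (Fr E c') :=
      sup_le (fun z hz => cl_mono h1 (hc.dense z hz)) (h2.trans (le_cl _))
    exact h3 hz

/-- the ramified case, strictly good chart -/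
private theorem kumx_ram0 {L : IntermediateField E W} {c : Tri W r}
    (hC : Ch S L c) (hs : Gs S c) {l : ℕ} (hl : l.Prime) {w1 : W}
    (hw0 : w1 ≠ 0) (hwS : w1 ∈ S) {b : Fin r → ℤ} (hb2 : ∀ b' : Fin r → ℤ, b ≠ l • b') {u : W}
    (hu : u ∈ c.B) (hu' : u⁻¹ ∈ c.B) (hu1 : ‖u‖ = 1) (hw : w1 ^ l = mon c.x b * u) :
    HasCh S r (L ⊔ IntermediateField.adjoin E {w1}) := by
  have hok := hC.gd
  have hind := hok.ind
  have hmb0 : ∀ a, mon c.x a ≠ 0 := fun a => mon_ne c.x hind.ne a
  have hmS : ∀ a, mon c.x a ∈ S := fun a => hok.monS a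
  have htb : ‖w1‖ ^ l = ‖mon c.x b‖ := by rw [← norm_pow, hw, norm_mul, hu1, mul_one]
  have hη : w1 ^ l * mon c.x (-b) = u := by
    rw [hw, mon_neg, mul_comm (mon c.x b) u, mul_assoc, mul_inv_cancel₀ (hmb0 b), mul_one]
  obtain ⟨x', hx', h1, -, ⟨α0, n0, h2⟩, h3⟩ := um_perron hind hw0 hl hb2 htb ∅
    (fun a ha => absurd ha (Finset.notMem_empty a))
  rw [hη] at h1 h2
  have hzp : ∀ n : ℤ, u ^ n ∈ c.B := by
    intro n
    obtain ⟨m, rfl | rfl⟩ := n.eq_nat_or_neg
    · rw [zpow_natCast]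
      exact pow_mem hu m
    · rw [zpow_neg, zpow_natCast, ← inv_pow]
      exact pow_mem hu' m
  have hx'S : ∀ i, x' i ∈ S := by
    intro i
    obtain ⟨a, j, h⟩ := h3 i
    rw [h]
    exact mul_mem (hmS a) (zpow_mem hwS j)
  have hg : Gs S (⟨Bx c.B x', x', c.y⟩ : Tri W r) := by
    refine good_ram hs x' hx' hx'S fun i => ?_
    obtain ⟨α, n, hα, h⟩ := h1 i
    exact ⟨α, u ^ n, hα, hzp n, by rw [norm_zpow, hu1, one_zpow], h⟩
  have hFr : Fr E (⟨Bx c.B x', x', c.y⟩ : Tri W r) =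
      Fr E c ⊔ IntermediateField.adjoin E {w1} := by
    have h4 : Fr E (⟨Bx c.B x', x', c.y⟩ : Tri W r) =
        Fr E c ⊔ IntermediateField.adjoin E (Set.range x') := kumx_fr_locV c.B (Set.range x')
    rw [h4]
    apply le_antisymm
    · refine sup_le le_sup_left ?_
      rw [IntermediateField.adjoin_le_iff]
      rintro _ ⟨i, rfl⟩
      obtain ⟨a, j, h⟩ := h3 i
      rw [h]
      exact mul_mem ((le_sup_left : Fr E c ≤ Fr E c ⊔ IntermediateField.adjoin E {w1})
        (mon_mem_Fr hok a)) (zpow_mem ((le_sup_right : _ ≤ Fr E c ⊔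
          IntermediateField.adjoin E {w1}) (IntermediateField.mem_adjoin_simple_self E w1)) j)
    · refine sup_le le_sup_left ?_
      rw [IntermediateField.adjoin_simple_le_iff, h2]
      refine mul_mem ?_ (zpow_mem ((le_sup_left : Fr E c ≤ Fr E c ⊔
        IntermediateField.adjoin E (Set.range x')) (B_le_Fr hu)) n0)
      refine (le_sup_right : _ ≤ Fr E c ⊔ IntermediateField.adjoin E (Set.range x')) ?_
      refine (IntermediateField.adjoin E (Set.range x')).prod_mem fun j _ => zpow_mem ?_ _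
      exact IntermediateField.subset_adjoin E (Set.range x') ⟨j, rfl⟩
  exact ⟨_, ext_dense hC hg.gd {w1} hFr⟩

/-- the case of a strictly good chart for which `w ^ l` is a monomial times a unit -/
private theorem kumx_aux {L : IntermediateField E W} {c : Tri W r}
    (hC : Ch S L c) (hs : Gs S c) {l : ℕ} (hl : l.Prime) (hln : ‖(l : W)‖ = 1) {w1 : W}
    (hw0 : w1 ≠ 0) (hwS : w1 ∈ S) {b : Fin r → ℤ} {u : W} (hu : u ∈ c.B) (hu' : u⁻¹ ∈ c.B)
    (hu1 : ‖u‖ = 1) (hw : w1 ^ l = mon c.x b * u) :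
    HasCh S r (L ⊔ IntermediateField.adjoin E {w1}) := by
  have hok := hC.gd
  have hind := hok.ind
  have hmb0 : ∀ a, mon c.x a ≠ 0 := fun a => mon_ne c.x hind.ne a
  have hmL : ∀ a, mon c.x a ∈ L := fun a => hC.le (mon_mem_Fr hok a)
  have hmS : ∀ a, mon c.x a ∈ S := fun a => hok.monS a
  by_cases hb : ∃ b' : Fin r → ℤ, b = l • b'
  · obtain ⟨b', hb'⟩ := hb
    set z : W := w1 / mon c.x b' with hzdef
    have hz : z ^ l = u := by
      rw [hzdef, div_pow, hw, hb', mon_nsmul, mul_comm, mul_div_assoc,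
        div_self (pow_ne_zero l (hmb0 b')), mul_one]
    have hzS : z ∈ S := div_mem hwS (hmS b')
    have hz1 : ‖z‖ = 1 := by
      have h1 : ‖z‖ ^ l = 1 := by rw [← norm_pow, hz, hu1]
      exact (pow_eq_one_iff_of_nonneg (norm_nonneg z) hl.ne_zero).1 h1
    have hg : Gs S (⟨locV (ball W) (Subring.closure ((c.B : Set W) ∪ {z})), c.x, c.y⟩ :
        Tri W r) := by
      refine good_unr hs hzS hz1.le (Polynomial.X ^ l - Polynomial.C u) ?_ ?_ ?_
      · intro j
        rw [Polynomial.coeff_sub, Polynomial.coeff_X_pow, Polynomial.coeff_C]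
        refine sub_mem ?_ ?_
        · split_ifs
          · exact one_mem _
          · exact zero_mem _
        · split_ifs
          · exact hu
          · exact zero_mem _
      · rw [Polynomial.eval_sub, Polynomial.eval_pow, Polynomial.eval_X, Polynomial.eval_C, hz,
          sub_self]
      · rw [Polynomial.derivative_sub, Polynomial.derivative_X_pow, Polynomial.derivative_C,
          sub_zero, Polynomial.eval_mul, Polynomial.eval_pow, Polynomial.eval_X,
          Polynomial.eval_C, norm_mul, norm_pow, hz1, one_pow, mul_one, hln]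
    have h1 : Ch S (L ⊔ IntermediateField.adjoin E {z})
        (⟨locV (ball W) (Subring.closure ((c.B : Set W) ∪ {z})), c.x, c.y⟩ : Tri W r) :=
      ext_dense hC hg.gd {z} (kumx_fr_locV c.B {z})
    rw [hzdef, kumx_sup_eq L (w := w1) (hmL b') (hmb0 b')] at h1
    exact ⟨_, h1⟩
  · exact kumx_ram0 hC hs hl hw0 hwS (fun b' h => hb ⟨b', h⟩) hu hu' hu1 hw

/-- a strictly good chart in which a given unit of `HO c` is a unit of the ring -/
private theorem kumx_model {L : IntermediateField E W} {c : Tri W r} (hC : Ch S L c) {u : W}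
    (huO : u ∈ HO c) (hu1 : ‖u‖ = 1) :
    ∃ x' : Fin r → W, Mt c.x x' ∧ Gs S (⟨Bx c.B x', x', c.y⟩ : Tri W r) ∧
      Ch S L (⟨Bx c.B x', x', c.y⟩ : Tri W r) ∧ u ∈ Bx c.B x' ∧ u⁻¹ ∈ Bx c.B x' := by
  classical
  obtain ⟨x', hx', hs, hZ, -⟩ := exists_model hC.gd {u, u⁻¹} (fun z hz => by
    rw [Finset.mem_insert, Finset.mem_singleton] at hz
    rcases hz with rfl | rfl
    · exact huO
    · exact inv_mem_HO hC.gd huO hu1) ∅ (fun a ha => absurd ha (Finset.notMem_empty a))
  refine ⟨x', hx', hs, ⟨hs.gd, ?_, ?_⟩, hZ u (by simp), hZ u⁻¹ (by simp)⟩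
  · rw [kumx_fr_bx hC.gd hx']
    exact hC.le
  · intro z hz
    rw [kumx_fr_bx hC.gd hx']
    exact hC.dense z hz

theorem kummer_stepX (hA : AmbX p r S) {L : IntermediateField E W}
    (hL : IsComplete (L : Set W)) (h : HasCh S r L) {l : ℕ} (hl : l.Prime) (hlp : (l : W) ≠ 0) {w : W}
    (hw : w ^ l ∈ L) : HasCh S r (L ⊔ IntermediateField.adjoin E {w}) := by
  classical
  by_cases hw0 : w = 0
  · have h1 : L ⊔ IntermediateField.adjoin E {w} = L := by
      rw [hw0, IntermediateField.adjoin_zero, sup_bot_eq]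
    rw [h1]; exact h
  obtain ⟨c₁, hC₁⟩ := h
  have hln : ‖(l : W)‖ = 1 := norm_natE hA.trv hlp
  set f : W := w ^ l with hf
  have hf0 : f ≠ 0 := pow_ne_zero l hw0
  have hfn : 0 < ‖f‖ := norm_pos_iff.2 hf0
  obtain ⟨g, hg, hgf⟩ := hC₁.approx hw hfn
  have hgn : ‖g‖ = ‖f‖ := by
    have h1 : g = f + -(f - g) := by ring
    rw [h1, IsUltrametricDist.norm_add_eq_max_of_norm_ne_norm (by rw [norm_neg]; exact hgf.ne'),
      norm_neg]
    exact max_eq_left hgf.le
  have hg0 : g ≠ 0 := by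
    intro h0
    rw [h0, norm_zero] at hgn
    linarith
  have hgL : g ∈ L := hC₁.le hg
  have hgS : g ∈ S := kumx_fr_S hC₁.gd hg
  have hδL : f / g - 1 ∈ L := sub_mem (div_mem hw hgL) (one_mem L)
  have hδn : ‖f / g - 1‖ < 1 := by
    have h1 : f / g - 1 = (f - g) / g := by field_simp
    rw [h1, norm_div, hgn, div_lt_one hfn]
    exact hgf
  obtain ⟨t, htL, htl⟩ := kumx_root L hL hln hδL hδn
  have htl' : t ^ l = f / g := by rw [htl]; ring
  have ht0 : t ≠ 0 := by
    intro h0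
    rw [h0, zero_pow hl.ne_zero] at htl'
    exact div_ne_zero hf0 hg0 htl'.symm
  set w1 : W := w / t with hw1
  have hw1l : w1 ^ l = g := by
    rw [hw1, div_pow, htl', ← hf]
    field_simp
  have hw10 : w1 ≠ 0 := div_ne_zero hw0 ht0
  rw [← kumx_sup_eq L (w := w) htL ht0, ← hw1]
  have hw1S : w1 ∈ S := by
    refine hA.sep w1 (sep_kum hlp ?_)
    rw [hw1l]
    exact hgS
  obtain ⟨c, hC, -, hM⟩ := m_all hA hC₁ {g} (fun z hz => by
    rw [Finset.mem_singleton.1 hz]; exact ⟨hgS, hgL, hg0⟩)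
  obtain ⟨b, u, huO, hu1, hgb⟩ := hM g (Finset.mem_singleton_self g)
  obtain ⟨x', hx', hs, hC', h1, h2⟩ := kumx_model hC huO hu1
  obtain ⟨b', hb'⟩ := hx'.mon_eq b
  refine kumx_aux hC' hs hl hln hw10 hw1S (b := b') (u := u) h1 h2 hu1 ?_
  rw [hw1l, hgb, hb']

end Pool.Agent.Lib.MXP
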