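import Pool.Agent.Lib.MXP.YPow

/-!
# Module LdEx: existence of lead forms

Let `0 ≠ z ∈ B = Bx c.B x'`, `I = (x'_1, .., x'_r) B`.
(1) For every `N`: `z = ∑_(|b| < N) x'^b s_b + ρ_N` with `s_b ∈ {0} ∪ (B \ I)`, `ρ_N ∈ I^N`, the `s_b` not
depending on `N` (induction: an element of `I^N` is `∑_(|b| = N) x'^b t_b`; keep `t_b` if `t_b ∉ I`,
otherwise `x'^b t_b ∈ I^(N+1)`).
(2) By Krull's intersection theorem `z ∉ I^(N0)` for some `N0`, so some `s_b ≠ 0` with `|b| < N0`.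
(3) Choose `N ≥ N0` with `(max ‖x'_i‖)^N < min_(|b| < N0) ‖x'^b‖`, and `b*` with `s_(b*) ≠ 0`, `|b*| < N`, of
the largest norm `‖x'^(b*)‖` (`≥` that minimum).  All other terms and `ρ_N` are `x'^(b*)` times elements
of `QH` (different exponents have different norms; `ρ_N = ∑_(|b| = N) x'^b t_b`).
So `z = x'^(b*) (u + q)`, `u ∈ B \ I`, `q ∈ QH`.
(4) `u = y^d v + i`, `‖v‖ = 1`, `i ∈ I`: in the local noetherian ring `B / I` with maximal ideal `(ȳ)`
(`Gs.gen`) the nonzero element `ū` is in `(ȳ^d)` and not in `(ȳ^(d+1))` for some `d` (Krull), `ū = ȳ^d v̄`,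
`v̄ ∉ (ȳ)`.  `I ⊆ QH` (`r > 0`).
So `z = x'^(b*) (y^d v + q')`; `x'^(b*)` is a monomial in `c.x`.
For `z ∈ HL` use `mem_HL_iff`.
-/

namespace Pool.Agent.Lib.MXP

open Pool.Agent.Lib.MP_3029eb_ag Pool.Agent.Lib.MP_3029eb_ag.Abh Pool.Agent.Lib.TDO
open Pool.Agent.Lib.TU (Mt exists_Mt)

/-- the sums of monomials of norm less than one times elements of `B` -/
private def LdQ {W : Type} [NormedField W] {r : ℕ} (B : Subring W) (x : Fin r → W) :
    AddSubmonoid W :=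
  AddSubmonoid.closure {w | ∃ a : Fin r → ℤ, ‖mon x a‖ < 1 ∧ ∃ h ∈ B, w = mon x a * h}

private theorem LdQ_x {W : Type} [NormedField W] {r : ℕ} {B : Subring W} {x : Fin r → W}
    (hx : Indep x) {b : Fin r → W} (hb : ∀ i, b i ∈ B) : ∑ i, b i * x i ∈ LdQ B x :=
  sum_mem fun i _ => AddSubmonoid.subset_closure
    ⟨Pi.single i 1, by rw [mon_single]; exact hx.lt i, b i, hb i, by rw [mon_single, mul_comm]⟩

private theorem LdEx_sum_lt {W : Type} [NormedField W] [IsUltrametricDist W] {r : ℕ}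
    (hr : 0 < r) {B : Subring W} {x : Fin r → W} (hx : Indep x) (hB : ∀ z ∈ B, ‖z‖ ≤ 1)
    {b : Fin r → W} (hb : ∀ i, b i ∈ B) : ‖∑ i, b i * x i‖ < 1 := by
  obtain ⟨i1, -, hi1⟩ := Finset.exists_max_image Finset.univ (fun i => ‖x i‖)
    ⟨⟨0, hr⟩, Finset.mem_univ _⟩
  refine lt_of_le_of_lt ?_ (hx.lt i1)
  refine IsUltrametricDist.norm_sum_le_of_forall_le_of_nonneg (norm_nonneg _) fun i _ => ?_
  rw [norm_mul]
  exact (mul_le_of_le_one_left (norm_nonneg _) (hB _ (hb i))).trans (hi1 i (Finset.mem_univ _))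

/-- step (A): divide by a monomial -/
private theorem LdEx_A {W : Type} [NormedField W] [IsUltrametricDist W] {r : ℕ}
    (hr : 0 < r) (B : Subring W) [IsNoetherianRing B] [IsLocalRing B] {x : Fin r → W}
    (hx : Indep x) (hxB : ∀ i, x i ∈ B) (hB : ∀ z ∈ B, ‖z‖ ≤ 1) {z : W} (hz : z ∈ B)
    (hz0 : z ≠ 0) :
    ∃ (β : Fin r → ℕ) (s : W), s ∈ B ∧ (∀ b : Fin r → W, (∀ i, b i ∈ B) → s ≠ ∑ i, b i * x i) ∧
      ∃ q ∈ LdQ B x, z = monN x β * (s + q) := by
  classical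
  set xB : Fin r → B := fun i => ⟨x i, hxB i⟩ with hxBdef
  set I : Ideal B := Ideal.span (Set.range xB) with hI
  have hcoe : ∀ β : Fin r → ℕ, ((monN xB β : B) : W) = monN x β := fun β =>
    map_monN B.subtype xB β
  have hIne : I ≠ ⊤ := by
    intro htop
    have h1 : (1 : B) ∈ I := by rw [htop]; trivial
    obtain ⟨c, hc⟩ := (Ideal.mem_span_range_iff_exists_fun).1 h1
    have h2 : ‖∑ i, ((c i : B) : W) * x i‖ < 1 := LdEx_sum_lt hr hx hB fun i => (c i).2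
    have h3 : ((1 : B) : W) = ∑ i, ((c i : B) : W) * x i := by
      rw [← hc]
      push_cast
      rfl
    rw [← h3] at h2
    simp at h2
  have hne : ∃ i0 : Fin r, True := ⟨⟨0, hr⟩, trivial⟩
  obtain ⟨i0, -, hi0⟩ := Finset.exists_min_image Finset.univ (fun i => ‖x i‖)
    ⟨⟨0, hr⟩, Finset.mem_univ _⟩
  obtain ⟨i1, -, hi1⟩ := Finset.exists_max_image Finset.univ (fun i => ‖x i‖)
    ⟨⟨0, hr⟩, Finset.mem_univ _⟩
  set μ := ‖x i0‖
  set ν := ‖x i1‖
  have hμ0 : 0 < μ := norm_pos_iff.2 (hx.ne i0)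
  have hν1 : ν < 1 := hx.lt i1
  have hμ1 : μ < 1 := hx.lt i0
  have hν0 : 0 ≤ ν := norm_nonneg _
  have hlow : ∀ β : Fin r → ℕ, μ ^ (∑ i, β i) ≤ ‖monN x β‖ := by
    intro β
    unfold monN
    rw [norm_prod, ← Finset.prod_pow_eq_pow_sum]
    refine Finset.prod_le_prod (fun i _ => pow_nonneg hμ0.le _) fun i _ => ?_
    rw [norm_pow]
    exact pow_le_pow_left₀ hμ0.le (hi0 i (Finset.mem_univ _)) _
  have hup : ∀ β : Fin r → ℕ, ‖monN x β‖ ≤ ν ^ (∑ i, β i) := by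
    intro β
    unfold monN
    rw [norm_prod, ← Finset.prod_pow_eq_pow_sum]
    refine Finset.prod_le_prod (fun i _ => norm_nonneg _) fun i _ => ?_
    rw [norm_pow]
    exact pow_le_pow_left₀ (norm_nonneg _) (hi1 i (Finset.mem_univ _)) _
  have hpowI : ∀ β : Fin r → ℕ, monN xB β ∈ I ^ (∑ i, β i) := by
    intro β
    unfold monN
    rw [← Finset.prod_pow_eq_pow_sum]
    refine Ideal.prod_mem_prod fun i _ => Ideal.pow_mem_pow ?_ _
    exact Ideal.subset_span ⟨i, rfl⟩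
  -- Krull
  obtain ⟨N, hN⟩ : ∃ N : ℕ, (⟨z, hz⟩ : B) ∉ I ^ N := by
    by_contra hcon
    push Not at hcon
    have h1 : (⟨z, hz⟩ : B) ∈ ⨅ i : ℕ, I ^ i := (Ideal.mem_iInf).2 hcon
    rw [Ideal.iInf_pow_eq_bot_of_isLocalRing I hIne, Ideal.mem_bot] at h1
    exact hz0 (congrArg Subtype.val h1)
  set J : (Fin r → ℕ) → Ideal B := fun β =>
    Ideal.span {w | ∃ γ, ‖monN x γ‖ ≤ ‖monN x β‖ ∧ w = monN xB γ} with hJ
  set J' : (Fin r → ℕ) → Ideal B := fun β =>
    Ideal.span {w | ∃ γ, ‖monN x γ‖ < ‖monN x β‖ ∧ w = monN xB γ} with hJ'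
  have hN0 : N ≠ 0 := by
    rintro rfl
    apply hN
    rw [pow_zero, Ideal.one_eq_top]
    trivial
  have hρ : ∀ γ : Fin r → ℕ, ‖monN x γ‖ ≤ μ ^ N → monN xB γ ∈ I ^ N := by
    intro γ hγ
    have h1 := (hlow γ).trans hγ
    have h2 : N ≤ ∑ i, γ i := by
      by_contra h3
      push Not at h3
      have h4 := pow_lt_pow_right_of_lt_one₀ hμ0 hμ1 h3
      exact absurd h1 (not_le.2 h4)
    exact Ideal.pow_le_pow_right h2 (hpowI γ)
  have hFfin : {β : Fin r → ℕ | μ ^ N < ‖monN x β‖}.Finite := by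
    obtain ⟨n, hn⟩ := exists_pow_lt_of_lt_one (pow_pos hμ0 N) hν1
    refine (Set.finite_Iic (fun _ : Fin r => n)).subset fun β hβ => ?_
    rw [Set.mem_ofPred_eq] at hβ
    rw [Set.mem_Iic, Pi.le_def]
    intro i
    by_contra h3
    push Not at h3
    have h4 : n ≤ ∑ i, β i := h3.le.trans (Finset.single_le_sum (fun j _ => Nat.zero_le _)
      (Finset.mem_univ i))
    have h5 := pow_le_pow_of_le_one hν0 hν1.le h4
    have h6 := hup β
    linarith
  set F := hFfin.toFinset with hF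
  have hFmem : ∀ β, β ∈ F ↔ μ ^ N < ‖monN x β‖ := fun β => by rw [hF, Set.Finite.mem_toFinset]; rfl
  have h0F : (0 : Fin r → ℕ) ∈ F := by
    rw [hFmem, monN_zero, norm_one]
    exact pow_lt_one₀ hμ0.le hμ1 hN0
  have h0J : (⟨z, hz⟩ : B) ∈ J 0 := by
    have h1 : (1 : B) ∈ J 0 := Ideal.subset_span ⟨0, le_rfl, (monN_zero xB).symm⟩
    have h2 := (J 0).mul_mem_left ⟨z, hz⟩ h1
    rwa [mul_one] at h2
  obtain ⟨β, hβ, hmin⟩ := Finset.exists_min_image (F.filter (fun β => (⟨z, hz⟩ : B) ∈ J β))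
    (fun β => ‖monN x β‖) ⟨0, Finset.mem_filter.2 ⟨h0F, h0J⟩⟩
  rw [Finset.mem_filter] at hβ
  have hnot : (⟨z, hz⟩ : B) ∉ J' β := by
    intro hzJ
    by_cases hT : (F.filter (fun γ => ‖monN x γ‖ < ‖monN x β‖)).Nonempty
    · obtain ⟨γ, hγ, hmax⟩ := Finset.exists_max_image _ (fun γ => ‖monN x γ‖) hT
      rw [Finset.mem_filter] at hγ
      have hle : J' β ≤ J γ := by
        rw [hJ', Ideal.span_le]
        rintro w ⟨δ, hδ, rfl⟩
        refine Ideal.subset_span ⟨δ, ?_, rfl⟩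
        by_cases hδF : δ ∈ F
        · exact hmax δ (Finset.mem_filter.2 ⟨hδF, hδ⟩)
        · rw [hFmem, not_lt] at hδF
          exact hδF.trans ((hFmem γ).1 hγ.1).le
      exact absurd (hmin γ (Finset.mem_filter.2 ⟨hγ.1, hle hzJ⟩)) (not_le.2 hγ.2)
    · rw [Finset.not_nonempty_iff_eq_empty] at hT
      apply hN
      have hle : J' β ≤ I ^ N := by
        rw [hJ', Ideal.span_le]
        rintro w ⟨δ, hδ, rfl⟩
        refine hρ δ ?_
        by_contra hcon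
        push Not at hcon
        have h1 : δ ∈ F.filter (fun γ => ‖monN x γ‖ < ‖monN x β‖) :=
          Finset.mem_filter.2 ⟨(hFmem δ).2 hcon, hδ⟩
        rw [hT] at h1
        exact absurd h1 (Finset.notMem_empty _)
      exact hle hzJ
  -- decomposition
  have hJle : J β ≤ Ideal.span {monN xB β} ⊔ J' β := by
    rw [hJ, Ideal.span_le]
    rintro w ⟨γ, hγ, rfl⟩
    rcases lt_or_eq_of_le hγ with hlt | heq
    · exact Ideal.mem_sup_right (Ideal.subset_span ⟨γ, hlt, rfl⟩)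
    · have h1 : γ = β := by
        rw [← T1_mon_natCast, ← T1_mon_natCast] at heq
        have h2 := norm_mon_inj hx heq
        funext i
        exact_mod_cast congrFun h2 i
      rw [h1]
      exact Ideal.mem_sup_left (Ideal.subset_span rfl)
  obtain ⟨u, hu, w, hw, huw⟩ := Submodule.mem_sup.1 (hJle hβ.2)
  obtain ⟨s, rfl⟩ := Ideal.mem_span_singleton'.1 hu
  have hmonβ : monN x β ≠ 0 := Finset.prod_ne_zero_iff.2 fun i _ => pow_ne_zero _ (hx.ne i)
  have hwq : ∃ q ∈ LdQ B x, (w : W) = monN x β * q := by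
    refine Submodule.span_induction (p := fun (w : B) _ => ∃ q ∈ LdQ B x, (w : W) = monN x β * q)
      ?_ ?_ ?_ ?_ hw
    · rintro w ⟨γ, hγ, rfl⟩
      have e1 : mon x (fun i => (γ i : ℤ)) = mon x (fun i => (β i : ℤ)) *
          mon x ((fun i => (γ i : ℤ)) - (fun i => (β i : ℤ))) := by
        rw [← mon_add x hx.ne, add_sub_cancel]
      rw [T1_mon_natCast, T1_mon_natCast] at e1
      refine ⟨mon x ((fun i => (γ i : ℤ)) - (fun i => (β i : ℤ))),
        AddSubmonoid.subset_closure ⟨_, ?_, 1, one_mem _, by rw [mul_one]⟩, ?_⟩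
      · rw [e1, norm_mul] at hγ
        have hb : 0 < ‖monN x β‖ := norm_pos_iff.2 hmonβ
        by_contra hcon
        push Not at hcon
        nlinarith
      · rw [hcoe]
        exact e1
    · exact ⟨0, zero_mem _, by simp⟩
    · rintro w1 w2 _ _ ⟨q1, hq1, h1⟩ ⟨q2, hq2, h2⟩
      refine ⟨q1 + q2, add_mem hq1 hq2, ?_⟩
      push_cast
      rw [h1, h2, mul_add]
    · rintro a w1 _ ⟨q1, hq1, h1⟩
      refine ⟨(a : W) * q1, ?_, ?_⟩
      · refine AddSubmonoid.closure_induction (motive := fun q _ => (a : W) * q ∈ LdQ B x)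
          ?_ ?_ ?_ hq1
        · rintro q ⟨b, hb, h, hh, rfl⟩
          exact AddSubmonoid.subset_closure ⟨b, hb, (a : W) * h, mul_mem a.2 hh, by ring⟩
        · rw [mul_zero]; exact zero_mem _
        · intro q q' _ _ h1 h2
          rw [mul_add]; exact add_mem h1 h2
      · rw [smul_eq_mul]
        push_cast
        rw [h1]
        ring
  obtain ⟨q, hq, hwq⟩ := hwq
  refine ⟨β, s, s.2, ?_, q, hq, ?_⟩
  · intro b hb hs
    apply hnot
    rw [← huw]
    refine (J' β).add_mem ?_ hw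
    have h1 : s = ∑ i, (⟨b i, hb i⟩ : B) * xB i := by
      apply Subtype.ext
      rw [hs]
      push_cast
      rfl
    rw [h1, Finset.sum_mul]
    refine Ideal.sum_mem _ fun i _ => ?_
    have h2 : monN xB (Pi.single i 1 + β) = xB i * monN xB β := by
      rw [monN_add]
      congr 1
      unfold monN
      rw [Finset.prod_eq_single i]
      · rw [Pi.single_eq_same, pow_one]
      · intro j _ hj
        rw [Pi.single_eq_of_ne hj, pow_zero]
      · intro h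
        exact absurd (Finset.mem_univ i) h
    rw [mul_assoc, ← h2]
    refine Ideal.mul_mem_left _ _ (Ideal.subset_span ⟨_, ?_, rfl⟩)
    rw [← hcoe, h2]
    push_cast
    rw [hcoe, norm_mul]
    exact mul_lt_of_lt_one_left (norm_pos_iff.2 hmonβ) (hx.lt i)
  · have h1 := congrArg Subtype.val huw
    push_cast at h1
    rw [hwq, hcoe] at h1
    rw [← h1]
    ring

/-- step (B): divide by a power of `y` -/
private theorem LdEx_B {W : Type} [NormedField W] [IsUltrametricDist W] {r : ℕ}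
    (hr : 0 < r) (B : Subring W) [IsNoetherianRing B] [IsLocalRing B] {x : Fin r → W}
    (hx : Indep x) (hxB : ∀ i, x i ∈ B) {y : W} (hyB : y ∈ B) (hy : ‖y‖ < 1)
    (hB : ∀ z ∈ B, ‖z‖ ≤ 1)
    (hgen : ∀ z ∈ B, ‖z‖ < 1 → ∃ (b : Fin r → W) (b0 : W), (∀ i, b i ∈ B) ∧ b0 ∈ B ∧
      z = ∑ i, b i * x i + b0 * y)
    {s : W} (hs : s ∈ B) (hs0 : ∀ b : Fin r → W, (∀ i, b i ∈ B) → s ≠ ∑ i, b i * x i) :
    ∃ (d : ℕ) (v : W), v ∈ B ∧ ‖v‖ = 1 ∧ ∃ b : Fin r → W, (∀ i, b i ∈ B) ∧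
      s = y ^ d * v + ∑ i, b i * x i := by
  classical
  set xB : Fin r → B := fun i => ⟨x i, hxB i⟩ with hxBdef
  set I : Ideal B := Ideal.span (Set.range xB) with hI
  have hmemI : ∀ w : B, w ∈ I ↔ ∃ b : Fin r → W, (∀ i, b i ∈ B) ∧ (w : W) = ∑ i, b i * x i := by
    intro w
    rw [hI, Ideal.mem_span_range_iff_exists_fun]
    constructor
    · rintro ⟨c, hc⟩
      refine ⟨fun i => (c i : W), fun i => (c i).2, ?_⟩
      rw [← hc]
      push_cast
      rfl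
    · rintro ⟨b, hb, hw⟩
      refine ⟨fun i => ⟨b i, hb i⟩, Subtype.ext ?_⟩
      rw [hw]
      push_cast
      rfl
  have hsum : ∀ b : Fin r → W, (∀ i, b i ∈ B) → ‖∑ i, b i * x i‖ < 1 :=
    fun b hb => LdEx_sum_lt hr hx hB hb
  have hIne : I ≠ ⊤ := by
    intro htop
    have h1 : (1 : B) ∈ I := by rw [htop]; trivial
    obtain ⟨b, hb, h2⟩ := (hmemI 1).1 h1
    have h3 := hsum b hb
    rw [← h2] at h3
    simp at h3
  have : Nontrivial (B ⧸ I) := Ideal.Quotient.nontrivial_iff.2 hIne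
  have : IsLocalRing (B ⧸ I) := IsLocalRing.of_surjective' (Ideal.Quotient.mk I)
    Ideal.Quotient.mk_surjective
  set π := Ideal.Quotient.mk I with hπ
  set yb : B ⧸ I := π ⟨y, hyB⟩ with hyb
  have hyne : (Ideal.span {yb} : Ideal (B ⧸ I)) ≠ ⊤ := by
    intro htop
    have h1 : (1 : B ⧸ I) ∈ (Ideal.span {yb} : Ideal (B ⧸ I)) := by rw [htop]; trivial
    obtain ⟨c, hc⟩ := Ideal.mem_span_singleton'.1 h1
    obtain ⟨c, rfl⟩ := Ideal.Quotient.mk_surjective c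
    have h2 : (1 : B) - c * ⟨y, hyB⟩ ∈ I := by
      rw [← Ideal.Quotient.eq, map_one, map_mul]
      exact hc.symm
    obtain ⟨b, hb, h3⟩ := (hmemI _).1 h2
    push_cast at h3
    have h4 : ‖(c : W) * y + ∑ i, b i * x i‖ < 1 := by
      refine lt_of_le_of_lt (IsUltrametricDist.norm_add_le_max _ _) (max_lt ?_ (hsum b hb))
      rw [norm_mul]
      exact mul_lt_one_of_nonneg_of_lt_one_right (hB _ c.2) (norm_nonneg _) hy
    rw [← h3] at h4
    simp at h4
  have hsI : π ⟨s, hs⟩ ≠ 0 := by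
    intro h
    rw [hπ, Ideal.Quotient.eq_zero_iff_mem] at h
    obtain ⟨b, hb, h3⟩ := (hmemI _).1 h
    exact hs0 b hb h3
  have hex : ∃ n : ℕ, π ⟨s, hs⟩ ∉ (Ideal.span {yb} : Ideal (B ⧸ I)) ^ n := by
    by_contra hcon
    push Not at hcon
    have h1 : π ⟨s, hs⟩ ∈ ⨅ i : ℕ, (Ideal.span {yb} : Ideal (B ⧸ I)) ^ i := (Ideal.mem_iInf).2 hcon
    rw [Ideal.iInf_pow_eq_bot_of_isLocalRing _ hyne, Ideal.mem_bot] at h1
    exact hsI h1
  have hn := Nat.find_spec hex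
  have hmin := fun m (hm : m < Nat.find hex) => Nat.find_min hex hm
  generalize Nat.find hex = n at hn hmin
  have hn0 : n ≠ 0 := by
    rintro rfl
    apply hn
    have h1 : (Ideal.span {yb} : Ideal (B ⧸ I)) ^ 0 = ⊤ := by
      rw [← Ideal.one_eq_top]; exact pow_zero _
    rw [h1]
    trivial
  obtain ⟨d, rfl⟩ := Nat.exists_eq_succ_of_ne_zero hn0
  have h1 := hmin d (Nat.lt_succ_self d)
  rw [not_not, Ideal.span_singleton_pow] at h1
  obtain ⟨v, hv⟩ := Ideal.mem_span_singleton'.1 h1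
  obtain ⟨v, rfl⟩ := Ideal.Quotient.mk_surjective v
  have h2 : (⟨s, hs⟩ : B) - v * ⟨y, hyB⟩ ^ d ∈ I := by
    rw [← Ideal.Quotient.eq, map_mul, map_pow]
    exact hv.symm
  obtain ⟨b, hb, h3⟩ := (hmemI _).1 h2
  push_cast at h3
  refine ⟨d, v, v.2, ?_, b, hb, ?_⟩
  · refine le_antisymm (hB _ v.2) (not_lt.1 fun hlt => ?_)
    obtain ⟨b', b0, hb', hb0, hv'⟩ := hgen _ v.2 hlt
    apply hn
    rw [Ideal.span_singleton_pow, pow_succ, ← hv]
    have h4 : v - (⟨b0, hb0⟩ : B) * ⟨y, hyB⟩ ∈ I := by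
      refine (hmemI _).2 ⟨b', hb', ?_⟩
      push_cast
      rw [hv']
      ring
    rw [← Ideal.Quotient.eq, map_mul] at h4
    refine Ideal.mem_span_singleton'.2 ⟨π ⟨b0, hb0⟩, ?_⟩
    rw [h4]
    ring
  · linear_combination h3

private theorem LdEx_QH {E W : Type} [Field E] [NormedField W] [IsUltrametricDist W]
    [Algebra E W] {r : ℕ} {S : IntermediateField E W} {c : Tri W r} (hr : 0 < r)
    (hok : Gd S c) {x' : Fin r → W} (h : Mt c.x x') {q : W}
    (hq : q ∈ LdQ (Bx c.B x') x') : q ∈ QH c := by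
  refine AddSubmonoid.closure_induction (motive := fun q _ => q ∈ QH c) ?_ ?_ ?_ hq
  · rintro w ⟨a, ha, b, hb, rfl⟩
    obtain ⟨a', ha'⟩ := TU.Mt.mon_eq' hok.ind h a
    rw [ha'] at ha ⊢
    exact mon_mul_mem_QH hok ha (Bx_mem_HO hok h hb)
  · exact QH_zero hok hr
  · intro a b _ _ ha hb
    exact QH_add hok ha hb

/-- See the header. -/
theorem exists_Ld {E W : Type} [Field E] [NormedField W] [IsUltrametricDist W] [Algebra E W]
    {r p : ℕ} {S : IntermediateField E W} {c : Tri W r} (hr : 0 < r) (hA : AmbX p r S)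
    (hok : Gd S c) {z : W} (hz : z ∈ HL c) (h0 : z ≠ 0) :
    ∃ (a : Fin r → ℤ) (d : ℕ), Ld c z a d := by
  obtain ⟨a0, z1, hz1, rfl⟩ := (mem_HL_iff hok z).1 hz
  have hz10 : z1 ≠ 0 := right_ne_zero_of_mul h0
  obtain ⟨x', hM, hs', hz1B, -⟩ := exists_model hok {z1} (fun w hw => by
    rw [Finset.mem_singleton.1 hw]; exact hz1) ∅ (fun a ha => absurd ha (Finset.notMem_empty a))
  replace hz1B := hz1B z1 (Finset.mem_singleton_self z1)
  have := (gs_noeth hA hs').1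
  have := hs'.isLocal
  have hxB := hs'.xB
  have hyB := hs'.yB
  have hB : ∀ z ∈ Bx c.B x', ‖z‖ ≤ 1 := fun z hz => (hs'.le z hz).2
  obtain ⟨β, s, hs, hs0, q, hq, hzq⟩ := LdEx_A hr (Bx c.B x') hM.ind hxB hB hz1B hz10
  obtain ⟨d, v, hv, hv1, b, hb, hsv⟩ := LdEx_B hr (Bx c.B x') hM.ind hxB hyB hok.y1 hB
    (fun z hz h1 => hs'.gen z hz h1) hs hs0
  obtain ⟨a', ha'⟩ := TU.Mt.mon_eq' hok.ind hM (fun i => (β i : ℤ))
  rw [T1_mon_natCast] at ha'
  refine ⟨a0 + a', d, v, Bx_mem_HO hok hM hv, hv1, ∑ i, b i * x' i + q,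
    QH_add hok (LdEx_QH hr hok hM (LdQ_x hM.ind hb)) (LdEx_QH hr hok hM hq), ?_⟩
  rw [hzq, hsv, ha', mon_add c.x hok.ind.ne]
  ring

end Pool.Agent.Lib.MXP
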