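import Pool.Agent.Lib.TU.Defs
import Pool.Agent.Lib.TDO.Subst

/-!
# Module LeadU: the leading part after one stage (general residue fields)
-/

namespace Pool.Agent.Lib.MXP

open Pool.Agent.Lib.MP_3029eb_ag Pool.Agent.Lib.MP_3029eb_ag.Abh Pool.Agent.Lib.TDO

variable {k W : Type} [Field k] [NormedField W] {r : ℕ}

/-- The shape of the leading part after a stage (`TDO.lead_stage` with an arbitrary unit `w`). -/
theorem lead_stageX {x : Fin r → W} {y : W} (hx : Indep x) (hy0 : y ≠ 0) (hy1 : ‖y‖ < 1)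
    {x' : Fin r → W} {w : W} (hw1 : ‖w‖ = 1) {e : ℕ} (he : 1 ≤ e) {B : Fin r → ℤ}
    {T : ((Fin r → ℤ) × ℤ) ≃+ ((Fin r → ℤ) × ℤ)} (hT1e : T (-B, (e : ℤ)) = (0, 1))
    (hm : ∀ (a : Fin r → ℤ) (j : ℤ), mon x a * y ^ j =
      mon x' (T (a, j)).1 * w ^ (T (a, j)).2) (P : LP k r)
    (hT : ∀ a j, P.coeff (a, j) ≠ 0 → 0 ≤ (T (a, (j : ℤ))).2)
    {a0 : Fin r → ℤ} {d : ℕ} (hl : Lead x P a0 d) :
    ∃ (α : Fin r → ℤ) (a1 : Fin r → ℤ) (j1 m1 D : ℕ), P.coeff (a1, j1) ≠ 0 ∧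
      T (a1, (j1 : ℤ)) = (α, (m1 : ℤ)) ∧ j1 + D * e ≤ d ∧ part T P α ≠ 0 ∧
      (∀ a j, P.coeff (a, j) ≠ 0 → ‖mon x' (T (a, (j : ℤ))).1‖ ≤ ‖mon x' α‖) ∧
      (∀ i < m1, (part T P α).coeff i = 0) ∧ (part T P α).natDegree ≤ m1 + D ∧
      (∀ n, (part T P α).coeff n ≠ 0 → ∃ i : ℕ, n = m1 + i ∧
        P.coeff (a1 - i • B, j1 + i * e) ≠ 0 ∧
        T (a1 - i • B, ((j1 + i * e : ℕ) : ℤ)) = (α, (n : ℤ))) ∧
      ‖mon x a0 * y ^ d‖ ≤ ‖mon x' α‖ := by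
  classical
  have hyp : 0 < ‖y‖ := norm_pos_iff.2 hy0
  have hnm : ∀ (a : Fin r → ℤ) (j : ℕ), ‖mon x a * y ^ j‖ = ‖mon x' (T (a, (j : ℤ))).1‖ := by
    intro a j
    have := hm a j
    rw [zpow_natCast] at this
    rw [this, norm_mul, norm_zpow, hw1, one_zpow, mul_one]
  have hne : P.coeff.support.Nonempty := ⟨(a0, d), Finsupp.mem_support_iff.2 hl.mem⟩
  obtain ⟨ms, hms, hmax⟩ := Finset.exists_max_image P.coeff.support
    (fun m => ‖mon x' (T (m.1, (m.2 : ℤ))).1‖) hne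
  set α := (T (ms.1, (ms.2 : ℤ))).1 with hα
  have hmax' : ∀ a j, P.coeff (a, j) ≠ 0 → ‖mon x' (T (a, (j : ℤ))).1‖ ≤ ‖mon x' α‖ :=
    fun a j hj => hmax (a, j) (Finsupp.mem_support_iff.2 hj)
  have hne2 : (P.coeff.support.filter (fun m => (T (m.1, (m.2 : ℤ))).1 = α)).Nonempty :=
    ⟨ms, Finset.mem_filter.2 ⟨hms, rfl⟩⟩
  obtain ⟨⟨a1, j1⟩, hm1, hmin⟩ := Finset.exists_min_image _ (fun m : (Fin r → ℤ) × ℕ => m.2) hne2
  rw [Finset.mem_filter, Finsupp.mem_support_iff] at hm1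
  obtain ⟨hc1, hT1⟩ := hm1
  have hmin' : ∀ a j, P.coeff (a, j) ≠ 0 → (T (a, (j : ℤ))).1 = α → j1 ≤ j := fun a j hj hj' =>
    hmin (a, j) (Finset.mem_filter.2 ⟨Finsupp.mem_support_iff.2 hj, hj'⟩)
  have hm10 := hT a1 j1 hc1
  obtain ⟨m1, hm1⟩ := Int.eq_ofNat_of_zero_le hm10
  have hTa1 : T (a1, (j1 : ℤ)) = (α, (m1 : ℤ)) := Prod.ext hT1 hm1
  -- the exponents `j` are at most `d`
  have hjd : ∀ a j, P.coeff (a, j) ≠ 0 → (T (a, (j : ℤ))).1 = α → j ≤ d := by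
    intro a j hj hj'
    by_contra hlt
    push Not at hlt
    have h1 : ‖mon x a0 * y ^ d‖ ≤ ‖mon x' α‖ := by
      rw [hnm]; exact hmax' a0 d hl.mem
    have h2 : ‖mon x a * y ^ j‖ = ‖mon x' α‖ := by rw [hnm, hj']
    have h3 : ‖mon x a * y ^ j‖ < ‖mon x a0 * y ^ d‖ := by
      rw [norm_mul, norm_mul, norm_pow, norm_pow]
      have h4 : ‖y‖ ^ j < ‖y‖ ^ d := pow_lt_pow_right_of_lt_one₀ hyp hy1 hlt
      have h5 := hl.max a j hj
      have h6 : 0 < ‖mon x a0‖ := norm_pos_iff.2 (mon_ne x hx.ne a0)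
      calc ‖mon x a‖ * ‖y‖ ^ j ≤ ‖mon x a0‖ * ‖y‖ ^ j :=
            mul_le_mul_of_nonneg_right h5 (by positivity)
        _ < ‖mon x a0‖ * ‖y‖ ^ d := mul_lt_mul_of_pos_left h4 h6
    linarith
  -- the other exponents
  have hoth : ∀ a (j n : ℕ), P.coeff (a, j) ≠ 0 → T (a, (j : ℤ)) = (α, (n : ℤ)) →
      ∃ i : ℕ, n = m1 + i ∧ a = a1 - i • B ∧ j = j1 + i * e := by
    intro a j n hj hn
    have h1 : T ((a, (j : ℤ)) - (a1, (j1 : ℤ))) = T (((n : ℤ) - m1) • (-B, (e : ℤ))) := by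
      rw [map_sub, map_zsmul, hn, hTa1, hT1e]
      refine Prod.ext ?_ ?_
      · simp
      · simp
    have h2 := T.injective h1
    have h3 : (j : ℤ) - j1 = ((n : ℤ) - m1) * e := congrArg Prod.snd h2
    have h4 : a - a1 = ((n : ℤ) - m1) • (-B) := congrArg Prod.fst h2
    have h5 : j1 ≤ j := hmin' a j hj (by rw [hn])
    have h6 : (0 : ℤ) ≤ ((n : ℤ) - m1) * e := by rw [← h3]; omega
    have h7 : (0 : ℤ) ≤ (n : ℤ) - m1 := by
      by_contra hneg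
      push Not at hneg
      have : ((n : ℤ) - m1) * e < 0 := mul_neg_of_neg_of_pos hneg (by omega)
      omega
    obtain ⟨i, hi⟩ := Int.eq_ofNat_of_zero_le h7
    refine ⟨i, by omega, ?_, ?_⟩
    · rw [hi, smul_neg] at h4
      rw [← natCast_zsmul, eq_sub_iff_add_eq, ← sub_eq_zero]
      have h8 : a - a1 + ((i : ℕ) : ℤ) • B = 0 := by rw [h4]; simp
      rw [← h8]; abel
    · rw [hi] at h3
      have : (j : ℤ) = ((j1 + i * e : ℕ) : ℤ) := by push_cast; linarith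
      exact_mod_cast this
  have hj1d : j1 ≤ d := hjd a1 j1 hc1 hT1
  have hex : ∀ n, (part T P α).coeff n ≠ 0 → ∃ i : ℕ, n = m1 + i ∧
        P.coeff (a1 - i • B, j1 + i * e) ≠ 0 ∧
        T (a1 - i • B, ((j1 + i * e : ℕ) : ℤ)) = (α, (n : ℤ)) := by
    intro n hn
    obtain ⟨a, j, hj, hTn⟩ := part_coeff_ne T P hT α n hn
    obtain ⟨i, hi, ha, hji⟩ := hoth a j n hj hTn
    refine ⟨i, hi, ?_, ?_⟩
    · rw [← ha, ← hji]; exact hj
    · rw [← ha, ← hji]; exact hTn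
  refine ⟨α, a1, j1, m1, (d - j1) / e, hc1, hTa1, ?_, ?_, hmax', ?_, ?_, hex, ?_⟩
  · have := Nat.div_mul_le_self (d - j1) e
    omega
  · intro h0
    have h1 := part_coeff T P hT a1 j1 hc1
    rw [hT1, h0, Polynomial.coeff_zero] at h1
    exact hc1 h1.symm
  · intro i hi
    by_contra hne
    obtain ⟨i', hi', -, -⟩ := hex i hne
    omega
  · rw [Polynomial.natDegree_le_iff_coeff_eq_zero]
    intro n hn
    by_contra hne
    obtain ⟨i, hi, hc, hTi⟩ := hex n hne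
    have h1 : j1 + i * e ≤ d := hjd _ _ hc (by rw [hTi])
    have h2 : i ≤ (d - j1) / e := by
      rw [Nat.le_div_iff_mul_le (by omega)]
      omega
    omega
  · rw [hnm]; exact hmax' a0 d hl.mem

end Pool.Agent.Lib.MXP
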