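import Pool.Agent.Lib.MXP.KumX
import Pool.Agent.Lib.MXP.PDefs
import Pool.Agent.Lib.TU.HenU

set_option autoImplicit false

/-!
# Module MXP.PAS: Artin-Schreier extensions, first facts

`as_hensel`: `u ^ p - u = z` is solvable for `‖z‖ < 1` (Hensel).  `as_exp`: `t ^ p - t = g`, `1 < ‖g‖`: `t ^ p (1 - t ^ (1 - p)) = g`, `‖t ^ (1 - p)‖ < 1`.
`p_as` (`‖t ^ p - t‖ ≤ 1`): approximate `t ^ p - t` by `v ∈ Fr E c`, replace `t` by `t - u`, `s ^ p - s = v`; a chart with `v ∈ HO c`, after a basis change in the ring; `good_unr` with `X ^ p - X - C v`.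
`p_red`: it is enough to consider `t` with `t ^ p - t ∈ HL c`.
-/

namespace Pool.Agent.Lib.MXP

open Pool.Agent.Lib.MP_3029eb_ag Pool.Agent.Lib.MP_3029eb_ag.Abh Pool.Agent.Lib.TDO
open Pool.Agent.Lib.TU (Mt)

variable {E W : Type} [Field E] [NormedField W] [IsUltrametricDist W] [Algebra E W] {p r : ℕ}
  {S : IntermediateField E W}

theorem as_sub {W : Type} [Field W] {p : ℕ} (hp : p.Prime) (h0 : (p : W) = 0) (t s : W) :
    (t - s) ^ p - (t - s) = (t ^ p - t) - (s ^ p - s) := by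
  rw [sub_eq_add_neg t s, add_pow_p hp h0, neg_pow_p hp h0]
  ring

/-- the coefficients of `X ^ p - X - C v` -/
theorem as_coeff {A : Type*} [SetLike A W] [SubringClass A W] (B : A) {v : W} (hv : v ∈ B)
    (j : ℕ) : (Polynomial.X ^ p - Polynomial.X - Polynomial.C v : Polynomial W).coeff j ∈ B := by
  rw [Polynomial.coeff_sub, Polynomial.coeff_sub, Polynomial.coeff_X_pow, Polynomial.coeff_C,
    Polynomial.coeff_X]
  refine sub_mem (sub_mem ?_ ?_) ?_
  · split_ifs
    exacts [one_mem B, zero_mem B]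
  · split_ifs
    exacts [one_mem B, zero_mem B]
  · split_ifs
    exacts [hv, zero_mem B]

theorem as_eval {v s : W} :
    (Polynomial.X ^ p - Polynomial.X - Polynomial.C v : Polynomial W).eval s = s ^ p - s - v := by
  simp

theorem as_deriv (h0 : (p : W) = 0) {v s : W} :
    (Polynomial.X ^ p - Polynomial.X - Polynomial.C v : Polynomial W).derivative.eval s = -1 := by
  rw [Polynomial.derivative_sub, Polynomial.derivative_sub, Polynomial.derivative_C, sub_zero,
    Polynomial.derivative_X_pow, Polynomial.derivative_X, h0]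
  simp

theorem as_hensel (h0 : (p : W) = 0) (hp0 : p ≠ 0) {L : IntermediateField E W}
    (hL : IsComplete (L : Set W)) {z : W} (hz : z ∈ L) (hz1 : ‖z‖ < 1) :
    ∃ u ∈ L, ‖u‖ < 1 ∧ u ^ p - u = z := by
  have h1 : ∀ j, (Polynomial.X ^ p - Polynomial.X - Polynomial.C z : Polynomial W).coeff j ∈ L ∧
      ‖(Polynomial.X ^ p - Polynomial.X - Polynomial.C z : Polynomial W).coeff j‖ ≤ 1 := by
    intro j
    refine ⟨as_coeff L hz j, ?_⟩
    have h2 := as_coeff (p := p) (ball W) (v := z) ((mem_ball z).2 hz1.le) j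
    exact (mem_ball _).1 h2
  obtain ⟨c, hc, hc1, hc2⟩ := TU.henselU L hL _ h1 (x := 0) L.zero_mem (by simp)
    (by rw [as_eval, zero_pow hp0, sub_zero, zero_sub, norm_neg]; exact hz1)
    (by rw [as_deriv h0, norm_neg, norm_one])
  refine ⟨c, hc, by simpa using hc2, ?_⟩
  rw [as_eval] at hc1
  exact sub_eq_zero.1 hc1

theorem as_exp (hp : p.Prime) {t g : W} (ht : t ^ p - t = g) (hg : 1 < ‖g‖) :
    ‖t‖ ^ p = ‖g‖ ∧ 1 < ‖t‖ ∧ ‖t ^ (1 - (p : ℤ))‖ < 1 ∧
      t ^ p * (1 - t ^ (1 - (p : ℤ))) = g := by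
  have h1 : 1 < ‖t‖ := by
    by_contra hcon
    rw [not_lt] at hcon
    refine absurd hg (not_lt.2 ?_)
    rw [← ht, sub_eq_add_neg]
    refine (IsUltrametricDist.norm_add_le_max _ _).trans (max_le ?_ ?_)
    · rw [norm_pow]
      exact pow_le_one₀ (norm_nonneg _) hcon
    · rw [norm_neg]
      exact hcon
  have ht0 : t ≠ 0 := norm_pos_iff.1 (one_pos.trans h1)
  have h2 : ‖t‖ < ‖t‖ ^ p := by
    calc ‖t‖ = ‖t‖ ^ 1 := (pow_one _).symm
      _ < ‖t‖ ^ p := pow_lt_pow_right₀ h1 hp.one_lt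
  refine ⟨?_, h1, ?_, ?_⟩
  · rw [← ht, sub_eq_add_neg, IsUltrametricDist.norm_add_eq_max_of_norm_ne_norm, norm_neg,
      norm_pow, max_eq_left h2.le]
    rw [norm_neg, norm_pow]
    exact h2.ne'
  · rw [norm_zpow]
    refine zpow_lt_one_of_neg₀ h1 ?_
    have := hp.one_lt
    omega
  · have e : t ^ p * t ^ (1 - (p : ℤ)) = t := by
      rw [← zpow_natCast t p, ← zpow_add₀ ht0, add_sub_cancel, zpow_one]
    rw [mul_sub, mul_one, e, ht]

theorem as_fr_locV (B : Subring W) (X : Set W) :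
    IntermediateField.adjoin E
        ((locV (ball W) (Subring.closure ((B : Set W) ∪ X)) : Subring W) : Set W) =
      IntermediateField.adjoin E (B : Set W) ⊔ IntermediateField.adjoin E X := by
  set M : IntermediateField E W :=
    IntermediateField.adjoin E (B : Set W) ⊔ IntermediateField.adjoin E X with hM
  have hBM : ∀ z ∈ B, z ∈ M := fun z hz =>
    (le_sup_left : _ ≤ M) (IntermediateField.subset_adjoin E _ hz)
  have hXM : ∀ z ∈ X, z ∈ M := fun z hz =>
    (le_sup_right : _ ≤ M) (IntermediateField.subset_adjoin E _ hz)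
  have hcl : Subring.closure ((B : Set W) ∪ X) ≤ M.toSubfield.toSubring := by
    rw [Subring.closure_le]
    rintro z (hz | hz)
    · exact hBM z hz
    · exact hXM z hz
  apply le_antisymm
  · rw [IntermediateField.adjoin_le_iff]
    intro z hz
    obtain ⟨a, ha, b, hb, hb1, h⟩ := mem_locB.1 hz
    have hb0 : b ≠ 0 := by
      rintro rfl
      rw [norm_zero] at hb1
      exact zero_ne_one hb1
    have h2 : z = a / b := by rw [← h, mul_div_cancel_right₀ _ hb0]
    rw [h2]
    exact div_mem (hcl ha) (hcl hb)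
  · refine sup_le (IntermediateField.adjoin.mono E _ _ fun z hz => ?_)
      (IntermediateField.adjoin.mono E _ _ fun z hz => ?_)
    · exact le_locV _ _ (Subring.subset_closure (Or.inl hz))
    · exact le_locV _ _ (Subring.subset_closure (Or.inr hz))

omit [IsUltrametricDist W] in
theorem as_sup_sub (L : IntermediateField E W) {t u : W} (hu : u ∈ L) :
    L ⊔ IntermediateField.adjoin E {t - u} = L ⊔ IntermediateField.adjoin E {t} := by
  apply le_antisymm
  · refine sup_le le_sup_left ?_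
    rw [IntermediateField.adjoin_simple_le_iff]
    exact sub_mem ((le_sup_right : _ ≤ L ⊔ IntermediateField.adjoin E {t})
      (IntermediateField.mem_adjoin_simple_self E t))
      ((le_sup_left : L ≤ L ⊔ IntermediateField.adjoin E {t}) hu)
  · refine sup_le le_sup_left ?_
    rw [IntermediateField.adjoin_simple_le_iff]
    have h1 : t = (t - u) + u := by ring
    have h2 : (t - u) + u ∈ L ⊔ IntermediateField.adjoin E {t - u} :=
      add_mem ((le_sup_right : _ ≤ L ⊔ IntermediateField.adjoin E {t - u})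
        (IntermediateField.mem_adjoin_simple_self E _))
        ((le_sup_left : L ≤ L ⊔ IntermediateField.adjoin E {t - u}) hu)
    rwa [← h1] at h2

theorem as_fr_bx {c : Tri W r} (hc : Gd S c) {x' : Fin r → W} (hx : Mt c.x x') :
    Fr E (⟨Bx c.B x', x', c.y⟩ : Tri W r) = Fr E c := by
  apply le_antisymm
  · change IntermediateField.adjoin E ((Bx c.B x' : Subring W) : Set W) ≤ _
    rw [IntermediateField.adjoin_le_iff]
    intro z hz
    exact HO_mem_Fr hc (Bx_mem_HO hc hx hz)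
  · change IntermediateField.adjoin E (c.B : Set W) ≤
      IntermediateField.adjoin E ((Bx c.B x' : Subring W) : Set W)
    exact IntermediateField.adjoin.mono E _ _ fun z hz => le_Bx hz

theorem as_fr_S {c : Tri W r} (hc : Gd S c) {z : W} (hz : z ∈ Fr E c) : z ∈ S := by
  obtain ⟨a, ha, b, hb, hb0, h⟩ := (mem_Fr_iff hc z).1 hz
  have h2 : z = a / b := by rw [← h, mul_div_cancel_right₀ _ hb0]
  rw [h2]
  exact div_mem (hc.mem_S ha) (hc.mem_S hb)

theorem as_bx {L : IntermediateField E W} {c : Tri W r} (hC : Ch S L c)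
    {x' : Fin r → W} (hx' : Mt c.x x') (hs : Gs S (⟨Bx c.B x', x', c.y⟩ : Tri W r)) :
    Ch S L (⟨Bx c.B x', x', c.y⟩ : Tri W r) := by
  refine ⟨hs.gd, ?_, ?_⟩
  · rw [as_fr_bx hC.gd hx']
    exact hC.le
  · intro z hz
    rw [as_fr_bx hC.gd hx']
    exact hC.dense z hz

theorem p_as [hp0 : Fact ((p : W) = 0)] (hA : AmbX p r S) {L : IntermediateField E W}
    (hL : IsComplete (L : Set W)) (h : HasCh S r L) {t : W} (ht : t ^ p - t ∈ L)
    (h1 : ‖t ^ p - t‖ ≤ 1) : HasCh S r (L ⊔ IntermediateField.adjoin E {t}) := by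
  classical
  have hp := hA.prime
  obtain ⟨c₁, hC₁⟩ := h
  obtain ⟨v, hvF, hvd⟩ := hC₁.approx ht one_pos
  have hvL : v ∈ L := hC₁.le hvF
  have hvS : v ∈ S := as_fr_S hC₁.gd hvF
  have hvn : ‖v‖ ≤ 1 := by
    have e : v = (t ^ p - t) + -((t ^ p - t) - v) := by ring
    rw [e]
    refine (IsUltrametricDist.norm_add_le_max _ _).trans (max_le h1 ?_)
    rw [norm_neg]
    exact hvd.le
  obtain ⟨u, huL, -, hu⟩ := as_hensel hp0.out hp.ne_zero hL (sub_mem ht hvL) hvd
  set s : W := t - u with hs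
  have hsv : s ^ p - s = v := by
    rw [hs, as_sub hp hp0.out, hu]
    ring
  rw [← as_sup_sub L huL, ← hs]
  have hsS : s ∈ S := hA.sep s (sep_as hp0.out hp.ne_zero (by rw [hsv]; exact hvS))
  have hsn : ‖s‖ ≤ 1 := by
    by_contra hcon
    rw [not_le] at hcon
    have h2 : ‖s‖ < ‖s‖ ^ p := by
      calc ‖s‖ = ‖s‖ ^ 1 := (pow_one _).symm
        _ < ‖s‖ ^ p := pow_lt_pow_right₀ hcon hp.one_lt
    have h3 : ‖v‖ = ‖s‖ ^ p := by
      rw [← hsv, sub_eq_add_neg, IsUltrametricDist.norm_add_eq_max_of_norm_ne_norm, norm_neg,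
        norm_pow, max_eq_left h2.le]
      rw [norm_neg, norm_pow]
      exact h2.ne'
    rw [h3] at hvn
    linarith
  -- the chart
  obtain ⟨c, hC, -, hM⟩ := m_all hA hC₁ (({v} : Finset W).filter (· ≠ 0)) (by
    intro z hz
    rw [Finset.mem_filter, Finset.mem_singleton] at hz
    obtain ⟨rfl, h0⟩ := hz
    exact ⟨hvS, hvL, h0⟩)
  have hHO : v ∈ HO c := by
    by_cases h0 : v = 0
    · rw [h0]; exact zero_mem _
    · exact (hM v (Finset.mem_filter.2 ⟨Finset.mem_singleton_self v, h0⟩)).mem_HO hC.gd hvn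
  obtain ⟨x', hx', hg, hZ, -⟩ := exists_model hC.gd {v} (fun z hz => by
    rw [Finset.mem_singleton.1 hz]; exact hHO) ∅
    (fun a ha => absurd ha (Finset.notMem_empty a))
  have hC' := as_bx hC hx' hg
  have hvB : v ∈ Bx c.B x' := hZ v (by simp)
  have hG : Gs S (⟨locV (ball W) (Subring.closure ((Bx c.B x' : Set W) ∪ {s})), x', c.y⟩ :
      Tri W r) := by
    refine good_unr (c := (⟨Bx c.B x', x', c.y⟩ : Tri W r)) hg hsS hsn
      (Polynomial.X ^ p - Polynomial.X - Polynomial.C v) (fun j => as_coeff _ hvB j) ?_ ?_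
    · rw [as_eval, hsv, sub_self]
    · rw [as_deriv hp0.out, norm_neg, norm_one]
  exact ⟨_, ext_dense hC' hG.gd {s} (as_fr_locV (Bx c.B x') {s})⟩

theorem p_red [hp0 : Fact ((p : W) = 0)] (hA : AmbX p r S) {L : IntermediateField E W}
    (hL : IsComplete (L : Set W)) (h : HasCh S r L)
    (h1 : ∀ (c : Tri W r) (g t : W), Ch S L c → g ∈ HL c → t ^ p - t = g →
        HasCh S r (L ⊔ IntermediateField.adjoin E {t})) {t : W} (ht : t ^ p - t ∈ L) :
    HasCh S r (L ⊔ IntermediateField.adjoin E {t}) := by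
  classical
  have hp := hA.prime
  obtain ⟨c₁, hC₁⟩ := h
  obtain ⟨v, hvF, hvd⟩ := hC₁.approx ht one_pos
  have hvL : v ∈ L := hC₁.le hvF
  have hvS : v ∈ S := as_fr_S hC₁.gd hvF
  obtain ⟨u, huL, -, hu⟩ := as_hensel hp0.out hp.ne_zero hL (sub_mem ht hvL) hvd
  have hsv : (t - u) ^ p - (t - u) = v := by
    rw [as_sub hp hp0.out, hu]
    ring
  rw [← as_sup_sub L huL]
  obtain ⟨c, hC, -, hM⟩ := m_all hA hC₁ (({v} : Finset W).filter (· ≠ 0)) (by
    intro z hz
    rw [Finset.mem_filter, Finset.mem_singleton] at hz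
    obtain ⟨rfl, h0⟩ := hz
    exact ⟨hvS, hvL, h0⟩)
  refine h1 c v _ hC ?_ hsv
  by_cases h0 : v = 0
  · rw [h0]; exact zero_mem _
  · exact (hM v (Finset.mem_filter.2 ⟨Finset.mem_singleton_self v, h0⟩)).mem_HL hC.gd

end Pool.Agent.Lib.MXP
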