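import Pool.Agent.Lib.MXP.RunC
import Pool.Agent.Lib.MXP.PAS
import Pool.Agent.Lib.MXP.PEnd0
import Pool.Agent.Lib.MXP.PEnd1

set_option autoImplicit false

/-!
# Module MXP.PStep: the Artin-Schreier step
-/

namespace Pool.Agent.Lib.MXP

open Pool.Agent.Lib.MP_3029eb_ag Pool.Agent.Lib.MP_3029eb_ag.Abh Pool.Agent.Lib.TDO

variable {E W : Type} [Field E] [NormedField W] [IsUltrametricDist W] [Algebra E W] {p r : ℕ}
  {S : IntermediateField E W}

theorem pStep [hp0 : Fact ((p : W) = 0)] (hr : 0 < r) (hA : AmbX p r S)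
    {L : IntermediateField E W}
    (hL : IsComplete (L : Set W)) (h : HasCh S r L) {t : W} (ht : t ^ p - t ∈ L) :
    HasCh S r (L ⊔ IntermediateField.adjoin E {t}) := by
  refine p_red hA hL h ?_ ht
  intro c g t hc hg htg
  have hp := hA.prime
  have hlam : LamP p c (0 : W) := ⟨rfl, hp0.out⟩
  obtain ⟨c2, hR2, s, hs, hs1, hcase⟩ := p_core hr hA hc.gd hlam hg
    (by rw [norm_zero, zero_pow hp.ne_zero, zero_mul]; exact one_pos)
  have hc2 : Ch S L c2 := hc.of_rfS hR2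
  have hg2 : g ∈ HL c2 := RfS.HL_le hc.gd hR2 hg
  obtain ⟨z', hz'⟩ : ∃ z', z' = gact p (0 : W) s g := ⟨_, rfl⟩
  have hz'g : z' = g + (s ^ p - s) := hz'
  rw [← hz'] at hcase
  have hsL : s ∈ L := hc2.le (HL_mem_Fr hc2.gd hs)
  have hgL : g ∈ L := hc2.le (HL_mem_Fr hc2.gd hg2)
  -- the new root
  have htp' : (t - (-s)) ^ p - (t - (-s)) = z' := by
    rw [as_sub hp hp0.out, htg, hz'g, neg_pow_p hp hp0.out]
    ring
  rw [← as_sup_sub L (neg_mem hsL)]
  have hz'L : z' ∈ L := by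
    rw [hz'g]
    exact add_mem hgL (sub_mem (pow_mem hsL p) hsL)
  by_cases hle : ‖z'‖ ≤ 1
  · exact p_as hA hL h (by rw [htp']; exact hz'L) (by rw [htp']; exact hle)
  rw [not_le] at hle
  rcases hcase with hHO | ⟨a, d, hd, h1a, v, hv, hv1, ⟨q, hq, hzq⟩, hnp⟩
  · exact absurd (HO_norm_le hc2.gd hHO) (not_le.2 hle)
  interval_cases d
  · -- d = 0
    have hgv : z' = mon c2.x a * (v + q) := by
      rw [hzq, pow_zero, one_mul]
    have hvq : v + q ∈ HO c2 := add_mem hv (QH_mem_HO hc2.gd hq)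
    have hvq1 : ‖v + q‖ = 1 := by
      have h1 : ‖q‖ < ‖v‖ := by
        rw [hv1]
        exact QH_norm hc2.gd hq
      rw [IsUltrametricDist.norm_add_eq_max_of_norm_ne_norm h1.ne', max_eq_left h1.le, hv1]
    have hrvq : rs (v + q) = rs v := by
      rw [rs_add hv1.le (QH_norm hc2.gd hq).le,
        (rs_eq_zero_iff (QH_norm hc2.gd hq).le).2 (QH_norm hc2.gd hq), add_zero]
    by_cases ha : ∃ a', a = p • a'
    · obtain ⟨a', rfl⟩ := ha
      refine p_end0b hr hA hc2 htp' hle hvq hvq1 hgv ?_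
      intro b hb hbr
      exact hnp ⟨⟨a', rfl⟩, dvd_zero _, rs b, rs_mem_kap hb, by rw [← hbr, hrvq]⟩
    · exact p_end0a hr hA hc2 htp' hle (fun b hb => ha ⟨b, hb⟩) hvq hvq1 hgv
  · -- d = 1
    exact p_end1 hr hA hc2 htp' hle ⟨v, hv, hv1, q, hq, hzq⟩

end Pool.Agent.Lib.MXP
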