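import Pool.Agent.Lib.MXP.KumX

set_option autoImplicit false

/-!
# Module MX.UnrX: unramified extensions (paper section 7)

Compare `Pool/Agent/Lib/TU/UnrU.lean` (`unr_stepU`).  `f` monic over the unit ball of `L`, `f(z) = 0`, `‖f'(z)‖ = 1`; so `‖z‖ ≤ 1`.  Let `n := natDegree f`; approximate the coefficients `a_j` (`j < n`) of `f` by
`a'_j ∈ Fr E c` with `‖a_j - a'_j‖ < 1` (`Ch.approx`), `‖a'_j‖ ≤ 1`; `m_all` for the nonzero `a'_j` (they are in `S ⊓ L`): a chart `c` of `L` with `MoH c a'_j`, so `a'_j ∈ HO c`; after a basis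
change `c` is strictly good and `a'_j ∈ c.B`.  `f1 := T^n + ∑_(j<n) a'_j T^j`: `‖f1(z)‖ < 1`, `‖f1'(z)‖ = 1`.  `L1 := L ⊔ E(z)` is complete (`TDO.isComplete_sup`), `TU.henselU`: `z1 ∈ L1`, `f1(z1) = 0`,
`‖z - z1‖ < 1`, `‖f1'(z1)‖ = 1`.  `L2 := L ⊔ E(z1) ≤ L1` is complete; `‖f(z1)‖ < 1`, `‖f'(z1)‖ = 1`, so `f` has a root `z2 ∈ L2` with `‖z2 - z1‖ < 1`; `z2 = z` by `TU.hensel_unique`.  So
`L1 = L2`.  `z1 ∈ S` (`hA.alg`: root of `f1` over `S`).  `good_unr` with `P := f1`, `z := z1`: `B1 := locV (closure (c.B ∪ {z1}))`, `Fr E ⟨B1, c.x, c.y⟩ = Fr E c ⊔ E(z1)`; `ext_dense`.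
-/

namespace Pool.Agent.Lib.MXP

open Pool.Agent.Lib.MP_3029eb_ag Pool.Agent.Lib.MP_3029eb_ag.Abh Pool.Agent.Lib.TDO
open Pool.Agent.Lib.TU (Mt)

section aux

variable {W : Type} [NormedField W] [IsUltrametricDist W]

private lemma UnrX_eval_lt (h : Polynomial W) (hh : ∀ j, ‖h.coeff j‖ < 1) {a : W} (ha : ‖a‖ ≤ 1) :
    ‖h.eval a‖ < 1 := by
  rw [Polynomial.eval_eq_sum_range]
  refine Finset.sum_induction _ (fun z => ‖z‖ < 1)
    (fun a b ha hb => lt_of_le_of_lt (IsUltrametricDist.norm_add_le_max _ _) (max_lt ha hb))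
    (by rw [norm_zero]; exact one_pos) ?_
  intro i _
  rw [norm_mul, norm_pow]
  have h1 : ‖a‖ ^ i ≤ 1 := pow_le_one₀ (norm_nonneg _) ha
  calc ‖h.coeff i‖ * ‖a‖ ^ i ≤ ‖h.coeff i‖ * 1 := mul_le_mul_of_nonneg_left h1 (norm_nonneg _)
    _ < 1 := by rw [mul_one]; exact hh i

private lemma UnrX_nat (n : ℕ) : ‖(n : W)‖ ≤ 1 := IsUltrametricDist.norm_natCast_le_one W n

private lemma UnrX_der_lt (h : Polynomial W) (hh : ∀ j, ‖h.coeff j‖ < 1) (j : ℕ) :
    ‖h.derivative.coeff j‖ < 1 := by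
  rw [Polynomial.coeff_derivative, norm_mul]
  have h1 : ‖((j : W) + 1)‖ ≤ 1 := by
    have := UnrX_nat (W := W) (j + 1)
    rwa [Nat.cast_add, Nat.cast_one] at this
  calc ‖h.coeff (j + 1)‖ * ‖((j : W) + 1)‖ ≤ ‖h.coeff (j + 1)‖ * 1 :=
        mul_le_mul_of_nonneg_left h1 (norm_nonneg _)
    _ < 1 := by rw [mul_one]; exact hh _

private lemma UnrX_der_le (h : Polynomial W) (hh : ∀ j, ‖h.coeff j‖ ≤ 1) (j : ℕ) :
    ‖h.derivative.coeff j‖ ≤ 1 := by
  rw [Polynomial.coeff_derivative, norm_mul]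
  have h1 : ‖((j : W) + 1)‖ ≤ 1 := by
    have := UnrX_nat (W := W) (j + 1)
    rwa [Nat.cast_add, Nat.cast_one] at this
  exact mul_le_one₀ (hh _) (norm_nonneg _) h1

private lemma UnrX_eq_one {a b : W} (ha : ‖a‖ = 1) (hab : ‖a - b‖ < 1) : ‖b‖ = 1 := by
  have h1 : ‖b‖ ≤ 1 := by
    have e : b = a + -(a - b) := by ring
    rw [e]
    refine (IsUltrametricDist.norm_add_le_max _ _).trans ?_
    rw [norm_neg]
    exact max_le ha.le hab.le
  by_contra hcon
  have h2 : ‖b‖ < 1 := lt_of_le_of_ne h1 hcon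
  have h3 : ‖a‖ < 1 := by
    have e : a = (a - b) + b := by ring
    rw [e]
    exact lt_of_le_of_lt (IsUltrametricDist.norm_add_le_max _ _) (max_lt hab h2)
  rw [ha] at h3
  exact lt_irrefl _ h3

private lemma UnrX_le_one {a b : W} (ha : ‖a‖ ≤ 1) (hab : ‖a - b‖ < 1) : ‖b‖ ≤ 1 := by
  have e : b = a + -(a - b) := by ring
  rw [e]
  refine (IsUltrametricDist.norm_add_le_max _ _).trans ?_
  rw [norm_neg]
  exact max_le ha hab.le

private lemma UnrX_root_le (f : Polynomial W) (hf : ∀ j, ‖f.coeff j‖ ≤ 1) (hfm : f.Monic) {z : W}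
    (h0 : f.eval z = 0) : ‖z‖ ≤ 1 := by
  by_contra hcon
  push Not at hcon
  rw [Polynomial.eval_eq_sum_range, Finset.sum_range_succ, hfm.coeff_natDegree, one_mul] at h0
  have h1 : ‖z ^ f.natDegree‖ = ‖∑ i ∈ Finset.range f.natDegree, f.coeff i * z ^ i‖ := by
    rw [← norm_neg]
    congr 1
    linear_combination -h0
  have hpos : 0 < ‖z‖ ^ f.natDegree := pow_pos (by linarith) _
  have h2 : ‖∑ i ∈ Finset.range f.natDegree, f.coeff i * z ^ i‖ < ‖z‖ ^ f.natDegree := by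
    refine Finset.sum_induction _ (fun w => ‖w‖ < ‖z‖ ^ f.natDegree)
      (fun a b ha hb => lt_of_le_of_lt (IsUltrametricDist.norm_add_le_max _ _) (max_lt ha hb))
      (by rw [norm_zero]; exact hpos) ?_
    intro i hi
    rw [norm_mul, norm_pow]
    have h3 : ‖z‖ ^ i < ‖z‖ ^ f.natDegree := pow_lt_pow_right₀ hcon (Finset.mem_range.1 hi)
    have h4 : 0 ≤ ‖z‖ ^ i := pow_nonneg (norm_nonneg _) _
    calc ‖f.coeff i‖ * ‖z‖ ^ i ≤ 1 * ‖z‖ ^ i := mul_le_mul_of_nonneg_right (hf i) h4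
      _ < ‖z‖ ^ f.natDegree := by rw [one_mul]; exact h3
  rw [← h1, norm_pow] at h2
  exact lt_irrefl _ h2

end aux

private lemma UnrX_alg {k W : Type} [Field k] [Field W] [Algebra k W] (L : IntermediateField k W)
    (g : Polynomial W) (hg : g ≠ 0) (hc : ∀ j, g.coeff j ∈ L) {z : W} (h0 : g.eval z = 0) :
    IsAlgebraic L z := by
  have h1 : g ∈ Polynomial.lifts (algebraMap L W) := by
    rw [Polynomial.lifts_iff_coeff_lifts]
    exact fun j => ⟨⟨g.coeff j, hc j⟩, rfl⟩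
  obtain ⟨q, hq⟩ := (Polynomial.mem_lifts _).1 h1
  refine ⟨q, ?_, ?_⟩
  · rintro rfl
    rw [Polynomial.map_zero] at hq
    exact hg hq.symm
  · rw [Polynomial.aeval_def, ← Polynomial.eval_map, hq]
    exact h0


private lemma UnrX_mon_mem {E W : Type} [Field E] [NormedField W] [Algebra E W] {r : ℕ}
    (L : IntermediateField E W) {x : Fin r → W} (hx : ∀ i, x i ∈ L) (a : Fin r → ℤ) :
    mon x a ∈ L := by
  unfold mon
  exact prod_mem fun i _ => zpow_mem (hx i) _

private lemma UnrX_sup {E W : Type} [Field E] [NormedField W] [IsUltrametricDist W]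
    [Algebra E W] {L : IntermediateField E W} (hL : IsComplete (L : Set W))
    (hnt : ∃ z ∈ L, z ≠ 0 ∧ ‖z‖ < 1) (θ : W) (hθ : IsAlgebraic L θ) :
    IsComplete ((L ⊔ IntermediateField.adjoin E {θ} : IntermediateField E W) : Set W) := by
  obtain ⟨t, ht, ht0, ht1⟩ := hnt
  letI : NontriviallyNormedField W := NontriviallyNormedField.ofNormNeOne ⟨t, ht0, ht1.ne⟩
  exact isComplete_sup hL ⟨t, ht, ht0, ht1⟩ θ hθ

private lemma UnrX_closure_le {E W : Type} [Field E] [NormedField W] [IsUltrametricDist W]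
    [Algebra E W] (L : IntermediateField E W) {X : Set W} (hX : ∀ z ∈ X, z ∈ L) {z : W}
    (hz : z ∈ locV (ball W) (Subring.closure X)) : z ∈ L := by
  have h1 : ∀ w ∈ Subring.closure X, w ∈ L := by
    intro w hw
    have h2 : Subring.closure X ≤ L.toSubfield.toSubring := Subring.closure_le.2 hX
    exact h2 hw
  obtain ⟨a, ha, b, hb, hb1, hab⟩ := hz
  have h3 : ‖b‖ = 1 := (ball_val_eq_one b).1 hb1
  have hb0 : b ≠ 0 := norm_pos_iff.1 (by rw [h3]; exact one_pos)
  have h4 : z = a / b := by rw [← hab, mul_div_cancel_right₀ _ hb0]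
  rw [h4]
  exact div_mem (h1 a ha) (h1 b hb)

variable {E W : Type} [Field E] [NormedField W] [IsUltrametricDist W] [Algebra E W] {p r : ℕ}
  {S : IntermediateField E W}

theorem unr_stepX (hr : 0 < r) (hA : AmbX p r S) {L : IntermediateField E W}
    (hL : IsComplete (L : Set W)) (h : HasCh S r L) (f : Polynomial W) (hf : f.Monic)
    (hfL : ∀ j, f.coeff j ∈ L ∧ ‖f.coeff j‖ ≤ 1) {z : W} (hz : f.eval z = 0)
    (hd : ‖f.derivative.eval z‖ = 1) : HasCh S r (L ⊔ IntermediateField.adjoin E {z}) := by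
  classical
  obtain ⟨c0, hc0⟩ := h
  have hz1 : ‖z‖ ≤ 1 := UnrX_root_le f (fun j => (hfL j).2) hf hz
  have happ : ∀ j, ∃ f' ∈ Fr E c0, ‖f.coeff j - f'‖ < 1 :=
    fun j => hc0.approx (hfL j).1 one_pos
  choose a' ha' haf using happ
  have hFS : ∀ {c : Tri W r}, Gd S c → Fr E c ≤ S := fun hc =>
    IntermediateField.adjoin_le_iff.2 fun w hw => hc.mem_S hw
  set n := f.natDegree with hn
  have hZ : ∀ w ∈ ((Finset.range n).image a' |>.filter (fun w => w ≠ 0)),
      w ∈ S ∧ w ∈ L ∧ w ≠ 0 := by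
    intro w hw
    rw [Finset.mem_filter, Finset.mem_image] at hw
    obtain ⟨⟨j, _, rfl⟩, hne⟩ := hw
    exact ⟨hFS hc0.gd (ha' j), hc0.le (ha' j), hne⟩
  obtain ⟨c, hc, hmo⟩ : ∃ c : Tri W r, Ch S L c ∧
      ∀ w ∈ ((Finset.range n).image a' |>.filter (fun w => w ≠ 0)), MoH c w := by
    first
      | exact (m_all hr hA hc0 _ hZ).imp fun c h => ⟨h.1, h.2.2⟩
      | exact (m_all hA hc0 _ hZ).imp fun c h => ⟨h.1, h.2.2⟩
  have ha1 : ∀ j, ‖a' j‖ ≤ 1 := fun j => UnrX_le_one (hfL j).2 (haf j)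
  have haHO : ∀ j, j < n → a' j ∈ HO c := by
    intro j hj
    by_cases hz : a' j = 0
    · rw [hz]; exact zero_mem _
    · refine (hmo (a' j) ?_).mem_HO hc.gd (ha1 j)
      rw [Finset.mem_filter, Finset.mem_image]
      exact ⟨⟨j, Finset.mem_range.2 hj, rfl⟩, hz⟩
  obtain ⟨x1, hx1, hs1, hx1B, -⟩ := exists_model hc.gd ((Finset.range n).image a') (by
      intro w hw
      obtain ⟨j, hj, rfl⟩ := Finset.mem_image.1 hw
      exact haHO j (Finset.mem_range.1 hj)) ∅ (fun a ha => absurd ha (Finset.notMem_empty a))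
  have haB : ∀ j, j < n → a' j ∈ Bx c.B x1 := fun j hj =>
    hx1B _ (Finset.mem_image_of_mem _ (Finset.mem_range.2 hj))
  -- the new chart
  have hBL : ∀ w ∈ c.B, w ∈ L := fun w hw => hc.le (IntermediateField.subset_adjoin E _ hw)
  have hx1L : ∀ i, x1 i ∈ L := by
    obtain ⟨A, B, -, hB, -⟩ := hx1.mat
    intro i
    rw [hB i]
    exact UnrX_mon_mem L (fun j => hBL _ (hc.gd.xB j)) _
  have hBxL : ∀ w ∈ Bx c.B x1, w ∈ L := fun w hw => UnrX_closure_le L (by
    rintro u (hu | ⟨i, rfl⟩)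
    · exact hBL u hu
    · exact hx1L i) hw
  have hc1 : Ch S L (⟨Bx c.B x1, x1, c.y⟩ : Tri W r) := by
    refine ⟨hs1.gd, ?_, ?_⟩
    · exact IntermediateField.adjoin_le_iff.2 fun w hw => hBxL w hw
    · intro w hw
      refine cl_mono ?_ (hc.dense w hw)
      refine IntermediateField.adjoin_le_iff.2 fun u hu => ?_
      exact IntermediateField.subset_adjoin E _ (le_Bx hu)
  -- the polynomial over the ring of the chart
  set f1 : Polynomial W := Polynomial.X ^ n + ∑ j ∈ Finset.range n, Polynomial.monomial j (a' j)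
    with hf1
  have hco : ∀ j, f1.coeff j = if j = n then 1 else if j < n then a' j else 0 := by
    intro j
    rw [hf1, Polynomial.coeff_add, Polynomial.coeff_X_pow, Polynomial.finsetSum_coeff]
    simp only [Polynomial.coeff_monomial]
    by_cases hj : j = n
    · rw [if_pos hj, if_pos hj, Finset.sum_eq_zero, add_zero]
      intro i hi
      rw [if_neg]
      have := Finset.mem_range.1 hi
      omega
    · rw [if_neg hj, if_neg hj, zero_add]
      by_cases hj2 : j < n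
      · rw [if_pos hj2, Finset.sum_eq_single_of_mem j (Finset.mem_range.2 hj2)]
        · rw [if_pos rfl]
        · intro i _ hi
          rw [if_neg hi]
      · rw [if_neg hj2, Finset.sum_eq_zero]
        intro i hi
        rw [if_neg]
        have := Finset.mem_range.1 hi
        omega
  have hd1 : ∀ j, ‖(f - f1).coeff j‖ < 1 := by
    intro j
    rw [Polynomial.coeff_sub, hco j]
    by_cases hj : j = n
    · rw [if_pos hj, hj, hn, hf.coeff_natDegree, sub_self, norm_zero]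
      exact one_pos
    · rw [if_neg hj]
      by_cases hj2 : j < n
      · rw [if_pos hj2]
        exact haf j
      · rw [if_neg hj2, sub_zero, Polynomial.coeff_eq_zero_of_natDegree_lt (by omega),
          norm_zero]
        exact one_pos
  have hf1B : ∀ j, f1.coeff j ∈ Bx c.B x1 := by
    intro j
    rw [hco j]
    split_ifs with h1 h2
    · exact one_mem _
    · exact haB j h2
    · exact zero_mem _
  have hf1L : ∀ j, f1.coeff j ∈ L ∧ ‖f1.coeff j‖ ≤ 1 := fun j =>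
    ⟨hBxL _ (hf1B j), (hs1.le _ (hf1B j)).2⟩
  have hf1ne : f1 ≠ 0 := by
    intro h2
    have h3 : f1.coeff n = 1 := by rw [hco n, if_pos rfl]
    rw [h2, Polynomial.coeff_zero] at h3
    exact zero_ne_one h3
  have hfz : ‖f1.eval z‖ < 1 := by
    have h2 := UnrX_eval_lt _ hd1 hz1
    rw [Polynomial.eval_sub, hz, zero_sub, norm_neg] at h2
    exact h2
  have hfz' : ‖f1.derivative.eval z‖ = 1 := by
    refine UnrX_eq_one hd ?_
    have h2 := UnrX_eval_lt _ (UnrX_der_lt _ hd1) hz1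
    rwa [Polynomial.derivative_sub, Polynomial.eval_sub] at h2
  have hnt : ∃ w ∈ L, w ≠ 0 ∧ ‖w‖ < 1 :=
    ⟨x1 ⟨0, hr⟩, hx1L _, hs1.ind.ne _, hs1.ind.lt _⟩
  have hzalg : IsAlgebraic L z := UnrX_alg L f hf.ne_zero (fun j => (hfL j).1) hz
  have hL1 := UnrX_sup hL hnt z hzalg
  have hzL1 : z ∈ L ⊔ IntermediateField.adjoin E {z} :=
    (le_sup_right : IntermediateField.adjoin E {z} ≤ _)
      (IntermediateField.mem_adjoin_simple_self E z)
  have hLL1 : L ≤ L ⊔ IntermediateField.adjoin E {z} := le_sup_left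
  obtain ⟨z1, hz1L, hfz1, hzz1⟩ := TU.henselU (L ⊔ IntermediateField.adjoin E {z}) hL1 f1
    (fun j => ⟨hLL1 (hf1L j).1, (hf1L j).2⟩) hzL1 hz1 hfz hfz'
  have hz1n : ‖z1‖ ≤ 1 := UnrX_le_one hz1 hzz1
  have hfz1' : ‖f1.derivative.eval z1‖ = 1 := by
    refine UnrX_eq_one hfz' ?_
    exact lt_of_le_of_lt (TU.norm_eval_sub_le _ (UnrX_der_le _ (fun j => (hf1L j).2)) hz1 hz1n)
      hzz1
  have hz1S : z1 ∈ S := hA.sep z1 (sep_root (fun j => (hs1.le _ (hf1B j)).1) hfz1
    (norm_pos_iff.1 (by rw [hfz1']; exact one_pos)))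
  have hz1alg : IsAlgebraic L z1 := UnrX_alg L f1 hf1ne (fun j => (hf1L j).1) hfz1
  have hL2 := UnrX_sup hL hnt z1 hz1alg
  have hz1L2 : z1 ∈ L ⊔ IntermediateField.adjoin E {z1} :=
    (le_sup_right : IntermediateField.adjoin E {z1} ≤ _)
      (IntermediateField.mem_adjoin_simple_self E z1)
  have hLL2 : L ≤ L ⊔ IntermediateField.adjoin E {z1} := le_sup_left
  have hff1 : ‖f.eval z1‖ < 1 := by
    have h2 := TU.norm_eval_sub_le f (fun j => (hfL j).2) hz1 hz1n
    rw [hz, zero_sub, norm_neg] at h2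
    exact lt_of_le_of_lt h2 hzz1
  have hff1' : ‖f.derivative.eval z1‖ = 1 := by
    refine UnrX_eq_one hd ?_
    exact lt_of_le_of_lt (TU.norm_eval_sub_le _ (UnrX_der_le _ (fun j => (hfL j).2)) hz1 hz1n)
      hzz1
  obtain ⟨z2, hz2L, hfz2, hz12⟩ := TU.henselU (L ⊔ IntermediateField.adjoin E {z1}) hL2 f
    (fun j => ⟨hLL2 (hfL j).1, (hfL j).2⟩) hz1L2 hz1n hff1 hff1'
  have hz2 : z = z2 := by
    refine TU.hensel_unique f (fun j => (hfL j).2) hz1 hz hfz2 ?_ hd
    have e1 : z - z2 = (z - z1) + (z1 - z2) := by ring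
    rw [e1]
    exact lt_of_le_of_lt (IsUltrametricDist.norm_add_le_max _ _) (max_lt hzz1 hz12)
  have hEq : L ⊔ IntermediateField.adjoin E {z} = L ⊔ IntermediateField.adjoin E {z1} := by
    refine le_antisymm (sup_le hLL2 ?_) (sup_le hLL1 ?_)
    · rw [IntermediateField.adjoin_simple_le_iff, hz2]
      exact hz2L
    · rw [IntermediateField.adjoin_simple_le_iff]
      exact hz1L
  rw [hEq]
  have hgu := good_unr hs1 hz1S hz1n f1 hf1B hfz1 hfz1'
  refine ⟨_, ext_dense hc1 hgu.gd {z1} ?_⟩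
  refine le_antisymm ?_ ?_
  · refine IntermediateField.adjoin_le_iff.2 fun w hw => ?_
    refine UnrX_closure_le _ ?_ hw
    rintro u (hu | hu)
    · exact (le_sup_left : Fr E (⟨Bx c.B x1, x1, c.y⟩ : Tri W r) ≤ _)
        (IntermediateField.subset_adjoin E _ hu)
    · rw [Set.mem_singleton_iff.1 hu]
      exact (le_sup_right : IntermediateField.adjoin E {z1} ≤ _)
        (IntermediateField.mem_adjoin_simple_self E z1)
  · refine sup_le ?_ ?_
    · refine IntermediateField.adjoin_le_iff.2 fun w hw => ?_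
      exact IntermediateField.subset_adjoin E _ (subset_locV_closure (Or.inl hw))
    · refine IntermediateField.adjoin_le_iff.2 fun w hw => ?_
      exact IntermediateField.subset_adjoin E _ (subset_locV_closure (Or.inr hw))

end Pool.Agent.Lib.MXP
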