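import Pool.Agent.Lib.MXP.CharX
import Pool.Agent.Lib.MXP.ExpX

set_option autoImplicit false

/-!
# Module MX.NFX: existence of normal forms (paper 5.1)

SETUP.  Write `x := c.x`, `y := c.y`, `ℓ := lam`.  `ℓ = x^l v`, `v ∈ HO c`, `‖v‖ = 1` (`hlam.mo`), `u` from `hlam.hp`, `z = x^a0 z1`, `z1 ∈ HO c` (`Gn_le_iff`).  `exists_model` (HOb.lean): `x1` with `Mt c.x x1`,
`B1 := Bx c.B x1`, `⟨B1, x1, y⟩` strictly good, `z1, u, v, v⁻¹ ∈ B1`, `x^l = monN x1 lN` and `x^(a0 + p l) = monN x1 γ0` (norms `≤ 1`: `‖ℓ‖ = ‖x^l‖ < 1`, `h2`).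
For `β : Fin r → ℕ` let `e(β) : Fin r → ℤ` be the exponent with `x^(e(β)) = x^(-p l) monN x1 β` (`e(β) = ∑ β_i B_i - p l`, `x1_i = x^(B_i)`; injective).  For `M = (β, j)` let `⟦M⟧ := x^(e(β)) y^j`.
`p ∣ e(β)` implies `p ∣ β`, `e(β) = p a'`, `β = p β'`, and then `x^(a' + l) = monN x1 β'` (`Mt.mat`: the exponents with respect to `x1` of `x^(a'+l)` are `β / p ≥ 0`).
`𝓜 := {(β, j) | 1 < ‖x^(e β)‖ ≤ ‖x^a0‖, j < J}` is a finite set (`‖monN x1 β‖ > ‖x^(p l)‖` bounds `∑ β_i`, as `‖x1_i‖ < 1`).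
`I := {z | Er c a0 J z}` is an additive group, closed under multiplication by `HO c ⊇ B1`.  `key (β, j) := (- ‖x^(e β)‖, j)` in `ℝ ×ₗ ℕ` (lexicographic order).  `M'` is later than `M` if `key M < key M'`.
(F1) `⟦(β, j)⟧ B1 ⊆ I` if `‖x^(e β)‖ ≤ 1` (`mon_mem_HO`).  (F2) `⟦(β, j)⟧ B1 ⊆ I` if `j ≥ J` and `‖x^(e β)‖ ≤ ‖x^a0‖`.  (F3) for `m ∈ B1`, `‖m‖ < 1`: `m ⟦(β, j)⟧ = ∑_i b_i ⟦(β + e_i, j)⟧ + b0 ⟦(β, j+1)⟧` with `b_i, b0 ∈ B1` (`Gs.gen`),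
and these monomials are later than `(β, j)`.
For `Q ⊆ 𝓜` let `Σ_Q := {∑_(M ∈ Q) b_M ⟦M⟧ + ι | b_M ∈ B1, ι ∈ I}`, an additive group closed under multiplication by `B1`.  `Q` is CLOSED if `M ∈ Q`, `M' ∈ 𝓜` later than `M` implies `M' ∈ Q`.
By (F1)-(F3), if `Q` is closed, `M0 ∈ Q` has the least key and `Q' := Q \ {M0}`: `Q'` is closed, every monomial later than `M0` of norm `‖x^(e β)‖ ≤ ‖x^a0‖` is in `Σ_Q'`, and `m ⟦M0⟧ ∈ Σ_Q'` for `m ∈ B1`, `‖m‖ < 1`.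
CLAIM (induction on the cardinality of `Q`, closed): let `P0 : LP F r` be with `Rdp p x P0`, all exponents of `P0` of the form `(e β, j)`, `(β, j) ∈ 𝓜 \ Q`; let `z` be such that `z - evS τ x y P0 ∈ Σ_Q`, `ℓ^p z ∈ B1`, `‖ℓ^p z‖ < 1`,
`z ∈ HL c`, `Gn c z ≤ ‖x^a0‖`.  Then there are `s ∈ HL c`, `ℓ s ∈ B1`, `Gn c s ^ p ≤ ‖x^a0‖` and `P` with `Rdp p x P`, all exponents in `𝓜`, `gact s z - evS τ x y P ∈ I`.
`Q = ∅`: `s = 0`, `P = P0`.
`Q ≠ ∅`: `M0 = (β0, j0)`, `a := e(β0)`; `z - evS τ x y P0 = b ⟦M0⟧ + σ'`, `b = τ e1 + m`, `‖m‖ < 1` (`Gd.decS`, ExpX.lean: `e1 : F`), `m ⟦M0⟧ ∈ Σ_Q'`.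
 - `e1 = 0`: `Q'`, `P0`, `z`.  `e1 ≠ 0` and not `PT p a j0 e1`: `Q'`, `P0 + single (a, j0) e1`, `z` (the new exponent is not one of `P0`: `evS` is additive because the supports are disjoint, `τ 0 = 0`; `1 < ‖x^a‖`).
 - `PT p a j0 e1`: `a = p a'`, `j0 = p j'`, `e1 = b1^p`, `b1 ≠ 0`, `β0 = p β'`.  `s0 := - τ b1 * x^a' y^j'`.  `ℓ s0 = - τ b1 v monN x1 β' y^j' ∈ B1`, `Gn c s0 = ‖x^a'‖`, `Gn c s0 ^ p = ‖x^a‖ ≤ ‖x^a0‖`, `1 < ‖x^a'‖ < ‖x^a‖`,
   `‖ℓ x^a'‖ < 1`.  `wp_eq`: `wp s0 = s0^p + u s0 + u ∑_(2 ≤ k < p) n_k ℓ^(k-1) s0^k`.  `s0^p + τ e1 ⟦M0⟧ = ((-τ b1)^p + τ (b1^p)) ⟦M0⟧ ∈ Σ_Q'` (the bracket is in `B1` and has residue zero in characteristic `p`).  For `1 ≤ k < p`: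
   `ℓ^(k-1) s0^k = (-τ b1)^k v^(k-1) x^((k-1) l + k a') y^(k j')` and `x^((k-1) l + k a') = x^(e(β''))` with `β'' = k β' + (p-1) lN`; its norm is `‖x^a'‖ ‖ℓ x^a'‖^(k-1) < ‖x^a‖`: later than `M0`: in `Σ_Q'`.  So
   `wp s0 = - τ e1 ⟦M0⟧ + σ''`, `σ'' ∈ Σ_Q'`.  `wp s0 * (ℓ^p z)`: `ℓ^p z ∈ B1` has norm `< 1`: in `Σ_Q'`.  So `z' := gact s0 z` satisfies `z' - evS τ x y P0 ∈ Σ_Q'`; `ℓ^p z' = (1 + ℓ^p z)(1 + ℓ s0)^p - 1 ∈ B1`, of norm `< 1`
   (`‖ℓ s0‖ < 1`); `Gn c z' ≤ ‖x^a0‖` (`gact_mod`; here `1 < ‖x^a‖ ≤ ‖x^a0‖`).  Apply the induction hypothesis to `Q'`, `P0`, `z'` and use `gact_gact`, `gact_comp` (`ℓ (s0 + s + ℓ s0 s) ∈ B1`).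
START: `Q := 𝓜`, `P0 := 0`: `z = x^a0 z1 = z1 ⟦(γ0, 0)⟧`.  If `‖x^a0‖ = 1` or `J = 0` then `z ∈ I` (F1, F2), otherwise `(γ0, 0) ∈ 𝓜`.  `ℓ^p z = v^p monN x1 γ0 z1 ∈ B1`, `‖ℓ^p z‖ ≤ ‖ℓ‖^p ‖x^a0‖ < 1`.
-/

namespace Pool.Agent.Lib.MXP

open Pool.Agent.Lib.MP_3029eb_ag Pool.Agent.Lib.MP_3029eb_ag.Abh Pool.Agent.Lib.TDO

variable {E W : Type} [Field E] [NormedField W] [IsUltrametricDist W] [Algebra E W] {r p : ℕ}
  {S : IntermediateField E W} {c c' : Tri W r} {F : Subfield (RW W)}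
  [Fact ((p : W) = 0)]

private theorem nfx_er_add {a0 : Fin r → ℤ} {J : ℕ} {z z' : W} (h : Er c a0 J z)
    (h' : Er c a0 J z') : Er c a0 J (z + z') := by
  obtain ⟨e1, he1, e2, he2, rfl⟩ := h
  obtain ⟨e1', he1', e2', he2', rfl⟩ := h'
  exact ⟨e1 + e1', add_mem he1 he1', e2 + e2', add_mem he2 he2', by ring⟩

private theorem nfx_er_mul {a0 : Fin r → ℤ} {J : ℕ} {t z : W} (ht : t ∈ HO c)
    (h : Er c a0 J z) : Er c a0 J (t * z) := by
  obtain ⟨e1, he1, e2, he2, rfl⟩ := h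
  exact ⟨t * e1, mul_mem ht he1, t * e2, mul_mem ht he2, by ring⟩

/-- sums of multiples of the monomials in `Q`, up to errors -/
private def NfxS (B1 : Subring W) (c : Tri W r) (a0 : Fin r → ℤ) (J : ℕ)
    (Q : Finset ((Fin r → ℤ) × ℕ)) (z : W) : Prop :=
  ∃ b : (Fin r → ℤ) × ℕ → W, (∀ n, b n ∈ B1) ∧
    Er c a0 J (z - ∑ n ∈ Q, b n * (mon c.x n.1 * c.y ^ n.2))

section general

variable {B1 : Subring W} {a0 : Fin r → ℤ} {J : ℕ} {Q : Finset ((Fin r → ℤ) × ℕ)}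

private theorem nfx_of_er {z : W} (h : Er c a0 J z) : NfxS B1 c a0 J Q z := by
  refine ⟨fun _ => 0, fun _ => zero_mem _, ?_⟩
  have e : z - ∑ n ∈ Q, (0 : W) * (mon c.x n.1 * c.y ^ n.2) = z := by simp
  rw [e]
  exact h

private theorem nfx_add {z z' : W} (h : NfxS B1 c a0 J Q z) (h' : NfxS B1 c a0 J Q z') :
    NfxS B1 c a0 J Q (z + z') := by
  obtain ⟨b, hb, h1⟩ := h
  obtain ⟨b', hb', h1'⟩ := h'
  refine ⟨fun n => b n + b' n, fun n => add_mem (hb n) (hb' n), ?_⟩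
  have e : z + z' - ∑ n ∈ Q, (b n + b' n) * (mon c.x n.1 * c.y ^ n.2) =
      (z - ∑ n ∈ Q, b n * (mon c.x n.1 * c.y ^ n.2)) +
      (z' - ∑ n ∈ Q, b' n * (mon c.x n.1 * c.y ^ n.2)) := by
    simp only [add_mul, Finset.sum_add_distrib]
    ring
  rw [e]
  exact nfx_er_add h1 h1'

private theorem nfx_mul (hB : ∀ t ∈ B1, t ∈ HO c) {t z : W} (ht : t ∈ B1)
    (h : NfxS B1 c a0 J Q z) : NfxS B1 c a0 J Q (t * z) := by
  obtain ⟨b, hb, h1⟩ := h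
  refine ⟨fun n => t * b n, fun n => mul_mem ht (hb n), ?_⟩
  have e : t * z - ∑ n ∈ Q, t * b n * (mon c.x n.1 * c.y ^ n.2) =
      t * (z - ∑ n ∈ Q, b n * (mon c.x n.1 * c.y ^ n.2)) := by
    rw [mul_sub, Finset.mul_sum]
    congr 1
    exact Finset.sum_congr rfl fun n _ => by ring
  rw [e]
  exact nfx_er_mul (hB t ht) h1

private theorem nfx_zero : NfxS B1 c a0 J Q 0 :=
  nfx_of_er ⟨0, zero_mem _, 0, zero_mem _, by ring⟩

private theorem nfx_sum {ι : Type} (t : Finset ι) (f : ι → W)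
    (h : ∀ i ∈ t, NfxS B1 c a0 J Q (f i)) : NfxS B1 c a0 J Q (∑ i ∈ t, f i) := by
  classical
  induction t using Finset.induction_on with
  | empty => rw [Finset.sum_empty]; exact nfx_zero
  | insert i t hi ih =>
    rw [Finset.sum_insert hi]
    exact nfx_add (h i (Finset.mem_insert_self _ _))
      (ih fun j hj => h j (Finset.mem_insert_of_mem hj))

private theorem nfx_mem {n : (Fin r → ℤ) × ℕ} (hn : n ∈ Q) :
    NfxS B1 c a0 J Q (mon c.x n.1 * c.y ^ n.2) := by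
  classical
  refine ⟨fun m => if m = n then 1 else 0, fun m => ?_, ?_⟩
  · dsimp only
    split_ifs
    · exact one_mem _
    · exact zero_mem _
  · have e : mon c.x n.1 * c.y ^ n.2 -
        ∑ m ∈ Q, (if m = n then (1 : W) else 0) * (mon c.x m.1 * c.y ^ m.2) = 0 := by
      rw [Finset.sum_eq_single n]
      · rw [if_pos rfl, one_mul, sub_self]
      · intro m _ hm
        rw [if_neg hm, zero_mul]
      · intro h
        exact absurd hn h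
    rw [e]
    exact ⟨0, zero_mem _, 0, zero_mem _, by ring⟩

private theorem nfx_erase [DecidableEq ((Fin r → ℤ) × ℕ)] {n : (Fin r → ℤ) × ℕ} (hn : n ∈ Q)
    {z : W} (h : NfxS B1 c a0 J Q z) :
    ∃ b ∈ B1, NfxS B1 c a0 J (Q.erase n) (z - b * (mon c.x n.1 * c.y ^ n.2)) := by
  obtain ⟨b, hb, h1⟩ := h
  refine ⟨b n, hb n, b, hb, ?_⟩
  have e : z - b n * (mon c.x n.1 * c.y ^ n.2) -
      ∑ m ∈ Q.erase n, b m * (mon c.x m.1 * c.y ^ m.2) =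
      z - ∑ m ∈ Q, b m * (mon c.x m.1 * c.y ^ m.2) := by
    rw [← Finset.add_sum_erase Q (fun m => b m * (mon c.x m.1 * c.y ^ m.2)) hn]
    ring
  rw [e]
  exact h1

end general

/-- the setup -/
private structure NfxC (S : IntermediateField E W) (c : Tri W r) (x1 : Fin r → W)
    (A : (Fin r → ℤ) → (Fin r → ℤ)) (l a0 : Fin r → ℤ) (p J : ℕ)
    (M : Finset ((Fin r → ℤ) × ℕ)) : Prop where
  gd : Gd S c
  mt : TU.Mt c.x x1
  gs : Gs S (⟨Bx c.B x1, x1, c.y⟩ : Tri W r)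
  hA : ∀ a, mon c.x a = mon x1 (A a)
  l0 : 0 ≤ A l
  M : ∀ n : (Fin r → ℤ) × ℕ, n ∈ M ↔ 0 ≤ A n.1 + p • A l ∧ 1 < ‖mon c.x n.1‖ ∧
    ‖mon c.x n.1‖ ≤ ‖mon c.x a0‖ ∧ n.2 < J

section ctx

variable {x1 : Fin r → W} {A : (Fin r → ℤ) → (Fin r → ℤ)} {l a0 : Fin r → ℤ} {J : ℕ}
  {M Q : Finset ((Fin r → ℤ) × ℕ)}

private theorem NfxC.add (D : NfxC S c x1 A l a0 p J M) (a b : Fin r → ℤ) :
    A (a + b) = A a + A b := by
  refine norm_mon_inj D.mt.ind ?_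
  rw [← D.hA, mon_add c.x D.gd.ind.ne, mon_add x1 D.mt.ind.ne, ← D.hA, ← D.hA]

private theorem NfxC.nsmul (D : NfxC S c x1 A l a0 p J M) (n : ℕ) (a : Fin r → ℤ) :
    A (n • a) = n • A a := by
  refine norm_mon_inj D.mt.ind ?_
  rw [← D.hA, mon_nsmul, mon_nsmul, ← D.hA]

private theorem NfxC.mem_B (D : NfxC S c x1 A l a0 p J M) {a : Fin r → ℤ} (h : 0 ≤ A a) :
    mon c.x a ∈ Bx c.B x1 := by
  have e : mon c.x a = monN x1 (fun i => (A a i).toNat) := by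
    rw [D.hA]
    unfold mon monN
    refine Finset.prod_congr rfl fun i _ => ?_
    rw [← zpow_natCast, Int.toNat_of_nonneg (h i)]
  rw [e]
  exact monN_mem_Bx _

private theorem NfxC.B_HO (D : NfxC S c x1 A l a0 p J M) : ∀ t ∈ Bx c.B x1, t ∈ HO c :=
  fun _ ht => Bx_mem_HO D.gd D.mt ht

private theorem nfx_mon (D : NfxC S c x1 A l a0 p J M) {a : Fin r → ℤ} {j : ℕ}
    (hOk : 0 ≤ A a + p • A l) (hle : ‖mon c.x a‖ ≤ ‖mon c.x a0‖) (hQ : (a, j) ∈ M → (a, j) ∈ Q) :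
    NfxS (Bx c.B x1) c a0 J Q (mon c.x a * c.y ^ j) := by
  have hy : ∀ n : ℕ, c.y ^ n ∈ HO c := fun n => pow_mem (y_mem_HO D.gd) n
  by_cases h1 : ‖mon c.x a‖ ≤ 1
  · exact nfx_of_er ⟨mon c.x a * c.y ^ j, mul_mem (mon_mem_HO D.gd h1) (hy j), 0, zero_mem _,
      by ring⟩
  by_cases h2 : J ≤ j
  · have ha0 : 0 < ‖mon c.x a0‖ := norm_pos_iff.2 (mon_ne c.x D.gd.ind.ne a0)
    have e1 : mon c.x a = mon c.x a0 * mon c.x (a + -a0) := by
      rw [mon_add c.x D.gd.ind.ne, mon_neg]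
      have := mon_ne c.x D.gd.ind.ne a0
      field_simp
    have h3 : ‖mon c.x (a + -a0)‖ ≤ 1 := by
      rw [mon_add c.x D.gd.ind.ne, mon_neg, norm_mul, norm_inv, mul_inv_le_iff₀ ha0, one_mul]
      exact hle
    refine nfx_of_er ⟨0, zero_mem _, mon c.x (a + -a0) * c.y ^ (j - J),
      mul_mem (mon_mem_HO D.gd h3) (hy _), ?_⟩
    have e2 : c.y ^ j = c.y ^ J * c.y ^ (j - J) := by rw [← pow_add, Nat.add_sub_cancel' h2]
    rw [e1, e2]
    ring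
  · exact nfx_mem (n := (a, j)) (hQ ((D.M (a, j)).2 ⟨hOk, not_le.1 h1, hle, not_le.1 h2⟩))

/-- multiples of a monomial by elements of norm less than one -/
private theorem nfx_small (D : NfxC S c x1 A l a0 p J M) {a : Fin r → ℤ} {j : ℕ}
    (hM0 : (a, j) ∈ M)
    (hlt : ∀ a' j', (a', j') ∈ M → (‖mon c.x a'‖ < ‖mon c.x a‖ ∨ (a' = a ∧ j < j')) →
      (a', j') ∈ Q) {m : W} (hm : m ∈ JI (Bx c.B x1) x1 c.y) :
    NfxS (Bx c.B x1) c a0 J Q (m * (mon c.x a * c.y ^ j)) := by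
  classical
  obtain ⟨b, b0, hb, hb0, rfl⟩ := hm
  obtain ⟨h1, h2, h3, h4⟩ := (D.M (a, j)).1 hM0
  have hx := D.gd.ind
  have hBi : ∀ i, ∃ Bi : Fin r → ℤ, x1 i = mon c.x Bi := by
    intro i
    obtain ⟨a', ha'⟩ := TU.Mt.mon_eq' hx D.mt (Pi.single i 1)
    rw [mon_single] at ha'
    exact ⟨a', ha'⟩
  choose Bi hBi using hBi
  have e : (∑ i, b i * x1 i + b0 * c.y) * (mon c.x a * c.y ^ j) =
      (∑ i, b i * (mon c.x (a + Bi i) * c.y ^ j)) + b0 * (mon c.x a * c.y ^ (j + 1)) := by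
    rw [add_mul, Finset.sum_mul, pow_succ]
    congr 1
    · refine Finset.sum_congr rfl fun i _ => ?_
      rw [mon_add c.x hx.ne, ← hBi]
      ring
    · ring
  rw [e]
  refine nfx_add (nfx_sum _ _ fun i _ => nfx_mul D.B_HO (hb i) ?_) (nfx_mul D.B_HO hb0 ?_)
  · have hAB : A (Bi i) = Pi.single i 1 := by
      refine norm_mon_inj D.mt.ind ?_
      rw [← D.hA, ← hBi, mon_single]
    have hn : ‖mon c.x (a + Bi i)‖ < ‖mon c.x a‖ := by
      rw [mon_add c.x hx.ne, ← hBi, norm_mul]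
      exact mul_lt_of_lt_one_right (norm_pos_iff.2 (mon_ne c.x hx.ne a)) (D.mt.ind.lt i)
    refine nfx_mon D ?_ (hn.le.trans h3) (fun h => hlt _ _ h (Or.inl hn))
    have h5 : (0 : Fin r → ℤ) ≤ Pi.single i 1 := by
      rw [Pi.le_def]
      intro k
      by_cases hk : k = i
      · rw [hk, Pi.single_eq_same]
        exact zero_le_one
      · rw [Pi.single_eq_of_ne hk]
        exact le_rfl
    have e2 : A (a + Bi i) + p • A l = (A a + p • A l) + Pi.single i 1 := by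
      rw [D.add, hAB]
      abel
    rw [e2]
    exact add_nonneg h1 h5
  · exact nfx_mon D h1 h3 (fun h => hlt _ _ h (Or.inr ⟨rfl, Nat.lt_succ_self j⟩))

/-- norms of the correction -/
private theorem nfx_norm (hp : p.Prime) {a' : Fin r → ℤ}
    (h1 : 1 < ‖mon c.x (p • a')‖) :
    1 < ‖mon c.x a'‖ ∧ ‖mon c.x a'‖ < ‖mon c.x (p • a')‖ := by
  rw [mon_nsmul, norm_pow] at h1 ⊢
  have h4 : 1 < ‖mon c.x a'‖ := by
    by_contra hcon
    exact absurd h1 (not_lt.2 (pow_le_one₀ (norm_nonneg _) (not_lt.1 hcon)))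
  exact ⟨h4, lt_self_pow₀ h4 hp.one_lt⟩

/-- the terms of `wp` -/
private theorem nfx_term (hp : p.Prime) (D : NfxC S c x1 A l a0 p J M) {τ : F → W}
    (hτ : Sec c.B F τ) {a' : Fin r → ℤ} {j' : ℕ}
    (hM0 : (p • a', p * j') ∈ M)
    (hlt : ∀ a'' j'', (a'', j'') ∈ M →
      (‖mon c.x a''‖ < ‖mon c.x (p • a')‖ ∨ (a'' = p • a' ∧ p * j' < j'')) → (a'', j'') ∈ Q)
    (b1 : F) :
    NfxS (Bx c.B x1) c a0 J Q (-τ b1 * (mon c.x a' * c.y ^ j')) := by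
  obtain ⟨g1, g2, g3, g4⟩ := (D.M (p • a', p * j')).1 hM0
  obtain ⟨n1, n2⟩ := nfx_norm hp g2
  refine nfx_mul D.B_HO (neg_mem (le_Bx (hτ.mem _))) ?_
  refine nfx_mon D ?_ (n2.le.trans g3) (fun h => hlt _ _ h (Or.inl n2))
  have h5 : 0 ≤ A a' + A l := by
    have e3 : A (p • a') + p • A l = p • (A a' + A l) := by
      rw [D.nsmul, smul_add]
    have g1' : 0 ≤ A (p • a') + p • A l := g1
    rw [e3] at g1'
    intro i
    have h6 := g1' i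
    rw [Pi.smul_apply, nsmul_eq_mul, Pi.zero_apply] at h6
    have hp0 : (0 : ℤ) < (p : ℤ) := by exact_mod_cast hp.pos
    rw [Pi.zero_apply]
    exact nonneg_of_mul_nonneg_right h6 hp0
  have e4 : A a' + p • A l = (A a' + A l) + (p - 1) • A l := by
    obtain ⟨p', hp'⟩ : ∃ p', p = p' + 1 := ⟨p - 1, by have := hp.pos; omega⟩
    rw [hp']
    ext i
    simp only [Pi.add_apply, Pi.smul_apply]
    simp only [nsmul_eq_mul, Nat.add_sub_cancel, Nat.cast_add, Nat.cast_one]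
    ring
  rw [e4]
  exact add_nonneg h5 (nsmul_nonneg D.l0 _)

private theorem nfx_wp (hA : AmbX p r S) (D : NfxC S c x1 A l a0 p J M) {τ : F → W}
    (hτ : Sec c.B F τ) {lam : W} {a' : Fin r → ℤ} {j' : ℕ}
    (hM0 : (p • a', p * j') ∈ M)
    (hlt : ∀ a'' j'', (a'', j'') ∈ M →
      (‖mon c.x a''‖ < ‖mon c.x (p • a')‖ ∨ (a'' = p • a' ∧ p * j' < j'')) → (a'', j'') ∈ Q)
    (b1 : F) :
    NfxS (Bx c.B x1) c a0 J Q (wp p lam (-τ b1 * (mon c.x a' * c.y ^ j')) +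
      τ (b1 ^ p) * (mon c.x (p • a') * c.y ^ (p * j'))) := by
  have hp := hA.prime
  have := charP_RW hA
  have : Fact p.Prime := ⟨hp⟩
  set s0 : W := -τ b1 * (mon c.x a' * c.y ^ j') with hs0
  have hterm := nfx_term hp D hτ hM0 hlt b1
  rw [← hs0] at hterm
  have hbr : (-τ b1) ^ p + τ (b1 ^ p) ∈ JI (Bx c.B x1) x1 c.y := by
    have hm : (-τ b1) ^ p + τ (b1 ^ p) ∈ c.B :=
      add_mem (pow_mem (neg_mem (hτ.mem _)) _) (hτ.mem _)
    refine D.gs.gen _ (le_Bx hm) ?_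
    have h4 : ‖-τ b1‖ ≤ 1 := by rw [norm_neg]; exact hτ.norm _
    have h5 : ‖(-τ b1) ^ p‖ ≤ 1 := by rw [norm_pow]; exact pow_le_one₀ (norm_nonneg _) h4
    rw [← rs_eq_zero_iff (D.gd.norm_le hm), rs_add h5 (hτ.norm _), rs_pow h4,
      rs_neg (hτ.norm _), hτ.rs, hτ.rs]
    have h6 : (-(b1 : RW W)) ^ p = -((b1 : RW W) ^ p) := by
      have h7 : (-(b1 : RW W)) ^ p = (0 - (b1 : RW W)) ^ p := by rw [zero_sub]
      rw [h7, sub_pow_char, zero_pow hp.ne_zero, zero_sub]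
    rw [h6]
    have h8 : ((b1 ^ p : F) : RW W) = (b1 : RW W) ^ p := by push_cast; rfl
    rw [h8]
    ring
  have hx := D.gd.ind
  have e : wp p lam s0 + τ (b1 ^ p) * (mon c.x (p • a') * c.y ^ (p * j')) =
      ((-τ b1) ^ p + τ (b1 ^ p)) * (mon c.x (p • a') * c.y ^ (p * j')) + (-1) * s0 := by
    have e1 : s0 ^ p = (-τ b1) ^ p * (mon c.x (p • a') * c.y ^ (p * j')) := by
      rw [hs0, mul_pow, mul_pow, mon_nsmul, ← pow_mul, mul_comm j' p]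
    unfold wp
    rw [e1]
    ring
  rw [e]
  exact nfx_add (nfx_small D hM0 hlt hbr) (nfx_mul D.B_HO (neg_mem (one_mem _)) hterm)

omit [IsUltrametricDist W] in
private theorem nfx_min (hx : Indep c.x) (hQ : Q.Nonempty) :
    ∃ n ∈ Q, ∀ n' ∈ Q, n' ≠ n → ‖mon c.x n'.1‖ < ‖mon c.x n.1‖ ∨ (n'.1 = n.1 ∧ n.2 < n'.2) := by
  classical
  obtain ⟨n1, hn1, hmax⟩ := Q.exists_max_image (fun n => ‖mon c.x n.1‖) hQ
  obtain ⟨n, hn, hmin⟩ := (Q.filter fun n => n.1 = n1.1).exists_min_image (fun n => n.2)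
    ⟨n1, Finset.mem_filter.2 ⟨hn1, rfl⟩⟩
  obtain ⟨hnQ, hn2⟩ := Finset.mem_filter.1 hn
  refine ⟨n, hnQ, fun n' hn' hne => ?_⟩
  by_cases h : n'.1 = n.1
  · right
    refine ⟨h, ?_⟩
    have h1 := hmin n' (Finset.mem_filter.2 ⟨hn', h.trans hn2⟩)
    refine lt_of_le_of_ne h1 fun h2 => hne (Prod.ext h h2.symm)
  · left
    have h1 := hmax n' hn'
    have h1' : ‖mon c.x n'.1‖ ≤ ‖mon c.x n.1‖ := by rw [hn2]; exact h1
    exact lt_of_le_of_ne h1' fun h2 => h (norm_mon_inj hx h2)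

end ctx

/-- the induction -/
private theorem nfx_ind [DecidableEq ((Fin r → ℤ) × ℕ)] (hr : 0 < r) (hA : AmbX p r S)
    {x1 : Fin r → W} {A : (Fin r → ℤ) → (Fin r → ℤ)} {l a0 : Fin r → ℤ} {J : ℕ}
    {M : Finset ((Fin r → ℤ) × ℕ)} (D : NfxC S c x1 A l a0 p J M) (hF : kap c.B = F) {τ : F → W}
    (hτ : Sec c.B F τ) {lam : W} (hlam : LamP p c lam) (h3 : ‖lam‖ ^ p * ‖mon c.x a0‖ < 1) :
    ∀ (n : ℕ) (Q : Finset ((Fin r → ℤ) × ℕ)), Q.card = n → Q ⊆ M →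
      (∀ m ∈ Q, ∀ m' ∈ M, (‖mon c.x m'.1‖ < ‖mon c.x m.1‖ ∨ (m'.1 = m.1 ∧ m.2 < m'.2)) →
        m' ∈ Q) →
      ∀ (f : (Fin r → ℤ) × ℕ → F) (z : W),
        (∀ m ∈ M \ Q, f m ≠ 0 → ¬ PT p m.1 m.2 (f m)) → z ∈ HL c →
        Gn c z ≤ ‖mon c.x a0‖ →
        NfxS (Bx c.B x1) c a0 J Q (z - ∑ m ∈ M \ Q, τ (f m) * (mon c.x m.1 * c.y ^ m.2)) →
        ∃ s ∈ HL c, Gn c s ^ p ≤ ‖mon c.x a0‖ ∧ ∃ f' : (Fin r → ℤ) × ℕ → F,
          (∀ m ∈ M, f' m ≠ 0 → ¬ PT p m.1 m.2 (f' m)) ∧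
          Er c a0 J (gact p lam s z - ∑ m ∈ M, τ (f' m) * (mon c.x m.1 * c.y ^ m.2)) := by
  have hp := hA.prime
  have hc := D.gd
  have hx := hc.ind
  intro n
  induction n with
  | zero =>
    intro Q hQ0 _ _ f z hf hz hGz hN
    rw [Finset.card_eq_zero] at hQ0
    subst hQ0
    obtain ⟨b, -, hb⟩ := hN
    rw [Finset.sum_empty, sub_zero, Finset.sdiff_empty] at hb
    refine ⟨0, zero_mem _, ?_, f, ?_, ?_⟩
    · rw [Gn_zero hr hA hc, zero_pow hp.ne_zero]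
      exact norm_nonneg _
    · intro m hm
      exact hf m (by rwa [Finset.sdiff_empty])
    · rw [gact_zero hA.prime.ne_zero]
      exact hb
  | succ n ih =>
    intro Q hQn hQM hcl f z hf hz hGz hN
    have hne : Q.Nonempty := by
      rw [← Finset.card_pos]
      omega
    obtain ⟨M0, hM0Q, hmin⟩ := nfx_min hx hne
    have hM0M := hQM hM0Q
    obtain ⟨a, j0⟩ := M0
    obtain ⟨g1, g2, g3, g4⟩ := (D.M (a, j0)).1 hM0M
    set Q' := Q.erase (a, j0) with hQ'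
    have hQ'n : Q'.card = n := by
      rw [hQ', Finset.card_erase_of_mem hM0Q, hQn, Nat.add_sub_cancel]
    have hQ'M : Q' ⊆ M := (Finset.erase_subset _ _).trans hQM
    have hlt : ∀ a' j', (a', j') ∈ M → (‖mon c.x a'‖ < ‖mon c.x a‖ ∨ (a' = a ∧ j0 < j')) →
        (a', j') ∈ Q' := by
      intro a' j' h1 h2
      rw [hQ', Finset.mem_erase]
      refine ⟨?_, hcl (a, j0) hM0Q (a', j') h1 h2⟩
      rintro h4
      rw [Prod.mk.injEq] at h4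
      obtain ⟨rfl, rfl⟩ := h4
      rcases h2 with h2 | ⟨-, h2⟩
      · exact lt_irrefl _ h2
      · exact lt_irrefl _ h2
    have hcl' : ∀ m ∈ Q', ∀ m' ∈ M,
        (‖mon c.x m'.1‖ < ‖mon c.x m.1‖ ∨ (m'.1 = m.1 ∧ m.2 < m'.2)) → m' ∈ Q' := by
      intro m hm m' hm' h1
      rw [hQ', Finset.mem_erase] at hm
      have h2 := hmin m hm.2 hm.1
      refine hlt m'.1 m'.2 hm' ?_
      rcases h1 with h1 | ⟨h1, h1'⟩
      · rcases h2 with h2 | ⟨h2, -⟩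
        · exact Or.inl (h1.trans h2)
        · left
          have h2' : m.1 = a := h2
          rwa [h2'] at h1
      · rcases h2 with h2 | ⟨h2, h2'⟩
        · left
          rw [h1]
          exact h2
        · exact Or.inr ⟨h1.trans h2, h2'.trans h1'⟩
    have hsd : M \ Q' = insert (a, j0) (M \ Q) := by
      ext m
      rw [hQ', Finset.mem_sdiff, Finset.mem_erase, Finset.mem_insert, Finset.mem_sdiff]
      constructor
      · rintro ⟨h1, h2⟩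
        by_cases h4 : m = (a, j0)
        · exact Or.inl h4
        · exact Or.inr ⟨h1, fun h5 => h2 ⟨h4, h5⟩⟩
      · rintro (rfl | ⟨h1, h2⟩)
        · exact ⟨hM0M, fun h5 => h5.1 rfl⟩
        · exact ⟨h1, fun h5 => h2 h5.2⟩
    have hnot : (a, j0) ∉ M \ Q := by
      rw [Finset.mem_sdiff]
      exact fun h => h.2 hM0Q
    obtain ⟨b, hb, hN1⟩ := nfx_erase hM0Q hN
    rw [← hQ'] at hN1
    obtain ⟨e1, he1⟩ := hc.decS D.mt D.gs hF hτ hb
    have hsmall := nfx_small D hM0M hlt he1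
    -- the new sum
    have hsum : ∀ e : F, ∑ m ∈ M \ Q', τ ((Function.update f (a, j0) e) m) *
        (mon c.x m.1 * c.y ^ m.2) = τ e * (mon c.x a * c.y ^ j0) +
        ∑ m ∈ M \ Q, τ (f m) * (mon c.x m.1 * c.y ^ m.2) := by
      intro e
      rw [hsd, Finset.sum_insert hnot, Function.update_self]
      congr 1
      refine Finset.sum_congr rfl fun m hm => ?_
      rw [Function.update_of_ne]
      rintro rfl
      exact hnot hm
    have hnew : ∀ e : F, (e ≠ 0 → ¬ PT p a j0 e) → ∀ m ∈ M \ Q',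
        (Function.update f (a, j0) e) m ≠ 0 →
        ¬ PT p m.1 m.2 ((Function.update f (a, j0) e) m) := by
      intro e he m hm
      rw [hsd, Finset.mem_insert] at hm
      by_cases h4 : m = (a, j0)
      · rw [h4, Function.update_self]
        exact he
      · rw [Function.update_of_ne h4]
        exact hf m (hm.resolve_left h4)
    by_cases hPT : e1 ≠ 0 ∧ PT p a j0 e1
    · obtain ⟨-, ⟨a', rfl⟩, ⟨j', rfl⟩, b1, rfl⟩ := hPT
      obtain ⟨n1, n2⟩ := nfx_norm hp g2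
      have hwp := nfx_wp hA D hτ (lam := lam) hM0M hlt b1
      set s0 : W := -τ b1 * (mon c.x a' * c.y ^ j') with hs0
      have hτHO : -τ b1 ∈ HO c := neg_mem (B_mem_HO hc (hτ.mem _))
      have hyHO : c.y ^ j' ∈ HO c := pow_mem (y_mem_HO hc) _
      have hs0HL : s0 ∈ HL c := mul_mem (HO_le_HL hτHO)
        (mul_mem (mon_mem_HL _) (HO_le_HL hyHO))
      have hGs0 : Gn c s0 ≤ ‖mon c.x a'‖ := by
        rw [hs0, Gn_mul hr hA hc (HO_le_HL hτHO) (mul_mem (mon_mem_HL _) (HO_le_HL hyHO)),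
          Gn_mul hr hA hc (mon_mem_HL _) (HO_le_HL hyHO), Gn_mon hr hA hc]
        have h5 := Gn_le_one hr hA hc hτHO
        have h6 := Gn_le_one hr hA hc hyHO
        calc Gn c (-τ b1) * (‖mon c.x a'‖ * Gn c (c.y ^ j'))
            ≤ 1 * (‖mon c.x a'‖ * 1) :=
              mul_le_mul h5 (mul_le_mul_of_nonneg_left h6 (norm_nonneg _))
                (mul_nonneg (norm_nonneg _) (Gn_nonneg _)) zero_le_one
          _ = ‖mon c.x a'‖ := by ring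
      have hGs0p : Gn c s0 ^ p ≤ ‖mon c.x a0‖ := by
        refine le_trans ?_ g3
        change _ ≤ ‖mon c.x (p • a')‖
        rw [mon_nsmul, norm_pow]
        exact pow_le_pow_left₀ (Gn_nonneg _) hGs0 p
      have hμ : 1 < ‖mon c.x a0‖ := g2.trans_le g3
      have hmod := gact_mod hr hA hc hlam hs0HL hz hμ h3 hGs0p hGz
      have hHL := gact_HL hA hc hlam hs0HL hz
      -- the induction hypothesis
      have hN2 : NfxS (Bx c.B x1) c a0 J Q' (gact p lam s0 z -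
          ∑ m ∈ M \ Q', τ ((Function.update f (p • a', p * j') 0) m) *
            (mon c.x m.1 * c.y ^ m.2)) := by
        rw [hsum, hτ.zero, zero_mul, zero_add]
        have t4 := nfx_add (nfx_add hN1 hsmall) hwp
        have e3 : gact p lam s0 z - ∑ m ∈ M \ Q, τ (f m) * (mon c.x m.1 * c.y ^ m.2) =
            (z - ∑ m ∈ M \ Q, τ (f m) * (mon c.x m.1 * c.y ^ m.2) -
              b * (mon c.x (p • a') * c.y ^ (p * j')) +
              (b - τ (b1 ^ p)) * (mon c.x (p • a') * c.y ^ (p * j')) +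
              (wp p lam s0 + τ (b1 ^ p) * (mon c.x (p • a') * c.y ^ (p * j')))) := by
          unfold gact
          ring
        rw [e3]
        exact t4
      obtain ⟨s, hs, hGs, f', hf', hEr⟩ := ih Q' hQ'n hQ'M hcl' _ (gact p lam s0 z)
        (hnew 0 fun h => absurd rfl h) hHL.2 hmod.2 hN2
      obtain ⟨h5, h6⟩ := gact_comp hr hA hc hlam hs0HL hs hμ.le h3 hGs0p hGs
      refine ⟨s0 + s + lam * s0 * s, h5, h6, f', hf', ?_⟩
      rw [← gact_gact hA.prime hlam.p0 hlam.zero]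
      exact hEr
    · have hPT' : e1 ≠ 0 → ¬ PT p a j0 e1 := fun h1 h2 => hPT ⟨h1, h2⟩
      refine ih Q' hQ'n hQ'M hcl' (Function.update f (a, j0) e1) z (hnew e1 hPT') hz hGz ?_
      rw [hsum]
      have t1 := nfx_add hN1 hsmall
      have e3 : z - (τ e1 * (mon c.x a * c.y ^ j0) +
          ∑ m ∈ M \ Q, τ (f m) * (mon c.x m.1 * c.y ^ m.2)) =
          (z - ∑ m ∈ M \ Q, τ (f m) * (mon c.x m.1 * c.y ^ m.2) -
            b * (mon c.x a * c.y ^ j0)) + (b - τ e1) * (mon c.x a * c.y ^ j0) := by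
        ring
      rw [e3]
      exact t1

omit [IsUltrametricDist W] in
/-- the finite set of exponents -/
private theorem nfx_fin {x x1 : Fin r → W} (hx : Indep x) (hx1 : Indep x1)
    {A : (Fin r → ℤ) → (Fin r → ℤ)} (hA : ∀ a, mon x a = mon x1 (A a)) (q : Fin r → ℤ) :
    {a : Fin r → ℤ | 0 ≤ A a + A q ∧ 1 < ‖mon x a‖}.Finite := by
  have hδ : 0 < ‖mon x1 (A q)‖ := norm_pos_iff.2 (mon_ne x1 hx1.ne _)
  have hn : ∀ i, ∃ n : ℕ, ‖x1 i‖ ^ n < ‖mon x1 (A q)‖ := fun i =>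
    exists_pow_lt_of_lt_one hδ (hx1.lt i)
  choose n hn using hn
  have hinj : Function.Injective (fun a => A a + A q) := by
    intro a a' h
    have h1 : A a = A a' := add_right_cancel h
    refine norm_mon_inj hx ?_
    rw [hA, hA, h1]
  refine ((Set.finite_Icc (0 : Fin r → ℤ) (fun i => (n i : ℤ))).preimage hinj.injOn).subset ?_
  rintro a ⟨h0, h1⟩
  refine ⟨h0, fun i => ?_⟩
  by_contra hcon
  rw [not_le] at hcon
  set γ : Fin r → ℤ := A a + A q with hγ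
  have h2 : ‖mon x1 (A q)‖ < ‖mon x1 γ‖ := by
    rw [hγ, mon_add x1 hx1.ne, ← hA a, norm_mul]
    exact lt_mul_of_one_lt_left hδ h1
  have h3 : ‖mon x1 γ‖ ≤ ‖x1 i‖ ^ (n i) := by
    unfold mon
    rw [norm_prod, ← Finset.mul_prod_erase Finset.univ _ (Finset.mem_univ i)]
    have h4 : ∏ k ∈ Finset.univ.erase i, ‖x1 k ^ γ k‖ ≤ 1 := by
      refine Finset.prod_le_one (fun k _ => norm_nonneg _) fun k _ => ?_
      have h5 : 0 ≤ γ k := h0 k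
      obtain ⟨m, hm⟩ := Int.eq_ofNat_of_zero_le h5
      rw [hm, zpow_natCast, norm_pow]
      exact pow_le_one₀ (norm_nonneg _) (hx1.lt k).le
    refine (mul_le_of_le_one_right (norm_nonneg _) h4).trans ?_
    have h5 : 0 ≤ γ i := h0 i
    obtain ⟨m, hm⟩ := Int.eq_ofNat_of_zero_le h5
    have hcon' : (n i : ℤ) < γ i := hcon
    rw [hm] at hcon'
    rw [hm, zpow_natCast, norm_pow]
    exact pow_le_pow_of_le_one (norm_nonneg _) (hx1.lt i).le (by exact_mod_cast hcon'.le)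
  exact absurd (h3.trans (hn i).le) (not_le.2 h2)

theorem exists_nf (hr : 0 < r) (hA : AmbX p r S) (hc : Gd S c) (hF : kap c.B = F) {τ : F → W}
    (hτ : Sec c.B F τ) {lam : W} (hlam : LamP p c lam) {z : W} (hz : z ∈ HL c)
    {a0 : Fin r → ℤ} (ha : Gn c z ≤ ‖mon c.x a0‖) (h1 : 1 ≤ ‖mon c.x a0‖)
    (h2 : ‖lam‖ ^ p * ‖mon c.x a0‖ < 1) (J : ℕ) :
    ∃ s ∈ HL c, Gn c s ^ p ≤ ‖mon c.x a0‖ ∧ ∃ P : LP F r, Rdp p c.x P ∧
      (∀ a j, P.coeff (a, j) ≠ 0 → ‖mon c.x a‖ ≤ ‖mon c.x a0‖ ∧ j < J) ∧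
      ∃ z' : W, Er c a0 J z' ∧ gact p lam s z = evS τ c.x c.y P + z' := by
  classical
  have hp := hA.prime
  have hx := hc.ind
  obtain ⟨z1, hz1, hzz⟩ := (Gn_le_iff hr hA hc hz a0).1 ha
  obtain ⟨l, hln, hlpn⟩ : ∃ l : Fin r → ℤ, ‖mon c.x l‖ ≤ 1 ∧ ‖mon c.x (a0 + p • l)‖ ≤ 1 := by
    have i0 : Fin r := ⟨0, hr⟩
    have h4 : 0 < ‖mon c.x a0‖ := by linarith
    obtain ⟨n, hn⟩ := exists_pow_lt_of_lt_one (inv_pos.2 h4) (hx.lt i0)
    refine ⟨n • Pi.single i0 1, ?_, ?_⟩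
    · rw [mon_nsmul, mon_single, norm_pow]
      exact pow_le_one₀ (norm_nonneg _) (hx.lt i0).le
    · rw [mon_add c.x hx.ne, mon_nsmul, mon_nsmul, mon_single, norm_mul, norm_pow, norm_pow]
      have h5 : (‖c.x i0‖ ^ n) ^ p ≤ ‖c.x i0‖ ^ n :=
        pow_le_of_le_one (by positivity) (pow_le_one₀ (norm_nonneg _) (hx.lt i0).le) hp.ne_zero
      calc ‖mon c.x a0‖ * (‖c.x i0‖ ^ n) ^ p ≤ ‖mon c.x a0‖ * (‖mon c.x a0‖)⁻¹ :=
            mul_le_mul_of_nonneg_left (h5.trans hn.le) h4.le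
        _ = 1 := mul_inv_cancel₀ h4.ne'
  obtain ⟨x1, hM, hs, hZ, hY⟩ := exists_model hc {z1} (fun t ht => by
    rw [Finset.mem_singleton] at ht
    rw [ht]
    exact hz1) {l, a0 + p • l} (fun t ht => by
    rw [Finset.mem_insert, Finset.mem_singleton] at ht
    rcases ht with rfl | rfl
    · exact hln
    · exact hlpn)
  have hz1B := hZ z1 (by simp)
  choose A hAx using fun a => hM.mon_eq a
  have hx1 : Indep x1 := hM.ind
  have hcast : ∀ {a : Fin r → ℤ} {β : Fin r → ℕ}, mon c.x a = monN x1 β → 0 ≤ A a := by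
    intro a β h
    have e : A a = fun i => (β i : ℤ) := by
      refine norm_mon_inj hx1 ?_
      rw [← hAx, h]
      congr 1
      unfold mon monN
      exact Finset.prod_congr rfl fun i _ => by rw [zpow_natCast]
    rw [e]
    intro i
    exact Int.natCast_nonneg _
  have hl0 : 0 ≤ A l := by
    obtain ⟨β, hβ, -⟩ := hY l (by simp)
    exact hcast hβ
  have hadd : ∀ a b, A (a + b) = A a + A b := by
    intro a b
    refine norm_mon_inj hx1 ?_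
    rw [← hAx, mon_add c.x hx.ne, mon_add x1 hx1.ne, ← hAx, ← hAx]
  have hsmul : ∀ (n : ℕ) (a : Fin r → ℤ), A (n • a) = n • A a := by
    intro n a
    refine norm_mon_inj hx1 ?_
    rw [← hAx, mon_nsmul, mon_nsmul, ← hAx]
  have hOk0 : 0 ≤ A a0 + p • A l := by
    obtain ⟨β, hβ, -⟩ := hY (a0 + p • l) (by simp)
    have h3 := hcast hβ
    rwa [hadd, hsmul] at h3
  have hfin := nfx_fin hx hx1 hAx (p • l)
  set M : Finset ((Fin r → ℤ) × ℕ) := (hfin.toFinset ×ˢ Finset.range J).filter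
    (fun n => ‖mon c.x n.1‖ ≤ ‖mon c.x a0‖) with hMdef
  have hMm : ∀ n : (Fin r → ℤ) × ℕ, n ∈ M ↔ 0 ≤ A n.1 + p • A l ∧ 1 < ‖mon c.x n.1‖ ∧
      ‖mon c.x n.1‖ ≤ ‖mon c.x a0‖ ∧ n.2 < J := by
    intro n
    rw [hMdef, Finset.mem_filter, Finset.mem_product, Set.Finite.mem_toFinset, Finset.mem_range,
      Set.mem_ofPred_eq, hsmul]
    tauto
  have D : NfxC S c x1 A l a0 p J M := ⟨hc, hM, hs, hAx, hl0, hMm⟩
  have hz1n : ‖z1‖ ≤ 1 := HO_norm_le hc hz1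
  have hN : NfxS (Bx c.B x1) c a0 J M (z - ∑ m ∈ M \ M,
      τ ((fun _ => (0 : F)) m) * (mon c.x m.1 * c.y ^ m.2)) := by
    rw [Finset.sdiff_self, Finset.sum_empty, sub_zero]
    have h3 : NfxS (Bx c.B x1) c a0 J M (mon c.x a0 * c.y ^ 0) :=
      nfx_mon D hOk0 le_rfl fun h => h
    have h4 := nfx_mul D.B_HO hz1B h3
    have e : z = z1 * (mon c.x a0 * c.y ^ 0) := by rw [hzz, pow_zero]; ring
    rw [e]
    exact h4
  obtain ⟨s, hsHL, hGs, f, hf, hEr⟩ := nfx_ind hr hA D hF hτ hlam h2 _ M rfl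
    (Finset.Subset.refl _) (fun m _ m' hm' _ => hm') (fun _ => 0) z
    (fun m hm h => absurd rfl h) hz ha hN
  obtain ⟨P, hP1, hP2, hP3⟩ := exists_LP hτ.zero c.x c.y M id (Set.injOn_id _) f
  refine ⟨s, hsHL, hGs, P, ?_, ?_, _, hEr, ?_⟩
  · intro a j haj
    obtain ⟨m, hm, hme, hfm⟩ := hP2 (a, j) haj
    have hme' : m = (a, j) := hme
    subst hme'
    have h3 := (hMm (a, j)).1 hm
    refine ⟨h3.2.1, ?_⟩
    have h4 : P.coeff (a, j) = f (a, j) := hP1 (a, j) hm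
    rw [h4]
    exact hf (a, j) hm hfm
  · intro a j haj
    obtain ⟨m, hm, hme, hfm⟩ := hP2 (a, j) haj
    have hme' : m = (a, j) := hme
    subst hme'
    have h3 := (hMm (a, j)).1 hm
    exact ⟨h3.2.2.1, h3.2.2.2⟩
  · rw [hP3]
    simp only [id]
    ring

end Pool.Agent.Lib.MXP
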