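import Pool.Agent.Lib.MXP.CharX

set_option autoImplicit false

/-!
# Module MX.NlX: lead forms which are not of `p`-type (paper 5.1, 5.2)

`lead_min`: `Nat.find`.
`er_sm`: `e1 ∈ HO c` has `Gn ≤ 1 < ‖x^α‖`; `x^a y^J e2 = x^α y^J' (x^(a - α) y^(J - J') e2)`, `x^(a-α) ∈ HO c` (norm `≤ 1`).
`NLd.ld`: definition.
`nld_of`: `c0 := P.coeff (α, d)`.  All exponents `(a, j)` of `P` have `‖x^a‖ < ‖x^α‖`, or `a = α` (`norm_mon_inj`) and `j ≥ d`, so `evS τ x y P = τ c0 x^α y^d + x^α (y^(d+1) a + q)` with `a ∈ HO c`, `q ∈ QH c`; the same for `z'` by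
`Sm` (`HL`-elements with `Gn < ‖x^α‖` are `x^α` times an element of `QH c`: `Gn_mul`, `Gn_lt_one_iff`).  `v := τ c0 + y a'`, `rs v = c0`, `‖v‖ = 1`; the last condition is `Rdp` (`kap c.B = F`).
`nf_start`: suppose `P.coeff (a, i) = 0` for all `i ≤ d`.  Then `evS τ x y P + z' ∈ x^a I`, `I := y^(d+1) HO c + QH c` (an ideal of `HO c` which contains no `y^i v`, `i ≤ d`, `‖v‖ = 1`: `Ld.unique`).  `gact_mod` with `μ := ‖x^a‖`:
`z + s^p ∈ x^a I`.  `z = x^a (y^d v + q)`.  If `a` is not in `p ℤ^r`: `Gn c s ^ p < ‖x^a‖`, so `x^(-a) s^p ∈ QH c` and `y^d v ∈ I`: contradiction.  If `a = p • a'`: `s = x^a' η`, `η ∈ HO c` (`Gn_le_iff`), `y^d v + η^p ∈ I`.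
If `η ∈ QH c` contradiction as before.  Otherwise `η = y^m u + q'`, `u ∈ HO c`, `‖u‖ = 1`, `q' ∈ QH c` (`exists_Ld` for `η`: `Ld c η 0 m`, because `Gn c η = 1`), `η^p = y^(pm) u^p + q''`, `q'' ∈ QH c` (all terms of
`(y^m u + q')^p` except the first contain `q'`): `y^d v + y^(pm) u^p ∈ I`.  `pm < d`: `y^(pm) (u^p + ..) ∈ I`: contradiction; `pm > d`: contradiction; `pm = d`: `‖v + u^p‖ < 1`, so `rs v = (- rs u)^p` (characteristic `p`,
`charP_RW`), `- rs u ∈ kap c.B` (`u ∈ HO c`: `u = b + (norm < 1)` with `b ∈ c.B`: `HO_dec` in HOb.lean): contradiction to `NLd`.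
-/

namespace Pool.Agent.Lib.MXP

open Pool.Agent.Lib.MP_3029eb_ag Pool.Agent.Lib.MP_3029eb_ag.Abh Pool.Agent.Lib.TDO

variable {E W : Type} [Field E] [NormedField W] [IsUltrametricDist W] [Algebra E W] {r p : ℕ}
  {S : IntermediateField E W} {c c' : Tri W r} {F : Subfield (RW W)}
  [Fact ((p : W) = 0)]


omit [IsUltrametricDist W] in
private theorem NlX_sub {c : Tri W r} (hok : Indep c.x) (a b : Fin r → ℤ) :
    mon c.x a = mon c.x b * mon c.x (a - b) := by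
  rw [← mon_add c.x hok.ne, add_sub_cancel]

private theorem NlX_sub_lt (hok : Gd S c) {a b : Fin r → ℤ}
    (h : ‖mon c.x a‖ < ‖mon c.x b‖) : ‖mon c.x (a - b)‖ < 1 := by
  rw [NlX_sub hok.ind a b, norm_mul] at h
  have hb : 0 < ‖mon c.x b‖ := norm_pos_iff.2 (mon_ne c.x hok.ind.ne b)
  by_contra hcon
  push Not at hcon
  nlinarith

private theorem NlX_sub_le (hok : Gd S c) {a b : Fin r → ℤ}
    (h : ‖mon c.x a‖ ≤ ‖mon c.x b‖) : ‖mon c.x (a - b)‖ ≤ 1 := by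
  rw [NlX_sub hok.ind a b, norm_mul] at h
  have hb : 0 < ‖mon c.x b‖ := norm_pos_iff.2 (mon_ne c.x hok.ind.ne b)
  by_contra hcon
  push Not at hcon
  nlinarith

private theorem NlX_no (hr : 0 < r) (hA : AmbX p r S) (hok : Gd S c) {d : ℕ} {v : W}
    (hv : v ∈ HO c) (hv1 : ‖v‖ = 1) (h : c.y ^ d * v ∈ QH c) : False := by
  have hv0 : v ≠ 0 := by
    intro h0
    rw [h0, norm_zero] at hv1
    exact zero_ne_one hv1
  refine y_pow_not_QH hr hA hok d ?_
  have h1 := QH_mul hok h (inv_mem_HO hok hv hv1)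
  rwa [mul_assoc, mul_inv_cancel₀ hv0, mul_one] at h1

private theorem NlX_QH (hr : 0 < r) (hA : AmbX p r S) (hc : Gd S c) {w : W} (hw : w ∈ HL c)
    {a : Fin r → ℤ} (h : Gn c w < ‖mon c.x a‖) : ∃ q ∈ QH c, w = mon c.x a * q := by
  have ha : 0 < ‖mon c.x a‖ := norm_pos_iff.2 (mon_ne c.x hc.ind.ne a)
  refine ⟨mon c.x (-a) * w, ?_, ?_⟩
  · rw [← Gn_lt_one_iff hr hA hc (mul_mem (mon_mem_HL _) hw),
      Gn_mul hr hA hc (mon_mem_HL _) hw, Gn_mon hr hA hc, mon_neg, norm_inv,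
      inv_mul_lt_iff₀ ha, mul_one]
    exact h
  · rw [← mul_assoc, ← mon_add c.x hc.ind.ne, add_neg_cancel, mon_zero, one_mul]

private theorem NlX_unit {v w : W} (hv1 : ‖v‖ = 1) (hw : ‖w‖ < 1) : ‖v + w‖ = 1 := by
  rw [IsUltrametricDist.norm_add_eq_max_of_norm_ne_norm (by rw [hv1]; exact hw.ne'), hv1,
    max_eq_left hw.le]

private theorem NlX_yk (hc : Gd S c) {k : ℕ} (hk : k ≠ 0) {h : W} (hh : h ∈ HO c) :
    ‖c.y ^ k * h‖ < 1 := by
  rw [norm_mul, norm_pow]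
  exact (mul_le_of_le_one_right (pow_nonneg (norm_nonneg _) _) (HO_norm_le hc hh)).trans_lt
    (pow_lt_one₀ (norm_nonneg _) hc.y1 hk)

private theorem NlX_QH_sum (hr : 0 < r) (hok : Gd S c) {ι : Type*} (s : Finset ι) (f : ι → W)
    (h : ∀ i ∈ s, f i ∈ QH c) : ∑ i ∈ s, f i ∈ QH c := by
  classical
  induction s using Finset.induction_on with
  | empty => rw [Finset.sum_empty]; exact QH_zero hok hr
  | insert i s hi ih =>
    rw [Finset.sum_insert hi]
    exact QH_add hok (h i (Finset.mem_insert_self _ _))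
      (ih fun j hj => h j (Finset.mem_insert_of_mem hj))

open Classical in
private theorem NlX_evS (hr : 0 < r) (hc : Gd S c) {τ : F → W} (hτ : Sec c.B F τ)
    {P : LP F r} {a : Fin r → ℤ} (D : ℕ)
    (hP : ∀ a' j, P.coeff (a', j) ≠ 0 → ‖mon c.x a'‖ ≤ ‖mon c.x a‖)
    (hD : ∀ j, P.coeff (a, j) ≠ 0 → D ≤ j) :
    (∑ n ∈ P.coeff.support.filter (fun n => n.1 = a),
      τ (P.coeff n) * c.y ^ (n.2 - D)) ∈ HO c ∧ ∃ q ∈ QH c, evS τ c.x c.y P =
      mon c.x a * (c.y ^ D * (∑ n ∈ P.coeff.support.filter (fun n => n.1 = a),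
        τ (P.coeff n) * c.y ^ (n.2 - D)) + q) := by
  have hcm : ∀ e : F, τ e ∈ HO c := fun e => B_mem_HO hc (hτ.mem e)
  refine ⟨sum_mem fun n _ => mul_mem (hcm _) (pow_mem (y_mem_HO hc) _),
    ∑ n ∈ P.coeff.support.filter (fun n => ¬ n.1 = a),
      τ (P.coeff n) * (mon c.x (n.1 - a) * c.y ^ n.2), ?_, ?_⟩
  · refine NlX_QH_sum hr hc _ _ fun n hn => ?_
    rw [Finset.mem_filter, Finsupp.mem_support_iff] at hn
    have h1 : ‖mon c.x n.1‖ < ‖mon c.x a‖ := by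
      refine lt_of_le_of_ne (hP n.1 n.2 hn.1) fun h2 => hn.2 (norm_mon_inj hc.ind h2)
    have h2 := mon_mul_mem_QH hc (NlX_sub_lt hc h1)
      (mul_mem (pow_mem (y_mem_HO hc) n.2) (hcm (P.coeff n)))
    rw [show τ (P.coeff n) * (mon c.x (n.1 - a) * c.y ^ n.2) =
      mon c.x (n.1 - a) * (c.y ^ n.2 * τ (P.coeff n)) by ring]
    exact h2
  · unfold evS Finsupp.sum
    rw [← Finset.sum_filter_add_sum_filter_not _ (fun n : (Fin r → ℤ) × ℕ => n.1 = a), mul_add,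
      Finset.mul_sum, Finset.mul_sum, Finset.mul_sum]
    congr 1
    · refine Finset.sum_congr rfl fun n hn => ?_
      rw [Finset.mem_filter, Finsupp.mem_support_iff] at hn
      have h4 : D ≤ n.2 := hD n.2 (by rw [← hn.2]; exact hn.1)
      have h5 : c.y ^ n.2 = c.y ^ D * c.y ^ (n.2 - D) := by rw [← pow_add]; congr 1; omega
      beta_reduce
      rw [hn.2, h5]
      ring
    · refine Finset.sum_congr rfl fun n hn => ?_
      beta_reduce
      rw [NlX_sub hc.ind n.1 a]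
      ring

private theorem NlX_lead (hr : 0 < r) (hc : Gd S c) {τ : F → W}
    (hτ : Sec c.B F τ) {P : LP F r} {a : Fin r → ℤ} {d : ℕ} (h : Lead c.x P a d) :
    ∃ v ∈ HO c, ‖v‖ = 1 ∧ rs v = (P.coeff (a, d) : RW W) ∧ ∃ q ∈ QH c,
      evS τ c.x c.y P = mon c.x a * (c.y ^ d * v + q) := by
  classical
  obtain ⟨h1, q, hq, h2⟩ := NlX_evS hr hc hτ d h.max h.min
  set v : W := ∑ n ∈ P.coeff.support.filter (fun n => n.1 = a),
    τ (P.coeff n) * c.y ^ (n.2 - d) with hvdef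
  have hmem : (a, d) ∈ P.coeff.support.filter (fun n => n.1 = a) := by
    rw [Finset.mem_filter, Finsupp.mem_support_iff]
    exact ⟨h.mem, rfl⟩
  have h3 : v = τ (P.coeff (a, d)) +
      ∑ n ∈ (P.coeff.support.filter (fun n => n.1 = a)).erase (a, d),
        τ (P.coeff n) * c.y ^ (n.2 - d) := by
    rw [hvdef, ← Finset.add_sum_erase _ _ hmem]
    congr 1
    rw [Nat.sub_self, pow_zero, mul_one]
  have h4 : ‖∑ n ∈ (P.coeff.support.filter (fun n => n.1 = a)).erase (a, d),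
        τ (P.coeff n) * c.y ^ (n.2 - d)‖ < 1 := by
    refine lt_of_le_of_lt ?_ hc.y1
    refine IsUltrametricDist.norm_sum_le_of_forall_le_of_nonneg (norm_nonneg _) fun n hn => ?_
    rw [Finset.mem_erase, Finset.mem_filter, Finsupp.mem_support_iff] at hn
    obtain ⟨hn1, hn2, hn3⟩ := hn
    have h4 : d ≤ n.2 := h.min n.2 (by rw [← hn3]; exact hn2)
    have h5 : n.2 ≠ d := by
      intro h6
      exact hn1 (Prod.ext hn3 h6)
    rw [norm_mul, hτ.norm_one hn2, one_mul, norm_pow]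
    exact pow_le_of_le_one (norm_nonneg _) hc.y1.le (by omega)
  refine ⟨v, h1, ?_, ?_, q, hq, h2⟩
  · rw [h3]
    exact NlX_unit (hτ.norm_one h.mem) h4
  · rw [h3, rs_add (hτ.norm _) h4.le, hτ.rs, (rs_eq_zero_iff h4.le).2 h4, add_zero]

private theorem NlX_rs (hr : 0 < r) (hc : Gd S c) {u : W} (hu : u ∈ HO c) : rs u ∈ kap c.B := by
  obtain ⟨e, he, q, hq, b, hb, h⟩ := HO_dec hr hc hu
  have h1 : ‖q + b * c.y‖ < 1 := by
    refine (IsUltrametricDist.norm_add_le_max _ _).trans_lt (max_lt (QH_norm hc hq) ?_)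
    rw [norm_mul]
    exact (mul_le_of_le_one_left (norm_nonneg _) (HO_norm_le hc hb)).trans_lt hc.y1
  have h2 : rs u = rs e := by
    rw [rs_eq_iff (HO_norm_le hc hu) (hc.norm_le he)]
    have e1 : u - e = q + b * c.y := by rw [h]; ring
    rw [e1]
    exact h1
  rw [h2]
  exact rs_mem_kap he

private theorem NlX_pow (hc : Gd S c) {A q : W} (hA : A ∈ HO c) (hq : q ∈ QH c) (n : ℕ) :
    ∃ q' ∈ QH c, (A + q) ^ n = A ^ n + q' := by
  have h1 : A + q ∈ HO c := add_mem hA (QH_mem_HO hc hq)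
  obtain ⟨k, hk⟩ := sub_dvd_pow_sub_pow (⟨A + q, h1⟩ : HO c) ⟨A, hA⟩ n
  have h2 : (A + q) ^ n - A ^ n = (A + q - A) * (k : W) := congrArg Subtype.val hk
  refine ⟨q * (k : W), QH_mul hc hq k.2, ?_⟩
  have h3 : A + q - A = q := by ring
  rw [h3] at h2
  rw [← h2]
  ring

theorem lead_min {x : Fin r → W} {P : LP F r} {α : Fin r → ℤ} {i : ℕ}
    (h : P.coeff (α, i) ≠ 0) (hP : ∀ a j, P.coeff (a, j) ≠ 0 → ‖mon x a‖ ≤ ‖mon x α‖) :
    ∃ d ≤ i, Lead x P α d := by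
  classical
  have hex : ∃ j, P.coeff (α, j) ≠ 0 := ⟨i, h⟩
  exact ⟨Nat.find hex, Nat.find_min' hex h, Nat.find_spec hex, hP,
    fun j hj => Nat.find_min' hex hj⟩

theorem er_sm (hr : 0 < r) (hA : AmbX p r S) (hc : Gd S c) {a α : Fin r → ℤ} {J J' : ℕ}
    {z : W} (h : Er c a J z) (h1 : 1 < ‖mon c.x α‖) (ha : ‖mon c.x a‖ ≤ ‖mon c.x α‖)
    (hJ : J' ≤ J) : Sm c α J' z := by
  obtain ⟨e1, he1, e2, he2, hz⟩ := h
  refine ⟨e1, HO_le_HL he1, ?_, mon c.x (a - α) * c.y ^ (J - J') * e2, ?_, ?_⟩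
  · exact ((Gn_le_one_iff hr hA hc (HO_le_HL he1)).2 he1).trans_lt h1
  · exact mul_mem (mul_mem (mon_mem_HO hc (NlX_sub_le hc ha)) (pow_mem (y_mem_HO hc) _)) he2
  · have h5 : c.y ^ J = c.y ^ J' * c.y ^ (J - J') := by rw [← pow_add]; congr 1; omega
    rw [hz, NlX_sub hc.ind a α, h5]
    ring

theorem NLd.ld {z : W} {a : Fin r → ℤ} {d : ℕ} (h : NLd p c z a d) : Ld c z a d := by
  obtain ⟨-, v, hv, hv1, ⟨q, hq, hz⟩, -⟩ := h
  exact ⟨v, hv, hv1, q, hq, hz⟩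

theorem nld_of (hr : 0 < r) (hA : AmbX p r S) (hc : Gd S c) (hF : kap c.B = F) {τ : F → W}
    (hτ : Sec c.B F τ) {P : LP F r} {α : Fin r → ℤ} {d : ℕ} (hl : Lead c.x P α d)
    (hred : Rdp p c.x P) {z z' : W} (hz : z = evS τ c.x c.y P + z')
    (hE : Sm c α (d + 1) z') : NLd p c z α d := by
  obtain ⟨v, hv, hv1, hvr, q, hq, hev⟩ := NlX_lead hr hc hτ hl
  obtain ⟨e1, he1, hG, e2, he2, hz'⟩ := hE
  obtain ⟨q1, hq1, he1'⟩ := NlX_QH hr hA hc he1 hG
  have hye : ‖c.y * e2‖ < 1 := by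
    have h1 := NlX_yk hc one_ne_zero he2
    rwa [pow_one] at h1
  refine ⟨(hred α d hl.mem).1, v + c.y * e2, add_mem hv (mul_mem (y_mem_HO hc) he2),
    NlX_unit hv1 hye, ⟨q + q1, QH_add hc hq hq1, ?_⟩, ?_⟩
  · rw [hz, hev, hz', he1', pow_succ]
    ring
  · rintro ⟨h1, h2, b, hb, hbr⟩
    refine (hred α d hl.mem).2 ⟨h1, h2, ⟨b, by rw [← hF]; exact hb⟩, Subtype.ext ?_⟩
    rw [← hvr]
    have h3 : rs v = rs (v + c.y * e2) := by
      rw [rs_add hv1.le hye.le, (rs_eq_zero_iff hye.le).2 hye, add_zero]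
    rw [h3, hbr]
    rfl

theorem nf_start (hr : 0 < r) (hA : AmbX p r S) (hc : Gd S c) (hF : kap c.B = F) {τ : F → W}
    (hτ : Sec c.B F τ) {lam : W} (hlam : LamP p c lam) {z : W} {a : Fin r → ℤ} {d : ℕ}
    (h : NLd p c z a d) (hm : ‖lam‖ ^ p * ‖mon c.x a‖ < 1) {s : W} (hs : s ∈ HL c)
    (hs1 : Gn c s ^ p ≤ ‖mon c.x a‖) {P : LP F r} {z' : W}
    (hz : gact p lam s z = evS τ c.x c.y P + z') (hE : Sm c a (d + 1) z')
    (hP : ∀ a' j, P.coeff (a', j) ≠ 0 → ‖mon c.x a'‖ ≤ ‖mon c.x a‖) :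
    ∃ i ≤ d, P.coeff (a, i) ≠ 0 := by
  classical
  by_contra hcon
  push Not at hcon
  have hld := h.ld
  have hzH : z ∈ HL c := hld.mem_HL hc
  have hGz : Gn c z ≤ ‖mon c.x a‖ := (Gn_eq hr hA hc hld).le
  obtain ⟨ha1, v, hv, hv1, ⟨q, hq, hzq⟩, hNP⟩ := h
  have hma : mon c.x a ≠ 0 := mon_ne c.x hc.ind.ne a
  -- the right hand side
  obtain ⟨hh0, q0, hq0, hev⟩ := NlX_evS hr hc hτ (d + 1) hP (fun j hj => by
    by_contra hlt
    exact hj (hcon j (by omega)))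
  generalize (∑ n ∈ P.coeff.support.filter (fun n => n.1 = a),
        τ (P.coeff n) * c.y ^ (n.2 - (d + 1))) = h0 at hh0 hev
  obtain ⟨e1, he1, hG, e2, he2, hz'⟩ := hE
  obtain ⟨q1, hq1, he1'⟩ := NlX_QH hr hA hc he1 hG
  -- the left hand side
  have hmod := (gact_mod hr hA hc hlam hs hzH ha1 hm hs1 hGz).1
  have hgH := (gact_HL hA hc hlam hs hzH).2
  obtain ⟨q2, hq2, hg2⟩ := NlX_QH hr hA hc
    (sub_mem hgH (add_mem hzH (pow_mem hs p))) hmod
  -- s ^ p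
  have hsp : s ^ p = mon c.x a * (c.y ^ (d + 1) * (h0 + e2) + (q0 + q1 - q2 - q) -
      c.y ^ d * v) := by
    have e3 : s ^ p = gact p lam s z - z - (gact p lam s z - (z + s ^ p)) := by ring
    rw [e3, hg2, hz, hev, hz', he1', hzq]
    ring
  have hq3 : q0 + q1 - q2 - q ∈ QH c := by
    have e3 : q0 + q1 - q2 - q = (q0 + q1) + (-q2) + (-q) := by ring
    rw [e3]
    exact QH_add hc (QH_add hc (QH_add hc hq0 hq1) (QH_neg hc hq2)) (QH_neg hc hq)
  have hh : h0 + e2 ∈ HO c := add_mem hh0 he2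
  generalize h0 + e2 = h1 at hsp hh
  generalize q0 + q1 - q2 - q = q3 at hsp hq3
  -- y^d v is not in the ideal
  have key1 : ∀ q4 ∈ QH c, c.y ^ (d + 1) * h1 + q4 - c.y ^ d * v ≠ 0 := by
    intro q4 hq4 h4
    have hyh := NlX_yk hc one_ne_zero (neg_mem hh)
    rw [pow_one] at hyh
    refine NlX_no hr hA hc (d := d) (add_mem hv (mul_mem (y_mem_HO hc) (neg_mem hh)))
      (NlX_unit hv1 hyh) ?_
    have e4 : c.y ^ d * (v + c.y * -h1) = q4 := by
      rw [pow_succ] at h4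
      linear_combination -h4
    rw [e4]
    exact hq4
  by_cases hs0 : s = 0
  · rw [hs0, zero_pow hA.prime.ne_zero] at hsp
    exact key1 q3 hq3 ((mul_eq_zero.1 hsp.symm).resolve_left hma)
  obtain ⟨b, m, hls⟩ := exists_Ld hr hA hc hs hs0
  have hGs := Gn_eq hr hA hc hls
  obtain ⟨u, hu, hu1, q5, hq5, hsq⟩ := hls
  obtain ⟨q6, hq6, hpow⟩ := NlX_pow hc (mul_mem (pow_mem (y_mem_HO hc) m) hu) hq5 p
  have hmb : mon c.x (p • b) = mon c.x b ^ p := mon_nsmul _ _ _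
  have hsp2 : s ^ p = mon c.x (p • b) * (c.y ^ (m * p) * u ^ p + q6) := by
    rw [hsq, mul_pow, hpow, hmb, mul_pow, ← pow_mul]
  have hup1 : ‖u ^ p‖ = 1 := by rw [norm_pow, hu1, one_pow]
  have hupH : u ^ p ∈ HO c := pow_mem hu p
  rw [hGs, ← norm_pow, ← hmb] at hs1
  rcases hs1.lt_or_eq with hlt | heq
  · -- the monomial is small
    have h4 : mon c.x (p • b - a) * (c.y ^ (m * p) * u ^ p + q6) ∈ QH c :=
      mon_mul_mem_QH hc (NlX_sub_lt hc hlt)
        (add_mem (mul_mem (pow_mem (y_mem_HO hc) _) hupH) (QH_mem_HO hc hq6))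
    refine key1 (q3 + -(mon c.x (p • b - a) * (c.y ^ (m * p) * u ^ p + q6)))
      (QH_add hc hq3 (QH_neg hc h4)) ?_
    have h5 : mon c.x a * (c.y ^ (d + 1) * h1 + q3 - c.y ^ d * v) =
        mon c.x a * (mon c.x (p • b - a) * (c.y ^ (m * p) * u ^ p + q6)) := by
      rw [← hsp, hsp2, NlX_sub hc.ind (p • b) a, mul_assoc]
    have h6 := mul_left_cancel₀ hma h5
    linear_combination h6
  · have hab : p • b = a := norm_mon_inj hc.ind heq
    rw [hab] at hsp2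
    have h6 : c.y ^ (d + 1) * h1 + q3 - c.y ^ d * v = c.y ^ (m * p) * u ^ p + q6 :=
      mul_left_cancel₀ hma (by rw [← hsp, hsp2])
    have hq7 : q3 + -q6 ∈ QH c := QH_add hc hq3 (QH_neg hc hq6)
    rcases lt_trichotomy (m * p) d with hlt | heq2 | hgt
    · -- m p < d
      have hn : ‖c.y ^ (d - m * p) * (v + c.y * -h1)‖ < 1 := NlX_yk hc (by omega)
        (add_mem hv (mul_mem (y_mem_HO hc) (neg_mem hh)))
      refine NlX_no hr hA hc (d := m * p) (add_mem hupH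
        (mul_mem (pow_mem (y_mem_HO hc) _)
          (add_mem hv (mul_mem (y_mem_HO hc) (neg_mem hh))))) (NlX_unit hup1 hn) ?_
      have e4 : c.y ^ (m * p) * (u ^ p + c.y ^ (d - m * p) * (v + c.y * -h1)) = q3 + -q6 := by
        have h7 : c.y ^ d = c.y ^ (m * p) * c.y ^ (d - m * p) := by
          rw [← pow_add]; congr 1; omega
        rw [pow_succ, h7] at h6
        linear_combination -h6
      rw [e4]
      exact hq7
    · -- m p = d
      rw [heq2] at h6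
      by_cases hn : ‖u ^ p + v‖ = 1
      · have hyh := NlX_yk hc one_ne_zero (neg_mem hh)
        rw [pow_one] at hyh
        refine NlX_no hr hA hc (d := d) (add_mem (add_mem hupH hv)
          (mul_mem (y_mem_HO hc) (neg_mem hh))) (NlX_unit hn hyh) ?_
        have e4 : c.y ^ d * (u ^ p + v + c.y * -h1) = q3 + -q6 := by
          rw [pow_succ] at h6
          linear_combination -h6
        rw [e4]
        exact hq7
      · have hn1 : ‖u ^ p + v‖ ≤ 1 := HO_norm_le hc (add_mem hupH hv)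
        have hn2 : ‖u ^ p + v‖ < 1 := lt_of_le_of_ne hn1 hn
        refine hNP ⟨⟨b, hab.symm⟩, ⟨m, by rw [← heq2, mul_comm]⟩, -rs u,
          neg_mem (NlX_rs hr hc hu), ?_⟩
        have h7 : rs (u ^ p) + rs v = 0 := by
          rw [← rs_add hup1.le hv1.le]
          exact (rs_eq_zero_iff hn1).2 hn2
        rw [rs_pow hu1.le] at h7
        have := charP_RW hA
        have : Fact p.Prime := ⟨hA.prime⟩
        have h8 : (-rs u) ^ p = -(rs u ^ p) := by
          have h9 : (0 - rs u) ^ p = 0 ^ p - rs u ^ p := sub_pow_char 0 (rs u)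
          rw [zero_sub, zero_pow hA.prime.ne_zero, zero_sub] at h9
          exact h9
        rw [h8]
        exact eq_neg_of_add_eq_zero_right h7
    · -- m p > d
      have hn : ‖c.y ^ (m * p - d) * u ^ p‖ < 1 := NlX_yk hc (by omega) hupH
      have hyh := NlX_yk hc one_ne_zero (neg_mem hh)
      rw [pow_one] at hyh
      refine NlX_no hr hA hc (d := d) (add_mem (add_mem hv
        (mul_mem (pow_mem (y_mem_HO hc) (m * p - d)) hupH))
          (mul_mem (y_mem_HO hc) (neg_mem hh))) (NlX_unit (NlX_unit hv1 hn) hyh) ?_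
      have e4 : c.y ^ d * (v + c.y ^ (m * p - d) * u ^ p + c.y * -h1) = q3 + -q6 := by
        have h7 : c.y ^ (m * p) = c.y ^ d * c.y ^ (m * p - d) := by
          rw [← pow_add]; congr 1; omega
        rw [pow_succ, h7] at h6
        linear_combination -h6
      rw [e4]
      exact hq7

end Pool.Agent.Lib.MXP
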