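import Pool.Agent.Lib.MXP.OscA
import Pool.Agent.Lib.MXP.CharX
import Pool.Agent.Lib.TU.StarP

set_option autoImplicit false

/-!
# Module MX.Osc1: one stage of the `p`-step, `e f ≥ 2` (paper 5.2)

Take `α, φ, m, a1, j1, m1, D, q` from `osc_lead`.  `z = x'^α (w^(-pm) Φ(w)) + q + E`, `Φ := tl τ φ`; `‖x'^α‖ ≥ ‖x^a0 y^d‖` so `Gn c' z ≤ max 1 ‖x'^α‖` (`w^(-pm) Φ(w) ∈ HO c'`: `St.w_zpow`, `St.eval_mem`, `tl_mem`).
Let `1 < ‖x'^α‖`.  Then `Gn c' (q + E) < ‖x'^α‖`.  Let `s, P', E'` be as in the conclusion and suppose `P'.coeff (α, i) = 0` for all `i < d`.  `gact_mod` (`μ := ‖x'^α‖`): `gact z = z + s^p + (Gn < ‖x'^α‖)`.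
`evS τ' x' y' P'` is `x'^α (y'^d a + q')` with `a ∈ HO c'`, `q' ∈ QH c'` (its terms: exponents `(a, j)` with `‖x'^a‖ < ‖x'^α‖`, or `a = α` (`norm_mon_inj`) and `j ≥ d`), and so is `E'` (`Sm`; an element of `HL c'` with
`Gn < ‖x'^α‖` is `x'^α` times an element of `QH c'`: `Gn_mul`, `Gn_lt_one_iff`).  So `w^(-pm) Φ(w) + x'^(-α) s^p ∈ y'^d HO c' + QH c'` =: `I_d` (an ideal of `HO c'`).
CASE 1: `α = p • α'`: `s = x'^α' η`, `η ∈ HO c'` (`Gn_le_iff`, `Gn c' s ^ p ≤ ‖x'^α'‖ ^ p`), so `w^(-pm) Φ(w) + η^p ∈ I_d`; multiply with the unit `w^(pm)`: `Φ(w) + η1^p ∈ I_d`, `η1 := w^m η ∈ HO c'`.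
`St.mod_fracN` for `η1`, `n := d`: `η1 D(w) = N(w) + i`, `i ∈ I_d`, `‖D(w)‖ = 1`.  `Φ(w) D(w)^p + N(w)^p ∈ I_d` (`(N(w) + i)^p - N(w)^p` is divisible by `i`).  `exists_red`: reductions `N̄`, `D̄` over `F`; `Rd (Φ D^p + N^p)
(φ D̄^p + N̄^p)` (`tl_rd`); `St.pow_iff`: `g^d ∣ φ D̄^p + N̄^p = φ D̄^p - (-N̄)^p` (characteristic `p`: `(-1)^p = -1`).  `¬ g ∣ D̄` (`St.norm_eval_iff`).  Contradiction to `TU.star` over `F` (`charP_F`) with `H1 := -N̄`, `H2 := D̄`: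
`hgX`: `St.g_facts`; `hde`: `j1 + D e ≤ d`; `hmod`: `T ((a1, j1) - (m1 - pm) (-β, e)) = (α, 0) = p (α', 0)` so `p ∣ j1 - (m1 - pm) e`; `he1`: if `e = 1`: `T (b, 0) = (b, 0)`, so `m = 0`, `T (a1, j1) = (.., j1)`, so `j1 = m1`.
`hφ`: otherwise all `n` with `φ.coeff n ≠ 0` are divisible by `p` and the coefficients are `p`-th powers; take one such `n` (`φ ≠ 0`), `(a, j)` with `P.coeff (a, j) = φ.coeff n`, `T (a, j) = (α, n - pm)` is divisible by `p`, so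
`(a, j)` is (`T` is an additive equivalence), so `PT p a j (P.coeff (a, j))`: contradiction to `Rdp`.  `hm1`, `hD`: from `osc_lead`.
CASE 2: `α` is not in `p ℤ^r`: `Gn c' s ^ p ≠ ‖x'^α‖` (`s = 0`, or `Gn c' s = ‖x'^b‖`, `‖x'^(p b)‖ = ‖x'^α‖` gives `α = p • b`), so `Gn c' (s^p) < ‖x'^α‖` and `w^(-pm) Φ(w) ∈ I_d`, `Φ(w) ∈ I_d`, `g^d ∣ φ` (`St.pow_iff`).
`φ = X^m1 ψ`, `¬ g ∣ X`, so `g^d ∣ ψ`, `d f ≤ natDegree ψ ≤ D` (`f := natDegree g`, `φ ≠ 0`), `D e ≤ d`: `d f e ≤ d`: contradiction to `e f ≥ 2`, `d ≥ 2`.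
-/

namespace Pool.Agent.Lib.MXP

open Pool.Agent.Lib.MP_3029eb_ag Pool.Agent.Lib.MP_3029eb_ag.Abh Pool.Agent.Lib.TDO

variable {E W : Type} [Field E] [NormedField W] [IsUltrametricDist W] [Algebra E W] {r p : ℕ}
  {S : IntermediateField E W} {c c' : Tri W r} {F : Subfield (RW W)}
  [Fact ((p : W) = 0)]

/-- the ideal generated by `y ^ d` and the monomials of norm less than one -/
private def Osc1I (c : Tri W r) (d : ℕ) (z : W) : Prop :=
  ∃ a ∈ HO c, ∃ q ∈ QH c, z = c.y ^ d * a + q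

private theorem osc1_add (hc : Gd S c) {d : ℕ} {z z' : W} (h : Osc1I c d z) (h' : Osc1I c d z') :
    Osc1I c d (z + z') := by
  obtain ⟨a, ha, q, hq, rfl⟩ := h
  obtain ⟨a', ha', q', hq', rfl⟩ := h'
  exact ⟨a + a', add_mem ha ha', q + q', QH_add hc hq hq', by ring⟩

private theorem osc1_neg (hc : Gd S c) {d : ℕ} {z : W} (h : Osc1I c d z) : Osc1I c d (-z) := by
  obtain ⟨a, ha, q, hq, rfl⟩ := h
  exact ⟨-a, neg_mem ha, -q, QH_neg hc hq, by ring⟩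

private theorem osc1_mul (hc : Gd S c) {d : ℕ} {z u : W} (h : Osc1I c d z) (hu : u ∈ HO c) :
    Osc1I c d (z * u) := by
  obtain ⟨a, ha, q, hq, rfl⟩ := h
  exact ⟨a * u, mul_mem ha hu, q * u, QH_mul hc hq hu, by ring⟩

private theorem osc1_QH {d : ℕ} {q : W} (h : q ∈ QH c) : Osc1I c d q :=
  ⟨0, zero_mem _, q, h, by ring⟩

private theorem osc1_y (hr : 0 < r) (hc : Gd S c) {d : ℕ} {u : W} (h : u ∈ HO c) :
    Osc1I c d (c.y ^ d * u) :=
  ⟨u, h, 0, QH_zero hc hr, by ring⟩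

private theorem osc1_sum (hr : 0 < r) (hc : Gd S c) {d : ℕ} {ι : Type*} (t : Finset ι)
    (f : ι → W) (h : ∀ i ∈ t, Osc1I c d (f i)) : Osc1I c d (∑ i ∈ t, f i) := by
  classical
  induction t using Finset.induction_on with
  | empty => rw [Finset.sum_empty]; exact osc1_QH (QH_zero hc hr)
  | insert i t hi ih =>
    rw [Finset.sum_insert hi]
    exact osc1_add hc (h i (Finset.mem_insert_self _ _))
      (ih fun j hj => h j (Finset.mem_insert_of_mem hj))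

private theorem osc1_small (hr : 0 < r) (hA : AmbX p r S) (hc : Gd S c) {d : ℕ} {u : W}
    (hu : u ∈ HL c) {α : Fin r → ℤ} (h : Gn c u < ‖mon c.x α‖) :
    Osc1I c d (mon c.x (-α) * u) := by
  refine osc1_QH ((Gn_lt_one_iff hr hA hc (mul_mem (mon_mem_HL _) hu)).1 ?_)
  have h0 : 0 < ‖mon c.x α‖ := norm_pos_iff.2 (mon_ne c.x hc.ind.ne α)
  rw [Gn_mul hr hA hc (mon_mem_HL _) hu, Gn_mon hr hA hc, mon_neg, norm_inv,
    inv_mul_lt_iff₀ h0, mul_one]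
  exact h

private theorem osc1_evS (hr : 0 < r) (hc : Gd S c) {d : ℕ} {τ : F → W} (hτ : Sec c.B F τ)
    (P : LP F r) {α : Fin r → ℤ} (h1 : ∀ a j, P.coeff (a, j) ≠ 0 → ‖mon c.x a‖ ≤ ‖mon c.x α‖)
    (h2 : ∀ i < d, P.coeff (α, i) = 0) : Osc1I c d (mon c.x (-α) * evS τ c.x c.y P) := by
  unfold evS Finsupp.sum
  rw [Finset.mul_sum]
  refine osc1_sum hr hc _ _ fun n hn => ?_
  have hn0 : P.coeff (n.1, n.2) ≠ 0 := Finsupp.mem_support_iff.1 hn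
  have hτm : τ (P.coeff n) ∈ HO c := B_mem_HO hc (hτ.mem _)
  have hα0 : mon c.x α ≠ 0 := mon_ne c.x hc.ind.ne α
  by_cases hna : n.1 = α
  · have hd : d ≤ n.2 := by
      by_contra hlt
      rw [hna] at hn0
      exact hn0 (h2 n.2 (not_le.1 hlt))
    have e : mon c.x (-α) * (τ (P.coeff n) * (mon c.x n.1 * c.y ^ n.2)) =
        c.y ^ d * (τ (P.coeff n) * c.y ^ (n.2 - d)) := by
      have hy : c.y ^ n.2 = c.y ^ d * c.y ^ (n.2 - d) := by
        rw [← pow_add, Nat.add_sub_cancel' hd]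
      rw [hna, mon_neg, hy]
      field_simp
    rw [e]
    exact osc1_y hr hc (mul_mem hτm (pow_mem (y_mem_HO hc) _))
  · have e : mon c.x (-α) * (τ (P.coeff n) * (mon c.x n.1 * c.y ^ n.2)) =
        mon c.x (n.1 + -α) * (τ (P.coeff n) * c.y ^ n.2) := by
      rw [mon_add c.x hc.ind.ne]
      ring
    rw [e]
    refine osc1_QH (mon_mul_mem_QH hc ?_ (mul_mem hτm (pow_mem (y_mem_HO hc) _)))
    have h3 := h1 n.1 n.2 hn0
    have hα1 : 0 < ‖mon c.x α‖ := norm_pos_iff.2 hα0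
    rw [mon_add _ hc.ind.ne, mon_neg, norm_mul, norm_inv, mul_inv_lt_iff₀ hα1, one_mul]
    exact lt_of_le_of_ne h3 fun h4 => hna (norm_mon_inj hc.ind h4)

private theorem osc1_div {r p : ℕ} (T : ((Fin r → ℤ) × ℤ) ≃+ ((Fin r → ℤ) × ℤ))
    {a a' : Fin r → ℤ} {j m : ℤ} (h : T (a, j) = (p • a', (p : ℤ) * m)) :
    (∃ a'' : Fin r → ℤ, a = p • a'') ∧ (p : ℤ) ∣ j := by
  have h2 : (p • (a', m) : (Fin r → ℤ) × ℤ) = (p • a', (p : ℤ) * m) :=
    Prod.ext rfl (nsmul_eq_mul p m)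
  have h1 : (a, j) = p • T.symm (a', m) := by
    rw [← map_nsmul, h2, ← h, T.symm_apply_apply]
  have h3 : a = p • (T.symm (a', m)).1 := congrArg Prod.fst h1
  have h4 : j = p • (T.symm (a', m)).2 := congrArg Prod.snd h1
  exact ⟨⟨_, h3⟩, ⟨(T.symm (a', m)).2, by rw [h4, nsmul_eq_mul]⟩⟩

/-- powers of congruent elements -/
private theorem osc1_powp (hc : Gd S c) {d : ℕ} {x y : W} (hx : x ∈ HO c) (hy : y ∈ HO c)
    (h : Osc1I c d (x - y)) (n : ℕ) : Osc1I c d (x ^ n - y ^ n) := by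
  have e : x ^ n - y ^ n = (x - y) * ∑ i ∈ Finset.range n, x ^ i * y ^ (n - 1 - i) := by
    rw [mul_comm, geom_sum₂_mul]
  rw [e]
  exact osc1_mul hc h (sum_mem fun i _ => mul_mem (pow_mem hx _) (pow_mem hy _))

/-- Case 1: the exponent `α` is divisible by `p`. -/
private theorem osc1_case1 {e : ℕ} {β : Fin r → ℤ} {w : W} {g : Polynomial F} {G : Polynomial W}
    {T : ((Fin r → ℤ) × ℤ) ≃+ ((Fin r → ℤ) × ℤ)} (hr : 0 < r) (hA : AmbX p r S)
    (h : St S c c' F e β w g G T)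
    (he : e = 1 → ∀ (a : Fin r → ℤ) (j : ℤ), T (a, j) = (a + j • β, j))
    (hef : 2 ≤ e * g.natDegree) {τ : F → W} (hτ : Sec c.B F τ) {P : LP F r}
    (hred : Rdp p c.x P) {b : Fin r → ℤ} {d : ℕ} (hd : 2 ≤ d)
    {α α' : Fin r → ℤ} (hα : α = p • α') {φ : Polynomial F} {m : ℤ} {a1 : Fin r → ℤ}
    {j1 m1 D : ℕ} (hm : m = (T (b, 0)).2) (hφ0 : φ ≠ 0) (hjD : j1 + D * e ≤ d)
    (hlow : ∀ i < m1, φ.coeff i = 0) (hdeg : φ.natDegree ≤ m1 + D)
    (hTa1 : T (a1, (j1 : ℤ)) = (α, (m1 : ℤ) - p * m))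
    (hcoef : ∀ n, φ.coeff n ≠ 0 → ∃ i : ℕ, n = m1 + i ∧
        P.coeff (a1 - i • β, j1 + i * e) = φ.coeff n ∧
        T (a1 - i • β, ((j1 + i * e : ℕ) : ℤ)) = (α, (n : ℤ) - p * m))
    {s : W} (hs : s ∈ HL c') (hGs : Gn c' s ^ p ≤ ‖mon c'.x α‖)
    (hI : Osc1I c' d (w ^ (-(p * m : ℤ)) * (tl τ φ).eval w + mon c'.x (-α) * s ^ p)) :
    False := by
  have hp := hA.prime
  have : Fact p.Prime := ⟨hp⟩
  have : CharP F p := charP_F hA F
  have hc' := h.gd'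
  obtain ⟨hgX, -⟩ := St.g_facts h
  have hw0 : w ≠ 0 := norm_pos_iff.1 (by rw [h.w1]; exact one_pos)
  have hα'0 : mon c'.x α' ≠ 0 := mon_ne c'.x hc'.ind.ne α'
  -- the element `η`
  have hGs' : Gn c' s ≤ ‖mon c'.x α'‖ := by
    rw [hα, mon_nsmul, norm_pow] at hGs
    exact (pow_le_pow_iff_left₀ (Gn_nonneg _) (norm_nonneg _) hp.ne_zero).1 hGs
  obtain ⟨η, hη, hsη⟩ := (Gn_le_iff hr hA hc' hs α').1 hGs'
  have e1 : mon c'.x (-α) * s ^ p = η ^ p := by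
    rw [hsη, hα, mon_neg, mon_nsmul, mul_pow]
    field_simp
  rw [e1] at hI
  set η1 : W := w ^ m * η with hη1
  have hη1m : η1 ∈ HO c' := mul_mem (h.w_zpow m).1 hη
  have hI2 : Osc1I c' d ((tl τ φ).eval w + η1 ^ p) := by
    have h1 := osc1_mul hc' hI (h.w_zpow (p * m : ℤ)).1
    have e2 : (w ^ (-(p * m : ℤ)) * (tl τ φ).eval w + η ^ p) * w ^ (p * m : ℤ) =
        (tl τ φ).eval w + η1 ^ p := by
      have e3 : w ^ (p * m : ℤ) = (w ^ m) ^ p := by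
        rw [mul_comm, zpow_mul, zpow_natCast]
      have e4 : w ^ (-(p * m : ℤ)) * w ^ (p * m : ℤ) = 1 := by
        rw [zpow_neg, inv_mul_cancel₀ (zpow_ne_zero _ hw0)]
      rw [hη1, mul_pow, add_mul, ← e3]
      linear_combination ((tl τ φ).eval w) * e4
    rwa [e2] at h1
  obtain ⟨N, D2, hN, hD2, hD1, a, ha, q, hq, hND⟩ := h.mod_fracN hr hη1m d
  have hNm := h.eval_mem hN
  have hDm := h.eval_mem hD2
  have hI3 : Osc1I c' d (η1 * D2.eval w - N.eval w) := ⟨a, ha, q, hq, by rw [hND]; ring⟩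
  have hI4 : Osc1I c' d ((tl τ φ).eval w * D2.eval w ^ p + N.eval w ^ p) := by
    have h1 := osc1_mul hc' hI2 (pow_mem hDm p)
    have h2 := osc1_powp hc' (mul_mem hη1m hDm) hNm hI3 p
    have h3 := osc1_add hc' h1 (osc1_neg hc' h2)
    have e2 : ((tl τ φ).eval w + η1 ^ p) * D2.eval w ^ p +
        -((η1 * D2.eval w) ^ p - N.eval w ^ p) =
        (tl τ φ).eval w * D2.eval w ^ p + N.eval w ^ p := by
      rw [mul_pow]
      ring
    rwa [e2] at h3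
  obtain ⟨QN, hQN⟩ := exists_red (fun _ h1 => h.gd.norm_le h1) h.hF hN
  obtain ⟨QD, hQD⟩ := exists_red (fun _ h1 => h.gd.norm_le h1) h.hF hD2
  have hPol : ∀ j, (tl τ φ * D2 ^ p + N ^ p).coeff j ∈ c.B :=
    pB_add (pB_mul (tl_mem hτ φ) (pB_pow hD2 p)) (pB_pow hN p)
  have hRd : Rd (tl τ φ * D2 ^ p + N ^ p) (φ * QD ^ p + QN ^ p) :=
    ((tl_rd hτ φ).mul (hQD.pow p)).add (hQN.pow p)
  have hdvd : g ^ d ∣ φ * QD ^ p + QN ^ p := by
    refine (h.pow_iff hr hA hPol hRd d).1 ?_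
    obtain ⟨a, ha, q, hq, h1⟩ := hI4
    refine ⟨a, ha, q, hq, ?_⟩
    rw [Polynomial.eval_add, Polynomial.eval_mul, Polynomial.eval_pow, Polynomial.eval_pow]
    exact h1
  have hgD : ¬ g ∣ QD := by
    intro h1
    have h2 := (h.norm_eval_iff hQD).2 h1
    rw [hD1] at h2
    exact lt_irrefl _ h2
  have e5 : φ * QD ^ p + QN ^ p = φ * QD ^ p - (-QN) ^ p := by
    have h1 : (-QN) ^ p = -(QN ^ p) := by
      have h2 : (-QN) ^ p = (0 - QN) ^ p := by rw [zero_sub]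
      rw [h2, sub_pow_char, zero_pow hp.ne_zero, zero_sub]
    rw [h1, sub_neg_eq_add]
  rw [e5] at hdvd
  refine TU.star p g φ h.gi hgX d e m1 j1 D hd h.e1 hef hjD ?_ ?_ ?_ hlow hdeg (-QN) QD hgD hdvd
  · have hTT : T (a1 + ((m1 : ℤ) - p * m) • β, (j1 : ℤ) - ((m1 : ℤ) - p * m) * (e : ℤ)) =
        (p • α', (p : ℤ) * 0) := by
      have h1 : ((a1 + ((m1 : ℤ) - p * m) • β, (j1 : ℤ) - ((m1 : ℤ) - p * m) * (e : ℤ)) :
          (Fin r → ℤ) × ℤ) =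
          (a1, (j1 : ℤ)) - ((m1 : ℤ) - p * m) • ((-β, (e : ℤ)) : (Fin r → ℤ) × ℤ) := by
        ext i
        · simp
        · simp
      rw [h1, map_sub, map_zsmul, hTa1, h.hT, hα]
      ext i
      · simp
      · simp
    obtain ⟨k, hk⟩ := (osc1_div T hTT).2
    exact ⟨k - m * e, by linear_combination hk⟩
  · intro he1
    have h0 : m = 0 := by
      rw [hm, he he1]
    have h1 := he he1 a1 (j1 : ℤ)
    rw [hTa1, h0] at h1
    have h2 : (m1 : ℤ) - p * 0 = (j1 : ℤ) := congrArg Prod.snd h1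
    rw [mul_zero, sub_zero] at h2
    exact_mod_cast h2
  · intro hall
    have hlc : φ.coeff φ.natDegree ≠ 0 := by
      rw [Polynomial.coeff_natDegree]
      exact Polynomial.leadingCoeff_ne_zero.2 hφ0
    obtain ⟨i, hi, hci, hTi⟩ := hcoef _ hlc
    obtain ⟨⟨mm, hmm⟩, b0, hb0⟩ := hall _ hlc
    have h4 : T (a1 - i • β, ((j1 + i * e : ℕ) : ℤ)) = (p • α', (p : ℤ) * ((mm : ℤ) - m)) := by
      rw [hTi, hα]
      refine Prod.ext rfl ?_
      change ((φ.natDegree : ℕ) : ℤ) - p * m = (p : ℤ) * ((mm : ℤ) - m)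
      rw [hmm, Nat.cast_mul]
      ring
    obtain ⟨h5, h6⟩ := osc1_div T h4
    have hne : P.coeff (a1 - i • β, j1 + i * e) ≠ 0 := by rw [hci]; exact hlc
    exact (hred _ _ hne).2 ⟨h5, by exact_mod_cast h6, b0, by rw [hci, hb0]⟩

/-- Case 2: the exponent `α` is not divisible by `p`. -/
private theorem osc1_case2 {e : ℕ} {β : Fin r → ℤ} {w : W} {g : Polynomial F} {G : Polynomial W}
    {T : ((Fin r → ℤ) × ℤ) ≃+ ((Fin r → ℤ) × ℤ)} (hr : 0 < r) (hA : AmbX p r S)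
    (h : St S c c' F e β w g G T)
    (hef : 2 ≤ e * g.natDegree) {τ : F → W} (hτ : Sec c.B F τ) {d : ℕ} (hd : 2 ≤ d)
    {φ : Polynomial F} {k : ℤ} {j1 m1 D : ℕ} (hφ0 : φ ≠ 0) (hjD : j1 + D * e ≤ d)
    (hlow : ∀ i < m1, φ.coeff i = 0) (hdeg : φ.natDegree ≤ m1 + D)
    (hI : Osc1I c' d (w ^ (-k) * (tl τ φ).eval w)) : False := by
  have hc' := h.gd'
  obtain ⟨hgX, -⟩ := St.g_facts h
  have hw0 : w ≠ 0 := norm_pos_iff.1 (by rw [h.w1]; exact one_pos)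
  have hI2 : Osc1I c' d ((tl τ φ).eval w) := by
    have h1 := osc1_mul hc' hI (h.w_zpow k).1
    have e2 : (w ^ (-k) * (tl τ φ).eval w) * w ^ k = (tl τ φ).eval w := by
      have e4 : w ^ (-k) * w ^ k = 1 := by
        rw [zpow_neg, inv_mul_cancel₀ (zpow_ne_zero _ hw0)]
      linear_combination ((tl τ φ).eval w) * e4
    rwa [e2] at h1
  have hdiv : g ^ d ∣ φ := (h.pow_iff hr hA (tl_mem hτ φ) (tl_rd hτ φ) d).1 hI2
  have hX : (Polynomial.X : Polynomial F) ^ m1 ∣ φ := Polynomial.X_pow_dvd_iff.2 hlow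
  have hcop : IsCoprime (g ^ d) ((Polynomial.X : Polynomial F) ^ m1) :=
    ((h.gi.coprime_iff_not_dvd).2 hgX).pow
  have h4 := hcop.mul_dvd hdiv hX
  have h5 := Polynomial.natDegree_le_of_dvd h4 hφ0
  rw [Polynomial.natDegree_mul (pow_ne_zero _ h.gi.ne_zero) (pow_ne_zero _ Polynomial.X_ne_zero),
    Polynomial.natDegree_pow, Polynomial.natDegree_pow, Polynomial.natDegree_X] at h5
  have h6 : d * g.natDegree ≤ D := by omega
  have h7 : d * g.natDegree * e ≤ D * e := Nat.mul_le_mul_right e h6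
  have h8 : d * 2 ≤ d * (e * g.natDegree) := Nat.mul_le_mul_left d hef
  have h9 : d * (e * g.natDegree) = d * g.natDegree * e := by ring
  omega

theorem osc1 {e : ℕ} {β : Fin r → ℤ} {w : W} {g : Polynomial F} {G : Polynomial W}
    {T : ((Fin r → ℤ) × ℤ) ≃+ ((Fin r → ℤ) × ℤ)} (hr : 0 < r) (hA : AmbX p r S)
    (h : St S c c' F e β w g G T)
    (he : e = 1 → ∀ (a : Fin r → ℤ) (j : ℤ), T (a, j) = (a + j • β, j))
    (hef : 2 ≤ e * g.natDegree) {τ : F → W} (hτ : Sec c.B F τ) {P : LP F r}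
    (hred : Rdp p c.x P) {b : Fin r → ℤ}
    (hT : ∀ a j, P.coeff (a, j) ≠ 0 → 0 ≤ (T (a + p • b, (j : ℤ))).2)
    {a0 : Fin r → ℤ} {d0 d : ℕ} (hl : Lead c.x P a0 d0) (hd0 : d0 ≤ d) (hd : 2 ≤ d)
    {lam : W} (hlam : LamP p c' lam) (hm : ‖lam‖ ^ p * ‖mon c.x a0‖ < 1) {z E' : W}
    (hz : z = evS τ c.x c.y P + E') (hE : E' ∈ HL c')
    (hE1 : Gn c' E' < ‖mon c.x a0 * c.y ^ d0‖ ∨ Gn c' E' ≤ 1) :
    ∃ α : Fin r → ℤ, ‖mon c'.x α‖ ≤ ‖mon c.x a0‖ ∧ Gn c' z ≤ max 1 ‖mon c'.x α‖ ∧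
      (1 < ‖mon c'.x α‖ → ∀ s ∈ HL c', Gn c' s ^ p ≤ ‖mon c'.x α‖ →
        ∀ (F' : Subfield (RW W)) (τ' : F' → W) (P' : LP F' r) (z' : W), kap c'.B = F' →
          Sec c'.B F' τ' → Sm c' α d z' → gact p lam s z = evS τ' c'.x c'.y P' + z' →
          (∀ a j, P'.coeff (a, j) ≠ 0 → ‖mon c'.x a‖ ≤ ‖mon c'.x α‖) →
            ∃ i < d, P'.coeff (α, i) ≠ 0) := by
  classical
  have hc' := h.gd'
  have hp := hA.prime
  obtain ⟨α, φ, m, a1, j1, m1, D, hn1, hn2, hmT, hφ0, hjD, hlow, hdeg, hTa1, hcoef, q, hq, hGq,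
    hev⟩ := osc_lead hr hA h hτ P b hT hl
  replace hjD := hjD.trans hd0
  set K : W := w ^ (-(p * m : ℤ)) * (tl τ φ).eval w with hK
  have hKm : K ∈ HO c' := mul_mem (h.w_zpow _).1 (h.eval_mem (tl_mem hτ φ))
  have hαK : mon c'.x α * K ∈ HL c' := mul_mem (mon_mem_HL _) (HO_le_HL hKm)
  have hzHL : z ∈ HL c' := by
    rw [hz, hev]
    exact add_mem (add_mem hαK hq) hE
  have hE2 : Gn c' E' ≤ max 1 ‖mon c'.x α‖ := by
    rcases hE1 with h1 | h1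
    · exact le_max_of_le_right (h1.le.trans hn1)
    · exact le_max_of_le_left h1
  have hGz : Gn c' z ≤ max 1 ‖mon c'.x α‖ := by
    rw [hz, hev]
    refine (Gn_add_le hr hA hc' (add_mem hαK hq) hE).trans (max_le ?_ hE2)
    refine (Gn_add_le hr hA hc' hαK hq).trans (max_le ?_ (le_max_of_le_right hGq.le))
    rw [Gn_mul hr hA hc' (mon_mem_HL _) (HO_le_HL hKm), Gn_mon hr hA hc']
    exact le_max_of_le_right (mul_le_of_le_one_right (norm_nonneg _) (Gn_le_one hr hA hc' hKm))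
  refine ⟨α, hn2, hGz, ?_⟩
  intro hα s hs hGs F' τ' P' z' hF' hτ' hSm hga hP'
  by_contra hcon
  push Not at hcon
  have hμ : ‖lam‖ ^ p * ‖mon c'.x α‖ < 1 :=
    (mul_le_mul_of_nonneg_left hn2 (pow_nonneg (norm_nonneg _) _)).trans_lt hm
  have hGz' : Gn c' z ≤ ‖mon c'.x α‖ := by rwa [max_eq_right hα.le] at hGz
  obtain ⟨hR1, -⟩ := gact_mod hr hA hc' hlam hs hzHL hα hμ hGs hGz'
  have hspHL : s ^ p ∈ HL c' := pow_mem hs p
  have hR1m : gact p lam s z - (z + s ^ p) ∈ HL c' :=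
    sub_mem (gact_HL hA hc' hlam hs hzHL).2 (add_mem hzHL hspHL)
  have hGE : Gn c' E' < ‖mon c'.x α‖ := by
    rcases hE1 with h1 | h1
    · exact h1.trans_le hn1
    · exact h1.trans_lt hα
  have hα0 : mon c'.x α ≠ 0 := mon_ne c'.x hc'.ind.ne α
  -- the main congruence
  have hI : Osc1I c' d (K + mon c'.x (-α) * s ^ p) := by
    have h1 := osc1_evS hr hc' hτ' P' hP' hcon
    have h2 : Osc1I c' d (mon c'.x (-α) * z') := by
      obtain ⟨e1, he1, hGe1, e2, he2, rfl⟩ := hSm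
      have e : mon c'.x (-α) * (e1 + mon c'.x α * c'.y ^ d * e2) =
          mon c'.x (-α) * e1 + c'.y ^ d * e2 := by
        rw [mon_neg]
        field_simp
      rw [e]
      exact osc1_add hc' (osc1_small hr hA hc' he1 hGe1) (osc1_y hr hc' he2)
    have h3 := osc1_small (d := d) hr hA hc' hR1m hR1
    have h4 := osc1_small (d := d) hr hA hc' hq hGq
    have h5 := osc1_small (d := d) hr hA hc' hE hGE
    have h6 := osc1_add hc' (osc1_add hc' (osc1_add hc' (osc1_add hc' h1 h2) (osc1_neg hc' h3))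
      (osc1_neg hc' h4)) (osc1_neg hc' h5)
    have e : K + mon c'.x (-α) * s ^ p =
        mon c'.x (-α) * evS τ' c'.x c'.y P' + mon c'.x (-α) * z' +
          -(mon c'.x (-α) * (gact p lam s z - (z + s ^ p))) + -(mon c'.x (-α) * q) +
          -(mon c'.x (-α) * E') := by
      have e1 : mon c'.x (-α) * mon c'.x α = 1 := by
        rw [mon_neg, inv_mul_cancel₀ hα0]
      rw [hga]
      have e2 : z = mon c'.x α * K + q + E' := by rw [hz, hev]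
      linear_combination (-mon c'.x (-α)) * e2 - K * e1
    rw [e]
    exact h6
  by_cases hαp : ∃ α' : Fin r → ℤ, α = p • α'
  · obtain ⟨α', hα'⟩ := hαp
    exact osc1_case1 hr hA h he hef hτ hred hd hα' hmT hφ0 hjD hlow hdeg hTa1 hcoef hs hGs hI
  · have hsp : Gn c' (s ^ p) < ‖mon c'.x α‖ := by
      rw [Gn_pow hr hA hc' hs]
      by_cases hs0 : s = 0
      · rw [hs0, Gn_zero hr hA hc', zero_pow hp.ne_zero]
        exact norm_pos_iff.2 hα0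
      · obtain ⟨b', d', hld⟩ := exists_Ld hr hA hc' hs hs0
        rw [Gn_eq hr hA hc' hld] at hGs ⊢
        refine lt_of_le_of_ne hGs fun h1 => hαp ⟨b', ?_⟩
        rw [← norm_pow, ← mon_nsmul] at h1
        exact (norm_mon_inj hc'.ind h1).symm
    have hI2 : Osc1I c' d K := by
      have h1 := osc1_add hc' hI (osc1_neg hc' (osc1_small (d := d) hr hA hc' hspHL hsp))
      have e : K + mon c'.x (-α) * s ^ p + -(mon c'.x (-α) * s ^ p) = K := by ring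
      rwa [e] at h1
    exact osc1_case2 hr hA h hef hτ hd hφ0 hjD hlow hdeg hI2

end Pool.Agent.Lib.MXP
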