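import Pool.Agent.Lib.MXP.SubS
import Pool.Agent.Lib.MXP.CharX
import Pool.Agent.Lib.TU.PolyU
import Pool.Agent.Lib.TDO.PolyB

set_option autoImplicit false

/-!
# Module MX.Osc2: one stage of the `p`-step, `e f = 1` (paper 5.2)

Write `x := c.x = c'.x`, `y := c.y = x^β (e0 + y')`, `y' := c'.y`.  `‖y‖ = ‖x^β‖ < 1`.  `eb : F` with `rs e0 = eb` (`rs_mem_kap`, `h.hF`), `eb ≠ 0`.  `exists_eps` for `h.st`: `ε < 1` with `Gn c' m ≤ ε` for `m ∈ c.B`, `‖m‖ < 1`.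
`lead_stageX` (LeadX.lean) with `T := shr β`, `e := 1`, `x' := x`, `w := e0 + y'`: `α, a1, j1, m1, D`, `φ := part (shr β) P α ≠ 0`; `m1 = j1`, `natDegree φ ≤ j1 + D ≤ d0`, `‖x^a0 y^d0‖ ≤ ‖x^α‖`, and `‖x^(a + jβ)‖ ≤ ‖x^α‖` for all
exponents `(a, j)` of `P`; `‖x^α‖ = ‖x^a1 y^j1‖ ≤ ‖x^a0‖`.  `subS` (`B0 := c.B`, `M := ‖x^α‖`): `P2` with `P2.coeff (α, i) = t_i := (taylor eb φ).coeff i`, `Gn c' (evS τ x y P - evS τ x y' P2) ≤ ε ‖x^α‖ < ‖x^α‖`.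
So `z = evS τ x y' P2 + E1`, the exponents `a` of `P2` have `‖x^a‖ ≤ ‖x^α‖` (`sub_supp`): `Gn c' z ≤ max 1 ‖x^α‖`.  Let `1 < ‖x^α‖`: `Gn c' E1 < ‖x^α‖`.
Let `I_n := y'^n HO c' + QH c'` (an ideal of `HO c'`), it contains no `y'^i v` with `i < n`, `‖v‖ = 1`, `v ∈ HO c'` (`Ld.unique`: `x^0 (y'^i v + q) = ..`, or `y_pow_not_QH`).  FACT: if `u_i ∈ F` and
`∑_(i < n) τ(u_i) y'^i ∈ I_n` then all `u_i = 0` (take the least `i` with `u_i ≠ 0`: `‖τ u_i‖ = 1`).  The elements of `c.B` of norm `< 1` (and `p`) are in `QH c'` (`StR`: `St.lt_one`): `τ (u + v) - τ u - τ v ∈ QH c'`, `τ (u v) - τ u τ v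
∈ QH c'`, `τ u ^ p - τ (u ^ p) ∈ QH c'`.
Let `s, τ', P', z'` be as in the conclusion, `P'.coeff (α, i) = 0` for `i < d`.  `gact_mod` (`μ := ‖x^α‖`) and `Sm`: dividing by `x^α` (`Gn < ‖x^α‖` means `x^α QH c'`, exponents `a ≠ α` of `P2`, `P'` give `QH c'`):
`∑_i τ(t_i) y'^i + x^(-α) s^p ≡ τ' (P'.coeff (α, d)) y'^d` modulo `I_(d+1)`.
CASE 2: `α` is not in `p ℤ^r`: then `Gn c' s ^ p < ‖x^α‖` (as in Osc1.lean), `x^(-α) s^p ∈ QH c'`.  FACT (with `n = d`): `t_i = 0` for `i < d`; `taylor_eq_case` (TDO/PolyB.lean): `φ.coeff 0 ≠ 0`, `φ.coeff d ≠ 0`, `t_d ≠ 0`.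
`P'.coeff (α, d) ≠ 0`: otherwise `τ(t_d) y'^d ∈ I_(d+1)`.
CASE 1: `α = p • α'`, `s = x^α' η`, `η ∈ HO c'`.  `η ≡ ∑_(i ≤ d) τ(h_i) y'^i` modulo `I_(d+1)`: induction with: every `h ∈ HO c'` is `τ(e) + y' h1 + q` (`kap c'.B = F`; `HO_dec`, HOb.lean).  `η^p ≡ ∑_(i ≤ d) τ(h_i^p) y'^(p i)` modulo
`I_(d+1)` (`(u + v)^p - u^p - v^p ∈ p HO c' ≤ QH c'`: `(add_pow_char)`-like divisibility of the binomial coefficients).  So with `T_j := t_j + h_(j/p)^p` if `p ∣ j`, `T_j := t_j` otherwise: `∑_(j ≤ d) τ(T_j) y'^j ≡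
τ' (P'.coeff (α, d)) y'^d` modulo `I_(d+1)`.  So `T_j = 0` for `j < d`, and `T_d = 0` if `P'.coeff (α, d) = 0`.  For `j < d`, `t_j ≠ 0`: `p ∣ j` and `t_j = -h^p = (-h)^p` (characteristic `p`, `charP_F`).  `TU.polyU` for `φ` and
`eb`: `hφ`: otherwise take `n` with `φ.coeff n ≠ 0`: `P.coeff (α - nβ, n) = φ.coeff n` (`part_coeff`, `part_coeff_ne`), `p ∣ n`, `α - nβ ∈ p ℤ^r`: `PT`, against `Rdp`.  So `φ.coeff d ≠ 0`, `t_d` is not of `p`-type: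
`T_d ≠ 0`, `P'.coeff (α, d) ≠ 0`; `φ.coeff 0 ≠ 0` or `φ.coeff 1 ≠ 0`.
(Here `natDegree φ ≤ d0 ≤ d`, and `φ.coeff d ≠ 0` gives `d0 = d`.)  In both cases `φ.coeff d ≠ 0`: `P.coeff (α - dβ, d) ≠ 0`, so `‖x^(α - dβ)‖ ≤ ‖x^a0‖`; and `‖x^(a0 + dβ)‖ ≤ ‖x^α‖`: `α = a0 + dβ` (`norm_mon_inj`).  `φ.coeff 0 ≠ 0`: `P.coeff (α, 0) ≠ 0`; `φ.coeff 1 ≠ 0`: `P.coeff (α - β, 1) ≠ 0`,
`α - β = a0 + (d-1)β`.
-/

namespace Pool.Agent.Lib.MXP

open Pool.Agent.Lib.MP_3029eb_ag Pool.Agent.Lib.MP_3029eb_ag.Abh Pool.Agent.Lib.TDO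

section alg

open Polynomial

variable {C A : Type} [Field C] [CommRing A] (θ : C →+* A) (Y : A)

/-- polynomials in `Y` divisible by `Y ^ n` -/
private theorem osc2_low (hY : ∀ (n : ℕ) (e : C), e ≠ 0 → ∀ a : A, θ e * Y ^ n ≠ Y ^ (n + 1) * a)
    (R : C[X]) {n : ℕ} {b : A} (h : R.eval₂ θ Y = Y ^ n * b) : ∀ i < n, R.coeff i = 0 := by
  classical
  by_contra hcon
  push Not at hcon
  obtain ⟨i0, hi0, hne0⟩ := hcon
  have hex : ∃ i, R.coeff i ≠ 0 := ⟨i0, hne0⟩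
  set i := Nat.find hex with hi
  have hci : R.coeff i ≠ 0 := Nat.find_spec hex
  have hlow : ∀ j < i, R.coeff j = 0 := fun j hj => by
    by_contra h1
    exact Nat.find_min hex hj h1
  have hin : i < n := lt_of_le_of_lt (Nat.find_min' hex hne0) hi0
  obtain ⟨R1, hR1⟩ := X_pow_dvd_iff.2 hlow
  have hc0 : R1.coeff 0 = R.coeff i := by
    rw [hR1, coeff_X_pow_mul', if_pos le_rfl, Nat.sub_self]
  have h1 : R1 = Polynomial.X * R1.divX + Polynomial.C (R1.coeff 0) := (X_mul_divX_add R1).symm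
  have h2 : R.eval₂ θ Y = Y ^ i * (Y * R1.divX.eval₂ θ Y + θ (R.coeff i)) := by
    rw [← hc0]
    conv_lhs => rw [hR1, h1]
    rw [eval₂_mul, eval₂_X_pow, eval₂_add, eval₂_mul, eval₂_X, eval₂_C]
  refine hY i (R.coeff i) hci (Y ^ (n - i - 1) * b - R1.divX.eval₂ θ Y) ?_
  have h3 : Y ^ n = Y ^ (i + 1) * Y ^ (n - i - 1) := by
    rw [← pow_add]
    congr 1
    omega
  rw [h2, h3] at h
  rw [pow_succ] at h ⊢
  linear_combination h

/-- the digits of an element -/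
private theorem osc2_dig (hdec : ∀ h : A, ∃ (e : C) (h1 : A), h = θ e + Y * h1) (n : ℕ) (η : A) :
    ∃ (g : C[X]) (a : A), η = g.eval₂ θ Y + Y ^ n * a := by
  induction n with
  | zero => exact ⟨0, η, by rw [eval₂_zero, pow_zero, one_mul, zero_add]⟩
  | succ n ih =>
    obtain ⟨g, a, h⟩ := ih
    obtain ⟨e, a1, ha⟩ := hdec a
    refine ⟨g + Polynomial.X ^ n * Polynomial.C e, a1, ?_⟩
    rw [eval₂_add, eval₂_mul, eval₂_X_pow, eval₂_C, h, ha]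
    ring

private theorem osc2_coeff (p : ℕ) [hp : Fact p.Prime] [CharP C p] (g : C[X]) (i : ℕ)
    (hi : (g ^ p).coeff i ≠ 0) : p ∣ i ∧ ∃ b : C, (g ^ p).coeff i = b ^ p := by
  rw [← map_frobenius_expand (R := C) p g, coeff_map] at hi ⊢
  rw [coeff_expand hp.out.pos] at hi ⊢
  by_cases hpi : p ∣ i
  · refine ⟨hpi, g.coeff (i / p), ?_⟩
    rw [if_pos hpi, frobenius_def]
  · rw [if_neg hpi] at hi
    exact absurd (map_zero _) hi

/-- The main point: if `Q(Y) + η ^ p` is divisible by `Y ^ n`, the low terms of `Q` are of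
`p`-type. -/
private theorem osc2_ptype (p : ℕ) [hp : Fact p.Prime] [CharP C p] [Nontrivial A]
    (hY : ∀ (n : ℕ) (e : C), e ≠ 0 → ∀ a : A, θ e * Y ^ n ≠ Y ^ (n + 1) * a)
    (hdec : ∀ h : A, ∃ (e : C) (h1 : A), h = θ e + Y * h1)
    (Q : C[X]) {n : ℕ} {η b : A} (h : Q.eval₂ θ Y + η ^ p = Y ^ n * b) :
    ∀ i < n, Q.coeff i ≠ 0 → p ∣ i ∧ ∃ b : C, Q.coeff i = b ^ p := by
  intro i hi hQi
  have : CharP A p := charP_of_injective_ringHom θ.injective p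
  obtain ⟨g, a, hg⟩ := osc2_dig θ Y hdec n η
  have h1 : η ^ p = (g ^ p).eval₂ θ Y + Y ^ n * (Y ^ (n * (p - 1)) * a ^ p) := by
    have h2 : Y ^ n * (Y ^ (n * (p - 1)) * a ^ p) = (Y ^ n * a) ^ p := by
      rw [mul_pow, ← pow_mul, ← mul_assoc, ← pow_add]
      congr 2
      obtain ⟨q, hq⟩ : ∃ q, p = q + 1 := ⟨p - 1, by have := hp.out.pos; omega⟩
      rw [hq, Nat.add_sub_cancel]
      ring
    rw [h2, eval₂_pow, ← add_pow_char, ← hg]
  have h2 : (Q + g ^ p).eval₂ θ Y = Y ^ n * (b - Y ^ (n * (p - 1)) * a ^ p) := by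
    rw [eval₂_add]
    linear_combination h - h1
  have h3 := osc2_low θ Y hY _ h2 i hi
  have h4 : (-g) ^ p = -(g ^ p) := by
    have h5 : (-g) ^ p = (0 - g) ^ p := by rw [zero_sub]
    rw [h5, sub_pow_char, zero_pow hp.out.ne_zero, zero_sub]
  have h6 : Q.coeff i = ((-g) ^ p).coeff i := by
    rw [coeff_add] at h3
    rw [h4, coeff_neg]
    exact eq_neg_of_add_eq_zero_left h3
  rw [h6] at hQi ⊢
  exact osc2_coeff p (-g) i hQi

end alg


variable {E W : Type} [Field E] [NormedField W] [IsUltrametricDist W] [Algebra E W] {r p : ℕ}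
  {S : IntermediateField E W} {c c' : Tri W r} {F : Subfield (RW W)}
  [Fact ((p : W) = 0)]

/-- the ideal generated by `y ^ n` and the monomials of norm less than one -/
private def Osc2I (c : Tri W r) (n : ℕ) (z : W) : Prop :=
  ∃ a ∈ HO c, ∃ q ∈ QH c, z = c.y ^ n * a + q

private theorem osc2_add (hc : Gd S c) {d : ℕ} {z z' : W} (h : Osc2I c d z) (h' : Osc2I c d z') :
    Osc2I c d (z + z') := by
  obtain ⟨a, ha, q, hq, rfl⟩ := h
  obtain ⟨a', ha', q', hq', rfl⟩ := h'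
  exact ⟨a + a', add_mem ha ha', q + q', QH_add hc hq hq', by ring⟩

private theorem osc2_neg (hc : Gd S c) {d : ℕ} {z : W} (h : Osc2I c d z) : Osc2I c d (-z) := by
  obtain ⟨a, ha, q, hq, rfl⟩ := h
  exact ⟨-a, neg_mem ha, -q, QH_neg hc hq, by ring⟩

private theorem osc2_QH {d : ℕ} {q : W} (h : q ∈ QH c) : Osc2I c d q :=
  ⟨0, zero_mem _, q, h, by ring⟩

private theorem osc2_y (hr : 0 < r) (hc : Gd S c) {d : ℕ} {u : W} (h : u ∈ HO c) :
    Osc2I c d (c.y ^ d * u) :=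
  ⟨u, h, 0, QH_zero hc hr, by ring⟩

private theorem osc2_mono (hc : Gd S c) {d n : ℕ} (hdn : n ≤ d) {z : W} (h : Osc2I c d z) :
    Osc2I c n z := by
  obtain ⟨a, ha, q, hq, rfl⟩ := h
  refine ⟨c.y ^ (d - n) * a, mul_mem (pow_mem (y_mem_HO hc) _) ha, q, hq, ?_⟩
  rw [← mul_assoc, ← pow_add, Nat.add_sub_cancel' hdn]

private theorem osc2_sum (hr : 0 < r) (hc : Gd S c) {d : ℕ} {ι : Type*} (t : Finset ι)
    (f : ι → W) (h : ∀ i ∈ t, Osc2I c d (f i)) : Osc2I c d (∑ i ∈ t, f i) := by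
  classical
  induction t using Finset.induction_on with
  | empty => rw [Finset.sum_empty]; exact osc2_QH (QH_zero hc hr)
  | insert i t hi ih =>
    rw [Finset.sum_insert hi]
    exact osc2_add hc (h i (Finset.mem_insert_self _ _))
      (ih fun j hj => h j (Finset.mem_insert_of_mem hj))

private theorem osc2_smallQ (hr : 0 < r) (hA : AmbX p r S) (hc : Gd S c) {u : W}
    (hu : u ∈ HL c) {α : Fin r → ℤ} (h : Gn c u < ‖mon c.x α‖) :
    mon c.x (-α) * u ∈ QH c := by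
  refine (Gn_lt_one_iff hr hA hc (mul_mem (mon_mem_HL _) hu)).1 ?_
  have h0 : 0 < ‖mon c.x α‖ := norm_pos_iff.2 (mon_ne c.x hc.ind.ne α)
  rw [Gn_mul hr hA hc (mon_mem_HL _) hu, Gn_mon hr hA hc, mon_neg, norm_inv,
    inv_mul_lt_iff₀ h0, mul_one]
  exact h

private theorem osc2_evS (hr : 0 < r) (hc : Gd S c) {d : ℕ} {τ : F → W} (hτ : Sec c.B F τ)
    (P : LP F r) {α : Fin r → ℤ} (h1 : ∀ a j, P.coeff (a, j) ≠ 0 → ‖mon c.x a‖ ≤ ‖mon c.x α‖)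
    (h2 : ∀ i < d, P.coeff (α, i) = 0) : Osc2I c d (mon c.x (-α) * evS τ c.x c.y P) := by
  unfold evS Finsupp.sum
  rw [Finset.mul_sum]
  refine osc2_sum hr hc _ _ fun n hn => ?_
  have hn0 : P.coeff (n.1, n.2) ≠ 0 := Finsupp.mem_support_iff.1 hn
  have hτm : τ (P.coeff n) ∈ HO c := B_mem_HO hc (hτ.mem _)
  have hα0 : mon c.x α ≠ 0 := mon_ne c.x hc.ind.ne α
  by_cases hna : n.1 = α
  · have hd : d ≤ n.2 := by
      by_contra hlt
      rw [hna] at hn0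
      exact hn0 (h2 n.2 (not_le.1 hlt))
    have e : mon c.x (-α) * (τ (P.coeff n) * (mon c.x n.1 * c.y ^ n.2)) =
        c.y ^ d * (τ (P.coeff n) * c.y ^ (n.2 - d)) := by
      have hy : c.y ^ n.2 = c.y ^ d * c.y ^ (n.2 - d) := by
        rw [← pow_add, Nat.add_sub_cancel' hd]
      rw [hna, mon_neg, hy]
      field_simp
    rw [e]
    exact osc2_y hr hc (mul_mem hτm (pow_mem (y_mem_HO hc) _))
  · have e : mon c.x (-α) * (τ (P.coeff n) * (mon c.x n.1 * c.y ^ n.2)) =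
        mon c.x (n.1 + -α) * (τ (P.coeff n) * c.y ^ n.2) := by
      rw [mon_add c.x hc.ind.ne]
      ring
    rw [e]
    refine osc2_QH (mon_mul_mem_QH hc ?_ (mul_mem hτm (pow_mem (y_mem_HO hc) _)))
    have h3 := h1 n.1 n.2 hn0
    have hα1 : 0 < ‖mon c.x α‖ := norm_pos_iff.2 hα0
    rw [mon_add _ hc.ind.ne, mon_neg, norm_mul, norm_inv, mul_inv_lt_iff₀ hα1, one_mul]
    exact lt_of_le_of_ne h3 fun h4 => hna (norm_mon_inj hc.ind h4)

/-- The part of `evS` with exponent `α`. -/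
private theorem osc2_part (hr : 0 < r) (hc : Gd S c) {τ : F → W} (hτ0 : τ 0 = 0)
    (hτ : ∀ u, τ u ∈ HO c) (P : LP F r) {α : Fin r → ℤ}
    (h1 : ∀ a j, P.coeff (a, j) ≠ 0 → ‖mon c.x a‖ ≤ ‖mon c.x α‖) (Q : Polynomial F)
    (hQ : ∀ i, P.coeff (α, i) = Q.coeff i) :
    mon c.x (-α) * evS τ c.x c.y P - (tl τ Q).eval c.y ∈ QH c := by
  classical
  have hα0 : mon c.x α ≠ 0 := mon_ne c.x hc.ind.ne α
  have e0 : (tl τ Q).eval c.y = mon c.x (-α) *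
      ∑ n ∈ P.coeff.support.filter (fun n => n.1 = α), τ (P.coeff n) * (mon c.x n.1 * c.y ^ n.2) := by
    rw [tl_eval hτ0, Finset.mul_sum]
    symm
    refine Finset.sum_nbij (fun n => n.2) ?_ ?_ ?_ ?_
    · intro n hn
      rw [Finset.mem_filter, Finsupp.mem_support_iff] at hn
      rw [Polynomial.mem_support_iff, ← hQ, ← hn.2]
      exact hn.1
    · intro n hn n' hn' hnn
      rw [Finset.mem_coe, Finset.mem_filter] at hn hn'
      exact Prod.ext (hn.2.trans hn'.2.symm) hnn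
    · intro j hj
      rw [Finset.mem_coe, Polynomial.mem_support_iff, ← hQ] at hj
      refine ⟨(α, j), ?_, rfl⟩
      rw [Finset.mem_coe, Finset.mem_filter, Finsupp.mem_support_iff]
      exact ⟨hj, rfl⟩
    · intro n hn
      rw [Finset.mem_filter] at hn
      have h2 : P.coeff n = Q.coeff n.2 := by
        rw [← hQ, ← hn.2]
      rw [h2, hn.2, mon_neg]
      field_simp
  have e1 : evS τ c.x c.y P =
      ∑ n ∈ P.coeff.support.filter (fun n => n.1 = α), τ (P.coeff n) * (mon c.x n.1 * c.y ^ n.2) +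
      ∑ n ∈ P.coeff.support.filter (fun n => ¬ n.1 = α),
        τ (P.coeff n) * (mon c.x n.1 * c.y ^ n.2) := by
    rw [Finset.sum_filter_add_sum_filter_not]
    rfl
  rw [e0, e1, mul_add, add_sub_cancel_left, Finset.mul_sum]
  refine QH_sum hr hc _ _ fun n hn => ?_
  rw [Finset.mem_filter] at hn
  have hn0 : P.coeff (n.1, n.2) ≠ 0 := Finsupp.mem_support_iff.1 hn.1
  have e : mon c.x (-α) * (τ (P.coeff n) * (mon c.x n.1 * c.y ^ n.2)) =
      mon c.x (n.1 + -α) * (τ (P.coeff n) * c.y ^ n.2) := by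
    rw [mon_add c.x hc.ind.ne]
    ring
  rw [e]
  refine mon_mul_mem_QH hc ?_ (mul_mem (hτ _) (pow_mem (y_mem_HO hc) _))
  have h3 := h1 n.1 n.2 hn0
  have hα1 : 0 < ‖mon c.x α‖ := norm_pos_iff.2 hα0
  rw [mon_add _ hc.ind.ne, mon_neg, norm_mul, norm_inv, mul_inv_lt_iff₀ hα1, one_mul]
  exact lt_of_le_of_ne h3 fun h4 => hn.2 (norm_mon_inj hc.ind h4)

/-- the ideal `QH c` of `HO c` -/
private def Osc2Q (hr : 0 < r) (hc : Gd S c) : Ideal (HO c) where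
  carrier := {z | (z : W) ∈ QH c}
  add_mem' := fun h h' => QH_add hc h h'
  zero_mem' := QH_zero hc hr
  smul_mem' := fun a z h => by
    have h1 := QH_mul hc (h : (z : W) ∈ QH c) a.2
    rw [mul_comm] at h1
    exact h1

private theorem osc2_mem (hr : 0 < r) (hc : Gd S c) (z : HO c) :
    z ∈ Osc2Q hr hc ↔ (z : W) ∈ QH c := Iff.rfl

private theorem osc2_mk (hr : 0 < r) (hc : Gd S c) (z z' : HO c) :
    Ideal.Quotient.mk (Osc2Q hr hc) z = Ideal.Quotient.mk (Osc2Q hr hc) z' ↔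
      (z : W) - (z' : W) ∈ QH c := by
  rw [Ideal.Quotient.eq, osc2_mem]
  rfl

/-- The homomorphism of `F` to `HO c / QH c`. -/
private noncomputable def Osc2T (hr : 0 < r) (hc : Gd S c) (τ : F → W) (hτ : ∀ u, τ u ∈ HO c)
    (h0 : τ 0 = 0) (h1 : τ 1 - 1 ∈ QH c) (hadd : ∀ u v, τ (u + v) - (τ u + τ v) ∈ QH c)
    (hmul : ∀ u v, τ (u * v) - τ u * τ v ∈ QH c) : F →+* (HO c ⧸ Osc2Q hr hc) where
  toFun u := Ideal.Quotient.mk (Osc2Q hr hc) ⟨τ u, hτ u⟩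
  map_one' := by
    rw [← map_one (Ideal.Quotient.mk (Osc2Q hr hc)), osc2_mk]
    exact h1
  map_mul' u v := by
    rw [← map_mul, osc2_mk]
    exact hmul u v
  map_zero' := by
    rw [← map_zero (Ideal.Quotient.mk (Osc2Q hr hc)), osc2_mk]
    change τ 0 - 0 ∈ QH c
    rw [h0, sub_zero]
    exact QH_zero hc hr
  map_add' u v := by
    rw [← map_add, osc2_mk]
    exact hadd u v

private theorem osc2_eval (hr : 0 < r) (hc : Gd S c) {τ : F → W} (hτ : ∀ u, τ u ∈ HO c)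
    (h0 : τ 0 = 0) (θ : F →+* (HO c ⧸ Osc2Q hr hc))
    (hθ : ∀ u, θ u = Ideal.Quotient.mk (Osc2Q hr hc) ⟨τ u, hτ u⟩) (Q : Polynomial F)
    (hm : (tl τ Q).eval c.y ∈ HO c) :
    Q.eval₂ θ (Ideal.Quotient.mk (Osc2Q hr hc) ⟨c.y, y_mem_HO hc⟩) =
      Ideal.Quotient.mk (Osc2Q hr hc) ⟨(tl τ Q).eval c.y, hm⟩ := by
  rw [Polynomial.eval₂_eq_sum]
  unfold Polynomial.sum
  have e : (⟨(tl τ Q).eval c.y, hm⟩ : HO c) =
      ∑ i ∈ Q.support, (⟨τ (Q.coeff i), hτ _⟩ : HO c) * ⟨c.y, y_mem_HO hc⟩ ^ i := by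
    apply Subtype.ext
    rw [AddSubmonoidClass.coe_finsetSum]
    change (tl τ Q).eval c.y = _
    rw [tl_eval h0]
    rfl
  rw [e, map_sum]
  refine Finset.sum_congr rfl fun i _ => ?_
  dsimp only
  rw [hθ, map_mul, map_pow]

private theorem osc2_setup {β : Fin r → ℤ} {e0 : W} (hr : 0 < r) (hA : AmbX p r S)
    (h : St1 S c c' F β e0) {τ : F → W} (hτ : Sec c.B F τ) :
    ∃ (A : Type) (_ : CommRing A) (_ : Nontrivial A) (θ : F →+* A) (Y : A) (π : HO c' →+* A),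
      (∀ (n : ℕ) (e : F), e ≠ 0 → ∀ a : A, θ e * Y ^ n ≠ Y ^ (n + 1) * a) ∧
      (∀ h : A, ∃ (e : F) (h1 : A), h = θ e + Y * h1) ∧
      (∀ z : HO c', (z : W) ∈ QH c' → π z = 0) ∧
      (∀ z : HO c', (z : W) = c'.y → π z = Y) ∧
      ∀ (Q : Polynomial F) (z : HO c'), (z : W) = (tl τ Q).eval c'.y → π z = Q.eval₂ θ Y := by
  have hc := h.st.gd
  have hc' := h.st.gd'
  have hm : ∀ u, τ u ∈ HO c' := fun u => B_mem_HO hc' (h.st.B_le (hτ.mem u))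
  have hQ : ∀ m ∈ c.B, ‖m‖ < 1 → m ∈ QH c' := fun m hmB h1 =>
    RfS.lt_one hr h.st Relation.ReflTransGen.refl (B_mem_HO hc hmB) h1
  have hn1 : ‖(1 : W)‖ ≤ 1 := by rw [norm_one]
  have h1 : τ 1 - 1 ∈ QH c' := by
    refine hQ _ (sub_mem (hτ.mem 1) (one_mem _)) ((rs_eq_iff (hτ.norm 1) hn1).1 ?_)
    rw [hτ.rs, rs_one]
    rfl
  have hadd : ∀ u v, τ (u + v) - (τ u + τ v) ∈ QH c' := by
    intro u v
    refine hQ _ (sub_mem (hτ.mem _) (add_mem (hτ.mem u) (hτ.mem v)))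
      ((rs_eq_iff (hτ.norm _) ?_).1 ?_)
    · exact hc.norm_le (add_mem (hτ.mem u) (hτ.mem v))
    · rw [rs_add (hτ.norm u) (hτ.norm v), hτ.rs, hτ.rs, hτ.rs]
      rfl
  have hmul : ∀ u v, τ (u * v) - τ u * τ v ∈ QH c' := by
    intro u v
    refine hQ _ (sub_mem (hτ.mem _) (mul_mem (hτ.mem u) (hτ.mem v)))
      ((rs_eq_iff (hτ.norm _) ?_).1 ?_)
    · exact hc.norm_le (mul_mem (hτ.mem u) (hτ.mem v))
    · rw [rs_mul (hτ.norm u) (hτ.norm v), hτ.rs, hτ.rs, hτ.rs]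
      rfl
  have hnt : Nontrivial (HO c' ⧸ Osc2Q hr hc') := by
    refine ⟨0, 1, fun h01 => ?_⟩
    have h2 : Ideal.Quotient.mk (Osc2Q hr hc') 0 = Ideal.Quotient.mk (Osc2Q hr hc') 1 := by
      rw [map_zero, map_one]
      exact h01
    have h3 := QH_norm hc' ((osc2_mk hr hc' _ _).1 h2)
    change ‖(0 : W) - 1‖ < 1 at h3
    rw [zero_sub, norm_neg, norm_one] at h3
    exact lt_irrefl _ h3
  refine ⟨HO c' ⧸ Osc2Q hr hc', inferInstance, hnt, Osc2T hr hc' τ hm hτ.zero h1 hadd hmul,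
    Ideal.Quotient.mk (Osc2Q hr hc') ⟨c'.y, y_mem_HO hc'⟩, Ideal.Quotient.mk (Osc2Q hr hc'),
    ?_, ?_, ?_, ?_, ?_⟩
  · intro n e he a ha
    obtain ⟨a', rfl⟩ := Ideal.Quotient.mk_surjective a
    have h2 : Ideal.Quotient.mk (Osc2Q hr hc') (⟨τ e, hm e⟩ * ⟨c'.y, y_mem_HO hc'⟩ ^ n) =
        Ideal.Quotient.mk (Osc2Q hr hc') (⟨c'.y, y_mem_HO hc'⟩ ^ (n + 1) * a') := by
      rw [map_mul, map_mul, map_pow, map_pow]
      exact ha
    have h3 : τ e * c'.y ^ n - c'.y ^ (n + 1) * (a' : W) ∈ QH c' := (osc2_mk hr hc' _ _).1 h2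
    have hv : τ e - c'.y * a' ∈ HO c' := sub_mem (hm e) (mul_mem (y_mem_HO hc') a'.2)
    have hv1 : ‖τ e - c'.y * (a' : W)‖ = 1 := by
      have h4 : ‖-(c'.y * (a' : W))‖ < 1 := by
        rw [norm_neg, norm_mul]
        exact lt_of_le_of_lt (mul_le_of_le_one_right (norm_nonneg _) (HO_norm_le hc' a'.2)) hc'.y1
      have h5 := hτ.norm_one he
      rw [sub_eq_add_neg, IsUltrametricDist.norm_add_eq_max_of_norm_ne_norm
        (by rw [h5]; exact h4.ne'), h5, max_eq_left h4.le]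
    have hv0 : τ e - c'.y * (a' : W) ≠ 0 := norm_pos_iff.1 (by rw [hv1]; exact one_pos)
    have h4 := QH_mul hc' h3 (inv_mem_HO hc' hv hv1)
    have e1 : (τ e * c'.y ^ n - c'.y ^ (n + 1) * (a' : W)) * (τ e - c'.y * (a' : W))⁻¹ =
        c'.y ^ n := by
      rw [mul_inv_eq_iff_eq_mul₀ hv0]
      ring
    rw [e1] at h4
    exact y_pow_not_QH hr hA hc' n h4
  · intro a
    obtain ⟨z, rfl⟩ := Ideal.Quotient.mk_surjective a
    obtain ⟨e, he, q, hq, b, hb, hz⟩ := HO_dec hr hc' z.2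
    have hre : rs e ∈ F := by
      rw [← h.hF']
      exact rs_mem_kap he
    have he1 : ‖e‖ ≤ 1 := hc'.norm_le he
    have h2 : ‖e - τ ⟨rs e, hre⟩‖ < 1 := (rs_eq_iff he1 (hτ.norm _)).1 (by rw [hτ.rs])
    obtain ⟨q', hq', b', hb', hz'⟩ := HO_gen hr hc' (sub_mem (B_mem_HO hc' he) (hm _)) h2
    refine ⟨⟨rs e, hre⟩, Ideal.Quotient.mk (Osc2Q hr hc') ⟨b + b', add_mem hb hb'⟩, ?_⟩
    have h3 : Ideal.Quotient.mk (Osc2Q hr hc') z = Ideal.Quotient.mk (Osc2Q hr hc')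
        (⟨τ ⟨rs e, hre⟩, hm _⟩ + ⟨c'.y, y_mem_HO hc'⟩ * ⟨b + b', add_mem hb hb'⟩) := by
      rw [osc2_mk]
      change (z : W) - (τ ⟨rs e, hre⟩ + c'.y * (b + b')) ∈ QH c'
      have e1 : (z : W) - (τ ⟨rs e, hre⟩ + c'.y * (b + b')) = q + q' := by
        linear_combination hz + hz'
      rw [e1]
      exact QH_add hc' hq hq'
    rw [h3, map_add, map_mul]
    rfl
  · intro z hz
    rw [← map_zero (Ideal.Quotient.mk (Osc2Q hr hc')), osc2_mk]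
    change (z : W) - 0 ∈ QH c'
    rw [sub_zero]
    exact hz
  · intro z hz
    congr 1
    exact Subtype.ext hz
  · intro Q z hz
    have hmz : (tl τ Q).eval c'.y ∈ HO c' := by rw [← hz]; exact z.2
    rw [osc2_eval hr hc' hm hτ.zero _ (fun _ => rfl) Q hmz]
    congr 1
    exact Subtype.ext hz

private theorem osc2_tlm {β : Fin r → ℤ} {e0 : W} (h : St1 S c c' F β e0) {τ : F → W}
    (hτ : Sec c.B F τ) (Q : Polynomial F) : (tl τ Q).eval c'.y ∈ HO c' := by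
  have hc' := h.st.gd'
  rw [tl_eval hτ.zero]
  exact sum_mem fun j _ => mul_mem (B_mem_HO hc' (h.st.B_le (hτ.mem _)))
    (pow_mem (y_mem_HO hc') _)

private theorem osc2_core {β : Fin r → ℤ} {e0 : W} (hr : 0 < r) (hA : AmbX p r S)
    (h : St1 S c c' F β e0) {τ : F → W} (hτ : Sec c.B F τ) (Q : Polynomial F) {n : ℕ} {η : W}
    (hη : η ∈ HO c') (hI : Osc2I c' n ((tl τ Q).eval c'.y + η ^ p)) :
    ∀ i < n, Q.coeff i ≠ 0 → p ∣ i ∧ ∃ b : F, Q.coeff i = b ^ p := by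
  have : Fact p.Prime := ⟨hA.prime⟩
  have : CharP F p := charP_F hA F
  have hc' := h.st.gd'
  obtain ⟨A, i1, i2, θ, Y, π, hY, hdec, hπ0, hπY, hπQ⟩ := osc2_setup hr hA h hτ
  obtain ⟨a, ha, q, hq, hz⟩ := hI
  have hqm : q ∈ HO c' := QH_mem_HO hc' hq
  have e1 : (⟨(tl τ Q).eval c'.y, osc2_tlm h hτ Q⟩ : HO c') + ⟨η, hη⟩ ^ p =
      ⟨c'.y, y_mem_HO hc'⟩ ^ n * ⟨a, ha⟩ + ⟨q, hqm⟩ := Subtype.ext hz
  have e2 := congrArg π e1
  rw [map_add, map_add, map_mul, map_pow, map_pow, hπ0 ⟨q, hqm⟩ hq, hπY ⟨c'.y, y_mem_HO hc'⟩ rfl,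
    hπQ Q ⟨(tl τ Q).eval c'.y, osc2_tlm h hτ Q⟩ rfl, add_zero] at e2
  exact osc2_ptype θ Y p hY hdec Q e2

private theorem osc2_core0 {β : Fin r → ℤ} {e0 : W} (hr : 0 < r) (hA : AmbX p r S)
    (h : St1 S c c' F β e0) {τ : F → W} (hτ : Sec c.B F τ) (Q : Polynomial F) {n : ℕ}
    (hI : Osc2I c' n ((tl τ Q).eval c'.y)) : ∀ i < n, Q.coeff i = 0 := by
  have hc' := h.st.gd'
  obtain ⟨A, i1, i2, θ, Y, π, hY, hdec, hπ0, hπY, hπQ⟩ := osc2_setup hr hA h hτ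
  obtain ⟨a, ha, q, hq, hz⟩ := hI
  have hqm : q ∈ HO c' := QH_mem_HO hc' hq
  have e1 : (⟨(tl τ Q).eval c'.y, osc2_tlm h hτ Q⟩ : HO c') =
      ⟨c'.y, y_mem_HO hc'⟩ ^ n * ⟨a, ha⟩ + ⟨q, hqm⟩ := Subtype.ext hz
  have e2 := congrArg π e1
  rw [map_add, map_mul, map_pow, hπ0 ⟨q, hqm⟩ hq, hπY ⟨c'.y, y_mem_HO hc'⟩ rfl,
    hπQ Q ⟨(tl τ Q).eval c'.y, osc2_tlm h hτ Q⟩ rfl, add_zero] at e2
  exact osc2_low θ Y hY Q e2

theorem osc2 {β : Fin r → ℤ} {e0 : W} (hr : 0 < r) (hA : AmbX p r S)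
    (h : St1 S c c' F β e0) {τ : F → W} (hτ : Sec c.B F τ) {P : LP F r}
    (hred : Rdp p c.x P) {a0 : Fin r → ℤ} {d0 d : ℕ} (hl : Lead c.x P a0 d0) (hd0 : d0 ≤ d)
    (hd : 1 ≤ d)
    {lam : W} (hlam : LamP p c' lam) (hm : ‖lam‖ ^ p * ‖mon c.x a0‖ < 1) {z E' : W}
    (hz : z = evS τ c.x c.y P + E') (hE : E' ∈ HL c')
    (hE1 : Gn c' E' < ‖mon c.x a0 * c.y ^ d0‖ ∨ Gn c' E' ≤ 1) :
    ∃ α : Fin r → ℤ, ‖mon c'.x α‖ ≤ ‖mon c.x a0‖ ∧
      (∀ a j, P.coeff (a, j) ≠ 0 → ‖mon c.x a * c.y ^ j‖ ≤ ‖mon c'.x α‖) ∧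
      Gn c' z ≤ max 1 ‖mon c'.x α‖ ∧
      (1 < ‖mon c'.x α‖ → ∀ s ∈ HL c', Gn c' s ^ p ≤ ‖mon c'.x α‖ →
        ∀ (τ' : F → W) (P' : LP F r) (z' : W), Sec c'.B F τ' → Sm c' α (d + 1) z' →
          gact p lam s z = evS τ' c'.x c'.y P' + z' →
          (∀ a j, P'.coeff (a, j) ≠ 0 → ‖mon c'.x a‖ ≤ ‖mon c'.x α‖) →
            (∃ i < d, P'.coeff (α, i) ≠ 0) ∨
              (d0 = d ∧ α = a0 + d • β ∧ P'.coeff (α, d) ≠ 0 ∧
                (P.coeff (a0 + d • β, 0) ≠ 0 ∨ P.coeff (a0 + (d - 1) • β, 1) ≠ 0))) := by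
  classical
  have hp := hA.prime
  have : Fact p.Prime := ⟨hp⟩
  have : CharP F p := charP_F hA F
  have hc := h.st.gd
  have hc' := h.st.gd'
  have hx := h.hx
  have hxn : ∀ i, c.x i ≠ 0 := hc.ind.ne
  -- the unit `w`
  set w : W := e0 + c'.y with hw
  have hw1 : ‖w‖ = 1 := by
    rw [hw, IsUltrametricDist.norm_add_eq_max_of_norm_ne_norm
      (by rw [h.e01]; exact hc'.y1.ne'), h.e01, max_eq_left hc'.y1.le]
  have hw0 : w ≠ 0 := norm_pos_iff.1 (by rw [hw1]; exact one_pos)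
  have hyw : c.y = mon c.x β * w := h.hy
  have hyn : ‖c.y‖ = ‖mon c.x β‖ := by rw [hyw, norm_mul, hw1, mul_one]
  have hβ1 : ‖mon c.x β‖ < 1 := by rw [← hyn]; exact hc.y1
  have hβ0 : 0 < ‖mon c.x β‖ := norm_pos_iff.2 (mon_ne c.x hxn β)
  have hy0 : c.y ≠ 0 := norm_pos_iff.1 (by rw [hyn]; exact hβ0)
  -- the shear
  have hT : ∀ a j, P.coeff (a, j) ≠ 0 → 0 ≤ (shr β (a, (j : ℤ))).2 := fun a j _ =>
    Int.natCast_nonneg j
  have hT1e : shr β (-β, ((1 : ℕ) : ℤ)) = (0, 1) := by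
    rw [shr_apply, Nat.cast_one, one_smul, neg_add_cancel]
  have hmm : ∀ (a : Fin r → ℤ) (j : ℤ), mon c.x a * c.y ^ j =
      mon c.x (shr β (a, j)).1 * w ^ (shr β (a, j)).2 := by
    intro a j
    rw [shr_apply, mon_add c.x hxn, mon_zsmul, hyw, mul_zpow]
    ring
  obtain ⟨α, a1, j1, m1, D, hc1, hTa1, hjD, hφ0, hmaxT, hlow, hdeg, -, hn1⟩ :=
    lead_stageX hc.ind hy0 hc.y1 hw1 le_rfl hT1e hmm P hT hl
  set φ := part (shr β) P α with hφ
  rw [shr_apply, Prod.mk.injEq] at hTa1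
  have hm1 : m1 = j1 := by exact_mod_cast hTa1.2.symm
  have hα1 : α = a1 + j1 • β := by rw [← hTa1.1, natCast_zsmul]
  have hdegd0 : φ.natDegree ≤ d0 := by omega
  have hmax : ∀ a j, P.coeff (a, j) ≠ 0 → ‖mon c.x (a + j • β)‖ ≤ ‖mon c.x α‖ := by
    intro a j haj
    have h1 := hmaxT a j haj
    rwa [shr_apply, natCast_zsmul] at h1
  -- norms of the shifted monomials
  have hsh : ∀ (a : Fin r → ℤ) (j : ℕ), ‖mon c.x (a + j • β)‖ = ‖mon c.x a‖ * ‖mon c.x β‖ ^ j := by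
    intro a j
    rw [mon_add c.x hxn, mon_nsmul, norm_mul, norm_pow]
  have hn2 : ‖mon c.x α‖ ≤ ‖mon c.x a0‖ := by
    rw [hα1, hsh]
    exact (mul_le_of_le_one_right (norm_nonneg _) (pow_le_one₀ (norm_nonneg _) hβ1.le)).trans
      (hl.max _ _ hc1)
  have hα0 : mon c.x α ≠ 0 := mon_ne c.x hxn α
  have hαpos : 0 < ‖mon c.x α‖ := norm_pos_iff.2 hα0
  -- the substitution
  obtain ⟨ε, hε0, hε1, hε⟩ := exists_eps hr hA h.st
  have hreb : rs e0 ∈ F := by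
    rw [← h.hF]
    exact rs_mem_kap h.e0B
  set eb : F := ⟨rs e0, hreb⟩ with heb
  have heb0 : eb ≠ 0 := by
    intro h0
    have h1 : rs e0 = 0 := congrArg Subtype.val h0
    exact (rs_ne_zero_iff h.e01.le).2 h.e01 h1
  have hB0 : ∀ z ∈ c.B, z ∈ HO c' := fun z hz => B_mem_HO hc' (h.st.B_le hz)
  obtain ⟨P2, hP2, hR2m, hR2⟩ := subS hr hA hc' hB0 hτ
    (fun m hm h1 => hε c' Relation.ReflTransGen.refl m hm h1) h.e0B (eb := eb) rfl
    (y := c.y) (by rw [hx]; exact h.hy) P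
  rw [hx] at hR2m hR2
  have hP2c : ∀ i, P2.coeff (α, i) = (Polynomial.taylor eb φ).coeff i := fun i => by
    rw [hP2, hφ]
  have hP2s : ∀ a j, P2.coeff (a, j) ≠ 0 → ‖mon c.x a‖ ≤ ‖mon c.x α‖ := by
    intro a' i hi
    obtain ⟨a, j, h1, -, rfl⟩ := sub_supp hP2 hi
    exact hmax a j h1
  have hR2' := hR2 ‖mon c.x α‖ (norm_nonneg _) hmax
  have hR2lt : Gn c' (evS τ c.x c.y P - evS τ c.x c'.y P2) < ‖mon c.x α‖ :=
    lt_of_le_of_lt hR2' (mul_lt_of_lt_one_left hαpos hε1)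
  set R2 : W := evS τ c.x c.y P - evS τ c.x c'.y P2 with hR2def
  have hτm : ∀ u, τ u ∈ HO c' := fun u => hB0 _ (hτ.mem u)
  have htm : ∀ n : (Fin r → ℤ) × ℕ,
      τ (P2.coeff n) * (mon c.x n.1 * c'.y ^ n.2) ∈ HL c' := fun n =>
    mul_mem (HO_le_HL (hτm _)) (mul_mem (by rw [← hx]; exact mon_mem_HL _)
      (HO_le_HL (pow_mem (y_mem_HO hc') _)))
  have hev2m : evS τ c.x c'.y P2 ∈ HL c' := by
    unfold evS Finsupp.sum
    exact sum_mem fun n _ => htm n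
  have hev2 : Gn c' (evS τ c.x c'.y P2) ≤ ‖mon c.x α‖ := by
    unfold evS Finsupp.sum
    refine Gn_sum_le hr hA hc' _ _ (fun n _ => htm n) (norm_nonneg _) fun n hn => ?_
    have hn0 : P2.coeff (n.1, n.2) ≠ 0 := Finsupp.mem_support_iff.1 hn
    have h1 := hP2s n.1 n.2 hn0
    have hmm1 : mon c.x n.1 ∈ HL c' := by rw [← hx]; exact mon_mem_HL _
    have hym : c'.y ^ n.2 ∈ HO c' := pow_mem (y_mem_HO hc') _
    rw [Gn_mul hr hA hc' (HO_le_HL (hτm _)) (mul_mem hmm1 (HO_le_HL hym)),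
      Gn_mul hr hA hc' hmm1 (HO_le_HL hym)]
    have h2 : Gn c' (mon c.x n.1) = ‖mon c.x n.1‖ := by rw [← hx, Gn_mon hr hA hc']
    have h3 : Gn c' (τ (P2.coeff n)) ≤ 1 := (Gn_le_one_iff hr hA hc' (HO_le_HL (hτm _))).2 (hτm _)
    have h4 : Gn c' (c'.y ^ n.2) ≤ 1 := (Gn_le_one_iff hr hA hc' (HO_le_HL hym)).2 hym
    rw [h2]
    calc Gn c' (τ (P2.coeff n)) * (‖mon c.x n.1‖ * Gn c' (c'.y ^ n.2))
        ≤ 1 * (‖mon c.x n.1‖ * Gn c' (c'.y ^ n.2)) :=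
          mul_le_mul_of_nonneg_right h3 (mul_nonneg (norm_nonneg _) (Gn_nonneg _))
      _ = ‖mon c.x n.1‖ * Gn c' (c'.y ^ n.2) := one_mul _
      _ ≤ ‖mon c.x n.1‖ * 1 := mul_le_mul_of_nonneg_left h4 (norm_nonneg _)
      _ = ‖mon c.x n.1‖ := mul_one _
      _ ≤ ‖mon c.x α‖ := h1
  have hz2 : z = evS τ c.x c'.y P2 + R2 + E' := by
    rw [hz, hR2def]
    ring
  have hE2 : Gn c' E' ≤ max 1 ‖mon c.x α‖ := by
    rcases hE1 with h1 | h1
    · exact le_max_of_le_right (h1.le.trans hn1)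
    · exact le_max_of_le_left h1
  have hzHL : z ∈ HL c' := by
    rw [hz2]
    exact add_mem (add_mem hev2m hR2m) hE
  have hGz : Gn c' z ≤ max 1 ‖mon c.x α‖ := by
    rw [hz2]
    refine (Gn_add_le hr hA hc' (add_mem hev2m hR2m) hE).trans (max_le ?_ hE2)
    refine (Gn_add_le hr hA hc' hev2m hR2m).trans (max_le ?_ ?_)
    · exact le_max_of_le_right hev2
    · exact le_max_of_le_right hR2lt.le
  have hall : ∀ a j, P.coeff (a, j) ≠ 0 → ‖mon c.x a * c.y ^ j‖ ≤ ‖mon c.x α‖ := by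
    intro a j haj
    rw [norm_mul, norm_pow, hyn, ← hsh]
    exact hmax a j haj
  refine ⟨α, by rw [hx]; exact hn2, by rw [hx]; exact hall, by rw [hx]; exact hGz, ?_⟩
  rw [hx]
  intro hα s hs hGs τ' P' z' hτ' hSm hga hP'
  by_cases hcon : ∃ i < d, P'.coeff (α, i) ≠ 0
  · exact Or.inl hcon
  right
  push Not at hcon
  have hμ : ‖lam‖ ^ p * ‖mon c.x α‖ < 1 :=
    (mul_le_mul_of_nonneg_left hn2 (pow_nonneg (norm_nonneg _) _)).trans_lt hm
  have hGz' : Gn c' z ≤ ‖mon c.x α‖ := by rwa [max_eq_right hα.le] at hGz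
  obtain ⟨hR1, -⟩ := gact_mod hr hA hc' hlam hs hzHL hα hμ hGs hGz'
  have hspHL : s ^ p ∈ HL c' := pow_mem hs p
  have hR1m : gact p lam s z - (z + s ^ p) ∈ HL c' :=
    sub_mem (gact_HL hA hc' hlam hs hzHL).2 (add_mem hzHL hspHL)
  have hGE : Gn c' E' < ‖mon c.x α‖ := by
    rcases hE1 with h1 | h1
    · exact h1.trans_le hn1
    · exact h1.trans_lt hα
  set Q := Polynomial.taylor eb φ with hQ
  have hαx : mon c'.x α = mon c.x α := by rw [hx]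
  have hαx' : mon c'.x (-α) = mon c.x (-α) := by rw [hx]
  -- the main congruence
  have hI : ∀ n ≤ d + 1, (∀ i < n, P'.coeff (α, i) = 0) →
      Osc2I c' n ((tl τ Q).eval c'.y + mon c'.x (-α) * s ^ p) := by
    intro n hn hn'
    have h1 := osc2_evS hr hc' hτ' P' (by rw [hx]; exact hP') hn'
    have h2 : Osc2I c' n (mon c'.x (-α) * z') := by
      refine osc2_mono hc' hn ?_
      obtain ⟨e1, he1, hGe1, e2, he2, rfl⟩ := hSm
      have e : mon c'.x (-α) * (e1 + mon c'.x α * c'.y ^ (d + 1) * e2) =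
          mon c'.x (-α) * e1 + c'.y ^ (d + 1) * e2 := by
        have h0 : mon c'.x α ≠ 0 := by rw [hαx]; exact hα0
        rw [mon_neg]
        field_simp
      rw [e]
      exact osc2_add hc' (osc2_QH (osc2_smallQ hr hA hc' he1 hGe1)) (osc2_y hr hc' he2)
    have h3 : Osc2I c' n (mon c'.x (-α) * (gact p lam s z - (z + s ^ p))) :=
      osc2_QH (osc2_smallQ hr hA hc' hR1m (by rw [hx]; exact hR1))
    have h4 : Osc2I c' n (mon c'.x (-α) * R2) :=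
      osc2_QH (osc2_smallQ hr hA hc' hR2m (by rw [hx]; exact hR2lt))
    have h5 : Osc2I c' n (mon c'.x (-α) * E') :=
      osc2_QH (osc2_smallQ hr hA hc' hE (by rw [hx]; exact hGE))
    have h6 : Osc2I c' n (mon c'.x (-α) * evS τ c'.x c'.y P2 - (tl τ Q).eval c'.y) :=
      osc2_QH (osc2_part hr hc' hτ.zero hτm P2 (by rw [hx]; exact hP2s) Q hP2c)
    have h7 := osc2_add hc' (osc2_add hc' (osc2_add hc' (osc2_add hc' (osc2_add hc' h1 h2)
      (osc2_neg hc' h3)) (osc2_neg hc' h4)) (osc2_neg hc' h5)) (osc2_neg hc' h6)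
    have e : (tl τ Q).eval c'.y + mon c'.x (-α) * s ^ p =
        mon c'.x (-α) * evS τ' c'.x c'.y P' + mon c'.x (-α) * z' +
          -(mon c'.x (-α) * (gact p lam s z - (z + s ^ p))) + -(mon c'.x (-α) * R2) +
          -(mon c'.x (-α) * E') +
          -(mon c'.x (-α) * evS τ c'.x c'.y P2 - (tl τ Q).eval c'.y) := by
      rw [hga, hx]
      linear_combination (-mon c.x (-α)) * hz2
    rw [e]
    exact h7
  -- the conclusion
  have hend : φ.coeff d ≠ 0 → P'.coeff (α, d) ≠ 0 → (φ.coeff 0 ≠ 0 ∨ φ.coeff 1 ≠ 0) →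
      (d0 = d ∧ α = a0 + d • β ∧ P'.coeff (α, d) ≠ 0 ∧
        (P.coeff (a0 + d • β, 0) ≠ 0 ∨ P.coeff (a0 + (d - 1) • β, 1) ≠ 0)) := by
    intro h1 h2 h3
    have h4 : d0 = d := le_antisymm hd0 ((Polynomial.le_natDegree_of_ne_zero h1).trans hdegd0)
    have hex : ∀ n, φ.coeff n ≠ 0 → ∃ a, P.coeff (a, n) ≠ 0 ∧ a + n • β = α := by
      intro n hn
      obtain ⟨a, j, h5, h6⟩ := part_coeff_ne (shr β) P hT α n hn
      rw [shr_apply, Prod.mk.injEq, Nat.cast_inj] at h6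
      obtain ⟨h7, rfl⟩ := h6
      refine ⟨a, h5, ?_⟩
      rw [← h7, natCast_zsmul]
    have h5 : α = a0 + d • β := by
      refine norm_mon_inj hc.ind (le_antisymm ?_ ?_)
      · obtain ⟨a, h6, h7⟩ := hex d h1
        rw [← h7, hsh, hsh]
        exact mul_le_mul_of_nonneg_right (hl.max _ _ h6) (pow_nonneg (norm_nonneg _) _)
      · rw [← h4]
        exact hmax _ _ hl.mem
    refine ⟨h4, h5, h2, ?_⟩
    rcases h3 with h3 | h3
    · left
      obtain ⟨a, h6, h7⟩ := hex 0 h3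
      rw [zero_smul, add_zero] at h7
      rw [← h5, ← h7]
      exact h6
    · right
      obtain ⟨a, h6, h7⟩ := hex 1 h3
      have h8 : a = a0 + (d - 1) • β := by
        have h9 : d • β = (d - 1) • β + 1 • β := by
          rw [← add_smul]
          congr 1
          omega
        rw [h5, h9, ← add_assoc] at h7
        exact add_right_cancel h7
      rw [← h8]
      exact h6
  by_cases hαp : ∃ α' : Fin r → ℤ, α = p • α'
  · obtain ⟨α', hα'⟩ := hαp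
    have hα'0 : mon c'.x α' ≠ 0 := mon_ne c'.x hc'.ind.ne α'
    have hGs' : Gn c' s ≤ ‖mon c'.x α'‖ := by
      rw [hα', mon_nsmul, norm_pow] at hGs
      rw [hx]
      exact (pow_le_pow_iff_left₀ (Gn_nonneg _) (norm_nonneg _) hp.ne_zero).1 hGs
    obtain ⟨η, hη, hsη⟩ := (Gn_le_iff hr hA hc' hs α').1 hGs'
    have e1 : mon c'.x (-α) * s ^ p = η ^ p := by
      rw [hsη, hα', mon_neg, mon_nsmul, mul_pow]
      field_simp
    rw [e1] at hI
    have hφ1 : ¬ ∀ i, φ.coeff i ≠ 0 → p ∣ i ∧ ∃ b : F, φ.coeff i = b ^ p := by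
      intro hall
      have hlc : φ.coeff φ.natDegree ≠ 0 := by
        rw [Polynomial.coeff_natDegree]
        exact Polynomial.leadingCoeff_ne_zero.2 hφ0
      obtain ⟨a, j, h5, h6⟩ := part_coeff_ne (shr β) P hT α _ hlc
      have h7 := part_coeff (shr β) P hT a j h5
      rw [h6, Int.toNat_natCast] at h7
      rw [shr_apply, Prod.mk.injEq, Nat.cast_inj] at h6
      obtain ⟨h8, h9⟩ := h6
      obtain ⟨⟨n', hn'⟩, b, hb⟩ := hall _ hlc
      refine (hred a j h5).2 ⟨⟨α' - n' • β, ?_⟩, ?_, b, ?_⟩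
      · rw [natCast_zsmul, h9, hn', hα'] at h8
        rw [smul_sub, ← h8, ← mul_smul]
        abel
      · rw [h9]
        exact ⟨n', hn'⟩
      · rw [← h7]
        exact hb
    have hlo := osc2_core hr hA h hτ Q hη (hI d (Nat.le_succ d) hcon)
    obtain ⟨h1, h2, h3, h4⟩ := TU.polyU p eb heb0 φ hφ1 d hd (hdegd0.trans hd0) hlo
    refine hend h1 ?_ h4
    intro h0
    have hcon' : ∀ i < d + 1, P'.coeff (α, i) = 0 := by
      intro i hi
      rcases Nat.lt_succ_iff_lt_or_eq.1 hi with h5 | h5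
      · exact hcon i h5
      · rw [h5]; exact h0
    exact h3 (osc2_core hr hA h hτ Q hη (hI (d + 1) le_rfl hcon') d (Nat.lt_succ_self d) h2)
  · have hsp : Gn c' (s ^ p) < ‖mon c'.x α‖ := by
      rw [Gn_pow hr hA hc' hs]
      by_cases hs0 : s = 0
      · rw [hs0, Gn_zero hr hA hc', zero_pow hp.ne_zero]
        exact norm_pos_iff.2 (mon_ne c'.x hc'.ind.ne α)
      · obtain ⟨b', d', hld⟩ := exists_Ld hr hA hc' hs hs0
        rw [← hx] at hGs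
        rw [Gn_eq hr hA hc' hld] at hGs ⊢
        refine lt_of_le_of_ne hGs fun h1 => hαp ⟨b', ?_⟩
        rw [← norm_pow, ← mon_nsmul] at h1
        exact (norm_mon_inj hc'.ind h1).symm
    have hI2 : ∀ n ≤ d + 1, (∀ i < n, P'.coeff (α, i) = 0) → Osc2I c' n ((tl τ Q).eval c'.y) := by
      intro n hn hn'
      have h1 := osc2_add hc' (hI n hn hn') (osc2_neg hc' (osc2_QH (osc2_smallQ hr hA hc'
        hspHL hsp)))
      have e : (tl τ Q).eval c'.y + mon c'.x (-α) * s ^ p + -(mon c'.x (-α) * s ^ p) =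
          (tl τ Q).eval c'.y := by ring
      rwa [e] at h1
    have hlo := osc2_core0 hr hA h hτ Q (hI2 d (Nat.le_succ d) hcon)
    obtain ⟨h1, h2, h3⟩ := taylor_eq_case eb heb0 φ hφ0 d (hdegd0.trans hd0) hlo
    refine hend h2 ?_ (Or.inl h1)
    intro h0
    have hcon' : ∀ i < d + 1, P'.coeff (α, i) = 0 := by
      intro i hi
      rcases Nat.lt_succ_iff_lt_or_eq.1 hi with h5 | h5
      · exact hcon i h5
      · rw [h5]; exact h0
    exact h3 (osc2_core0 hr hA h hτ Q (hI2 (d + 1) le_rfl hcon') d (Nat.lt_succ_self d))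

end Pool.Agent.Lib.MXP
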