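import Pool.Agent.Lib.MXP.GactX

set_option autoImplicit false

/-!
# Module MX.OscA: the leading part after a stage (paper 5.2)

`P1 := ` the shift of `P` by `p • b` (`exists_shiftS`): `evS τ c.x c.y P1 = x^(p b) evS τ c.x c.y P`, `P1.coeff (a, j) = P.coeff (a - p•b, j)`, `Lead c.x P1 (a0 + p•b) d`, `T2 ≥ 0` on the support of `P1`.
`lead_stageX` (LeadX.lean) for `P1` (as in the proof of `st_lead`, StLd.lean): `α1, a1', j1, m1, D`, `φ := part T P1 α1`.  `α := α1 - p • (T (b, 0)).1`, `m := (T (b, 0)).2`, `a1 := a1' - p•b`: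
`T (a1, j1) = (α, m1 - p m)`.  `T (-β, e) = (0, 1)` gives `T (a1 - i β, j1 + i e) = (α, m1 + i - p m)`.  The coefficients: `part_coeff` (TDO/Subst.lean): `φ.coeff n = P1.coeff (a1' - iβ, j1 + ie)`, `n = m1 + i`.
`x^(p b) = x'^(p (T (b,0)).1) w^(p m)` (`h.hm`).  `evS_parts`: `evS τ c.x c.y P1 = ∑_(γ) x'^γ (tl τ (part T P1 γ)).eval w`; the terms `γ ≠ α1` have `‖x'^γ‖ < ‖x'^α1‖` (`lead_stageX` gives `≤`, `norm_mon_inj`), and
`(tl ..).eval w ∈ HO c'` (`St.eval_mem`), `w ^ n ∈ HO c'` for `n : ℤ` (`St.w_zpow`).  So `q` has `Gn c' q < ‖x'^α‖` (`Gn_sum_lt`, `Gn_mul`, `Gn_mon`, `Gn_le_one`).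
`‖x'^α‖ = ‖x^a1 y^j1‖ ≤ ‖x^a1‖ ≤ ‖x^a0‖` and `‖x^(a0 + pb) y^d‖ ≤ ‖x'^α1‖` divided by `‖x^(pb)‖`.
-/

namespace Pool.Agent.Lib.MXP

open Pool.Agent.Lib.MP_3029eb_ag Pool.Agent.Lib.MP_3029eb_ag.Abh Pool.Agent.Lib.TDO

variable {E W : Type} [Field E] [NormedField W] [IsUltrametricDist W] [Algebra E W] {r p : ℕ}
  {S : IntermediateField E W} {c c' : Tri W r} {F : Subfield (RW W)}

theorem osc_lead {e : ℕ} {β : Fin r → ℤ} {w : W} {g : Polynomial F} {G : Polynomial W}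
    {T : ((Fin r → ℤ) × ℤ) ≃+ ((Fin r → ℤ) × ℤ)} (hr : 0 < r) (hA : AmbX p r S)
    (h : St S c c' F e β w g G T) {τ : F → W} (hτ : Sec c.B F τ) (P : LP F r)
    (b : Fin r → ℤ) (hT : ∀ a j, P.coeff (a, j) ≠ 0 → 0 ≤ (T (a + p • b, (j : ℤ))).2)
    {a0 : Fin r → ℤ} {d : ℕ} (hl : Lead c.x P a0 d) :
    ∃ (α : Fin r → ℤ) (φ : Polynomial F) (m : ℤ) (a1 : Fin r → ℤ) (j1 m1 D : ℕ),
      ‖mon c.x a0 * c.y ^ d‖ ≤ ‖mon c'.x α‖ ∧ ‖mon c'.x α‖ ≤ ‖mon c.x a0‖ ∧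
      m = (T (b, 0)).2 ∧ φ ≠ 0 ∧ j1 + D * e ≤ d ∧ (∀ i < m1, φ.coeff i = 0) ∧ φ.natDegree ≤ m1 + D ∧
      T (a1, (j1 : ℤ)) = (α, (m1 : ℤ) - p * m) ∧
      (∀ n, φ.coeff n ≠ 0 → ∃ i : ℕ, n = m1 + i ∧
        P.coeff (a1 - i • β, j1 + i * e) = φ.coeff n ∧
        T (a1 - i • β, ((j1 + i * e : ℕ) : ℤ)) = (α, (n : ℤ) - p * m)) ∧
      ∃ q ∈ HL c', Gn c' q < ‖mon c'.x α‖ ∧
        evS τ c.x c.y P = mon c'.x α * (w ^ (-(p * m : ℤ)) * (tl τ φ).eval w) + q := by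
  classical
  have hok := h.gd
  have hok' := h.gd'
  have hx := hok.ind
  have hx' := hok'.ind
  have hyne := hok.y_ne hA
  obtain ⟨P1, hP1, hP1c⟩ := exists_shiftS hτ.zero c.x c.y hx.ne P (p • b)
  -- the shift of the exponents under `T`
  obtain ⟨sb, hsb⟩ : ∃ sb, sb = (T (b, 0)).1 := ⟨_, rfl⟩
  obtain ⟨m, hm⟩ : ∃ m, m = (T (b, 0)).2 := ⟨_, rfl⟩
  have hTb : T (p • b, 0) = (p • sb, (p : ℤ) * m) := by
    have h1 : ((p • b, 0) : (Fin r → ℤ) × ℤ) = p • ((b, 0) : (Fin r → ℤ) × ℤ) := by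
      rw [Prod.smul_mk, smul_zero]
    rw [h1, map_nsmul, hsb, hm]
    refine Prod.ext rfl ?_
    rw [Prod.smul_snd, nsmul_eq_mul]
  have hTsub : ∀ (a : Fin r → ℤ) (j : ℤ) (γ : Fin r → ℤ) (n : ℤ), T (a, j) = (γ, n) →
      T (a - p • b, j) = (γ - p • sb, n - (p : ℤ) * m) := by
    intro a j γ n hT1
    have h1 : ((a - p • b, j) : (Fin r → ℤ) × ℤ) = (a, j) - (p • b, 0) := by
      rw [Prod.mk_sub_mk, sub_zero]
    rw [h1, map_sub, hT1, hTb, Prod.mk_sub_mk]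
  have hbm : mon c.x (p • b) = mon c'.x (p • sb) * w ^ ((p : ℤ) * m) := by
    have h1 := h.hm (p • b) 0
    rw [zpow_zero, mul_one, hTb] at h1
    exact h1
  have hbn : ‖mon c.x (p • b)‖ = ‖mon c'.x (p • sb)‖ := by
    rw [hbm, norm_mul, norm_zpow, h.w1, one_zpow, mul_one]
  have hbpos : 0 < ‖mon c.x (p • b)‖ := norm_pos_iff.2 (mon_ne c.x hx.ne _)
  -- the lead of the shifted polynomial
  have hab : ∀ a : Fin r → ℤ, mon c.x a = mon c.x (p • b) * mon c.x (a - p • b) := fun a => by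
    rw [← mon_add c.x hx.ne, add_sub_cancel]
  have hlead1 : Lead c.x P1 (a0 + p • b) d := by
    refine ⟨?_, fun a j haj => ?_, fun j hj => ?_⟩
    · rw [hP1c, add_sub_cancel_right]; exact hl.mem
    · rw [hP1c] at haj
      have h3 := hl.max _ _ haj
      rw [hab a, mon_add c.x hx.ne, norm_mul, norm_mul, mul_comm ‖mon c.x a0‖]
      exact mul_le_mul_of_nonneg_left h3 hbpos.le
    · rw [hP1c, add_sub_cancel_right] at hj
      exact hl.min j hj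
  have hT1 : ∀ a j, P1.coeff (a, j) ≠ 0 → 0 ≤ (T (a, (j : ℤ))).2 := by
    intro a j haj
    rw [hP1c] at haj
    have h3 := hT _ _ haj
    rwa [sub_add_cancel] at h3
  obtain ⟨α1, a1', j1, m1, D, hc1, hTa1, hjD, hφ0, hmax, hlow, hdeg, hex, hnrm⟩ :=
    lead_stageX hx hyne hok.y1 h.w1 h.e1 h.hT h.hm P1 hT1 hlead1
  have hα1 : mon c'.x α1 = mon c'.x (α1 - p • sb) * mon c'.x (p • sb) := by
    rw [← mon_add c'.x hx'.ne, sub_add_cancel]
  have hTa : T (a1' - p • b, (j1 : ℤ)) = (α1 - p • sb, (m1 : ℤ) - p * m) := hTsub _ _ _ _ hTa1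
  have hαpos : 0 < ‖mon c'.x (α1 - p • sb)‖ := norm_pos_iff.2 (mon_ne c'.x hx'.ne _)
  refine ⟨α1 - p • sb, part T P1 α1, m, a1' - p • b, j1, m1, D, ?_, ?_, hm, hφ0, hjD, hlow, hdeg,
    hTa, ?_, ?_⟩
  · have h3 : ‖mon c.x (a0 + p • b) * c.y ^ d‖ =
        ‖mon c.x a0 * c.y ^ d‖ * ‖mon c.x (p • b)‖ := by
      rw [mon_add c.x hx.ne, norm_mul, norm_mul, norm_mul]
      ring
    have h4 : ‖mon c'.x α1‖ = ‖mon c'.x (α1 - p • sb)‖ * ‖mon c.x (p • b)‖ := by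
      rw [hα1, norm_mul, hbn]
    rw [h3, h4] at hnrm
    exact le_of_mul_le_mul_right hnrm hbpos
  · have h3 := h.hm (a1' - p • b) (j1 : ℤ)
    rw [hTa, zpow_natCast] at h3
    have h4 : ‖mon c'.x (α1 - p • sb)‖ = ‖mon c.x (a1' - p • b)‖ * ‖c.y‖ ^ j1 := by
      rw [← norm_pow, ← norm_mul, h3, norm_mul, norm_zpow, h.w1, one_zpow, mul_one]
    rw [hP1c] at hc1
    have h5 := hl.max _ _ hc1
    rw [h4]
    refine (mul_le_of_le_one_right (norm_nonneg _) ?_).trans h5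
    exact pow_le_one₀ (norm_nonneg _) hok.y1.le
  · intro n hn
    obtain ⟨i, hi, hci, hTi⟩ := hex n hn
    have hsh : a1' - i • β - p • b = a1' - p • b - i • β := by abel
    refine ⟨i, hi, ?_, ?_⟩
    · have h3 := part_coeff T P1 hT1 _ _ hci
      rw [hTi] at h3
      have h4 : ((n : ℤ)).toNat = n := Int.toNat_natCast n
      change (part T P1 α1).coeff ((n : ℤ)).toNat = _ at h3
      rw [h4, hP1c, hsh] at h3
      exact h3.symm
    · rw [← hsh]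
      exact hTsub _ _ _ _ hTi
  · -- the expansion
    obtain ⟨U, hU⟩ : ∃ U : (Fin r → ℤ) → W, U = fun γ => mon c'.x (γ - p • sb) *
      (w ^ (-((p : ℤ) * m)) * (tl τ (part T P1 γ)).eval w) := ⟨_, rfl⟩
    have hw0 : w ≠ 0 := by
      intro h0
      have h3 := h.w1
      rw [h0, norm_zero] at h3
      exact zero_ne_one h3
    have hUmem : ∀ γ, w ^ (-((p : ℤ) * m)) * (tl τ (part T P1 γ)).eval w ∈ HO c' := fun γ =>
      mul_mem (h.w_zpow _).1 (h.eval_mem (tl_mem hτ _))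
    have hexp : evS τ c.x c.y P =
        ∑ γ ∈ P1.coeff.support.image (fun n => (T (n.1, (n.2 : ℤ))).1), U γ := by
      have h3 := evS_parts h hτ.zero P1 hT1
      rw [hP1] at h3
      have h4 : mon c.x (p • b) ≠ 0 := mon_ne c.x hx.ne _
      have h5 : mon c.x (p • b) * evS τ c.x c.y P = mon c.x (p • b) *
          ∑ γ ∈ P1.coeff.support.image (fun n => (T (n.1, (n.2 : ℤ))).1), U γ := by
        rw [h3, Finset.mul_sum]
        refine Finset.sum_congr rfl fun γ _ => ?_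
        have h6 : mon c'.x γ = mon c'.x (γ - p • sb) * mon c'.x (p • sb) := by
          rw [← mon_add c'.x hx'.ne, sub_add_cancel]
        have h7 : w ^ ((p : ℤ) * m) * w ^ (-((p : ℤ) * m)) = 1 := by
          rw [← zpow_add₀ hw0, add_neg_cancel, zpow_zero]
        rw [hbm, h6, hU]
        dsimp only
        calc mon c'.x (γ - p • sb) * mon c'.x (p • sb) * (tl τ (part T P1 γ)).eval w
            = mon c'.x (γ - p • sb) * mon c'.x (p • sb) * (tl τ (part T P1 γ)).eval w *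
              (w ^ ((p : ℤ) * m) * w ^ (-((p : ℤ) * m))) := by rw [h7, mul_one]
          _ = _ := by ring
      exact mul_left_cancel₀ h4 h5
    have hαim : α1 ∈ P1.coeff.support.image (fun n => (T (n.1, (n.2 : ℤ))).1) := by
      rw [Finset.mem_image]
      exact ⟨(a1', j1), Finsupp.mem_support_iff.2 hc1, by rw [hTa1]⟩
    have hUHL : ∀ γ, U γ ∈ HL c' := by
      intro γ
      rw [hU]
      exact mul_mem (mon_mem_HL _) (HO_le_HL (hUmem γ))
    refine ⟨∑ γ ∈ (P1.coeff.support.image (fun n => (T (n.1, (n.2 : ℤ))).1)).erase α1, U γ,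
      sum_mem fun γ _ => hUHL γ, ?_, ?_⟩
    · refine Gn_sum_lt hr hA hok' _ _ (fun γ _ => hUHL γ) hαpos fun γ hγ => ?_
      rw [Finset.mem_erase, Finset.mem_image] at hγ
      obtain ⟨hne, ⟨⟨a, j⟩, hn, hγe⟩⟩ := hγ
      have h3 := hmax a j (Finsupp.mem_support_iff.1 hn)
      change (T (a, (j : ℤ))).1 = γ at hγe
      rw [hγe] at h3
      have h4 : ‖mon c'.x γ‖ < ‖mon c'.x α1‖ :=
        lt_of_le_of_ne h3 fun h5 => hne (norm_mon_inj hx' h5)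
      have h6 : mon c'.x γ = mon c'.x (γ - p • sb) * mon c'.x (p • sb) := by
        rw [← mon_add c'.x hx'.ne, sub_add_cancel]
      rw [h6, hα1, norm_mul, norm_mul, ← hbn] at h4
      have h7 : ‖mon c'.x (γ - p • sb)‖ < ‖mon c'.x (α1 - p • sb)‖ :=
        lt_of_mul_lt_mul_right h4 hbpos.le
      rw [hU]
      change Gn c' (mon c'.x (γ - p • sb) *
        (w ^ (-((p : ℤ) * m)) * (tl τ (part T P1 γ)).eval w)) < _
      rw [Gn_mul hr hA hok' (mon_mem_HL _) (HO_le_HL (hUmem γ)),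
        Gn_moH hr hA hok' (MoH.of_mon hok' _)]
      refine (mul_le_of_le_one_right (norm_nonneg _) ?_).trans_lt h7
      exact Gn_le_one hr hA hok' (hUmem γ)
    · rw [hexp, ← Finset.add_sum_erase _ _ hαim, hU]

end Pool.Agent.Lib.MXP
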