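import Pool.Agent.Lib.MXP.QAmbA
import Pool.Agent.Lib.MXP.QDefs
import Pool.Agent.Lib.MXP.QSep
import Pool.Agent.Lib.MXP.CgP7
import Pool.Agent.Lib.MP_3029eb_ag.CL
import Pool.Agent.Lib.TQ.WK

/-!
# Module QAmb: the coefficient field in the completion of `K`, the ambient field
-/

namespace Pool.Agent.Lib.MXP

open Pool.Agent.Lib.MP_3029eb_ag Pool.Agent.Lib.MP_3029eb_ag.Abh Pool.Agent.Lib.TDO
open IsLocalRing
open Pool.Agent.Lib.TQ (mI mP Cp Nl range_eq_Cp Cp_idem Cp_dens le_Cp)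

section Map

variable {L W : Type} [NormedField L] [NormedField W]

/-- images of powers of the maximal ideal -/
theorem mP_map_le (ι : L →+* W) (hι : ∀ z, ‖ι z‖ = ‖z‖) {B : Subring L} {B' : Subring W}
    (h : ∀ b ∈ B, ι b ∈ B') {n : ℕ} {z : L} (hz : z ∈ mP B n) : ι z ∈ mP B' n := by
  obtain ⟨t, ht, rfl⟩ := hz
  let f : B →+* B' := (ι.comp B.subtype).codRestrict B' (fun b => h b b.2)
  have h1 : (mI B).map f ≤ mI B' := by
    rw [Ideal.map_le_iff_le_comap]
    unfold mI
    rw [Ideal.span_le]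
    intro b hb
    refine Ideal.subset_span ?_
    change ‖ι (b : L)‖ < 1
    rw [hι]
    exact hb
  refine ⟨f t, ?_, rfl⟩
  have h2 : f t ∈ (mI B ^ n).map f := Ideal.mem_map_of_mem f ht
  rw [Ideal.map_pow] at h2
  exact Ideal.pow_right_mono h1 n h2

/-- preimages of powers of the maximal ideal -/
theorem mP_map_ge (ι : L →+* W) (hι : ∀ z, ‖ι z‖ = ‖z‖) {B : Subring L} {n : ℕ} {z : L}
    (hz : ι z ∈ mP (B.map ι) n) : z ∈ mP B n := by
  obtain ⟨t, ht, htz⟩ := hz
  let f : B →+* B.map ι := (ι.comp B.subtype).codRestrict (B.map ι) (fun b => ⟨b, b.2, rfl⟩)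
  have hs : Function.Surjective f := by
    rintro ⟨_, b, hb, rfl⟩
    exact ⟨⟨b, hb⟩, rfl⟩
  have h1 : mI (B.map ι) ≤ (mI B).map f := by
    unfold mI
    rw [Ideal.span_le]
    intro b hb
    obtain ⟨y, rfl⟩ := hs b
    refine Ideal.mem_map_of_mem _ (Ideal.subset_span ?_)
    have h2 : ‖ι (y : L)‖ < 1 := hb
    rwa [hι] at h2
  have h3 : t ∈ (mI B ^ n).map f := by
    rw [Ideal.map_pow]
    exact Ideal.pow_right_mono h1 n ht
  rw [Ideal.mem_map_iff_of_surjective _ hs] at h3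
  obtain ⟨s, hs1, rfl⟩ := h3
  refine ⟨s, hs1, ι.injective ?_⟩
  exact htz

theorem Cp_map_le (ι : L →+* W) (hι : ∀ z, ‖ι z‖ = ‖z‖) {B : Subring L} {B' : Subring W}
    (h : ∀ b ∈ B, ι b ∈ B') : ∀ z ∈ Cp B, ι z ∈ Cp B' := by
  have h1 : Cp B ≤ (Cp B').comap ι := by
    unfold Cp
    rw [Subring.closure_le]
    rintro z ⟨b, hb, hd, hz⟩
    refine Subring.subset_closure ⟨fun n => ι (b n), fun n => h _ (hb n), fun n => ?_, ?_⟩
    · rw [← map_sub]
      exact mP_map_le ι hι h (hd n)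
    · have hc : Continuous ι := by
        have hiso : Isometry ι := AddMonoidHomClass.isometry_of_norm ι hι
        exact hiso.continuous
      exact (hc.tendsto z).comp hz
  exact fun z hz => h1 hz

end Map

private theorem qb_norm_mon {L : Type} [NormedField L] {r : ℕ} (u : Fin r → L)
    (a : Fin r → ℤ) : ‖mon u a‖ = ∏ i, ‖u i‖ ^ a i := by
  unfold mon
  rw [norm_prod]
  exact Finset.prod_congr rfl fun i _ => norm_zpow _ _

/-- A coefficient field, parameters over which the complete ring is finite and separable. -/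
theorem exists_cf (p : ℕ) (hp : p.Prime) {L : Type} [NormedField L]
    [IsUltrametricDist L] (hchr : (p : L) = 0 ∨ ∀ n : ℕ, n ≠ 0 → ‖(n : L)‖ = 1)
    {X : Subfield L} {D : Subring L} (hD : Nl X D) (hDc : Cp D = D) {T : Type} [CommRing T]
    [IsLocalRing T] [IsAdicComplete (maximalIdeal T) T] (φ : T →+* L) (hφ : Dom φ)
    (hφD : φ.range = D) {ρ : ℕ} (hρ : 0 < ρ)
    (hdim : ringKrullDim D = (((ρ : ℕ) : ℕ∞) : WithBot ℕ∞)) :
    ∃ (K : Subfield L) (t : Fin ρ → L), (∀ e ∈ K, e ∈ D) ∧ (∀ z ∈ D, ∃ e ∈ K, ‖z - e‖ < 1) ∧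
      (∀ i, t i ∈ D ∧ ‖t i‖ < 1 ∧ t i ≠ 0) ∧
      (∃ N : ℕ, ∀ z ∈ mP D N, z ∈ Submodule.span D (Set.range t)) ∧
      ∀ z ∈ D, ∃ F : Polynomial L, (∀ j, F.coeff j ∈ Cp (PK K t)) ∧ F.eval z = 0 ∧
        F.derivative.eval z ≠ 0 := by
  classical
  rcases hchr with hchr | hchr
  · have := Fact.mk hp
    have : CharP L p := by
      rw [CharP.charP_iff_prime_eq_zero hp]
      exact hchr
    exact cg_general p hD hDc hρ hdim
  · -- residue characteristic zero
    have hL0 : CharZero L := by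
      refine charZero_of_inj_zero fun n hn => ?_
      by_contra h0
      have h1 := hchr n h0
      rw [hn, norm_zero] at h1
      exact zero_ne_one h1
    have hnat : ∀ n : ℕ, n ≠ 0 → IsUnit ((n : ℕ) : T) := by
      intro n hn
      by_contra h1
      have h2 : ((n : ℕ) : T) ∈ maximalIdeal T := h1
      have h3 := ((hφ _).2).1 h2
      rw [map_natCast, hchr n hn] at h3
      exact lt_irrefl _ h3
    let iQ : Algebra ℚ T := by
      let f : ℤ →+* T := Int.castRingHom T
      have hf : ∀ y : nonZeroDivisors ℤ, IsUnit (f y) := by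
        intro y
        have hy : (y : ℤ) ≠ 0 := nonZeroDivisors.ne_zero y.2
        have h1 : ((y : ℤ).natAbs) ≠ 0 := Int.natAbs_ne_zero.2 hy
        have h2 := hnat _ h1
        rcases Int.natAbs_eq (y : ℤ) with h3 | h3
        · have h4 : f y = (((y : ℤ).natAbs : ℕ) : T) := by
            change (((y : ℤ)) : T) = _
            conv_lhs => rw [h3]
            rw [Int.cast_natCast]
          rw [h4]; exact h2
        · have h4 : f y = -(((y : ℤ).natAbs : ℕ) : T) := by
            change (((y : ℤ)) : T) = _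
            conv_lhs => rw [h3]
            rw [Int.cast_neg, Int.cast_natCast]
          rw [h4]; exact h2.neg
      exact (IsLocalization.lift (M := nonZeroDivisors ℤ) (S := ℚ) hf).toAlgebra
    obtain ⟨g, hg⟩ := exists_coefficient_field ℚ T
    let f : ResidueField T →+* L := φ.comp g
    have hKD : ∀ e ∈ f.fieldRange, e ∈ D := by
      rintro _ ⟨c, rfl⟩
      rw [← hφD]
      exact ⟨g c, rfl⟩
    have hres : ∀ z ∈ D, ∃ e ∈ f.fieldRange, ‖z - e‖ < 1 := by
      intro z hz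
      rw [← hφD] at hz
      obtain ⟨a, rfl⟩ := hz
      refine ⟨f (residue T a), ⟨_, rfl⟩, ?_⟩
      change ‖φ a - φ (g (residue T a))‖ < 1
      rw [← map_sub]
      refine ((hφ _).2).1 ?_
      rw [← residue_eq_zero_iff, map_sub]
      have h1 := congrArg (fun h => h (residue T a)) hg
      have h2 : residue T (g (residue T a)) = residue T a := h1
      rw [h2, sub_self]
    obtain ⟨t, ht, N, hN⟩ := TQ.cg_sop hD hdim
    obtain ⟨hP, hPD, -, l, v, hv, hgen⟩ := pk_fin hD hDc f.fieldRange hKD hres t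
      (fun i => ⟨(ht i).1, (ht i).2.1⟩) N hN
    exact ⟨f.fieldRange, t, hKD, hres, ht, ⟨N, hN⟩, q_sep _ D hPD v hv hgen⟩

end Pool.Agent.Lib.MXP
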