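import Pool.Agent.Lib.MXP.EDefs
import Pool.Agent.Lib.MXP.Res
import Pool.Agent.Lib.TDO.Cl
import Pool.Agent.Lib.TDO.Ambient

/-!
# Module QAmbA: the algebraic closure of a complete field with the spectral norm
-/

namespace Pool.Agent.Lib.MXP

open Pool.Agent.Lib.MP_3029eb_ag Pool.Agent.Lib.MP_3029eb_ag.Abh Pool.Agent.Lib.TDO
open Polynomial

private theorem qa_norm_mon {L : Type} [NormedField L] {r : ℕ} (u : Fin r → L)
    (a : Fin r → ℤ) : ‖mon u a‖ = ∏ i, ‖u i‖ ^ a i := by
  unfold mon
  rw [norm_prod]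
  exact Finset.prod_congr rfl fun i _ => norm_zpow _ _

/-- A monic polynomial with given coefficients. -/
theorem exists_monic {R : Type} [CommRing R] [Nontrivial R] (n : ℕ) (a : ℕ → R) :
    ∃ P : Polynomial R, P.Monic ∧ P.natDegree = n ∧
      ∀ j, P.coeff j = if j < n then a j else if j = n then 1 else 0 := by
  let P : Polynomial R := X ^ n + ∑ i : Fin n, C (a i) * X ^ (i : ℕ)
  have hm : P.Monic := monic_X_pow_add (degree_sum_fin_lt _)
  have hd : P.natDegree = n := by
    have h1 : (∑ i : Fin n, C (a i) * X ^ (i : ℕ)).degree < (X ^ n : R[X]).degree := by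
      rw [degree_X_pow]
      exact degree_sum_fin_lt _
    rw [natDegree_eq_of_degree_eq (degree_add_eq_left_of_degree_lt h1), natDegree_X_pow]
  refine ⟨P, hm, hd, fun j => ?_⟩
  rcases lt_trichotomy j n with h | h | h
  · rw [if_pos h]
    show (X ^ n + ∑ i : Fin n, C (a i) * X ^ (i : ℕ)).coeff j = a j
    rw [coeff_add, coeff_X_pow, if_neg h.ne, zero_add, finsetSum_coeff]
    simp only [coeff_C_mul_X_pow]
    rw [Finset.sum_eq_single (⟨j, h⟩ : Fin n)]
    · simp
    · intro b _ hb
      rw [if_neg]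
      rintro rfl
      exact hb rfl
    · intro h1
      exact absurd (Finset.mem_univ _) h1
  · rw [if_neg (by omega), if_pos h, h]
    have h2 := hm.coeff_natDegree
    rwa [hd] at h2
  · rw [if_neg (by omega), if_neg (by omega)]
    exact coeff_eq_zero_of_natDegree_lt (by rw [hd]; exact h)

section Lam

variable {E W : Type} [Field E] [NormedField W] [IsUltrametricDist W] [Algebra E W]

theorem lam_le_one {z : W} (hz : z ∈ Lam E W) : ‖z‖ ≤ 1 := hz.2

theorem lam_inv {z : W} (hz : z ∈ Lam E W) (h1 : ‖z‖ = 1) : z⁻¹ ∈ Lam E W := by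
  obtain ⟨⟨e, he⟩, -⟩ := hz
  refine ⟨⟨e⁻¹, ?_⟩, ?_⟩
  · rw [map_inv₀]
    have he' : algebraMap E W e = z := he
    rw [he']
  · show ‖z⁻¹‖ ≤ 1
    rw [norm_inv, h1, inv_one]

/-- The residue of `z` is algebraic over the residue field of `Λ`, then `z` is a root modulo the
maximal ideal of a monic polynomial over `Λ`. -/
theorem res_of_alg {z : W} (hz : ‖z‖ ≤ 1) (h : IsAlgebraic (kap (Lam E W)) (rs z)) :
    ∃ P : Polynomial W, P.Monic ∧ (∀ j, P.coeff j ∈ Lam E W) ∧ ‖P.eval z‖ < 1 := by
  have hint : IsIntegral (kap (Lam E W)) (rs z) := h.isIntegral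
  set g := minpoly (kap (Lam E W)) (rs z) with hg
  have hgm : g.Monic := minpoly.monic hint
  have hc : ∀ j, ∃ y ∈ Lam E W, rs y = (g.coeff j : RW W) := fun j =>
    (mem_kap_iff (fun z hz => lam_le_one hz) (fun z hz h1 => lam_inv hz h1) _).1 (g.coeff j).2
  choose y hy1 hy2 using hc
  obtain ⟨P, hPm, hPd, hPc⟩ := exists_monic g.natDegree y
  have hPΛ : ∀ j, P.coeff j ∈ Lam E W := by
    intro j
    rw [hPc]
    split_ifs
    · exact hy1 j
    · exact one_mem _
    · exact zero_mem _
  have hPr : ∀ j, rs (P.coeff j) = (g.coeff j : RW W) := by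
    intro j
    rw [hPc]
    split_ifs with h1 h2
    · exact hy2 j
    · rw [rs_one, h2, hgm.coeff_natDegree]; rfl
    · rw [rs_zero, coeff_eq_zero_of_natDegree_lt (by omega)]; rfl
  refine ⟨P, hPm, hPΛ, ?_⟩
  obtain ⟨h1, h2⟩ := rs_eval hz g P (fun j => lam_le_one (hPΛ j)) hPr
  rw [← rs_eq_zero_iff h1, h2]
  exact minpoly.aeval _ _

/-- Conversely. -/
theorem alg_of_res {z : W} (hz : ‖z‖ ≤ 1) (P : Polynomial W) (hc : ∀ j, ∃ y ∈ Lam E W,
    ‖P.coeff j - y‖ < 1) (h1 : ∃ n, ‖P.coeff n‖ = 1) (h : ‖P.eval z‖ < 1) :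
    IsAlgebraic (kap (Lam E W)) (rs z) := by
  choose y hy1 hy2 using hc
  have hP1 : ∀ j, ‖P.coeff j‖ ≤ 1 := by
    intro j
    have h2 : P.coeff j = (P.coeff j - y j) + y j := by ring
    rw [h2]
    exact (IsUltrametricDist.norm_add_le_max _ _).trans
      (max_le (hy2 j).le (lam_le_one (hy1 j)))
  have hr : ∀ j, rs (P.coeff j) = rs (y j) := fun j =>
    (rs_eq_iff (hP1 j) (lam_le_one (hy1 j))).2 (hy2 j)
  let g : Polynomial (kap (Lam E W)) := ∑ i ∈ Finset.range (P.natDegree + 1),
    C (⟨rs (y i), rs_mem_kap (hy1 i)⟩ : kap (Lam E W)) * X ^ i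
  have hg : ∀ j, ((g.coeff j : kap (Lam E W)) : RW W) = rs (P.coeff j) := by
    intro j
    show (((∑ i ∈ Finset.range (P.natDegree + 1),
      C (⟨rs (y i), rs_mem_kap (hy1 i)⟩ : kap (Lam E W)) * X ^ i).coeff j :
        kap (Lam E W)) : RW W) = _
    rw [finsetSum_coeff]
    simp only [coeff_C_mul_X_pow]
    rw [Finset.sum_ite_eq (Finset.range (P.natDegree + 1)) j
      (fun i => (⟨rs (y i), rs_mem_kap (hy1 i)⟩ : kap (Lam E W)))]
    split_ifs with h2
    · exact (hr j).symm
    · rw [Finset.mem_range, not_lt] at h2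
      rw [coeff_eq_zero_of_natDegree_lt (by omega), rs_zero]
      rfl
  refine ⟨g, ?_, ?_⟩
  · intro h0
    obtain ⟨n, hn⟩ := h1
    have h2 := hg n
    rw [h0, coeff_zero] at h2
    have h3 : rs (P.coeff n) ≠ 0 := (rs_ne_zero_iff (hP1 n)).2 hn
    exact h3 h2.symm
  · obtain ⟨h3, h4⟩ := rs_eval hz g P hP1 (fun j => (hg j).symm)
    rw [← h4]
    exact (rs_eq_zero_iff h3).2 h

end Lam

/-- The algebraic closure of a complete field. -/
theorem exists_WA {p r : ℕ} {E K : Type} [Field E] [NontriviallyNormedField K]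
    [IsUltrametricDist K] [CompleteSpace K] [Algebra E K] (hK : AmbE p r E K) :
    ∃ (W : Type) (_ : NontriviallyNormedField W) (_ : IsUltrametricDist W) (_ : Algebra E W)
      (_ : IsAlgClosed W) (ι : K →ₐ[E] W), (∀ z, ‖ι z‖ = ‖z‖) ∧ AmbE p r E W ∧
      IsComplete (Set.range ι) ∧ ∀ z : W, ∃ q : K[X], q ≠ 0 ∧ q.eval₂ (ι : K →+* W) z = 0 := by
  let W := AlgebraicClosure K
  let nf : NontriviallyNormedField W := spectralNorm.nontriviallyNormedField K W
  have hnorm : ∀ z : W, ‖z‖ = spectralNorm K W z := fun z => rfl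
  have hu : IsUltrametricDist W := by
    refine IsUltrametricDist.isUltrametricDist_of_forall_norm_add_le_max_norm fun x y => ?_
    rw [hnorm, hnorm, hnorm]
    exact isNonarchimedean_spectralNorm x y
  have hext : ∀ z : K, ‖algebraMap K W z‖ = ‖z‖ := fun z => spectralNorm_extends z
  have hpW : ((p : ℕ) : W) = algebraMap K W (p : K) := (map_natCast _ _).symm
  have hrange : Set.range (algebraMap E W) = algebraMap K W '' Set.range (algebraMap E K) := by
    ext z
    constructor
    · rintro ⟨e, rfl⟩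
      exact ⟨algebraMap E K e, ⟨e, rfl⟩, (IsScalarTower.algebraMap_apply E K W e).symm⟩
    · rintro ⟨_, ⟨e, rfl⟩, rfl⟩
      exact ⟨e, IsScalarTower.algebraMap_apply E K W e⟩
  have hiso : Isometry (algebraMap K W) := AddMonoidHomClass.isometry_of_norm (algebraMap K W) hext
  have hΛ : ∀ y : K, y ∈ Lam E K → algebraMap K W y ∈ Lam E W := by
    rintro y ⟨⟨e, he⟩, hy⟩
    refine ⟨⟨e, ?_⟩, ?_⟩
    · rw [IsScalarTower.algebraMap_apply E K W]
      exact congrArg _ he
    · show ‖algebraMap K W y‖ ≤ 1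
      rw [hext]
      exact hy
  have hamb : AmbE p r E W := by
    refine ⟨hK.pos, hK.prime, ?_, ?_, ?_, ?_⟩
    · rcases hK.chr with h | h
      · exact Or.inl (by rw [hpW, h, map_zero])
      · refine Or.inr fun n hn h0 => h n hn ?_
        rw [← map_natCast (algebraMap K W), map_eq_zero] at h0
        exact h0
    · intro c hc
      rw [IsScalarTower.algebraMap_apply E K W, hext, hK.trv c hc]
    · intro z hz
      have hpow : ∀ z : W, z ≠ 0 → ∃ n : ℕ, 0 < n ∧ ∃ a : K, a ≠ 0 ∧ ‖z‖ ^ n = ‖a‖ := by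
        intro z hz
        have hint : IsIntegral K z := (Algebra.IsAlgebraic.isAlgebraic (R := K) z).isIntegral
        have hn : 0 < (minpoly K z).natDegree := minpoly.natDegree_pos hint
        refine ⟨(minpoly K z).natDegree, hn, (minpoly K z).coeff 0,
          minpoly.coeff_zero_ne_zero hint hz, ?_⟩
        have h1 := spectralNorm.spectralNorm_eq_norm_coeff_zero_rpow K W z
        rw [hnorm, h1, ← Real.rpow_natCast, ← Real.rpow_mul (norm_nonneg _), one_div,
          inv_mul_cancel₀ (by exact_mod_cast hn.ne'), Real.rpow_one]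
      have h1 : ∀ i, ∃ n : ℕ, 0 < n ∧ ∃ a : K, a ≠ 0 ∧ ‖z i‖ ^ n = ‖a‖ :=
        fun i => hpow (z i) (hz i)
      choose n hn a ha hna using h1
      obtain ⟨b, hb, hb1⟩ := hK.rank a ha
      refine ⟨fun i => (n i : ℤ) * b i, fun h0 => hb ?_, ?_⟩
      · funext i
        have h2 := congrFun h0 i
        rw [Pi.zero_apply] at h2 ⊢
        rcases mul_eq_zero.mp h2 with h3 | h3
        · exact absurd h3 (by exact_mod_cast (hn i).ne')
        · exact h3
      · rw [qa_norm_mon] at hb1 ⊢
        rw [← hb1]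
        exact Finset.prod_congr rfl fun i _ => by rw [← hna, zpow_mul, zpow_natCast]
    · intro z hz
      refine res_of_alg hz ?_
      have hint : IsIntegral K z := (Algebra.IsAlgebraic.isAlgebraic (R := K) z).isIntegral
      have hqm : (minpoly K z).Monic := minpoly.monic hint
      have hcoef : ∀ j, ‖(minpoly K z).coeff j‖ ≤ 1 := by
        have h1 : spectralValue (minpoly K z) ≤ 1 := hz
        exact (spectralValue_le_one_iff hqm).mp h1
      -- the residues of the coefficients are algebraic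
      have halgc : ∀ a : K, ‖a‖ ≤ 1 → IsIntegral (kap (Lam E W)) (rs (algebraMap K W a)) := by
        intro a ha
        obtain ⟨P, hPm, hPc, hP⟩ := hK.res a ha
        refine (alg_of_res (by rw [hext]; exact ha) (P.map (algebraMap K W)) (fun j => ?_)
          ⟨P.natDegree, ?_⟩ ?_).isIntegral
        · refine ⟨algebraMap K W (P.coeff j), hΛ _ (hPc j), ?_⟩
          rw [coeff_map, sub_self, norm_zero]
          exact one_pos
        · rw [coeff_map, hPm.coeff_natDegree, map_one, norm_one]
        · rw [eval_map_algebraMap, aeval_algebraMap_apply, hext, coe_aeval_eq_eval]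
          exact hP
      let Ω := integralClosure (kap (Lam E W)) (RW W)
      have hmem : ∀ j, rs (algebraMap K W ((minpoly K z).coeff j)) ∈ Ω := fun j =>
        halgc _ (hcoef j)
      obtain ⟨Q, hQm, hQd, hQc⟩ := exists_monic (R := Ω) (minpoly K z).natDegree
        (fun j => ⟨_, hmem j⟩)
      have hint2 : IsIntegral Ω (rs z) := by
        refine ⟨Q, hQm, ?_⟩
        have h1 : (minpoly K z).eval₂ (algebraMap K W) z = 0 := minpoly.aeval K z
        rw [eval₂_eq_sum_range] at h1
        rw [eval₂_eq_sum_range, hQd]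
        have h2 : ∀ i ∈ Finset.range ((minpoly K z).natDegree + 1),
            algebraMap Ω (RW W) (Q.coeff i) * rs z ^ i =
              rs (algebraMap K W ((minpoly K z).coeff i) * z ^ i) := by
          intro i hi
          rw [Finset.mem_range] at hi
          have h5 : ‖algebraMap K W ((minpoly K z).coeff i)‖ ≤ 1 := by
            rw [hext]; exact hcoef i
          rw [rs_mul h5 (by rw [norm_pow]; exact pow_le_one₀ (norm_nonneg _) hz), rs_pow hz]
          congr 1
          rw [hQc]
          by_cases h3 : i < (minpoly K z).natDegree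
          · rw [if_pos h3]
            rfl
          · have h4 : i = (minpoly K z).natDegree := by omega
            rw [if_neg h3, if_pos h4, map_one, h4, hqm.coeff_natDegree, map_one, rs_one]
        rw [Finset.sum_congr rfl h2]
        have h6 := (rs_sum (Finset.range ((minpoly K z).natDegree + 1))
          (fun i => algebraMap K W ((minpoly K z).coeff i) * z ^ i) (fun i _ => by
            rw [norm_mul, norm_pow, hext]
            exact mul_le_one₀ (hcoef i) (pow_nonneg (norm_nonneg _) _)
              (pow_le_one₀ (norm_nonneg _) hz))).1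
        rw [← h6, h1, rs_zero]
      exact (isIntegral_trans (R := kap (Lam E W)) (A := Ω) _ hint2).isAlgebraic
  refine ⟨W, nf, hu, inferInstance, inferInstance, IsScalarTower.toAlgHom E K W,
    fun z => spectralNorm_extends z, hamb, ?_, fun z => ?_⟩
  · have h1 : Set.range (IsScalarTower.toAlgHom E K W) = algebraMap K W '' Set.univ := by
      rw [Set.image_univ]
      rfl
    rw [h1]
    exact (isComplete_image_iff hiso.isUniformInducing).mpr
      (completeSpace_iff_isComplete_univ.mp inferInstance)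
  · obtain ⟨q, hq, hq0⟩ := Algebra.IsAlgebraic.isAlgebraic (R := K) z
    exact ⟨q, hq, hq0⟩

end Pool.Agent.Lib.MXP
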