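import Pool.Agent.Lib.MXP.QAmb

/-!
# Module QAmbC: the ambient field of a local ring of equal characteristic
-/

namespace Pool.Agent.Lib.MXP

open Pool.Agent.Lib.MP_3029eb_ag Pool.Agent.Lib.MP_3029eb_ag.Abh Pool.Agent.Lib.TDO
open IsLocalRing
open Pool.Agent.Lib.TQ (mI mP Cp Nl range_eq_Cp Cp_idem Cp_dens le_Cp)

private theorem qb_norm_mon {L : Type} [NormedField L] {r : ℕ} (u : Fin r → L)
    (a : Fin r → ℤ) : ‖mon u a‖ = ∏ i, ‖u i‖ ^ a i := by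
  unfold mon
  rw [norm_prod]
  exact Finset.prod_congr rfl fun i _ => norm_zpow _ _

/-- the image of `A` in a complete field -/
theorem nl_map {K : Type} [NontriviallyNormedField K] (A : Subring K)
    [IsLocalRing A] [IsNoetherianRing A] (hA : Dom A.subtype) {W : Type} [NormedField W]
    (X : Subfield W) (hX : IsComplete (X : Set W)) (κ : K →+* W)
    (hκn : ∀ z, ‖κ z‖ = ‖z‖) (hκL : ∀ z, κ z ∈ X) : Nl X (A.map κ) := by
  refine ⟨hX, ?_, ?_, ?_, ?_, ?_⟩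
  · obtain ⟨z, hz0, hz1⟩ := NormedField.exists_norm_lt_one K
    exact ⟨κ z, hκL z, norm_pos_iff.1 (by rw [hκn]; exact hz0), by rw [hκn]; exact hz1⟩
  · rintro _ ⟨a, -, rfl⟩
    exact hκL a
  · rintro _ ⟨a, ha, rfl⟩
    rw [hκn]
    exact (hA ⟨a, ha⟩).1
  · rintro _ ⟨a, ha, rfl⟩ h1
    rw [hκn] at h1
    have h2 : IsUnit (⟨a, ha⟩ : A) := by
      by_contra h3
      have h4 := ((hA ⟨a, ha⟩).2).1 h3
      have h5 : ‖a‖ < 1 := h4
      linarith
    obtain ⟨b, hb⟩ := h2.exists_right_inv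
    have hb' : a * (b : K) = 1 := congrArg Subtype.val hb
    refine ⟨b, b.2, ?_⟩
    have h6 : κ a * κ b = 1 := by rw [← map_mul, hb', map_one]
    exact eq_inv_of_mul_eq_one_right h6
  · exact isNoetherianRing_of_ringEquiv A (A.equivMapOfInjective κ κ.injective)

theorem exists_WX (p : ℕ) (hp : p.Prime) {K : Type} [NontriviallyNormedField K]
    [IsUltrametricDist K] (hchr : (p : K) = 0 ∨ ∀ n : ℕ, n ≠ 0 → ‖(n : K)‖ = 1)
    (A : Subring K) [IsLocalRing A]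
    [IsNoetherianRing A] (hA : Dom A.subtype)
    (hfrac : ∀ z : K, ∃ a ∈ A, ∃ b ∈ A, b ≠ 0 ∧ z * b = a) {r : ℕ} (hr : 0 < r)
    (hrank : ∀ z : Fin (r + 1) → K, (∀ i, z i ≠ 0) →
      ∃ a : Fin (r + 1) → ℤ, a ≠ 0 ∧ ‖mon z a‖ = 1)
    (hres : ∀ z : K, ‖z‖ ≤ 1 → ∃ f : Polynomial A, (∃ n, ‖((f.coeff n : A) : K)‖ = 1) ∧
      ‖Polynomial.eval₂ A.subtype z f‖ < 1)
    {L : Type} [NontriviallyNormedField L] [IsUltrametricDist L] [CompleteSpace L] (j : K →+* L)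
    (hj : ∀ z, ‖j z‖ = ‖z‖) (hjd : DenseRange j)
    (φ : AdicCompletion (maximalIdeal A) A →+* L) (hφ : Dom φ)
    (hφa : ∀ a : A, φ (algebraMap A (AdicCompletion (maximalIdeal A) A) a) = j (a : K))
    (hdim : ringKrullDim (Cp (A.map j)) = (((r + 1 : ℕ) : ℕ∞) : WithBot ℕ∞)) :
    ∃ (E W : Type) (_ : Field E) (_ : NontriviallyNormedField W) (_ : IsUltrametricDist W)
      (_ : Algebra E W) (_ : IsAlgClosed W) (LW : IntermediateField E W) (κ : K →+* W)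
      (t : Fin (r + 1) → W),
      (∀ z, ‖κ z‖ = ‖z‖) ∧ (∀ z, κ z ∈ LW) ∧ AmbE p r E W ∧ (∀ z : W, IsAlgebraic LW z) ∧
      Nl LW.toSubfield (A.map κ) ∧
      (∀ z ∈ LW, ∀ ε : ℝ, 0 < ε → ∃ a ∈ A.map κ, ∃ b ∈ A.map κ, b ≠ 0 ∧ ‖z - a / b‖ < ε) ∧
      (∀ e ∈ Lam E W, e ∈ Cp (A.map κ)) ∧ (∀ z ∈ A.map κ, ∃ e ∈ Lam E W, ‖z - e‖ < 1) ∧
      (∀ i, t i ∈ Cp (A.map κ) ∧ ‖t i‖ < 1 ∧ t i ≠ 0) ∧
      (∃ N : ℕ, ∀ z ∈ mP (Cp (A.map κ)) N, z ∈ Submodule.span (Cp (A.map κ)) (Set.range t)) ∧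
      ∀ z ∈ Cp (A.map κ), ∃ F : Polynomial W, (∀ j, F.coeff j ∈ Cp (PtX E t)) ∧ F.eval z = 0 ∧
        F.derivative.eval z ≠ 0 := by
  classical
  have hcompl : IsComplete ((⊤ : Subfield L) : Set L) := by
    have h1 : ((⊤ : Subfield L) : Set L) = Set.univ := rfl
    rw [h1]
    exact completeSpace_iff_isComplete_univ.1 inferInstance
  have hN : Nl ⊤ (A.map j) := nl_map A hA ⊤ hcompl j hj (fun z => Subfield.mem_top _)
  have hd : ∀ z : L, ∀ ε : ℝ, 0 < ε → ∃ f : K, ‖z - j f‖ < ε := by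
    intro z ε hε
    obtain ⟨f, hf⟩ := (Metric.denseRange_iff.mp hjd) z ε hε
    exact ⟨f, by rw [← dist_eq_norm]; exact hf⟩
  have hchrL : (p : L) = 0 ∨ ∀ n : ℕ, n ≠ 0 → ‖(n : L)‖ = 1 := by
    rcases hchr with h | h
    · left
      rw [← map_natCast j, h, map_zero]
    · right
      intro n hn
      rw [← map_natCast j, hj]
      exact h n hn
  have hφD : φ.range = Cp (A.map j) := by
    refine range_eq_Cp hN _ hφ (fun a => ?_) ?_
    · rw [hφa]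
      exact ⟨a, a.2, rfl⟩
    · rintro _ ⟨a, ha, rfl⟩
      exact ⟨⟨a, ha⟩, hφa ⟨a, ha⟩⟩
  obtain ⟨K0, t0, hKD, hKres, ht0, ⟨N0, hN0⟩, hsep0⟩ := exists_cf p hp hchrL hN.cp
    (Cp_idem hN) φ hφ hφD (Nat.succ_pos r) hdim
  -- norms of the elements of `K0`
  have hK1 : ∀ e ∈ K0, e ≠ 0 → ‖e‖ = 1 := by
    intro e he he0
    have h1 := hN.cp.one e (hKD e he)
    have h2 := hN.cp.one e⁻¹ (hKD _ (inv_mem he))
    rw [norm_inv] at h2
    exact le_antisymm h1 ((inv_le_one₀ (norm_pos_iff.2 he0)).1 h2)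
  have hLamK : ∀ z : L, z ∈ Lam K0 L ↔ z ∈ K0 := by
    intro z
    constructor
    · rintro ⟨⟨e, rfl⟩, -⟩
      exact e.2
    · intro hz
      refine ⟨⟨⟨z, hz⟩, rfl⟩, ?_⟩
      change ‖z‖ ≤ 1
      exact hN.cp.one z (hKD z hz)
  have hAΛ : ∀ a : A, ∃ e ∈ Lam K0 L, ‖j a - e‖ < 1 := by
    intro a
    obtain ⟨e, he, h1⟩ := hKres _ (le_Cp ⟨a, a.2, rfl⟩)
    exact ⟨e, (hLamK e).2 he, h1⟩
  have hamb0 : AmbE p r K0 L := by
    refine ⟨hr, hp, ?_, ?_, ?_, ?_⟩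
    · rcases hchrL with h | h
      · exact Or.inl h
      · refine Or.inr fun n hn h0 => ?_
        have h1 := h n hn
        rw [h0, norm_zero] at h1
        exact zero_ne_one h1
    · intro c hc
      refine hK1 _ c.2 fun h => hc (Subtype.ext h)
    · intro z hz
      have h1 : ∀ i, ∃ f : K, ‖z i - j f‖ < ‖z i‖ := fun i => hd (z i) _ (norm_pos_iff.mpr (hz i))
      choose f' hf' using h1
      have h2 : ∀ i, ‖f' i‖ = ‖z i‖ := by
        intro i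
        rw [← hj]
        have h3 : j (f' i) = z i + -(z i - j (f' i)) := by ring
        rw [h3]
        have h4 : ‖-(z i - j (f' i))‖ < ‖z i‖ := by rw [norm_neg]; exact hf' i
        rw [IsUltrametricDist.norm_add_eq_max_of_norm_ne_norm h4.ne']
        exact max_eq_left h4.le
      obtain ⟨a, ha, ha1⟩ := hrank f' fun i => norm_pos_iff.mp (by
        rw [h2]; exact norm_pos_iff.mpr (hz i))
      refine ⟨a, ha, ?_⟩
      rw [qb_norm_mon] at ha1 ⊢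
      rw [← ha1]
      exact Finset.prod_congr rfl fun i _ => by rw [h2]
    · intro z hz
      obtain ⟨f', hf'⟩ := hd z 1 one_pos
      have hf1 : ‖j f'‖ ≤ 1 := by
        have h4 : j f' = z + -(z - j f') := by ring
        rw [h4]
        exact (IsUltrametricDist.norm_add_le_max _ _).trans
          (max_le hz (by rw [norm_neg]; exact hf'.le))
      have hf2 : ‖f'‖ ≤ 1 := by rw [← hj]; exact hf1
      obtain ⟨P, ⟨n, hn⟩, hP⟩ := hres f' hf2
      refine res_of_alg hz ?_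
      have h5 : rs z = rs (j f') := (rs_eq_iff hz hf1).2 hf'
      rw [h5]
      refine alg_of_res hf1 (P.map (j.comp A.subtype)) (fun i => ?_) ⟨n, ?_⟩ ?_
      · rw [Polynomial.coeff_map]
        exact hAΛ (P.coeff i)
      · rw [Polynomial.coeff_map, RingHom.comp_apply, hj]
        exact hn
      · rw [Polynomial.eval_map, ← Polynomial.hom_eval₂, hj]
        exact hP
  obtain ⟨W, nfW, huW, algW, hac, ι, hι, hamb, hcomp, halgW⟩ := exists_WA hamb0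
  have hLr : ((ι.fieldRange : IntermediateField K0 W) : Set W) = Set.range ι := rfl
  have hιL : ∀ z, ι z ∈ (ι.fieldRange : IntermediateField K0 W) := fun z => ⟨z, rfl⟩
  let ι0 : L →+* W := (ι : L →+* W)
  have hι0 : ∀ z, ‖ι0 z‖ = ‖z‖ := hι
  let κ : K →+* W := ι0.comp j
  have hκ : ∀ z, κ z = ι0 (j z) := fun z => rfl
  have hκn : ∀ z, ‖κ z‖ = ‖z‖ := fun z => by rw [hκ, hι0, hj]
  have hκL : ∀ z, κ z ∈ (ι.fieldRange : IntermediateField K0 W) := fun z => hιL (j z)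
  have hLam : ∀ z : W, z ∈ Lam K0 W ↔ ∃ y ∈ Lam K0 L, ι0 y = z := by
    intro z
    constructor
    · rintro ⟨⟨e, he⟩, hz⟩
      refine ⟨algebraMap K0 L e, ⟨⟨e, rfl⟩, ?_⟩, ?_⟩
      · show ‖algebraMap K0 L e‖ ≤ 1
        rw [← hι, ι.commutes]
        have he' : algebraMap K0 W e = z := he
        rw [he']
        exact hz
      · change ι _ = z
        rw [ι.commutes]
        exact he
    · rintro ⟨y, ⟨⟨e, he⟩, hy⟩, rfl⟩
      refine ⟨⟨e, ?_⟩, ?_⟩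
      · have he' : algebraMap K0 L e = y := he
        change _ = ι y
        rw [← he', ι.commutes]
      · show ‖ι y‖ ≤ 1
        rw [hι]
        exact hy
  have hcX : IsComplete ((ι.fieldRange : IntermediateField K0 W).toSubfield : Set W) := by
    show IsComplete ((ι.fieldRange : IntermediateField K0 W) : Set W)
    rw [hLr]
    exact hcomp
  have hnl : Nl (ι.fieldRange : IntermediateField K0 W).toSubfield (A.map κ) :=
    nl_map A hA _ hcX κ hκn hκL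
  have hmapmap : A.map κ = (A.map j).map ι0 := (Subring.map_map A ι0 j).symm
  have hCp : Cp (A.map κ) = (Cp (A.map j)).map ι0 := by
    have h1 : (ι0.comp φ).range = Cp (A.map κ) := by
      refine range_eq_Cp hnl _ (fun t => ?_) (fun a => ?_) ?_
      · rw [RingHom.comp_apply, hι0]
        exact hφ t
      · rw [RingHom.comp_apply, hφa]
        exact ⟨a, a.2, rfl⟩
      · rintro _ ⟨a, ha, rfl⟩
        refine ⟨⟨a, ha⟩, ?_⟩
        rw [RingHom.comp_apply, hφa]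
        rfl
    rw [← h1, ← hφD]
    ext z
    constructor
    · rintro ⟨a, rfl⟩
      exact ⟨φ a, ⟨a, rfl⟩, rfl⟩
    · rintro ⟨_, ⟨a, rfl⟩, rfl⟩
      exact ⟨a, rfl⟩
  have hPK : ∀ b ∈ PK K0 t0, ι0 b ∈ PtX K0 (fun i => ι0 (t0 i)) := by
    rintro b ⟨x, hx, y, hy, hy1, h⟩
    have h1 : Subring.closure ((K0 : Set L) ∪ Set.range t0) ≤
        (Subring.closure ((Lam K0 W : Set W) ∪ Set.range fun i => ι0 (t0 i))).comap ι0 := by
      rw [Subring.closure_le]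
      rintro z (hz | ⟨i, rfl⟩)
      · exact Subring.subset_closure (Or.inl ((hLam _).2 ⟨z, (hLamK z).2 hz, rfl⟩))
      · exact Subring.subset_closure (Or.inr ⟨i, rfl⟩)
    refine ⟨ι0 x, h1 hx, ι0 y, h1 hy, ?_, ?_⟩
    · rw [ball_val_eq_one, hι0]
      exact (ball_val_eq_one y).1 hy1
    · rw [← h, map_mul]
  refine ⟨K0, W, inferInstance, nfW, huW, algW, hac, ι.fieldRange, κ, fun i => ι0 (t0 i), hκn,
    hκL, hamb, ?_, hnl, ?_, ?_, ?_, ?_, ⟨N0, ?_⟩, ?_⟩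
  · intro z
    obtain ⟨q, hq, hq0⟩ := halgW z
    let ι' : L →+* (ι.fieldRange : IntermediateField K0 W) :=
      (ι : L →+* W).codRestrict (ι.fieldRange : IntermediateField K0 W).toSubring hιL
    refine ⟨q.map ι', ?_, ?_⟩
    · exact (Polynomial.map_ne_zero_iff ι'.injective).2 hq
    · rw [Polynomial.aeval_def, Polynomial.eval₂_map]
      exact hq0
  · rintro _ ⟨w0, rfl⟩ ε hε
    obtain ⟨y, hy⟩ := hd w0 ε hε
    obtain ⟨a, ha, b, hb, hb0, hab⟩ := hfrac y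
    refine ⟨κ a, ⟨a, ha, rfl⟩, κ b, ⟨b, hb, rfl⟩, (_root_.map_ne_zero κ).2 hb0, ?_⟩
    have h1 : κ a / κ b = κ y := by
      rw [← hab, map_mul, mul_div_cancel_right₀ _ ((_root_.map_ne_zero κ).2 hb0)]
    rw [h1, hκ]
    show ‖ι0 w0 - ι0 (j y)‖ < ε
    rw [← map_sub, hι0]
    exact hy
  · intro e he
    obtain ⟨y, hy, rfl⟩ := (hLam e).1 he
    rw [hCp]
    exact ⟨y, hKD y ((hLamK y).1 hy), rfl⟩
  · rintro _ ⟨a, ha, rfl⟩
    obtain ⟨e, he, h1⟩ := hAΛ ⟨a, ha⟩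
    refine ⟨ι0 e, (hLam _).2 ⟨e, he, rfl⟩, ?_⟩
    have h2 : κ a - ι0 e = ι0 (j a - e) := by rw [map_sub, hκ]
    rw [h2, hι0]
    exact h1
  · intro i
    refine ⟨?_, by rw [hι0]; exact (ht0 i).2.1, (_root_.map_ne_zero ι0).2 (ht0 i).2.2⟩
    rw [hCp]
    exact ⟨t0 i, (ht0 i).1, rfl⟩
  · intro z hz
    rw [hCp] at hz ⊢
    obtain ⟨y, hy, rfl⟩ := TQ.mP_mem hz
    have h1 := hN0 y (mP_map_ge ι0 hι0 hz)
    rw [Submodule.mem_span_range_iff_exists_fun] at h1 ⊢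
    obtain ⟨c, hc⟩ := h1
    refine ⟨fun i => ⟨ι0 (c i : L), c i, (c i).2, rfl⟩, ?_⟩
    rw [← hc, map_sum]
    refine Finset.sum_congr rfl fun i _ => ?_
    change ι0 (c i : L) * ι0 (t0 i) = ι0 ((c i : L) * t0 i)
    rw [map_mul]
  · intro z hz
    rw [hCp] at hz
    obtain ⟨y, hy, rfl⟩ := hz
    obtain ⟨F, hF1, hF2, hF3⟩ := hsep0 y hy
    refine ⟨F.map ι0, fun i => ?_, ?_, ?_⟩
    · rw [Polynomial.coeff_map]
      exact Cp_map_le ι0 hι0 hPK _ (hF1 i)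
    · change (F.map ι0).eval (ι0 y) = 0
      rw [Polynomial.eval_map_apply, hF2, map_zero]
    · change (F.map ι0).derivative.eval (ι0 y) ≠ 0
      rw [Polynomial.derivative_map, Polynomial.eval_map_apply]
      exact (_root_.map_ne_zero ι0).2 hF3

end Pool.Agent.Lib.MXP
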