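import Pool.Agent.Lib.MXP.QDefs
import Pool.Agent.Lib.MXP.Dim
import Pool.Agent.Lib.TQ.CgB
import Pool.Agent.Lib.MP_3029eb_ag.Comp1

/-!
# Module QFin: the completion of `A` is finite over the completion of `Λ[t]`
-/

namespace Pool.Agent.Lib.MXP

open Pool.Agent.Lib.MP_3029eb_ag Pool.Agent.Lib.MP_3029eb_ag.Abh Pool.Agent.Lib.TDO
open Pool.Agent.Lib.TQ

variable {E W : Type} [Field E] [NormedField W] [IsUltrametricDist W] [Algebra E W] {p r : ℕ}

/-- The only element of `Λ` of norm less than one is zero. -/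
theorem lam_lt (hE : AmbE p r E W) {e : W} (he : e ∈ Lam E W) (h1 : ‖e‖ < 1) : e = 0 := by
  obtain ⟨⟨c, rfl⟩, -⟩ := he
  by_cases hc : c = 0
  · rw [hc]; exact map_zero _
  · exact absurd h1 (by rw [show ‖(algebraMap E W) c‖ = 1 from hE.trv c hc]; exact lt_irrefl _)

/-- The ring `Λ[t]` is noetherian. -/
theorem ptx_noeth (hE : AmbE p r E W) {n : ℕ} (t : Fin n → W) :
    IsNoetherianRing (Subring.closure ((Lam E W : Set W) ∪ Set.range t)) := by
  classical
  have h1 := lam_noeth hE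
  have h2 := isNoetherianRing_closure (A := Lam E W) (Finset.univ.image t)
  rw [Finset.coe_image, Finset.coe_univ, Set.image_univ] at h2
  exact h2

theorem pt_bot (hE : AmbE p r E W) {n : ℕ} (t : Fin n → W) :
    Pt (⊥ : IntermediateField E W) t = PtX E t := by
  unfold Pt PtX
  have h : ((⊥ : IntermediateField E W) : Set W) = (Lam E W : Set W) := by
    rw [← range_Lam hE]
    ext z
    rw [SetLike.mem_coe, IntermediateField.mem_bot]
  rw [h]

theorem q_fin (hAE : AmbE p r E W) {X : Subfield W} {D : Subring W} (hD : Nl X D)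
    (hDc : Cp D = D) (hC0D : ∀ e ∈ Lam E W, e ∈ D)
    (hres : ∀ z ∈ D, ∃ e ∈ Lam E W, ‖z - e‖ < 1) {n : ℕ} (t : Fin n → W)
    (ht : ∀ i, t i ∈ D ∧ ‖t i‖ < 1) (N : ℕ)
    (hN : ∀ z ∈ mP D N, z ∈ Submodule.span D (Set.range t)) :
    Nl X (PtX E t) ∧ Cp (PtX E t) ≤ D ∧
      (∀ z ∈ PtX E t, ‖z‖ < 1 → z ∈ Submodule.span (PtX E t) (Set.range t)) ∧
      ∃ (l : ℕ) (v : Fin l → W), (∀ i, v i ∈ D) ∧
        ∀ z ∈ D, ∃ c : Fin l → W, (∀ i, c i ∈ Cp (PtX E t)) ∧ z = ∑ i, c i * v i := by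
  have hmem : ∀ e, e ∈ (⊥ : IntermediateField E W) ↔ e ∈ Lam E W := by
    intro e
    rw [IntermediateField.mem_bot, range_Lam hAE]
    exact Iff.rfl
  have h := cg_fin hD hDc (⊥ : IntermediateField E W) (fun e he he0 => by
      rw [IntermediateField.mem_bot] at he
      obtain ⟨c, rfl⟩ := he
      exact hAE.trv c (fun h => he0 (by rw [h, map_zero])))
    (fun e he => hC0D e ((hmem e).1 he))
    (fun z hz => by
      obtain ⟨e, he, h1⟩ := hres z hz
      exact ⟨e, (hmem e).2 he, h1⟩) t ht N hN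
  rw [pt_bot hAE] at h
  exact h

theorem q_indep (hAE : AmbE p r E W) {X : Subfield W} {D : Subring W} (hD : Nl X D) {ρ : ℕ}
    (hdim : ringKrullDim D = (((ρ : ℕ) : ℕ∞) : WithBot ℕ∞)) (t : Fin ρ → W)
    (ht : ∀ i, t i ∈ D ∧ ‖t i‖ < 1) (hP : Nl X (PtX E t)) (hPD : Cp (PtX E t) ≤ D) {l : ℕ}
    (v : Fin l → W) (hv : ∀ i, v i ∈ D)
    (hgen : ∀ z ∈ D, ∃ c : Fin l → W, (∀ i, c i ∈ Cp (PtX E t)) ∧ z = ∑ i, c i * v i) :
    AlgebraicIndependent E t := by
  rw [← pt_bot hAE] at hP hPD hgen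
  have h := cg_indep hD (⊥ : IntermediateField E W) (fun e he he0 => by
      rw [IntermediateField.mem_bot] at he
      obtain ⟨c, rfl⟩ := he
      exact hAE.trv c (fun h => he0 (by rw [h, map_zero]))) hdim t ht hP hPD v hv hgen
  exact h.restrictScalars (algebraMap E (⊥ : IntermediateField E W)).injective

end Pool.Agent.Lib.MXP
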