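import Pool.Agent.Lib.MXP.BxB
import Pool.Agent.Lib.MXP.QFin
import Pool.Agent.Lib.TDO.Mon

/-!
# Module QCh0: the first chart
-/

namespace Pool.Agent.Lib.MXP

open Pool.Agent.Lib.MP_3029eb_ag Pool.Agent.Lib.MP_3029eb_ag.Abh Pool.Agent.Lib.TDO
open Pool.Agent.Lib.TU (Mt exists_Mt)

variable {E W : Type} [Field E] [NormedField W] [IsUltrametricDist W] [Algebra E W] {p r : ℕ}

/-- algebraic over the field of fractions, so algebraic over the ring -/
theorem alg_frac {A0 : Subring W} {F : IntermediateField E W} (hle : ∀ a ∈ A0, a ∈ F)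
    (hfr : ∀ z ∈ F, ∃ a ∈ A0, ∃ b ∈ A0, b ≠ 0 ∧ z * b = a) {z : W} (hz : IsAlgebraic F z) :
    IsAlgebraic A0 z := by
  let _ : Algebra A0 F :=
    (A0.subtype.codRestrict F.toSubfield.toSubring (fun a => hle a a.2)).toAlgebra
  have : IsScalarTower A0 F W := IsScalarTower.of_algebraMap_eq fun _ => rfl
  have : Algebra.IsAlgebraic A0 F := by
    refine ⟨fun u => ?_⟩
    obtain ⟨a, ha, b, hb, hb0, h⟩ := hfr u u.2
    refine ⟨Polynomial.C (⟨b, hb⟩ : A0) * Polynomial.X - Polynomial.C (⟨a, ha⟩ : A0), ?_, ?_⟩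
    · intro h0
      have h1 := congrArg (fun P => Polynomial.coeff P 1) h0
      simp only [Polynomial.coeff_sub, Polynomial.coeff_C_mul, Polynomial.coeff_X_one, mul_one,
        Polynomial.coeff_C_succ, sub_zero, Polynomial.coeff_zero] at h1
      exact hb0 (congrArg Subtype.val h1)
    · rw [map_sub, map_mul, Polynomial.aeval_C, Polynomial.aeval_C, Polynomial.aeval_X, sub_eq_zero]
      apply Subtype.ext
      show b * (u : W) = a
      rw [← h, mul_comm]
  exact hz.restrictScalars A0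

/-- the elements of `E` are fractions of elements of `Λ` -/
private theorem qch_E (e : E) :
    ∃ a ∈ Lam E W, ∃ b ∈ Lam E W, b ≠ 0 ∧ algebraMap E W e * b = a := by
  rcases le_total ‖algebraMap E W e‖ 1 with h | h
  · exact ⟨algebraMap E W e, ⟨⟨e, rfl⟩, h⟩, 1, one_mem _, one_ne_zero, mul_one _⟩
  · have h0 : algebraMap E W e ≠ 0 := by
      intro h0
      rw [h0, norm_zero] at h
      exact absurd h (not_le.2 one_pos)
    refine ⟨1, one_mem _, (algebraMap E W e)⁻¹, ⟨⟨e⁻¹, map_inv₀ _ _⟩, ?_⟩, inv_ne_zero h0,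
      mul_inv_cancel₀ h0⟩
    show ‖(algebraMap E W e)⁻¹‖ ≤ 1
    rw [norm_inv]
    exact inv_le_one_of_one_le₀ h

/-- fractions -/
theorem adjoin_frac (T : Set W) {z : W}
    (hz : z ∈ IntermediateField.adjoin E T) :
    ∃ a ∈ Subring.closure ((Lam E W : Set W) ∪ T), ∃ b ∈ Subring.closure ((Lam E W : Set W) ∪ T),
      b ≠ 0 ∧ z * b = a := by
  refine IntermediateField.adjoin_induction E
    (p := fun z _ => ∃ a ∈ Subring.closure ((Lam E W : Set W) ∪ T),
      ∃ b ∈ Subring.closure ((Lam E W : Set W) ∪ T), b ≠ 0 ∧ z * b = a)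
    (fun x hx => ⟨x, Subring.subset_closure (Or.inr hx), 1, one_mem _, one_ne_zero, mul_one x⟩)
    (fun e => ?_) ?_ ?_ ?_ hz
  · obtain ⟨a, ha, b, hb, hb0, h⟩ := qch_E (W := W) e
    exact ⟨a, Subring.subset_closure (Or.inl ha), b, Subring.subset_closure (Or.inl hb), hb0, h⟩
  · rintro x y _ _ ⟨a, ha, b, hb, hb0, e⟩ ⟨a', ha', b', hb', hb0', e'⟩
    refine ⟨a * b' + a' * b, add_mem (mul_mem ha hb') (mul_mem ha' hb), b * b', mul_mem hb hb',
      mul_ne_zero hb0 hb0', ?_⟩
    rw [← e, ← e']; ring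
  · rintro x _ ⟨a, ha, b, hb, hb0, e⟩
    by_cases hx : x = 0
    · exact ⟨0, zero_mem _, 1, one_mem _, one_ne_zero, by rw [hx, inv_zero, zero_mul]⟩
    · refine ⟨b, hb, a, ha, ?_, ?_⟩
      · rw [← e]; exact mul_ne_zero hx hb0
      · rw [← e, ← mul_assoc, inv_mul_cancel₀ hx, one_mul]
  · rintro x y _ _ ⟨a, ha, b, hb, hb0, e⟩ ⟨a', ha', b', hb', hb0', e'⟩
    refine ⟨a * a', mul_mem ha ha', b * b', mul_mem hb hb', mul_ne_zero hb0 hb0', ?_⟩
    rw [← e, ← e']; ring


/-- the first chart -/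
theorem gs_start {S : IntermediateField E W} (hA : AmbX p r S) {x : Fin r → W} (hx : Indep x)
    (hxS : ∀ i, x i ∈ S) {y : W} (hyS : y ∈ S) (hy1 : ‖y‖ < 1)
    (hsep : ∀ z ∈ S, IsSeparable (IntermediateField.adjoin E (insert y (Set.range x))) z) :
    ∃ c : Tri W r, Gs S c ∧ Fr E c = IntermediateField.adjoin E (insert y (Set.range x)) := by
  classical
  obtain ⟨B, hB⟩ : ∃ B : Subring W, B = locV (ball W) (Subring.closure ((Lam E W : Set W) ∪
    insert y (Set.range x))) := ⟨_, rfl⟩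
  have hXn : ∀ z ∈ (Lam E W : Set W) ∪ insert y (Set.range x), ‖z‖ ≤ 1 := by
    rintro z (hz | (rfl | ⟨i, rfl⟩))
    · exact hz.2
    · exact hy1.le
    · exact (hx.lt i).le
  have hBn : ∀ z ∈ B, ‖z‖ ≤ 1 := fun z hz => by
    rw [hB] at hz
    exact norm_le_locV_closure hXn hz
  have hsub : ∀ z ∈ (Lam E W : Set W) ∪ insert y (Set.range x), z ∈ B := fun z hz => by
    rw [hB]; exact subset_locV_closure hz
  have hLB : ∀ z ∈ Lam E W, z ∈ B := fun z hz => hsub z (Or.inl hz)
  have hyB : y ∈ B := hsub y (Or.inr (Or.inl rfl))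
  have hxB : ∀ i, x i ∈ B := fun i => hsub _ (Or.inr (Or.inr ⟨i, rfl⟩))
  have hXS : ∀ z ∈ (Lam E W : Set W) ∪ insert y (Set.range x), z ∈ S := by
    rintro z (hz | (rfl | ⟨i, rfl⟩))
    · obtain ⟨⟨e, rfl⟩, -⟩ := hz
      exact S.algebraMap_mem e
    · exact hyS
    · exact hxS i
  have hgen := gen_ext (B := Lam E W) (A := B) (x := x) (y := y) (by
    rintro z ⟨⟨e, rfl⟩, h0⟩ h1
    refine ⟨⟨e⁻¹, map_inv₀ _ _⟩, ?_⟩
    show ‖(algebraMap E W e)⁻¹‖ ≤ 1
    rw [norm_inv, h1, inv_one]) (insert y (Set.range x)) hB hBn hx.lt hy1 (by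
    rintro g (rfl | ⟨i, rfl⟩)
    · exact ⟨0, zero_mem _, by rw [sub_zero]; exact JI_y⟩
    · exact ⟨0, zero_mem _, by rw [sub_zero]; exact JI_x i⟩) (by
    intro z hz h1
    rw [lam_lt hA.ambE hz h1]
    exact JI_zero)
  have hFr : IntermediateField.adjoin E (B : Set W) =
      IntermediateField.adjoin E (insert y (Set.range x)) := by
    apply le_antisymm
    · rw [IntermediateField.adjoin_le_iff]
      intro z hz
      have hz' : z ∈ B := hz
      rw [hB] at hz'
      obtain ⟨a, ha, b, hb, hb1, hab⟩ := hz'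
      have h4 : Subring.closure ((Lam E W : Set W) ∪ insert y (Set.range x)) ≤
          (IntermediateField.adjoin E (insert y (Set.range x))).toSubfield.toSubring := by
        rw [Subring.closure_le]
        rintro z (hz | hz)
        · obtain ⟨⟨e, rfl⟩, -⟩ := hz
          exact IntermediateField.algebraMap_mem _ e
        · exact IntermediateField.subset_adjoin E _ hz
      have hb0 : b ≠ 0 := by
        rintro rfl
        rw [map_zero] at hb1
        exact zero_ne_one hb1
      rw [eq_div_of_mul_eq hb0 hab]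
      exact div_mem (h4 ha) (h4 hb)
    · rw [IntermediateField.adjoin_le_iff]
      exact fun z hz => IntermediateField.subset_adjoin E _ (hsub z (Or.inr hz))
  refine ⟨⟨B, x, y⟩, ⟨⟨insert y (Finset.univ.image x), ?_⟩, fun z hz => ⟨?_, hBn z hz⟩, hx, hy1,
    hxB, hyB, fun z hz h1 => hgen.2 z hz h1, fun z hz => ?_, fun z hz => ?_⟩, ?_⟩
  · rw [Finset.coe_insert, Finset.coe_image, Finset.coe_univ, Set.image_univ]
    exact hB
  · have hz' : z ∈ B := hz
    rw [hB] at hz'
    obtain ⟨a, ha, b, hb, hb1, hab⟩ := hz'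
    have h4 : Subring.closure ((Lam E W : Set W) ∪ insert y (Set.range x)) ≤
        S.toSubfield.toSubring := by
      rw [Subring.closure_le]
      exact hXS
    have hb0 : b ≠ 0 := by
      rintro rfl
      rw [map_zero] at hb1
      exact zero_ne_one hb1
    rw [eq_div_of_mul_eq hb0 hab]
    exact div_mem (h4 ha) (h4 hb)
  · show IsAlgebraic B z
    have h1 : Subring.closure ((Lam E W : Set W) ∪ insert y (Set.range x)) ≤ B := by
      rw [Subring.closure_le]
      exact hsub
    refine isAlgebraic_mono h1 (alg_frac ?_ (fun z hz => adjoin_frac _ hz)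
      (hsep z hz).isIntegral.isAlgebraic)
    have h2 : Subring.closure ((Lam E W : Set W) ∪ insert y (Set.range x)) ≤
        (IntermediateField.adjoin E (insert y (Set.range x))).toSubfield.toSubring := by
      rw [Subring.closure_le]
      rintro z (hz | hz)
      · obtain ⟨⟨e, rfl⟩, -⟩ := hz
        exact IntermediateField.algebraMap_mem _ e
      · exact IntermediateField.subset_adjoin E _ hz
    exact fun a ha => h2 ha
  · show IsSeparable (IntermediateField.adjoin E (B : Set W)) z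
    rw [hFr]
    exact hsep z hz
  · exact hFr

end Pool.Agent.Lib.MXP
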