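import Pool.Agent.Lib.MXP.QFin
import Pool.Agent.Lib.TQ.CpH
import Pool.Agent.Lib.TDO.Cl

/-!
# Module QDat: approximation data
-/

namespace Pool.Agent.Lib.MXP

open Pool.Agent.Lib.MP_3029eb_ag Pool.Agent.Lib.MP_3029eb_ag.Abh Pool.Agent.Lib.TDO
open Pool.Agent.Lib.TQ (mI mP Cp Nl DenD le_Cp Cp_max Cp_idem Cp_dens Cp_mono cp_eq_of_surj
  newton_X norm_eval_close root_unique mP_zero_mem)

private theorem apx_norm {W : Type} [NormedField W] [IsUltrametricDist W] {a b : W}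
    (h : ‖a - b‖ < ‖a‖) : ‖b‖ = ‖a‖ := by
  have h1 : ‖a‖ ≠ ‖-(a - b)‖ := by
    rw [norm_neg]
    exact h.ne'
  have h2 := IsUltrametricDist.norm_add_eq_max_of_norm_ne_norm h1
  rw [norm_neg, max_eq_left h.le] at h2
  have h3 : a + -(a - b) = b := by ring
  rwa [h3] at h2

private theorem apx_eval_mem {W : Type} [NormedField W] (R : Subring W) (F : Polynomial W)
    (hF : ∀ j, F.coeff j ∈ R) {x : W} (hx : x ∈ R) : F.eval x ∈ R := by
  rw [Polynomial.eval_eq_sum_range]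
  exact sum_mem fun i _ => mul_mem (hF i) (pow_mem hx i)

private theorem apx_der_mem {W : Type} [NormedField W] (R : Subring W) (F : Polynomial W)
    (hF : ∀ j, F.coeff j ∈ R) (j : ℕ) : F.derivative.coeff j ∈ R := by
  rw [Polynomial.coeff_derivative]
  refine mul_mem (hF _) ?_
  exact_mod_cast natCast_mem R (j + 1)

private theorem apx_loc {E W : Type} [Field E] [NormedField W] [IsUltrametricDist W] [Algebra E W]
    (X : IntermediateField E W) (G : Set W) (hE : G ⊆ X) :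
    ∀ z ∈ locV (ball W) (Subring.closure G), z ∈ X := by
  have h0 : Subring.closure G ≤ X.toSubfield.toSubring := Subring.closure_le.2 hE
  rintro z ⟨a, ha, b, hb, hb1, hab⟩
  have hb2 : ‖b‖ = 1 := (ball_val_eq_one b).1 hb1
  have hb0 : b ≠ 0 := by
    intro h0
    rw [h0, norm_zero] at hb2
    exact zero_ne_one hb2
  have h1 : z = a * b⁻¹ := by
    rw [← hab, mul_assoc, mul_inv_cancel₀ hb0, mul_one]
  rw [h1]
  exact mul_mem (h0 ha) (inv_mem (h0 hb))

private theorem apx_nl {W : Type} [NormedField W] {X Y : Subfield W} {B : Subring W}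
    (h : Nl X B) (hY : IsComplete (Y : Set W)) (hnt : ∃ z ∈ Y, z ≠ 0 ∧ ‖z‖ < 1)
    (hle : ∀ z ∈ B, z ∈ Y) : Nl Y B :=
  ⟨hY, hnt, hle, h.one, h.inv, h.noeth⟩

/-- one approximation -/
private theorem apx_one {W : Type} [NormedField W] [IsUltrametricDist W] {L : Subfield W}
    {A P : Subring W} (hN : Nl L (Cp A)) (hP : Nl L P) (hPD : Cp P ≤ Cp A) {τ : ℝ} {N : ℕ}
    (hτ : ∀ z ∈ mP (Cp P) N, ‖z‖ ≤ τ ^ N) (F : Polynomial W) (hF : ∀ j, F.coeff j ∈ Cp P)
    {w : W} (hw : w ∈ Cp A) (h0 : F.eval w = 0) (h1 : F.derivative.eval w ≠ 0)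
    (hd : τ ^ N < ‖F.derivative.eval w‖ ^ 2) :
    ∃ (F' : Polynomial W) (w' : W), (∀ i, F'.coeff i ∈ P) ∧
      (∀ i, F.coeff i - F'.coeff i ∈ mP (Cp P) N) ∧ F'.eval w' = 0 ∧ w' ∈ L ∧ ‖w'‖ ≤ 1 ∧
      F'.derivative.eval w' ≠ 0 ∧ ‖F.derivative.eval w‖ = ‖F'.derivative.eval w'‖ ∧
      ‖w - w'‖ < ‖F'.derivative.eval w'‖ ∧
      ∀ X : Subfield W, IsComplete (X : Set W) → (∀ z ∈ Cp P, z ∈ X) → w' ∈ X → w ∈ X := by
  classical
  have hcoef : ∀ i, ‖F.coeff i‖ ≤ 1 := fun i => hN.one _ (hPD (hF i))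
  have hw1 : ‖w‖ ≤ 1 := hN.one _ hw
  obtain ⟨d, hdd⟩ : ∃ d : ℝ, d = ‖F.derivative.eval w‖ := ⟨_, rfl⟩
  have hd0 : 0 < d := by rw [hdd]; exact norm_pos_iff.2 h1
  have hd1 : d ≤ 1 := by
    rw [hdd]
    exact hN.one _ (apx_eval_mem (Cp A) _ (apx_der_mem (Cp A) F fun j => hPD (hF j)) hw)
  rw [← hdd] at hd
  have hdsq : d ^ 2 ≤ d := by nlinarith
  choose c hc1 hc2 using fun i => Cp_dens hP (hF i) N
  obtain ⟨F', hF'⟩ : ∃ F' : Polynomial W, ∀ i, F'.coeff i = if i ≤ F.natDegree then c i else 0 := by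
    refine ⟨∑ i ∈ Finset.range (F.natDegree + 1), Polynomial.C (c i) * Polynomial.X ^ i,
      fun i => ?_⟩
    rw [Polynomial.finsetSum_coeff]
    simp only [Polynomial.coeff_C_mul_X_pow]
    rw [Finset.sum_ite_eq (Finset.range (F.natDegree + 1)) i c]
    simp only [Finset.mem_range, Nat.lt_succ_iff]
  have hFP' : ∀ i, F'.coeff i ∈ P := by
    intro i
    rw [hF']
    split_ifs
    · exact hc1 i
    · exact zero_mem _
  have hclose : ∀ i, F.coeff i - F'.coeff i ∈ mP (Cp P) N := by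
    intro i
    rw [hF']
    split_ifs with hi
    · exact hc2 i
    · rw [Polynomial.coeff_eq_zero_of_natDegree_lt (not_le.1 hi), sub_zero]
      exact mP_zero_mem N
  have hFF : ∀ i, ‖F.coeff i - F'.coeff i‖ ≤ τ ^ N := fun i => hτ _ (hclose i)
  have hτN : 0 ≤ τ ^ N := (norm_nonneg _).trans (hFF 0)
  have hn1 := norm_eval_close F F' hcoef hFF hw1 hw1
  rw [sub_self, norm_zero, max_eq_right hτN, h0, zero_sub, norm_neg] at hn1
  have hder : ‖F'.derivative.eval w‖ = d := by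
    rw [hdd]
    apply apx_norm
    rw [← hdd]
    exact hn1.2.trans_lt (hd.trans_le hdsq)
  obtain ⟨w', hw'L, hw'0, hw'c⟩ := newton_X hP.comp F' (fun i => ⟨hP.le _ (hFP' i),
    hP.one _ (hFP' i)⟩) (hN.le _ hw) hw1 (by rw [hder]; exact hn1.1.trans_lt hd)
  rw [hder] at hw'c
  have hww : ‖w' - w‖ < d := by
    have h2 : ‖w' - w‖ * d < d * d := by
      rw [← pow_two]
      exact hw'c.trans_lt (hn1.1.trans_lt hd)
    exact lt_of_mul_lt_mul_right h2 hd0.le
  have hw'1 : ‖w'‖ ≤ 1 := by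
    have h2 : w' = (w' - w) + w := by ring
    rw [h2]
    exact (IsUltrametricDist.norm_add_le_max _ _).trans (max_le (hww.le.trans hd1) hw1)
  have hder' : ‖F'.derivative.eval w'‖ = d := by
    have hn2 := (norm_eval_close F' F' (fun i => hP.one _ (hFP' i)) (ε := 0)
      (fun i => by rw [sub_self, norm_zero]) hw1 hw'1).2
    rw [max_eq_left (norm_nonneg _)] at hn2
    rw [← hder]
    apply apx_norm
    rw [hder]
    refine hn2.trans_lt ?_
    rw [norm_sub_rev]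
    exact hww
  refine ⟨F', w', hFP', hclose, hw'0, hw'L, hw'1, ?_, ?_, ?_, ?_⟩
  · intro h2
    rw [h2, norm_zero] at hder'
    exact hd0.ne hder'
  · rw [hder', hdd]
  · rw [hder', norm_sub_rev]
    exact hww
  · intro X hX hPX hw'X
    have hn3 := norm_eval_close F F' hcoef hFF hw'1 hw'1
    rw [sub_self, norm_zero, max_eq_right hτN, hw'0, sub_zero] at hn3
    have hder2 : ‖F.derivative.eval w'‖ = d := by
      have h2 : ‖F'.derivative.eval w' - F.derivative.eval w'‖ < ‖F'.derivative.eval w'‖ := by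
        rw [norm_sub_rev, hder']
        exact hn3.2.trans_lt (hd.trans_le hdsq)
      rw [apx_norm h2, hder']
    obtain ⟨z, hzX, hz0, hzc⟩ := newton_X hX F (fun i => ⟨hPX _ (hF i), hcoef i⟩) hw'X hw'1
      (by rw [hder2]; exact hn3.1.trans_lt hd)
    rw [hder2] at hzc
    have hzw : ‖z - w'‖ < d := by
      have h2 : ‖z - w'‖ * d < d * d := by
        rw [← pow_two]
        exact hzc.trans_lt (hn3.1.trans_lt hd)
      exact lt_of_mul_lt_mul_right h2 hd0.le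
    have hz1 : ‖z‖ ≤ 1 := by
      have h2 : z = (z - w') + w' := by ring
      rw [h2]
      exact (IsUltrametricDist.norm_add_le_max _ _).trans (max_le (hzw.le.trans hd1) hw'1)
    have hwz : ‖w - z‖ < d := by
      have h2 : w - z = -((w' - w) + (z - w')) := by ring
      rw [h2, norm_neg]
      exact (IsUltrametricDist.norm_add_le_max _ _).trans_lt (max_lt hww hzw)
    have h3 : w = z := root_unique F hcoef hw1 hz1 h0 hz0 (by rw [← hdd]; exact hwz)
    rw [h3]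
    exact hzX

private theorem apx_T {W : Type} [NormedField W] {n : ℕ} (hn : 0 < n) (t : Fin n → W)
    (ht : ∀ i, ‖t i‖ < 1) {τ : ℝ} (h0 : 0 ≤ τ) (h1 : τ < 1) :
    ∃ T : ℝ, 0 ≤ T ∧ T < 1 ∧ τ ≤ T ∧ ∀ i, ‖t i‖ ≤ T := by
  obtain ⟨i0, -, hi0⟩ := Finset.exists_max_image (Finset.univ : Finset (Fin n))
    (fun i => ‖t i‖) ⟨⟨0, hn⟩, Finset.mem_univ _⟩
  exact ⟨max τ ‖t i0‖, h0.trans (le_max_left _ _), max_lt h1 (ht i0), le_max_left _ _,
    fun i => (hi0 i (Finset.mem_univ i)).trans (le_max_right _ _)⟩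

private theorem apx_N {T : ℝ} (h0 : 0 ≤ T) (h1 : T < 1) {q : ℕ} (d : Fin q → ℝ)
    (hd : ∀ j, 0 < d j) : ∃ N : ℕ, ∀ j, T ^ N < d j := by
  choose M hM using fun j => exists_pow_lt_of_lt_one (hd j) h1
  refine ⟨∑ j, M j, fun j => ?_⟩
  refine lt_of_le_of_lt ?_ (hM j)
  exact pow_le_pow_of_le_one h0 h1.le (Finset.single_le_sum (fun _ _ => Nat.zero_le _)
    (Finset.mem_univ j))

variable {E W : Type} [Field E] [NormedField W] [IsUltrametricDist W] [Algebra E W] {p r : ℕ}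

/-- If the `w j` generate the maximal ideal of the complete ring `D`, then `D` is the completion of
`Λ[w]`. -/
theorem q_ptx (hAE : AmbE p r E W) {X : Subfield W} {D : Subring W} (hD : Nl X D)
    (hDc : Cp D = D) (hΛ : ∀ e ∈ Lam E W, e ∈ D) {q : ℕ} (w : Fin q → W)
    (hw : ∀ j, w j ∈ D ∧ ‖w j‖ < 1) (hres : ∀ z ∈ D, ∃ e ∈ Lam E W, ‖z - e‖ < 1)
    (hgen : ∀ z ∈ D, ‖z‖ < 1 → z ∈ Submodule.span D (Set.range w)) :
    Nl X (PtX E w) ∧ Cp (PtX E w) = D := by
  have hn := ptx_noeth hAE w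
  obtain ⟨R, hR⟩ : ∃ R : Subring W, R = Subring.closure ((Lam E W : Set W) ∪ Set.range w) :=
    ⟨_, rfl⟩
  obtain ⟨P, hPdef⟩ : ∃ P : Subring W, P = PtX E w := ⟨_, rfl⟩
  have hPR : P = locV (ball W) R := by rw [hPdef, hR]; rfl
  rw [← hR] at hn
  rw [← hPdef]
  have hRD : R ≤ D := by
    rw [hR, Subring.closure_le]
    rintro z (hz | ⟨j, rfl⟩)
    · exact hΛ z hz
    · exact (hw j).1
  have hPD : P ≤ D := by
    have h1 := locV_mono (ball W) hRD
    rw [hPR]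
    rwa [hD.locV_eq] at h1
  have hNl : Nl X P :=
    { comp := hD.comp
      nt := hD.nt
      le := fun z hz => hD.le z (hPD hz)
      one := fun z hz => hD.one z (hPD hz)
      inv := fun z hz h1 => by
        rw [hPR] at hz ⊢
        exact E5_inv (locV_locV (ball W) R) hz ((ball_val_eq_one z).2 h1)
      noeth := by
        rw [hPR]
        exact isNoetherianRing_locV (ball W) }
  have hRP : R ≤ P := by
    rw [hPR]
    exact le_locV (ball W) R
  refine ⟨hNl, ?_⟩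
  have h := cp_eq_of_surj hNl hD (by rw [hDc]; exact hPD) ?_ ?_
  · rw [h, hDc]
  · rw [hDc]
    intro z hz
    obtain ⟨e, he, h1⟩ := hres z hz
    refine ⟨e, hRP ?_, h1⟩
    rw [hR]
    exact Subring.subset_closure (Or.inl he)
  · rw [hDc]
    intro z hz h1
    refine Submodule.span_mono ?_ (hgen z hz h1)
    rintro _ ⟨j, rfl⟩
    refine ⟨hRP ?_, (hw j).2⟩
    rw [hR]
    exact Subring.subset_closure (Or.inr ⟨j, rfl⟩)

theorem exists_datX (hAE : AmbE p r E W) {n : ℕ} (hn : 0 < n) (L : IntermediateField E W)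
    (A : Subring W) (hN : Nl L.toSubfield A)
    (hdens : ∀ z ∈ L, ∀ ε : ℝ, 0 < ε → ∃ a ∈ A, ∃ b ∈ A, b ≠ 0 ∧ ‖z - a / b‖ < ε)
    (t : Fin n → W) (hCD : ∀ e ∈ Lam E W, e ∈ Cp A)
    (hres : ∀ z ∈ Cp A, ∃ e ∈ Lam E W, ‖z - e‖ < 1)
    (ht : ∀ i, t i ∈ Cp A ∧ ‖t i‖ < 1 ∧ t i ≠ 0) (hP : Nl L.toSubfield (PtX E t))
    (hPD : Cp (PtX E t) ≤ Cp A)
    (hsep : ∀ z ∈ Cp A, ∃ F : Polynomial W, (∀ j, F.coeff j ∈ Cp (PtX E t)) ∧ F.eval z = 0 ∧
        F.derivative.eval z ≠ 0) :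
    ∃ (q : ℕ) (w w' : Fin q → W) (F F' : Fin q → Polynomial W) (N : ℕ),
      L = cl (IntermediateField.adjoin E (Set.range t ∪ Set.range w')) ∧
      ∀ S : IntermediateField E W, (∀ z : W, z ∈ S ↔ IsSeparable (IntermediateField.adjoin E
        (Set.range t ∪ Set.range w')) z) → DatX S L A t w w' F F' N := by
  classical
  obtain ⟨q, w, hw, hgen⟩ := hN.exists_gens
  have hcN : Nl L.toSubfield (Cp A) := hN.cp
  have hQ : Nl L.toSubfield (Cp (PtX E t)) := hP.cp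
  choose F hF1 hF2 hF3 using fun j => hsep (w j) (le_Cp (hw j).1)
  obtain ⟨τ, hτ0, hτ1, hτ⟩ := hQ.exists_tau
  obtain ⟨T, hT0, hT1, hτT, htT⟩ := apx_T hn t (fun i => (ht i).2.1) hτ0 hτ1
  obtain ⟨N, hNN⟩ := apx_N hT0 hT1 (fun j => ‖(F j).derivative.eval (w j)‖ ^ 2)
    (fun j => pow_pos (norm_pos_iff.2 (hF3 j)) 2)
  choose F' w' a1 a2 a3 a4 a5 a6 a7 a8 a9 using fun j => apx_one hcN hP hPD (hτ N) (F j) (hF1 j)
    (le_Cp (hw j).1) (hF2 j) (hF3 j)
    (lt_of_le_of_lt (pow_le_pow_left₀ hτ0 hτT N) (hNN j))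
  obtain ⟨F2, hF2d⟩ : ∃ F2 : IntermediateField E W, F2 = IntermediateField.adjoin E
    (Set.range t ∪ Set.range w') := ⟨_, rfl⟩
  have hC0F : ∀ e ∈ Lam E W, e ∈ F2 := by
    rintro e ⟨⟨c, rfl⟩, -⟩
    exact F2.algebraMap_mem c
  have htF : ∀ i, t i ∈ F2 := fun i => by
    rw [hF2d]; exact IntermediateField.subset_adjoin E _ (Or.inl ⟨i, rfl⟩)
  have hw'F : ∀ j, w' j ∈ F2 := fun j => by
    rw [hF2d]; exact IntermediateField.subset_adjoin E _ (Or.inr ⟨j, rfl⟩)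
  have hC0L : ∀ e ∈ Lam E W, e ∈ L := fun e he => hcN.le _ (hCD e he)
  have htL : ∀ i, t i ∈ L := fun i => hcN.le _ (ht i).1
  have hF2L : F2 ≤ L := by
    rw [hF2d, IntermediateField.adjoin_le_iff]
    rintro z (⟨i, rfl⟩ | ⟨j, rfl⟩)
    · exact htL i
    · exact a4 j
  have hLc : IsComplete (L : Set W) := hN.comp
  refine ⟨q, w, w', F, F', N, ?_, ?_⟩
  · rw [← hF2d]
    refine le_antisymm ?_ (cl_le_of_isComplete hLc hF2L)
    have hXc : IsComplete ((cl F2 : IntermediateField E W) : Set W) := isComplete_cl hLc hF2L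
    have hnt : ∃ z ∈ (cl F2).toSubfield, z ≠ 0 ∧ ‖z‖ < 1 :=
      ⟨t ⟨0, hn⟩, le_cl F2 (htF _), (ht _).2.2, (ht _).2.1⟩
    have hPX : Nl (cl F2).toSubfield (PtX E t) := by
      refine apx_nl hP hXc hnt (apx_loc (cl F2) _ ?_)
      rintro z (hz | ⟨i, rfl⟩)
      · exact le_cl F2 (hC0F z hz)
      · exact le_cl F2 (htF i)
    have hCpX : ∀ z ∈ Cp (PtX E t), z ∈ (cl F2).toSubfield := hPX.cp.le
    have hwX : ∀ j, w j ∈ cl F2 := fun j =>
      a9 j (cl F2).toSubfield hXc hCpX (le_cl F2 (hw'F j))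
    have hgen' : ∀ z ∈ Cp A, ‖z‖ < 1 → z ∈ Submodule.span (Cp A) (Set.range w) := by
      intro z hz hz1
      refine (Submodule.span_le.2 ?_ : Submodule.span (Cp A) {b : W | b ∈ A ∧ ‖b‖ < 1} ≤ _)
        (Cp_max hN hz hz1)
      rintro b ⟨hb, hb1⟩
      have h1 := hgen b hb hb1
      rw [Submodule.mem_span_range_iff_exists_fun] at h1
      obtain ⟨c, hc⟩ := h1
      rw [SetLike.mem_coe, Submodule.mem_span_range_iff_exists_fun]
      exact ⟨fun i => ⟨(c i : W), le_Cp (c i).2⟩, hc⟩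
    obtain ⟨hP1, hP2⟩ := q_ptx hAE hcN (Cp_idem hN) hCD w
      (fun j => ⟨le_Cp (hw j).1, (hw j).2⟩) hres hgen'
    have hP1X : Nl (cl F2).toSubfield
        (PtX E w) := by
      refine apx_nl hP1 hXc hnt (apx_loc (cl F2) _ ?_)
      rintro z (hz | ⟨j, rfl⟩)
      · exact le_cl F2 (hC0F z hz)
      · exact hwX j
    have hAX : ∀ z ∈ A, z ∈ cl F2 := by
      intro z hz
      have h1 : z ∈ Cp A := le_Cp hz
      rw [← hP2] at h1
      exact hP1X.cp.le _ h1
    intro z hz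
    rw [← cl_cl, mem_cl_iff]
    intro ε hε
    obtain ⟨a, ha, b, hb, -, hab⟩ := hdens z hz ε hε
    exact ⟨a / b, div_mem (hAX a ha) (hAX b hb), hab⟩
  · intro S hS
    rw [← hF2d] at hS
    have hFS : F2 ≤ S := fun z hz =>
      (hS z).2 (isSeparable_algebraMap (F := F2) (K := W) (⟨z, hz⟩ : F2))
    exact
      { nl := hN
        CD := hCD
        res := hres
        n0 := hn
        tD := fun i => ⟨(ht i).1, (ht i).2.1⟩
        tM := fun i => ⟨hFS (htF i), htL i, (ht i).2.2⟩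
        wA := hw
        gen := hgen
        FP := hF1
        FP' := a1
        close := a2
        root := hF2
        root' := a3
        wM' := fun j => ⟨hFS (hw'F j), a4 j, a5 j⟩
        der0 := a6
        der := a7
        ww' := a8
        tN := fun j α hα => by
          rw [← a7 j]
          refine lt_of_le_of_lt ?_ (hNN j)
          unfold monN
          rw [norm_prod, ← hα, ← Finset.prod_pow_eq_pow_sum]
          refine Finset.prod_le_prod (fun i _ => norm_nonneg _) fun i _ => ?_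
          rw [norm_pow]
          exact pow_le_pow_left₀ (norm_nonneg _) (htT i) _ }

end Pool.Agent.Lib.MXP
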