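import Pool.Agent.Lib.MXP.EDefs
import Pool.Agent.Lib.TDO.SepDiff
import Pool.Agent.Lib.TDO.Main
import Mathlib

/-!
# Module QDif: a good separating transcendence basis
-/

namespace Pool.Agent.Lib.MXP

open Pool.Agent.Lib.MP_3029eb_ag Pool.Agent.Lib.MP_3029eb_ag.Abh Pool.Agent.Lib.TDO

open scoped IntermediateField.algebraAdjoinAdjoin in
private lemma qd_formallyEtale {k F : Type} [Field k] [Field F] [Algebra k F] {ι : Type}
    (v : ι → F) [Algebra.IsSeparable (IntermediateField.adjoin k (Set.range v)) F] :
    Algebra.FormallyEtale (Algebra.adjoin k (Set.range v)) F := by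
  have h1 : Algebra.FormallyEtale (Algebra.adjoin k (Set.range v))
      (IntermediateField.adjoin k (Set.range v)) :=
    .of_isLocalization (nonZeroDivisors _)
  have h2 : Algebra.FormallyEtale (IntermediateField.adjoin k (Set.range v)) F :=
    Algebra.FormallyEtale.of_isSeparable _ F
  exact .comp _ (IntermediateField.adjoin k (Set.range v)) _

private lemma qd_finrank {k F : Type} [Field k] [Field F] [Algebra k F] {ι : Type}
    [Fintype ι] (v : ι → F) (hv : AlgebraicIndependent k v)
    (het : Algebra.FormallyEtale (Algebra.adjoin k (Set.range v)) F) :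
    Module.finrank F (Ω[F⁄k]) = Fintype.card ι := by
  let _ : Algebra (MvPolynomial ι k) (Algebra.adjoin k (Set.range v)) :=
    (hv.aevalEquiv : MvPolynomial ι k →+* Algebra.adjoin k (Set.range v)).toAlgebra
  let _ : Algebra (MvPolynomial ι k) F :=
    ((algebraMap (Algebra.adjoin k (Set.range v)) F).comp
      (hv.aevalEquiv : MvPolynomial ι k →+* Algebra.adjoin k (Set.range v))).toAlgebra
  have : IsScalarTower (MvPolynomial ι k) (Algebra.adjoin k (Set.range v)) F :=
    IsScalarTower.of_algebraMap_eq (fun _ => rfl)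
  have : IsScalarTower k (MvPolynomial ι k) F := by
    refine IsScalarTower.of_algebraMap_eq (fun c => ?_)
    have h1 : algebraMap (MvPolynomial ι k) F (algebraMap k (MvPolynomial ι k) c) =
      algebraMap (Algebra.adjoin k (Set.range v)) F (hv.aevalEquiv (algebraMap k _ c)) := rfl
    rw [h1, AlgEquiv.commutes]
    rfl
  have e : MvPolynomial ι k ≃ₐ[MvPolynomial ι k] Algebra.adjoin k (Set.range v) :=
    AlgEquiv.ofRingEquiv (f := hv.aevalEquiv.toRingEquiv) (fun x => rfl)
  have h1 : Algebra.FormallyEtale (MvPolynomial ι k) (Algebra.adjoin k (Set.range v)) :=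
    Algebra.FormallyEtale.of_equiv e
  have h2 : Algebra.FormallyEtale (MvPolynomial ι k) F :=
    Algebra.FormallyEtale.comp _ (Algebra.adjoin k (Set.range v)) _
  have e2 := KaehlerDifferential.tensorKaehlerEquivOfFormallyEtale k (MvPolynomial ι k) F
  have b := (KaehlerDifferential.mvPolynomialBasis k ι).baseChange F
  rw [← e2.finrank_eq, Module.finrank_eq_card_basis b]

/-- The rank of the differentials of a separably generated field. -/
theorem qd_rank {k F : Type} [Field k] [Field F] [Algebra k F] {ι : Type}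
    [Fintype ι] (v : ι → F) (hv : AlgebraicIndependent k v)
    (hs : ∀ z : F, IsSeparable (IntermediateField.adjoin k (Set.range v)) z) :
    Module.finrank F (Ω[F⁄k]) = Fintype.card ι := by
  have : Algebra.IsSeparable (IntermediateField.adjoin k (Set.range v)) F := ⟨hs⟩
  exact qd_finrank v hv (qd_formallyEtale v)

section aux

variable {k F W : Type} [Field k] [Field F] [NormedField W] [Algebra k F]

/-- small elements with differential outside of a given proper subspace -/
private theorem qd_small (ι : F →+* W) (π : F) (hπ0 : π ≠ 0)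
    (hπ : ‖ι π‖ < 1) (V : Submodule F (Ω[F⁄k])) (hV : V ≠ ⊤) (ε : ℝ) (hε : 0 < ε) :
    ∃ s : F, ‖ι s‖ < ε ∧ KaehlerDifferential.D k F s ∉ V := by
  have h1 : ∃ s : F, KaehlerDifferential.D k F s ∉ V := by
    by_contra hcon
    push Not at hcon
    apply hV
    rw [eq_top_iff, ← KaehlerDifferential.span_range_derivation, Submodule.span_le]
    rintro _ ⟨z, rfl⟩
    exact hcon z
  obtain ⟨s, hs⟩ := h1
  obtain ⟨N, hN⟩ := exists_pow_lt_of_lt_one
    (show 0 < ε / (‖ι s‖ + 1) from div_pos hε (by positivity)) hπ
  have hsm : ∀ M, N ≤ M → ‖ι (π ^ M * s)‖ < ε := by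
    intro M hM
    rw [map_mul, map_pow, norm_mul, norm_pow]
    have h2 : ‖ι π‖ ^ M ≤ ‖ι π‖ ^ N := pow_le_pow_of_le_one (norm_nonneg _) hπ.le hM
    have h3 : ‖ι π‖ ^ N * (‖ι s‖ + 1) < ε := (lt_div_iff₀ (by positivity)).1 hN
    calc ‖ι π‖ ^ M * ‖ι s‖ ≤ ‖ι π‖ ^ N * (‖ι s‖ + 1) :=
          mul_le_mul h2 (by linarith) (norm_nonneg _) (by positivity)
      _ < ε := h3
  by_contra hcon
  push Not at hcon
  have hs0 : s ≠ 0 := by
    rintro rfl
    rw [map_zero] at hs
    exact hs (zero_mem _)
  have h2 := hcon _ (hsm N le_rfl)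
  have h3 := hcon _ (hsm (N + 1) (Nat.le_succ N))
  have h4 : π ^ (N + 1) * s = π * (π ^ N * s) := by ring
  rw [h4, Derivation.leibniz] at h3
  have h5 : (π ^ N * s) • KaehlerDifferential.D k F π ∈ V := by
    have h6 := V.sub_mem h3 (V.smul_mem π h2)
    rwa [add_sub_cancel_left] at h6
  have h7 : KaehlerDifferential.D k F π ∈ V :=
    (V.smul_mem_iff (mul_ne_zero (pow_ne_zero _ hπ0) hs0)).1 h5
  rw [Derivation.leibniz] at h2
  have h8 : s • KaehlerDifferential.D k F (π ^ N) ∈ V := by
    refine V.smul_mem _ ?_
    rw [Derivation.leibniz_pow]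
    exact V.smul_of_tower_mem _ (V.smul_mem _ h7)
  have h9 : π ^ N • KaehlerDifferential.D k F s ∈ V := by
    have h10 := V.sub_mem h2 h8
    rwa [add_sub_cancel_right] at h10
  exact hs ((V.smul_mem_iff (pow_ne_zero _ hπ0)).1 h9)

/-- adjust the elements so that the differentials become independent -/
private theorem qd_adjust (ι : F →+* W) {I : Type} [Fintype I] [DecidableEq I]
    (hsm : ∀ V : Submodule F (Ω[F⁄k]), V ≠ ⊤ → ∀ ε : ℝ, 0 < ε →
      ∃ s : F, ‖ι s‖ < ε ∧ KaehlerDifferential.D k F s ∉ V)
    (hdim : Module.finrank F (Ω[F⁄k]) = Fintype.card I) (f : I → F) (ε : I → ℝ)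
    (hε : ∀ a, 0 < ε a) (t : Finset I) : ∃ δ : I → F, (∀ a, ‖ι (δ a)‖ < ε a) ∧
      LinearIndepOn F (fun a => KaehlerDifferential.D k F (f a + δ a)) (t : Set I) := by
  classical
  induction t using Finset.induction_on with
  | empty => exact ⟨fun _ => 0, fun a => by rw [map_zero, norm_zero]; exact hε a, by simp⟩
  | insert a t hat ih =>
    obtain ⟨u, hu, hli⟩ := ih
    set v : I → Ω[F⁄k] := fun i => KaehlerDifferential.D k F (f i + u i) with hv
    set V : Submodule F (Ω[F⁄k]) := Submodule.span F (v '' (t : Set I)) with hV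
    have hVtop : V ≠ ⊤ := by
      intro htop
      have h1 : Module.finrank F V ≤ t.card := by
        have h2 : (v '' (t : Set I)) = ((t.image v : Finset (Ω[F⁄k])) : Set (Ω[F⁄k])) := by
          rw [Finset.coe_image]
        rw [hV, h2]
        exact (finrank_span_finset_le_card _).trans Finset.card_image_le
      have h3 : Module.finrank F V = Fintype.card I := by rw [htop, finrank_top, hdim]
      have h4 : t.card + 1 ≤ Fintype.card I := by
        have := Finset.card_le_univ (insert a t)
        rwa [Finset.card_insert_of_notMem hat] at this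
      omega
    obtain ⟨c, hc1, hc⟩ : ∃ c : F, ‖ι c‖ < ε a ∧ KaehlerDifferential.D k F (f a + c) ∉ V := by
      by_cases h : KaehlerDifferential.D k F (f a) ∈ V
      · obtain ⟨s, hs, hsV⟩ := hsm V hVtop (ε a) (hε a)
        refine ⟨s, hs, ?_⟩
        intro hmem
        rw [map_add] at hmem
        exact hsV ((V.add_mem_iff_right h).1 hmem)
      · exact ⟨0, by rw [map_zero, norm_zero]; exact hε a, by rwa [add_zero]⟩
    refine ⟨Function.update u a c, ?_, ?_⟩
    · intro i
      by_cases hi : i = a
      · subst hi; rw [Function.update_self]; exact hc1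
      · rw [Function.update_of_ne hi]; exact hu i
    · rw [Finset.coe_insert]
      have hcongr : Set.EqOn (fun i => KaehlerDifferential.D k F (f i + Function.update u a c i)) v
          (t : Set I) := by
        intro i hi
        have hia : i ≠ a := by
          rintro rfl
          exact hat (Finset.mem_coe.1 hi)
        simp only [hv, Function.update_of_ne hia]
      refine LinearIndepOn.insert (hli.congr hcongr.symm) ?_
      rw [Set.EqOn.image_eq hcongr]
      simp only [Function.update_self]
      exact hc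

end aux

theorem exists_startP {k W : Type} [Field k] [NormedField W] [IsUltrametricDist W] [Algebra k W]
    (F0 : IntermediateField k W) (hfg : F0.FG) {r : ℕ} (hr : 0 < r) (τ : Fin (r + 1) → W)
    (hτ : AlgebraicIndependent k τ) (hτF : ∀ i, τ i ∈ F0)
    (hFτ : ∀ z ∈ F0, IsSeparable (IntermediateField.adjoin k (Set.range τ)) z)
    (x : Fin r → W) (hx : Indep x) (hxF : ∀ i, x i ∈ F0) :
    ∃ (x' : Fin r → W) (y : W), Indep x' ∧ (∀ i, x' i ∈ F0) ∧ y ∈ F0 ∧ ‖y‖ < 1 ∧
      ∀ w ∈ F0, IsSeparable (IntermediateField.adjoin k (insert y (Set.range x'))) w := by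
  classical
  have hess : Algebra.EssFiniteType k F0 := IntermediateField.essFiniteType_iff.2 hfg
  let ι : F0 →+* W := F0.val.toRingHom
  have hι : ∀ z : F0, ι z = (z : W) := fun z => rfl
  -- the rank
  let τ' : Fin (r + 1) → F0 := fun i => ⟨τ i, hτF i⟩
  have hτ' : AlgebraicIndependent k τ' := by
    have h1 : AlgebraicIndependent k (F0.val ∘ τ') := hτ
    exact AlgebraicIndependent.of_comp F0.val h1
  have hmap : (IntermediateField.adjoin k (Set.range τ')).map F0.val =
      IntermediateField.adjoin k (Set.range τ) := by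
    rw [IntermediateField.adjoin_map, ← Set.range_comp]
    rfl
  have hback : ∀ (s : Set F0) (z : F0),
      IsSeparable (IntermediateField.adjoin k (F0.val '' s)) (z : W) →
      IsSeparable (IntermediateField.adjoin k s) z := by
    intro s z hz
    have hm : (IntermediateField.adjoin k s).map F0.val =
        IntermediateField.adjoin k (F0.val '' s) := IntermediateField.adjoin_map k s F0.val
    rw [← hm] at hz
    let e : IntermediateField.adjoin k s ≃+* (IntermediateField.adjoin k s).map F0.val :=
      ((IntermediateField.adjoin k s).equivMap F0.val).toRingEquiv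
    obtain ⟨P, hP, hP0⟩ : ∃ P : Polynomial (IntermediateField.adjoin k s), P.Separable ∧
        Polynomial.aeval z P = 0 := by
      refine ⟨(minpoly ((IntermediateField.adjoin k s).map F0.val) (z : W)).map
        (e.symm : _ →+* _), ?_, ?_⟩
      · exact Polynomial.Separable.map hz
      · rw [Polynomial.aeval_def, Polynomial.eval₂_map]
        have h2 := minpoly.aeval ((IntermediateField.adjoin k s).map F0.val) (z : W)
        rw [Polynomial.aeval_def] at h2
        apply Subtype.ext
        change ι _ = (0 : W)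
        rw [Polynomial.hom_eval₂]
        have h3 : ι.comp ((algebraMap (IntermediateField.adjoin k s) F0).comp
            (e.symm : _ →+* _)) =
            algebraMap ((IntermediateField.adjoin k s).map F0.val) W := by
          ext a
          have h4 : ((e (e.symm a) : (IntermediateField.adjoin k s).map F0.val) : W) = a := by
            rw [RingEquiv.apply_symm_apply]
          exact h4
        rw [h3]
        exact h2
    exact hP.of_dvd (minpoly.dvd _ _ hP0)
  have hrank : Module.finrank F0 (Ω[F0⁄k]) = r + 1 := by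
    have h1 := qd_rank τ' hτ' (fun z => hback _ z (by
      rw [← Set.range_comp]
      exact hFτ z z.2))
    rw [h1, Fintype.card_fin]
  let I := Option (Fin r)
  have hcard : Module.finrank F0 (Ω[F0⁄k]) = Fintype.card I := by
    rw [hrank, Fintype.card_option, Fintype.card_fin]
  let f : I → F0 := fun o => o.elim 0 (fun i => ⟨x i, hxF i⟩)
  let ε : I → ℝ := fun o => o.elim 1 (fun i => ‖x i‖)
  have hε : ∀ a, 0 < ε a := by
    rintro (_ | i)
    · exact one_pos
    · exact norm_pos_iff.2 (hx.ne i)
  obtain ⟨δ, hδ, hli⟩ := qd_adjust ι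
    (qd_small (k := k) ι (⟨x ⟨0, hr⟩, hxF _⟩ : F0)
      (fun h => hx.ne ⟨0, hr⟩ (congrArg Subtype.val h)) (hx.lt _)) hcard f ε hε Finset.univ
  rw [Finset.coe_univ, linearIndepOn_univ_iff] at hli
  set x' : Fin r → W := fun i => x i + (δ (some i) : W) with hx'
  set y : W := (δ none : W) with hy
  have hδx : ∀ i, ‖(δ (some i) : W)‖ < ‖x i‖ := fun i => hδ (some i)
  have hδy : ‖(δ none : W)‖ < 1 := hδ none
  have hxn : ∀ i, ‖x' i‖ = ‖x i‖ := by
    intro i
    rw [hx']
    rw [IsUltrametricDist.norm_add_eq_max_of_norm_ne_norm (hδx i).ne']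
    exact max_eq_left (hδx i).le
  have hmon : ∀ a : Fin r → ℤ, ‖mon x' a‖ = ‖mon x a‖ := by
    intro a
    unfold MP_3029eb_ag.Abh.mon
    rw [norm_prod, norm_prod]
    refine Finset.prod_congr rfl (fun i _ => ?_)
    rw [norm_zpow, norm_zpow, hxn]
  have hind : Indep x' := by
    refine ⟨fun i => ?_, fun i => ?_, fun a ha => ?_⟩
    · rw [← norm_pos_iff, hxn]
      exact norm_pos_iff.2 (hx.ne i)
    · rw [hxn]; exact hx.lt i
    · exact hx.indep a (by rw [← hmon]; exact ha)
  have hspan : Submodule.span F0 (Set.range fun a => KaehlerDifferential.D k F0 (f a + δ a)) = ⊤ := by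
    apply hli.span_eq_top_of_card_eq_finrank
    exact hcard.symm
  refine ⟨x', y, hind, fun i => add_mem (hxF i) (δ _).2, (δ none).2, hδy, fun w hw => ?_⟩
  have h1 : IsSeparable (IntermediateField.adjoin k (Set.range fun a => f a + δ a))
      (⟨w, hw⟩ : F0) := by
    apply sep_of_diff
    rw [← Set.range_comp]
    exact hspan
  have h2 := main_sep F0.val _ _ h1
  rw [IntermediateField.adjoin_map, ← Set.range_comp] at h2
  have h3 : Set.range (F0.val ∘ fun a => f a + δ a) = insert y (Set.range x') := by
    ext z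
    constructor
    · rintro ⟨(_ | i), rfl⟩
      · refine Or.inl ?_
        change ((0 : F0) : W) + _ = _
        rw [ZeroMemClass.coe_zero, zero_add]
      · exact Or.inr ⟨i, rfl⟩
    · rintro (rfl | ⟨i, rfl⟩)
      · refine ⟨none, ?_⟩
        change ((0 : F0) : W) + _ = _
        rw [ZeroMemClass.coe_zero, zero_add]
      · exact ⟨some i, rfl⟩
  rw [h3] at h2
  exact h2

end Pool.Agent.Lib.MXP
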