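import Pool.Agent.Lib.MXP.QHCmo
import Pool.Agent.Lib.MXP.QDat
import Pool.Agent.Lib.MXP.Fld
import Pool.Agent.Lib.TQ.CpH

/-!
# Module QDinH: the completion of `A` is contained in the completion of a model
-/

namespace Pool.Agent.Lib.MXP

open Pool.Agent.Lib.MP_3029eb_ag Pool.Agent.Lib.MP_3029eb_ag.Abh Pool.Agent.Lib.TDO
open Pool.Agent.Lib.TU (Mt exists_Mt)
open Pool.Agent.Lib.TQ

section aux

variable {W : Type} [NormedField W] [IsUltrametricDist W]

omit [IsUltrametricDist W] in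
private theorem dh_smul {W : Type} [NormedField W] {D : Subring W} (d : D) (z : W) : d • z = (d : W) * z := rfl

private theorem dh_sub_le (a b : W) : ‖a - b‖ ≤ max ‖a‖ ‖b‖ := by
  have h := IsUltrametricDist.norm_add_le_max a (-b)
  rwa [norm_neg, ← sub_eq_add_neg] at h

private theorem dh_eval_norm (F : Polynomial W) (hF : ∀ j, ‖F.coeff j‖ ≤ 1) {a : W}
    (ha : ‖a‖ ≤ 1) : ‖F.eval a‖ ≤ 1 := by
  rw [Polynomial.eval_eq_sum_range]
  refine IsUltrametricDist.norm_sum_le_of_forall_le_of_nonneg zero_le_one fun i _ => ?_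
  rw [norm_mul, norm_pow]
  exact mul_le_one₀ (hF i) (pow_nonneg (norm_nonneg _) _) (pow_le_one₀ (norm_nonneg _) ha)

private theorem dh_nat_norm (n : ℕ) : ‖(n : W)‖ ≤ 1 := by
  induction n with
  | zero => rw [Nat.cast_zero, norm_zero]; exact zero_le_one
  | succ n ih =>
    rw [Nat.cast_succ]
    exact (IsUltrametricDist.norm_add_le_max _ _).trans (max_le ih norm_one.le)

/-- norms of elements of a span -/
private theorem dh_span_norm {D : Subring W} (hD : ∀ z ∈ D, ‖z‖ ≤ 1) {T : Set W}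
    (hT : ∀ z ∈ T, ‖z‖ < 1) {z : W} (hz : z ∈ Submodule.span D T) : ‖z‖ < 1 := by
  induction hz using Submodule.span_induction with
  | mem x hx => exact hT x hx
  | zero => rw [norm_zero]; exact one_pos
  | add x y _ _ hx hy =>
    exact (IsUltrametricDist.norm_add_le_max x y).trans_lt (max_lt hx hy)
  | smul a x _ hx =>
    rw [dh_smul, norm_mul]
    calc ‖(a : W)‖ * ‖x‖ ≤ 1 * ‖x‖ := mul_le_mul_of_nonneg_right (hD a a.2) (norm_nonneg _)
      _ < 1 := by rw [one_mul]; exact hx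

omit [IsUltrametricDist W] in
private theorem dh_span_le {D D' : Subring W} (h : D ≤ D') {T : Set W} {z : W}
    (hz : z ∈ Submodule.span D T) : z ∈ Submodule.span D' T := by
  induction hz using Submodule.span_induction with
  | mem x hx => exact Submodule.subset_span hx
  | zero => exact zero_mem _
  | add x y _ _ hx hy => exact add_mem hx hy
  | smul a x _ hx =>
    have := Submodule.smul_mem _ (⟨(a : W), h a.2⟩ : D') hx
    exact this

/-- `z = δ ^ 2 * μ`, `μ ∈ D`, `‖μ‖ < 1` -/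
private def dhJ (D : Subring W) (δ : W) : Set W := {z | ∃ μ ∈ D, ‖μ‖ < 1 ∧ z = δ ^ 2 * μ}

omit [IsUltrametricDist W] in
private theorem dhJ_zero (D : Subring W) (δ : W) : (0 : W) ∈ dhJ D δ :=
  ⟨0, zero_mem _, by rw [norm_zero]; exact one_pos, by rw [mul_zero]⟩

private theorem dhJ_add {D : Subring W} {δ z z' : W} (hz : z ∈ dhJ D δ) (hz' : z' ∈ dhJ D δ) :
    z + z' ∈ dhJ D δ := by
  obtain ⟨μ, h1, h2, rfl⟩ := hz
  obtain ⟨μ', h1', h2', rfl⟩ := hz'
  exact ⟨μ + μ', add_mem h1 h1',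
    (IsUltrametricDist.norm_add_le_max _ _).trans_lt (max_lt h2 h2'), by ring⟩

omit [IsUltrametricDist W] in
private theorem dhJ_mul {D : Subring W} (hD : ∀ z ∈ D, ‖z‖ ≤ 1) {δ z d : W} (hz : z ∈ dhJ D δ)
    (hd : d ∈ D) : z * d ∈ dhJ D δ := by
  obtain ⟨μ, h1, h2, rfl⟩ := hz
  refine ⟨μ * d, mul_mem h1 hd, ?_, by ring⟩
  rw [norm_mul]
  calc ‖μ‖ * ‖d‖ ≤ ‖μ‖ * 1 := mul_le_mul_of_nonneg_left (hD d hd) (norm_nonneg _)
    _ < 1 := by rw [mul_one]; exact h2

private theorem dhJ_sum {D : Subring W} {δ : W} {ι : Type} (s : Finset ι) (f : ι → W)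
    (h : ∀ i ∈ s, f i ∈ dhJ D δ) : ∑ i ∈ s, f i ∈ dhJ D δ := by
  classical
  induction s using Finset.induction_on with
  | empty => rw [Finset.sum_empty]; exact dhJ_zero D δ
  | insert a s ha ih =>
    rw [Finset.sum_insert ha]
    exact dhJ_add (h a (Finset.mem_insert_self a s))
      (ih fun i hi => h i (Finset.mem_insert_of_mem hi))

private theorem dhJ_eval {D : Subring W} (hD : ∀ z ∈ D, ‖z‖ ≤ 1) {δ : W} (H : Polynomial W)
    (hH : ∀ i, H.coeff i ∈ dhJ D δ) {b : W} (hb : b ∈ D) : H.eval b ∈ dhJ D δ := by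
  rw [Polynomial.eval_eq_sum_range]
  exact dhJ_sum _ _ fun i _ => dhJ_mul hD (hH i) (pow_mem hb i)

omit [IsUltrametricDist W] in
private theorem dhJ_deriv {D : Subring W} (hD : ∀ z ∈ D, ‖z‖ ≤ 1) {δ : W} (H : Polynomial W)
    (hH : ∀ i, H.coeff i ∈ dhJ D δ) (i : ℕ) : H.derivative.coeff i ∈ dhJ D δ := by
  rw [Polynomial.coeff_derivative]
  refine dhJ_mul hD (hH _) ?_
  have : ((i : W) + 1) = ((i + 1 : ℕ) : W) := by push_cast; rfl
  rw [this]
  exact natCast_mem D _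

private theorem dhJ_span {D D' : Subring W} (hle : D' ≤ D) (hD : ∀ z ∈ D, ‖z‖ ≤ 1) {δ : W}
    {T : Set W} (hT : ∀ z ∈ T, z ∈ dhJ D δ) {z : W} (hz : z ∈ Submodule.span D' T) :
    z ∈ dhJ D δ := by
  induction hz using Submodule.span_induction with
  | mem x hx => exact hT x hx
  | zero => exact dhJ_zero D δ
  | add x y _ _ hx hy => exact dhJ_add hx hy
  | smul a x _ hx =>
    rw [dh_smul, mul_comm]
    exact dhJ_mul hD hx (hle a.2)

end aux

variable {E W : Type} [Field E] [NormedField W] [IsUltrametricDist W] [Algebra E W] {r p : ℕ}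
  {S L : IntermediateField E W} {c c' c'' : Tri W r}

/-- the ring `Λ[t]` localized: norms, and its maximal ideal is generated by the `t i` -/
private theorem dh_Pt (hAE : AmbE p r E W) {n : ℕ} (t : Fin n → W)
    (ht : ∀ i, ‖t i‖ < 1) : (∀ z ∈ PtX E t, ‖z‖ ≤ 1) ∧ (∀ z ∈ PtX E t, ‖z‖ = 1 → z⁻¹ ∈ PtX E t) ∧
      ∀ z ∈ PtX E t, ‖z‖ < 1 → z ∈ Submodule.span (PtX E t) (Set.range t) := by
  have hcl : ∀ a ∈ Subring.closure ((Lam E W : Set W) ∪ Set.range t), a ∈ PtX E t := fun a ha =>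
    le_locV (ball W) _ ha
  have hC0 : ∀ e ∈ Lam E W, e ∈ PtX E t := fun e he => hcl e (Subring.subset_closure (Or.inl he))
  have hT : ∀ x ∈ Set.range t, ‖x‖ < 1 := by
    rintro _ ⟨i, rfl⟩
    exact ht i
  have h1 : ∀ z ∈ PtX E t, ‖z‖ ≤ 1 := by
    rintro z ⟨a, ha, b, hb, hb1, hab⟩
    have hcl : Subring.closure ((Lam E W : Set W) ∪ Set.range t) ≤ (ball W).toSubring := by
      rw [Subring.closure_le]
      rintro z (hz | ⟨i, rfl⟩)
      · exact hz.2
      · exact (ht i).le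
    rw [ball_val_eq_one] at hb1
    have ha' : ‖a‖ ≤ 1 := hcl ha
    rwa [← hab, norm_mul, hb1, mul_one] at ha'
  have hinv : ∀ z ∈ PtX E t, ‖z‖ = 1 → z⁻¹ ∈ PtX E t := fun z hz h1 =>
    E5_inv (locV_locV (ball W) _) hz ((ball_val_eq_one z).2 h1)
  refine ⟨h1, hinv, ?_⟩
  have key : ∀ a ∈ Subring.closure ((Lam E W : Set W) ∪ Set.range t),
      ∃ e ∈ Lam E W, a - e ∈ Submodule.span (PtX E t) (Set.range t) := by
    intro a ha
    induction ha using Subring.closure_induction with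
    | mem x hx =>
      rcases hx with hx | hx
      · exact ⟨x, hx, by rw [sub_self]; exact zero_mem _⟩
      · exact ⟨0, zero_mem _, by rw [sub_zero]; exact Submodule.subset_span hx⟩
    | zero => exact ⟨0, zero_mem _, by rw [sub_self]; exact zero_mem _⟩
    | one => exact ⟨1, one_mem _, by rw [sub_self]; exact zero_mem _⟩
    | add x y _ _ hx hy =>
      obtain ⟨e, he, h2⟩ := hx
      obtain ⟨e', he', h3⟩ := hy
      refine ⟨e + e', add_mem he he', ?_⟩
      have : x + y - (e + e') = (x - e) + (y - e') := by ring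
      rw [this]
      exact add_mem h2 h3
    | neg x _ hx =>
      obtain ⟨e, he, h2⟩ := hx
      refine ⟨-e, neg_mem he, ?_⟩
      have : -x - -e = -(x - e) := by ring
      rw [this]
      exact neg_mem h2
    | mul x y hx' hy' hx hy =>
      obtain ⟨e, he, h2⟩ := hx
      obtain ⟨e', he', h3⟩ := hy
      refine ⟨e * e', mul_mem he he', ?_⟩
      have : x * y - e * e' = (⟨y, hcl y hy'⟩ : PtX E t) • (x - e) +
          (⟨e, hC0 e he⟩ : PtX E t) • (y - e') := by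
        rw [dh_smul, dh_smul]; ring
      rw [this]
      exact add_mem (Submodule.smul_mem _ _ h2) (Submodule.smul_mem _ _ h3)
  intro z hz hz1
  obtain ⟨a, ha, b, hb, hb1, hab⟩ := hz
  rw [ball_val_eq_one] at hb1
  have hb0 : b ≠ 0 := by
    rintro rfl
    rw [norm_zero] at hb1
    exact zero_ne_one hb1
  have ha1 : ‖a‖ < 1 := by rw [← hab, norm_mul, hb1, mul_one]; exact hz1
  obtain ⟨e, he, h2⟩ := key a ha
  have h3 : ‖a - e‖ < 1 := dh_span_norm h1 hT h2
  have he1 : ‖e‖ < 1 := by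
    have : e = a - (a - e) := by ring
    rw [this]
    exact (dh_sub_le _ _).trans_lt (max_lt ha1 h3)
  have he2 : e ∈ Submodule.span (PtX E t) (Set.range t) := by
    rw [lam_lt hAE he he1]
    exact zero_mem _
  have h4 : a ∈ Submodule.span (PtX E t) (Set.range t) := by
    have h5 : a = (a - e) + e := by ring
    rw [h5]
    exact add_mem h2 he2
  have h6 : z = (⟨b⁻¹, hinv b (hcl b hb) hb1⟩ : PtX E t) • a := by
    rw [dh_smul, ← hab]
    field_simp
  rw [h6]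
  exact Submodule.smul_mem _ _ h4

theorem d_in_H (hC : CtX p S L c) (A : Subring W) {n q : ℕ} (t : Fin n → W)
    (w w' : Fin q → W) (F F' : Fin q → Polynomial W) (N : ℕ)
    (hD : DatX S L A t w w' F F' N) :
    ∃ (c' : Tri W r) (x' : Fin r → W), CtX p S L c' ∧ Mx S c' x' ∧
      A ≤ Cp (Bx c'.B x') ∧ (∀ i, t i ∈ Bx c'.B x') ∧
      (∀ j, w' j ∈ Bx c'.B x') ∧ (∀ j, MoH c' ((F' j).derivative.eval (w' j))) ∧
      ∀ j, ∃ η ∈ Cp (Bx c'.B x'), ‖η‖ < 1 ∧
        w j = w' j + (F' j).derivative.eval (w' j) * η := by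
  classical
  -- notation
  obtain ⟨δ, hδ⟩ : ∃ δ : Fin q → W, ∀ j, δ j = (F' j).derivative.eval (w' j) := ⟨_, fun _ => rfl⟩
  have hδ0 : ∀ j, δ j ≠ 0 := fun j => by rw [hδ]; exact hD.der0 j
  -- `P ≤ S`, `P ≤ L`
  have hPM : ∀ M : IntermediateField E W, (∀ i, t i ∈ M) → ∀ z ∈ PtX E t, z ∈ M := by
    intro M hM z hz
    obtain ⟨a, ha, b, hb, hb1, hab⟩ := hz
    have hcl : Subring.closure ((Lam E W : Set W) ∪ Set.range t) ≤ M.toSubring := by
      rw [Subring.closure_le]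
      rintro z (hz | ⟨i, rfl⟩)
      · obtain ⟨⟨e, rfl⟩, -⟩ := hz
        exact M.algebraMap_mem e
      · exact hM i
    rw [ball_val_eq_one] at hb1
    have hb0 : b ≠ 0 := by
      rintro rfl
      rw [norm_zero] at hb1
      exact zero_ne_one hb1
    have h2 : z = a * b⁻¹ := by rw [← hab]; field_simp
    have ha' : a ∈ M := hcl ha
    have hb' : b ∈ M := hcl hb
    rw [h2]
    exact mul_mem ha' (inv_mem hb')
  have hδM' : ∀ M : IntermediateField E W, (∀ i, t i ∈ M) → (∀ j, w' j ∈ M) → ∀ j, δ j ∈ M := by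
    intro M hM hM' j
    rw [hδ, Polynomial.eval_eq_sum_range]
    refine sum_mem fun i _ => mul_mem ?_ (pow_mem (hM' j) i)
    rw [Polynomial.coeff_derivative]
    refine mul_mem (hPM M hM _ (hD.FP' j _)) ?_
    have : ((i : W) + 1) = ((i + 1 : ℕ) : W) := by push_cast; rfl
    rw [this]
    exact natCast_mem _ _
  have hδM : ∀ j, δ j ∈ S ∧ δ j ∈ L := fun j =>
    ⟨hδM' S (fun i => (hD.tM i).1) (fun j => (hD.wM' j).1) j,
      hδM' L (fun i => (hD.tM i).2.1) (fun j => (hD.wM' j).2.1) j⟩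
  -- the finite set
  have htN0 : ∀ α : Fin n → ℕ, monN t α ≠ 0 := by
    intro α
    exact Finset.prod_ne_zero_iff.2 fun i _ => pow_ne_zero _ (hD.tM i).2.2
  obtain ⟨I, hI⟩ : ∃ I : Finset (Fin n → ℕ), ∀ α, ∑ i, α i = N → α ∈ I :=
    ⟨Fintype.piFinset (fun _ : Fin n => Finset.range (N + 1)), fun α hα => by
      rw [Fintype.mem_piFinset]
      intro i
      rw [Finset.mem_range]
      exact Nat.lt_succ_of_le (hα ▸ Finset.single_le_sum (f := α) (fun j _ => Nat.zero_le _)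
        (Finset.mem_univ i))⟩
  obtain ⟨I', hI'⟩ : ∃ I' : Finset (Fin n → ℕ), ∀ α, α ∈ I' ↔ ∑ i, α i = N :=
    ⟨I.filter (fun α => ∑ i, α i = N), fun α => by
      rw [Finset.mem_filter]
      exact ⟨fun h => h.2, fun h => ⟨hI α h, h⟩⟩⟩
  obtain ⟨Z, hZ⟩ : ∃ Z : Finset W, Z = Finset.univ.image t ∪ (Finset.univ.image w' ∪
      (Finset.univ.image δ ∪ (Finset.univ ×ˢ I').image (fun p : Fin q × (Fin n → ℕ) =>
        monN t p.2 / δ p.1 ^ 2))) := ⟨_, rfl⟩
  have hZM : ∀ z ∈ Z, z ∈ S ∧ z ∈ L := by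
    intro z hz
    rw [hZ] at hz
    simp only [Finset.mem_union, Finset.mem_image, Finset.mem_univ, true_and,
      Finset.mem_product] at hz
    rcases hz with ⟨i, rfl⟩ | (⟨j, rfl⟩ | (⟨j, rfl⟩ | ⟨⟨j, α⟩, hp, rfl⟩))
    · exact ⟨(hD.tM i).1, (hD.tM i).2.1⟩
    · exact ⟨(hD.wM' j).1, (hD.wM' j).2.1⟩
    · exact hδM j
    · exact ⟨div_mem (prod_mem fun i _ => pow_mem (hD.tM i).1 _) (pow_mem (hδM j).1 2),
        div_mem (prod_mem fun i _ => pow_mem (hD.tM i).2.1 _) (pow_mem (hδM j).2 2)⟩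
  obtain ⟨c', hch', -, hmo⟩ := m_all hC.amb hC.ch (Z.filter (fun z => z ≠ 0)) (by
    intro z hz
    rw [Finset.mem_filter] at hz
    exact ⟨(hZM z hz.1).1, (hZM z hz.1).2, hz.2⟩)
  have hC' : CtX p S L c' := ⟨hC.r0, hC.amb, hC.cpl, hch'⟩
  have hok := hC'.gd
  -- norms
  have hZ1 : ∀ z ∈ Z, z ∈ HO c' ↔ ‖z‖ ≤ 1 := by
    intro z hz
    refine ⟨fun h => HO_norm_le hok h, fun h => ?_⟩
    by_cases h0 : z = 0
    · rw [h0]; exact zero_mem _
    · exact MoH.mem_HO hok (hmo z (Finset.mem_filter.2 ⟨hz, h0⟩)) h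
  obtain ⟨hNP, hPinv, hPm⟩ := dh_Pt hC.amb.ambE t (fun i => (hD.tD i).2)
  have hδ1 : ∀ j, ‖δ j‖ ≤ 1 := by
    intro j
    rw [hδ]
    refine dh_eval_norm _ (fun i => ?_) (hD.wM' j).2.2
    rw [Polynomial.coeff_derivative, norm_mul]
    have : ((i : W) + 1) = ((i + 1 : ℕ) : W) := by push_cast; rfl
    rw [this]
    exact mul_le_one₀ (hNP _ (hD.FP' j _)) (norm_nonneg _) (dh_nat_norm _)
  have hquot : ∀ j, ∀ α ∈ I', ‖monN t α / δ j ^ 2‖ < 1 := by
    intro j α hα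
    rw [norm_div, norm_pow]
    have h1 := hD.tN j α ((hI' α).1 hα)
    rw [← hδ] at h1
    rw [div_lt_one (pow_pos (norm_pos_iff.2 (hδ0 j)) 2)]
    exact h1
  have hZn : ∀ z ∈ Z, ‖z‖ ≤ 1 := by
    intro z hz
    rw [hZ] at hz
    simp only [Finset.mem_union, Finset.mem_image, Finset.mem_univ, true_and,
      Finset.mem_product] at hz
    rcases hz with ⟨i, rfl⟩ | (⟨j, rfl⟩ | (⟨j, rfl⟩ | ⟨⟨j, α⟩, hp, rfl⟩))
    · exact (hD.tD i).2.le
    · exact (hD.wM' j).2.2
    · exact hδ1 j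
    · exact (hquot j α hp).le
  obtain ⟨x', hM1, hM2, hZB, _⟩ := exists_model hok Z (fun z hz => (hZ1 z hz).2 (hZn z hz)) ∅
    (fun a ha => absurd ha (Finset.notMem_empty a))
  have hM : Mx S c' x' := ⟨hM1, hM2⟩
  -- the ring `B`
  have hB : Nl L.toSubfield (Bx c'.B x') := hM.nl hC'
  have hC0B : ∀ e ∈ Lam E W, e ∈ Bx c'.B x' := fun e he => le_Bx (hok.lam_le he)
  have htB : ∀ i, t i ∈ Bx c'.B x' := fun i => hZB _ (by
    rw [hZ]
    exact Finset.mem_union_left _ (Finset.mem_image_of_mem t (Finset.mem_univ i)))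
  have hwB : ∀ j, w' j ∈ Bx c'.B x' := fun j => hZB _ (by
    rw [hZ]
    exact Finset.mem_union_right _ (Finset.mem_union_left _
      (Finset.mem_image_of_mem w' (Finset.mem_univ j))))
  have hδZ : ∀ j, δ j ∈ Z := fun j => by
    rw [hZ]
    exact Finset.mem_union_right _ (Finset.mem_union_right _ (Finset.mem_union_left _
      (Finset.mem_image_of_mem δ (Finset.mem_univ j))))
  have hδB : ∀ j, δ j ∈ Bx c'.B x' := fun j => hZB _ (hδZ j)
  have hqB : ∀ j, ∀ α ∈ I', monN t α / δ j ^ 2 ∈ Bx c'.B x' := fun j α hα => hZB _ (by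
    rw [hZ]
    refine Finset.mem_union_right _ (Finset.mem_union_right _ (Finset.mem_union_right _ ?_))
    rw [Finset.mem_image]
    exact ⟨(j, α), Finset.mem_product.2 ⟨Finset.mem_univ _, hα⟩, rfl⟩)
  have hPB : PtX E t ≤ Bx c'.B x' := by
    have h1 : Subring.closure ((Lam E W : Set W) ∪ Set.range t) ≤ Bx c'.B x' := by
      rw [Subring.closure_le]
      rintro z (hz | ⟨i, rfl⟩)
      · exact hC0B z hz
      · exact htB i
    have h2 := locV_mono (ball W) h1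
    rw [hB.locV_eq] at h2
    exact h2
  have hP : Nl L.toSubfield (PtX E t) :=
    { comp := hB.comp
      nt := hB.nt
      le := fun z hz => hB.le z (hPB hz)
      one := hNP
      inv := fun z hz h1 => E5_inv (locV_locV (ball W) _) hz ((ball_val_eq_one z).2 h1)
      noeth := by
        have := ptx_noeth hC.amb.ambE t
        exact isNoetherianRing_locV (ball W) }
  have hPC : Cp (PtX E t) ≤ Cp (Bx c'.B x') := Cp_mono hP hB (hPB.trans le_Cp)
  have hBc := hB.cp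
  -- the maximal ideal of `Cp P`
  have hPmax : ∀ z ∈ Cp (PtX E t), ‖z‖ < 1 →
      z ∈ Submodule.span (Cp (PtX E t)) (Set.range t) := by
    intro z hz h1
    have h2 := Cp_max hP hz h1
    refine Submodule.span_le.2 ?_ h2
    rintro b ⟨hb, hb1⟩
    exact dh_span_le le_Cp (hPm b hb hb1)
  -- coefficients
  have hco : ∀ j i, (F j - F' j).coeff i ∈ dhJ (Cp (Bx c'.B x')) (δ j) := by
    intro j i
    rw [Polynomial.coeff_sub]
    have h1 := hP.cp.mP_gen t (fun i => ⟨le_Cp (le_locV (ball W) _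
      (Subring.subset_closure (Or.inr ⟨i, rfl⟩))), (hD.tD i).2⟩) hPmax (hD.close j i)
    refine dhJ_span hPC hBc.one ?_ h1
    rintro v ⟨α, hα, rfl⟩
    have hα' := (hI' α).2 hα
    refine ⟨monN t α / δ j ^ 2, le_Cp (hqB j α hα'), hquot j α hα', ?_⟩
    rw [mul_div_cancel₀]
    exact pow_ne_zero _ (hδ0 j)
  -- the roots
  have hroot : ∀ j, ∃ η ∈ Cp (Bx c'.B x'), ‖η‖ < 1 ∧ w j = w' j + δ j * η := by
    intro j
    obtain ⟨ε, hε, hε1, he⟩ := dhJ_eval hBc.one (F j - F' j) (hco j) (le_Cp (hwB j))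
    obtain ⟨ε', hε', hε1', he'⟩ := dhJ_eval hBc.one (F j - F' j).derivative
      (dhJ_deriv hBc.one _ (hco j)) (le_Cp (hwB j))
    rw [Polynomial.eval_sub, hD.root' j, sub_zero] at he
    rw [Polynomial.derivative_sub, Polynomial.eval_sub, ← hδ] at he'
    have hu : (F j).derivative.eval (w' j) = δ j * (1 + δ j * ε') := by
      linear_combination he'
    have hsm : ‖δ j * ε'‖ < 1 := by
      rw [norm_mul]
      calc ‖δ j‖ * ‖ε'‖ ≤ 1 * ‖ε'‖ := mul_le_mul_of_nonneg_right (hδ1 j) (norm_nonneg _)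
        _ < 1 := by rw [one_mul]; exact hε1'
    have hu1 : ‖1 + δ j * ε'‖ = 1 := by
      have h1 : ‖(1 : W)‖ ≠ ‖δ j * ε'‖ := by rw [norm_one]; exact (ne_of_lt hsm).symm
      rw [IsUltrametricDist.norm_add_eq_max_of_norm_ne_norm h1, norm_one]
      exact max_eq_left hsm.le
    have hFc : ∀ i, (F j).coeff i ∈ Cp (Bx c'.B x') := fun i => hPC (hD.FP j i)
    obtain ⟨z, hz, hz0, η, hη, hη1, hzη⟩ := cp_hensel hB (F j) hFc (b := w' j) (δ := δ j)
      (u := 1 + δ j * ε') (ε := ε) (le_Cp (hwB j)) (le_Cp (hδB j)) (hδ0 j)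
      (add_mem (one_mem _) (mul_mem (le_Cp (hδB j)) hε')) hu1 hu hε hε1 he
    refine ⟨η, hη, hη1, ?_⟩
    rw [← hzη]
    refine root_unique (F j) (fun i => hBc.one _ (hFc i)) (hD.wA j).2.le (hBc.one z hz)
      (hD.root j) hz0 ?_
    rw [hD.der j, ← hδ]
    have h1 : w j - z = (w j - w' j) - δ j * η := by rw [hzη]; ring
    rw [h1]
    refine (dh_sub_le _ _).trans_lt (max_lt ?_ ?_)
    · rw [hδ]; exact hD.ww' j
    · rw [norm_mul]
      calc ‖δ j‖ * ‖η‖ < ‖δ j‖ * 1 :=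
            mul_lt_mul_of_pos_left hη1 (norm_pos_iff.2 (hδ0 j))
        _ = ‖δ j‖ := mul_one _
  have hwC : ∀ j, w j ∈ Cp (Bx c'.B x') := by
    intro j
    obtain ⟨η, hη, _, h⟩ := hroot j
    rw [h]
    exact add_mem (le_Cp (hwB j)) (mul_mem (le_Cp (hδB j)) hη)
  -- `A ≤ Cp B`
  have hAB : A ≤ Cp (Bx c'.B x') := by
    have h1 := q_ptx hC.amb.ambE hD.nl.cp (Cp_idem hD.nl) hD.CD w
      (fun j => ⟨le_Cp (hD.wA j).1, (hD.wA j).2⟩) hD.res (by
        intro z hz hz1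
        have h2 := Cp_max hD.nl hz hz1
        refine Submodule.span_le.2 ?_ h2
        rintro b ⟨hb, hb1⟩
        exact dh_span_le le_Cp (hD.gen b hb hb1))
    have h3 : PtX E w ≤
        Cp (Bx c'.B x') := by
      have h4 : Subring.closure ((Lam E W : Set W) ∪ Set.range w) ≤ Cp (Bx c'.B x') := by
        rw [Subring.closure_le]
        rintro z (hz | ⟨j, rfl⟩)
        · exact le_Cp (hC0B z hz)
        · exact hwC j
      have h5 := locV_mono (ball W) h4
      rwa [hBc.locV_eq] at h5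
    have h6 := Cp_mono h1.1 hB h3
    rw [h1.2] at h6
    exact le_Cp.trans h6
  refine ⟨c', x', hC', hM, hAB, htB, hwB, ?_, ?_⟩
  · intro j
    rw [← hδ]
    exact hmo _ (Finset.mem_filter.2 ⟨hδZ j, hδ0 j⟩)
  · intro j
    obtain ⟨η, hη, h1, h2⟩ := hroot j
    exact ⟨η, hη, h1, by rw [h2, hδ]⟩

end Pool.Agent.Lib.MXP
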