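import Pool.Agent.Lib.MXP.QLast
import Pool.Agent.Lib.TQ.DimL

/-!
# Module QFinal: the final local blowing up and its dimension
-/

namespace Pool.Agent.Lib.MXP

open Pool.Agent.Lib.MP_3029eb_ag Pool.Agent.Lib.MP_3029eb_ag.Abh Pool.Agent.Lib.TDO
open Pool.Agent.Lib.TU (Mt exists_Mt)
open Pool.Agent.Lib.TQ IsLocalRing

section

variable {W : Type} [NormedField W]

private theorem qfs_mem {X : Subfield W} {A : Subring W} (h : Nl X A) {u : W}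
    (hu : ∃ n ∈ A, ∃ d ∈ A, d ≠ 0 ∧ u * d = n) : u ∈ X := by
  obtain ⟨n, hn, d, hd, hd0, hud⟩ := hu
  have h1 : u = n * d⁻¹ := by
    rw [← hud, mul_assoc, mul_inv_cancel₀ hd0, mul_one]
  rw [h1]
  exact X.mul_mem (h.le n hn) (X.inv_mem (h.le d hd))

private theorem qfs_frac {A0 A1 : Subring W}
    (hA : ∀ z ∈ A1, ∃ n ∈ A0, ∃ d ∈ A0, d ≠ 0 ∧ z * d = n) {u : W}
    (hu : ∃ n ∈ A1, ∃ d ∈ A1, d ≠ 0 ∧ u * d = n) :
    ∃ n ∈ A0, ∃ d ∈ A0, d ≠ 0 ∧ u * d = n := by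
  obtain ⟨n, hn, d, hd, hd0, hud⟩ := hu
  obtain ⟨n1, hn1, d1, hd1, hd10, h1⟩ := hA n hn
  obtain ⟨n2, hn2, d2, hd2, hd20, h2⟩ := hA d hd
  refine ⟨n1 * d2, mul_mem hn1 hd2, n2 * d1, mul_mem hn2 hd1, mul_ne_zero ?_ hd10, ?_⟩
  · rw [← h2]
    exact mul_ne_zero hd0 hd20
  · rw [← h1, ← h2, ← hud]
    ring

private theorem qfs_gens {T T' : Type} [CommRing T] [CommRing T'] [IsNoetherianRing T]
    (φ : T →+* T') : ∃ (q : ℕ) (g : Fin q → T), Ideal.span (Set.range g) = RingHom.ker φ := by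
  obtain ⟨s, hs⟩ := (isNoetherianRing_iff_ideal_fg T).1 inferInstance (RingHom.ker φ)
  refine ⟨s.card, fun j => (s.equivFin.symm j : T), ?_⟩
  rw [← hs]
  congr 1
  ext b
  constructor
  · rintro ⟨j, rfl⟩
    exact (s.equivFin.symm j).2
  · intro hb
    refine ⟨s.equivFin ⟨b, hb⟩, ?_⟩
    show ((s.equivFin.symm (s.equivFin ⟨b, hb⟩) : {x // x ∈ s}) : T) = b
    rw [Equiv.symm_apply_apply]

variable [IsUltrametricDist W]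

private theorem qfs_reg {X : Subfield W} {A : Subring W} (h : Nl X A) {r H : ℕ} (U : Fin r → W)
    (gs : Finset W) (hU : ∀ i, U i ∈ A ∧ ‖U i‖ < 1) (hgs : ∀ y ∈ gs, y ∈ A ∧ ‖y‖ < 1)
    (hc : gs.card ≤ 1 + H)
    (hgen : ∀ z ∈ A, ‖z‖ < 1 → z ∈ Submodule.span A (Set.range U ∪ (gs : Set W)))
    (hdim : (((H : ℕ) : ℕ∞) : WithBot ℕ∞) + ((r + 1 : ℕ) : WithBot ℕ∞) ≤ ringKrullDim A) :
    gs.card = 1 + H ∧ IsRegularLocalRing A ∧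
      ringKrullDim A = (((gs.card + r : ℕ) : ℕ∞) : WithBot ℕ∞) := by
  have iL : IsLocalRing A := h.isLocal
  have iN : IsNoetherianRing A := h.noeth
  obtain ⟨v, hv1, hv2⟩ : ∃ v : Fin r ⊕ {y // y ∈ gs} → A, (∀ i, (v (Sum.inl i) : W) = U i) ∧
      ∀ y, (v (Sum.inr y) : W) = y :=
    ⟨Sum.elim (fun i => ⟨U i, (hU i).1⟩) (fun y => ⟨y, (hgs y y.2).1⟩), fun _ => rfl, fun _ => rfl⟩
  have hmax : maximalIdeal A = Ideal.span (Set.range v) := by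
    apply le_antisymm
    · intro z hz
      rw [← h.mI_eq, h.mem_mI] at hz
      have h2 : Submodule.span A (Set.range U ∪ (gs : Set W)) ≤
          Submodule.map (Algebra.linearMap A W) (Ideal.span (Set.range v)) := by
        rw [Submodule.span_le]
        rintro w (⟨i, rfl⟩ | hw)
        · exact ⟨v (Sum.inl i), Ideal.subset_span ⟨_, rfl⟩, hv1 i⟩
        · exact ⟨v (Sum.inr ⟨w, hw⟩), Ideal.subset_span ⟨_, rfl⟩, hv2 ⟨w, hw⟩⟩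
      obtain ⟨z', hz', he⟩ := h2 (hgen z z.2 hz)
      have h3 : z' = z := Subtype.ext he
      rw [← h3]
      exact hz'
    · rw [Ideal.span_le]
      rintro _ ⟨i, rfl⟩
      rw [SetLike.mem_coe, ← h.mI_eq, h.mem_mI]
      rcases i with i | y
      · rw [hv1]
        exact (hU i).2
      · rw [hv2]
        exact (hgs y y.2).2
  have hfr : (maximalIdeal A).spanFinrank ≤ gs.card + r := by
    rw [hmax]
    have h1 : (Ideal.span (Set.range v) : Ideal A).spanFinrank ≤ (Set.range v).ncard :=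
      Submodule.spanFinrank_span_le_ncard_of_finite (Set.finite_range v)
    have h2 : (Set.range v).ncard ≤ gs.card + r := by
      have := Set.ncard_image_le (f := v) (s := Set.univ) Set.finite_univ
      rw [Set.image_univ, Set.ncard_univ, Nat.card_eq_fintype_card, Fintype.card_sum,
        Fintype.card_fin, Fintype.card_coe] at this
      omega
    exact h1.trans h2
  have hfr' : ((maximalIdeal A).spanFinrank : WithBot ℕ∞) ≤ ((gs.card + r : ℕ) : WithBot ℕ∞) := by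
    exact_mod_cast hfr
  have hlow : ((H + (r + 1) : ℕ) : WithBot ℕ∞) ≤ ringKrullDim A := by
    refine le_trans (le_of_eq ?_) hdim
    push_cast
    rfl
  have hup : ringKrullDim A ≤ ((gs.card + r : ℕ) : WithBot ℕ∞) :=
    (ringKrullDim_le_spanFinrank_maximalIdeal A).trans hfr'
  have hcard : gs.card = 1 + H := by
    have h2 : H + (r + 1) ≤ gs.card + r := by exact_mod_cast hlow.trans hup
    omega
  have hlow' : ((gs.card + r : ℕ) : WithBot ℕ∞) ≤ ringKrullDim A := by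
    refine le_trans (le_of_eq ?_) hlow
    congr 1
    omega
  exact ⟨hcard, IsRegularLocalRing.of_spanFinrank_maximalIdeal_le A (hfr'.trans hlow'),
    le_antisymm hup hlow'⟩

end

variable {E W : Type} [Field E] [NormedField W] [IsUltrametricDist W] [Algebra E W] {r p : ℕ}
  {S L : IntermediateField E W} {c c' : Tri W r}

theorem final_step (hC : CtX p S L c) (B : Subring W) (hBN : Nl L.toSubfield B)
    {x' : Fin r → W} (hsyn : Syn S c B x') [IsLocalRing B] [IsNoetherianRing B]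
    (φ : AdicCompletion (maximalIdeal B) B →+* W) (hφ : Dom φ)
    (h1 : ∀ a : B, φ (algebraMap B (AdicCompletion (maximalIdeal B) B) a) = a)
    (hdim : ∀ g : Finset W, (∀ u ∈ g, ‖u‖ ≤ 1 ∧ ∃ n ∈ B, ∃ d ∈ B, d ≠ 0 ∧ u * d = n) →
      ((r + 1 : ℕ) : WithBot ℕ∞) ≤
        ringKrullDim (Cp (locV (ball W) (Subring.closure ((B : Set W) ∪ (g : Set W))))))
    [(RingHom.ker φ).IsPrime] {H : ℕ}
    (hH : ringKrullDim (Localization.AtPrime (RingHom.ker φ)) = (((H : ℕ) : ℕ∞) : WithBot ℕ∞))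
    (f : Fin H → AdicCompletion (maximalIdeal B) B) (hf : ∀ i, φ (f i) = 0)
    (μ : AdicCompletion (maximalIdeal B) B) (hμ0 : φ μ ≠ 0)
    (hμ : ∀ g ∈ RingHom.ker φ, μ * g ∈ Ideal.span (Set.range f))
    (s : Finset (W × W)) (hs : ∀ t ∈ s, t.1 ∈ B ∧ t.2 ∈ B ∧ t.1 ≠ 0 ∧ t.2 ≠ 0 ∧ ‖t.1‖ ≤ ‖t.2‖)
    (Δ0 : Finset W) (hΔ0 : ∀ δ ∈ Δ0, δ ∈ B ∧ δ ≠ 0) :
    ∃ (g : Finset W) (U : Fin r → W) (gs Δ : Finset W) (A'' : Subring W),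
      A'' = locV (ball W) (Subring.closure ((B : Set W) ∪ (g : Set W))) ∧
      (∀ u ∈ g, ‖u‖ ≤ 1 ∧ ∃ n ∈ B, ∃ d ∈ B, d ≠ 0 ∧ u * d = n) ∧
      Indep U ∧ (∀ i, U i ∈ A'') ∧ (∀ y ∈ gs, y ∈ A'' ∧ ‖y‖ < 1) ∧ gs.card = 1 + H ∧
      (∀ z ∈ A'', ‖z‖ < 1 → z ∈ Submodule.span A'' (Set.range U ∪ (gs : Set W))) ∧
      IsRegularLocalRing A'' ∧
      ringKrullDim A'' = (((gs.card + r : ℕ) : ℕ∞) : WithBot ℕ∞) ∧
      DenD B A'' Δ ∧ (∀ δ ∈ Δ, MonV (ball W) A'' U δ) ∧ (∀ δ ∈ Δ0, MonV (ball W) A'' U δ) ∧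
      ∀ t ∈ s, MonV (ball W) A'' U (t.1 / t.2) := by
  classical
  have hr := hC.r0
  have iT : IsNoetherianRing (AdicCompletion (maximalIdeal B) B) := noetherian_adicCompletion B
  have hφr : φ.range = Cp B := phi_range hBN φ hφ h1
  obtain ⟨Z, hZ⟩ : ∃ Z : Finset W, ∀ z, z ∈ Z ↔ z = φ μ ∨ z ∈ Δ0 ∨ (∃ t ∈ s, t.1 = z) ∨
      ∃ t ∈ s, t.2 = z :=
    ⟨{φ μ} ∪ (Δ0 ∪ (s.image Prod.fst ∪ s.image Prod.snd)), fun z => by
      simp only [Finset.mem_union, Finset.mem_singleton, Finset.mem_image]⟩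
  have hZC : ∀ z ∈ Z, z ∈ Cp B ∧ z ≠ 0 := by
    intro z hz
    rcases (hZ z).1 hz with rfl | hz | ⟨t, ht, rfl⟩ | ⟨t, ht, rfl⟩
    · exact ⟨hφr ▸ ⟨μ, rfl⟩, hμ0⟩
    · exact ⟨le_Cp (hΔ0 z hz).1, (hΔ0 z hz).2⟩
    · exact ⟨le_Cp (hs t ht).1, (hs t ht).2.2.1⟩
    · exact ⟨le_Cp (hs t ht).2.1, (hs t ht).2.2.2.1⟩
  obtain ⟨g1, g2, A1, A2, U, y1, ξ, Δ, hA1, hg1, hA2, hg2, hU, hUA, hy1, hgen, hξ, hξgen, hξU,
    hden, hΔ, hZm, hZle, hle1, hle2, hker⟩ :=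
    last_stage hC B hBN hsyn φ hφ h1 hdim Z hZC
  have hA1N : Nl L.toSubfield A1 := by
    rw [hA1]
    exact hBN.adjoin g1 fun u hu => ⟨qfs_mem hBN (hg1 u hu).2, (hg1 u hu).1⟩
  have hA2N : Nl L.toSubfield A2 := by
    rw [hA2]
    exact hA1N.adjoin g2 fun u hu => ⟨qfs_mem hA1N (hg2 u hu).2, (hg2 u hu).1⟩
  have i1 : IsLocalRing A1 := hA1N.isLocal
  have i1' : IsNoetherianRing A1 := hA1N.noeth
  have i2 : IsLocalRing A2 := hA2N.isLocal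
  have i2' : IsNoetherianRing A2 := hA2N.noeth
  obtain ⟨φ1, hφ1, h11, -⟩ := exists_phiB hA1N
  obtain ⟨φ2, hφ2, h12, -⟩ := exists_phiB hA2N
  obtain ⟨χ1, hχ1, hχ1A, hχ1φ⟩ := exists_chi hBN hA1N hle1 φ hφ h1 φ1 hφ1 h11
  obtain ⟨χ2, hχ2, hχ2A, hχ2φ⟩ := exists_chi hA1N hA2N hle2 φ1 hφ1 h11 φ2 hφ2 h12
  obtain ⟨hk1, hk2⟩ := hker i1 i1' i2 i2' φ1 hφ1 h11 φ2 hφ2 h12 χ1 hχ1 hχ1A hχ1φ χ2 hχ2 hχ2A hχ2φ
  obtain ⟨q, gk, hgk⟩ := qfs_gens φ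
  have hf' : ∀ i, φ1 (χ1 (f i)) = 0 := fun i => by rw [hχ1φ, hf]
  have hspan1 : Ideal.span (Set.range fun j => χ1 (gk j)) = RingHom.ker φ1 := by
    rw [hk1, ← hgk, Ideal.map_span, ← Set.range_comp]
    rfl
  have hμ' : ∀ j, χ1 μ * χ1 (gk j) ∈ Ideal.span (Set.range fun i => χ1 (f i)) := by
    intro j
    rw [← map_mul]
    have h2 := Ideal.mem_map_of_mem χ1 (hμ (gk j) (hgk ▸ Ideal.subset_span ⟨j, rfl⟩))
    rw [Ideal.map_span, ← Set.range_comp] at h2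
    exact h2
  obtain ⟨E, hE⟩ : ∃ E : Finset W, ∀ z, z ∈ E ↔ z ∈ Δ ∨ z ∈ Δ0 ∨ (∃ t ∈ s, t.1 = z) ∨
      ∃ t ∈ s, t.2 = z :=
    ⟨Δ ∪ (Δ0 ∪ (s.image Prod.fst ∪ s.image Prod.snd)), fun z => by
      simp only [Finset.mem_union, Finset.mem_image]⟩
  have hEm : ∀ e ∈ E, e ∈ A2 ∧ ∃ β : Fin r → ℕ, ∃ u ∈ Cp A2, ‖u‖ = 1 ∧ e = monN U β * u := by
    intro e he
    rcases (hE e).1 he with he | he | ⟨t, ht, rfl⟩ | ⟨t, ht, rfl⟩
    · exact hΔ e he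
    · exact ⟨hle2 (hle1 (hΔ0 e he).1), hZm e ((hZ e).2 (Or.inr (Or.inl he)))⟩
    · exact ⟨hle2 (hle1 (hs t ht).1), hZm _ ((hZ _).2 (Or.inr (Or.inr (Or.inl ⟨t, ht, rfl⟩))))⟩
    · exact ⟨hle2 (hle1 (hs t ht).2.1),
        hZm _ ((hZ _).2 (Or.inr (Or.inr (Or.inr ⟨t, ht, rfl⟩))))⟩
  obtain ⟨b, hb⟩ := hZm (φ μ) ((hZ _).2 (Or.inl rfl))
  have hb' : ∃ u ∈ Cp A2, ‖u‖ = 1 ∧ φ1 (χ1 μ) = monN U b * u := by
    rw [hχ1φ]
    exact hb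
  obtain ⟨g'', gs, A'', hA'', hg'', hgs, hcard, hgen'', hEM⟩ := fin_G hr hA1N hA2N hle2 φ1 hφ1 h11
    φ2 hφ2 h12 χ2 hχ2 hχ2A hχ2φ (fun j => χ1 (gk j)) hspan1 (fun i => χ1 (f i)) hf' (χ1 μ) hμ' hk2
    U hU hUA y1 hy1 hgen ξ hξ hξgen hξU b hb' E hEm
  have hle' : A2 ≤ A'' := by
    rw [hA'']
    exact fun z hz => le_locV _ _ (Subring.subset_closure (Or.inl hz))
  choose nf hnf βf hβf using fun t : {t // t ∈ g''} => (hg'' t.1 t.2).2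
  obtain ⟨Δ'', hΔ''⟩ : ∃ Δ'' : Finset W, ∀ z, z ∈ Δ'' ↔ ∃ t : {t // t ∈ g''}, monN U (βf t) = z :=
    ⟨Finset.univ.image fun t => monN U (βf t), fun z => by
      simp only [Finset.mem_image, Finset.mem_univ, true_and]⟩
  have hden' : DenD A2 A'' Δ'' := DenD.of_frac g'' Δ'' (fun u hu => ⟨nf ⟨u, hu⟩, hnf _,
    monN U (βf ⟨u, hu⟩), E0_monN_mem A2 hUA _, (hΔ'' _).2 ⟨_, rfl⟩, hβf ⟨u, hu⟩⟩) A'' hA''
  have hden'' : DenD B A'' (Δ ∪ Δ'') := DenD.trans hle' hden hden'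
  -- fractions of elements of `B`
  have hfr1 : ∀ z ∈ A1, ∃ n ∈ B, ∃ d ∈ B, d ≠ 0 ∧ z * d = n :=
    frac_of_frac g1 (fun u hu => (hg1 u hu).2) A1 hA1
  have hA2B : A2 = locV (ball W) (Subring.closure ((B : Set W) ∪ ((g1 ∪ g2 : Finset W) : Set W))) :=
    hA2.trans (Imp.locV_locV_union' (ball W) B A1 g1 g2 hA1).symm
  have hg12 : ∀ u ∈ g1 ∪ g2, ‖u‖ ≤ 1 ∧ ∃ n ∈ B, ∃ d ∈ B, d ≠ 0 ∧ u * d = n := by
    intro u hu
    rcases Finset.mem_union.1 hu with hu | hu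
    · exact hg1 u hu
    · exact ⟨(hg2 u hu).1, qfs_frac hfr1 (hg2 u hu).2⟩
  have hfr2 : ∀ z ∈ A2, ∃ n ∈ B, ∃ d ∈ B, d ≠ 0 ∧ z * d = n :=
    frac_of_frac (g1 ∪ g2) (fun u hu => (hg12 u hu).2) A2 hA2B
  have hA''B : A'' = locV (ball W)
      (Subring.closure ((B : Set W) ∪ ((g1 ∪ g2 ∪ g'' : Finset W) : Set W))) :=
    hA''.trans (Imp.locV_locV_union' (ball W) B A2 (g1 ∪ g2) g'' hA2B).symm
  have hG' : ∀ u ∈ g1 ∪ g2 ∪ g'', ‖u‖ ≤ 1 ∧ ∃ n ∈ B, ∃ d ∈ B, d ≠ 0 ∧ u * d = n := by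
    intro u hu
    rcases Finset.mem_union.1 hu with hu | hu
    · exact hg12 u hu
    · exact ⟨(hg'' u hu).1.le, qfs_frac hfr2 ⟨nf ⟨u, hu⟩, hnf _, monN U (βf ⟨u, hu⟩),
        E0_monN_mem A2 hUA _, E0_monN_ne hU.ne _, hβf ⟨u, hu⟩⟩⟩
  have hA''N : Nl L.toSubfield A'' := by
    rw [hA''B]
    exact hBN.adjoin _ fun u hu => ⟨qfs_mem hBN (hG' u hu).2, (hG' u hu).1⟩
  have hlow := dim_low hBN hA''N (g1 ∪ g2 ∪ g'') hG' hA''B φ hφ h1 (r + 1) (by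
    have h2 := hdim _ hG'
    rw [← hA''B] at h2
    exact h2)
  rw [hH] at hlow
  obtain ⟨hc1, hreg, hdim''⟩ := qfs_reg hA''N U gs (fun i => ⟨hle' (hUA i), hU.lt i⟩) hgs hcard
    hgen'' hlow
  refine ⟨g1 ∪ g2 ∪ g'', U, gs, Δ ∪ Δ'', A'', hA''B, hG', hU, fun i => hle' (hUA i), hgs, hc1,
    hgen'', hreg, hdim'', hden'', ?_, fun δ hδ => hEM δ ((hE δ).2 (Or.inr (Or.inl hδ))), ?_⟩
  · intro δ hδ
    rcases Finset.mem_union.1 hδ with hδ | hδ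
    · exact hEM δ ((hE δ).2 (Or.inl hδ))
    · obtain ⟨t, rfl⟩ := (hΔ'' δ).1 hδ
      exact MonV.monN _
  · intro t ht
    obtain ⟨w1, hw1, hw1v, α, hα⟩ := hEM t.1 ((hE _).2 (Or.inr (Or.inr (Or.inl ⟨t, ht, rfl⟩))))
    obtain ⟨w2, hw2, hw2v, α', hα'⟩ := hEM t.2 ((hE _).2 (Or.inr (Or.inr (Or.inr ⟨t, ht, rfl⟩))))
    obtain ⟨β, hβ⟩ := hZle t.1 ((hZ _).2 (Or.inr (Or.inr (Or.inl ⟨t, ht, rfl⟩)))) t.2
      ((hZ _).2 (Or.inr (Or.inr (Or.inr ⟨t, ht, rfl⟩)))) (hs t ht).2.2.2.2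
    have n1 : ‖w1‖ = 1 := (ball_val_eq_one w1).1 hw1v
    have n2 : ‖w2‖ = 1 := (ball_val_eq_one w2).1 hw2v
    have hαβ : α = α' + β := by
      apply hU.injN
      rw [monN_add, norm_mul]
      rw [hα, hα', norm_mul, norm_mul, n1, n2, one_mul, one_mul] at hβ
      exact hβ
    have hw0 : w2 ≠ 0 := norm_ne_zero_iff.1 (by rw [n2]; exact one_ne_zero)
    have hm0 : monN U α' ≠ 0 := E0_monN_ne hU.ne _
    refine ⟨w1 * w2⁻¹, mul_mem hw1 (hA''N.inv w2 hw2 n2), (ball_val_eq_one _).2 ?_, β, ?_⟩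
    · rw [norm_mul, norm_inv, n1, n2, inv_one, one_mul]
    · rw [hα, hα', hαβ, monN_add]
      field_simp

end Pool.Agent.Lib.MXP
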