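import Pool.Agent.Lib.MXP.QHCst
import Pool.Agent.Lib.MXP.ThmF

/-!
# Module QHCmo: nonzero elements of `HC` become monomial
-/

namespace Pool.Agent.Lib.MXP

open Pool.Agent.Lib.MP_3029eb_ag Pool.Agent.Lib.MP_3029eb_ag.Abh Pool.Agent.Lib.TDO
open Pool.Agent.Lib.TU (Mt exists_Mt)
open Pool.Agent.Lib.TQ

variable {E W : Type} [Field E] [NormedField W] [IsUltrametricDist W] [Algebra E W] {r p : ℕ}
  {S L : IntermediateField E W} {c c' c'' : Tri W r}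

private theorem hcmo_one (hC : CtX p S L c) {z : W}
    (hz : z ∈ HC S c) (h0 : z ≠ 0) :
    ∃ c' : Tri W r, RfS S c c' ∧ MoC S c' z := by
  classical
  have hzpos : 0 < ‖z‖ := norm_pos_iff.2 h0
  obtain ⟨N, -, hN⟩ := exists_mon_lt hC.r0 hC.gd.ind ‖z‖ hzpos
  obtain ⟨J, hJ⟩ := exists_pow_lt_of_lt_one hzpos hC.gd.y1
  obtain ⟨h, hh, h1, hh1, h2, hh2, hzh⟩ := HC_appr hC hz N J
  have hs1 : ‖mon c.x N * h1‖ < ‖z‖ := by
    rw [norm_mul]
    exact (mul_le_of_le_one_right (norm_nonneg _) (HC_norm_le hC hh1)).trans_lt hN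
  have hs2 : ‖c.y ^ J * h2‖ < ‖z‖ := by
    rw [norm_mul, norm_pow]
    exact (mul_le_of_le_one_right (pow_nonneg (norm_nonneg _) _)
      (HC_norm_le hC hh2)).trans_lt hJ
  have hs : ‖mon c.x N * h1 + c.y ^ J * h2‖ < ‖z‖ :=
    (IsUltrametricDist.norm_add_le_max _ _).trans_lt (max_lt hs1 hs2)
  have hnorm : ‖h‖ = ‖z‖ := by
    have h3 : h = z + -(mon c.x N * h1 + c.y ^ J * h2) := by rw [hzh]; ring
    rw [h3]
    have h4 : ‖-(mon c.x N * h1 + c.y ^ J * h2)‖ < ‖z‖ := by rw [norm_neg]; exact hs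
    rw [IsUltrametricDist.norm_add_eq_max_of_norm_ne_norm h4.ne', max_eq_left h4.le]
  have hh0 : h ≠ 0 := norm_pos_iff.1 (by rw [hnorm]; exact hzpos)
  obtain ⟨c1, hst⟩ := hC.exists_stR
  have hC1 := hC.rfS (Relation.ReflTransGen.single hst)
  obtain ⟨c', hrf, hMo⟩ := thmA_Fr hC.r0 hC.amb hC1.gd (z := h) (by
    rw [hst.fr]
    exact HO_mem_Fr hC.gd hh) hh0
  have hcc : RfS S c c' := Relation.ReflTransGen.head hst hrf
  have hC' := hC.rfS hcc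
  have hMh : MoC S c' h :=
    MoC.of_MoH hC' hMo
  have hMN : MoC S c' (mon c.x N) :=
    MoC.of_MoH hC' (hcc.mon_moH hC.gd N)
  have hMy : MoC S c' (c.y ^ J) :=
    MoC.pow hC' (MoC.of_MoH hC' (RfS.y_moH hst hrf)) J
  have hMi := MoC.inv hC' hMh
  have hq1 : mon c.x N * h⁻¹ ∈ QC S c' := by
    refine (MoC.mul hC' hMN hMi).mem_QC hC' ?_
    rw [norm_mul, norm_inv, hnorm, ← div_eq_mul_inv, div_lt_one hzpos]
    exact hN
  have hq2 : c.y ^ J * h⁻¹ ∈ QC S c' := by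
    refine (MoC.mul hC' hMy hMi).mem_QC hC' ?_
    rw [norm_mul, norm_inv, hnorm, ← div_eq_mul_inv, div_lt_one hzpos, norm_pow]
    exact hJ
  have hq : mon c.x N * h⁻¹ * h1 + c.y ^ J * h⁻¹ * h2 ∈ QC S c' :=
    QC_add hC' (QC_mul hq1 (RfS.HC_le hC hcc hh1))
      (QC_mul hq2 (RfS.HC_le hC hcc hh2))
  refine ⟨c', hcc, ?_⟩
  have h5 : z = h * (1 + (mon c.x N * h⁻¹ * h1 + c.y ^ J * h⁻¹ * h2)) := by
    rw [hzh]
    field_simp
    ring
  rw [h5]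
  exact (MoC.perturb hC' hMh hq).1

theorem hc_mo (hC : CtX p S L c) (Z : Finset W) (hZ : ∀ z ∈ Z, z ∈ HLC S c ∧ z ≠ 0) :
    ∃ c' : Tri W r, RfS S c c' ∧ ∀ z ∈ Z, MoC S c' z := by
  classical
  induction Z using Finset.induction_on with
  | empty =>
    exact ⟨c, Relation.ReflTransGen.refl, fun z hz => absurd hz (Finset.notMem_empty z)⟩
  | insert z0 Z hz0 ih =>
    obtain ⟨c1, hrf, hMo⟩ := ih fun z hz => hZ z (Finset.mem_insert_of_mem hz)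
    have hC1 := hC.rfS hrf
    obtain ⟨hzL, hzne⟩ := hZ z0 (Finset.mem_insert_self _ _)
    obtain ⟨a, h, hh, hzh⟩ := RfS.HLC_le hC hrf hzL
    have hh0 : h ≠ 0 := by
      rintro rfl
      exact hzne (by rw [hzh, mul_zero])
    obtain ⟨c2, hrf2, hMo2⟩ := hcmo_one hC1 hh hh0
    have hC2 := hC1.rfS hrf2
    refine ⟨c2, hrf.trans hrf2, fun z hz => ?_⟩
    rcases Finset.mem_insert.1 hz with rfl | hz
    · rw [hzh]
      exact MoC.mul hC2 (RfS.moC hC1 hrf2 (MoC.of_mon hC1 a)) hMo2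
    · exact RfS.moC hC1 hrf2 (hMo z hz)

end Pool.Agent.Lib.MXP
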