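import Pool.Agent.Lib.MXP.QHC
import Pool.Agent.Lib.MXP.StEx

/-!
# Module QHCst: `HC` and refinements of charts
-/

namespace Pool.Agent.Lib.MXP

open Pool.Agent.Lib.MP_3029eb_ag Pool.Agent.Lib.MP_3029eb_ag.Abh Pool.Agent.Lib.TDO
open Pool.Agent.Lib.TU (Mt exists_Mt)
open Pool.Agent.Lib.TQ

variable {E W : Type} [Field E] [NormedField W] [IsUltrametricDist W] [Algebra E W] {r p : ℕ}
  {S L : IntermediateField E W} {c c' c'' : Tri W r}

/-- Every chart has a stage. -/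
theorem CtX.exists_stR (hC : CtX p S L c) : ∃ c' : Tri W r, StR S c c' := by
  obtain ⟨τ, hτ⟩ := exists_Sec (B := c.B) (F := kap c.B) (fun z hz => hC.gd.norm_le hz)
    (fun z hz h1 => hC.gd.inv hz h1) le_rfl
  obtain ⟨c', e, β, w, g, G, T, h, -⟩ := exists_st hC.r0 hC.amb hC.gd rfl hτ ∅
    (fun n hn => absurd hn (Finset.notMem_empty n))
  exact ⟨c', h.stR⟩

private theorem hcst_model (hC : CtX p S L c) (hC' : CtX p S L c') (hB : c.B ≤ c'.B)
    (hle : ∀ z ∈ HO c, z ∈ HO c') {x' : Fin r → W} (hM : Mx S c x') :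
    ∃ x'' : Fin r → W, Mx S c' x'' ∧ Bx c.B x' ≤ Bx c'.B x'' := by
  classical
  obtain ⟨x'', h1, h2, h3, -⟩ := exists_model hC'.gd (Finset.univ.image x') (by
    intro z hz
    obtain ⟨i, -, rfl⟩ := Finset.mem_image.1 hz
    exact hle _ (hM.mem_HO hC (hM.2.xB i))) ∅ (fun a ha => absurd ha (Finset.notMem_empty a))
  exact ⟨x'', ⟨h1, h2⟩, fun z hz => Bx_le (Bx c'.B x'') (fun w hw => le_Bx (hB hw))
    (fun i => h3 _ (Finset.mem_image_of_mem _ (Finset.mem_univ i)))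
    (fun w hw h => inv_mem_Bx hw h) hz⟩

/-- a model of `c` is contained in a model of a refinement -/
theorem RfS.mx (hC : CtX p S L c) (h : RfS S c c') {x' : Fin r → W} (hM : Mx S c x') :
    ∃ x'' : Fin r → W, Mx S c' x'' ∧ Bx c.B x' ≤ Bx c'.B x'' :=
  hcst_model hC (hC.rfS h) h.B_le (fun _ hz => h.HO_le hz) hM

theorem StR.HC_le (hC : CtX p S L c) (h : StR S c c') {z : W}
    (hz : z ∈ HC S c) : z ∈ HC S c' := by
  have hC' := hC.rfS (Relation.ReflTransGen.single h)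
  obtain ⟨x', hM, hz1⟩ := (mem_HC_iff hC z).1 hz
  obtain ⟨x'', hM'', hle⟩ := hcst_model hC hC' h.B_le (fun z hz => h.HO_le hz) hM
  exact (mem_HC_iff hC' z).2 ⟨x'', hM'', Cp_mono (hM.nl hC) (hM''.nl hC') (hle.trans le_Cp) hz1⟩

theorem RfS.HC_le (hC : CtX p S L c) (h : RfS S c c') {z : W} (hz : z ∈ HC S c) : z ∈ HC S c' := by
  induction h with
  | refl => exact hz
  | tail h1 h2 ih => exact StR.HC_le (hC.rfS h1) h2 ih

theorem RfS.moC (hC : CtX p S L c) (h : RfS S c c') {z : W} (hz : MoC S c z) : MoC S c' z := by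
  have hC' := hC.rfS h
  obtain ⟨a, u, hu, hu1, rfl⟩ := hz
  exact MoC.mul hC' (MoC.of_MoH hC' (h.mon_moH hC.gd a))
    (MoC.of_unit (RfS.HC_le hC h hu) hu1)

theorem RfS.QC_le (hC : CtX p S L c) (h : RfS S c c') {z : W} (hz : z ∈ QC S c) : z ∈ QC S c' := by
  have hC' := hC.rfS h
  obtain ⟨a, ha, u, hu, rfl⟩ := hz
  exact QC_mul ((MoC.of_MoH hC' (h.mon_moH hC.gd a)).mem_QC hC' ha)
    (RfS.HC_le hC h hu)

theorem RfS.HLC_le (hC : CtX p S L c) (h : RfS S c c') {z : W} (hz : z ∈ HLC S c) : z ∈ HLC S c' := by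
  have hC' := hC.rfS h
  obtain ⟨a, u, hu, rfl⟩ := hz
  exact HLC_mul hC' ((MoC.of_MoH hC' (h.mon_moH hC.gd a)).mem_HLC hC') (HC_le_HLC (RfS.HC_le hC h hu))

private theorem hcst_y (hC : CtX p S L c) (h : StR S c c')
    (h' : RfS S c' c'') : c.y ∈ QC S c'' := by
  have hC'' := hC.rfS (Relation.ReflTransGen.head h h')
  exact (MoC.of_MoH hC'' (RfS.y_moH h h')).mem_QC hC'' hC.gd.y1

theorem HC_lt_one (hC : CtX p S L c) (h : StR S c c')
    (h' : RfS S c' c'') {z : W} (hz : z ∈ HC S c) (h1 : ‖z‖ < 1) :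
    z ∈ QC S c'' := by
  have hcc : RfS S c c'' := Relation.ReflTransGen.head h h'
  have hC'' := hC.rfS hcc
  obtain ⟨q, hq, b, hb, rfl⟩ := HC_gen hC hz h1
  refine QC_add hC'' (RfS.QC_le hC hcc hq) ?_
  rw [mul_comm]
  exact QC_mul (hcst_y hC h h') (RfS.HC_le hC hcc hb)

private theorem hcst_quot (hC : CtX p S L c) {a b : Fin r → ℤ} (hab : ‖mon c.x b‖ ≤ ‖mon c.x a‖) :
    mon c.x (b - a) ∈ HC S c ∧ mon c.x b = mon c.x a * mon c.x (b - a) := by
  have hne := hC.gd.ind.ne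
  have h1 : mon c.x b = mon c.x a * mon c.x (b - a) := by
    rw [← TDO.mon_add c.x hne]
    congr 1
    abel
  refine ⟨mon_mem_HC hC ?_, h1⟩
  rw [h1, norm_mul] at hab
  have h2 : 0 < ‖mon c.x a‖ := norm_pos_iff.2 (mon_ne c.x hne a)
  exact le_of_mul_le_mul_left (by rwa [mul_one]) h2

private theorem hcst_common (hC : CtX p S L c) (Q : Finset W)
    (hQ : ∀ q ∈ Q, q ∈ QC S c) :
    ∃ a : Fin r → ℤ, ‖mon c.x a‖ < 1 ∧ ∀ q ∈ Q, ∃ h ∈ HC S c, q = mon c.x a * h := by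
  classical
  induction Q using Finset.induction_on with
  | empty =>
    obtain ⟨a, ha, -⟩ := QC_zero hC
    exact ⟨a, ha, fun q hq => absurd hq (Finset.notMem_empty q)⟩
  | insert q0 Q hq0 ih =>
    obtain ⟨a, ha, h1⟩ := ih fun q hq => hQ q (Finset.mem_insert_of_mem hq)
    obtain ⟨b, hb, h, hh, hq⟩ := hQ q0 (Finset.mem_insert_self _ _)
    rcases le_total ‖mon c.x b‖ ‖mon c.x a‖ with hle | hle
    · obtain ⟨h2, h3⟩ := hcst_quot hC hle
      refine ⟨a, ha, fun q hq' => ?_⟩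
      rcases Finset.mem_insert.1 hq' with rfl | hq'
      · exact ⟨mon c.x (b - a) * h, mul_mem h2 hh, by rw [hq, h3, mul_assoc]⟩
      · exact h1 q hq'
    · obtain ⟨h2, h3⟩ := hcst_quot hC hle
      refine ⟨b, hb, fun q hq' => ?_⟩
      rcases Finset.mem_insert.1 hq' with rfl | hq'
      · exact ⟨h, hh, hq⟩
      · obtain ⟨h4, hh4, h5⟩ := h1 q hq'
        exact ⟨mon c.x (a - b) * h4, mul_mem h2 hh4, by rw [h5, h3, mul_assoc]⟩

theorem mP_tiny (hC : CtX p S L c) (h : StR S c c')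
    (h' : RfS S c' c'') {x' : Fin r → W} (hM : Mx S c x')
    (N : Fin r → ℤ) :
    ∃ n : ℕ, ∀ z ∈ mP (Cp (Bx c.B x')) n, ∃ h ∈ HC S c'', z = mon c''.x N * h := by
  classical
  have hcc : RfS S c c'' := Relation.ReflTransGen.head h h'
  have hC'' := hC.rfS hcc
  have hne := hC''.gd.ind.ne
  have hxQ : ∀ i, x' i ∈ QC S c'' := by
    intro i
    obtain ⟨a, ha⟩ := Mt.mon_eq' hC.gd.ind hM.1 (Pi.single i 1)
    rw [mon_single] at ha
    have h1 : MoH c'' (x' i) := by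
      rw [ha]
      exact hcc.mon_moH hC.gd a
    exact (MoC.of_MoH hC'' h1).mem_QC hC'' (hM.1.ind.lt i)
  obtain ⟨a, ha, hQ⟩ := hcst_common hC'' (Finset.univ.image x' ∪ {c.y}) (by
    intro q hq
    simp only [Finset.mem_union, Finset.mem_image, Finset.mem_univ, true_and,
      Finset.mem_singleton] at hq
    rcases hq with ⟨i, rfl⟩ | rfl
    · exact hxQ i
    · exact hcst_y hC h h')
  have hHC : ∀ z ∈ Cp (Bx c.B x'), z ∈ HC S c'' := fun z hz =>
    RfS.HC_le hC hcc ((mem_HC_iff hC z).2 ⟨x', hM, hz⟩)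
  have hNl := hM.nl hC
  have hspan : ∀ z ∈ Submodule.span (Cp (Bx c.B x')) {b : W | b ∈ Bx c.B x' ∧ ‖b‖ < 1},
      ∃ h ∈ HC S c'', z = mon c''.x a * h := by
    intro z hz
    induction hz using Submodule.span_induction with
    | mem z hz =>
      obtain ⟨b, b0, hb, hb0, rfl⟩ := hM.gen hz.1 hz.2
      have h1 : ∀ i, ∃ h ∈ HC S c'', x' i = mon c''.x a * h := fun i => hQ _ (by simp)
      choose t ht1 ht2 using h1
      obtain ⟨t0, ht01, ht02⟩ := hQ c.y (by simp)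
      refine ⟨∑ i, b i * t i + b0 * t0, add_mem (sum_mem fun i _ => mul_mem
        (hHC _ (le_Cp (hb i))) (ht1 i)) (mul_mem (hHC _ (le_Cp hb0)) ht01), ?_⟩
      rw [mul_add, Finset.mul_sum]
      congr 1
      · refine Finset.sum_congr rfl fun i _ => ?_
        conv_lhs => rw [ht2 i]
        ring
      · conv_lhs => rw [ht02]
        ring
    | zero => exact ⟨0, zero_mem _, by rw [mul_zero]⟩
    | add y z _ _ hy hz =>
      obtain ⟨h1, hh1, rfl⟩ := hy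
      obtain ⟨h2, hh2, rfl⟩ := hz
      exact ⟨h1 + h2, add_mem hh1 hh2, by rw [mul_add]⟩
    | smul s z _ hz =>
      obtain ⟨h1, hh1, rfl⟩ := hz
      refine ⟨(s : W) * h1, mul_mem (hHC _ s.2) hh1, ?_⟩
      rw [Subring.smul_def, smul_eq_mul]
      ring
  have hone : ∀ t ∈ mI (Cp (Bx c.B x')), ∃ h ∈ HC S c'', (t : W) = mon c''.x a * h := by
    intro t ht
    unfold mI at ht
    induction ht using Submodule.span_induction with
    | mem t ht => exact hspan _ (Cp_max hNl t.2 ht)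
    | zero => exact ⟨0, zero_mem _, by rw [mul_zero]; rfl⟩
    | add y z _ _ hy hz =>
      obtain ⟨h1, hh1, hy1⟩ := hy
      obtain ⟨h2, hh2, hz1⟩ := hz
      exact ⟨h1 + h2, add_mem hh1 hh2, by rw [mul_add, ← hy1, ← hz1]; rfl⟩
    | smul s z _ hz =>
      obtain ⟨h1, hh1, hz1⟩ := hz
      refine ⟨(s : W) * h1, mul_mem (hHC _ s.2) hh1, ?_⟩
      rw [smul_eq_mul, Subring.coe_mul, hz1]
      ring
  have hpow : ∀ (n : ℕ), ∀ t ∈ mI (Cp (Bx c.B x')) ^ n, ∃ h ∈ HC S c'',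
      (t : W) = mon c''.x a ^ n * h := by
    intro n
    induction n with
    | zero =>
      intro t _
      exact ⟨t, hHC _ t.2, by rw [pow_zero, one_mul]⟩
    | succ n ih =>
      intro t ht
      rw [pow_succ] at ht
      refine Submodule.mul_induction_on ht (fun s hs u hu => ?_) (fun y z hy hz => ?_)
      · obtain ⟨h1, hh1, hs1⟩ := ih s hs
        obtain ⟨h2, hh2, hu1⟩ := hone u hu
        refine ⟨h1 * h2, mul_mem hh1 hh2, ?_⟩
        rw [Subring.coe_mul, hs1, hu1]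
        ring
      · obtain ⟨h1, hh1, hy1⟩ := hy
        obtain ⟨h2, hh2, hz1⟩ := hz
        exact ⟨h1 + h2, add_mem hh1 hh2, by rw [mul_add, ← hy1, ← hz1]; rfl⟩
  obtain ⟨n, hn⟩ := exists_pow_lt_of_lt_one (norm_pos_iff.2 (mon_ne c''.x hne N)) ha
  refine ⟨n, fun z hz => ?_⟩
  obtain ⟨t, ht, rfl⟩ := hz
  obtain ⟨h1, hh1, h2⟩ := hpow n t ht
  have h3 : ‖mon c''.x (n • a)‖ ≤ ‖mon c''.x N‖ := by
    rw [mon_nsmul, norm_pow]
    exact hn.le
  obtain ⟨h4, h5⟩ := hcst_quot hC'' h3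
  refine ⟨mon c''.x (n • a - N) * h1, mul_mem h4 hh1, ?_⟩
  rw [h2, ← mon_nsmul, h5, mul_assoc]

end Pool.Agent.Lib.MXP
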