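import Pool.Agent.Lib.MXP.QTr
import Pool.Agent.Lib.MXP.QCh0
import Pool.Agent.Lib.MXP.QDat
import Pool.Agent.Lib.MXP.QDif
import Pool.Agent.Lib.MXP.MainP

/-!
# Module QStart: the field `S`, the approximation data and a chart of `L`
-/

namespace Pool.Agent.Lib.MXP

open Pool.Agent.Lib.MP_3029eb_ag Pool.Agent.Lib.MP_3029eb_ag.Abh Pool.Agent.Lib.TDO
open Pool.Agent.Lib.TU (Mt exists_Mt)
open Pool.Agent.Lib.TQ

private theorem qsa_indep {W : Type} [NormedField W] [IsUltrametricDist W] {r : ℕ}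
    {x x' : Fin r → W} (hx : Indep x) (h : ∀ i, ‖x i - x' i‖ < ‖x i‖) : Indep x' := by
  have hn : ∀ i, ‖x' i‖ = ‖x i‖ := by
    intro i
    have h1 : x' i = x i + (x' i - x i) := by ring
    have h2 : ‖x' i - x i‖ < ‖x i‖ := by rw [norm_sub_rev]; exact h i
    rw [h1, IsUltrametricDist.norm_add_eq_max_of_norm_ne_norm h2.ne', max_eq_left h2.le]
  have hm : ∀ a : Fin r → ℤ, ‖mon x' a‖ = ‖mon x a‖ := by
    intro a
    unfold mon
    rw [norm_prod, norm_prod]
    refine Finset.prod_congr rfl fun i _ => ?_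
    rw [norm_zpow, norm_zpow, hn]
  refine ⟨fun i h0 => hx.ne i ?_, fun i => ?_, fun δ hδ => ?_⟩
  · rw [← norm_eq_zero, ← hn, h0, norm_zero]
  · rw [hn]
    exact hx.lt i
  · apply hx.indep
    rw [← hm]
    exact hδ

variable {E W : Type} [Field E] [NontriviallyNormedField W] [IsUltrametricDist W] [Algebra E W]
  [IsAlgClosed W] {p r : ℕ}

theorem chart_in (hr : 0 < r) (hAE : AmbE p r E W) (F0 : IntermediateField E W) (G : Finset W)
    (hG : IntermediateField.adjoin E (G : Set W) = F0) (τ : Fin (r + 1) → W)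
    (hτ : AlgebraicIndependent E τ) (hτF : ∀ i, τ i ∈ F0)
    (hFτ : ∀ z ∈ F0, IsSeparable (IntermediateField.adjoin E (Set.range τ)) z) (x : Fin r → W)
    (hx : Indep x) (hxF : ∀ i, x i ∈ F0)
    (hcomp : IsComplete ((cl F0 : IntermediateField E W) : Set W))
    (halg : ∀ z : W, IsAlgebraic (cl F0 : IntermediateField E W) z) :
    AmbX p r (main_S F0) ∧ HasCh (main_S F0) r (cl F0) := by
  classical
  have hle : F0 ≤ main_S F0 := fun z hz =>
    main_mem_S.2 (isSeparable_algebraMap (F := F0) (K := W) (⟨z, hz⟩ : F0))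
  have hτF0 : IntermediateField.adjoin E (Set.range τ) ≤ F0 := by
    rw [IntermediateField.adjoin_le_iff]
    rintro _ ⟨i, rfl⟩
    exact hτF i
  have hSτ : ∀ z ∈ main_S F0, IsSeparable (IntermediateField.adjoin E (Set.range τ)) z :=
    fun z hz => main_sep_trans hτF0 hFτ (main_mem_S.1 hz)
  have htr : Algebra.trdeg E (main_S F0) = ((r + 1 : ℕ) : Cardinal) := by
    have h1 := trdeg_eq τ hτ (main_S F0) (fun i => hle (hτF i)) (fun z hz =>
      (hSτ z hz).isIntegral.isAlgebraic)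
    rwa [Fintype.card_fin] at h1
  have hA : AmbX p r (main_S F0) := hAE.ambX _ (main_S_closed F0) htr
  refine ⟨hA, ?_⟩
  obtain ⟨x', y, hx', hx'F, hyF, hy1, hsep⟩ := exists_startP F0 ⟨G, hG⟩ hr τ hτ hτF hFτ x hx hxF
  obtain ⟨F1, hF1⟩ : ∃ F1 : IntermediateField E W,
    F1 = IntermediateField.adjoin E (insert y (Set.range x')) := ⟨_, rfl⟩
  rw [← hF1] at hsep
  have hF10 : F1 ≤ F0 := by
    rw [hF1, IntermediateField.adjoin_le_iff]
    rintro z (rfl | ⟨i, rfl⟩)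
    · exact hyF
    · exact hx'F i
  have hsepS : ∀ z ∈ main_S F0, IsSeparable F1 z := fun z hz =>
    main_sep_trans hF10 hsep (main_mem_S.1 hz)
  obtain ⟨c, hgs, hFr⟩ := gs_start hA hx' (fun i => hle (hx'F i)) (hle hyF) hy1
    (by rw [← hF1]; exact hsepS)
  rw [← hF1] at hFr
  have hL0c : IsComplete ((cl F1 : IntermediateField E W) : Set W) :=
    isComplete_cl hcomp (hF10.trans (le_cl F0))
  have hch : Ch (main_S F0) (cl F1) c := by
    refine ⟨hgs.gd, ?_, fun z hz => ?_⟩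
    · rw [hFr]; exact le_cl F1
    · rw [hFr]; exact hz
  have hGF : ∀ θ ∈ G, θ ∈ F0 := fun θ hθ => by
    rw [← hG]; exact IntermediateField.subset_adjoin E _ hθ
  have hGsep : ∀ θ ∈ G, IsSeparable (cl F1 : IntermediateField E W) θ := fun θ hθ =>
    main_sep_le (le_cl F1) (hsep θ (hGF θ hθ))
  have hxF1 : x' ⟨0, hr⟩ ∈ F1 := by
    rw [hF1]
    exact IntermediateField.subset_adjoin E _ (Or.inr ⟨⟨0, hr⟩, rfl⟩)
  have hnt : ∃ z ∈ (cl F1 : IntermediateField E W), z ≠ 0 ∧ ‖z‖ < 1 :=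
    ⟨x' ⟨0, hr⟩, le_cl F1 hxF1, hx'.ne _, hx'.lt _⟩
  have hcl : cl F1 ⊔ IntermediateField.adjoin E (G : Set W) = cl F0 := by
    apply le_antisymm
    · refine sup_le (cl_mono hF10) ?_
      rw [hG]
      exact le_cl F0
    · refine cl_le_of_isComplete (isComplete_sup_finset hL0c hnt G fun θ hθ =>
        (hGsep θ hθ).isIntegral.isAlgebraic) ?_
      rw [← hG]
      exact le_sup_right
  have halg0 : ∀ z : W, IsAlgebraic (cl F1 : IntermediateField E W) z := by
    intro z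
    have h1 : cl F0 ≤ aC (cl F1) := by
      rw [← hcl]
      refine sup_le (le_aC _) ?_
      rw [IntermediateField.adjoin_le_iff]
      exact fun θ hθ => mem_aC.2 (hGsep θ hθ).isIntegral.isAlgebraic
    exact mem_aC.1 (aC_le h1 (mem_aC.2 (halg z)))
  have h := hasCh_finset hr hA hL0c halg0 ⟨c, hch⟩ G hGsep
  rwa [hcl] at h

theorem start_W (hr : 0 < r) (hAE : AmbE p r E W) (L : IntermediateField E W)
    (halg : ∀ z : W, IsAlgebraic L z) (A : Subring W) (hN : Nl L.toSubfield A)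
    (hdens : ∀ z ∈ L, ∀ ε : ℝ, 0 < ε → ∃ a ∈ A, ∃ b ∈ A, b ≠ 0 ∧ ‖z - a / b‖ < ε)
    (hCD : ∀ e ∈ Lam E W, e ∈ Cp A) (hres : ∀ z ∈ A, ∃ e ∈ Lam E W, ‖z - e‖ < 1)
    (x : Fin r → W) (hx : Indep x) (hxL : ∀ i, x i ∈ L)
    (hdim : ringKrullDim (Cp A) = (((r + 1 : ℕ) : ℕ∞) : WithBot ℕ∞)) (t : Fin (r + 1) → W)
    (ht : ∀ i, t i ∈ Cp A ∧ ‖t i‖ < 1 ∧ t i ≠ 0) (N0 : ℕ)
    (hN0 : ∀ z ∈ mP (Cp A) N0, z ∈ Submodule.span (Cp A) (Set.range t))
    (hsep : ∀ z ∈ Cp A, ∃ F : Polynomial W, (∀ j, F.coeff j ∈ Cp (PtX E t)) ∧ F.eval z = 0 ∧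
        F.derivative.eval z ≠ 0) :
    ∃ (S : IntermediateField E W) (q : ℕ) (w w' : Fin q → W)
      (F F' : Fin q → Polynomial W) (N : ℕ), AmbX p r S ∧ HasCh S r L ∧
      DatX S L A t w w' F F' N ∧
      (∀ z : W, z ∈ S ↔
        IsSeparable (IntermediateField.adjoin E (Set.range t ∪ Set.range w')) z) ∧
      L = cl (IntermediateField.adjoin E (Set.range t ∪ Set.range w')) := by
  classical
  have hres' : ∀ z ∈ Cp A, ∃ e ∈ Lam E W, ‖z - e‖ < 1 := by
    intro z hz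
    obtain ⟨b, hb, hb1⟩ := Cp_dens hN hz 1
    have h1 : ‖z - b‖ < 1 := ((hN.cp.mP_one_iff).1 hb1).2
    obtain ⟨a, ha, ha1⟩ := hres b hb
    refine ⟨a, ha, ?_⟩
    have h2 : z - a = (z - b) + (b - a) := by ring
    rw [h2]
    exact lt_of_le_of_lt (IsUltrametricDist.norm_add_le_max _ _) (max_lt h1 ha1)
  obtain ⟨hP, hPD, -, l, v, hv, hgen⟩ := q_fin hAE hN.cp (Cp_idem hN) hCD hres' t
    (fun i => ⟨(ht i).1, (ht i).2.1⟩) N0 hN0
  have hind := q_indep hAE hN.cp hdim t (fun i => ⟨(ht i).1, (ht i).2.1⟩) hP hPD v hv hgen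
  obtain ⟨q, w, w', F, F', N, hL, hdat⟩ := exists_datX hAE (Nat.succ_pos r) L A hN hdens t
    hCD hres' ht hP hPD hsep
  obtain ⟨F2, hF2⟩ : ∃ F2 : IntermediateField E W,
    F2 = IntermediateField.adjoin E (Set.range t ∪ Set.range w') := ⟨_, rfl⟩
  rw [← hF2] at hL
  have hSm : ∀ z : W, z ∈ main_S F2 ↔
      IsSeparable (IntermediateField.adjoin E (Set.range t ∪ Set.range w')) z := fun z => by
    rw [← hF2]; exact main_mem_S
  have hD0 := hdat (main_S F2) hSm
  obtain ⟨G, hG⟩ : ∃ G : Finset W, G = Finset.univ.image t ∪ Finset.univ.image w' := ⟨_, rfl⟩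
  have hGF : IntermediateField.adjoin E (G : Set W) = F2 := by
    rw [hF2, hG, Finset.coe_union, Finset.coe_image, Finset.coe_image, Finset.coe_univ,
      Finset.coe_univ, Set.image_univ, Set.image_univ]
  have htF : ∀ i, t i ∈ F2 := fun i => by
    rw [hF2]; exact IntermediateField.subset_adjoin E _ (Or.inl ⟨i, rfl⟩)
  have hx' : ∀ i, ∃ y ∈ F2, ‖x i - y‖ < ‖x i‖ := by
    intro i
    have h1 : x i ∈ cl F2 := by rw [← hL]; exact hxL i
    exact (mem_cl_iff F2 (x i)).1 h1 _ (norm_pos_iff.2 (hx.ne i))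
  choose x' hx'F hx'n using hx'
  -- `F2` is separable over `E(t)`
  obtain ⟨K1, hK1⟩ : ∃ K1 : IntermediateField E W,
    K1 = IntermediateField.adjoin E (Set.range t) := ⟨_, rfl⟩
  have htK : ∀ i, t i ∈ K1 := by
    intro i
    rw [hK1]; exact IntermediateField.subset_adjoin E _ ⟨i, rfl⟩
  have hPA : ∀ z ∈ PtX E t, z ∈ K1 := by
    rintro z ⟨a, ha, b, hb, hb1, hab⟩
    have h4 : Subring.closure ((Lam E W : Set W) ∪ Set.range t) ≤ K1.toSubfield.toSubring := by
      rw [Subring.closure_le]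
      rintro y (hy | ⟨i, rfl⟩)
      · obtain ⟨⟨e, rfl⟩, -⟩ := hy
        exact IntermediateField.algebraMap_mem _ e
      · exact htK i
    have hb0 : b ≠ 0 := by
      rintro rfl
      rw [map_zero] at hb1
      exact zero_ne_one hb1
    rw [eq_div_of_mul_eq hb0 hab]
    exact div_mem (h4 ha) (h4 hb)
  have hwA : ∀ j, IsSeparable K1 (w' j) := by
    intro j
    have h6 : F' j ∈ Polynomial.lifts (algebraMap K1 W) := by
      rw [Polynomial.lifts_iff_coeff_lifts]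
      intro i
      exact ⟨⟨(F' j).coeff i, hPA _ (hD0.FP' j i)⟩, rfl⟩
    obtain ⟨Q, hQ⟩ := (Polynomial.mem_lifts _).1 h6
    have hQ0 : Polynomial.aeval (w' j) Q = 0 := by
      rw [Polynomial.aeval_def, ← Polynomial.eval_map, hQ]
      exact hD0.root' j
    have hQ1 : Polynomial.aeval (w' j) Q.derivative ≠ 0 := by
      rw [Polynomial.aeval_def, ← Polynomial.eval_map, ← Polynomial.derivative_map, hQ]
      exact hD0.der0 j
    have hint : IsIntegral K1 (w' j) := by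
      refine IsAlgebraic.isIntegral ⟨Q, ?_, hQ0⟩
      rintro rfl
      rw [Polynomial.derivative_zero, map_zero] at hQ1
      exact hQ1 rfl
    obtain ⟨R, hR⟩ := minpoly.dvd K1 (w' j) hQ0
    refine (Polynomial.separable_iff_derivative_ne_zero (minpoly.irreducible hint)).2 ?_
    intro h0
    apply hQ1
    rw [hR, Polynomial.derivative_mul, h0, zero_mul, zero_add, map_mul, minpoly.aeval, zero_mul]
  have hFτ : ∀ z ∈ F2, IsSeparable K1 z := by
    have h1 : F2 ≤ main_S K1 := by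
      rw [hF2, IntermediateField.adjoin_le_iff]
      rintro z (⟨i, rfl⟩ | ⟨j, rfl⟩)
      · exact main_mem_S.2 (isSeparable_algebraMap (F := K1) (K := W) (⟨_, htK i⟩ : K1))
      · exact main_mem_S.2 (hwA j)
    exact fun z hz => main_mem_S.1 (h1 hz)
  rw [hK1] at hFτ
  obtain ⟨hAX, hch⟩ := chart_in hr hAE F2 G hGF t hind htF hFτ x' (qsa_indep hx hx'n) hx'F
    (by rw [← hL]; exact hN.comp) (by rw [← hL]; exact halg)
  rw [← hL] at hch
  exact ⟨main_S F2, q, w, w', F, F', N, hAX, hch, hD0, hSm, by rw [← hF2]; exact hL⟩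

end Pool.Agent.Lib.MXP
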