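import Pool.Agent.Lib.MXP.StEx

/-!
# Module StPw: the ring `HO c' / QH c'` after a stage

For a stage `c → c'` the ring `HO c' / QH c'` contains the values `P(w)`, `P` a polynomial over `c.B`; modulo
`QH c'` only the reduction `P̄` over the residue field `F` matters, and `P(w)` is `y'^n` times an
element of `HO c'` modulo `QH c'` if and only if `g^n` divides `P̄`.
-/

namespace Pool.Agent.Lib.MXP

open Pool.Agent.Lib.MP_3029eb_ag Pool.Agent.Lib.MP_3029eb_ag.Abh Pool.Agent.Lib.TDO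
open Pool.Agent.Lib.TU (Mt exists_Mt)
open Polynomial

section Red

variable {W : Type} [NormedField W] [IsUltrametricDist W]

theorem pB_add {B : Subring W} {P Q : W[X]} (hP : ∀ j, P.coeff j ∈ B) (hQ : ∀ j, Q.coeff j ∈ B) :
    ∀ j, (P + Q).coeff j ∈ B := fun j => by
  rw [coeff_add]; exact add_mem (hP j) (hQ j)

theorem pB_sub {B : Subring W} {P Q : W[X]} (hP : ∀ j, P.coeff j ∈ B) (hQ : ∀ j, Q.coeff j ∈ B) :
    ∀ j, (P - Q).coeff j ∈ B := fun j => by
  rw [coeff_sub]; exact sub_mem (hP j) (hQ j)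

theorem pB_neg {B : Subring W} {P : W[X]} (hP : ∀ j, P.coeff j ∈ B) :
    ∀ j, (-P).coeff j ∈ B := fun j => by
  rw [coeff_neg]; exact neg_mem (hP j)

theorem pB_mul {B : Subring W} {P Q : W[X]} (hP : ∀ j, P.coeff j ∈ B) (hQ : ∀ j, Q.coeff j ∈ B) :
    ∀ j, (P * Q).coeff j ∈ B := fun j => by
  rw [coeff_mul]; exact sum_mem fun i _ => mul_mem (hP _) (hQ _)

theorem pB_C {B : Subring W} {a : W} (ha : a ∈ B) : ∀ j, (C a : W[X]).coeff j ∈ B := fun j => by
  rw [coeff_C]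
  split_ifs
  · exact ha
  · exact zero_mem _

theorem pB_one {B : Subring W} : ∀ j, (1 : W[X]).coeff j ∈ B := fun j => by
  rw [← C_1]; exact pB_C (one_mem _) j

theorem pB_X {B : Subring W} : ∀ j, (X : W[X]).coeff j ∈ B := fun j => by
  rw [coeff_X]
  split_ifs
  · exact one_mem _
  · exact zero_mem _

theorem pB_pow {B : Subring W} {P : W[X]} (hP : ∀ j, P.coeff j ∈ B) (n : ℕ) :
    ∀ j, (P ^ n).coeff j ∈ B := by
  induction n with
  | zero => rw [pow_zero]; exact pB_one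
  | succ n ih => rw [pow_succ]; exact pB_mul ih hP

theorem pB_eval {B : Subring W} {P : W[X]} (hP : ∀ j, P.coeff j ∈ B) {w : W} (hw : w ∈ B) :
    P.eval w ∈ B := by
  rw [eval_eq_sum_range]
  exact sum_mem fun j _ => mul_mem (hP j) (pow_mem hw _)

/-- `Q` is the reduction of `P`. -/
def Rd {F : Subfield (RW W)} (P : W[X]) (Q : F[X]) : Prop :=
  ∀ j, ‖P.coeff j‖ ≤ 1 ∧ rs (P.coeff j) = (Q.coeff j : RW W)

variable {F : Subfield (RW W)}

theorem Rd.add {P P' : W[X]} {Q Q' : F[X]} (h : Rd P Q) (h' : Rd P' Q') : Rd (P + P') (Q + Q') :=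
  fun j => by
    rw [coeff_add, coeff_add]
    refine ⟨(IsUltrametricDist.norm_add_le_max _ _).trans (max_le (h j).1 (h' j).1), ?_⟩
    rw [rs_add (h j).1 (h' j).1, (h j).2, (h' j).2]
    rfl

theorem Rd.neg {P : W[X]} {Q : F[X]} (h : Rd P Q) : Rd (-P) (-Q) := fun j => by
  rw [coeff_neg, coeff_neg]
  refine ⟨by rw [norm_neg]; exact (h j).1, ?_⟩
  rw [rs_neg (h j).1, (h j).2]
  rfl

theorem Rd.sub {P P' : W[X]} {Q Q' : F[X]} (h : Rd P Q) (h' : Rd P' Q') : Rd (P - P') (Q - Q') := by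
  rw [sub_eq_add_neg, sub_eq_add_neg]
  exact h.add h'.neg

theorem Rd.mul {P P' : W[X]} {Q Q' : F[X]} (h : Rd P Q) (h' : Rd P' Q') : Rd (P * P') (Q * Q') :=
  fun j => by
    rw [coeff_mul, coeff_mul]
    have h1 : ∀ i ∈ Finset.HasAntidiagonal.antidiagonal j, ‖P.coeff i.1 * P'.coeff i.2‖ ≤ 1 := fun i _ => by
      rw [norm_mul]
      exact mul_le_one₀ (h _).1 (norm_nonneg _) (h' _).1
    obtain ⟨h2, h3⟩ := rs_sum _ _ h1
    refine ⟨h3, h2.trans ?_⟩
    have h4 : ((∑ i ∈ Finset.HasAntidiagonal.antidiagonal j, Q.coeff i.1 * Q'.coeff i.2 : F) : RW W) =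
        ∑ i ∈ Finset.HasAntidiagonal.antidiagonal j, (Q.coeff i.1 : RW W) * (Q'.coeff i.2 : RW W) := by
      rw [AddSubmonoidClass.coe_finset_sum]
      rfl
    rw [h4]
    refine Finset.sum_congr rfl fun i _ => ?_
    rw [rs_mul (h _).1 (h' _).1, (h _).2, (h' _).2]

theorem Rd.one : Rd (1 : W[X]) (1 : F[X]) := fun j => by
  rw [coeff_one, coeff_one]
  split_ifs
  · exact ⟨by rw [norm_one], rs_one⟩
  · exact ⟨by rw [norm_zero]; exact zero_le_one, rs_zero⟩

theorem Rd.pow {P : W[X]} {Q : F[X]} (h : Rd P Q) (n : ℕ) : Rd (P ^ n) (Q ^ n) := by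
  induction n with
  | zero => rw [pow_zero, pow_zero]; exact Rd.one
  | succ n ih => rw [pow_succ, pow_succ]; exact ih.mul h

theorem Rd.eval {P : W[X]} {Q : F[X]} (h : Rd P Q) {w : W} (hw : ‖w‖ ≤ 1) :
    ‖P.eval w‖ ≤ 1 ∧ rs (P.eval w) = aeval (rs w) Q :=
  rs_eval hw Q P (fun j => (h j).1) (fun j => (h j).2)

/-- Reductions exist. -/
theorem exists_red {B : Subring W} (hn : ∀ z ∈ B, ‖z‖ ≤ 1) (hF : kap B = F) {P : W[X]}
    (hP : ∀ j, P.coeff j ∈ B) : ∃ Q : F[X], Rd P Q := by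
  have hmem : ∀ j, rs (P.coeff j) ∈ F := fun j => by
    rw [← hF]
    exact rs_mem_kap (hP j)
  set Q : Polynomial F := ∑ j ∈ Finset.range (P.natDegree + 1),
    Polynomial.C (⟨rs (P.coeff j), hmem j⟩ : F) * Polynomial.X ^ j with hQ
  refine ⟨Q, fun j => ⟨hn _ (hP j), ?_⟩⟩
  have hQc : Q.coeff j = ⟨rs (P.coeff j), hmem j⟩ := by
    rw [hQ, Polynomial.finset_sum_coeff]
    simp only [Polynomial.coeff_C_mul, Polynomial.coeff_X_pow]
    by_cases hj : j < P.natDegree + 1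
    · rw [Finset.sum_eq_single j]
      · rw [if_pos rfl, mul_one]
      · intro i _ hi
        rw [if_neg hi.symm, mul_zero]
      · intro h
        exact absurd (Finset.mem_range.2 hj) h
    · rw [Finset.sum_eq_zero]
      · refine Subtype.ext ?_
        change (0 : RW W) = rs (P.coeff j)
        rw [Polynomial.coeff_eq_zero_of_natDegree_lt (by omega), rs_zero]
      · intro i hi
        rw [if_neg, mul_zero]
        rintro rfl
        exact hj (Finset.mem_range.1 hi)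
  rw [hQc]

/-- Lifts exist. -/
theorem exists_lift' {B : Subring W} {τ : F → W} (hτ : Sec B F τ) (Q : F[X]) :
    ∃ P : W[X], (∀ j, P.coeff j = τ (Q.coeff j)) ∧ (∀ j, P.coeff j ∈ B) ∧ Rd P Q := by
  set P : W[X] := ∑ j ∈ Finset.range (Q.natDegree + 1), C (τ (Q.coeff j)) * X ^ j with hP
  have hPc : ∀ j, P.coeff j = τ (Q.coeff j) := by
    intro j
    rw [hP, Polynomial.finset_sum_coeff]
    simp only [Polynomial.coeff_C_mul, Polynomial.coeff_X_pow]
    by_cases hj : j < Q.natDegree + 1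
    · rw [Finset.sum_eq_single j]
      · rw [if_pos rfl, mul_one]
      · intro i _ hi
        rw [if_neg hi.symm, mul_zero]
      · intro h
        exact absurd (Finset.mem_range.2 hj) h
    · rw [Finset.sum_eq_zero]
      · rw [Polynomial.coeff_eq_zero_of_natDegree_lt (by omega), hτ.zero]
      · intro i hi
        rw [if_neg, mul_zero]
        rintro rfl
        exact hj (Finset.mem_range.1 hi)
  refine ⟨P, hPc, fun j => by rw [hPc]; exact hτ.mem _, fun j => ?_⟩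
  rw [hPc]
  exact ⟨hτ.norm _, hτ.rs _⟩

end Red

variable {E W : Type} [Field E] [NormedField W] [IsUltrametricDist W] [Algebra E W] {r p : ℕ}
  {S : IntermediateField E W} {c c' : Tri W r} {F : Subfield (RW W)} {e : ℕ} {β : Fin r → ℤ}
  {w : W} {g : F[X]} {G : W[X]} {T : ((Fin r → ℤ) × ℤ) ≃+ ((Fin r → ℤ) × ℤ)}

theorem St.rdG (h : St S c c' F e β w g G T) : Rd G g :=
  fun j => ⟨h.gd.norm_le (h.Gc j), h.Gr j⟩

/-- Values of polynomials over `c.B` at `w`. -/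
theorem St.eval_mem (h : St S c c' F e β w g G T) {P : W[X]} (hP : ∀ j, P.coeff j ∈ c.B) :
    P.eval w ∈ HO c' := by
  rw [eval_eq_sum_range]
  exact sum_mem fun j _ => mul_mem (B_mem_HO h.gd' (h.B_le (hP j))) (pow_mem h.w_mem_HO _)

/-- Elements of `c.B` of norm less than one are in `QH c'`. -/
theorem St.lt_one (hr : 0 < r) (h : St S c c' F e β w g G T) {z : W} (hz : z ∈ HO c)
    (h1 : ‖z‖ < 1) : z ∈ QH c' :=
  RfS.lt_one hr h.stR Relation.ReflTransGen.refl hz h1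

theorem QH_sum (hr : 0 < r) (hc : Gd S c) {ι : Type*} (s : Finset ι) (f : ι → W)
    (h : ∀ i ∈ s, f i ∈ QH c) : ∑ i ∈ s, f i ∈ QH c := by
  classical
  induction s using Finset.induction_on with
  | empty => rw [Finset.sum_empty]; exact QH_zero hc hr
  | insert i s hi ih =>
    rw [Finset.sum_insert hi]
    exact QH_add hc (h i (Finset.mem_insert_self _ _))
      (ih fun j hj => h j (Finset.mem_insert_of_mem hj))

/-- Polynomials with reduction zero. -/
theorem St.red_zero (hr : 0 < r) (h : St S c c' F e β w g G T) {P : W[X]}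
    (hP : ∀ j, P.coeff j ∈ c.B) (h0 : Rd P (0 : F[X])) : P.eval w ∈ QH c' := by
  rw [eval_eq_sum_range]
  refine QH_sum hr h.gd' _ _ fun j _ => ?_
  refine QH_mul h.gd' (h.lt_one hr (B_mem_HO h.gd (hP j)) ?_) (pow_mem h.w_mem_HO _)
  have h1 := h0 j
  rw [coeff_zero] at h1
  exact (rs_eq_zero_iff h1.1).1 h1.2

/-- Polynomials whose reduction is divisible by `g ^ n`. -/
theorem St.pow_dvd (hr : 0 < r) (h : St S c c' F e β w g G T) {P : W[X]} {Q Q1 : F[X]}
    (hP : ∀ j, P.coeff j ∈ c.B) (hQ : Rd P Q) {n : ℕ} (hQ1 : Q = g ^ n * Q1) :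
    ∃ P1 : W[X], (∀ j, P1.coeff j ∈ c.B) ∧ Rd P1 Q1 ∧
      ∃ q ∈ QH c', P.eval w = c'.y ^ n * P1.eval w + q := by
  obtain ⟨τ, hτ⟩ := h.gd.exists_sec h.hF
  obtain ⟨P1, -, hP1, hP1r⟩ := exists_lift' hτ Q1
  refine ⟨P1, hP1, hP1r, (P - G ^ n * P1).eval w, ?_, ?_⟩
  · refine h.red_zero hr (pB_sub hP (pB_mul (pB_pow h.Gc n) hP1)) ?_
    have h1 := hQ.sub ((h.rdG.pow n).mul hP1r)
    rwa [hQ1, sub_self] at h1
  · rw [eval_sub, eval_mul, eval_pow, ← h.hy]
    ring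

theorem St.norm_eval_iff (h : St S c c' F e β w g G T) {P : W[X]} {Q : F[X]} (hQ : Rd P Q) :
    ‖P.eval w‖ < 1 ↔ g ∣ Q := by
  obtain ⟨h1, h2⟩ := hQ.eval h.w1.le
  rw [← rs_eq_zero_iff h1, h2]
  constructor
  · intro h0
    by_contra hnd
    have hco : IsCoprime g Q := (h.gi.coprime_iff_not_dvd).2 hnd
    obtain ⟨a, b, hab⟩ := hco
    have h3 := congrArg (aeval (rs w)) hab
    rw [map_add, map_mul, map_mul, h.gw, h0, mul_zero, mul_zero, add_zero, map_one] at h3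
    exact zero_ne_one h3
  · rintro ⟨R, rfl⟩
    rw [map_mul, h.gw, zero_mul]

/-- The value of a polynomial whose reduction is nonzero. -/
theorem St.lead_poly (hr : 0 < r) (h : St S c c' F e β w g G T) {P : W[X]} {Q : F[X]}
    (hP : ∀ j, P.coeff j ∈ c.B) (hQ : Rd P Q) (h0 : Q ≠ 0) :
    ∃ (n : ℕ) (Q1 : F[X]), Q = g ^ n * Q1 ∧ ¬ g ∣ Q1 ∧ ∃ v ∈ HO c', ‖v‖ = 1 ∧
      ∃ q ∈ QH c', P.eval w = c'.y ^ n * v + q := by
  have hfin : FiniteMultiplicity g Q :=
    FiniteMultiplicity.of_prime_left h.gi.prime h0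
  obtain ⟨Q1, hQ1, hnd⟩ := hfin.exists_eq_pow_mul_and_not_dvd
  obtain ⟨P1, hP1, hP1r, q, hq, h1⟩ := h.pow_dvd hr hP hQ hQ1
  refine ⟨multiplicity g Q, Q1, hQ1, hnd, P1.eval w, h.eval_mem hP1, ?_, q, hq, h1⟩
  refine le_antisymm (hP1r.eval h.w1.le).1 (not_lt.1 fun hlt => ?_)
  exact hnd ((h.norm_eval_iff hP1r).1 hlt)

/-- The order of `P(w)` modulo `QH c'`. -/
theorem St.pow_iff (hr : 0 < r) (hA : AmbX p r S) (h : St S c c' F e β w g G T) {P : W[X]}
    {Q : F[X]} (hP : ∀ j, P.coeff j ∈ c.B) (hQ : Rd P Q) (n : ℕ) :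
    (∃ a ∈ HO c', ∃ q ∈ QH c', P.eval w = c'.y ^ n * a + q) ↔ g ^ n ∣ Q := by
  constructor
  · rintro ⟨a, ha, q, hq, h1⟩
    by_cases h0 : Q = 0
    · rw [h0]; exact dvd_zero _
    obtain ⟨k, Q1, hQ1, hnd, v, hv, hv1, q', hq', h2⟩ := h.lead_poly hr hP hQ h0
    by_cases hkn : n ≤ k
    · rw [hQ1]
      exact (pow_dvd_pow g hkn).mul_right Q1
    exfalso
    push Not at hkn
    have hc' := h.gd'
    have hyn : c'.y ^ n = c'.y ^ k * c'.y ^ (n - k) := by rw [← pow_add]; congr 1; omega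
    have hlt : ‖c'.y ^ (n - k) * a‖ < 1 := by
      rw [norm_mul, norm_pow]
      exact mul_lt_one_of_nonneg_of_lt_one_left (pow_nonneg (norm_nonneg _) _)
        (pow_lt_one₀ (norm_nonneg _) hc'.y1 (by omega)) (HO_norm_le hc' ha)
    have hu : v - c'.y ^ (n - k) * a ∈ HO c' :=
      sub_mem hv (mul_mem (pow_mem (y_mem_HO hc') _) ha)
    have hu1 : ‖v - c'.y ^ (n - k) * a‖ = 1 := by
      rw [sub_eq_add_neg, IsUltrametricDist.norm_add_eq_max_of_norm_ne_norm
        (by rw [hv1, norm_neg]; exact hlt.ne'), norm_neg, hv1, max_eq_left hlt.le]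
    have h3 : c'.y ^ k * (v - c'.y ^ (n - k) * a) = q + -q' := by
      rw [hyn] at h1
      linear_combination h1 - h2
    have h4 : c'.y ^ k * (v - c'.y ^ (n - k) * a) ∈ QH c' := by
      rw [h3]
      exact QH_add hc' hq (QH_neg hc' hq')
    have hne : v - c'.y ^ (n - k) * a ≠ 0 := by
      intro h5
      rw [h5, norm_zero] at hu1
      exact zero_ne_one hu1
    have h5 := QH_mul hc' h4 (inv_mem_HO hc' hu hu1)
    rw [mul_assoc, mul_inv_cancel₀ hne, mul_one] at h5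
    exact y_pow_not_QH hr hA hc' k h5
  · rintro ⟨Q1, hQ1⟩
    obtain ⟨P1, hP1, hP1r, q, hq, h1⟩ := h.pow_dvd hr hP hQ hQ1
    exact ⟨P1.eval w, h.eval_mem hP1, q, hq, h1⟩

/-- Elements of the ring generated by `c.B`, `x'`, `w` modulo `QH c'`. -/
theorem St.mod_poly (hr : 0 < r) (h : St S c c' F e β w g G T) {z : W}
    (hz : z ∈ Subring.closure ((c.B : Set W) ∪ (Set.range c'.x ∪ {w}))) :
    ∃ P : W[X], (∀ j, P.coeff j ∈ c.B) ∧ z - P.eval w ∈ QH c' := by
  have hc' := h.gd'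
  have hcl : Subring.closure ((c.B : Set W) ∪ (Set.range c'.x ∪ {w})) ≤ HO c' := by
    rw [Subring.closure_le]
    rintro v (hv | ⟨i, rfl⟩ | hv)
    · exact B_mem_HO hc' (h.B_le hv)
    · exact x_mem_HO hc' i
    · rw [Set.mem_singleton_iff.1 hv]
      exact h.w_mem_HO
  induction hz using Subring.closure_induction with
  | mem z hz =>
    rcases hz with hz | ⟨i, rfl⟩ | hz
    · refine ⟨C z, pB_C hz, ?_⟩
      rw [eval_C, sub_self]
      exact QH_zero hc' hr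
    · refine ⟨0, fun j => by rw [coeff_zero]; exact zero_mem _, ?_⟩
      rw [eval_zero, sub_zero]
      have h1 := MoH.of_mon hc' (Pi.single i 1)
      rw [mon_single] at h1
      exact h1.mem_QH hc' (hc'.ind.lt i)
    · refine ⟨X, pB_X, ?_⟩
      rw [eval_X, Set.mem_singleton_iff.1 hz, sub_self]
      exact QH_zero hc' hr
  | zero =>
    refine ⟨0, fun j => by rw [coeff_zero]; exact zero_mem _, ?_⟩
    rw [eval_zero, sub_zero]
    exact QH_zero hc' hr
  | one =>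
    refine ⟨1, pB_one, ?_⟩
    rw [eval_one, sub_self]
    exact QH_zero hc' hr
  | add a b _ _ ha hb =>
    obtain ⟨P, hP, h1⟩ := ha
    obtain ⟨P', hP', h1'⟩ := hb
    refine ⟨P + P', pB_add hP hP', ?_⟩
    rw [eval_add, add_sub_add_comm]
    exact QH_add hc' h1 h1'
  | neg a _ ha =>
    obtain ⟨P, hP, h1⟩ := ha
    refine ⟨-P, pB_neg hP, ?_⟩
    have h2 : -a - (-P).eval w = -(a - P.eval w) := by rw [eval_neg]; ring
    rw [h2]
    exact QH_neg hc' h1
  | mul a b ha' _ ha hb =>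
    obtain ⟨P, hP, h1⟩ := ha
    obtain ⟨P', hP', h1'⟩ := hb
    refine ⟨P * P', pB_mul hP hP', ?_⟩
    have h2 : a * b - (P * P').eval w = (b - P'.eval w) * a + (a - P.eval w) * P'.eval w := by
      rw [eval_mul]; ring
    rw [h2]
    exact QH_add hc' (QH_mul hc' h1' (hcl ha')) (QH_mul hc' h1 (h.eval_mem hP'))

/-- Elements of `c'.B` modulo `QH c'`. -/
theorem St.mod_frac (hr : 0 < r) (h : St S c c' F e β w g G T) {z : W} (hz : z ∈ c'.B) :
    ∃ N D : W[X], (∀ j, N.coeff j ∈ c.B) ∧ (∀ j, D.coeff j ∈ c.B) ∧ ‖D.eval w‖ = 1 ∧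
      z * D.eval w - N.eval w ∈ QH c' := by
  have hc' := h.gd'
  have hzHO := B_mem_HO hc' hz
  rw [h.hB] at hz
  obtain ⟨a, ha, b, hb, hb1, hab⟩ := hz
  rw [ball_val_eq_one] at hb1
  obtain ⟨N, hN, h1⟩ := h.mod_poly hr ha
  obtain ⟨D, hD, h2⟩ := h.mod_poly hr hb
  refine ⟨N, D, hN, hD, ?_, ?_⟩
  · exact JI_norm_eq_one hb1 (QH_norm hc' h2)
  · have h3 : z * D.eval w - N.eval w = (a - N.eval w) + -((b - D.eval w) * z) := by
      rw [← hab]; ring
    rw [h3]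
    exact QH_add hc' h1 (QH_neg hc' (QH_mul hc' h2 hzHO))

/-- Elements of `HO c'` modulo `y'^n HO c' + QH c'` are fractions of values of polynomials. -/
theorem St.mod_fracN (hr : 0 < r) (h : St S c c' F e β w g G T) {z : W} (hz : z ∈ HO c')
    (n : ℕ) : ∃ N D : W[X], (∀ j, N.coeff j ∈ c.B) ∧ (∀ j, D.coeff j ∈ c.B) ∧ ‖D.eval w‖ = 1 ∧
      ∃ a ∈ HO c', ∃ q ∈ QH c', z * D.eval w = N.eval w + c'.y ^ n * a + q := by
  have hc' := h.gd'
  have step : ∀ z ∈ HO c', ∃ N D : W[X], (∀ j, N.coeff j ∈ c.B) ∧ (∀ j, D.coeff j ∈ c.B) ∧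
      ‖D.eval w‖ = 1 ∧ ∃ a ∈ HO c', ∃ q ∈ QH c', z * D.eval w = N.eval w + c'.y * a + q := by
    intro z hz
    obtain ⟨e1, he1, q, hq, b, hb, rfl⟩ := HO_dec hr hc' hz
    obtain ⟨N, D, hN, hD, hD1, h1⟩ := h.mod_frac hr he1
    have hDm := h.eval_mem hD
    refine ⟨N, D, hN, hD, hD1, b * D.eval w, mul_mem hb hDm,
      (e1 * D.eval w - N.eval w) + q * D.eval w, QH_add hc' h1 (QH_mul hc' hq hDm), ?_⟩
    ring
  induction n with
  | zero =>
    refine ⟨0, 1, fun j => by rw [coeff_zero]; exact zero_mem _, pB_one, ?_, z, hz, 0,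
      QH_zero hc' hr, ?_⟩
    · rw [eval_one, norm_one]
    · rw [eval_one, eval_zero]; ring
  | succ n ih =>
    obtain ⟨N, D, hN, hD, hD1, a, ha, q, hq, h1⟩ := ih
    obtain ⟨N', D', hN', hD', hD1', a', ha', q', hq', h1'⟩ := step a ha
    refine ⟨N * D' + G ^ n * N', D * D', pB_add (pB_mul hN hD') (pB_mul (pB_pow h.Gc n) hN'),
      pB_mul hD hD', ?_, a', ha', c'.y ^ n * q' + q * D'.eval w, ?_, ?_⟩
    · rw [eval_mul, norm_mul, hD1, hD1', one_mul]
    · refine QH_add hc' ?_ (QH_mul hc' hq (h.eval_mem hD'))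
      rw [mul_comm]
      exact QH_mul hc' hq' (pow_mem (y_mem_HO hc') _)
    · rw [eval_mul, eval_add, eval_mul, eval_mul, eval_pow, ← h.hy, ← mul_assoc, h1]
      linear_combination c'.y ^ n * h1'

/-- The residue field does not change if `g` has degree one. -/
theorem St.kap_eq (hr : 0 < r) (h : St S c c' F e β w g G T) (hg : g.natDegree = 1) :
    kap c'.B = F := by
  have hw : rs w ∈ F := by
    have h1 := h.gw
    rw [h.gm.eq_X_add_C hg, map_add, aeval_X, aeval_C] at h1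
    have h2 : rs w = -((g.coeff 0 : F) : RW W) := eq_neg_of_add_eq_zero_left h1
    rw [h2]
    exact neg_mem (g.coeff 0).2
  have hev : ∀ Q : F[X], aeval (rs w) Q ∈ F := by
    intro Q
    rw [aeval_eq_sum_range]
    exact sum_mem fun j _ => mul_mem (Q.coeff j).2 (pow_mem hw _)
  apply le_antisymm
  · intro a ha
    obtain ⟨z, hz, rfl⟩ := (h.gd'.mem_kap_iff a).1 ha
    obtain ⟨N, D, hN, hD, hD1, h1⟩ := h.mod_frac hr hz
    obtain ⟨QN, hQN⟩ := exists_red (fun _ h1 => h.gd.norm_le h1) h.hF hN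
    obtain ⟨QD, hQD⟩ := exists_red (fun _ h1 => h.gd.norm_le h1) h.hF hD
    obtain ⟨h2, h3⟩ := hQN.eval h.w1.le
    obtain ⟨h4, h5⟩ := hQD.eval h.w1.le
    have hz1 := h.gd'.norm_le hz
    have h6 : rs (z * D.eval w) = rs (N.eval w) := by
      rw [rs_eq_iff _ h2]
      · exact QH_norm h.gd' h1
      · rw [norm_mul]
        exact mul_le_one₀ hz1 (norm_nonneg _) h4
    rw [rs_mul hz1 h4, h3, h5] at h6
    have h7 : aeval (rs w) QD ≠ 0 := by
      rw [← h5, rs_ne_zero_iff h4]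
      exact hD1
    have h8 : rs z = aeval (rs w) QN / aeval (rs w) QD := by
      rw [eq_div_iff h7, h6]
    rw [h8]
    exact div_mem (hev _) (hev _)
  · rw [← h.hF]
    exact kap_mono h.B_le

end Pool.Agent.Lib.MXP
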