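import Pool.Agent.Lib.MXP.QHCst
import Pool.Agent.Lib.MXP.StPw
import Pool.Agent.Lib.TQ.StgM
import Pool.Agent.Lib.TQ.StgG
import Pool.Agent.Lib.TQ.CpC
import Pool.Agent.Lib.TQ.CpH

/-!
# Module QStg: one stage, for a local ring `A` with the completion of a model
-/

namespace Pool.Agent.Lib.MXP

open Pool.Agent.Lib.MP_3029eb_ag Pool.Agent.Lib.MP_3029eb_ag.Abh Pool.Agent.Lib.TDO
open Pool.Agent.Lib.TU (Mt exists_Mt)
open Pool.Agent.Lib.TQ

/-! ### units congruent to one -/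

/-- the elements `1 + P * t` -/
private def qsgU {W : Type} [NormedField W] (D : Subring W) (P z : W) : Prop :=
  ∃ t ∈ D, z = 1 + P * t

section
variable {W : Type} [NormedField W] {D : Subring W} {P : W}

private theorem qsgU_one : qsgU D P 1 := ⟨0, zero_mem _, by ring⟩

private theorem qsgU_mul (hP : P ∈ D) {z z' : W} (h : qsgU D P z) (h' : qsgU D P z') :
    qsgU D P (z * z') := by
  obtain ⟨t, ht, rfl⟩ := h
  obtain ⟨t', ht', rfl⟩ := h'
  exact ⟨t + t' + P * t * t', add_mem (add_mem ht ht') (mul_mem (mul_mem hP ht) ht'), by ring⟩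

private theorem qsgU_mem (hP : P ∈ D) {z : W} (h : qsgU D P z) : z ∈ D := by
  obtain ⟨t, ht, rfl⟩ := h
  exact add_mem (one_mem _) (mul_mem hP ht)

variable [IsUltrametricDist W] {X : Subfield W}

private theorem qsgU_norm (hD : Nl X D) (hP1 : ‖P‖ < 1) {z : W} (h : qsgU D P z) : ‖z‖ = 1 := by
  obtain ⟨t, ht, rfl⟩ := h
  have h1 : ‖P * t‖ < ‖(1 : W)‖ := by
    rw [norm_one, norm_mul]
    exact lt_of_le_of_lt (mul_le_of_le_one_right (norm_nonneg _) (hD.one t ht)) hP1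
  rw [IsUltrametricDist.norm_add_eq_max_of_norm_ne_norm h1.ne', max_eq_left h1.le, norm_one]

private theorem qsgU_inv (hD : Nl X D) (hP : P ∈ D) (hP1 : ‖P‖ < 1) {z : W} (h : qsgU D P z) :
    qsgU D P z⁻¹ := by
  have h1 := qsgU_norm hD hP1 h
  have h0 : z ≠ 0 := norm_pos_iff.1 (by rw [h1]; exact one_pos)
  have hinv : z⁻¹ ∈ D := hD.inv z (qsgU_mem hP h) h1
  obtain ⟨t, ht, hz⟩ := h
  refine ⟨-(t * z⁻¹), neg_mem (mul_mem ht hinv), ?_⟩
  have h2 : z * z⁻¹ = 1 := mul_inv_cancel₀ h0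
  have h3 : (1 + P * t) * z⁻¹ = 1 := by rw [← hz]; exact h2
  linear_combination h3

private theorem qsgU_zpow (hD : Nl X D) (hP : P ∈ D) (hP1 : ‖P‖ < 1) {z : W} (h : qsgU D P z)
    (n : ℤ) : qsgU D P (z ^ n) := by
  have h1 : ∀ (n : ℕ) {z : W}, qsgU D P z → qsgU D P (z ^ n) := by
    intro n z hz
    induction n with
    | zero => rw [pow_zero]; exact qsgU_one
    | succ n ih => rw [pow_succ]; exact qsgU_mul hP ih hz
  obtain ⟨n, rfl | rfl⟩ := n.eq_nat_or_neg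
  · rw [zpow_natCast]; exact h1 n h
  · rw [zpow_neg, zpow_natCast]; exact qsgU_inv hD hP hP1 (h1 n h)

private theorem qsgU_mon (hD : Nl X D) (hP : P ∈ D) (hP1 : ‖P‖ < 1) {r : ℕ} {q : Fin r → W}
    (h : ∀ i, qsgU D P (q i)) (a : Fin r → ℤ) : qsgU D P (mon q a) := by
  unfold mon
  exact Finset.prod_induction _ (fun z => qsgU D P z) (fun _ _ => qsgU_mul hP) qsgU_one
    fun i _ => qsgU_zpow hD hP hP1 (h i) _

private theorem qsg_mon_mul {W : Type} [Field W] {r : ℕ} (x y : Fin r → W) (a : Fin r → ℤ) :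
    mon (fun i => x i * y i) a = mon x a * mon y a := by
  unfold mon
  rw [← Finset.prod_mul_distrib]
  exact Finset.prod_congr rfl fun i _ => mul_zpow _ _ _

private theorem qsg_monN {W : Type} [Field W] {r : ℕ} (x : Fin r → W) (β : Fin r → ℕ) :
    monN x β = mon x (fun i => (β i : ℤ)) := by
  unfold monN mon
  exact Finset.prod_congr rfl fun i _ => (zpow_natCast _ _).symm

private theorem qsg_monN_pos {W : Type} [Field W] {r : ℕ} (x : Fin r → W) (β : Fin r → ℕ)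
    (h : ∀ i, 1 ≤ β i) : monN x β = (∏ i, x i) * monN x (fun i => β i - 1) := by
  unfold monN
  rw [← Finset.prod_mul_distrib]
  refine Finset.prod_congr rfl fun i _ => ?_
  rw [← pow_succ', Nat.sub_add_cancel (h i)]

end

/-! ### Nakayama -/

private theorem qsg_nak {W : Type} [NormedField W] [IsUltrametricDist W] {X : Subfield W}
    {D : Subring W} (hD : Nl X D) {n : ℕ} (x x1 : Fin n → W)
    (hx : ∀ z ∈ D, ‖z‖ < 1 → z ∈ Submodule.span D (Set.range x))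
    (h : ∀ i, x i - x1 i ∈ mP D 2) :
    ∀ z ∈ D, ‖z‖ < 1 → z ∈ Submodule.span D (Set.range x1) := by
  have := hD.isLocal
  have h1 : Submodule.span D (Set.range x) ≤ Submodule.span D (Set.range x1) := by
    refine Submodule.le_of_le_smul_of_le_jacobson_bot (I := mI D) ?_ ?_ ?_
    · exact Submodule.fg_span (Set.finite_range x)
    · rw [hD.mI_eq]; exact IsLocalRing.maximalIdeal_le_jacobson _
    · rw [Submodule.span_le]
      rintro _ ⟨i, rfl⟩
      have h2 : x i = x1 i + (x i - x1 i) := by ring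
      rw [SetLike.mem_coe, h2]
      refine add_mem (Submodule.mem_sup_left (Submodule.subset_span ⟨i, rfl⟩))
        (Submodule.mem_sup_right ?_)
      obtain ⟨t, ht, ht'⟩ := h i
      rw [← ht']
      rw [pow_two] at ht
      refine Submodule.mul_induction_on ht ?_ ?_
      · intro a ha b hb
        have h3 : ((a * b : D) : W) = a • (b : W) := rfl
        rw [h3]
        exact Submodule.smul_mem_smul ha (hx b b.2 ((hD.mem_mI b).1 hb))
      · intro a b ha hb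
        have h3 : ((a + b : D) : W) = (a : W) + (b : W) := rfl
        rw [h3]
        exact add_mem ha hb
  exact fun z hz hz1 => h1 (hx z hz hz1)

/-! ### polynomials -/

private theorem qsg_eval {W : Type} [NormedField W] {D : Subring W} (I : Submodule D W)
    (F1 F2 : Polynomial W) (h1 : ∀ j, F1.coeff j ∈ D) (h2 : ∀ j, F2.coeff j ∈ D)
    (h : ∀ j, F1.coeff j - F2.coeff j ∈ I) {a b : W} (ha : a ∈ D) (hb : b ∈ D)
    (hab : a - b ∈ I) : F1.eval a - F2.eval b ∈ I := by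
  have hpow : ∀ i : ℕ, a ^ i - b ^ i ∈ I := by
    intro i
    induction i with
    | zero => rw [pow_zero, pow_zero, sub_self]; exact zero_mem _
    | succ i ih =>
      have h3 : a ^ (i + 1) - b ^ (i + 1) = a * (a ^ i - b ^ i) + b ^ i * (a - b) := by ring
      rw [h3]
      exact add_mem (I.smul_mem (⟨a, ha⟩ : D) ih) (I.smul_mem (⟨b ^ i, pow_mem hb i⟩ : D) hab)
  have e1 : F1.natDegree < max F1.natDegree F2.natDegree + 1 :=
    Nat.lt_succ_of_le (le_max_left _ _)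
  have e2 : F2.natDegree < max F1.natDegree F2.natDegree + 1 :=
    Nat.lt_succ_of_le (le_max_right _ _)
  rw [Polynomial.eval_eq_sum_range' e1, Polynomial.eval_eq_sum_range' e2,
    ← Finset.sum_sub_distrib]
  refine sum_mem fun i _ => ?_
  have h3 : F1.coeff i * a ^ i - F2.coeff i * b ^ i =
      a ^ i * (F1.coeff i - F2.coeff i) + F2.coeff i * (a ^ i - b ^ i) := by ring
  rw [h3]
  exact add_mem (I.smul_mem (⟨a ^ i, pow_mem ha i⟩ : D) (h i))
    (I.smul_mem (⟨F2.coeff i, h2 i⟩ : D) (hpow i))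

/-- the elements of norm less than one -/
private def qsgB {W : Type} [NormedField W] [IsUltrametricDist W] (D : Subring W)
    (hD : ∀ z ∈ D, ‖z‖ ≤ 1) : Submodule D W where
  carrier := {z | ‖z‖ < 1}
  add_mem' := fun {a b} ha hb => lt_of_le_of_lt (IsUltrametricDist.norm_add_le_max a b) (max_lt ha hb)
  zero_mem' := by
    change ‖(0 : W)‖ < 1
    rw [norm_zero]
    exact one_pos
  smul_mem' := fun a z hz => by
    change ‖(a : W) * z‖ < 1
    rw [norm_mul]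
    exact lt_of_le_of_lt (mul_le_of_le_one_left (norm_nonneg _) (hD a a.2)) hz

private theorem qsg_poly {R : Type} [CommRing R] (f : ℕ → R) (n : ℕ) :
    ∃ F : Polynomial R, ∀ j, F.coeff j = if j < n then f j else 0 := by
  refine ⟨∑ i ∈ Finset.range n, Polynomial.monomial i (f i), fun j => ?_⟩
  rw [Polynomial.finsetSum_coeff]
  simp only [Polynomial.coeff_monomial]
  rw [Finset.sum_ite_eq' (Finset.range n) j]
  simp only [Finset.mem_range]

private theorem qsg_monic {R : Type} [CommRing R] [Nontrivial R] (f : ℕ → R) (n : ℕ)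
    (hn : f n = 1) : ∃ F : Polynomial R, F.Monic ∧ F.natDegree = n ∧
      ∀ j, F.coeff j = if j < n + 1 then f j else 0 := by
  obtain ⟨F, hF⟩ := qsg_poly f (n + 1)
  have h1 : F.coeff n = 1 := by rw [hF, if_pos (Nat.lt_succ_self n), hn]
  have h2 : F.natDegree = n := by
    refine Polynomial.natDegree_eq_of_le_of_coeff_ne_zero ?_ (by rw [h1]; exact one_ne_zero)
    rw [Polynomial.natDegree_le_iff_coeff_eq_zero]
    intro N hN
    rw [hF, if_neg (by omega)]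
  exact ⟨F, by rw [Polynomial.Monic, Polynomial.leadingCoeff, h2, h1], h2, hF⟩

/-! ### residues -/

private theorem qsg_locV_le {W : Type} [NormedField W] [IsUltrametricDist W] {s : Set W}
    (E : Subring W) (hs : ∀ z ∈ s, z ∈ E) (hinv : ∀ z ∈ E, ‖z‖ = 1 → z⁻¹ ∈ E) {z : W}
    (hz : z ∈ locV (ball W) (Subring.closure s)) : z ∈ E := by
  obtain ⟨a, ha, b, hb, hb1, hab⟩ := hz
  have hs' : Subring.closure s ≤ E := Subring.closure_le.2 hs
  have h1 : ‖b‖ = 1 := (ball_val_eq_one b).1 hb1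
  have hb0 : b ≠ 0 := norm_pos_iff.1 (by rw [h1]; exact one_pos)
  have h2 : z = a * b⁻¹ := by rw [← hab, mul_inv_cancel_right₀ hb0]
  rw [h2]
  exact mul_mem (hs' ha) (hinv b (hs' hb) h1)

/-- the elements which are congruent to elements of `A'` -/
private def qsgE {W : Type} [NormedField W] [IsUltrametricDist W] (A' : Subring W)
    (hA : ∀ z ∈ A', ‖z‖ ≤ 1) : Subring W where
  carrier := {z | ‖z‖ ≤ 1 ∧ ∃ b ∈ A', ‖z - b‖ < 1}
  mul_mem' := by
    rintro z w ⟨hz, b, hb, hzb⟩ ⟨hw, d, hd, hwd⟩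
    refine ⟨by rw [norm_mul]; exact mul_le_one₀ hz (norm_nonneg _) hw, b * d, mul_mem hb hd, ?_⟩
    have h1 : z * w - b * d = z * (w - d) + d * (z - b) := by ring
    rw [h1]
    refine lt_of_le_of_lt (IsUltrametricDist.norm_add_le_max _ _) (max_lt ?_ ?_)
    · rw [norm_mul]
      exact lt_of_le_of_lt (mul_le_of_le_one_left (norm_nonneg _) hz) hwd
    · rw [norm_mul]
      exact lt_of_le_of_lt (mul_le_of_le_one_left (norm_nonneg _) (hA d hd)) hzb
  one_mem' := ⟨norm_one.le, 1, one_mem _, by rw [sub_self, norm_zero]; exact one_pos⟩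
  add_mem' := by
    rintro z w ⟨hz, b, hb, hzb⟩ ⟨hw, d, hd, hwd⟩
    refine ⟨(IsUltrametricDist.norm_add_le_max _ _).trans (max_le hz hw), b + d, add_mem hb hd, ?_⟩
    rw [add_sub_add_comm]
    exact lt_of_le_of_lt (IsUltrametricDist.norm_add_le_max _ _) (max_lt hzb hwd)
  zero_mem' := ⟨by rw [norm_zero]; exact zero_le_one, 0, zero_mem _,
    by rw [sub_self, norm_zero]; exact one_pos⟩
  neg_mem' := by
    rintro z ⟨hz, b, hb, hzb⟩
    refine ⟨by rw [norm_neg]; exact hz, -b, neg_mem hb, ?_⟩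
    have h1 : -z - -b = -(z - b) := by ring
    rw [h1, norm_neg]
    exact hzb

private theorem qsgE_inv {W : Type} [NormedField W] [IsUltrametricDist W] {A' : Subring W}
    (hA : ∀ z ∈ A', ‖z‖ ≤ 1) (hinv : ∀ z ∈ A', ‖z‖ = 1 → z⁻¹ ∈ A') {z : W}
    (hz : z ∈ qsgE A' hA) (h1 : ‖z‖ = 1) : z⁻¹ ∈ qsgE A' hA := by
  obtain ⟨-, b, hb, hzb⟩ := hz
  have hb1 : ‖b‖ = 1 := by
    have h2 : b = z + -(z - b) := by ring
    have h3 : ‖-(z - b)‖ < ‖z‖ := by rw [norm_neg, h1]; exact hzb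
    rw [h2, IsUltrametricDist.norm_add_eq_max_of_norm_ne_norm h3.ne', max_eq_left h3.le, h1]
  have hz0 : z ≠ 0 := norm_pos_iff.1 (by rw [h1]; exact one_pos)
  have hb0 : b ≠ 0 := norm_pos_iff.1 (by rw [hb1]; exact one_pos)
  refine ⟨by rw [norm_inv, h1, inv_one], b⁻¹, hinv b hb hb1, ?_⟩
  have h2 : z⁻¹ - b⁻¹ = (z⁻¹ * b⁻¹) * (-(z - b)) := by
    field_simp
    ring
  rw [h2, norm_mul, norm_mul, norm_inv, norm_inv, h1, hb1, norm_neg]
  simpa using hzb

/-! ### models -/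

section
variable {E W : Type} [Field E] [NormedField W] [IsUltrametricDist W] [Algebra E W] {r p : ℕ}
  {S L : IntermediateField E W} {c c' : Tri W r}

private theorem qsg_res (hC : CtX p S L c) {x' : Fin r → W} (hM : Mx S c x') {z : W}
    (hz : z ∈ Cp (Bx c.B x')) : ∃ e ∈ c.B, ‖z - e‖ < 1 := by
  obtain ⟨e, he, q, hq, b, hb, h2⟩ := HC_dec hC ((mem_HC_iff hC z).2 ⟨x', hM, hz⟩)
  refine ⟨e, he, ?_⟩
  have h3 : z - e = q + b * c.y := by rw [h2]; ring
  rw [h3]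
  refine lt_of_le_of_lt (IsUltrametricDist.norm_add_le_max _ _) (max_lt (QC_norm hC hq) ?_)
  rw [norm_mul]
  exact lt_of_le_of_lt (mul_le_of_le_one_left (norm_nonneg _) (HC_norm_le hC hb)) hC.gd.y1

private theorem qsg_cons (hC : CtX p S L c) {x' : Fin r → W} (hM : Mx S c x')
    (l : Fin (r + 1)) :
    (Fin.cons c.y x' : Fin (r + 1) → W) l ∈ Cp (Bx c.B x') ∧
      ‖(Fin.cons c.y x' : Fin (r + 1) → W) l‖ < 1 := by
  have hx' : Indep x' := hM.1.ind
  refine Fin.cases ?_ (fun i => ?_) l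
  · rw [Fin.cons_zero]
    exact ⟨le_Cp hM.2.yB, hC.gd.y1⟩
  · rw [Fin.cons_succ]
    exact ⟨le_Cp (x_mem_Bx i), hx'.lt i⟩

private theorem qsg_gen (hC : CtX p S L c) {x' : Fin r → W} (hM : Mx S c x') :
    ∀ z ∈ Cp (Bx c.B x'), ‖z‖ < 1 → z ∈ Submodule.span (Cp (Bx c.B x'))
      (Set.range (Fin.cons c.y x' : Fin (r + 1) → W)) := by
  intro v hv hv1
  refine Submodule.span_le.2 ?_ (Cp_max (hM.nl hC) hv hv1)
  rintro u ⟨hu, hu1⟩
  obtain ⟨d, d0, hd, hd0, rfl⟩ := hM.gen hu hu1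
  refine add_mem (sum_mem fun i _ => ?_) ?_
  · have h1 : x' i ∈ Submodule.span (Cp (Bx c.B x'))
        (Set.range (Fin.cons c.y x' : Fin (r + 1) → W)) :=
      Submodule.subset_span ⟨i.succ, by rw [Fin.cons_succ]⟩
    exact Submodule.smul_mem _ (⟨d i, le_Cp (hd i)⟩ : Cp (Bx c.B x')) h1
  · have h1 : c.y ∈ Submodule.span (Cp (Bx c.B x'))
        (Set.range (Fin.cons c.y x' : Fin (r + 1) → W)) :=
      Submodule.subset_span ⟨0, by rw [Fin.cons_zero]⟩
    exact Submodule.smul_mem _ (⟨d0, le_Cp hd0⟩ : Cp (Bx c.B x')) h1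

private theorem qsg_model (hC : CtX p S L c) (hC' : CtX p S L c') (hBle : c.B ≤ c'.B)
    (hle : ∀ z ∈ HO c, z ∈ HO c') {x' : Fin r → W}
    (hM : Mx S c x') (ZO : Finset W) (hZO : ∀ z ∈ ZO, z ∈ HO c')
    (Z : Finset W) (hZ : ∀ z ∈ Z, z ∈ HC S c') (Y : Finset (Fin r → ℤ))
    (hY : ∀ a ∈ Y, ‖mon c'.x a‖ ≤ 1) :
    ∃ (x'' : Fin r → W), Mx S c' x'' ∧ Bx c.B x' ≤ Bx c'.B x'' ∧
      (∀ z ∈ ZO, z ∈ Bx c'.B x'') ∧ (∀ z ∈ Z, z ∈ Cp (Bx c'.B x'')) ∧
      ∀ a ∈ Y, ∃ β : Fin r → ℕ, mon c'.x a = monN x'' β ∧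
        (‖mon c'.x a‖ < 1 → ∀ i, 1 ≤ β i) := by
  classical
  obtain ⟨x'', hM'', h1, h2, h3⟩ := exists_modelC hC'
    (ZO ∪ Finset.univ.image x')
    (by
      intro z hz
      rcases Finset.mem_union.1 hz with hz | hz
      · exact hZO z hz
      obtain ⟨i, -, rfl⟩ := Finset.mem_image.1 hz
      exact hle _ (hM.mem_HO hC (x_mem_Bx i))) Z hZ Y hY
  refine ⟨x'', hM'', fun z hz => ?_, fun z hz => h1 z (Finset.mem_union_left _ hz), h2, h3⟩
  refine Bx_le (Bx c'.B x'') (fun w hw => le_Bx (hBle hw)) (fun i => ?_)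
    (fun w hw h => inv_mem_Bx hw h) hz
  exact h1 _ (Finset.mem_union_right _ (Finset.mem_image_of_mem _ (Finset.mem_univ i)))

/-- the parameters of the first model are monomial for `c'` -/
private theorem qsg_cons_moC (hC : CtX p S L c) (hst : StR S c c')
    {x' : Fin r → W} (hM : Mx S c x') (l : Fin (r + 1)) :
    MoC S c' ((Fin.cons c.y x' : Fin (r + 1) → W) l) := by
  have hC' := hC.rfS (Relation.ReflTransGen.single hst)
  refine Fin.cases ?_ (fun i => ?_) l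
  · rw [Fin.cons_zero]
    exact MoC.of_MoH hC' hst.y_moH
  · rw [Fin.cons_succ]
    obtain ⟨a, ha⟩ := TU.Mt.mon_eq' hC.gd.ind hM.1 (Pi.single i 1)
    rw [mon_single] at ha
    rw [ha]
    exact MoC.of_MoH hC' (hst.moH (MoH.of_mon hC.gd a))

private theorem qsg_xi (hC : CtX p S L c) (hst : StR S c c')
    (A : Subring W) (hAN : Nl L.toSubfield A) {x' : Fin r → W}
    (hsyn : Syn S c A x') :
    ∃ (ξ q : Fin (r + 1) → W), (∀ l, ξ l ∈ A) ∧ (∀ l, q l ∈ QC S c') ∧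
      (∀ l, ξ l = (Fin.cons c.y x' : Fin (r + 1) → W) l * (1 + q l)) ∧
      ∀ z ∈ Cp A, ‖z‖ < 1 → z ∈ Submodule.span (Cp A) (Set.range ξ) := by
  have hC' := hC.rfS (Relation.ReflTransGen.single hst)
  have hM := hsyn.mdl
  have hmo := qsg_cons_moC hC hst hM
  have hne : ∀ l, (Fin.cons c.y x' : Fin (r + 1) → W) l ≠ 0 := fun l => (hmo l).ne hC'
  obtain ⟨l0, hl0⟩ := Finite.exists_min (fun l => ‖(Fin.cons c.y x' : Fin (r + 1) → W) l‖)
  obtain ⟨N, -, hN⟩ := exists_mon_lt hC.r0 hC'.gd.ind _ (norm_pos_iff.2 (hne l0))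
  obtain ⟨n, hn⟩ := mP_tiny hC hst Relation.ReflTransGen.refl hM N
  have h1 : ∀ l, ∃ b ∈ A, (Fin.cons c.y x' : Fin (r + 1) → W) l - b ∈ mP (Cp A) (max n 2) := by
    intro l
    refine Cp_dens hAN ?_ _
    rw [hsyn.eq]
    exact (qsg_cons hC hM l).1
  choose ξ hξA hξ using h1
  have h2 : ∀ l, ∃ h ∈ HC S c', (Fin.cons c.y x' : Fin (r + 1) → W) l - ξ l =
      mon c'.x N * h := by
    intro l
    refine hn _ ?_
    rw [← hsyn.eq]
    exact mP_anti (le_max_left _ _) (hξ l)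
  choose h hh hξh using h2
  refine ⟨ξ, fun l => (mon c'.x N * ((Fin.cons c.y x' : Fin (r + 1) → W) l)⁻¹) * (-h l), hξA,
    fun l => ?_, fun l => ?_, ?_⟩
  · refine QC_mul ?_ (neg_mem (hh l))
    refine MoC.mem_QC hC' (MoC.mul hC' (MoC.of_mon hC' N)
      ((hmo l).inv hC')) ?_
    rw [norm_mul, norm_inv, ← div_eq_mul_inv, div_lt_one (norm_pos_iff.2 (hne l))]
    exact lt_of_lt_of_le hN (hl0 l)
  · have h3 := hne l
    have h4 := hξh l
    have h5 : ξ l = (Fin.cons c.y x' : Fin (r + 1) → W) l - mon c'.x N * h l := by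
      rw [← h4]; ring
    have h6 : (Fin.cons c.y x' : Fin (r + 1) → W) l *
        ((Fin.cons c.y x' : Fin (r + 1) → W) l)⁻¹ = 1 := mul_inv_cancel₀ h3
    rw [h5]
    linear_combination (mon c'.x N * h l) * h6
  · refine qsg_nak hAN.cp (Fin.cons c.y x' : Fin (r + 1) → W) ξ ?_ fun l =>
      mP_anti (le_max_right _ _) (hξ l)
    rw [hsyn.eq]
    exact qsg_gen hC hM

/-- numerators and denominators -/
private theorem qsg_frac (A : Subring W) (Q : W → Prop) (hone : Q 1)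
    (hm : ∀ u u', Q u → Q u' → Q (u * u')) (hne : ∀ u, Q u → u ≠ 0) (X : Fin r → W) (Y : W)
    (hX : ∀ l, X l ∈ A ∧ Q (X l)) (hY : Y ∈ A ∧ Q Y) (a : Fin r → ℤ) (j : ℤ) :
    ∃ n ∈ A, ∃ d ∈ A, Q d ∧ mon X a * Y ^ j * d = n := by
  have hmul : ∀ u u' : W, (∃ n ∈ A, ∃ d ∈ A, Q n ∧ Q d ∧ u * d = n) →
      (∃ n ∈ A, ∃ d ∈ A, Q n ∧ Q d ∧ u' * d = n) →
      ∃ n ∈ A, ∃ d ∈ A, Q n ∧ Q d ∧ u * u' * d = n := by
    rintro u u' ⟨n, hn, d, hd, hn1, hd1, rfl⟩ ⟨n', hn', d', hd', hn1', hd1', rfl⟩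
    exact ⟨_, mul_mem hn hn', d * d', mul_mem hd hd', hm _ _ hn1 hn1', hm _ _ hd1 hd1',
      by ring⟩
  have hpow : ∀ (u : W) (n : ℕ), Q u → Q (u ^ n) := by
    intro u n hu
    induction n with
    | zero => rw [pow_zero]; exact hone
    | succ n ih => rw [pow_succ]; exact hm _ _ ih hu
  have hz : ∀ u : W, u ∈ A ∧ Q u → ∀ j : ℤ,
      ∃ n ∈ A, ∃ d ∈ A, Q n ∧ Q d ∧ u ^ j * d = n := by
    rintro u ⟨hu, hu1⟩ j
    obtain ⟨n, rfl | rfl⟩ := j.eq_nat_or_neg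
    · exact ⟨u ^ n, pow_mem hu n, 1, one_mem _, hpow u n hu1, hone, by
        rw [zpow_natCast, mul_one]⟩
    · refine ⟨1, one_mem _, u ^ n, pow_mem hu n, hone, hpow u n hu1, ?_⟩
      rw [zpow_neg, zpow_natCast]
      exact inv_mul_cancel₀ (pow_ne_zero _ (hne u hu1))
  obtain ⟨n, hn, d, hd, -, hd1, hnd⟩ := hmul (mon X a) (Y ^ j) (by
    unfold mon
    refine Finset.prod_induction _ (fun u => ∃ n ∈ A, ∃ d ∈ A, Q n ∧ Q d ∧ u * d = n)
      hmul ?_ fun i _ => hz _ (hX i) _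
    exact ⟨1, one_mem _, 1, one_mem _, hone, hone, mul_one _⟩) (hz Y hY j)
  exact ⟨n, hn, d, hd, hd1, hnd⟩

private theorem qsg_monV_mul {A' : Subring W} {U : Fin r → W} {f f' : W}
    (h : MonV (ball W) A' U f) (h' : MonV (ball W) A' U f') : MonV (ball W) A' U (f * f') := by
  obtain ⟨w, hw, hw1, β, rfl⟩ := h
  obtain ⟨w', hw', hw1', β', rfl⟩ := h'
  refine ⟨w * w', mul_mem hw hw', by rw [map_mul, hw1, hw1', one_mul], β + β', ?_⟩
  have h1 : monN U (β + β') = monN U β * monN U β' := by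
    unfold monN
    rw [← Finset.prod_mul_distrib]
    exact Finset.prod_congr rfl fun i _ => pow_add _ _ _
  rw [h1]
  ring

theorem stage_syn (hC : CtX p S L c) (hst : StR S c c') (A : Subring W)
    (hAN : Nl L.toSubfield A) {x' : Fin r → W} (hsyn : Syn S c A x')
    (ZO : Finset W) (hZO : ∀ z ∈ ZO, z ∈ HO c') (Z : Finset W)
    (hZ : ∀ z ∈ Z, z ∈ HC S c') (Yx : Finset (Fin r → ℤ))
    (hYx : ∀ a ∈ Yx, ‖mon c'.x a‖ ≤ 1) :
    ∃ (g : Finset W) (U : Fin r → W) (y1 : W) (ξ : Fin (r + 1) → W) (x'' : Fin r → W)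
      (A' : Subring W),
      A' = locV (ball W) (Subring.closure ((A : Set W) ∪ (g : Set W))) ∧
      (∀ u ∈ g, ‖u‖ ≤ 1 ∧ ∃ n ∈ A, ∃ d ∈ A, MoC S c' d ∧ MonV (ball W) A' U d ∧
        u * d = n) ∧
      Syn S c' A' x'' ∧ (∀ z ∈ ZO, z ∈ Bx c'.B x'') ∧
      (∀ z ∈ Z, z ∈ Cp (Bx c'.B x'')) ∧
      (∀ a ∈ Yx, ∃ β : Fin r → ℕ, mon c'.x a = monN x'' β ∧ (‖mon c'.x a‖ < 1 → ∀ i, 1 ≤ β i)) ∧
      (∀ i, U i ∈ A' ∧ ∃ u ∈ Cp A', ‖u‖ = 1 ∧ U i = x'' i * u) ∧ y1 ∈ A' ∧ ‖y1‖ < 1 ∧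
      (∀ z ∈ A', ‖z‖ < 1 →
        z ∈ Submodule.span A' ({a : W | a ∈ A ∧ ‖a‖ < 1} ∪ (Set.range U ∪ {y1}))) ∧
      (∀ l, ξ l ∈ A ∧ ‖ξ l‖ < 1) ∧
      (∀ z ∈ Cp A, ‖z‖ < 1 → z ∈ Submodule.span (Cp A) (Set.range ξ)) ∧
      ∀ l, ∃ b ∈ A', ξ l = (∏ i, U i) * b := by
  classical
  obtain ⟨F, e, B, w, g, G, T, h⟩ := id hst
  have hC' := hC.rfS (Relation.ReflTransGen.single hst)
  have hr := hC.r0
  have hM := hsyn.mdl
  obtain ⟨ξ, q, hξA, hq, hξq, hgen⟩ := qsg_xi hC hst A hAN hsyn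
  have hmo := qsg_cons_moC hC hst hM
  have hcons := qsg_cons hC hM
  have hqM : ∀ l, MoC S c' (ξ l) := fun l => by
    rw [hξq]
    exact (MoC.perturb hC' (hmo l) (hq l)).1
  have hqn : ∀ l, ‖ξ l‖ < 1 := fun l => by
    have h0 : ‖(1 : W) + q l‖ ≤ 1 :=
      (IsUltrametricDist.norm_add_le_max _ _).trans
        (max_le norm_one.le (QC_norm hC' (hq l)).le)
    rw [hξq, norm_mul]
    exact lt_of_le_of_lt (mul_le_of_le_one_right (norm_nonneg _) h0) (hcons l).2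
  choose qa hqa qh hqh hqe using hq
  -- the exponents of the parameters
  have hα : ∀ l, ∃ (α : Fin r → ℤ) (ν : ℤ),
      (Fin.cons c.y x' : Fin (r + 1) → W) l = mon c'.x α * w ^ ν := by
    intro l
    refine Fin.cases ?_ (fun i => ?_) l
    · refine ⟨(T (0, 1)).1, (T (0, 1)).2, ?_⟩
      rw [Fin.cons_zero, ← h.hm, TDO.mon_zero, one_mul, zpow_one]
    · obtain ⟨a, ha⟩ := TU.Mt.mon_eq' hC.gd.ind hM.1 (Pi.single i 1)
      rw [mon_single] at ha
      refine ⟨(T (a, 0)).1, (T (a, 0)).2, ?_⟩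
      rw [Fin.cons_succ, ← h.hm, zpow_zero, mul_one, ha]
  choose α ν hαν using hα
  have hαn : ∀ l, ‖mon c'.x (α l)‖ < 1 := by
    intro l
    have h1 := (hcons l).2
    rw [hαν, norm_mul, norm_zpow, h.w1, one_zpow, mul_one] at h1
    exact h1
  obtain ⟨x'', hM'', hBB, h1, h2, h3⟩ := qsg_model hC hC' hst.B_le
    (fun z hz => hst.HO_le hz) hM (ZO ∪ {w}) (by
      intro z hz
      rcases Finset.mem_union.1 hz with hz | hz
      · exact hZO z hz
      · rw [Finset.mem_singleton.1 hz]; exact h.w_mem_HO)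
    (Z ∪ Finset.univ.image qh) (by
      intro z hz
      rcases Finset.mem_union.1 hz with hz | hz
      · exact hZ z hz
      · obtain ⟨l, -, rfl⟩ := Finset.mem_image.1 hz
        exact hqh l)
    (Yx ∪ (Finset.univ.image qa ∪ Finset.univ.image α)) (by
      intro a ha
      rcases Finset.mem_union.1 ha with ha | ha
      · exact hYx a ha
      rcases Finset.mem_union.1 ha with ha | ha
      · obtain ⟨l, -, rfl⟩ := Finset.mem_image.1 ha
        exact (hqa l).le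
      · obtain ⟨l, -, rfl⟩ := Finset.mem_image.1 ha
        exact (hαn l).le)
  have hNB := hM.nl hC
  have hNB' := hM''.nl hC'
  have hD' := hNB'.cp
  have hDD : Cp (Bx c.B x') ≤ Cp (Bx c'.B x'') := Cp_mono hNB hNB' (hBB.trans le_Cp)
  have hx''D : ∀ i, x'' i ∈ Cp (Bx c'.B x'') := fun i =>
    le_Cp (x_mem_Bx i)
  have hx''1 : ∀ i, ‖x'' i‖ < 1 := hM''.1.ind.lt
  obtain ⟨P, hP⟩ : ∃ P : W, P = ∏ i, x'' i := ⟨_, rfl⟩
  have hPD : P ∈ Cp (Bx c'.B x'') := by rw [hP]; exact prod_mem fun i _ => hx''D i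
  have hPf : ∃ t ∈ Cp (Bx c'.B x''), P = t * x'' ⟨0, hr⟩ := by
    refine ⟨∏ i ∈ Finset.univ.erase ⟨0, hr⟩, x'' i, prod_mem fun i _ => hx''D i, ?_⟩
    rw [hP, Finset.prod_erase_mul _ _ (Finset.mem_univ _)]
  have hP1 : ‖P‖ < 1 := by
    obtain ⟨t, ht, h4⟩ := hPf
    rw [h4, norm_mul]
    exact lt_of_le_of_lt (mul_le_of_le_one_left (norm_nonneg _) (hD'.one t ht)) (hx''1 _)
  have hmon : ∀ a ∈ Yx ∪ (Finset.univ.image qa ∪ Finset.univ.image α), ‖mon c'.x a‖ < 1 →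
      ∃ t ∈ Cp (Bx c'.B x''), mon c'.x a = P * t := by
    intro a ha ha1
    obtain ⟨β, hβ, hβ1⟩ := h3 a ha
    refine ⟨monN x'' (fun i => β i - 1), le_Cp (monN_mem_Bx _), ?_⟩
    rw [hβ, hP, qsg_monN_pos x'' β (hβ1 ha1)]
  have hqU : ∀ l, qsgU (Cp (Bx c'.B x'')) P (1 + q l) := by
    intro l
    obtain ⟨t, ht, h4⟩ := hmon (qa l) (Finset.mem_union_right _ (Finset.mem_union_left _
      (Finset.mem_image_of_mem _ (Finset.mem_univ l)))) (hqa l)
    refine ⟨t * qh l, mul_mem ht (h2 _ (Finset.mem_union_right _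
      (Finset.mem_image_of_mem _ (Finset.mem_univ l)))), ?_⟩
    rw [hqe l, h4, mul_assoc]
  have hwD : w ∈ Cp (Bx c'.B x'') :=
    le_Cp (h1 w (Finset.mem_union_right _ (Finset.mem_singleton_self w)))
  have hwz : ∀ n : ℤ, w ^ n ∈ Cp (Bx c'.B x'') := by
    intro n
    obtain ⟨n, rfl | rfl⟩ := n.eq_nat_or_neg
    · rw [zpow_natCast]; exact pow_mem hwD n
    · rw [zpow_neg, zpow_natCast, ← inv_pow]; exact pow_mem (hD'.inv w hwD h.w1) n
  have hξP : ∀ l, ∃ t ∈ Cp (Bx c'.B x''),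
      (Fin.cons c.y x' : Fin (r + 1) → W) l = P * t := by
    intro l
    obtain ⟨t, ht, h4⟩ := hmon (α l) (Finset.mem_union_right _ (Finset.mem_union_right _
      (Finset.mem_image_of_mem _ (Finset.mem_univ l)))) (hαn l)
    exact ⟨t * w ^ ν l, mul_mem ht (hwz _), by rw [hαν, h4, mul_assoc]⟩
  obtain ⟨I, hI⟩ : ∃ I : Submodule (Cp (Bx c'.B x'')) W, I = Submodule.span _ {P} := ⟨_, rfl⟩
  have hIm : ∀ z, (∃ t ∈ Cp (Bx c'.B x''), z = P * t) → z ∈ I := by
    rintro z ⟨t, ht, rfl⟩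
    rw [hI, Submodule.mem_span_singleton]
    exact ⟨⟨t, ht⟩, mul_comm _ _⟩
  have hIm' : ∀ z ∈ I, ∃ t ∈ Cp (Bx c'.B x''), z = P * t := by
    intro z hz
    rw [hI, Submodule.mem_span_singleton] at hz
    obtain ⟨t, ht⟩ := hz
    exact ⟨t, t.2, by rw [← ht]; exact mul_comm _ _⟩
  have hI1 : ∀ z ∈ I, ‖z‖ < 1 := by
    intro z hz
    obtain ⟨t, ht, rfl⟩ := hIm' z hz
    rw [norm_mul]
    exact lt_of_le_of_lt (mul_le_of_le_one_right (norm_nonneg _) (hD'.one t ht)) hP1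
  have hmD : ∀ z ∈ Cp (Bx c.B x'), ‖z‖ < 1 → z ∈ I := by
    intro z hz hz1
    refine Submodule.span_induction (p := fun v _ => v ∈ I) ?_ (zero_mem _)
      (fun _ _ _ _ ha hb => add_mem ha hb) ?_ (qsg_gen hC hM z hz hz1)
    · rintro _ ⟨l, rfl⟩
      exact hIm _ (hξP l)
    · intro a v _ hv
      exact I.smul_mem (⟨a, hDD a.2⟩ : Cp (Bx c'.B x'')) hv
  -- the monomials
  have hy0 : c.y ≠ 0 := by
    have h4 := (hmo 0).ne hC'
    rwa [Fin.cons_zero] at h4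
  obtain ⟨a, j, av, jv, b, n, bY, nY, e1, e2, e3, e4, e5⟩ :=
    stg_mon hC.gd.ind hC'.gd.ind hy0 h.w1 hM.1 hM''.1 T h.hm
  have hξne : ∀ l, ξ l ≠ 0 := fun l => (hqM l).ne hC'
  obtain ⟨e6, e7⟩ := e5 (fun l => ξ l.succ) (ξ 0) (fun l => hξne _) (hξne _)
  obtain ⟨U, hU⟩ : ∃ U : Fin r → W, U = fun i => mon (fun l => ξ l.succ) (a i) * ξ 0 ^ (j i) :=
    ⟨_, rfl⟩
  obtain ⟨v, hv⟩ : ∃ v : W, v = mon (fun l => ξ l.succ) av * ξ 0 ^ jv := ⟨_, rfl⟩
  rw [← hU, ← hv] at e7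
  have e6' : ∀ l : Fin r, ξ l.succ = mon U (b l) * v ^ (n l) := by
    intro l
    rw [hU, hv]
    exact e6 l
  have hξs : ∀ l : Fin r, ξ l.succ = x' l * (1 + q l.succ) := fun l => by
    rw [hξq, Fin.cons_succ]
  have hξ0 : ξ 0 = c.y * (1 + q 0) := by rw [hξq, Fin.cons_zero]
  have key : ∀ (a : Fin r → ℤ) (j : ℤ), ∃ u, qsgU (Cp (Bx c'.B x'')) P u ∧
      mon (fun l => ξ l.succ) a * ξ 0 ^ j = mon x' a * c.y ^ j * u := by
    intro a j
    refine ⟨mon (fun l => 1 + q l.succ) a * (1 + q 0) ^ j,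
      qsgU_mul hPD (qsgU_mon hD' hPD hP1 (fun l => hqU _) a)
        (qsgU_zpow hD' hPD hP1 (hqU 0) j), ?_⟩
    have h4 : (fun l : Fin r => ξ l.succ) = fun l => x' l * (1 + q l.succ) := funext hξs
    rw [h4, qsg_mon_mul, hξ0, mul_zpow]
    ring
  have hU' : ∀ i, ∃ u, qsgU (Cp (Bx c'.B x'')) P u ∧ U i = x'' i * u := by
    intro i
    obtain ⟨u, hu, h4⟩ := key (a i) (j i)
    refine ⟨u, hu, ?_⟩
    rw [hU]
    change mon (fun l => ξ l.succ) (a i) * ξ 0 ^ (j i) = _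
    rw [h4, ← e1]
  obtain ⟨uv, huv, hv'⟩ : ∃ u, qsgU (Cp (Bx c'.B x'')) P u ∧ v = w * u := by
    obtain ⟨u, hu, h4⟩ := key av jv
    exact ⟨u, hu, by rw [hv, h4, ← e2]⟩
  have hpos : ∀ (l : Fin (r + 1)) (bb : Fin r → ℤ) (nn : ℤ),
      (Fin.cons c.y x' : Fin (r + 1) → W) l = mon x'' bb * w ^ nn → ∀ i, 1 ≤ bb i := by
    intro l bb nn h4
    obtain ⟨β, hβ, hβ1⟩ := h3 (α l) (Finset.mem_union_right _ (Finset.mem_union_right _
      (Finset.mem_image_of_mem _ (Finset.mem_univ l))))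
    have h5 : ‖mon x'' bb‖ = ‖mon x'' (fun i => (β i : ℤ))‖ := by
      have h6 : ‖(Fin.cons c.y x' : Fin (r + 1) → W) l‖ = ‖mon x'' bb‖ := by
        rw [h4, norm_mul, norm_zpow, h.w1, one_zpow, mul_one]
      have h7 : ‖(Fin.cons c.y x' : Fin (r + 1) → W) l‖ = ‖mon c'.x (α l)‖ := by
        rw [hαν, norm_mul, norm_zpow, h.w1, one_zpow, mul_one]
      rw [← h6, h7, hβ, qsg_monN]
    have h6 := norm_mon_inj hM''.1.ind h5
    intro i
    rw [h6]
    have h7 := hβ1 (hαn l) i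
    change (1 : ℤ) ≤ (β i : ℤ)
    exact_mod_cast h7
  have hξU : ∀ l, ∃ (bb : Fin r → ℤ) (nn : ℤ), ξ l = mon U bb * v ^ nn ∧ ∀ i, 1 ≤ bb i := by
    intro l
    refine Fin.cases ?_ (fun i => ?_) l
    · exact ⟨bY, nY, e7, hpos 0 bY nY (by rw [Fin.cons_zero]; exact e4)⟩
    · exact ⟨b i, n i, e6' i, hpos i.succ (b i) (n i) (by rw [Fin.cons_succ]; exact e3 i)⟩
  have hvD : v ∈ Cp (Bx c'.B x'') := by rw [hv']; exact mul_mem hwD (qsgU_mem hPD huv)
  have hvn : ‖v‖ = 1 := by rw [hv', norm_mul, h.w1, qsgU_norm hD' hP1 huv, one_mul]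
  have hUD : ∀ i, U i ∈ Cp (Bx c'.B x'') := by
    intro i
    obtain ⟨u, hu, h4⟩ := hU' i
    rw [h4]
    exact mul_mem (hx''D i) (qsgU_mem hPD hu)
  have hUn : ∀ i, ‖U i‖ < 1 := by
    intro i
    obtain ⟨u, hu, h4⟩ := hU' i
    rw [h4, norm_mul, qsgU_norm hD' hP1 hu, mul_one]
    exact hx''1 i
  have hcoe : ((insert v (Finset.univ.image U) : Finset W) : Set W) =
      insert v (Set.range U) := by simp
  have hA'N := hAN.adjoin (insert v (Finset.univ.image U)) (by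
    intro u hu
    rcases Finset.mem_insert.1 hu with rfl | hu
    · exact ⟨hD'.le _ hvD, hvn.le⟩
    · obtain ⟨i, -, rfl⟩ := Finset.mem_image.1 hu
      exact ⟨hD'.le _ (hUD i), (hUn i).le⟩)
  obtain ⟨A', hA'⟩ : ∃ A' : Subring W, A' = locV (ball W) (Subring.closure ((A : Set W) ∪
      ((insert v (Finset.univ.image U) : Finset W) : Set W))) := ⟨_, rfl⟩
  rw [← hA'] at hA'N
  have hsub : ∀ z, z ∈ (A : Set W) ∪ ((insert v (Finset.univ.image U) : Finset W) : Set W) →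
      z ∈ A' := by
    intro z hz
    rw [hA']
    exact ⟨z, Subring.subset_closure hz, 1, one_mem _, map_one _, mul_one _⟩
  have hAA' : A ≤ A' := fun z hz => hsub z (Or.inl hz)
  have hvA' : v ∈ A' := hsub v (Or.inr (by rw [hcoe]; exact Or.inl rfl))
  have hUA' : ∀ i, U i ∈ A' := fun i => hsub _ (Or.inr (by rw [hcoe]; exact Or.inr ⟨i, rfl⟩))
  have hAD : A ≤ Cp (Bx c'.B x'') := by
    intro z hz
    refine hDD ?_
    rw [← hsyn.eq]
    exact le_Cp hz
  have hA'D : A' ≤ Cp (Bx c'.B x'') := by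
    intro z hz
    rw [hA'] at hz
    refine qsg_locV_le _ ?_ hD'.inv hz
    rintro u (hu | hu)
    · exact hAD hu
    · rw [hcoe] at hu
      rcases hu with rfl | ⟨i, rfl⟩
      · exact hvD
      · exact hUD i
  -- the polynomial
  have hC1 : ∀ e ∈ c.B, ‖e‖ ≤ 1 := fun e he => hC.gd.norm_le he
  have hCD : ∀ e ∈ c.B, e ∈ Cp A := by
    intro e he
    rw [hsyn.eq]
    exact le_Cp (le_Bx he)
  have hcg : ∀ e ∈ c.B, ∃ b ∈ A, ‖e - b‖ < 1 := by
    intro e he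
    obtain ⟨b, hb, hb1⟩ := Cp_dens hAN (hCD e he) 1
    exact ⟨b, hb, (hAN.cp.mP_one_iff.1 hb1).2⟩
  have hf : ∀ i : ℕ, ∃ b ∈ A, ‖G.coeff i - b‖ < 1 ∧ (i = G.natDegree → b = 1) := by
    intro i
    by_cases hi : i = G.natDegree
    · refine ⟨1, one_mem _, ?_, fun _ => rfl⟩
      have h4 : G.coeff i = 1 := by rw [hi]; exact h.Gm
      rw [h4, sub_self, norm_zero]
      exact one_pos
    · obtain ⟨b, hb, hb1⟩ := hcg _ (h.Gc i)
      exact ⟨b, hb, hb1, fun h4 => absurd h4 hi⟩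
  choose f hfA hf1 hf2 using hf
  obtain ⟨g', hg'm, hg'd, hg'c⟩ := qsg_monic f G.natDegree (hf2 _ rfl)
  have hg'A : ∀ i, g'.coeff i ∈ A := by
    intro i
    rw [hg'c]
    split_ifs
    · exact hfA i
    · exact zero_mem _
  have hgWD : ∀ i, G.coeff i ∈ Cp (Bx c'.B x'') := by
    intro i
    refine hDD ?_
    rw [← hsyn.eq]
    exact hCD _ (h.Gc i)
  have hgg : ∀ i, g'.coeff i - G.coeff i ∈ I := by
    intro i
    have h4 : ‖g'.coeff i - G.coeff i‖ < 1 := by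
      rw [hg'c]
      split_ifs with h5
      · rw [norm_sub_rev]; exact hf1 i
      · rw [Polynomial.coeff_eq_zero_of_natDegree_lt (by omega), sub_self, norm_zero]
        exact one_pos
    refine hmD _ (sub_mem ?_ ?_) h4
    · rw [← hsyn.eq]; exact le_Cp (hg'A i)
    · rw [← hsyn.eq]; exact hCD _ (h.Gc i)
  have hvw : v - w ∈ I := by
    obtain ⟨t, ht, h4⟩ := huv
    exact hIm _ ⟨w * t, mul_mem hwD ht, by rw [hv', h4]; ring⟩
  have hy1 : g'.eval v - c'.y ∈ I := by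
    rw [h.hy]
    exact qsg_eval I _ _ (fun i => hAD (hg'A i)) hgWD hgg hvD hwD hvw
  have hy1n : ‖g'.eval v‖ < 1 := by
    have h4 : g'.eval v = (g'.eval v - c'.y) + c'.y := by ring
    rw [h4]
    exact lt_of_le_of_lt (IsUltrametricDist.norm_add_le_max _ _)
      (max_lt (hI1 _ hy1) hC'.gd.y1)
  have hgdeg : G.natDegree ≤ g.natDegree := by
    refine Polynomial.le_natDegree_of_ne_zero ?_
    intro h0
    have h4 := h.Gr G.natDegree
    have h5 : G.coeff G.natDegree = 1 := h.Gm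
    rw [h5, rs_one, h0] at h4
    exact one_ne_zero h4
  have hmin : ∀ R : Polynomial W, (∀ i, R.coeff i ∈ A) → R.degree < g'.degree →
      ‖R.eval v‖ < 1 → ∀ i, ‖R.coeff i‖ < 1 := by
    intro R hRA hRd hRv
    have hd : g'.degree = (G.natDegree : WithBot ℕ) := by
      rw [Polynomial.degree_eq_natDegree hg'm.ne_zero, hg'd]
    rw [hd] at hRd
    have hR0 : ∀ i, G.natDegree ≤ i → R.coeff i = 0 := fun i hi =>
      Polynomial.coeff_eq_zero_of_degree_lt (lt_of_lt_of_le hRd (by exact_mod_cast hi))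
    have h4 : ∀ i, ∃ e ∈ c.B, ‖R.coeff i - e‖ < 1 := by
      intro i
      exact qsg_res hC hM (z := R.coeff i) (by
        rw [← hsyn.eq]; exact le_Cp (hRA i))
    choose ec hecB hec using h4
    obtain ⟨R0, hR0c⟩ := qsg_poly ec G.natDegree
    have hR0B : ∀ i, R0.coeff i ∈ c.B := by
      intro i
      rw [hR0c]
      split_ifs
      · exact hecB i
      · exact zero_mem _
    have h6 : ∀ i, ‖R.coeff i - R0.coeff i‖ < 1 := by
      intro i
      rw [hR0c]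
      split_ifs with h7
      · exact hec i
      · rw [hR0 i (by omega), sub_self, norm_zero]
        exact one_pos
    have h8 : R.eval v - R0.eval w ∈ qsgB (Cp (Bx c'.B x'')) hD'.one := by
      refine qsg_eval _ _ _ (fun i => hAD (hRA i)) (fun i => ?_) (fun i => h6 i) hvD hwD
        (hI1 _ hvw)
      refine hDD ?_
      rw [← hsyn.eq]
      exact hCD _ (hR0B i)
    have h9 : ‖R0.eval w‖ < 1 := by
      have h10 : R0.eval w = R.eval v + -(R.eval v - R0.eval w) := by ring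
      rw [h10]
      refine lt_of_le_of_lt (IsUltrametricDist.norm_add_le_max _ _) (max_lt hRv ?_)
      rw [norm_neg]
      exact h8
    obtain ⟨Q, hQ⟩ := exists_red hC1 h.hF hR0B
    have h5 : Q.degree < g.degree := by
      rw [Polynomial.degree_eq_natDegree h.gm.ne_zero, Polynomial.degree_lt_iff_coeff_zero]
      intro i hi
      have h7 := (hQ i).2
      rw [hR0c, if_neg (by omega), rs_zero] at h7
      exact Subtype.ext h7.symm
    have h10 : Q = 0 := by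
      by_contra h0
      exact Polynomial.not_dvd_of_degree_lt h0 h5 ((h.norm_eval_iff hQ).1 h9)
    intro i
    have h11 := (hQ i).2
    rw [h10, Polynomial.coeff_zero] at h11
    have h12 : ‖R0.coeff i‖ < 1 := (rs_eq_zero_iff (hQ i).1).1 h11
    have h13 : R.coeff i = (R.coeff i - R0.coeff i) + R0.coeff i := by ring
    rw [h13]
    exact lt_of_le_of_lt (IsUltrametricDist.norm_add_le_max _ _) (max_lt (h6 i) h12)
  obtain ⟨hy1A, hgen'⟩ := stg_gen A hAN U hUn v hvn g' hg'A hg'm hy1n hmin A'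
    (by rw [hA', hcoe])
  -- the completion of the new ring
  have hres : ∀ z ∈ Cp (Bx c'.B x''), ∃ b ∈ A', ‖z - b‖ < 1 := by
    intro z hz
    obtain ⟨e', he', hze⟩ := qsg_res hC' hM'' hz
    have hE : e' ∈ qsgE A' hA'N.one := by
      rw [h.hB] at he'
      refine qsg_locV_le _ ?_ (fun z hz => qsgE_inv _ hA'N.inv hz) he'
      rintro u (hu | (⟨i, rfl⟩ | hu))
      · obtain ⟨b, hb, hb1⟩ := hcg u hu
        exact ⟨hC1 u hu, b, hAA' hb, hb1⟩
      · exact ⟨(hC'.gd.ind.lt i).le, 0, zero_mem _, by rw [sub_zero]; exact hC'.gd.ind.lt i⟩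
      · rw [Set.mem_singleton_iff] at hu
        rw [hu]
        exact ⟨h.w1.le, v, hvA', by rw [norm_sub_rev]; exact hI1 _ hvw⟩
    obtain ⟨-, b, hb, hb1⟩ := hE
    refine ⟨b, hb, ?_⟩
    have h4 : z - b = (z - e') + (e' - b) := by ring
    rw [h4]
    exact lt_of_le_of_lt (IsUltrametricDist.norm_add_le_max _ _) (max_lt hze hb1)
  have hx''s : ∀ i, x'' i ∈ Submodule.span (Cp (Bx c'.B x''))
      {b : W | b ∈ A' ∧ ‖b‖ < 1} := by
    intro i
    obtain ⟨u, hu, h4⟩ := hU' i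
    have hu1 := qsgU_norm hD' hP1 hu
    have hu0 : u ≠ 0 := norm_pos_iff.1 (by rw [hu1]; exact one_pos)
    have h5 : x'' i = u⁻¹ * U i := by
      rw [h4, mul_comm (x'' i) u, inv_mul_cancel_left₀ hu0]
    rw [h5]
    exact Submodule.smul_mem _
      (⟨u⁻¹, hD'.inv u (qsgU_mem hPD hu) hu1⟩ : Cp (Bx c'.B x''))
      (Submodule.subset_span ⟨hUA' i, hUn i⟩)
  have hmax : ∀ z ∈ Cp (Bx c'.B x''), ‖z‖ < 1 → z ∈ Submodule.span (Cp (Bx c'.B x''))
      {b : W | b ∈ A' ∧ ‖b‖ < 1} := by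
    intro z hz hz1
    refine Submodule.span_le.2 ?_ (qsg_gen hC' hM'' z hz hz1)
    rintro _ ⟨l, rfl⟩
    rw [SetLike.mem_coe]
    refine Fin.cases ?_ (fun i => ?_) l
    · rw [Fin.cons_zero]
      obtain ⟨t, ht, h4⟩ := hIm' _ hy1
      obtain ⟨t', ht', h5⟩ := hPf
      have h6 : c'.y = g'.eval v - (t * t') * x'' ⟨0, hr⟩ := by
        rw [h5] at h4
        linear_combination -h4
      rw [h6]
      refine sub_mem (Submodule.subset_span ⟨hy1A, hy1n⟩) ?_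
      exact Submodule.smul_mem _ (⟨t * t', mul_mem ht ht'⟩ : Cp (Bx c'.B x'')) (hx''s _)
    · rw [Fin.cons_succ]
      exact hx''s i
  have hCp : Cp A' = Cp (Bx c'.B x'') := cp_eq_of_surj hA'N hNB' hA'D hres hmax
  refine ⟨insert v (Finset.univ.image U), U, g'.eval v, ξ, x'', A', hA', ?_, ⟨hM'', hCp⟩,
    fun z hz => h1 z (Finset.mem_union_left _ hz), fun z hz => h2 z (Finset.mem_union_left _ hz),
    fun a ha => h3 a (Finset.mem_union_left _ ha), fun i => ⟨hUA' i, ?_⟩, hy1A, hy1n, hgen',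
    fun l => ⟨hξA l, hqn l⟩, hgen, fun l => ?_⟩
  · intro u hu
    have hU0 : ∀ i, U i ≠ 0 := by
      intro i
      obtain ⟨u, hu, h4⟩ := hU' i
      rw [h4]
      exact mul_ne_zero (hM''.1.ind.ne i)
        (norm_pos_iff.1 (by rw [qsgU_norm hD' hP1 hu]; exact one_pos))
    have hone : MoC S c' (1 : W) ∧ MonV (ball W) A' U 1 :=
      ⟨⟨0, 1, one_mem _, norm_one, by rw [TDO.mon_zero, one_mul]⟩,
        1, one_mem _, map_one _, 0, by unfold monN; simp⟩
    have hQ : ∀ l, ξ l ∈ A ∧ (MoC S c' (ξ l) ∧ MonV (ball W) A' U (ξ l)) := by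
      intro l
      refine ⟨hξA l, hqM l, ?_⟩
      obtain ⟨bb, nn, h4, h5⟩ := hξU l
      refine ⟨v ^ nn, ?_, ?_, fun i => (bb i).toNat, ?_⟩
      · obtain ⟨n', rfl | rfl⟩ := nn.eq_nat_or_neg
        · rw [zpow_natCast]; exact pow_mem hvA' n'
        · rw [zpow_neg, zpow_natCast, ← inv_pow]
          exact pow_mem (hA'N.inv v hvA' hvn) n'
      · exact (ball_val_eq_one _).2 (by rw [norm_zpow, hvn, one_zpow])
      · rw [h4, qsg_monN, mul_comm]
        congr 2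
        funext i
        exact (Int.toNat_of_nonneg (by have := h5 i; omega)).symm
    have hfr := fun a j => qsg_frac A (fun z => MoC S c' z ∧ MonV (ball W) A' U z)
      hone (fun u u' h h' => ⟨MoC.mul hC' h.1 h'.1, qsg_monV_mul h.2 h'.2⟩)
      (fun u h => h.1.ne hC') (fun l => ξ l.succ) (ξ 0) (fun l => hQ _) (hQ 0) a j
    rcases Finset.mem_insert.1 hu with rfl | hu
    · refine ⟨hvn.le, ?_⟩
      obtain ⟨n, hn, d, hd, ⟨hd1, hd2⟩, hnd⟩ := hfr av jv
      exact ⟨n, hn, d, hd, hd1, hd2, by rw [← hnd]; congr 1⟩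
    · obtain ⟨i, -, rfl⟩ := Finset.mem_image.1 hu
      refine ⟨(hUn i).le, ?_⟩
      obtain ⟨n, hn, d, hd, ⟨hd1, hd2⟩, hnd⟩ := hfr (a i) (j i)
      exact ⟨n, hn, d, hd, hd1, hd2, by rw [← hnd, hU]⟩
  · obtain ⟨u, hu, h4⟩ := hU' i
    exact ⟨u, by rw [hCp]; exact qsgU_mem hPD hu, qsgU_norm hD' hP1 hu, h4⟩
  · obtain ⟨bb, nn, h4, h5⟩ := hξU l
    have h6 : ∀ i, ((bb i).toNat : ℤ) = bb i := fun i => Int.toNat_of_nonneg (by
      have := h5 i
      omega)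
    have h7 : mon U bb = monN U (fun i => (bb i).toNat) := by
      rw [qsg_monN]
      congr 1
      funext i
      exact (h6 i).symm
    have h8 : ∀ i, 1 ≤ (bb i).toNat := by
      intro i
      have h9 := h5 i
      have h10 := h6 i
      omega
    refine ⟨monN U (fun i => (bb i).toNat - 1) * v ^ nn, mul_mem ?_ ?_, ?_⟩
    · unfold monN
      exact prod_mem fun i _ => pow_mem (hUA' i) _
    · obtain ⟨n', rfl | rfl⟩ := nn.eq_nat_or_neg
      · rw [zpow_natCast]; exact pow_mem hvA' n'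
      · rw [zpow_neg, zpow_natCast, ← inv_pow]
        exact pow_mem (hA'N.inv v hvA' hvn) n'
    · rw [h4, h7, qsg_monN_pos U _ h8, mul_assoc]

end

end Pool.Agent.Lib.MXP
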