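import Pool.Agent.Lib.MXP.QEmb
import Pool.Agent.Lib.TC.StepA
import Pool.Agent.Lib.TC.Tr

/-!
# Module QStp: steps of rank one and transcendence defect one modulo the implicit prime, over a
trivially normed prime field
-/

open IsLocalRing

namespace Pool.Agent.Lib.MXPB

open TC CQ Pool.Agent.Lib.MP_3029eb_ag Pool.Agent.Lib.MP_3029eb_ag.Abh

/-- The residual valuation of `V` on the residue field of `V1` has rank one and transcendence defect
one over the completion of the image of the ring `A0` modulo the implicit ideal. -/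
structure QStepX (p : ℕ) {K : Type} [Field K] (V1 V : ValuationSubring K) (A0 : Subring K)
    [IsLocalRing A0] {r s : ℕ} (x : Fin r → K) (y : Fin s → K)
    (I : Ideal (AdicCompletion (maximalIdeal A0) A0)) : Prop where
  le : V ≤ V1
  sub : A0 ≤ V.toSubring
  loc : locV V A0 = A0
  alg : ∀ z : K, z ∈ V1 → ∃ f : Polynomial A0, (∃ n, V1.valuation ((f.coeff n : A0) : K) = 1) ∧
    V1.valuation (Polynomial.eval₂ A0.subtype z f) < 1
  pos : 0 < r
  arch : ∀ a b : K, V1.valuation a = 1 → V1.valuation b = 1 → V.valuation b < 1 →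
    ∃ n : ℕ, V.valuation (b ^ n) ≤ V.valuation a
  one : ∀ i, V1.valuation (x i) = 1
  ind : ∀ δ : Fin r → ℤ, V.valuation (mon x δ) = 1 → δ = 0
  rank : ∀ z : Fin (r + 1) → K, (∀ i, V1.valuation (z i) = 1) →
    ∃ m : Fin (r + 1) → ℤ, m ≠ 0 ∧ V.valuation (mon z m) = 1
  ymem : ∀ j, y j ∈ V
  yind : ResIndep V A0 y
  yalg : ∀ z : K, z ∈ V → ∃ f : Polynomial (Subring.closure ((A0 : Set K) ∪ Set.range y)),
    (∃ n, V.valuation ((f.coeff n :
      Subring.closure ((A0 : Set K) ∪ Set.range y)) : K) = 1) ∧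
    V.valuation (Polynomial.eval₂ (Subring.closure ((A0 : Set K) ∪ Set.range y)).subtype z f) < 1
  pr : p.Prime
  chr : V1.valuation (p : K) < 1 ∨ ∀ n : ℕ, n ≠ 0 → V.valuation (n : K) = 1
  impl : ∀ d : A0, V1.valuation (d : K) = 1 →
    I ≤ Ideal.span (algebraMap A0 (AdicCompletion (maximalIdeal A0) A0) ''
      {a : A0 | V.valuation (a : K) ≤ V.valuation (d : K)})
  dim : ringKrullDim (AdicCompletion (maximalIdeal A0) A0 ⧸ I) ≤
    ((r + 1 + s : ℕ) : WithBot ℕ∞)

section aux

variable {K : Type} [Field K]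

private theorem sqx_eval (V1 : ValuationSubring K) (A0 : Subring K) (hA0 : A0 ≤ V1.toSubring)
    {z : K} (hz : z ∈ V1) (f : Polynomial A0) :
    Polynomial.eval₂ (im V1 A0).subtype (rs V1 z) (f.map (toIm V1 A0 hA0)) =
      rs V1 (Polynomial.eval₂ A0.subtype z f) := by
  let incl : A0 →+* V1 := Subring.inclusion hA0
  have h1 : Polynomial.eval₂ A0.subtype z f =
      ((Polynomial.eval₂ incl (⟨z, hz⟩ : V1) f : V1) : K) :=
    (Polynomial.hom_eval₂ f incl V1.toSubring.subtype (⟨z, hz⟩ : V1)).symm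
  rw [h1, rs_coe, Polynomial.hom_eval₂, Polynomial.eval₂_map, rs_eq hz]
  rfl

private theorem sqx_mveval (V1 : ValuationSubring K) (A0 : Subring K) (hA0 : A0 ≤ V1.toSubring)
    {s : ℕ} {y : Fin s → K} (hy : ∀ j, y j ∈ V1) (f : MvPolynomial (Fin s) A0) :
    MvPolynomial.eval₂ (im V1 A0).subtype (fun j => rs V1 (y j))
      (MvPolynomial.map (toIm V1 A0 hA0) f) = rs V1 (MvPolynomial.eval₂ A0.subtype y f) ∧
    MvPolynomial.eval₂ A0.subtype y f ∈ V1 := by
  let incl : A0 →+* V1 := Subring.inclusion hA0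
  have h1 : MvPolynomial.eval₂ A0.subtype y f =
      ((MvPolynomial.eval₂ incl (fun j => (⟨y j, hy j⟩ : V1)) f : V1) : K) :=
    (MvPolynomial.eval₂_comp_left V1.toSubring.subtype incl (fun j => (⟨y j, hy j⟩ : V1)) f).symm
  constructor
  · rw [h1, rs_coe, MvPolynomial.eval₂_comp_left, MvPolynomial.eval₂_map]
    have h2 : (fun j => rs V1 (y j)) = (residue V1) ∘ fun j => (⟨y j, hy j⟩ : V1) := by
      funext j
      exact rs_eq (hy j)
    rw [h2]
    rfl
  · rw [h1]
    exact Subtype.property _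

private theorem sqx_mvmem (V : ValuationSubring K) (A0 : Subring K) (hA0 : A0 ≤ V.toSubring)
    {s : ℕ} {y : Fin s → K} (hy : ∀ j, y j ∈ V) (f : MvPolynomial (Fin s) A0) :
    MvPolynomial.eval₂ A0.subtype y f ∈ V := (sqx_mveval V A0 hA0 hy f).2

private theorem sqx_alg {V V1 : ValuationSubring K} {A0 : Subring K} (hA0 : A0 ≤ V1.toSubring)
    (halg : ∀ z : K, z ∈ V1 → ∃ f : Polynomial A0,
      (∃ n, V1.valuation ((f.coeff n : A0) : K) = 1) ∧
      V1.valuation (Polynomial.eval₂ A0.subtype z f) < 1) (w : ResidueField V1) :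
    AlgOver (im V1 A0) w := by
  obtain ⟨u, rfl⟩ := residue_surjective w
  obtain ⟨f, ⟨n, hn⟩, hf⟩ := halg (u : K) u.2
  refine ⟨f.map (toIm V1 A0 hA0), ?_, ?_⟩
  · intro h0
    have h1 := congrArg (fun p => ((p.coeff n : im V1 A0) : ResidueField V1)) h0
    simp only [Polynomial.coeff_map, Polynomial.coeff_zero] at h1
    have h2 : ((toIm V1 A0 hA0 (f.coeff n) : im V1 A0) : ResidueField V1) =
        rs V1 ((f.coeff n : A0) : K) := (rs_eq (hA0 (f.coeff n).2)).symm
    rw [h2] at h1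
    exact rs_ne_zero hn h1
  · rw [← rs_coe, sqx_eval V1 A0 hA0 u.2]
    have h3 : Polynomial.eval₂ A0.subtype (u : K) f ∈ V1 :=
      (V1.valuation_le_one_iff _).1 hf.le
    exact (rs_eq_zero h3).2 hf

private theorem sqx_res {V V1 : ValuationSubring K} (h : V ≤ V1) {A0 : Subring K}
    (hA0 : A0 ≤ V.toSubring) {s : ℕ} {y : Fin s → K} (hy : ∀ j, y j ∈ V)
    (hres : ResIndep V A0 y) : ResIndep (resV V V1 h) (im V1 A0) (fun j => rs V1 (y j)) := by
  intro p hp m
  have hA01 : A0 ≤ V1.toSubring := hA0.trans h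
  obtain ⟨q, rfl⟩ := MvPolynomial.map_surjective (toIm V1 A0 hA01) (toIm_surjective V1 A0 hA01) p
  rw [(sqx_mveval V1 A0 hA01 (fun j => h (hy j)) q).1,
    rs_resV_lt h (sqx_mvmem V A0 hA0 hy q)] at hp
  have h1 := hres q hp m
  rw [MvPolynomial.coeff_map]
  have h2 : ((toIm V1 A0 hA01 (MvPolynomial.coeff m q) : im V1 A0) : ResidueField V1) =
      rs V1 ((MvPolynomial.coeff m q : A0) : K) := (rs_eq (hA01 (MvPolynomial.coeff m q).2)).symm
  rw [h2, rs_resV_lt h (hA0 (MvPolynomial.coeff m q).2)]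
  exact h1

private theorem sqx_gen {V V1 : ValuationSubring K} (h : V ≤ V1) {A0 : Subring K}
    (hA0 : A0 ≤ V.toSubring) (G : Set K) (hG : ∀ z ∈ G, z ∈ V) :
    im V1 (locV V (Subring.closure ((A0 : Set K) ∪ G))) =
      locV (resV V V1 h) (Subring.closure ((im V1 A0 : Set (ResidueField V1)) ∪
        (rs V1 '' G))) := by
  rw [im_locV h _ (closure_le_val V A0 hA0 G hG),
    im_closure V1 A0 (hA0.trans h) G (fun z hz => h (hG z hz))]
  congr 3
  ext w
  constructor
  · rintro ⟨z, hz, rfl⟩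
    exact ⟨z, hz, rs_eq (h (hG z hz))⟩
  · rintro ⟨z, hz, rfl⟩
    exact ⟨z, hz, (rs_eq (h (hG z hz))).symm⟩

end aux

section core

variable {K : Type} [Field K]

private theorem sqx_core (p : ℕ) {V V1 : ValuationSubring K} (A0 : Subring K)
    [IsLocalRing A0] [IsNoetherianRing A0] {r s : ℕ} {x : Fin r → K} {y : Fin s → K}
    {I : Ideal (AdicCompletion (maximalIdeal A0) A0)} (S : QStepX p V1 V A0 x y I)
    (A1 : Subring K) [IsNoetherianRing A1] (hA1V : A1 ≤ V.toSubring) (hA1l : locV V A1 = A1)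
    (hA01 : A0 ≤ A1) (g2 : Finset K) (hg2A : ∀ t ∈ g2, t ∈ A1)
    (hA1eq : A1 = locV V (Subring.closure ((A0 : Set K) ∪ (Set.range y ∪ (g2 : Set K)))))
    (hyA1 : ∀ j, y j ∈ A1) (hxA1 : ∀ i, x i ∈ A1 ∨ (x i)⁻¹ ∈ A1)
    (hG : GoodBase (im V1 A1)) :
    EMB3 (resV V V1 S.le) (im V1 A1) r := by
  classical
  have hA1V1 : A1 ≤ V1.toSubring := hA1V.trans S.le
  have hA0V := S.sub
  have hA0l := S.loc
  have hA0V1 : A0 ≤ V1.toSubring := hA0V.trans S.le
  have hB : im V1 A1 = locV (resV V V1 S.le) (Subring.closure ((im V1 A0 : Set (ResidueField V1)) ∪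
      (rs V1 '' (Set.range y ∪ (g2 : Set K))))) := by
    conv_lhs => rw [hA1eq]
    refine sqx_gen S.le hA0V _ ?_
    rintro z (⟨j, rfl⟩ | hz)
    · exact S.ymem j
    · exact hA1V (hg2A z hz)
  have hBV : im V1 A1 ≤ (resV V V1 S.le).toSubring := im_le_resV S.le A1 hA1V
  have hBl : locV (resV V V1 S.le) (im V1 A1) = im V1 A1 := locV_im S.le A1 hA1V hA1l
  have hBn : IsNoetherianRing (im V1 A1) := isNoetherianRing_im A1 hA1V1
  have hBloc : IsLocalRing (im V1 A1) := by
    have h1 := isLocalRing_locV (resV V V1 S.le) hBV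
    rwa [hBl] at h1
  -- the homomorphism `j`
  let j : A0 →+* ResidueField V1 := (im V1 A0).subtype.comp (toIm V1 A0 hA0V1)
  have hjrs : ∀ c : A0, j c = rs V1 (c : K) := fun c => (rs_eq (hA0V1 c.2)).symm
  have hjr : j.range = im V1 A0 := by
    ext w
    constructor
    · rintro ⟨c, rfl⟩
      exact (toIm V1 A0 hA0V1 c).2
    · intro hw
      obtain ⟨c, hc⟩ := toIm_surjective V1 A0 hA0V1 ⟨w, hw⟩
      exact ⟨c, by
        show ((toIm V1 A0 hA0V1 c : im V1 A0) : ResidueField V1) = w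
        rw [hc]⟩
  have hj : ∀ c, j c ∈ resV V V1 S.le := by
    intro c
    rw [hjrs]
    exact (rs_mem_resV S.le (hA0V1 c.2)).2 (hA0V c.2)
  have hjm : ∀ c, c ∈ maximalIdeal A0 ↔ (resV V V1 S.le).valuation (j c) < 1 := by
    intro c
    rw [A2_mem_maximalIdeal V hA0V hA0l, hjrs, rs_resV_lt S.le (hA0V c.2)]
  have halg : ∀ z : ResidueField V1, AlgOver j.range z := by
    intro z
    rw [hjr]
    exact sqx_alg (V := V) hA0V1 S.alg z
  have hyV' : ∀ i, rs V1 (y i) ∈ resV V V1 S.le := fun i =>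
    (rs_mem_resV S.le (S.le (S.ymem i))).2 (S.ymem i)
  have hres : ResIndep (resV V V1 S.le) j.range (fun i => rs V1 (y i)) := by
    rw [hjr]
    exact sqx_res S.le hA0V S.ymem S.yind
  have hx' : IndV (resV V V1 S.le) fun i => rs V1 (x i) := tr_ind S.le S.one S.ind
  have harch := tr_arch S.le S.arch
  have hI : Impl (resV V V1 S.le) j I := by
    intro d hd
    rw [hjrs] at hd
    have hd1 : V1.valuation (d : K) = 1 := rs_val_one (hA0V1 d.2) hd
    refine (S.impl d hd1).trans (Ideal.span_mono (Set.image_mono ?_))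
    intro a ha
    have ha' : V.valuation (a : K) ≤ V.valuation (d : K) := ha
    show (resV V V1 S.le).valuation (j a) ≤ (resV V V1 S.le).valuation (j d)
    rw [hjrs, hjrs]
    by_cases h0 : rs V1 (a : K) = 0
    · rw [h0, map_zero]
      exact zero_le
    · exact (val_le_iff S.le (rs_val_one (hA0V1 a.2) h0) hd1).2 ha'
  have hW : resV V V1 S.le ≠ ⊤ := by
    intro h0
    exact S.pos.ne' (hx'.eq_zero_of_top h0)
  obtain ⟨I', hI', hdim'⟩ := impl_dimQ (resV V V1 S.le) hW harch A0 j hj hjm halg (r := r + 1)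
    (fun i => rs V1 (y i)) hyV' hres I hI S.dim (im V1 A1)
    (Finset.univ.image (fun i => rs V1 (y i)) ∪ g2.image (rs V1)) (by
      intro t ht
      rcases Finset.mem_union.1 ht with ht | ht
      · obtain ⟨i, _, rfl⟩ := Finset.mem_image.1 ht
        exact hyV' i
      · obtain ⟨z, hz, rfl⟩ := Finset.mem_image.1 ht
        have hzV : z ∈ V := hA1V (hg2A z hz)
        exact (rs_mem_resV S.le (S.le hzV)).2 hzV) (by
      rw [hjr]
      conv_lhs => rw [hB]
      congr 3
      rw [Finset.coe_union, Finset.coe_image, Finset.coe_image, Finset.coe_univ, Set.image_univ,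
        Set.image_union, ← Set.range_comp]
      rfl) (fun i => (mem_im_iff hA1V1 _).2 ⟨y i, hyA1 i, rfl⟩)
  have hnat : ∀ n : ℕ, residue V1 (⟨(n : K), natCast_mem V1 n⟩ : V1) =
      ((n : ℕ) : ResidueField V1) := by
    intro n
    rw [← map_natCast (residue V1) n]
    congr 1
  have hchr : (p : ResidueField V1) = 0 ∨ ∀ n : ℕ, n ≠ 0 →
      (resV V V1 S.le).valuation (n : ResidueField V1) = 1 := by
    refine S.chr.imp (fun h => ?_) (fun h n hn => ?_)
    · have h1 : (p : K) ∈ V1 := natCast_mem V1 p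
      rw [← hnat p, ← rs_eq h1]
      exact (rs_eq_zero h1).2 h
    · have h1 := C1_resV_val S.le (⟨(n : K), natCast_mem V1 n⟩ : V1) (natCast_mem V n)
      rw [← hnat n]
      exact h1.2 (h n hn)
  have hcl : Subring.closure ((A0 : Set K) ∪ Set.range y) ≤ A1 := by
    rw [Subring.closure_le]
    rintro t (ht | ⟨i, rfl⟩)
    · exact hA01 ht
    · exact hyA1 i
  refine emb3_qe p S.pr (resV V V1 S.le) hchr harch S.pos (fun i => rs V1 (x i)) hx'
    (tr_rank S.le S.rank) (im V1 A1) hBV hBl ?_ hG ?_ I' hI' hdim'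
  · intro i
    rcases hxA1 i with h | h
    · exact ⟨rs V1 (x i), (mem_im_iff hA1V1 _).2 ⟨_, h, rfl⟩, 1, one_mem _, one_ne_zero,
        mul_one _⟩
    · refine ⟨1, one_mem _, rs V1 (x i)⁻¹, (mem_im_iff hA1V1 _).2 ⟨_, h, rfl⟩, ?_, ?_⟩
      · rw [rs_inv (S.one i)]
        exact inv_ne_zero (rs_ne_zero (S.one i))
      · rw [rs_inv (S.one i), mul_inv_cancel₀ (rs_ne_zero (S.one i))]
  · intro z hz
    obtain ⟨u, hu, rfl⟩ := (C1_mem_resV S.le z).1 hz
    obtain ⟨f, ⟨n, hn⟩, hf⟩ := S.yalg (u : K) hu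
    refine ⟨(f.map (Subring.inclusion hcl)).map (toIm V1 A1 hA1V1), ⟨n, ?_⟩, ?_⟩
    · rw [Polynomial.coeff_map, Polynomial.coeff_map]
      have hc1 : ((Subring.inclusion hcl (f.coeff n) : A1) : K) ∈ V :=
        hA1V (Subring.inclusion hcl (f.coeff n)).2
      have h1 := C1_resV_val S.le
        (⟨((Subring.inclusion hcl (f.coeff n) : A1) : K), S.le hc1⟩ : V1) hc1
      exact h1.2 hn
    · rw [← rs_coe, sqx_eval V1 A1 hA1V1 u.2, Polynomial.eval₂_map]
      have h1 : (A1.subtype.comp (Subring.inclusion hcl)) =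
          (Subring.closure ((A0 : Set K) ∪ Set.range y)).subtype := RingHom.ext fun a => rfl
      rw [h1, rs_resV_lt S.le ((V.valuation_le_one_iff _).1 hf.le)]
      exact hf

end core

private theorem sqx_part (p : ℕ) {Rb K : Type} [CommRing Rb] [Field K]
    (hRb : GoodBase Rb) (φ : Rb →+* K)
    {V V1 : ValuationSubring K} (g0 : Finset K)
    [IsLocalRing (locV V (Subring.closure ((φ.range : Set K) ∪ (g0 : Set K))))]
    {r s : ℕ} {x : Fin r → K} {y : Fin s → K}
    {I : Ideal (AdicCompletion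
      (maximalIdeal (locV V (Subring.closure ((φ.range : Set K) ∪ (g0 : Set K)))))
      (locV V (Subring.closure ((φ.range : Set K) ∪ (g0 : Set K)))))}
    (S : QStepX p V1 V (locV V (Subring.closure ((φ.range : Set K) ∪ (g0 : Set K)))) x y I)
    (A1 : Subring K) (hA1V : A1 ≤ V.toSubring) (hA1l : locV V A1 = A1) (f1 : Rb →+* A1)
    (hf1φ : ∀ c, (f1 c : K) = φ c) (hf1 : EFT f1)
    (hA01 : locV V (Subring.closure ((φ.range : Set K) ∪ (g0 : Set K))) ≤ A1)
    (hyA1 : ∀ j, y j ∈ A1) (hxA1 : ∀ i, x i ∈ A1 ∨ (x i)⁻¹ ∈ A1) :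
    EMB3 (resV V V1 S.le) (im V1 A1) r := by
  classical
  have nRb : IsNoetherianRing Rb := hRb.1
  have hA1n : IsNoetherianRing A1 := hf1.isNoetherianRing
  have hA1V1 : A1 ≤ V1.toSubring := hA1V.trans S.le
  obtain ⟨g2, hg2A, hg2⟩ := exists_gens φ V A1 hA1V hA1l f1 hf1φ hf1
  have hφA0 : (φ.range : Set K) ⊆
      locV V (Subring.closure ((φ.range : Set K) ∪ (g0 : Set K))) := fun z hz =>
    le_locV _ _ (Subring.subset_closure (Or.inl hz))
  have hA0n : IsNoetherianRing (locV V (Subring.closure ((φ.range : Set K) ∪ (g0 : Set K)))) := by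
    have n1 : IsNoetherianRing φ.range := isNoetherianRing_range φ
    have n2 : IsNoetherianRing (Subring.closure ((φ.range : Set K) ∪ (g0 : Set K))) :=
      isNoetherianRing_closure (A := φ.range) g0
    exact isNoetherianRing_locV V
  refine sqx_core p _ S A1 hA1V hA1l hA01 g2 (fun t ht => hg2A ht) ?_ hyA1 hxA1 ?_
  · refine le_antisymm ?_ ?_
    · conv_lhs => rw [hg2]
      apply locV_mono
      apply Subring.closure_mono
      rintro z (hz | hz)
      · exact Or.inl (hφA0 hz)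
      · exact Or.inr (Or.inr hz)
    · refine le_trans (locV_mono V (?_ : _ ≤ A1)) hA1l.le
      rw [Subring.closure_le]
      rintro z (hz | ⟨j, rfl⟩ | hz)
      · exact hA01 hz
      · exact hyA1 j
      · exact hg2A hz
  · exact goodBase_of_EFT hRb (EFT_comp_surjective _ _ hf1 (toIm_surjective V1 _ hA1V1))

theorem unif_QX (p : ℕ) {Rb K : Type} [CommRing Rb] [Field K] (hRb : GoodBase Rb)
    (φ : Rb →+* K)
    {V V1 : ValuationSubring K} (g0 : Finset K)
    [IsLocalRing (locV V (Subring.closure ((φ.range : Set K) ∪ (g0 : Set K))))]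
    {r s : ℕ} {x : Fin r → K} {y : Fin s → K}
    {I : Ideal (AdicCompletion
      (maximalIdeal (locV V (Subring.closure ((φ.range : Set K) ∪ (g0 : Set K)))))
      (locV V (Subring.closure ((φ.range : Set K) ∪ (g0 : Set K)))))}
    (S : QStepX p V1 V (locV V (Subring.closure ((φ.range : Set K) ∪ (g0 : Set K)))) x y I)
    {r1 : ℕ} (H : Unif φ V1 r1) : Unif φ V (r1 + r) := by
  classical
  intro A hA hloc f hfφ hf hfrac
  have nRb : IsNoetherianRing Rb := hRb.1
  -- the elements to adjoin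
  have hxx : ∀ i, ∃ t : K, t ∈ V ∧ (t = x i ∨ t = (x i)⁻¹) := by
    intro i
    rcases V.mem_or_inv_mem (x i) with h | h
    · exact ⟨_, h, Or.inl rfl⟩
    · exact ⟨_, h, Or.inr rfl⟩
  choose x' hx'V hx' using hxx
  set g : Finset K := g0 ∪ (Finset.univ.image y ∪ Finset.univ.image x') with hg
  have hgV : ∀ t ∈ g, t ∈ V ∧ ∃ a ∈ A, ∃ b ∈ A, b ≠ 0 ∧ t * b = a := by
    intro t ht
    refine ⟨?_, hfrac t⟩
    rcases Finset.mem_union.1 ht with ht | ht
    · exact S.sub (le_locV _ _ (Subring.subset_closure (Or.inr ht)))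
    rcases Finset.mem_union.1 ht with ht | ht
    · obtain ⟨j, _, rfl⟩ := Finset.mem_image.1 ht
      exact S.ymem j
    · obtain ⟨i, _, rfl⟩ := Finset.mem_image.1 ht
      exact hx'V i
  refine EMB3_trans V A g hgV ?_ hA
  have hcl : Subring.closure ((A : Set K) ∪ (g : Set K)) ≤ V.toSubring :=
    closure_le_val V A hA _ fun t ht => (hgV t ht).1
  have hA' : locV V (Subring.closure ((A : Set K) ∪ (g : Set K))) ≤ V.toSubring :=
    locV_le _ hcl
  have hloc' := locV_locV V (Subring.closure ((A : Set K) ∪ (g : Set K)))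
  have hAA' : A ≤ locV V (Subring.closure ((A : Set K) ∪ (g : Set K))) :=
    fun a ha => le_locV _ _ (Subring.subset_closure (Or.inl ha))
  have hf' : ∃ f' : Rb →+* locV V (Subring.closure ((A : Set K) ∪ (g : Set K))), EFT f' ∧
      ∀ c, (f' c : K) = φ c :=
    ⟨_, EFT_locV V A f hf g (Subring.inclusion hAA') (fun a => rfl), fun c => hfφ c⟩
  have hgA' : ∀ t ∈ g, t ∈ locV V (Subring.closure ((A : Set K) ∪ (g : Set K))) := fun t ht =>
    le_locV _ _ (Subring.subset_closure (Or.inr ht))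
  have hA0A' : locV V (Subring.closure ((φ.range : Set K) ∪ (g0 : Set K))) ≤
      locV V (Subring.closure ((A : Set K) ∪ (g : Set K))) := by
    apply locV_mono
    apply Subring.closure_mono
    rintro z (⟨c, rfl⟩ | hz)
    · left
      rw [← hfφ c]
      exact (f c).2
    · right
      rw [hg]
      exact Finset.mem_union_left _ hz
  generalize locV V (Subring.closure ((A : Set K) ∪ (g : Set K))) = A' at *
  obtain ⟨f', hf', hf'φ⟩ := hf'
  have nA' : IsNoetherianRing A' := hf'.isNoetherianRing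
  have hfrac' : ∀ z : K, ∃ a ∈ A', ∃ b ∈ A', b ≠ 0 ∧ z * b = a := by
    intro z
    obtain ⟨a, ha, b, hb, hb0, h⟩ := hfrac z
    exact ⟨a, hAA' ha, b, hAA' hb, hb0, h⟩
  have hA'V1 : A' ≤ V1.toSubring := hA'.trans S.le
  refine EMB3_comp S.le A' hA' ?_ ?_
  · -- the coarser valuation
    refine H (locV V1 A') (locV_le _ hA'V1) (locV_locV _ _)
      ((Subring.inclusion (le_locV V1 A')).comp f') (fun c => hf'φ c)
      (EFT_locV' V1 A' f' hf' (Subring.inclusion (le_locV V1 A')) (fun a => rfl)) ?_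
    intro z
    obtain ⟨a, ha, b, hb, hb0, h⟩ := hfrac' z
    exact ⟨a, le_locV _ _ ha, b, le_locV _ _ hb, hb0, h⟩
  · -- the residual valuation
    intro g1 hg1
    have hcl1 : Subring.closure ((A' : Set K) ∪ (g1 : Set K)) ≤ V.toSubring :=
      closure_le_val V A' hA' _ fun t ht => (hg1 t ht).1
    have hA1V : locV V (Subring.closure ((A' : Set K) ∪ (g1 : Set K))) ≤ V.toSubring :=
      locV_le V hcl1
    have hAA1 : A' ≤ locV V (Subring.closure ((A' : Set K) ∪ (g1 : Set K))) :=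
      fun a ha => le_locV V _ (Subring.subset_closure (Or.inl ha))
    have hf1 : EFT ((Subring.inclusion hAA1).comp f') :=
      EFT_locV V A' f' hf' g1 (Subring.inclusion hAA1) (fun a => rfl)
    refine sqx_part p hRb φ g0 S _ hA1V (locV_locV V _) ((Subring.inclusion hAA1).comp f')
      (fun c => hf'φ c) hf1 (hA0A'.trans hAA1) ?_ ?_
    · intro j
      refine hAA1 (hgA' _ ?_)
      rw [hg]
      exact Finset.mem_union_right _ (Finset.mem_union_left _
        (Finset.mem_image_of_mem _ (Finset.mem_univ _)))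
    · intro i
      have h1 : x' i ∈ A' := by
        refine hgA' _ ?_
        rw [hg]
        exact Finset.mem_union_right _ (Finset.mem_union_right _
          (Finset.mem_image_of_mem _ (Finset.mem_univ _)))
      rcases hx' i with h | h
      · left
        rw [← h]
        exact hAA1 h1
      · right
        rw [← h]
        exact hAA1 h1

end Pool.Agent.Lib.MXPB
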