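import Pool.Agent.Lib.MXP.Osc1
import Pool.Agent.Lib.MXP.Osc2
import Pool.Agent.Lib.MXP.NlX
import Pool.Agent.Lib.MXP.NFX
import Pool.Agent.Lib.MXP.StEx

set_option autoImplicit false

/-!
# Module MX.RunA: one step of the run of the `p`-step (paper 5.2)

`er_ho`: `StR S c c'`: `HO c ≤ HO c'` (`StR.HO_le`), `c.y` and `mon c.x a` are `MoH c'` (`StR.mon_moH`), so `mon c.x a * c.y ^ J` is a monomial of norm `≤ 1` times a unit of `HO c'`: in `HO c'` (`mon_mem_HO`).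
`stage_gen`: `p ∣ ` shift: `b` with `1 ≤ ‖mon c.x (a' + p • b) * c.y ^ j‖` for all exponents `(a', j)` of `P`: `exists_large` (StLdH.lean) for the support together with `(0, 0)` gives `b` with `1 ≤ ‖x^b‖` and `1 ≤ ‖x^b‖ ‖x^a' y^j‖`,
`‖x^(p b)‖ ≥ ‖x^b‖`.  `exists_st` (StEx.lean) with `X := {(a' + p • b, j)}`, `τ`: `c', e, β, w, g, G, T`, `St S c c' F e β w g G T`.  `LamP.mono`.  `E ∈ HO c'` by `hE`.
(A) `2 ≤ e * g.natDegree`: `osc1` (with `d0`, `d`) gives `α`.  If `‖mon c'.x α‖ ≤ 1`: `Gn c' z ≤ 1`, `z ∈ HO c'` (`Gn_le_one_iff`; `z ∈ HL c'`): first alternative.  Otherwise let `F' := kap c'.B`, `τ'` a section (`Gd.exists_sec`);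
`exists_nf` (NFX.lean) at `c'` for `z` with `a0 := α`, `J := d + 1`: `s, P', z'`; `er_sm` (NlX.lean): `Sm c' α i z'` for all `i ≤ d + 1`.  `osc1`: `P'.coeff (α, i) ≠ 0` for some `i < d`; `lead_min`: `Lead c'.x P' α d'`, `d' ≤ i`;
`nld_of`: `NLd p c' (gact p lam s z) α d'`: second alternative; `‖lam‖ * Gn c' s < 1` because `(‖lam‖ Gn s)^p ≤ ‖lam‖^p ‖x'^α‖ < 1`.
(B) `e * g.natDegree = 1`: `e = 1`, `g = X + C (g.coeff 0)`, `G = X + C (τ (g.coeff 0))`, `w = -τ (g.coeff 0) + c'.y`, `c'.x = c.x` (last part of `exists_st`), `kap c'.B = F` (`St.kap_eq`), `c.y = x^β w` (`St.hw`); so `St1 S c c' F β (-τ ε)`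
with `ε := g.coeff 0` (`‖-τ ε‖ = 1` as `‖w‖ = 1`, `‖c'.y‖ < 1`).  `osc2` gives `α`.  `‖mon c'.x α‖ ≤ 1`: first alternative.  Otherwise `exists_nf` at `c'` for `z` with `τ' := τ` (`Sec.mono`), `a0 := α` and `J ≥ d + 1` such that
`‖x^α‖ ‖c'.y‖^J ≤ 1` (`exists_pow_lt_of_lt_one`).  If `P'.coeff (α, i) ≠ 0` for some `i < d`: second alternative as in (A).  Otherwise `d0 = d`, `α = a + d • β`, `P'.coeff (α, d) ≠ 0`: `Lead c'.x P' α d`: third alternative.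
`run_osc`: `osc2` with `d0 := d` gives `α`.  `‖mon c'.x α‖ ≤ 1` would give `z ∈ HO c'`, against `hmn.no` (`c' := c'`, `σ := 0`, `gact_zero`).  For `s, τ', P', z'`: `osc2`; if `P'.coeff (α, i) ≠ 0` for some `i < d`: `lead_min`, `nld_of` (`Sm`
for `d' + 1 ≤ d + 1`: `er`-like: `x^α y^(d+1) e2 = x^α y^(d'+1) (y^(d-d') e2)`) contradict `hmn.min` (`d' < d`).  Otherwise `Lead c'.x P' α d` (`P'.coeff (α, i) = 0` for `i < d`).
-/

namespace Pool.Agent.Lib.MXP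

open Pool.Agent.Lib.MP_3029eb_ag Pool.Agent.Lib.MP_3029eb_ag.Abh Pool.Agent.Lib.TDO

variable {E W : Type} [Field E] [NormedField W] [IsUltrametricDist W] [Algebra E W] {r p : ℕ}
  {S : IntermediateField E W} {c c' : Tri W r} {F : Subfield (RW W)}
  [Fact ((p : W) = 0)]

/-- Minimality of `d` in the class of `z`. -/
structure Mn (p : ℕ) (S : IntermediateField E W) (lam : W) (d : ℕ) (c : Tri W r) (z : W) :
    Prop where
  no : ∀ c', RfS S c c' → ∀ σ ∈ HL c', ‖lam‖ * Gn c' σ < 1 → gact p lam σ z ∉ HO c'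
  min : ∀ c', RfS S c c' → ∀ σ ∈ HL c', ‖lam‖ * Gn c' σ < 1 → ∀ a d',
    NLd p c' (gact p lam σ z) a d' → d ≤ d'

theorem er_ho (hr : 0 < r) (h : StR S c c') {a : Fin r → ℤ} {J : ℕ} {z : W} (hz : Er c a J z)
    (h1 : ‖mon c.x a‖ * ‖c.y‖ ^ J ≤ 1) : z ∈ HO c' := by
  have _ := hr
  obtain ⟨e1, he1, e2, he2, rfl⟩ := hz
  have hm : mon c.x a * c.y ^ J ∈ HO c' := by
    have h2 := h.mon_moH a (J : ℤ)
    rw [zpow_natCast] at h2
    exact h2.mem_HO h.gd' (by rw [norm_mul, norm_pow]; exact h1)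
  exact add_mem (h.HO_le he1) (mul_mem hm (h.HO_le he2))

private theorem RunA_sm {α : Fin r → ℤ} (hc : Gd S c) {J J' : ℕ} {z : W} (h : Sm c α J z)
    (hJ : J' ≤ J) : Sm c α J' z := by
  obtain ⟨e1, he1, hG, e2, he2, rfl⟩ := h
  refine ⟨e1, he1, hG, c.y ^ (J - J') * e2, mul_mem (pow_mem (y_mem_HO hc) _) he2, ?_⟩
  have e : c.y ^ J = c.y ^ J' * c.y ^ (J - J') := by
    rw [← pow_add, Nat.add_sub_cancel' hJ]
  rw [e]
  ring

/-- From a coefficient to a lead form which is not of `p`-type. -/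
private theorem RunA_nld (hr : 0 < r) (hA : AmbX p r S) (hc : Gd S c) (hF : kap c.B = F)
    {τ : F → W} (hτ : Sec c.B F τ) {P : LP F r} {α : Fin r → ℤ} {d : ℕ} (hred : Rdp p c.x P)
    {z z' : W} (hz : z = evS τ c.x c.y P + z') (hE : Sm c α d z')
    (hP : ∀ a j, P.coeff (a, j) ≠ 0 → ‖mon c.x a‖ ≤ ‖mon c.x α‖)
    (h : ∃ i < d, P.coeff (α, i) ≠ 0) : ∃ d' < d, NLd p c z α d' := by
  obtain ⟨i, hi, hi0⟩ := h
  obtain ⟨d', hd', hl⟩ := lead_min hi0 hP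
  exact ⟨d', hd'.trans_lt hi, nld_of hr hA hc hF hτ hl hred hz (RunA_sm hc hE (by omega))⟩

theorem stage_gen (hr : 0 < r) (hA : AmbX p r S) (hc : Gd S c) (hF : kap c.B = F) {τ : F → W}
    (hτ : Sec c.B F τ) {lam : W} (hlam : LamP p c lam) {P : LP F r} (hred : Rdp p c.x P)
    {a : Fin r → ℤ} {d0 d : ℕ} (hl : Lead c.x P a d0) (hd0 : d0 ≤ d) (hd : 2 ≤ d)
    (hm : ‖lam‖ ^ p * ‖mon c.x a‖ < 1) {z z0 : W} (hz : z = evS τ c.x c.y P + z0)
    (hE : ∀ c' : Tri W r, StR S c c' → z0 ∈ HO c') :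
    ∃ c' : Tri W r, StR S c c' ∧ (z ∈ HO c' ∨
      (∃ s ∈ HL c', ‖lam‖ * Gn c' s < 1 ∧ ∃ (α : Fin r → ℤ) (d' : ℕ), d' < d ∧
        NLd p c' (gact p lam s z) α d') ∨
      (∃ (β : Fin r → ℤ) (ε : F), d0 = d ∧ St1 S c c' F β (-τ ε) ∧
        ∃ s ∈ HL c', ‖lam‖ * Gn c' s < 1 ∧ ∃ P' : LP F r, Rdp p c'.x P' ∧
          Lead c'.x P' (a + d • β) d ∧ ‖mon c'.x (a + d • β)‖ ≤ ‖mon c.x a‖ ∧
          ∃ (z' : W) (J : ℕ), gact p lam s z = evS τ c'.x c'.y P' + z' ∧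
            Er c' (a + d • β) J z' ∧ d + 1 ≤ J ∧
            ‖mon c'.x (a + d • β)‖ * ‖c'.y‖ ^ J ≤ 1)) := by
  classical
  have hp1 : 1 ≤ p := hA.prime.one_lt.le
  obtain ⟨b, hb⟩ := exists_large hr hc.ind (Gd.y_ne hA hc) (insert (0, 0) P.coeff.support)
  have hb0 : 1 ≤ ‖mon c.x b‖ := by
    have h := hb (0, 0) (Finset.mem_insert_self _ _)
    rwa [mon_zero, pow_zero, mul_one, norm_one, mul_one] at h
  obtain ⟨c', e, β, w, g, G, T, hst, hTX, hGτ, hGd, he⟩ := exists_st hr hA hc hF hτ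
    (P.coeff.support.image fun n => (n.1 + p • b, n.2)) (by
      intro n hn
      obtain ⟨m, hm1, rfl⟩ := Finset.mem_image.1 hn
      have h := hb m (Finset.mem_insert_of_mem hm1)
      rw [mon_add _ hc.ind.ne, mon_nsmul, mul_comm (mon c.x m.1), mul_assoc, norm_mul, norm_pow]
      refine h.trans (mul_le_mul_of_nonneg_right ?_ (norm_nonneg _))
      calc ‖mon c.x b‖ = ‖mon c.x b‖ ^ 1 := (pow_one _).symm
        _ ≤ ‖mon c.x b‖ ^ p := pow_le_pow_right₀ hb0 hp1)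
  have hT : ∀ a j, P.coeff (a, j) ≠ 0 → 0 ≤ (T (a + p • b, (j : ℤ))).2 := fun a j h =>
    hTX (a + p • b, j) (Finset.mem_image.2 ⟨(a, j), Finsupp.mem_support_iff.2 h, rfl⟩)
  have hR : StR S c c' := hst.stR
  have hc' := hst.gd'
  have hz0 : z0 ∈ HO c' := hE c' hR
  have hlam' : LamP p c' lam := hlam.mono (Relation.ReflTransGen.single hR)
  have hzL : z ∈ HL c' := by
    rw [hz]
    exact add_mem (RfS.HL_le hc (Relation.ReflTransGen.single hR) (evS_mem_HL hc hτ P))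
      (HO_le_HL hz0)
  have hE1 : Gn c' z0 < ‖mon c.x a * c.y ^ d0‖ ∨ Gn c' z0 ≤ 1 := Or.inr (Gn_le_one hr hA hc' hz0)
  have hgf := (St.g_facts hst).2
  have he1 := hst.e1
  refine ⟨c', hR, ?_⟩
  by_cases hef : 2 ≤ e * g.natDegree
  · obtain ⟨α, hα1, hα2, hα3⟩ := osc1 hr hA hst (fun h => (he h).2) hef hτ hred hT hl hd0 hd hlam'
      hm hz (HO_le_HL hz0) hE1
    by_cases hα : ‖mon c'.x α‖ ≤ 1
    · left
      rw [max_eq_left hα] at hα2
      exact (Gn_le_one_iff hr hA hc' hzL).1 hα2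
    · rw [not_le] at hα
      rw [max_eq_right hα.le] at hα2
      have hmα : ‖lam‖ ^ p * ‖mon c'.x α‖ < 1 :=
        (mul_le_mul_of_nonneg_left hα1 (by positivity)).trans_lt hm
      obtain ⟨τ', hτ'⟩ := Gd.exists_sec hc' (F := kap c'.B) rfl
      obtain ⟨s, hs, hGs, P', hred', hP', z', hEr, hgz⟩ := exists_nf hr hA hc' rfl hτ' hlam' hzL
        hα2 hα.le hmα (d + 1)
      have hsm : Sm c' α d z' := er_sm hr hA hc' hEr hα le_rfl (Nat.le_succ d)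
      have hex := hα3 hα s hs hGs _ τ' P' z' rfl hτ' hsm hgz fun a j h => (hP' a j h).1
      obtain ⟨d', hd', hnl⟩ := RunA_nld hr hA hc' rfl hτ' hred' hgz hsm
        (fun a j h => (hP' a j h).1) hex
      exact Or.inr (Or.inl ⟨s, hs, (wp_bound hr hA hc' hlam' hs hα hmα hGs).1, α, d', hd', hnl⟩)
  · have hef1 : e * g.natDegree = 1 := by
      have h3 : 0 < e * g.natDegree := Nat.mul_pos (by omega) (by omega)
      omega
    have he1' : e = 1 := Nat.eq_one_of_mul_eq_one_right hef1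
    have hg1 : g.natDegree = 1 := Nat.eq_one_of_mul_eq_one_left hef1
    obtain ⟨hcx, hTT⟩ := he he1'
    have hw := hst.hw
    rw [he1', pow_one] at hw
    have hGw : c'.y = w + τ (g.coeff 0) := by
      have h3 := hst.Gm.eq_X_add_C (hGd.trans hg1)
      rw [hst.hy, h3, Polynomial.eval_add, Polynomial.eval_X, Polynomial.eval_C, hGτ 0 (by omega)]
    have hwe : w = -τ (g.coeff 0) + c'.y := by
      rw [hGw]
      ring
    have hn1 : ‖-τ (g.coeff 0)‖ = 1 := by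
      have h3 : -τ (g.coeff 0) = w - c'.y := by
        rw [hGw]
        ring
      rw [h3, sub_eq_add_neg, IsUltrametricDist.norm_add_eq_max_of_norm_ne_norm
        (by rw [hst.w1, norm_neg]; exact hc'.y1.ne'), hst.w1, norm_neg, max_eq_left hc'.y1.le]
    have hst1 : St1 S c c' F β (-τ (g.coeff 0)) :=
      { st := hR
        hx := hcx
        hF := hF
        hF' := hst.kap_eq hr hg1
        e0B := neg_mem (hτ.mem _)
        e01 := hn1
        hy := by rw [← hwe]; exact hw }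
    obtain ⟨α, hα1, -, hα2, hα3⟩ := osc2 hr hA hst1 hτ hred hl hd0 (by omega) hlam' hm hz
      (HO_le_HL hz0) hE1
    by_cases hα : ‖mon c'.x α‖ ≤ 1
    · left
      rw [max_eq_left hα] at hα2
      exact (Gn_le_one_iff hr hA hc' hzL).1 hα2
    · rw [not_le] at hα
      rw [max_eq_right hα.le] at hα2
      have hmα : ‖lam‖ ^ p * ‖mon c'.x α‖ < 1 :=
        (mul_le_mul_of_nonneg_left hα1 (by positivity)).trans_lt hm
      have hτ' : Sec c'.B F τ := hτ.mono hst.B_le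
      have hα0 : 0 < ‖mon c'.x α‖ := lt_trans one_pos hα
      obtain ⟨J0, hJ0⟩ := exists_pow_lt_of_lt_one (inv_pos.2 hα0) hc'.y1
      have hJ : ‖mon c'.x α‖ * ‖c'.y‖ ^ (max J0 (d + 1)) ≤ 1 := by
        have h3 : ‖c'.y‖ ^ (max J0 (d + 1)) ≤ ‖c'.y‖ ^ J0 :=
          pow_le_pow_of_le_one (norm_nonneg _) hc'.y1.le (le_max_left _ _)
        have h4 : ‖c'.y‖ ^ (max J0 (d + 1)) ≤ ‖mon c'.x α‖⁻¹ := h3.trans hJ0.le
        calc ‖mon c'.x α‖ * ‖c'.y‖ ^ (max J0 (d + 1)) ≤ ‖mon c'.x α‖ * ‖mon c'.x α‖⁻¹ :=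
              mul_le_mul_of_nonneg_left h4 hα0.le
          _ = 1 := mul_inv_cancel₀ hα0.ne'
      obtain ⟨s, hs, hGs, P', hred', hP', z', hEr, hgz⟩ := exists_nf hr hA hc' hst1.hF' hτ' hlam'
        hzL hα2 hα.le hmα (max J0 (d + 1))
      have hsm : Sm c' α (d + 1) z' := er_sm hr hA hc' hEr hα le_rfl (le_max_right _ _)
      have hPα : ∀ a j, P'.coeff (a, j) ≠ 0 → ‖mon c'.x a‖ ≤ ‖mon c'.x α‖ :=
        fun a j h => (hP' a j h).1
      have hls := (wp_bound hr hA hc' hlam' hs hα hmα hGs).1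
      by_cases hex : ∃ i < d, P'.coeff (α, i) ≠ 0
      · obtain ⟨d', hd', hnl⟩ := RunA_nld hr hA hc' hst1.hF' hτ' hred' hgz
          (RunA_sm hc' hsm (Nat.le_succ d)) hPα hex
        exact Or.inr (Or.inl ⟨s, hs, hls, α, d', hd', hnl⟩)
      · rcases hα3 hα s hs hGs τ P' z' hτ' hsm hgz hPα with h3 | ⟨h3, h4, h5, -⟩
        · exact absurd h3 hex
        · subst h4
          refine Or.inr (Or.inr ⟨β, g.coeff 0, h3, hst1, s, hs, hls, P', hred', ⟨h5, hPα, ?_⟩, hα1,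
            z', max J0 (d + 1), hgz, hEr, le_max_right _ _, hJ⟩)
          intro j hj
          by_contra hlt
          exact hex ⟨j, not_le.1 hlt, hj⟩

theorem run_osc (hr : 0 < r) (hA : AmbX p r S) {β : Fin r → ℤ} {e0 : W}
    (h : St1 S c c' F β e0) {τ : F → W} (hτ : Sec c.B F τ) {P : LP F r}
    (hred : Rdp p c.x P) {a : Fin r → ℤ} {d : ℕ} (hl : Lead c.x P a d) (hd : 2 ≤ d)
    {lam : W} (hlam : LamP p c' lam) (hm : ‖lam‖ ^ p * ‖mon c.x a‖ < 1) {z z0 : W}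
    (hz : z = evS τ c.x c.y P + z0) (hE : z0 ∈ HL c')
    (hE1 : Gn c' z0 < ‖mon c.x a * c.y ^ d‖ ∨ Gn c' z0 ≤ 1) (hmn : Mn p S lam d c' z) :
    ∃ α : Fin r → ℤ, 1 < ‖mon c'.x α‖ ∧ ‖mon c'.x α‖ ≤ ‖mon c.x a‖ ∧
      (∀ a j, P.coeff (a, j) ≠ 0 → ‖mon c.x a * c.y ^ j‖ ≤ ‖mon c'.x α‖) ∧
      Gn c' z ≤ ‖mon c'.x α‖ ∧
      ∀ s ∈ HL c', Gn c' s ^ p ≤ ‖mon c'.x α‖ → ∀ (τ' : F → W) (P' : LP F r) (z' : W),
        Sec c'.B F τ' → Rdp p c'.x P' → Sm c' α (d + 1) z' →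
        gact p lam s z = evS τ' c'.x c'.y P' + z' →
        (∀ a j, P'.coeff (a, j) ≠ 0 → ‖mon c'.x a‖ ≤ ‖mon c'.x α‖) →
          α = a + d • β ∧ Lead c'.x P' α d ∧
            (P.coeff (a + d • β, 0) ≠ 0 ∨ P.coeff (a + (d - 1) • β, 1) ≠ 0) := by
  have hc := h.st.gd
  have hc' := h.st.gd'
  have hzL : z ∈ HL c' := by
    rw [hz]
    exact add_mem (RfS.HL_le hc (Relation.ReflTransGen.single h.st) (evS_mem_HL hc hτ P)) hE
  obtain ⟨α, hα1, hα4, hα2, hα3⟩ := osc2 hr hA h hτ hred hl le_rfl (by omega) hlam hm hz hE hE1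
  have hα : 1 < ‖mon c'.x α‖ := by
    by_contra hne
    rw [max_eq_left (not_lt.1 hne)] at hα2
    refine hmn.no c' Relation.ReflTransGen.refl 0 (zero_mem _) ?_ ?_
    · rw [Gn_zero hr hA hc', mul_zero]
      exact one_pos
    · rw [gact_zero hA.prime.ne_zero]
      exact (Gn_le_one_iff hr hA hc' hzL).1 hα2
  rw [max_eq_right hα.le] at hα2
  have hmα : ‖lam‖ ^ p * ‖mon c'.x α‖ < 1 :=
    (mul_le_mul_of_nonneg_left hα1 (by positivity)).trans_lt hm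
  refine ⟨α, hα, hα1, hα4, hα2, ?_⟩
  intro s hs hGs τ' P' z' hτ' hred' hsm hgz hPα
  have hls := (wp_bound hr hA hc' hlam hs hα hmα hGs).1
  have hex : ¬ ∃ i < d, P'.coeff (α, i) ≠ 0 := by
    intro hex
    obtain ⟨d', hd', hnl⟩ := RunA_nld hr hA hc' h.hF' hτ' hred' hgz
      (RunA_sm hc' hsm (Nat.le_succ d)) hPα hex
    exact absurd (hmn.min c' Relation.ReflTransGen.refl s hs hls α d' hnl) (not_le.2 hd')
  rcases hα3 hα s hs hGs τ' P' z' hτ' hsm hgz hPα with h3 | ⟨-, h4, h5, h6⟩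
  · exact absurd h3 hex
  · refine ⟨h4, ⟨h5, hPα, ?_⟩, h6⟩
    intro j hj
    by_contra hlt
    exact hex ⟨j, not_le.1 hlt, hj⟩

end Pool.Agent.Lib.MXP
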