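import Pool.Agent.Lib.MXP.GactX

set_option autoImplicit false

/-!
# Module MX.SubS: substitution of a stage with `e = f = 1` (paper 3.3, 5.3)

`exists_eps`: `Gd.strict`/`Gd.ex`: `c.B ≤ B1 := Bx c.B x1`, `⟨B1, x1, c.y⟩` strictly good: `m = ∑ b_i x1_i + b0 y` (`Gs.gen`) with `b_i, b0 ∈ B1 ≤ HO c ≤ HO c'` (`Gn ≤ 1`), `x1_i, y ∈ HO c` have norm `< 1`, so are in
`QH c'` (`St.lt_one`, `RfS.lt_one`): `Gn c' < 1`.  `ε := max` of the finitely many `Gn c' (x1_i)`, `Gn c' y` and `1/2`.  For `c''`: `RfS.Gn_le` (`m ∈ HL c'`).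
`subS`: `T := shr β`.  `w := e0 + c'.y`.  As in `evS_parts` (StLd.lean): `evS τ x y P = ∑_(α ∈ A) x^α (tl τ φ_α).eval w`, `A` the set of the exponents `a + j β`, `φ_α := part (shr β) P α` (for the exponents `(a, j)` of `P`:
`x^a y^j = x^(a + jβ) w^j`).  `(tl τ φ_α).eval w = (taylor e0 (tl τ φ_α)).eval c'.y`; the polynomial `taylor e0 (tl τ φ)` has coefficients in `B0` and reduction `taylor eb φ` (`Rd`, coefficientwise: `taylor_coeff`,
or `Rd` for sums of products: `Polynomial.taylor_eval`, `hasseDeriv`; e.g. `taylor e0 Q = Q.comp (X + C e0)`, a sum of `C (τ q_n) * (X + C e0)^n`: `Rd.mul`, `Rd.pow`, `Rd.add`).  So its coefficient `i` differs from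
`τ ((taylor eb φ).coeff i)` by an element of `B0` of norm `< 1`: `Gn c' ≤ ε`.  `P'` by `exists_LP` over `A ×ˢ range N` with `φ := id`; `Gn c' (x^α y'^i m) ≤ ‖x^α‖ ε`; `Gn_sum_le`.
`0 ≤ ε` from `m = 0`.
-/

namespace Pool.Agent.Lib.MXP

open Pool.Agent.Lib.MP_3029eb_ag Pool.Agent.Lib.MP_3029eb_ag.Abh Pool.Agent.Lib.TDO

variable {E W : Type} [Field E] [NormedField W] [IsUltrametricDist W] [Algebra E W] {r p : ℕ}
  {S : IntermediateField E W} {c c' : Tri W r} {F : Subfield (RW W)}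

private lemma SubS_max {ι : Type} (s : Finset ι) (f : ι → ℝ) (h : ∀ i ∈ s, f i < 1) :
    ∃ ε : ℝ, 0 < ε ∧ ε < 1 ∧ ∀ i ∈ s, f i ≤ ε := by
  classical
  induction s using Finset.induction_on with
  | empty => exact ⟨1 / 2, by norm_num, by norm_num, fun i hi => absurd hi (Finset.notMem_empty i)⟩
  | insert a s ha ih =>
    obtain ⟨ε, h0, h1, h2⟩ := ih fun i hi => h i (Finset.mem_insert_of_mem hi)
    refine ⟨max ε (f a), lt_of_lt_of_le h0 (le_max_left _ _),
      max_lt h1 (h a (Finset.mem_insert_self a s)), fun i hi => ?_⟩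
    rcases Finset.mem_insert.1 hi with rfl | hi
    · exact le_max_right _ _
    · exact (h2 i hi).trans (le_max_left _ _)

theorem exists_eps (hr : 0 < r) (hA : AmbX p r S) (h : StR S c c') :
    ∃ ε : ℝ, 0 < ε ∧ ε < 1 ∧ ∀ c'' : Tri W r, RfS S c' c'' → ∀ m ∈ c.B, ‖m‖ < 1 →
      Gn c'' m ≤ ε := by
  classical
  have hc := h.gd
  have hc' := h.gd'
  obtain ⟨x1, hx1, hs⟩ := hc.ex
  have hlt : ∀ z ∈ HO c, ‖z‖ < 1 → Gn c' z < 1 := fun z hz hz1 =>
    (Gn_lt_one_iff hr hA hc' (HO_le_HL (h.HO_le hz))).2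
      (RfS.lt_one hr h Relation.ReflTransGen.refl hz hz1)
  have hx1m : ∀ i, x1 i ∈ HO c := fun i => Bx_mem_HO hc hx1 (x_mem_Bx i)
  obtain ⟨ε1, h10, h11, h12⟩ := SubS_max (Finset.univ : Finset (Fin r)) (fun i => Gn c' (x1 i))
    (fun i _ => hlt _ (hx1m i) (hx1.ind.lt i))
  have hy1 : Gn c' c.y < 1 := hlt _ (y_mem_HO hc) hc.y1
  have hε0 : 0 < max ε1 (Gn c' c.y) := lt_of_lt_of_le h10 (le_max_left _ _)
  refine ⟨max ε1 (Gn c' c.y), hε0, max_lt h11 hy1, ?_⟩
  intro c'' hR m hm hm1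
  have hc'' := hR.gd hc'
  have hmB : m ∈ Bx c.B x1 := le_Bx hm
  obtain ⟨b, b0, hb, hb0, hmeq⟩ := hs.gen m hmB hm1
  have hHO : ∀ z ∈ HO c, z ∈ HO c'' := fun z hz => hR.HO_le (h.HO_le hz)
  have hle1 : ∀ z ∈ HO c, Gn c'' z ≤ 1 := fun z hz =>
    (Gn_le_one_iff hr hA hc'' (HO_le_HL (hHO z hz))).2 (hHO z hz)
  have key : ∀ z ∈ HO c, ∀ u ∈ HO c, Gn c' u ≤ max ε1 (Gn c' c.y) →
      Gn c'' (z * u) ≤ max ε1 (Gn c' c.y) := by
    intro z hz u hu hu1
    rw [Gn_mul hr hA hc'' (HO_le_HL (hHO z hz)) (HO_le_HL (hHO u hu))]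
    have h1 : Gn c'' u ≤ Gn c' u := hR.Gn_le hr hA hc' (HO_le_HL (h.HO_le hu))
    calc Gn c'' z * Gn c'' u ≤ 1 * Gn c'' u :=
          mul_le_mul_of_nonneg_right (hle1 z hz) (Gn_nonneg u)
      _ = Gn c'' u := one_mul _
      _ ≤ max ε1 (Gn c' c.y) := h1.trans hu1
  have hbm : ∀ i, b i ∈ HO c := fun i => Bx_mem_HO hc hx1 (hb i)
  have hb0m : b0 ∈ HO c := Bx_mem_HO hc hx1 hb0
  have hsum : Gn c'' (∑ i, b i * x1 i) ≤ max ε1 (Gn c' c.y) := by
    refine Gn_sum_le hr hA hc'' Finset.univ (fun i => b i * x1 i) (fun i _ => ?_) hε0.le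
      (fun i _ => ?_)
    · exact HO_le_HL (hHO _ (mul_mem (hbm i) (hx1m i)))
    · exact key _ (hbm i) _ (hx1m i) ((h12 i (Finset.mem_univ i)).trans (le_max_left _ _))
  have hy : Gn c'' (b0 * c.y) ≤ max ε1 (Gn c' c.y) :=
    key _ hb0m _ (y_mem_HO hc) (le_max_right _ _)
  have hsm : ∑ i, b i * x1 i ∈ HL c'' :=
    sum_mem fun i _ => HO_le_HL (hHO _ (mul_mem (hbm i) (hx1m i)))
  have hym : b0 * c.y ∈ HL c'' := HO_le_HL (hHO _ (mul_mem hb0m (y_mem_HO hc)))
  rw [hmeq]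
  exact (Gn_add_le hr hA hc'' hsm hym).trans (max_le hsum hy)

section aux

open Polynomial

variable {τ : F → W}

private lemma SubS_rdC {z : W} {q : F} (h1 : ‖z‖ ≤ 1) (h2 : rs z = (q : RW W)) :
    Rd (C z : W[X]) (C q : F[X]) := fun j => by
  rw [coeff_C, coeff_C]
  split_ifs
  · exact ⟨h1, h2⟩
  · exact ⟨by rw [norm_zero]; exact zero_le_one, rs_zero⟩

private lemma SubS_rdX : Rd (X : W[X]) (X : F[X]) := fun j => by
  rw [coeff_X, coeff_X]
  split_ifs
  · exact ⟨by rw [norm_one], rs_one⟩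
  · exact ⟨by rw [norm_zero]; exact zero_le_one, rs_zero⟩

private lemma SubS_rd0 : Rd (0 : W[X]) (0 : F[X]) := fun j => by
  rw [coeff_zero, coeff_zero]
  exact ⟨by rw [norm_zero]; exact zero_le_one, rs_zero⟩

private lemma SubS_rdsum {ι : Type} (s : Finset ι) (f : ι → W[X]) (g : ι → F[X])
    (h : ∀ i ∈ s, Rd (f i) (g i)) : Rd (∑ i ∈ s, f i) (∑ i ∈ s, g i) := by
  classical
  induction s using Finset.induction_on with
  | empty => rw [Finset.sum_empty, Finset.sum_empty]; exact SubS_rd0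
  | insert a s ha ih =>
    rw [Finset.sum_insert ha, Finset.sum_insert ha]
    exact (h a (Finset.mem_insert_self a s)).add (ih fun i hi => h i (Finset.mem_insert_of_mem hi))

private lemma SubS_rd_comp {P P' : W[X]} {Q Q' : F[X]} (h : Rd P Q) (h' : Rd P' Q') :
    Rd (P.comp P') (Q.comp Q') := by
  obtain ⟨N, hN⟩ : ∃ N : ℕ, N = max P.natDegree Q.natDegree + 1 := ⟨_, rfl⟩
  have hN1 : P.natDegree < N := by omega
  have hN2 : Q.natDegree < N := by omega
  have e1 : P.comp P' = ∑ i ∈ Finset.range N, C (P.coeff i) * P' ^ i :=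
    eval₂_eq_sum_range' C hN1 P'
  have e2 : Q.comp Q' = ∑ i ∈ Finset.range N, C (Q.coeff i) * Q' ^ i :=
    eval₂_eq_sum_range' C hN2 Q'
  rw [e1, e2]
  exact SubS_rdsum _ _ _ fun i _ => (SubS_rdC (h i).1 (h i).2).mul (h'.pow i)

private lemma SubS_pB_comp {B : Subring W} {P P' : W[X]} (hP : ∀ j, P.coeff j ∈ B)
    (hP' : ∀ j, P'.coeff j ∈ B) : ∀ j, (P.comp P').coeff j ∈ B := by
  intro j
  have e1 : P.comp P' = ∑ i ∈ Finset.range (P.natDegree + 1), C (P.coeff i) * P' ^ i :=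
    eval₂_eq_sum_range' C (Nat.lt_succ_self _) P'
  rw [e1, Polynomial.finsetSum_coeff]
  exact sum_mem fun i _ => pB_mul (pB_C (hP i)) (pB_pow hP' i) j

/-- The value of `P` in terms of the parts. -/
private lemma SubS_parts (h0 : τ 0 = 0) {x : Fin r → W} (hx : ∀ i, x i ≠ 0) (β : Fin r → ℤ)
    (w : W) (P : LP F r) :
    evS τ x (mon x β * w) P =
      ∑ b ∈ P.coeff.support.image (fun n => n.1 + n.2 • β),
        mon x b * (tl τ (part (shr β) P b)).eval w := by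
  classical
  have hT : ∀ a j, P.coeff (a, j) ≠ 0 → 0 ≤ (shr β (a, (j : ℤ))).2 := fun a j _ =>
    Int.natCast_nonneg j
  have hT1 : ∀ (a : Fin r → ℤ) (j : ℕ), (shr β (a, (j : ℤ))).1 = a + j • β := fun a j => by
    rw [shr_apply, natCast_zsmul]
  have hT2 : ∀ (a : Fin r → ℤ) (j : ℕ), (shr β (a, (j : ℤ))).2.toNat = j := fun a j => by
    rw [shr_apply]
    exact Int.toNat_natCast j
  have key : ∀ b, mon x b * (tl τ (part (shr β) P b)).eval w =
      ∑ n ∈ P.coeff.support.filter (fun n => n.1 + n.2 • β = b),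
        τ (P.coeff n) * (mon x n.1 * (mon x β * w) ^ n.2) := by
    intro b
    rw [tl_eval h0, Finset.mul_sum]
    symm
    refine Finset.sum_nbij (fun n => n.2) ?_ ?_ ?_ ?_
    · intro n hn
      rw [Finset.mem_filter, Finsupp.mem_support_iff] at hn
      have h1 := part_coeff (shr β) P hT n.1 n.2 hn.1
      rw [hT1, hT2, hn.2] at h1
      rw [mem_support_iff, h1]
      exact hn.1
    · intro n hn n' hn' hnn
      rw [Finset.mem_coe, Finset.mem_filter, Finsupp.mem_support_iff] at hn hn'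
      have hnn' : n.2 = n'.2 := hnn
      have h3 : n.1 + n'.2 • β = n'.1 + n'.2 • β := by
        rw [hn'.2, ← hnn', hn.2]
      exact Prod.ext (add_right_cancel h3) hnn'
    · intro j hj
      rw [Finset.mem_coe, mem_support_iff] at hj
      obtain ⟨a, i, h1, h2⟩ := part_coeff_ne (shr β) P hT b j hj
      have h3 : a + i • β = b := by
        rw [← hT1, h2]
      have h4 : i = j := by
        rw [← hT2 a i, h2]
        exact Int.toNat_natCast j
      refine ⟨(a, i), ?_, h4⟩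
      rw [Finset.mem_coe, Finset.mem_filter, Finsupp.mem_support_iff]
      exact ⟨h1, h3⟩
    · intro n hn
      rw [Finset.mem_filter, Finsupp.mem_support_iff] at hn
      have h1 := part_coeff (shr β) P hT n.1 n.2 hn.1
      rw [hT1, hT2, hn.2] at h1
      rw [h1, ← hn.2, mon_add x hx, mon_nsmul, mul_pow]
      ring
  rw [Finset.sum_congr rfl fun b _ => key b]
  rw [Finset.sum_fiberwise_of_maps_to (fun n hn => Finset.mem_image_of_mem _ hn)]
  rfl

end aux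

theorem subS (hr : 0 < r) (hA : AmbX p r S) (hc' : Gd S c') {B0 : Subring W}
    (hB0 : ∀ z ∈ B0, z ∈ HO c') {τ : F → W} (hτ : Sec B0 F τ) {ε : ℝ}
    (hε : ∀ m ∈ B0, ‖m‖ < 1 → Gn c' m ≤ ε) {β : Fin r → ℤ} {e0 : W} (he0 : e0 ∈ B0)
    {eb : F} (heb : rs e0 = (eb : RW W)) {y : W} (hy : y = mon c'.x β * (e0 + c'.y))
    (P : LP F r) :
    ∃ P' : LP F r,
      (∀ α i, P'.coeff (α, i) = (Polynomial.taylor eb (part (shr β) P α)).coeff i) ∧
      evS τ c'.x y P - evS τ c'.x c'.y P' ∈ HL c' ∧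
      ∀ M : ℝ, 0 ≤ M → (∀ a j, P.coeff (a, j) ≠ 0 → ‖mon c'.x (a + j • β)‖ ≤ M) →
        Gn c' (evS τ c'.x y P - evS τ c'.x c'.y P') ≤ ε * M := by
  classical
  have hx := hc'.ind
  have hε0 : 0 ≤ ε := by
    have h1 := hε 0 (zero_mem _) (by rw [norm_zero]; exact one_pos)
    rwa [Gn_zero hr hA hc'] at h1
  have hT : ∀ a j, P.coeff (a, j) ≠ 0 → 0 ≤ (shr β (a, (j : ℤ))).2 := fun a j _ =>
    Int.natCast_nonneg j
  have hT1 : ∀ (a : Fin r → ℤ) (j : ℕ), (shr β (a, (j : ℤ))).1 = a + j • β := fun a j => by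
    rw [shr_apply, natCast_zsmul]
  obtain ⟨A, hAdef⟩ : ∃ A : Finset (Fin r → ℤ),
      A = P.coeff.support.image (fun n => n.1 + n.2 • β) := ⟨_, rfl⟩
  obtain ⟨Q, hQ⟩ : ∃ Q : (Fin r → ℤ) → Polynomial F,
      Q = fun b => Polynomial.taylor eb (part (shr β) P b) := ⟨_, rfl⟩
  obtain ⟨R, hR⟩ : ∃ R : (Fin r → ℤ) → Polynomial W,
      R = fun b => Polynomial.taylor e0 (tl τ (part (shr β) P b)) := ⟨_, rfl⟩
  -- the coefficients of `R b`
  have hXe : ∀ j, (Polynomial.X + Polynomial.C e0 : Polynomial W).coeff j ∈ B0 :=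
    pB_add pB_X (pB_C he0)
  have hRB : ∀ b j, (R b).coeff j ∈ B0 := by
    intro b j
    rw [hR]
    dsimp only
    rw [Polynomial.taylor_apply]
    exact SubS_pB_comp (tl_mem hτ _) hXe j
  have he01 : ‖e0‖ ≤ 1 := HO_norm_le hc' (hB0 e0 he0)
  have hRrd : ∀ b, Rd (R b) (Q b) := by
    intro b
    rw [hR, hQ]
    dsimp only
    rw [Polynomial.taylor_apply, Polynomial.taylor_apply]
    exact SubS_rd_comp (tl_rd hτ _) (SubS_rdX.add (SubS_rdC he01 heb))
  -- a common bound of the degrees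
  obtain ⟨N, hN⟩ : ∃ N : ℕ, ∀ b ∈ A, (R b).natDegree < N ∧ (Q b).natDegree < N := by
    refine ⟨A.sup (fun b => max (R b).natDegree (Q b).natDegree) + 1, fun b hb => ?_⟩
    have h1 : max (R b).natDegree (Q b).natDegree ≤
        A.sup (fun b => max (R b).natDegree (Q b).natDegree) :=
      Finset.le_sup (f := fun b => max (R b).natDegree (Q b).natDegree) hb
    constructor
    · exact Nat.lt_succ_of_le ((le_max_left _ _).trans h1)
    · exact Nat.lt_succ_of_le ((le_max_right _ _).trans h1)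
  obtain ⟨P', h1, h2, h3⟩ := exists_LP hτ.zero c'.x c'.y (A ×ˢ Finset.range N) (fun b => b)
    (fun _ _ _ _ h => h) (fun b => (Q b.1).coeff b.2)
  have hPQ : ∀ α i, P'.coeff (α, i) = (Q α).coeff i := by
    intro α i
    by_cases hmem : (α, i) ∈ A ×ˢ Finset.range N
    · exact h1 (α, i) hmem
    · have h4 : P'.coeff (α, i) = 0 := by
        by_contra hne
        obtain ⟨b, hb, hbe, -⟩ := h2 _ hne
        rw [hbe] at hb
        exact hmem hb
      rw [h4]
      symm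
      by_cases hα : α ∈ A
      · refine Polynomial.coeff_eq_zero_of_natDegree_lt ?_
        have h5 : ¬ i < N := fun hi =>
          hmem (Finset.mem_product.2 ⟨hα, Finset.mem_range.2 hi⟩)
        have h6 := (hN α hα).2
        omega
      · have h5 : part (shr β) P α = 0 := by
          refine Polynomial.ext fun n => ?_
          rw [Polynomial.coeff_zero]
          by_contra hne
          obtain ⟨a, j, h6, h7⟩ := part_coeff_ne (shr β) P hT α n hne
          apply hα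
          rw [hAdef, Finset.mem_image]
          refine ⟨(a, j), Finsupp.mem_support_iff.2 h6, ?_⟩
          show a + j • β = α
          rw [← hT1, h7]
        rw [hQ]
        dsimp only
        rw [h5, map_zero, Polynomial.coeff_zero]
  -- the difference
  have hev : evS τ c'.x y P = ∑ b ∈ A ×ˢ Finset.range N,
      mon c'.x b.1 * ((R b.1).coeff b.2 * c'.y ^ b.2) := by
    rw [hy, SubS_parts hτ.zero hx.ne β (e0 + c'.y) P, Finset.sum_product, hAdef]
    refine Finset.sum_congr rfl fun b hb => ?_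
    dsimp only
    rw [← Finset.mul_sum]
    congr 1
    have h4 : (R b).eval c'.y = (tl τ (part (shr β) P b)).eval (e0 + c'.y) := by
      rw [hR]
      dsimp only
      rw [Polynomial.taylor_eval, add_comm c'.y e0]
    rw [← h4]
    refine Polynomial.eval_eq_sum_range' (hN b ?_).1 c'.y
    rw [hAdef]
    exact hb
  have hdiff : evS τ c'.x y P - evS τ c'.x c'.y P' = ∑ b ∈ A ×ˢ Finset.range N,
      mon c'.x b.1 * (((R b.1).coeff b.2 - τ ((Q b.1).coeff b.2)) * c'.y ^ b.2) := by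
    rw [hev, h3, ← Finset.sum_sub_distrib]
    refine Finset.sum_congr rfl fun b _ => ?_
    ring
  have hdB : ∀ b : (Fin r → ℤ) × ℕ, (R b.1).coeff b.2 - τ ((Q b.1).coeff b.2) ∈ B0 := fun b =>
    sub_mem (hRB _ _) (hτ.mem _)
  have hd1 : ∀ b : (Fin r → ℤ) × ℕ, ‖(R b.1).coeff b.2 - τ ((Q b.1).coeff b.2)‖ < 1 := fun b =>
    (rs_eq_iff (hRrd b.1 b.2).1 (hτ.norm _)).1 (by rw [(hRrd b.1 b.2).2, hτ.rs])
  have hym : ∀ i, c'.y ^ i ∈ HO c' := fun i => pow_mem (y_mem_HO hc') i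
  have hdm : ∀ b : (Fin r → ℤ) × ℕ,
      ((R b.1).coeff b.2 - τ ((Q b.1).coeff b.2)) * c'.y ^ b.2 ∈ HO c' := fun b =>
    mul_mem (hB0 _ (hdB b)) (hym _)
  have hterm : ∀ b : (Fin r → ℤ) × ℕ,
      mon c'.x b.1 * (((R b.1).coeff b.2 - τ ((Q b.1).coeff b.2)) * c'.y ^ b.2) ∈ HL c' :=
    fun b => mul_mem (mon_mem_HL _) (HO_le_HL (hdm b))
  refine ⟨P', fun α i => by rw [hPQ, hQ], ?_, ?_⟩
  · rw [hdiff]
    exact sum_mem fun b _ => hterm b
  · intro M hM hM'
    rw [hdiff]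
    refine Gn_sum_le hr hA hc' _ _ (fun b _ => hterm b) (mul_nonneg hε0 hM) fun b hb => ?_
    rw [Gn_mul hr hA hc' (mon_mem_HL _) (HO_le_HL (hdm b)), Gn_mon hr hA hc',
      Gn_mul hr hA hc' (HO_le_HL (hB0 _ (hdB b))) (HO_le_HL (hym _))]
    have h4 : Gn c' ((R b.1).coeff b.2 - τ ((Q b.1).coeff b.2)) ≤ ε := hε _ (hdB b) (hd1 b)
    have h5 : Gn c' (c'.y ^ b.2) ≤ 1 := (Gn_le_one_iff hr hA hc' (HO_le_HL (hym _))).2 (hym _)
    have h6 : Gn c' ((R b.1).coeff b.2 - τ ((Q b.1).coeff b.2)) * Gn c' (c'.y ^ b.2) ≤ ε := by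
      calc Gn c' ((R b.1).coeff b.2 - τ ((Q b.1).coeff b.2)) * Gn c' (c'.y ^ b.2)
          ≤ ε * 1 := mul_le_mul h4 h5 (Gn_nonneg _) hε0
        _ = ε := mul_one ε
    have hb1 := (Finset.mem_product.1 hb).1
    rw [hAdef, Finset.mem_image] at hb1
    obtain ⟨n, hn, hnb⟩ := hb1
    have h7 : ‖mon c'.x b.1‖ ≤ M := by
      rw [← hnb]
      exact hM' n.1 n.2 (Finsupp.mem_support_iff.1 hn)
    calc ‖mon c'.x b.1‖ * (Gn c' ((R b.1).coeff b.2 - τ ((Q b.1).coeff b.2)) *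
          Gn c' (c'.y ^ b.2)) ≤ M * ε :=
          mul_le_mul h7 h6 (mul_nonneg (Gn_nonneg _) (Gn_nonneg _)) hM
      _ = ε * M := mul_comm _ _

/-- The support of the result of `subS`. -/
theorem sub_supp {β : Fin r → ℤ} {eb : F} {P P' : LP F r}
    (h : ∀ α i, P'.coeff (α, i) = (Polynomial.taylor eb (part (shr β) P α)).coeff i)
    {a' : Fin r → ℤ} {i : ℕ} (hi : P'.coeff (a', i) ≠ 0) :
    ∃ a j, P.coeff (a, j) ≠ 0 ∧ i ≤ j ∧ a' = a + j • β := by
  classical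
  rw [h] at hi
  have hT : ∀ a j, P.coeff (a, j) ≠ 0 → 0 ≤ (shr β (a, (j : ℤ))).2 := fun a j _ =>
    Int.natCast_nonneg j
  have h0 : part (shr β) P a' ≠ 0 := by
    intro h0
    rw [h0, map_zero, Polynomial.coeff_zero] at hi
    exact hi rfl
  have h1 : i ≤ (part (shr β) P a').natDegree := by
    have h2 := Polynomial.le_natDegree_of_ne_zero hi
    rwa [Polynomial.natDegree_taylor] at h2
  have h2 : (part (shr β) P a').coeff (part (shr β) P a').natDegree ≠ 0 := by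
    rw [Polynomial.coeff_natDegree]
    exact Polynomial.leadingCoeff_ne_zero.2 h0
  obtain ⟨a, j, h3, h4⟩ := part_coeff_ne (shr β) P hT a' _ h2
  rw [shr_apply, Prod.mk.injEq, Nat.cast_inj] at h4
  refine ⟨a, j, h3, by omega, ?_⟩
  rw [← h4.1, natCast_zsmul]

end Pool.Agent.Lib.MXP
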