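import Pool.Agent.Lib.MXP.CharX
import Pool.Agent.Lib.TU.RedU

set_option autoImplicit false

/-!
# Module MX.TrkX: reduction of Laurent polynomials modulo negligible elements (paper 5.3)

`Ng c γ z`: `z` is negligible.  Negligible elements form a group (`Gn_add_le`, `Gn_neg`).  `0 ≤ ε` (`m = 0`), `ε < 1` (`hlμ`: `ε^p < ..`: use `hε1`).
(1) ADDITIVITY: for `P, Q` with exponents of norm `≤ μ`: `evS τ x y (P + Q) - evS τ x y P - evS τ x y Q` has `Gn c ≤ ε μ < γ`: (`evS_eq_sum`, ExpA.lean, over the union of the supports) each term is `m x^a y^j` with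
`m = τ (u + v) - τ u - τ v ∈ B0`, `‖m‖ < 1` (`rs_add`), `Gn c m ≤ ε`, `Gn c (x^a y^j) ≤ ‖x^a‖`; `Gn_sum_le`.
(2) DROP: terms with `‖x^a‖ < γ` or `‖x^a‖ ≤ 1` are negligible: remove them (`Finsupp.filter`, compare `exists_dropU` in TU/RedU.lean).
(3) ONE REDUCTION: `P.coeff (p a', p j') = b^p ≠ 0`, `1 < ‖x^(p a')‖ ≤ μ`: `s0 := - τ b * x^a' y^j'`, `Gn c s0 = ‖x^a'‖`, `Gn c s0 ^ p ≤ μ`, `‖lam‖ Gn c s0 ≤ ε` (`(‖lam‖ Gn s0)^p ≤ ‖lam‖^p μ ≤ ε^p`), `1 < ‖x^a'‖ < μ`.  With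
`u := p / lam^(p-1)`, `wp_eq` (GactX.lean): `gact z = z + s0^p + u s0 + u ∑_(2 ≤ k < p) n_k lam^(k-1) s0^k + wp s0 * (lam^p z)`.  `s0^p = - τ (b^p) x^(pa') y^(pj') + (Gn ≤ ε μ)` (`(-τ b)^p + τ(b^p) ∈ B0` has norm `< 1` in
characteristic `p`); `u s0 = τ b x^a' y^j' - (u + 1) τ b x^a' y^j'`, the last term has `Gn ≤ ε μ` (`hu`); `Gn (lam^(k-1) s0^k) ≤ Gn s0 * ε ≤ ε μ`; `Gn (wp s0 * lam^p z) ≤ μ * ε^p ≤ ε μ` (`wp_bound`; `ε^p ≤ ε`).  So
`gact z = evS τ x y P1 + (negligible)`, `P1 := P - single (p a', p j') (b^p) + single (a', j') b` (by (1)); exponents of `P1`: norm `≤ μ`, and each exponent `m` of `P1` is an exponent of `P` or `p m` is one.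
(4) Iterate (2), (3) as in `exists_redU` (TU/RedU.lean): the sum of the sizes of the exponents of `p`-type terms / the sum of the sizes of all exponents decreases; `gact_gact`, `gact_comp` (GactX.lean) for the composition of
the `s`; `Gn c z ≤ μ` is preserved (`gact_mod`).
-/

namespace Pool.Agent.Lib.MXP

open Pool.Agent.Lib.MP_3029eb_ag Pool.Agent.Lib.MP_3029eb_ag.Abh Pool.Agent.Lib.TDO

variable {E W : Type} [Field E] [NormedField W] [IsUltrametricDist W] [Algebra E W] {r p : ℕ}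
  {S : IntermediateField E W} {c c' : Tri W r} {F : Subfield (RW W)}
  [Fact ((p : W) = 0)]

/-- Negligible elements. -/
def Ng (c : Tri W r) (γ : ℝ) (z : W) : Prop := z ∈ HL c ∧ (Gn c z < γ ∨ Gn c z ≤ 1)

private theorem TrkX_one (hr : 0 < r) (hA : AmbX p r S) (hc : Gd S c) : Gn c 1 = 1 := by
  have h := Gn_mon hr hA hc 0
  rwa [mon_zero, norm_one] at h

theorem Ng.add (hr : 0 < r) (hA : AmbX p r S) (hc : Gd S c) {γ : ℝ} {z z' : W}
    (h : Ng c γ z) (h' : Ng c γ z') : Ng c γ (z + z') := by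
  refine ⟨add_mem h.1 h'.1, ?_⟩
  have h1 := Gn_add_le hr hA hc h.1 h'.1
  rcases h.2 with h2 | h2 <;> rcases h'.2 with h3 | h3
  · exact Or.inl (h1.trans_lt (max_lt h2 h3))
  · rcases le_or_gt γ 1 with h4 | h4
    · exact Or.inr (h1.trans (max_le (h2.le.trans h4) h3))
    · exact Or.inl (h1.trans_lt (max_lt h2 (h3.trans_lt h4)))
  · rcases le_or_gt γ 1 with h4 | h4
    · exact Or.inr (h1.trans (max_le h2 (h3.le.trans h4)))
    · exact Or.inl (h1.trans_lt (max_lt (h2.trans_lt h4) h3))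
  · exact Or.inr (h1.trans (max_le h2 h3))

private theorem TrkX_zero (hr : 0 < r) (hA : AmbX p r S) (hc : Gd S c) {γ : ℝ} :
    Ng c γ 0 := ⟨zero_mem _, Or.inr (by rw [Gn_zero hr hA hc]; exact zero_le_one)⟩

private theorem TrkX_sum (hr : 0 < r) (hA : AmbX p r S) (hc : Gd S c) {γ : ℝ} {ι : Type*}
    (t : Finset ι) (f : ι → W) (h : ∀ i ∈ t, Ng c γ (f i)) : Ng c γ (∑ i ∈ t, f i) := by
  classical
  induction t using Finset.induction_on with
  | empty =>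
    rw [Finset.sum_empty]
    exact TrkX_zero hr hA hc
  | insert a t ha ih =>
    rw [Finset.sum_insert ha]
    exact (h a (Finset.mem_insert_self _ _)).add hr hA hc
      (ih fun i hi => h i (Finset.mem_insert_of_mem hi))

private theorem TrkX_neg (hr : 0 < r) (hA : AmbX p r S) (hc : Gd S c) {γ : ℝ} {z : W}
    (h : Ng c γ z) : Ng c γ (-z) :=
  ⟨neg_mem h.1, by rw [Gn_neg hr hA hc h.1]; exact h.2⟩

/-- monomials in `x, y` -/
private theorem TrkX_m (hr : 0 < r) (hA : AmbX p r S) (hc : Gd S c) (a : Fin r → ℤ) (j : ℕ) :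
    mon c.x a * c.y ^ j ∈ HL c ∧ Gn c (mon c.x a * c.y ^ j) ≤ ‖mon c.x a‖ := by
  have h1 : mon c.x a ∈ HL c := mon_mem_HL a
  have h2 : c.y ^ j ∈ HO c := pow_mem (y_mem_HO hc) j
  refine ⟨mul_mem h1 (HO_le_HL h2), ?_⟩
  rw [Gn_mul hr hA hc h1 (HO_le_HL h2), Gn_mon hr hA hc]
  exact mul_le_of_le_one_right (norm_nonneg _) (Gn_le_one hr hA hc h2)

private theorem TrkX_evHL (hr : 0 < r) (hA : AmbX p r S) (hc : Gd S c) {B0 : Subring W}
    (hB0 : ∀ z ∈ B0, z ∈ HO c) {τ : F → W} (hτ : Sec B0 F τ) (P : LP F r) :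
    evS τ c.x c.y P ∈ HL c := by
  unfold evS
  exact sum_mem fun i _ => mul_mem (HO_le_HL (hB0 _ (hτ.mem _))) (TrkX_m hr hA hc _ _).1

/-- additivity up to small elements -/
private theorem TrkX_add (hr : 0 < r) (hA : AmbX p r S) (hc : Gd S c) {B0 : Subring W}
    (hB0 : ∀ z ∈ B0, z ∈ HO c) {τ : F → W} (hτ : Sec B0 F τ) {ε : ℝ} (hε0 : 0 ≤ ε)
    (hε : ∀ m ∈ B0, ‖m‖ < 1 → Gn c m ≤ ε) {μ : ℝ} (hμ : 0 ≤ μ) {P Q : LP F r}
    (hP : ∀ m, P.coeff m ≠ 0 → ‖mon c.x m.1‖ ≤ μ)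
    (hQ : ∀ m, Q.coeff m ≠ 0 → ‖mon c.x m.1‖ ≤ μ) :
    evS τ c.x c.y (P + Q) - evS τ c.x c.y P - evS τ c.x c.y Q ∈ HL c ∧
    Gn c (evS τ c.x c.y (P + Q) - evS τ c.x c.y P - evS τ c.x c.y Q) ≤ ε * μ := by
  classical
  set D := P.coeff.support ∪ Q.coeff.support with hD
  have hPD : ∀ m, P.coeff m ≠ 0 → m ∈ D := fun m hm =>
    Finset.mem_union_left _ (Finsupp.mem_support_iff.2 hm)
  have hQD : ∀ m, Q.coeff m ≠ 0 → m ∈ D := fun m hm =>
    Finset.mem_union_right _ (Finsupp.mem_support_iff.2 hm)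
  have hPQ : ∀ m, (P + Q).coeff m = P.coeff m + Q.coeff m := fun m => by
    rw [AddMonoidAlgebra.coeff_add, Finsupp.add_apply]
  have hPQD : ∀ m, (P + Q).coeff m ≠ 0 → m ∈ D := by
    intro m hm
    by_cases h1 : P.coeff m = 0
    · refine hQD m fun h2 => hm ?_
      rw [hPQ, h1, h2, add_zero]
    · exact hPD m h1
  have hDμ : ∀ m ∈ D, ‖mon c.x m.1‖ ≤ μ := by
    intro m hm
    rcases Finset.mem_union.1 hm with h1 | h1
    · exact hP m (Finsupp.mem_support_iff.1 h1)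
    · exact hQ m (Finsupp.mem_support_iff.1 h1)
  have key : evS τ c.x c.y (P + Q) - evS τ c.x c.y P - evS τ c.x c.y Q =
      ∑ m ∈ D, (τ (P.coeff m + Q.coeff m) - τ (P.coeff m) - τ (Q.coeff m)) *
        (mon c.x m.1 * c.y ^ m.2) := by
    rw [evS_eq_sum hτ.zero c.x c.y (P + Q) D hPQD, evS_eq_sum hτ.zero c.x c.y P D hPD,
      evS_eq_sum hτ.zero c.x c.y Q D hQD, ← Finset.sum_sub_distrib, ← Finset.sum_sub_distrib]
    refine Finset.sum_congr rfl fun m _ => ?_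
    rw [hPQ]
    ring
  have hm : ∀ u v : F, τ (u + v) - τ u - τ v ∈ B0 ∧ ‖τ (u + v) - τ u - τ v‖ < 1 := by
    intro u v
    have h1 : τ (u + v) - τ u - τ v ∈ B0 := sub_mem (sub_mem (hτ.mem _) (hτ.mem _)) (hτ.mem _)
    have h2 : ‖τ (u + v) - τ u‖ ≤ 1 := by
      rw [sub_eq_add_neg]
      exact (IsUltrametricDist.norm_add_le_max _ _).trans
        (max_le (hτ.norm _) (by rw [norm_neg]; exact hτ.norm _))
    refine ⟨h1, (rs_eq_iff h2 (hτ.norm v)).1 ?_⟩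
    rw [rs_sub (hτ.norm _) (hτ.norm _), hτ.rs, hτ.rs, hτ.rs, Subfield.coe_add]
    ring
  rw [key]
  have hHL : ∀ m ∈ D, (τ (P.coeff m + Q.coeff m) - τ (P.coeff m) - τ (Q.coeff m)) *
        (mon c.x m.1 * c.y ^ m.2) ∈ HL c := fun m _ =>
    mul_mem (HO_le_HL (hB0 _ (hm _ _).1)) (TrkX_m hr hA hc _ _).1
  refine ⟨sum_mem hHL, Gn_sum_le hr hA hc D _ hHL (mul_nonneg hε0 hμ) fun m hmD => ?_⟩
  rw [Gn_mul hr hA hc (HO_le_HL (hB0 _ (hm _ _).1)) (TrkX_m hr hA hc _ _).1]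
  exact mul_le_mul (hε _ (hm _ _).1 (hm _ _).2) ((TrkX_m hr hA hc _ _).2.trans (hDμ m hmD))
    (Gn_nonneg _) hε0

private theorem TrkX_single {τ : F → W} (h0 : τ 0 = 0) (x : Fin r → W) (y : W)
    (m : (Fin r → ℤ) × ℕ) (e : F) :
    evS τ x y (AddMonoidAlgebra.single m e : LP F r) = τ e * (mon x m.1 * y ^ m.2) := by
  unfold evS
  rw [AddMonoidAlgebra.coeff_single, Finsupp.sum_single_index]
  rw [h0, zero_mul]

/-- The restriction of a Laurent polynomial to a set of exponents. -/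
private theorem TrkX_restrict {k : Type} [Field k] {r : ℕ} (P : LP k r)
    (T : (Fin r → ℤ) × ℕ → Prop) : ∃ P' : LP k r,
      (∀ m, T m → P'.coeff m = P.coeff m) ∧ (∀ m, ¬ T m → P'.coeff m = 0) := by
  classical
  refine ⟨AddMonoidAlgebra.ofCoeff (P.coeff.filter T), fun m h => ?_, fun m h => ?_⟩
  · rw [AddMonoidAlgebra.coeff_ofCoeff, Finsupp.filter_apply, if_pos h]
  · rw [AddMonoidAlgebra.coeff_ofCoeff, Finsupp.filter_apply, if_neg h]

/-- dropping the negligible terms -/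
private theorem TrkX_drop (hr : 0 < r) (hA : AmbX p r S) (hc : Gd S c) {B0 : Subring W}
    (hB0 : ∀ z ∈ B0, z ∈ HO c) {τ : F → W} (hτ : Sec B0 F τ) {γ : ℝ} (P : LP F r) :
    ∃ P' : LP F r, (∀ m, P'.coeff m ≠ 0 → γ ≤ ‖mon c.x m.1‖ ∧ 1 < ‖mon c.x m.1‖ ∧
      P'.coeff m = P.coeff m) ∧ Ng c γ (evS τ c.x c.y P - evS τ c.x c.y P') := by
  classical
  obtain ⟨P', h1, h2⟩ := TrkX_restrict P (fun m => γ ≤ ‖mon c.x m.1‖ ∧ 1 < ‖mon c.x m.1‖)
  refine ⟨P', fun m hm => ?_, ?_⟩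
  · by_cases h3 : γ ≤ ‖mon c.x m.1‖ ∧ 1 < ‖mon c.x m.1‖
    · exact ⟨h3.1, h3.2, h1 m h3⟩
    · exact absurd (h2 m h3) hm
  · rw [evS_eq_sum hτ.zero c.x c.y P P.coeff.support (fun m hm => Finsupp.mem_support_iff.2 hm),
      evS_eq_sum hτ.zero c.x c.y P' P.coeff.support (fun m hm => by
        by_cases h3 : γ ≤ ‖mon c.x m.1‖ ∧ 1 < ‖mon c.x m.1‖
        · rw [h1 m h3] at hm
          exact Finsupp.mem_support_iff.2 hm
        · exact absurd (h2 m h3) hm), ← Finset.sum_sub_distrib]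
    refine TrkX_sum hr hA hc _ _ fun m _ => ?_
    by_cases h3 : γ ≤ ‖mon c.x m.1‖ ∧ 1 < ‖mon c.x m.1‖
    · rw [h1 m h3, sub_self]
      exact TrkX_zero hr hA hc
    · rw [h2 m h3, hτ.zero, zero_mul, sub_zero]
      have h4 : τ (P.coeff m) ∈ HO c := hB0 _ (hτ.mem _)
      refine ⟨mul_mem (HO_le_HL h4) (TrkX_m hr hA hc _ _).1, ?_⟩
      have h5 : Gn c (τ (P.coeff m) * (mon c.x m.1 * c.y ^ m.2)) ≤ ‖mon c.x m.1‖ := by
        rw [Gn_mul hr hA hc (HO_le_HL h4) (TrkX_m hr hA hc _ _).1]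
        exact (mul_le_of_le_one_left (Gn_nonneg _) (Gn_le_one hr hA hc h4)).trans
          (TrkX_m hr hA hc _ _).2
      rcases not_and_or.1 h3 with h6 | h6
      · exact Or.inl (h5.trans_lt (not_le.1 h6))
      · exact Or.inr (h5.trans (not_lt.1 h6))

/-- one reduction -/
private theorem TrkX_red (hr : 0 < r) (hA : AmbX p r S) (hc : Gd S c) {B0 : Subring W}
    (hB0 : ∀ z ∈ B0, z ∈ HO c) {τ : F → W} (hτ : Sec B0 F τ) {ε : ℝ} (hε0 : 0 ≤ ε)
    (hε1 : ε < 1) (hε : ∀ m ∈ B0, ‖m‖ < 1 → Gn c m ≤ ε) {lam : W} (hlam : LamP p c lam)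
    {μ γ : ℝ} (hμ : 1 < μ)
    (hlμ : ‖lam‖ ^ p * μ ≤ ε ^ p) (hγ : ε * μ < γ) {P P2 : LP F r}
    (hP : ∀ m, P.coeff m ≠ 0 → ‖mon c.x m.1‖ ≤ μ)
    (hP2 : ∀ m, P2.coeff m ≠ 0 → ‖mon c.x m.1‖ ≤ μ) {a' : Fin r → ℤ} {j' : ℕ} {b : F}
    (ha : ‖mon c.x (p • a')‖ ≤ μ)
    (h2 : P2 + AddMonoidAlgebra.single (p • a', p * j') (b ^ p) =
      P + AddMonoidAlgebra.single (a', j') b) {z E' : W}
    (hz : z = evS τ c.x c.y P + E') (hE : Ng c γ E') (hz1 : Gn c z ≤ μ) :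
    ∃ s ∈ HL c, Gn c s ^ p ≤ μ ∧ ∃ z' : W, Ng c γ z' ∧
      gact p lam s z = evS τ c.x c.y P2 + z' := by
  have : Fact p.Prime := ⟨hA.prime⟩
  have hp := hA.prime
  have hp2 := hp.two_le
  have := charP_RW hA
  have hμ0 : 0 ≤ μ := by linarith
  have hsm : ∀ t : W, t ∈ HL c → Gn c t ≤ ε * μ → Ng c γ t := fun t h1 h3 =>
    ⟨h1, Or.inl (h3.trans_lt hγ)⟩
  have hnorm : ‖mon c.x (p • a')‖ = ‖mon c.x a'‖ ^ p := by
    rw [mon_nsmul, norm_pow]
  have ha2 : ‖mon c.x a'‖ ^ p ≤ μ := by rw [← hnorm]; exact ha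
  have ha3 : ‖mon c.x a'‖ ≤ μ := by
    by_contra hcon
    rw [not_le] at hcon
    have h3 : μ ^ p ≤ ‖mon c.x a'‖ ^ p := pow_le_pow_left₀ hμ0 hcon.le p
    have h4 : μ < μ ^ p := lt_self_pow₀ hμ hp.one_lt
    linarith
  obtain ⟨hM, hMG⟩ := TrkX_m hr hA hc a' j'
  set M : W := mon c.x a' * c.y ^ j' with hMd
  have hMp : mon c.x (p • a') * c.y ^ (p * j') = M ^ p := by
    rw [hMd, mul_pow, ← mon_nsmul, ← pow_mul, mul_comm j']
  have hb : τ b ∈ HO c := hB0 _ (hτ.mem _)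
  have hzHL : z ∈ HL c := by
    rw [hz]
    exact add_mem (TrkX_evHL hr hA hc hB0 hτ P) hE.1
  set s : W := -τ b * M with hs
  have hsHL : s ∈ HL c := mul_mem (neg_mem (HO_le_HL hb)) hM
  have hsG1 : Gn c s ≤ ‖mon c.x a'‖ := by
    rw [hs, Gn_mul hr hA hc (neg_mem (HO_le_HL hb)) hM, Gn_neg hr hA hc (HO_le_HL hb)]
    exact (mul_le_of_le_one_left (Gn_nonneg _) (Gn_le_one hr hA hc hb)).trans hMG
  have hsG : Gn c s ^ p ≤ μ := (pow_le_pow_left₀ (Gn_nonneg _) hsG1 p).trans ha2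
  have hsG2 : Gn c s ≤ μ := hsG1.trans ha3
  have hlp1 : ‖lam‖ ^ p * μ < 1 := hlμ.trans_lt (pow_lt_one₀ hε0 hε1 (by omega))
  have hm : (-τ b) ^ p + τ (b ^ p) ∈ B0 ∧ ‖(-τ b) ^ p + τ (b ^ p)‖ < 1 := by
    have h3 : ‖-τ b‖ ≤ 1 := by rw [norm_neg]; exact hτ.norm _
    have h4 : ‖(-τ b) ^ p‖ ≤ 1 := by rw [norm_pow]; exact pow_le_one₀ (norm_nonneg _) h3
    refine ⟨add_mem (pow_mem (neg_mem (hτ.mem _)) _) (hτ.mem _), ?_⟩
    rw [← rs_eq_zero_iff ((IsUltrametricDist.norm_add_le_max _ _).trans (max_le h4 (hτ.norm _))),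
      rs_add h4 (hτ.norm _), rs_pow h3, rs_neg (hτ.norm _), hτ.rs, hτ.rs, SubmonoidClass.coe_pow,
      ← add_pow_char, neg_add_cancel, zero_pow (by omega)]
  have hn4 : Ng c γ (((-τ b) ^ p + τ (b ^ p)) * M ^ p) := by
    have h3 : (-τ b) ^ p + τ (b ^ p) ∈ HL c := HO_le_HL (hB0 _ hm.1)
    refine hsm _ (mul_mem h3 (pow_mem hM _)) ?_
    rw [Gn_mul hr hA hc h3 (pow_mem hM _), Gn_pow hr hA hc hM]
    exact mul_le_mul (hε _ hm.1 hm.2) ((pow_le_pow_left₀ (Gn_nonneg _) hMG p).trans ha2)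
      (pow_nonneg (Gn_nonneg _) _) hε0
  -- additivity
  have hs1 : ∀ m, (AddMonoidAlgebra.single (p • a', p * j') (b ^ p) : LP F r).coeff m ≠ 0 →
      ‖mon c.x m.1‖ ≤ μ := by
    intro m hm
    rw [AddMonoidAlgebra.coeff_single] at hm
    have h3 := (Finsupp.single_apply_ne_zero.1 hm).1
    rw [h3]
    exact ha
  have hs2 : ∀ m, (AddMonoidAlgebra.single (a', j') b : LP F r).coeff m ≠ 0 →
      ‖mon c.x m.1‖ ≤ μ := by
    intro m hm
    rw [AddMonoidAlgebra.coeff_single] at hm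
    have h3 := (Finsupp.single_apply_ne_zero.1 hm).1
    rw [h3]
    exact ha3
  obtain ⟨hA1, hA2⟩ := TrkX_add hr hA hc hB0 hτ hε0 hε hμ0 hP2 hs1
  obtain ⟨hA3, hA4⟩ := TrkX_add hr hA hc hB0 hτ hε0 hε hμ0 hP hs2
  rw [TrkX_single hτ.zero] at hA1 hA2 hA3 hA4
  simp only at hA1 hA2 hA3 hA4
  rw [h2, hMp] at hA1 hA2
  rw [← hMd] at hA3 hA4
  have hn5 := hsm _ hA1 hA2
  have hn6 := hsm _ hA3 hA4
  refine ⟨s, hsHL, hsG, gact p lam s z - evS τ c.x c.y P2, ?_, by ring⟩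
  have hfin : gact p lam s z - evS τ c.x c.y P2 =
      E' + (((-τ b) ^ p + τ (b ^ p)) * M ^ p +
        ((evS τ c.x c.y (P + AddMonoidAlgebra.single (a', j') b) - evS τ c.x c.y P2 -
          τ (b ^ p) * M ^ p) +
        -(evS τ c.x c.y (P + AddMonoidAlgebra.single (a', j') b) - evS τ c.x c.y P -
          τ b * M))) := by
    have h3 : gact p lam s z = z + (s ^ p - s) := rfl
    rw [h3, hz]
    have h5 : s ^ p = (-τ b) ^ p * M ^ p := by rw [hs, mul_pow]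
    have h6 : s = -τ b * M := hs
    rw [h5]
    linear_combination -h6
  rw [hfin]
  exact hE.add hr hA hc (hn4.add hr hA hc (hn5.add hr hA hc (TrkX_neg hr hA hc hn6)))

/-- the size of an exponent -/
private def TrkX_sz {r : ℕ} (m : (Fin r → ℤ) × ℕ) : ℕ := ∑ i, (m.1 i).natAbs

/-- one step: the size of the support decreases -/
private theorem TrkX_sum_lt {ι : Type} [DecidableEq ι] {S S' : Finset ι} (f : ι → ℕ) {m m' : ι}
    (hm : m ∈ S) (hlt : f m' < f m) (hsub : ∀ x ∈ S', x ≠ m ∧ (x ∈ S ∨ x = m')) :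
    ∑ x ∈ S', f x < ∑ x ∈ S, f x := by
  have h1 : S' ⊆ insert m' (S.erase m) := by
    intro x hx
    obtain ⟨h1, h2⟩ := hsub x hx
    rcases h2 with h2 | h2
    · exact Finset.mem_insert_of_mem (Finset.mem_erase.2 ⟨h1, h2⟩)
    · rw [h2]
      exact Finset.mem_insert_self _ _
  have h2 : ∑ x ∈ S', f x ≤ ∑ x ∈ insert m' (S.erase m), f x :=
    Finset.sum_le_sum_of_subset h1
  have h3 : ∑ x ∈ insert m' (S.erase m), f x ≤ f m' + ∑ x ∈ S.erase m, f x := by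
    by_cases h : m' ∈ S.erase m
    · rw [Finset.insert_eq_of_mem h]
      exact Nat.le_add_left _ _
    · rw [Finset.sum_insert h]
  have h4 := Finset.add_sum_erase S f hm
  omega

open Classical in
private theorem TrkX_main (hr : 0 < r) (hA : AmbX p r S) (hc : Gd S c) {B0 : Subring W}
    (hB0 : ∀ z ∈ B0, z ∈ HO c) {τ : F → W} (hτ : Sec B0 F τ) {ε : ℝ} (hε0 : 0 ≤ ε)
    (hε1 : ε < 1) (hε : ∀ m ∈ B0, ‖m‖ < 1 → Gn c m ≤ ε) {lam : W} (hlam : LamP p c lam)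
    {μ γ : ℝ} (hμ : 1 < μ)
    (hlμ : ‖lam‖ ^ p * μ ≤ ε ^ p) (hγ : ε * μ < γ) (N : ℕ) : ∀ P : LP F r,
    (∑ m ∈ P.coeff.support, TrkX_sz m ≤ N) →
    (∀ m, P.coeff m ≠ 0 → ‖mon c.x m.1‖ ≤ μ) → ∀ z E' : W,
    z = evS τ c.x c.y P + E' → Ng c γ E' → Gn c z ≤ μ →
    ∃ s ∈ HL c, Gn c s ^ p ≤ μ ∧ ∃ P' : LP F r, Rdp p c.x P' ∧
      (∀ a j, P'.coeff (a, j) ≠ 0 → γ ≤ ‖mon c.x a‖ ∧ ‖mon c.x a‖ ≤ μ ∧
        ∃ n : ℕ, P.coeff (p ^ n • a, p ^ n * j) ≠ 0) ∧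
      ∃ z' : W, Ng c γ z' ∧ gact p lam s z = evS τ c.x c.y P' + z' := by
  have hp := hA.prime
  have hp2 := hp.two_le
  have hμ0 : 0 ≤ μ := by linarith
  have hlp1 : ‖lam‖ ^ p * μ < 1 := hlμ.trans_lt (pow_lt_one₀ hε0 hε1 (by omega))
  induction N using Nat.strong_induction_on with
  | _ N ih =>
  intro P hN hP z E' hz hE hz1
  by_cases hbad : ∃ (a : Fin r → ℤ) (j : ℕ), P.coeff (a, j) ≠ 0 ∧ 1 < ‖mon c.x a‖ ∧
      PT p a j (P.coeff (a, j))
  · obtain ⟨a, j, hne, h1a, ⟨a', ha'⟩, ⟨j', hj'⟩, b, hb⟩ := hbad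
    set P2 : LP F r := P - AddMonoidAlgebra.single (a, j) (b ^ p) +
      AddMonoidAlgebra.single (a', j') b with hP2
    have hcoef : ∀ m : (Fin r → ℤ) × ℕ, P2.coeff m = P.coeff m -
        (if m = (a, j) then b ^ p else 0) + (if m = (a', j') then b else 0) := by
      intro m
      rw [hP2, AddMonoidAlgebra.coeff_add, AddMonoidAlgebra.coeff_sub, Finsupp.add_apply,
        Finsupp.sub_apply, AddMonoidAlgebra.coeff_single, AddMonoidAlgebra.coeff_single,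
        Finsupp.single_apply, Finsupp.single_apply]
      have q1 : (if (a, j) = m then b ^ p else 0) = if m = (a, j) then b ^ p else 0 := by
        by_cases h : m = (a, j)
        · rw [if_pos h, if_pos h.symm]
        · rw [if_neg h, if_neg (fun hh => h hh.symm)]
      have q2 : (if (a', j') = m then b else 0) = if m = (a', j') then b else 0 := by
        by_cases h : m = (a', j')
        · rw [if_pos h, if_pos h.symm]
        · rw [if_neg h, if_neg (fun hh => h hh.symm)]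
      rw [q1, q2]
    have hnorm : ‖mon c.x a‖ = ‖mon c.x a'‖ ^ p := by
      rw [ha', mon_nsmul, norm_pow]
    have h1a' : 1 < ‖mon c.x a'‖ := by
      by_contra hcon
      push Not at hcon
      have := pow_le_one₀ (n := p) (norm_nonneg (mon c.x a')) hcon
      rw [← hnorm] at this
      linarith
    have hlt' : ‖mon c.x a'‖ < ‖mon c.x a‖ := by
      rw [hnorm]
      exact lt_self_pow₀ h1a' (by omega)
    have haa' : a' ≠ a := fun h => by
      rw [h] at hlt'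
      exact lt_irrefl _ hlt'
    have hmm' : (a, j) ≠ (a', j') := fun h => haa' (congrArg Prod.fst h).symm
    have h2m : P2.coeff (a, j) = 0 := by
      rw [hcoef, if_pos rfl, if_neg hmm', add_zero, hb, sub_self]
    have hsupp : ∀ m ∈ P2.coeff.support, m ≠ (a, j) ∧ (m ∈ P.coeff.support ∨ m = (a', j')) := by
      intro m hm
      have hm0 : P2.coeff m ≠ 0 := Finsupp.mem_support_iff.1 hm
      have hm1 : m ≠ (a, j) := fun h => hm0 (h ▸ h2m)
      refine ⟨hm1, ?_⟩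
      by_cases hm2 : m = (a', j')
      · exact Or.inr hm2
      · left
        rw [hcoef, if_neg hm1, if_neg hm2, sub_zero, add_zero] at hm0
        exact Finsupp.mem_support_iff.2 hm0
    have hsz : TrkX_sz (a', j') < TrkX_sz (a, j) := by
      unfold TrkX_sz
      simp only
      refine Finset.sum_lt_sum (fun i _ => ?_) ?_
      · rw [ha', Pi.smul_apply, nsmul_eq_mul, Int.natAbs_mul, Int.natAbs_natCast]
        exact Nat.le_mul_of_pos_left _ (by omega)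
      · have h2 : ∃ i, a' i ≠ 0 := by
          by_contra hcon
          push Not at hcon
          have h0 : a' = 0 := funext hcon
          rw [h0, mon_zero, norm_one] at h1a'
          exact lt_irrefl _ h1a'
        obtain ⟨i, hi⟩ := h2
        refine ⟨i, Finset.mem_univ i, ?_⟩
        rw [ha', Pi.smul_apply, nsmul_eq_mul, Int.natAbs_mul, Int.natAbs_natCast]
        have h3 : 0 < (a' i).natAbs := Int.natAbs_pos.2 hi
        have h4 : 2 * (a' i).natAbs ≤ p * (a' i).natAbs := Nat.mul_le_mul_right _ hp2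
        omega
    have hdec : ∑ m ∈ P2.coeff.support, TrkX_sz m < ∑ m ∈ P.coeff.support, TrkX_sz m :=
      TrkX_sum_lt TrkX_sz (Finsupp.mem_support_iff.2 hne) hsz hsupp
    have haμ : ‖mon c.x a‖ ≤ μ := hP (a, j) hne
    have hP2μ : ∀ m, P2.coeff m ≠ 0 → ‖mon c.x m.1‖ ≤ μ := by
      intro m hm
      obtain ⟨-, h2⟩ := hsupp m (Finsupp.mem_support_iff.2 hm)
      rcases h2 with h2 | h2
      · exact hP m (Finsupp.mem_support_iff.1 h2)
      · rw [h2]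
        exact hlt'.le.trans haμ
    have hrel : P2 + AddMonoidAlgebra.single (p • a', p * j') (b ^ p) =
        P + AddMonoidAlgebra.single (a', j') b := by
      rw [hP2, ← ha', ← hj']
      abel
    obtain ⟨s, hs, hsG, z1, hz1N, hgz⟩ := TrkX_red hr hA hc hB0 hτ hε0 hε1 hε hlam hμ hlμ hγ
      hP hP2μ (by rw [← ha']; exact haμ) hrel hz hE hz1
    have hzHL : z ∈ HL c := by
      rw [hz]
      exact add_mem (TrkX_evHL hr hA hc hB0 hτ P) hE.1
    have hgG := (gact_mod hr hA hc hlam hs hzHL hμ hlp1 hsG hz1).2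
    obtain ⟨s', hs', hsG', P', hred, hex, z', hz', hgz'⟩ :=
      ih (∑ m ∈ P2.coeff.support, TrkX_sz m) (lt_of_lt_of_le hdec hN) P2 le_rfl hP2μ _ _ hgz
        hz1N hgG
    obtain ⟨hcH, hcG⟩ := gact_comp hr hA hc hlam hs hs' hμ.le hlp1 hsG hsG'
    refine ⟨_, hcH, hcG, P', hred, ?_, z', hz', ?_⟩
    · intro a1 j1 h1
      obtain ⟨h3, h4, n, hn⟩ := hex a1 j1 h1
      refine ⟨h3, h4, ?_⟩
      obtain ⟨-, h2⟩ := hsupp _ (Finsupp.mem_support_iff.2 hn)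
      rcases h2 with h2 | h2
      · exact ⟨n, Finsupp.mem_support_iff.1 h2⟩
      · refine ⟨n + 1, ?_⟩
        have e1 := (Prod.ext_iff.1 h2).1
        have e2 := (Prod.ext_iff.1 h2).2
        simp only at e1 e2
        have e3 : p ^ (n + 1) • a1 = a := by
          rw [ha', ← e1, smul_smul, pow_succ']
        have e4 : p ^ (n + 1) * j1 = j := by
          rw [hj', ← e2, pow_succ']
          ring
        rw [e3, e4]
        exact hne
    · rw [← gact_gact hA.prime hlam.p0 hlam.zero, hgz']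
  · push Not at hbad
    obtain ⟨P', hP', hdr⟩ := TrkX_drop hr hA hc hB0 hτ (γ := γ) P
    refine ⟨0, zero_mem _, ?_, P', ?_, ?_, evS τ c.x c.y P - evS τ c.x c.y P' + E',
      hdr.add hr hA hc hE, ?_⟩
    · rw [Gn_zero hr hA hc, zero_pow (by omega)]
      exact hμ0
    · intro a j h
      obtain ⟨-, h2, h3⟩ := hP' (a, j) h
      refine ⟨h2, ?_⟩
      rw [h3] at h ⊢
      exact hbad a j h h2
    · intro a j h
      obtain ⟨h1, h2, h3⟩ := hP' (a, j) h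
      rw [h3] at h
      exact ⟨h1, hP _ h, 0, by rwa [pow_zero, one_smul, one_mul]⟩
    · rw [gact_zero hA.prime.ne_zero, hz]
      ring

theorem trk (hr : 0 < r) (hA : AmbX p r S) (hc : Gd S c) {B0 : Subring W}
    (hB0 : ∀ z ∈ B0, z ∈ HO c) {τ : F → W} (hτ : Sec B0 F τ) {ε : ℝ} (hε1 : ε < 1)
    (hε : ∀ m ∈ B0, ‖m‖ < 1 → Gn c m ≤ ε) {lam : W} (hlam : LamP p c lam)
    {μ γ : ℝ} (hμ : 1 < μ)
    (hlμ : ‖lam‖ ^ p * μ ≤ ε ^ p) (hγ : ε * μ < γ) {P : LP F r}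
    (hP : ∀ a j, P.coeff (a, j) ≠ 0 → ‖mon c.x a‖ ≤ μ) {z E' : W}
    (hz : z = evS τ c.x c.y P + E') (hE : Ng c γ E') (hz1 : Gn c z ≤ μ) :
    ∃ s ∈ HL c, Gn c s ^ p ≤ μ ∧ ∃ P' : LP F r, Rdp p c.x P' ∧
      (∀ a j, P'.coeff (a, j) ≠ 0 → γ ≤ ‖mon c.x a‖ ∧ ‖mon c.x a‖ ≤ μ ∧
        ∃ n : ℕ, P.coeff (p ^ n • a, p ^ n * j) ≠ 0) ∧
      ∃ z' : W, Ng c γ z' ∧ gact p lam s z = evS τ c.x c.y P' + z' := by
  have hε0 : 0 ≤ ε := by
    have h1 := hε 0 (zero_mem _) (by rw [norm_zero]; exact zero_lt_one)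
    rwa [Gn_zero hr hA hc] at h1
  exact TrkX_main hr hA hc hB0 hτ hε0 hε1 hε hlam hμ hlμ hγ _ P le_rfl
    (fun m hm => hP m.1 m.2 hm) z E' hz hE hz1

end Pool.Agent.Lib.MXP
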