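import Pool.Agent.Lib.MXP.EDefs
import Pool.Agent.Lib.TU.HenU

set_option autoImplicit false

/-!
# Module SepA: separability over intermediate fields, charts over a trivially normed field
-/

namespace Pool.Agent.Lib.MXP

open Pool.Agent.Lib.MP_3029eb_ag Pool.Agent.Lib.MP_3029eb_ag.Abh Pool.Agent.Lib.TDO

section Fields

variable {E W : Type} [Field E] [Field W] [Algebra E W]

theorem sep_le {K L : IntermediateField E W} (h : K ≤ L) {z : W} (hz : IsSeparable K z) :
    IsSeparable L z := by
  let _ : Algebra K L := (IntermediateField.inclusion h).toRingHom.toAlgebra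
  have _ : IsScalarTower K L W := IsScalarTower.of_algebraMap_eq fun _ => rfl
  exact hz.tower_top L

theorem sep_trans {K L : IntermediateField E W} (h : K ≤ L) (hL : ∀ z ∈ L, IsSeparable K z) {z : W}
    (hz : IsSeparable L z) : IsSeparable K z := by
  let _ : Algebra K L := (IntermediateField.inclusion h).toRingHom.toAlgebra
  have _ : IsScalarTower K L W := IsScalarTower.of_algebraMap_eq fun a => rfl
  have _ : Algebra.IsSeparable K L := ⟨fun w => by
    have h1 := hL (w : W) w.2
    unfold IsSeparable at h1 ⊢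
    have h2 : minpoly K ((algebraMap L W) w) = minpoly K w :=
      minpoly.algebraMap_eq (algebraMap L W).injective w
    rw [← h2]
    exact h1⟩
  exact IsSeparable.of_algebra_isSeparable_of_isSeparable K hz

theorem sep_mem {K : IntermediateField E W} {z : W} (hz : z ∈ K) : IsSeparable K z :=
  isSeparable_algebraMap (F := K) (K := W) (⟨z, hz⟩ : K)

theorem sep_sup_adjoin {K : IntermediateField E W} {X : Set W} (hX : ∀ x ∈ X, IsSeparable K x)
    {z : W} (hz : z ∈ K ⊔ IntermediateField.adjoin E X) : IsSeparable K z := by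
  have hsep : Algebra.IsSeparable K (IntermediateField.adjoin K X) := by
    rw [IntermediateField.isSeparable_adjoin_iff_isSeparable]
    exact hX
  have hle : K ⊔ IntermediateField.adjoin E X ≤
      (IntermediateField.adjoin K X).restrictScalars E := by
    refine sup_le (fun w hw => ?_) (IntermediateField.adjoin_le_iff.2 fun w hw =>
      IntermediateField.subset_adjoin K X hw)
    exact (IntermediateField.adjoin K X).algebraMap_mem (⟨w, hw⟩ : K)
  have hz2 : z ∈ IntermediateField.adjoin K X := hle hz
  have h3 : IsSeparable K (⟨z, hz2⟩ : IntermediateField.adjoin K X) := hsep.isSeparable' _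
  unfold IsSeparable at h3 ⊢
  have h4 : minpoly K (algebraMap (IntermediateField.adjoin K X) W ⟨z, hz2⟩) =
      minpoly K (⟨z, hz2⟩ : IntermediateField.adjoin K X) :=
    minpoly.algebraMap_eq (algebraMap (IntermediateField.adjoin K X) W).injective _
  rw [← h4] at h3
  exact h3

/-- A simple root of a polynomial with coefficients in `K` is separable over `K`. -/
theorem sep_root {K : IntermediateField E W} {P : Polynomial W} (hP : ∀ j, P.coeff j ∈ K) {z : W}
    (h0 : P.eval z = 0) (h1 : P.derivative.eval z ≠ 0) : IsSeparable K z := by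
  obtain ⟨Q, hQ⟩ : ∃ Q : Polynomial K, Q.map (algebraMap K W) = P := by
    rw [← Polynomial.mem_lifts, Polynomial.lifts_iff_coeff_lifts]
    intro n
    exact ⟨⟨P.coeff n, hP n⟩, rfl⟩
  refine TU.sep_of_simple Q ?_ ?_
  · rw [Polynomial.aeval_def, ← Polynomial.eval_map, hQ, h0]
  · rw [Polynomial.aeval_def, ← Polynomial.eval_map, ← Polynomial.derivative_map, hQ]
    exact h1

/-- An element whose `l`-th power is in `K` is separable over `K`, `l` invertible. -/
theorem sep_kum {K : IntermediateField E W} {l : ℕ} (hl : (l : W) ≠ 0) {z : W} (hz : z ^ l ∈ K) :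
    IsSeparable K z := by
  by_cases hz0 : z = 0
  · rw [hz0]; exact sep_mem K.zero_mem
  refine sep_root (P := Polynomial.X ^ l - Polynomial.C (z ^ l)) (fun j => ?_) ?_ ?_
  · rw [Polynomial.coeff_sub, Polynomial.coeff_X_pow, Polynomial.coeff_C]
    refine K.sub_mem ?_ ?_
    · split_ifs
      exacts [K.one_mem, K.zero_mem]
    · split_ifs
      exacts [hz, K.zero_mem]
  · simp
  · rw [Polynomial.derivative_sub, Polynomial.derivative_C, sub_zero, Polynomial.derivative_X_pow,
      Polynomial.eval_mul, Polynomial.eval_C, Polynomial.eval_pow, Polynomial.eval_X]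
    exact mul_ne_zero hl (pow_ne_zero _ hz0)

/-- A root of `T ^ p - T - a`, `a ∈ K`, is separable over `K` (characteristic `p`). -/
theorem sep_as {K : IntermediateField E W} {p : ℕ} (hp : (p : W) = 0) (hp1 : p ≠ 0) {z : W}
    (hz : z ^ p - z ∈ K) : IsSeparable K z := by
  refine sep_root (P := Polynomial.X ^ p - Polynomial.X - Polynomial.C (z ^ p - z))
    (fun j => ?_) ?_ ?_
  · rw [Polynomial.coeff_sub, Polynomial.coeff_sub, Polynomial.coeff_X_pow, Polynomial.coeff_C,
      Polynomial.coeff_X]
    refine K.sub_mem (K.sub_mem ?_ ?_) ?_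
    · split_ifs
      exacts [K.one_mem, K.zero_mem]
    · split_ifs
      exacts [K.one_mem, K.zero_mem]
    · split_ifs
      exacts [hz, K.zero_mem]
  · simp
  · rw [Polynomial.derivative_sub, Polynomial.derivative_sub, Polynomial.derivative_C, sub_zero,
      Polynomial.derivative_X_pow, Polynomial.derivative_X, hp]
    simp

theorem sep_alg {K : IntermediateField E W} {z : W} (hz : IsSeparable K z) : IsAlgebraic K z :=
  hz.isIntegral.isAlgebraic

end Fields

variable {E W : Type} [Field E] [NormedField W] [IsUltrametricDist W] [Algebra E W] {r : ℕ}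

theorem Lam_eq (h : ∀ c : E, c ≠ 0 → ‖algebraMap E W c‖ = 1) {z : W} :
    z ∈ Lam E W ↔ ∃ c : E, algebraMap E W c = z := by
  constructor
  · rintro ⟨h1, -⟩
    exact h1
  · rintro ⟨c, rfl⟩
    refine ⟨⟨c, rfl⟩, ?_⟩
    change algebraMap E W c ∈ ball W
    rw [mem_ball]
    by_cases hc : c = 0
    · rw [hc, map_zero, norm_zero]; exact zero_le_one
    · exact (h c hc).le

theorem norm_natE (h : ∀ c : E, c ≠ 0 → ‖algebraMap E W c‖ = 1) {n : ℕ} (hn : (n : W) ≠ 0) :
    ‖(n : W)‖ = 1 := by
  rw [← map_natCast (algebraMap E W)]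
  refine h _ fun h0 => hn ?_
  rw [← map_natCast (algebraMap E W), h0, map_zero]

theorem Fr_mono {c c' : Tri W r} (h : c.B ≤ c'.B) : Fr E c ≤ Fr E c' :=
  IntermediateField.adjoin.mono E _ _ h

theorem sub_Fr {c : Tri W r} {z : W} (hz : z ∈ c.B) : z ∈ Fr E c :=
  IntermediateField.subset_adjoin E _ hz

end Pool.Agent.Lib.MXP
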