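import Pool.Agent.Lib.MXP.StPw
import Pool.Agent.Lib.MXP.ExpX
import Pool.Agent.Lib.MXP.LeadX

/-!
# Module StLd: the lead form after a stage (paper 3.2)
-/

namespace Pool.Agent.Lib.MXP

open Pool.Agent.Lib.MP_3029eb_ag Pool.Agent.Lib.MP_3029eb_ag.Abh Pool.Agent.Lib.TDO
open Pool.Agent.Lib.TU (Mt exists_Mt)
open Polynomial

section tl

variable {W : Type} [NormedField W] [IsUltrametricDist W] {F : Subfield (RW W)}

/-- The lift of a polynomial with the representatives `τ`. -/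
noncomputable def tl (τ : F → W) (Q : F[X]) : W[X] :=
  ∑ j ∈ Finset.range (Q.natDegree + 1), C (τ (Q.coeff j)) * X ^ j

theorem tl_coeff {τ : F → W} (h0 : τ 0 = 0) (Q : F[X]) (j : ℕ) :
    (tl τ Q).coeff j = τ (Q.coeff j) := by
  unfold tl
  rw [Polynomial.finset_sum_coeff]
  simp only [Polynomial.coeff_C_mul, Polynomial.coeff_X_pow]
  by_cases hj : j < Q.natDegree + 1
  · rw [Finset.sum_eq_single j]
    · rw [if_pos rfl, mul_one]
    · intro i _ hi
      rw [if_neg hi.symm, mul_zero]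
    · intro h
      exact absurd (Finset.mem_range.2 hj) h
  · rw [Finset.sum_eq_zero]
    · rw [Polynomial.coeff_eq_zero_of_natDegree_lt (by omega), h0]
    · intro i hi
      rw [if_neg, mul_zero]
      rintro rfl
      exact hj (Finset.mem_range.1 hi)

theorem tl_mem {B : Subring W} {τ : F → W} (hτ : Sec B F τ) (Q : F[X]) (j : ℕ) :
    (tl τ Q).coeff j ∈ B := by
  rw [tl_coeff hτ.zero]
  exact hτ.mem _

theorem tl_rd {B : Subring W} {τ : F → W} (hτ : Sec B F τ) (Q : F[X]) : Rd (tl τ Q) Q := by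
  intro j
  rw [tl_coeff hτ.zero]
  exact ⟨hτ.norm _, hτ.rs _⟩

theorem tl_eval {τ : F → W} (h0 : τ 0 = 0) (Q : F[X]) (w : W) :
    (tl τ Q).eval w = ∑ j ∈ Q.support, τ (Q.coeff j) * w ^ j := by
  unfold tl
  rw [eval_finset_sum]
  simp only [eval_mul, eval_C, eval_pow, eval_X]
  symm
  refine Finset.sum_subset ?_ ?_
  · intro j hj
    rw [Finset.mem_range, Nat.lt_succ_iff]
    exact le_natDegree_of_mem_supp j hj
  · intro j _ hj
    rw [notMem_support_iff.1 hj, h0, zero_mul]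

end tl

variable {E W : Type} [Field E] [NormedField W] [IsUltrametricDist W] [Algebra E W] {r p : ℕ}
  {S : IntermediateField E W} {c c' : Tri W r} {F : Subfield (RW W)} {e : ℕ} {β : Fin r → ℤ}
  {w : W} {g : F[X]} {G : W[X]} {T : ((Fin r → ℤ) × ℤ) ≃+ ((Fin r → ℤ) × ℤ)}

open Classical in
/-- The value of `P` in terms of the parts. -/
theorem evS_parts (h : St S c c' F e β w g G T) {τ : F → W} (h0 : τ 0 = 0) (P : LP F r)
    (hT : ∀ a j, P.coeff (a, j) ≠ 0 → 0 ≤ (T (a, (j : ℤ))).2) :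
    evS τ c.x c.y P = ∑ b ∈ P.coeff.support.image (fun n => (T (n.1, (n.2 : ℤ))).1),
      mon c'.x b * (tl τ (part T P b)).eval w := by
  have key : ∀ b, mon c'.x b * (tl τ (part T P b)).eval w =
      ∑ n ∈ P.coeff.support.filter (fun n => (T (n.1, (n.2 : ℤ))).1 = b),
        τ (P.coeff n) * (mon c.x n.1 * c.y ^ n.2) := by
    intro b
    rw [tl_eval h0, Finset.mul_sum]
    symm
    refine Finset.sum_nbij (fun n => (T (n.1, (n.2 : ℤ))).2.toNat) ?_ ?_ ?_ ?_
    · intro n hn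
      rw [Finset.mem_filter, Finsupp.mem_support_iff] at hn
      have h1 := part_coeff T P hT n.1 n.2 hn.1
      rw [hn.2] at h1
      rw [mem_support_iff, h1]
      exact hn.1
    · intro n hn n' hn' hnn
      rw [Finset.mem_coe, Finset.mem_filter, Finsupp.mem_support_iff] at hn hn'
      have h1 := hT n.1 n.2 hn.1
      have h2 := hT n'.1 n'.2 hn'.1
      have h3 : (T (n.1, (n.2 : ℤ))).2 = (T (n'.1, (n'.2 : ℤ))).2 := by
        have h4 : ((T (n.1, (n.2 : ℤ))).2.toNat : ℤ) = ((T (n'.1, (n'.2 : ℤ))).2.toNat : ℤ) := by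
          exact_mod_cast hnn
        rwa [Int.toNat_of_nonneg h1, Int.toNat_of_nonneg h2] at h4
      have h5 : T (n.1, (n.2 : ℤ)) = T (n'.1, (n'.2 : ℤ)) :=
        Prod.ext (hn.2.trans hn'.2.symm) h3
      have h6 := T.injective h5
      rw [Prod.mk.injEq, Nat.cast_inj] at h6
      exact Prod.ext h6.1 h6.2
    · intro j hj
      rw [Finset.mem_coe, mem_support_iff] at hj
      obtain ⟨a, i, h1, h2⟩ := part_coeff_ne T P hT b j hj
      refine ⟨(a, i), ?_, ?_⟩
      · rw [Finset.mem_coe, Finset.mem_filter, Finsupp.mem_support_iff]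
        exact ⟨h1, by rw [h2]⟩
      · change (T (a, (i : ℤ))).2.toNat = j
        rw [h2]
        exact Int.toNat_natCast j
    · intro n hn
      rw [Finset.mem_filter, Finsupp.mem_support_iff] at hn
      have h1 := part_coeff T P hT n.1 n.2 hn.1
      rw [hn.2] at h1
      have h2 := h.hm n.1 (n.2 : ℤ)
      rw [zpow_natCast] at h2
      have h3 : w ^ (T (n.1, (n.2 : ℤ))).2 = w ^ (T (n.1, (n.2 : ℤ))).2.toNat := by
        rw [← zpow_natCast, Int.toNat_of_nonneg (hT n.1 n.2 hn.1)]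
      rw [h1, h2, hn.2, h3]
      ring
  rw [Finset.sum_congr rfl fun b _ => key b]
  rw [Finset.sum_fiberwise_of_maps_to (fun n hn => Finset.mem_image_of_mem _ hn)]
  rfl

theorem St.g_facts (h : St S c c' F e β w g G T) : ¬ g ∣ (X : F[X]) ∧ 1 ≤ g.natDegree := by
  refine ⟨fun hd => ?_, ?_⟩
  · obtain ⟨R, hR⟩ := hd
    have h1 := congrArg (aeval (rs w)) hR
    rw [map_mul, h.gw, zero_mul, aeval_X] at h1
    exact (rs_ne_zero_iff h.w1.le).2 h.w1 h1
  · exact h.gi.natDegree_pos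

/-- The lead form of a Laurent polynomial after a stage, with the leading part of `T`-exponent
`α`. -/
theorem st_lead (hr : 0 < r) (h : St S c c' F e β w g G T) {τ : F → W}
    (hτ : Sec c.B F τ) (hA : AmbX p r S) (P : LP F r)
    (hT : ∀ a j, P.coeff (a, j) ≠ 0 → 0 ≤ (T (a, (j : ℤ))).2)
    (he : e = 1 → c'.x = c.x ∧ ∀ (a : Fin r → ℤ) (j : ℤ), T (a, j) = (a + j • β, j))
    {a0 : Fin r → ℤ} {d : ℕ} (hl : Lead c.x P a0 d) :
    ∃ (α : Fin r → ℤ) (d' : ℕ), Ld c' (evS τ c.x c.y P) α d' ∧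
      ‖mon c.x a0 * c.y ^ d‖ ≤ ‖mon c'.x α‖ ∧ d' * (e * g.natDegree) ≤ d ∧
      (e * g.natDegree = 1 → d' = d → α = a0 + d • β ∧ P.coeff (a0 + d • β, 0) ≠ 0) := by
  classical
  have hok := h.gd
  have hok' := h.gd'
  have hx := hok.ind
  have hx' := hok'.ind
  have hyne := hok.y_ne hA
  obtain ⟨hgX, -⟩ := St.g_facts h
  obtain ⟨α, a1, j1, m1, D, hc1, hTa1, hjD, hφ0, hmax, hlow, hdeg, hex, hnrm⟩ :=
    lead_stageX hx hyne hok.y1 h.w1 h.e1 h.hT h.hm P hT hl
  set φ := part T P α with hφ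
  obtain ⟨d', φ', hfac, hφ', v, hv, hv1, q, hq, hval⟩ := h.lead_poly hr (tl_mem hτ φ)
    (tl_rd hτ φ) hφ0
  -- the degree bound
  have hXd : (X : F[X]) ^ m1 ∣ φ := X_pow_dvd_iff.2 hlow
  obtain ⟨ψ, hψ⟩ := hXd
  have hψ0 : ψ ≠ 0 := by
    rintro rfl
    apply hφ0
    rw [hψ, mul_zero]
  have hφd : φ.natDegree = m1 + ψ.natDegree := by
    rw [hψ, natDegree_mul (pow_ne_zero _ X_ne_zero) hψ0, natDegree_X_pow]
  have hψD : ψ.natDegree ≤ D := by omega
  have hcop : IsCoprime (g ^ d') ((X : F[X]) ^ m1) :=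
    ((h.gi.coprime_iff_not_dvd).2 hgX).pow
  have hdvd : g ^ d' ∣ ψ := by
    refine hcop.dvd_of_dvd_mul_left ?_
    rw [← hψ, hfac]
    exact Dvd.intro _ rfl
  have hgd : (g ^ d').natDegree = d' * g.natDegree := natDegree_pow _ _
  have hdD : d' * g.natDegree ≤ D := by
    rw [← hgd]
    exact (natDegree_le_of_dvd hdvd hψ0).trans hψD
  have hde : d' * (e * g.natDegree) ≤ d - j1 := by
    have h1 : d' * (e * g.natDegree) = (d' * g.natDegree) * e := by ring
    rw [h1]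
    have h2 : (d' * g.natDegree) * e ≤ D * e := Nat.mul_le_mul_right e hdD
    omega
  -- the lead form
  have hαim : α ∈ P.coeff.support.image (fun n => (T (n.1, (n.2 : ℤ))).1) := by
    rw [Finset.mem_image]
    exact ⟨(a1, j1), Finsupp.mem_support_iff.2 hc1, by rw [hTa1]⟩
  have hld : Ld c' (evS τ c.x c.y P) α d' := by
    refine ⟨v, hv, hv1, q +
      ∑ b ∈ (P.coeff.support.image (fun n => (T (n.1, (n.2 : ℤ))).1)).erase α,
        mon c'.x (b - α) * (tl τ (part T P b)).eval w, ?_, ?_⟩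
    · refine QH_add hok' hq (QH_sum hr hok' _ _ fun b hb => ?_)
      refine mon_mul_mem_QH hok' ?_ (h.eval_mem (tl_mem hτ _))
      rw [Finset.mem_erase, Finset.mem_image] at hb
      obtain ⟨hne, ⟨⟨a, j⟩, hn, rfl⟩⟩ := hb
      have h1 := hmax a j (Finsupp.mem_support_iff.1 hn)
      have hα0 : 0 < ‖mon c'.x α‖ := norm_pos_iff.2 (mon_ne _ hx'.ne _)
      rw [sub_eq_add_neg, mon_add _ hx'.ne, mon_neg, norm_mul, norm_inv,
        mul_inv_lt_iff₀ hα0, one_mul]
      refine lt_of_le_of_ne h1 fun h2 => hne (norm_mon_inj hx' h2)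
    · rw [evS_parts h hτ.zero P hT, ← Finset.add_sum_erase _ _ hαim, ← add_assoc, mul_add,
        Finset.mul_sum, ← hφ, hval]
      congr 1
      refine Finset.sum_congr rfl fun b _ => ?_
      rw [← mul_assoc, ← mon_add _ hx'.ne]
      congr 2
      abel
  refine ⟨α, d', hld, hnrm, by omega, ?_⟩
  intro hef hdd
  have he1 : e = 1 := Nat.eq_one_of_mul_eq_one_right hef
  have hf1 : g.natDegree = 1 := Nat.eq_one_of_mul_eq_one_left hef
  obtain ⟨hcx, hTT⟩ := he he1
  rw [hf1, mul_one] at hdD hgd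
  rw [he1, mul_one] at hjD
  have hDd : D = d := by omega
  have hj1 : j1 = 0 := by omega
  have h3 := hTT a1 (j1 : ℤ)
  rw [hTa1, hj1] at h3
  have hα1 : α = a1 := by
    have := congrArg Prod.fst h3
    simpa using this
  have hm1 : m1 = 0 := by
    have := congrArg Prod.snd h3
    simpa using this
  have hφne : φ' ≠ 0 := by
    rintro rfl
    apply hφ0
    rw [hfac, mul_zero]
  have hdφ : φ.natDegree = d := by
    have h4 : φ.natDegree = (g ^ d').natDegree + φ'.natDegree := by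
      rw [hfac, natDegree_mul (pow_ne_zero _ h.gi.ne_zero) hφne]
    omega
  have hlc : φ.coeff d ≠ 0 := by
    rw [← hdφ, coeff_natDegree]
    exact leadingCoeff_ne_zero.2 hφ0
  obtain ⟨i, hi, hci, -⟩ := hex d hlc
  have hi' : i = d := by omega
  rw [hi', he1, hj1, mul_one, zero_add, ← hα1] at hci
  have h5 := hl.max _ _ hci
  have h6 := h.hm (α - d • β) (d : ℤ)
  have h7 : T (α - d • β, (d : ℤ)) = (α, (d : ℤ)) := by
    rw [hTT]
    refine Prod.ext ?_ rfl
    simp
  rw [h7, hcx, zpow_natCast, zpow_natCast] at h6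
  have h8 : ‖mon c.x (α - d • β)‖ * ‖c.y‖ ^ d = ‖mon c.x α‖ := by
    rw [← norm_pow, ← norm_mul, h6, norm_mul, norm_pow, h.w1, one_pow, mul_one]
  have hyp : 0 < ‖c.y‖ ^ d := pow_pos (norm_pos_iff.2 hyne) d
  rw [hcx, norm_mul, norm_pow, ← h8] at hnrm
  have h9 : ‖mon c.x a0‖ ≤ ‖mon c.x (α - d • β)‖ := le_of_mul_le_mul_right hnrm hyp
  have h10 : a0 = α - d • β := norm_mon_inj hx (le_antisymm h9 h5)
  have h11 : α = a0 + d • β := by
    rw [h10]
    simp
  refine ⟨h11, ?_⟩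
  rw [← h11]
  rw [hj1, ← hα1] at hc1
  exact hc1

end Pool.Agent.Lib.MXP
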