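import Pool.Agent.Lib.MXP.HOb
import Pool.Agent.Lib.MXP.Dim

/-!
# Module YPow: powers of `y` are not in `QH`
-/

namespace Pool.Agent.Lib.MXP

open Pool.Agent.Lib.MP_3029eb_ag Pool.Agent.Lib.MP_3029eb_ag.Abh Pool.Agent.Lib.TDO
open Pool.Agent.Lib.TU (Mt exists_Mt)

variable {E W : Type} [Field E] [NormedField W] [IsUltrametricDist W] [Algebra E W] {r p : ℕ}
  {S : IntermediateField E W} {c : Tri W r}

theorem y_pow_not_QH (hr : 0 < r) (hA : AmbX p r S) (hok : Gd S c) (n : ℕ) : c.y ^ n ∉ QH c := by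
  classical
  rintro ⟨a, ha, h, hh, heq⟩
  obtain ⟨x', hm, hs, hZ, hY⟩ := exists_model hok {h} (by simpa using hh) {a} (by simpa using ha.le)
  obtain ⟨β, hβ, hβ1⟩ := hY a (Finset.mem_singleton_self a)
  let i0 : Fin r := ⟨0, hr⟩
  have h1 : 1 ≤ β i0 := hβ1 ha i0
  have h2 : monN x' β = monN x' (Function.update β i0 (β i0 - 1)) * x' i0 := by
    unfold monN
    rw [← Finset.mul_prod_erase _ _ (Finset.mem_univ i0),
      ← Finset.mul_prod_erase (a := i0) _ (fun i => x' i ^ (Function.update β i0 (β i0 - 1)) i)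
        (Finset.mem_univ i0)]
    rw [Function.update_self]
    have h3 : ∏ j ∈ Finset.univ.erase i0, x' j ^ (Function.update β i0 (β i0 - 1)) j =
        ∏ j ∈ Finset.univ.erase i0, x' j ^ β j := by
      refine Finset.prod_congr rfl fun j hj => ?_
      rw [Function.update_of_ne (Finset.ne_of_mem_erase hj)]
    rw [h3]
    obtain ⟨q, hq⟩ : ∃ q, β i0 = q + 1 := ⟨β i0 - 1, by omega⟩
    rw [hq, Nat.add_sub_cancel, pow_succ]
    ring
  refine gs_y_pow hA hs n
    (Pi.single i0 (monN x' (Function.update β i0 (β i0 - 1)) * h)) ?_ ?_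
  · intro i
    by_cases hi : i = i0
    · rw [hi, Pi.single_eq_same]
      exact mul_mem (monN_mem_Bx _) (hZ h (Finset.mem_singleton_self h))
    · rw [Pi.single_eq_of_ne hi]
      exact zero_mem _
  · rw [Finset.sum_eq_single i0]
    · rw [Pi.single_eq_same, heq, hβ, h2]
      ring
    · intro j _ hj
      rw [Pi.single_eq_of_ne hj, zero_mul]
    · intro hi
      exact absurd (Finset.mem_univ i0) hi

end Pool.Agent.Lib.MXP
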